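import Pool.Agent.Work.MP_6bf1e5_an.Ens.Dom

/-!
Calculus for `pd` and for functions that are jointly smooth in space and time
(compare `Work/MP_6bf1e5_an/B/Classical.lean`, where the same is done on `Fin 3 → ℝ`).
-/

open scoped ContDiff ENNReal FourierTransform Topology ComplexConjugate
open Set MeasureTheory Filter Polynomial Metric

namespace Pool.Agent.Work.MP_6bf1e5_an.Ens

noncomputable section

variable {ι : Type} [Fintype ι]

theorem pd_add {f g : R3 → ℝ} {x : R3} (hf : DifferentiableAt ℝ f x) (hg : DifferentiableAt ℝ g x)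
    (j : Fin 3) : pd j (fun y => f y + g y) x = pd j f x + pd j g x := by
  unfold pd
  rw [fderiv_fun_add hf hg, add_apply]
theorem pd_sub {f g : R3 → ℝ} {x : R3} (hf : DifferentiableAt ℝ f x) (hg : DifferentiableAt ℝ g x)
    (j : Fin 3) : pd j (fun y => f y - g y) x = pd j f x - pd j g x := by
  unfold pd
  rw [fderiv_fun_sub hf hg, sub_apply]
theorem pd_mul {f g : R3 → ℝ} {x : R3} (hf : DifferentiableAt ℝ f x) (hg : DifferentiableAt ℝ g x)
    (j : Fin 3) : pd j (fun y => f y * g y) x = pd j f x * g x + f x * pd j g x := by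
  unfold pd
  rw [fderiv_fun_mul hf hg]
  simp only [add_apply, smul_apply, smul_eq_mul]
  ring
theorem pd_const_mul (r : ℝ) (f : R3 → ℝ) (j : Fin 3) (x : R3) :
    pd j (fun y => r * f y) x = r * pd j f x := by
  have h := congrFun (fderiv_const_smul_field (𝕜 := ℝ) (f := f) r) x
  exact congrArg (fun L : R3 →L[ℝ] ℝ => L (EuclideanSpace.single j 1)) h
theorem pd_const (r : ℝ) (j : Fin 3) (x : R3) : pd j (fun _ => r) x = 0 := by
  unfold pd
  rw [fderiv_fun_const]
  rfl
theorem pd_coord (i j : Fin 3) (x : R3) : pd j (fun y : R3 => y i) x = if i = j then 1 else 0 := by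
  have h : fderiv ℝ (fun y : R3 => y i) x = EuclideanSpace.proj i :=
    (EuclideanSpace.proj (𝕜 := ℝ) i).fderiv
  unfold pd
  rw [h]
  simp
theorem pd_sum {α : Type} (s : Finset α) {f : α → R3 → ℝ} {x : R3}
    (hf : ∀ a ∈ s, DifferentiableAt ℝ (f a) x) (j : Fin 3) :
    pd j (fun y => ∑ a ∈ s, f a y) x = ∑ a ∈ s, pd j (f a) x := by
  unfold pd
  rw [fderiv_fun_sum hf, sum_apply]
theorem contDiff_pd {f : R3 → ℝ} (hf : ContDiff ℝ ∞ f) (j : Fin 3) : ContDiff ℝ ∞ (pd j f) :=
  (hf.fderiv_right (m := ∞) (by simp)).clm_apply contDiff_const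
theorem pd_comm {f : R3 → ℝ} (hf : ContDiff ℝ ∞ f) (i j : Fin 3) (x : R3) :
    pd i (pd j f) x = pd j (pd i f) x := by
  have hd : DifferentiableAt ℝ (fderiv ℝ f) x :=
    (hf.fderiv_right (m := ∞) (by simp)).differentiable (by simp) x
  have key : ∀ k l : Fin 3, pd k (pd l f) x = fderiv ℝ (fderiv ℝ f) x (EuclideanSpace.single k 1)
      (EuclideanSpace.single l 1) := by
    intro k l
    change fderiv ℝ (fun y => fderiv ℝ f y (EuclideanSpace.single l 1)) x _ = _
    rw [fderiv_clm_apply hd (differentiableAt_const _)]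
    simp
  rw [key, key]
  exact (hf.contDiffAt.isSymmSndFDerivAt
    (by rw [minSmoothness_of_isRCLikeNormedField]; exact ENat.LEInfty.out)).eq _ _
theorem fderiv_eq_sum_pd (f : R3 → ℝ) (x v : R3) : fderiv ℝ f x v = ∑ j, v j * pd j f x := by
  have e : v = ∑ j, v j • EuclideanSpace.single j (1 : ℝ) := by
    simpa using ((EuclideanSpace.basisFun (Fin 3) ℝ).sum_repr v).symm
  conv_lhs => rw [e]
  simp only [map_sum, map_smul, smul_eq_mul, pd]
theorem abs_pd_le (f : R3 → ℝ) (j : Fin 3) (x : R3) : |pd j f x| ≤ ‖fderiv ℝ f x‖ := by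
  simpa [pd] using (fderiv ℝ f x).le_opNorm (EuclideanSpace.single j 1)
theorem norm_fderiv_sq (f : R3 → ℝ) (x : R3) : ‖fderiv ℝ f x‖ ^ 2 = ∑ j, pd j f x ^ 2 := by
  rw [(EuclideanSpace.basisFun (Fin 3) ℝ).norm_dual]
  simp [pd]
theorem norm_iteratedFDeriv_pd_le {f : R3 → ℝ} (hf : ContDiff ℝ ∞ f) (j : Fin 3) (n : ℕ) (x : R3) :
    ‖iteratedFDeriv ℝ n (pd j f) x‖ ≤ ‖iteratedFDeriv ℝ (n + 1) f x‖ := by
  have h := norm_iteratedFDeriv_clm_apply_const (c := EuclideanSpace.single j (1 : ℝ)) (x := x)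
    (n := n) (hf.fderiv_right (m := ∞) (by simp)).contDiffAt (by exact_mod_cast le_top)
  rw [norm_iteratedFDeriv_fderiv, PiLp.norm_single, norm_one, one_mul] at h
  exact h
theorem norm_sq_eq_sum (v : R3) : ‖v‖ ^ 2 = ∑ i, v i ^ 2 := EuclideanSpace.real_norm_sq_eq v

theorem Test.pd {φ : R3 → ℝ} (h : Test φ) (j : Fin 3) : Test (pd j φ) :=
  ⟨contDiff_pd h.1 j, h.2.fderiv_apply (𝕜 := ℝ) _⟩
theorem Test.mul {φ f : R3 → ℝ} (h : Test φ) (hf : ContDiff ℝ ∞ f) : Test fun x => φ x * f x :=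
  ⟨h.1.mul hf, h.2.mul_right⟩
theorem Test.add {φ ψ : R3 → ℝ} (h : Test φ) (g : Test ψ) : Test fun x => φ x + ψ x :=
  ⟨h.1.add g.1, h.2.add g.2⟩
theorem Test.sub {φ ψ : R3 → ℝ} (h : Test φ) (g : Test ψ) : Test fun x => φ x - ψ x :=
  ⟨h.1.sub g.1, h.2.sub g.2⟩
theorem Test.sum {α : Type} (s : Finset α) {φ : α → R3 → ℝ} (h : ∀ a ∈ s, Test (φ a)) :
    Test fun x => ∑ a ∈ s, φ a x := by
  classical
  induction s using Finset.induction_on with
  | empty =>
    simp only [Finset.sum_empty]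
    exact ⟨contDiff_const, HasCompactSupport.zero⟩
  | insert a s ha ih =>
    simp only [Finset.sum_insert ha]
    exact (h a (Finset.mem_insert_self a s)).add
      (ih fun b hb => h b (Finset.mem_insert_of_mem hb))
theorem Test.integrable_mul {φ f : R3 → ℝ} (h : Test φ) (hf : Continuous f) :
    Integrable fun x => f x * φ x :=
  (hf.mul h.1.continuous).integrable_of_hasCompactSupport h.2.mul_left
theorem integral_pd_mul {f φ : R3 → ℝ} (hf : ContDiff ℝ ∞ f) (h : Test φ) (j : Fin 3) :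
    ∫ x, pd j f x * φ x = -∫ x, f x * pd j φ x := by
  have h1 := integral_mul_fderiv_eq_neg_fderiv_mul_of_integrable (μ := (volume : Measure R3))
    (f := f) (g := φ) (v := EuclideanSpace.single j 1)
    (h.integrable_mul (contDiff_pd hf j).continuous) ((h.pd j).integrable_mul hf.continuous)
    (h.integrable_mul hf.continuous) (fun x _ => hf.differentiable (by simp) x)
    (fun x _ => h.1.differentiable (by simp) x)
  unfold pd
  rw [h1, neg_neg]

/-- Jointly smooth on `ℝ³ × I`. -/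
def JS (I : Set ℝ) (F : R3 → ℝ → ℝ) : Prop := ContDiffOn ℝ ∞ (fun z : R3 × ℝ => F z.1 z.2) (univ ×ˢ I)

variable {I : Set ℝ} {F G : R3 → ℝ → ℝ}

theorem JS.slice (h : JS I F) {t : ℝ} (ht : t ∈ I) : ContDiff ℝ ∞ fun x => F x t :=
  contDiffOn_univ.mp <| ContDiffOn.comp (g := fun z : R3 × ℝ => F z.1 z.2)
    (f := fun x : R3 => (x, t)) h (by fun_prop) fun _ _ => ⟨mem_univ _, ht⟩
theorem JS.mono (h : JS I F) {J : Set ℝ} (hJ : J ⊆ I) : JS J F :=
  ContDiffOn.mono h (prod_mono subset_rfl hJ)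
theorem JS.add (h : JS I F) (g : JS I G) : JS I fun x t => F x t + G x t := ContDiffOn.add h g
theorem JS.sub (h : JS I F) (g : JS I G) : JS I fun x t => F x t - G x t := ContDiffOn.sub h g
theorem JS.mul (h : JS I F) (g : JS I G) : JS I fun x t => F x t * G x t := ContDiffOn.mul h g
theorem JS.const_mul (h : JS I F) (r : ℝ) : JS I fun x t => r * F x t :=
  ContDiffOn.mul contDiffOn_const h
theorem JS.sum {α : Type} (s : Finset α) {F : α → R3 → ℝ → ℝ} (h : ∀ a ∈ s, JS I (F a)) :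
    JS I fun x t => ∑ a ∈ s, F a x t := ContDiffOn.sum h
theorem JS.of_contDiff {f : R3 → ℝ} (h : ContDiff ℝ ∞ f) : JS I fun x _ => f x :=
  (h.comp contDiff_fst).contDiffOn
theorem JS.pd (h : JS I F) (hI : UniqueDiffOn ℝ I) (j : Fin 3) :
    JS I fun x t => pd j (fun y => F y t) x := by
  have hS : UniqueDiffOn ℝ ((univ : Set R3) ×ˢ I) := uniqueDiffOn_univ.prod hI
  have h1 := (ContDiffOn.fderivWithin h hS (m := ∞) (by simp)).clm_apply
    (contDiffOn_const (c := ((EuclideanSpace.single j 1 : R3), (0 : ℝ))))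
  refine h1.congr fun z hz => ?_
  have h2 := (h.differentiableOn (by simp) z hz).hasFDerivWithinAt
  have h3 : HasFDerivAt (fun y : R3 => (y, z.2)) (ContinuousLinearMap.inl ℝ R3 ℝ) z.1 :=
    hasFDerivAt_prodMk_left z.1 z.2
  have h4 := h2.comp (f := fun y : R3 => (y, z.2)) z.1 (h3.hasFDerivWithinAt (s := univ))
    (fun y _ => ⟨mem_univ _, hz.2⟩)
  have h5 := (hasFDerivWithinAt_univ.mp h4).fderiv
  exact congrArg (fun L : R3 →L[ℝ] ℝ => L (EuclideanSpace.single j 1)) h5
theorem basic_time (h : JS I F) (x : R3) {t : ℝ} (ht : t ∈ I) : HasDerivWithinAt (fun s => F x s)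
    (fderivWithin ℝ (fun z : R3 × ℝ => F z.1 z.2) (univ ×ˢ I) (x, t) ((0 : R3), (1 : ℝ))) I t := by
  have h2 := (h.differentiableOn (by simp) (x, t) ⟨mem_univ _, ht⟩).hasFDerivWithinAt
  have h3 : HasDerivWithinAt (fun s : ℝ => (x, s)) ((0 : R3), (1 : ℝ)) I t :=
    ((hasDerivAt_const t x).prodMk (hasDerivAt_id' t)).hasDerivWithinAt
  exact HasFDerivWithinAt.comp_hasDerivWithinAt (l := fun z : R3 × ℝ => F z.1 z.2)
    (f := fun s : ℝ => (x, s)) t h2 h3 (fun s hs => ⟨mem_univ _, hs⟩)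
theorem JS.time (h : JS I F) (hI : UniqueDiffOn ℝ I) :
    JS I fun x t => derivWithin (fun s => F x s) I t := by
  have hS : UniqueDiffOn ℝ ((univ : Set R3) ×ˢ I) := uniqueDiffOn_univ.prod hI
  have h1 := (ContDiffOn.fderivWithin h hS (m := ∞) (by simp)).clm_apply
    (contDiffOn_const (c := ((0 : R3), (1 : ℝ))))
  exact h1.congr fun z hz => (basic_time h z.1 hz.2).derivWithin (hI _ hz.2)
theorem JS.hasDerivWithinAt (h : JS I F) (x : R3) {t : ℝ} (ht : t ∈ I) :
    HasDerivWithinAt (fun s => F x s) (derivWithin (fun s => F x s) I t) I t :=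
  (basic_time h x ht).differentiableWithinAt.hasDerivWithinAt
theorem basic_loc_bound (h : JS I F) {K : Set R3} (hK : IsCompact K) {t : ℝ} (ht : t ∈ I) :
    ∃ C, ∀ᶠ s in 𝓝[I] t, ∀ x ∈ K, ‖F x s‖ ≤ C := by
  obtain ⟨C, hC⟩ := hK.exists_bound_of_continuousOn (h.slice ht).continuous.continuousOn
  refine ⟨C + 1, eventually_nhdsWithin_iff.2 ?_⟩
  have key := hK.eventually_forall_of_forall_eventually (x₀ := t)
    (P := fun s x => s ∈ I → ‖F x s‖ ≤ C + 1) fun y hy => by
      have h1 := (h.continuousOn (y, t) ⟨mem_univ _, ht⟩).norm.eventually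
        (gt_mem_nhds (lt_add_one _))
      have h2 := (continuous_swap.tendsto (t, y)).eventually (eventually_nhdsWithin_iff.1 h1)
      filter_upwards [h2] with z hz hz'
      exact (hz ⟨mem_univ _, hz'⟩).le.trans (add_le_add_left (hC y hy) 1)
  filter_upwards [key] with s hs hs' x hx
  exact hs x hx hs'
theorem JS.continuousOn_setIntegral (h : JS I F) {K : Set R3} (hK : Bornology.IsBounded K)
    (hm : MeasurableSet K) : ContinuousOn (fun t => ∫ x in K, F x t) I := by
  intro t ht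
  obtain ⟨C, hC⟩ := basic_loc_bound h hK.isCompact_closure ht
  refine continuousWithinAt_of_dominated (bound := fun _ => C) ?_ ?_
    (integrableOn_const hK.measure_lt_top.ne) (Eventually.of_forall fun x => ?_)
  · filter_upwards [self_mem_nhdsWithin] with s hs
    exact (h.slice hs).continuous.aestronglyMeasurable
  · filter_upwards [hC] with s hs
    filter_upwards [ae_restrict_mem hm] with x hx
    exact hs x (subset_closure hx)
  · exact (h.hasDerivWithinAt x ht).continuousWithinAt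
theorem JS.continuousOn_integral (h : JS I F) {φ : R3 → ℝ} (hφ : Test φ) :
    ContinuousOn (fun t => ∫ x, F x t * φ x) I := by
  refine continuousOn_integral_of_compact_support (f := fun t x => F x t * φ x) hφ.2 ?_
    fun t x _ hx => by rw [image_eq_zero_of_notMem_tsupport hx, mul_zero]
  exact ((h.mul (JS.of_contDiff hφ.1)).continuousOn.comp continuous_swap.continuousOn
    fun z hz => ⟨mem_univ _, hz.1⟩)
theorem JS.hasDerivWithinAt_integral {T : ℝ} (hT : 0 < T) (h : JS (Icc 0 T) F) {φ : R3 → ℝ}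
    (hφ : Test φ) {t : ℝ} (ht : t ∈ Icc 0 T) : HasDerivWithinAt (fun s => ∫ x, F x s * φ x)
      (∫ x, derivWithin (fun s => F x s) (Icc 0 T) t * φ x) (Icc 0 T) t := by
  have hd := h.time (uniqueDiffOn_Icc hT)
  obtain ⟨C, hC⟩ := IsCompact.exists_bound_of_continuousOn (hφ.2.isCompact.prod isCompact_Icc)
    (hd.continuousOn.mono (prod_mono (subset_univ _) subset_rfl))
  refine hasDerivWithinAt_integral_convex (f := fun s x => F x s * φ x)
    (f' := fun s x => derivWithin (fun s => F x s) (Icc 0 T) s * φ x)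
    (bound := fun x => C * ‖φ x‖) (convex_Icc 0 T) ht
    (fun s hs => (hφ.integrable_mul (h.slice hs).continuous).aestronglyMeasurable)
    (hφ.integrable_mul (h.slice ht).continuous)
    (hφ.integrable_mul (hd.slice ht).continuous).aestronglyMeasurable
    (Eventually.of_forall fun x s hs => ?_)
    ((hφ.1.continuous.integrable_of_hasCompactSupport hφ.2).norm.const_mul C)
    (Eventually.of_forall fun x s hs => (h.hasDerivWithinAt x hs).mul_const _)
  rw [norm_mul]
  by_cases hx : x ∈ tsupport φ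
  · exact mul_le_mul_of_nonneg_right (hC (x, s) ⟨hx, hs⟩) (norm_nonneg _)
  · rw [image_eq_zero_of_notMem_tsupport hx, norm_zero, mul_zero, mul_zero]

variable {ν : ℝ} {c : ι → ι → ι → ℝ} {u0 : ι → R3 → R3} {u : ι → R3 → ℝ → R3} {p : ι → R3 → ℝ → ℝ}

theorem contDiffOn_vec {v : R3 → ℝ → R3} :
    ContDiffOn ℝ ∞ (fun z : R3 × ℝ => v z.1 z.2) (univ ×ˢ I) ↔ ∀ i, JS I fun x t => v x t i :=
  contDiffOn_euclidean
theorem CSol.ju (h : CSol ν c u0 I u p) (a : ι) (i : Fin 3) : JS I fun x t => u a x t i :=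
  contDiffOn_vec.mp (h.smooth_u a) i
theorem CSol.jp (h : CSol ν c u0 I u p) (a : ι) : JS I (p a) := h.smooth_p a
theorem CSol.mono (h : CSol ν c u0 I u p) {J : Set ℝ} (hJ : J ⊆ I) (hu : UniqueDiffOn ℝ J) :
    CSol ν c u0 J u p := by
  refine ⟨fun a => (h.smooth_u a).mono (prod_mono subset_rfl hJ),
    fun a => (h.smooth_p a).mono (prod_mono subset_rfl hJ), fun a x t ht i => ?_,
    fun a x t ht => h.divFree a x t (hJ ht), h.initial⟩
  rw [(((h.ju a i).hasDerivWithinAt x (hJ ht)).mono hJ).derivWithin (hu t ht)]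
  exact h.momentum a x t (hJ ht) i
theorem CSol.zero (ν : ℝ) (c : ι → ι → ι → ℝ) (I : Set ℝ) :
    CSol ν c (fun _ _ => 0) I (fun _ _ _ => 0) fun _ _ _ => 0 := by
  have e : ∀ (j : Fin 3), pd j (fun _ => (0 : ℝ)) = fun _ => 0 := fun j => funext (pd_const 0 j)
  refine ⟨fun _ => contDiffOn_const, fun _ => contDiffOn_const, fun a x t _ i => ?_,
    fun a x t _ => ?_, fun _ _ => rfl⟩
  · simp [e]
  · simp [e]

end

end Pool.Agent.Work.MP_6bf1e5_an.Ens
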