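import Pool.Agent.Work.MP_6bf1e5_an.Ens.Defs

/-!
Differentiation under the integral sign within a convex set (mean value inequality on the convex
set and dominated convergence along `𝓝[s] x`; compare the proof of
`hasFDerivAt_integral_of_dominated_loc_of_lip`).
-/

open scoped ContDiff ENNReal FourierTransform Topology ComplexConjugate
open Set MeasureTheory Filter Polynomial Metric

namespace Pool.Agent.Work.MP_6bf1e5_an.Ens

noncomputable section

theorem hasFDerivWithinAt_integral_convex {α E F : Type} [MeasurableSpace α] {μ : Measure α}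
    [NormedAddCommGroup E] [NormedSpace ℝ E] [NormedAddCommGroup F] [NormedSpace ℝ F]
    [CompleteSpace F] {s : Set E} (hs : Convex ℝ s) {f : E → α → F} {f' : E → α → E →L[ℝ] F}
    {bound : α → ℝ} {x : E} (hx : x ∈ s) (hm : ∀ y ∈ s, AEStronglyMeasurable (f y) μ)
    (hi : Integrable (f x) μ) (hm' : AEStronglyMeasurable (f' x) μ)
    (hb : ∀ᵐ a ∂μ, ∀ y ∈ s, ‖f' y a‖ ≤ bound a) (hbi : Integrable bound μ)
    (hd : ∀ᵐ a ∂μ, ∀ y ∈ s, HasFDerivWithinAt (fun z => f z a) (f' y a) s y) :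
    HasFDerivWithinAt (fun y => ∫ a, f y a ∂μ) (∫ a, f' x a ∂μ) s x := by
  have nneg : ∀ y : E, 0 ≤ ‖y - x‖⁻¹ := fun y => inv_nonneg.mpr (norm_nonneg _)
  have hlip : ∀ᵐ a ∂μ, ∀ y ∈ s, ‖f y a - f x a‖ ≤ bound a * ‖y - x‖ := by
    filter_upwards [hb, hd] with a ha ha' y hy
    exact hs.norm_image_sub_le_of_norm_hasFDerivWithin_le ha' ha hx hy
  have hint : ∀ y ∈ s, Integrable (f y) μ := fun y hy => by
    have : ∀ᵐ a ∂μ, ‖f x a - f y a‖ ≤ bound a * ‖y - x‖ := by
      filter_upwards [hlip] with a ha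
      rw [norm_sub_rev]
      exact ha y hy
    exact integrable_of_norm_sub_le (hm y hy) hi (hbi.mul_const _) this
  have hint' : Integrable (f' x) μ := hbi.mono' hm' (hb.mono fun a ha => ha x hx)
  have key : ∀ᶠ y in 𝓝[s] x,
      ‖y - x‖⁻¹ * ‖((∫ a, f y a ∂μ) - ∫ a, f x a ∂μ) - (∫ a, f' x a ∂μ) (y - x)‖ =
        ‖∫ a, ‖y - x‖⁻¹ • (f y a - f x a - f' x a (y - x)) ∂μ‖ := by
    filter_upwards [self_mem_nhdsWithin] with y hy
    rw [← norm_smul_of_nonneg (nneg _), integral_smul, integral_sub,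
      integral_sub, ← ContinuousLinearMap.integral_apply hint']
    exacts [hint y hy, hi, (hint y hy).sub hi, hint'.apply_continuousLinearMap _]
  rw [hasFDerivWithinAt_iff_tendsto, tendsto_congr' key, ← tendsto_zero_iff_norm_tendsto_zero,
    ← show (∫ a : α, (0 : F) ∂μ) = 0 by simp]
  apply tendsto_integral_filter_of_dominated_convergence (bound := fun a => bound a + bound a)
  · filter_upwards [self_mem_nhdsWithin] with y hy
    apply AEStronglyMeasurable.const_smul
    exact ((hm y hy).sub (hm x hx)).sub (hm'.apply_continuousLinearMap _)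
  · filter_upwards [self_mem_nhdsWithin] with y hy
    filter_upwards [hlip, hb] with a ha hba
    have h1 := ha y hy
    have h2 := hba x hx
    have h0 : 0 ≤ bound a := (norm_nonneg _).trans h2
    have h3 : ‖f' x a (y - x)‖ ≤ bound a * ‖y - x‖ :=
      ((f' x a).le_opNorm _).trans (mul_le_mul_of_nonneg_right h2 (norm_nonneg _))
    rw [norm_smul_of_nonneg (nneg _), ← div_eq_inv_mul]
    refine div_le_of_le_mul₀ (norm_nonneg _) (add_nonneg h0 h0) ?_
    calc ‖f y a - f x a - f' x a (y - x)‖ ≤ ‖f y a - f x a‖ + ‖f' x a (y - x)‖ := norm_sub_le _ _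
      _ ≤ (bound a + bound a) * ‖y - x‖ := by linarith
  · exact hbi.add hbi
  · filter_upwards [hd] with a ha
    have := hasFDerivWithinAt_iff_tendsto.mp (ha x hx)
    rw [tendsto_zero_iff_norm_tendsto_zero]
    refine this.congr fun y => ?_
    rw [norm_smul_of_nonneg (nneg _)]

theorem hasDerivWithinAt_integral_convex {α F : Type} [MeasurableSpace α] {μ : Measure α}
    [NormedAddCommGroup F] [NormedSpace ℝ F] [CompleteSpace F] {s : Set ℝ} (hs : Convex ℝ s)
    {f f' : ℝ → α → F} {bound : α → ℝ} {x : ℝ} (hx : x ∈ s)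
    (hm : ∀ y ∈ s, AEStronglyMeasurable (f y) μ) (hi : Integrable (f x) μ)
    (hm' : AEStronglyMeasurable (f' x) μ) (hb : ∀ᵐ a ∂μ, ∀ y ∈ s, ‖f' y a‖ ≤ bound a)
    (hbi : Integrable bound μ)
    (hd : ∀ᵐ a ∂μ, ∀ y ∈ s, HasDerivWithinAt (fun z => f z a) (f' y a) s y) :
    HasDerivWithinAt (fun y => ∫ a, f y a ∂μ) (∫ a, f' x a ∂μ) s x := by
  let L : F →L[ℝ] ℝ →L[ℝ] F := ContinuousLinearMap.smulRightL ℝ ℝ F 1
  have hL : ∀ v : F, ‖L v‖ = ‖v‖ := fun v => by simp [L]
  have hint' : Integrable (f' x) μ := hbi.mono' hm' (hb.mono fun a ha => ha x hx)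
  have h := hasFDerivWithinAt_integral_convex (μ := μ) hs (f := f) (f' := fun y a => L (f' y a))
    (bound := bound) hx hm hi (L.continuous.comp_aestronglyMeasurable hm')
    (hb.mono fun a ha y hy => by rw [hL]; exact ha y hy) hbi
    (hd.mono fun a ha y hy => (ha y hy).hasFDerivWithinAt)
  rw [L.integral_comp_comm hint'] at h
  exact hasDerivWithinAt_iff_hasFDerivWithinAt.mpr h

end

end Pool.Agent.Work.MP_6bf1e5_an.Ens
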