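import Pool.Agent.Work.MP_6bf1e5_an.Ens.Wt
import Pool.Agent.Work.MP_6bf1e5_an.Ens.Dom

/-!
Convolution of functions that are continuous off `0` and bounded by the weight.
For `continuousOn_cv` near `ξ0 ≠ 0` write `f = χ f + (1 - χ) f` with a continuous cut-off `χ` that is
`1` near `0` and vanishes outside the ball of radius `|ξ0|/4`. In the first piece `|ξ - η| ≥ |ξ0|/2`, in the
second substitute `η ↦ ξ - η`; both integrands are then dominated by a multiple of `wt κ η`.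
-/

open scoped ContDiff ENNReal FourierTransform Topology ComplexConjugate
open Set MeasureTheory Filter Polynomial Metric

namespace Pool.Agent.Work.MP_6bf1e5_an.Ens

noncomputable section

theorem aesm_of_continuousOn {E : Type} [TopologicalSpace E] [TopologicalSpace.PseudoMetrizableSpace E]
    [SecondCountableTopology E] {f : R3 → E} (h : ContinuousOn f {0}ᶜ) :
    AEStronglyMeasurable f volume := by
  have := h.aestronglyMeasurable (μ := volume) (measurableSet_singleton (0 : R3)).compl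
  rwa [restrict_compl_singleton] at this

theorem conv_abs {f : R3 → ℂ} {C κ : ℝ} (h : ∀ ξ, ξ ≠ 0 → ‖f ξ‖ ≤ C * wt κ ξ) (ξ : R3)
    (hξ : ξ ≠ 0) : ‖f ξ‖ ≤ |C| * wt κ ξ :=
  (h ξ hξ).trans (mul_le_mul_of_nonneg_right (le_abs_self C) (wt_nonneg κ ξ))

theorem conv_bound {f : R3 → ℂ} (h : Adm f) :
    ∃ C κ : ℝ, 0 ≤ C ∧ 0 < κ ∧ ∀ ξ, ξ ≠ 0 → ‖f ξ‖ ≤ C * wt κ ξ := by
  obtain ⟨C, κ, hκ, hb⟩ := h.bound
  exact ⟨|C|, κ, abs_nonneg C, hκ, conv_abs hb⟩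

theorem conv_bound2 {f g : R3 → ℂ} (hf : Adm f) (hg : Adm g) :
    ∃ C κ : ℝ, 0 ≤ C ∧ 0 < κ ∧ (∀ ξ, ξ ≠ 0 → ‖f ξ‖ ≤ C * wt κ ξ) ∧
      ∀ ξ, ξ ≠ 0 → ‖g ξ‖ ≤ C * wt κ ξ := by
  obtain ⟨C, κ, hC, hκ, hb⟩ := conv_bound hf
  obtain ⟨C', κ', hC', hκ', hb'⟩ := conv_bound hg
  refine ⟨max C C', min κ κ', le_max_of_le_left hC, lt_min hκ hκ', fun ξ hξ => ?_, fun ξ hξ => ?_⟩
  · exact (hb ξ hξ).trans (mul_le_mul (le_max_left _ _) (wt_anti (min_le_left _ _) ξ)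
      (wt_nonneg _ _) (le_max_of_le_left hC))
  · exact (hb' ξ hξ).trans (mul_le_mul (le_max_right _ _) (wt_anti (min_le_right _ _) ξ)
      (wt_nonneg _ _) (le_max_of_le_left hC))

theorem Adm.integrable {f : R3 → ℂ} (h : Adm f) : Integrable f := by
  obtain ⟨C, κ, hκ, hb⟩ := h.bound
  refine ((integrable_wt hκ).const_mul C).mono' (aesm_of_continuousOn h.cont) ?_
  filter_upwards [Measure.ae_ne volume (0 : R3)] with ξ hξ using hb ξ hξ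

theorem Adm.add {f g : R3 → ℂ} (hf : Adm f) (hg : Adm g) : Adm fun ξ => f ξ + g ξ := by
  obtain ⟨C, κ, -, hκ, h1, h2⟩ := conv_bound2 hf hg
  refine ⟨hf.cont.add hg.cont, C + C, κ, hκ, fun ξ hξ => ?_⟩
  rw [add_mul]
  exact (norm_add_le _ _).trans (add_le_add (h1 ξ hξ) (h2 ξ hξ))

theorem Adm.sum {α : Type} (s : Finset α) {f : α → R3 → ℂ} (hf : ∀ a ∈ s, Adm (f a)) :
    Adm fun ξ => ∑ a ∈ s, f a ξ := by
  classical
  induction s using Finset.induction_on with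
  | empty => exact ⟨continuousOn_const, 0, 1, one_pos, fun ξ _ => by simp⟩
  | insert a s ha ih =>
    simp only [Finset.sum_insert ha]
    exact (hf a (Finset.mem_insert_self a s)).add
      (ih fun b hb => hf b (Finset.mem_insert_of_mem hb))

theorem Adm.symb {f m : R3 → ℂ} (hf : Adm f) (hm : ContinuousOn m {0}ᶜ) {C : ℝ} {n : ℕ}
    (hb : ∀ ξ, ξ ≠ 0 → ‖m ξ‖ ≤ C * (1 + ‖ξ‖) ^ n) : Adm fun ξ => m ξ * f ξ := by
  obtain ⟨D, κ, hD, hκ, h1⟩ := conv_bound hf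
  obtain ⟨E, -, h2⟩ := pow_mul_wt_le hκ n
  refine ⟨hm.mul hf.cont, |C| * D * E, κ / 2, half_pos hκ, fun ξ hξ => ?_⟩
  have h3 : ‖m ξ‖ ≤ |C| * (1 + ‖ξ‖) ^ n :=
    (hb ξ hξ).trans (mul_le_mul_of_nonneg_right (le_abs_self C) (by positivity))
  calc ‖m ξ * f ξ‖ = ‖m ξ‖ * ‖f ξ‖ := norm_mul _ _
    _ ≤ |C| * (1 + ‖ξ‖) ^ n * (D * wt κ ξ) :=
      mul_le_mul h3 (h1 ξ hξ) (norm_nonneg _) (by positivity)
    _ = |C| * D * ((1 + ‖ξ‖) ^ n * wt κ ξ) := by ring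
    _ ≤ |C| * D * (E * wt (κ / 2) ξ) := mul_le_mul_of_nonneg_left (h2 ξ) (by positivity)
    _ = |C| * D * E * wt (κ / 2) ξ := by ring

theorem Adm.integrable_pow {f : R3 → ℂ} (h : Adm f) (n : ℕ) :
    Integrable fun ξ => ‖ξ‖ ^ n * ‖f ξ‖ := by
  have h1 : Adm fun ξ => ((‖ξ‖ ^ n : ℝ) : ℂ) * f ξ := by
    refine h.symb (m := fun ξ => ((‖ξ‖ ^ n : ℝ) : ℂ)) (C := 1) (n := n) (by fun_prop)
      fun ξ _ => ?_
    rw [Complex.norm_real, Real.norm_of_nonneg (by positivity), one_mul]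
    exact pow_le_pow_left₀ (norm_nonneg _) (by linarith) n
  refine h1.integrable.norm.congr (Eventually.of_forall fun ξ => ?_)
  simp only
  rw [norm_mul, Complex.norm_real, Real.norm_of_nonneg (by positivity)]

theorem Adm.const_mul {f : R3 → ℂ} (hf : Adm f) (z : ℂ) : Adm fun ξ => z * f ξ :=
  hf.symb (m := fun _ => z) (C := ‖z‖) (n := 0) continuousOn_const fun ξ _ => by simp

theorem Adm.coord {f : R3 → ℂ} (hf : Adm f) (j : Fin 3) : Adm fun ξ => (ξ j : ℂ) * f ξ := by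
  refine hf.symb (m := fun ξ => (ξ j : ℂ)) (C := 1) (n := 1) (by fun_prop) fun ξ _ => ?_
  have := PiLp.norm_apply_le ξ j
  rw [Complex.norm_real]
  linarith

theorem conv_aesm {f g : R3 → ℂ} (hf : ContinuousOn f {0}ᶜ) (hg : ContinuousOn g {0}ᶜ) (ξ : R3) :
    AEStronglyMeasurable (fun η => f η * g (ξ - η)) volume :=
  (aesm_of_continuousOn hf).mul ((aesm_of_continuousOn hg).comp_quasiMeasurePreserving
    (Measure.measurePreserving_sub_left volume ξ).quasiMeasurePreserving)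

theorem conv_ae (ξ : R3) : ∀ᵐ η : R3, η ≠ 0 ∧ ξ - η ≠ 0 := by
  filter_upwards [Measure.ae_ne volume (0 : R3), Measure.ae_ne volume ξ] with η h1 h2
  exact ⟨h1, sub_ne_zero.2 h2.symm⟩

theorem conv_mul_le {a b : ℂ} {C D x y : ℝ} (ha : ‖a‖ ≤ C * x) (hb : ‖b‖ ≤ D * y) :
    ‖a * b‖ ≤ C * D * (x * y) := by
  rw [norm_mul, mul_mul_mul_comm]
  exact mul_le_mul ha hb (norm_nonneg _) ((norm_nonneg _).trans ha)

theorem integrable_cv {f g : R3 → ℂ} {κ Cf Cg : ℝ} (hκ : 0 ≤ κ) (hf : ContinuousOn f {0}ᶜ)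
    (hg : ContinuousOn g {0}ᶜ) (bf : ∀ ξ, ξ ≠ 0 → ‖f ξ‖ ≤ Cf * wt κ ξ)
    (bg : ∀ ξ, ξ ≠ 0 → ‖g ξ‖ ≤ Cg * wt κ ξ) {ξ : R3} (hξ : ξ ≠ 0) :
    Integrable fun η => f η * g (ξ - η) := by
  obtain ⟨K, -, hK⟩ := exists_conv_wt
  refine ((hK κ hκ ξ hξ).1.const_mul (Cf * Cg)).mono' (conv_aesm hf hg ξ) ?_
  filter_upwards [conv_ae ξ] with η hη using conv_mul_le (bf η hη.1) (bg _ hη.2)

theorem Adm.integrable_cv {f g : R3 → ℂ} (hf : Adm f) (hg : Adm g) {ξ : R3} (hξ : ξ ≠ 0) :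
    Integrable fun η => f η * g (ξ - η) := by
  obtain ⟨C, κ, -, hκ, h1, h2⟩ := conv_bound2 hf hg
  exact Ens.integrable_cv hκ.le hf.cont hg.cont h1 h2 hξ

theorem exists_norm_cv_le : ∃ K : ℝ, 0 ≤ K ∧ ∀ (f g : R3 → ℂ) (κ Cf Cg : ℝ), 0 ≤ κ → 0 ≤ Cf → 0 ≤ Cg →
    (∀ ξ, ξ ≠ 0 → ‖f ξ‖ ≤ Cf * wt κ ξ) → (∀ ξ, ξ ≠ 0 → ‖g ξ‖ ≤ Cg * wt κ ξ) →
    ∀ ξ, ξ ≠ 0 → ‖cv f g ξ‖ ≤ K * Cf * Cg * w2 κ ξ := by
  obtain ⟨K, hK0, hK⟩ := exists_conv_wt
  refine ⟨K, hK0, fun f g κ Cf Cg hκ hf hg bf bg ξ hξ => ?_⟩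
  obtain ⟨h1, h2⟩ := hK κ hκ ξ hξ
  have h3 : ‖cv f g ξ‖ ≤ ∫ η, Cf * Cg * (wt κ η * wt κ (ξ - η)) := by
    refine norm_integral_le_of_norm_le (h1.const_mul (Cf * Cg)) ?_
    filter_upwards [conv_ae ξ] with η hη using conv_mul_le (bf η hη.1) (bg _ hη.2)
  rw [integral_const_mul] at h3
  calc ‖cv f g ξ‖ ≤ Cf * Cg * (K * w2 κ ξ) :=
      h3.trans (mul_le_mul_of_nonneg_left h2 (mul_nonneg hf hg))
    _ = K * Cf * Cg * w2 κ ξ := by ring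

theorem conv_slice {P : Type} [TopologicalSpace P] {S : Set P} {f : P → R3 → ℂ}
    (hf : ContinuousOn (fun z : P × R3 => f z.1 z.2) (S ×ˢ {0}ᶜ)) {s : P} (hs : s ∈ S) :
    ContinuousOn (f s) {0}ᶜ :=
  hf.comp (f := fun ξ : R3 => (s, ξ)) (by fun_prop) fun _ hξ => ⟨hs, hξ⟩

theorem conv_cwa {P : Type} [TopologicalSpace P] {S : Set P} {f : P → R3 → ℂ}
    (hf : ContinuousOn (fun z : P × R3 => f z.1 z.2) (S ×ˢ {0}ᶜ)) {z0 : P × R3} (hs : z0.1 ∈ S)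
    {φ : R3 → R3} (hφ : Continuous φ) (h0 : φ z0.2 ≠ 0) (T : Set R3) :
    ContinuousWithinAt (fun z : P × R3 => f z.1 (φ z.2)) (S ×ˢ T) z0 := by
  have h1 : ContinuousWithinAt (fun z : P × R3 => f z.1 z.2) (S ×ˢ univ) (z0.1, φ z0.2) := by
    refine (hf (z0.1, φ z0.2) ⟨hs, h0⟩).mono_of_mem_nhdsWithin ?_
    refine mem_nhdsWithin.2 ⟨univ ×ˢ {0}ᶜ, isOpen_univ.prod isOpen_compl_singleton,
      ⟨mem_univ _, h0⟩, fun z hz => ⟨hz.2.1, hz.1.2⟩⟩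
  exact ContinuousWithinAt.comp (f := fun z : P × R3 => (z.1, φ z.2)) (x := z0) h1
    (Continuous.continuousWithinAt (by fun_prop)) fun z hz => ⟨hz.1, mem_univ _⟩

theorem conv_piece {P : Type} [TopologicalSpace P] [FirstCountableTopology P] {S : Set P}
    {f g : P → R3 → ℂ} {κ C : ℝ} (hκ : 0 < κ)
    (hf : ContinuousOn (fun z : P × R3 => f z.1 z.2) (S ×ˢ {0}ᶜ))
    (hg : ContinuousOn (fun z : P × R3 => g z.1 z.2) (S ×ˢ {0}ᶜ))
    (bf : ∀ s ∈ S, ∀ ξ, ξ ≠ 0 → ‖f s ξ‖ ≤ C * wt κ ξ)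
    (bg : ∀ s ∈ S, ∀ ξ, ξ ≠ 0 → ‖g s ξ‖ ≤ C * wt κ ξ) {z0 : P × R3} (hs : z0.1 ∈ S) {r : ℝ}
    (hr : 0 < r) {w : R3 → R3 → ℂ} (hw : Continuous fun z : R3 × R3 => w z.1 z.2)
    (bw : ∀ η ζ, ‖w η ζ‖ ≤ 1)
    (sw : ∀ ξ η, dist ξ z0.2 < r → w η (ξ - η) ≠ 0 → r ≤ ‖ξ - η‖) (T : Set R3) :
    ContinuousWithinAt (fun z : P × R3 => ∫ η, w η (z.2 - η) * (f z.1 η * g z.1 (z.2 - η)))
      (S ×ˢ T) z0 := by
  have hS : ∀ᶠ z in 𝓝[S ×ˢ T] z0, z.1 ∈ S :=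
    mem_of_superset self_mem_nhdsWithin fun z hz => hz.1
  have hd : ∀ᶠ z : P × R3 in 𝓝[S ×ˢ T] z0, dist z.2 z0.2 < r :=
    nhdsWithin_le_nhds (continuous_snd.continuousAt.preimage_mem_nhds (ball_mem_nhds z0.2 hr))
  refine continuousWithinAt_of_dominated
    (bound := fun η => |C| * |C| * r ^ (-(5 / 2) : ℝ) * wt κ η) ?_ ?_
    ((integrable_wt hκ).const_mul _) ?_
  · filter_upwards [hS] with z hz
    refine AEStronglyMeasurable.mul ?_ (conv_aesm (conv_slice hf hz) (conv_slice hg hz) z.2)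
    exact (hw.comp (f := fun η : R3 => (η, z.2 - η)) (by fun_prop)).aestronglyMeasurable
  · filter_upwards [hS, hd] with z hz hz'
    filter_upwards [conv_ae z.2] with η hη
    have h0 := wt_nonneg κ η
    by_cases h : w η (z.2 - η) = 0
    · rw [h, zero_mul, norm_zero]
      positivity
    · have h1 := conv_mul_le (conv_abs (bf _ hz) η hη.1) (conv_abs (bg _ hz) _ hη.2)
      have h2 := wt_le_of_le hκ.le hr (sw _ η hz' h)
      calc _ = ‖w η (z.2 - η)‖ * ‖f z.1 η * g z.1 (z.2 - η)‖ := norm_mul _ _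
        _ ≤ 1 * (|C| * |C| * (wt κ η * wt κ (z.2 - η))) :=
          mul_le_mul (bw _ _) h1 (norm_nonneg _) zero_le_one
        _ ≤ 1 * (|C| * |C| * (wt κ η * r ^ (-(5 / 2) : ℝ))) := by gcongr
        _ = _ := by ring
  · filter_upwards [conv_ae z0.2] with η hη
    refine ContinuousWithinAt.mul ?_ (ContinuousWithinAt.mul ?_ ?_)
    · exact (hw.comp (f := fun z : P × R3 => (η, z.2 - η)) (by fun_prop)).continuousWithinAt
    · exact conv_cwa hf hs (φ := fun _ => η) continuous_const hη.1 T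
    · exact conv_cwa hg hs (φ := fun ξ => ξ - η) (by fun_prop) hη.2 T

theorem conv_cut {r : ℝ} (hr : 0 < r) : ∃ χ : R3 → ℝ, Continuous χ ∧ (∀ η, 0 ≤ χ η) ∧
    (∀ η, χ η ≤ 1) ∧ (∀ η, χ η ≠ 0 → ‖η‖ ≤ 2 * r) ∧ ∀ η, χ η ≠ 1 → r ≤ ‖η‖ := by
  refine ⟨fun η => max 0 (min 1 (2 - ‖η‖ / r)), by fun_prop, fun η => le_max_left _ _,
    fun η => max_le zero_le_one (min_le_left _ _), fun η h => ?_, fun η h => ?_⟩
  · by_contra hc
    have h1 : 2 < ‖η‖ / r := (lt_div_iff₀ hr).2 (not_le.1 hc)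
    exact h (max_eq_left (min_le_of_right_le (by linarith)))
  · by_contra hc
    have h1 : ‖η‖ / r < 1 := (div_lt_one hr).2 (not_le.1 hc)
    exact h (by
      show max 0 (min 1 (2 - ‖η‖ / r)) = 1
      rw [min_eq_left (by linarith), max_eq_right zero_le_one])

theorem continuousOn_cv {P : Type} [TopologicalSpace P] [FirstCountableTopology P] {S : Set P}
    {f g : P → R3 → ℂ} {κ C : ℝ} (hκ : 0 < κ)
    (hf : ContinuousOn (fun z : P × R3 => f z.1 z.2) (S ×ˢ {0}ᶜ))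
    (hg : ContinuousOn (fun z : P × R3 => g z.1 z.2) (S ×ˢ {0}ᶜ))
    (bf : ∀ s ∈ S, ∀ ξ, ξ ≠ 0 → ‖f s ξ‖ ≤ C * wt κ ξ)
    (bg : ∀ s ∈ S, ∀ ξ, ξ ≠ 0 → ‖g s ξ‖ ≤ C * wt κ ξ) :
    ContinuousOn (fun z : P × R3 => cv (f z.1) (g z.1) z.2) (S ×ˢ {0}ᶜ) := by
  intro z0 hz0
  have hr : 0 < ‖z0.2‖ / 4 := div_pos (norm_pos_iff.2 hz0.2) four_pos
  obtain ⟨χ, hc, h0, h1, h2, h3⟩ := conv_cut hr
  have b1 : ∀ η, ‖(χ η : ℂ)‖ ≤ 1 := fun η => by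
    rw [Complex.norm_real, Real.norm_of_nonneg (h0 η)]
    exact h1 η
  have b2 : ∀ η, ‖((1 - χ η : ℝ) : ℂ)‖ ≤ 1 := fun η => by
    rw [Complex.norm_real, Real.norm_of_nonneg (sub_nonneg.2 (h1 η))]
    linarith [h0 η]
  have p1 := conv_piece hκ hf hg bf bg hz0.1 hr (w := fun η _ => (χ η : ℂ)) (by fun_prop)
    (fun η _ => b1 η) (fun ξ η hξ hη => by
      have a1 := h2 η fun h => hη (by rw [h, Complex.ofReal_zero])
      have a2 : ‖z0.2‖ ≤ ‖ξ - η‖ + ‖η‖ + dist ξ z0.2 := by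
        rw [dist_comm, dist_eq_norm]
        calc ‖z0.2‖ = ‖ξ - η + η + (z0.2 - ξ)‖ := by congr 1; abel
          _ ≤ _ := norm_add₃_le
      linarith) {0}ᶜ
  have p2 := conv_piece hκ hg hf bg bf hz0.1 hr (w := fun _ ζ => ((1 - χ ζ : ℝ) : ℂ)) (by fun_prop)
    (fun _ ζ => b2 ζ) (fun ξ η _ hη => h3 _ fun h => hη (by
      rw [h, sub_self, Complex.ofReal_zero])) {0}ᶜ
  have key : ∀ z ∈ S ×ˢ ({0}ᶜ : Set R3), cv (f z.1) (g z.1) z.2 =
      (∫ η, (χ η : ℂ) * (f z.1 η * g z.1 (z.2 - η))) +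
        ∫ η, ((1 - χ (z.2 - η) : ℝ) : ℂ) * (g z.1 η * f z.1 (z.2 - η)) := by
    intro z hz
    have hi := integrable_cv hκ.le (conv_slice hf hz.1) (conv_slice hg hz.1) (bf _ hz.1)
      (bg _ hz.1) hz.2
    have i1 : Integrable fun η => (χ η : ℂ) * (f z.1 η * g z.1 (z.2 - η)) :=
      hi.bdd_mul (c := 1) (Continuous.aestronglyMeasurable (by fun_prop))
        (Eventually.of_forall b1)
    have i2 : Integrable fun η => ((1 - χ η : ℝ) : ℂ) * (f z.1 η * g z.1 (z.2 - η)) :=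
      hi.bdd_mul (c := 1) (Continuous.aestronglyMeasurable (by fun_prop))
        (Eventually.of_forall b2)
    have e := integral_sub_left_eq_self
      (fun η => ((1 - χ η : ℝ) : ℂ) * (f z.1 η * g z.1 (z.2 - η))) volume z.2
    simp only [sub_sub_cancel] at e
    have e' : ∫ η, ((1 - χ (z.2 - η) : ℝ) : ℂ) * (g z.1 η * f z.1 (z.2 - η)) =
        ∫ η, ((1 - χ η : ℝ) : ℂ) * (f z.1 η * g z.1 (z.2 - η)) := by
      rw [← e]
      exact integral_congr_ae (Eventually.of_forall fun η => by simp only [mul_comm])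
    rw [e', ← integral_add i1 i2, cv]
    refine integral_congr_ae (Eventually.of_forall fun η => ?_)
    simp only
    push_cast
    ring
  exact (p1.add p2).congr key (key z0 hz0)

theorem Adm.cv {f g : R3 → ℂ} (hf : Adm f) (hg : Adm g) : Adm (cv f g) := by
  obtain ⟨C, κ, hC, hκ, h1, h2⟩ := conv_bound2 hf hg
  obtain ⟨K, hK0, hK⟩ := exists_norm_cv_le
  obtain ⟨D, -, hD⟩ := w2_le_wt hκ
  have hc := continuousOn_cv (P := Unit) (S := univ) (f := fun _ => f) (g := fun _ => g) hκ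
    (hf.cont.comp continuous_snd.continuousOn fun _ hz => hz.2)
    (hg.cont.comp continuous_snd.continuousOn fun _ hz => hz.2) (fun _ _ => h1) fun _ _ => h2
  refine ⟨conv_slice (f := fun _ => Ens.cv f g) hc (mem_univ ()), K * C * C * D, κ / 2,
    half_pos hκ, fun ξ hξ => ?_⟩
  rw [mul_assoc (K * C * C)]
  exact (hK f g κ C C hκ.le hC hC h1 h2 ξ hξ).trans
    (mul_le_mul_of_nonneg_left (hD ξ) (by positivity))

theorem cv_scale (f g : R3 → ℂ) {l : ℝ} (hl : 0 < l) (ξ : R3) :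
    cv (fun η => f (l • η)) (fun η => g (l • η)) ξ = (((l ^ 3)⁻¹ : ℝ) : ℂ) * cv f g (l • ξ) := by
  have e := Measure.integral_comp_smul volume (fun η => f η * g (l • ξ - η)) l
  rw [finrank_euclideanSpace_fin, abs_of_pos (by positivity), Complex.real_smul] at e
  simp only [cv, smul_sub]
  exact e

theorem cv_conj (f g : R3 → ℂ) (ξ : R3) :
    cv (fun η => conj (f (-η))) (fun η => conj (g (-η))) ξ = conj (cv f g (-ξ)) := by
  rw [cv, cv, ← integral_conj, ← integral_neg_eq_self (fun η => conj (f η * g (-ξ - η))) volume]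
  refine integral_congr_ae (Eventually.of_forall fun η => ?_)
  simp only [map_mul]
  rw [neg_sub_neg, neg_sub]

theorem hasDerivWithinAt_cv {a b : ℝ} {f f' g g' : ℝ → R3 → ℂ} {κ C : ℝ} (hκ : 0 < κ)
    (hf : ∀ t ∈ Icc a b, ContinuousOn (f t) {0}ᶜ) (hf' : ∀ t ∈ Icc a b, ContinuousOn (f' t) {0}ᶜ)
    (hg : ∀ t ∈ Icc a b, ContinuousOn (g t) {0}ᶜ) (hg' : ∀ t ∈ Icc a b, ContinuousOn (g' t) {0}ᶜ)
    (bf : ∀ t ∈ Icc a b, ∀ ξ, ξ ≠ 0 → ‖f t ξ‖ ≤ C * wt κ ξ)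
    (bf' : ∀ t ∈ Icc a b, ∀ ξ, ξ ≠ 0 → ‖f' t ξ‖ ≤ C * wt κ ξ)
    (bg : ∀ t ∈ Icc a b, ∀ ξ, ξ ≠ 0 → ‖g t ξ‖ ≤ C * wt κ ξ)
    (bg' : ∀ t ∈ Icc a b, ∀ ξ, ξ ≠ 0 → ‖g' t ξ‖ ≤ C * wt κ ξ)
    (df : ∀ ξ, ξ ≠ 0 → ∀ t ∈ Icc a b, HasDerivWithinAt (fun s => f s ξ) (f' t ξ) (Icc a b) t)
    (dg : ∀ ξ, ξ ≠ 0 → ∀ t ∈ Icc a b, HasDerivWithinAt (fun s => g s ξ) (g' t ξ) (Icc a b) t)
    {ξ : R3} (hξ : ξ ≠ 0) {t : ℝ} (ht : t ∈ Icc a b) :
    HasDerivWithinAt (fun s => cv (f s) (g s) ξ) (cv (f' t) (g t) ξ + cv (f t) (g' t) ξ)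
      (Icc a b) t := by
  obtain ⟨K, -, hK⟩ := exists_conv_wt
  have i1 := integrable_cv hκ.le (hf' t ht) (hg t ht) (bf' t ht) (bg t ht) hξ
  have i2 := integrable_cv hκ.le (hf t ht) (hg' t ht) (bf t ht) (bg' t ht) hξ
  have key := hasDerivWithinAt_integral_convex (μ := (volume : Measure R3)) (convex_Icc a b)
    (f := fun s η => f s η * g s (ξ - η))
    (f' := fun s η => f' s η * g s (ξ - η) + f s η * g' s (ξ - η))
    (bound := fun η => (C * C + C * C) * (wt κ η * wt κ (ξ - η))) ht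
    (fun s hs => conv_aesm (hf s hs) (hg s hs) ξ)
    (integrable_cv hκ.le (hf t ht) (hg t ht) (bf t ht) (bg t ht) hξ) (i1.add i2).1
    (by
      filter_upwards [conv_ae ξ] with η hη s hs
      rw [add_mul]
      exact (norm_add_le _ _).trans (add_le_add (conv_mul_le (bf' s hs η hη.1) (bg s hs _ hη.2))
        (conv_mul_le (bf s hs η hη.1) (bg' s hs _ hη.2))))
    ((hK κ hκ.le ξ hξ).1.const_mul _)
    (by
      filter_upwards [conv_ae ξ] with η hη s hs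
      exact (df η hη.1 s hs).mul (dg _ hη.2 s hs))
  rw [integral_add i1 i2] at key
  exact key

end

end Pool.Agent.Work.MP_6bf1e5_an.Ens
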