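import Pool.Agent.Work.MP_6bf1e5_an.Ens.Defs

/-!
The inverse Fourier integral of integrable functions. For `ev_inj`: an integrable function whose inverse
Fourier integral vanishes is zero at each point of continuity
(`MeasureTheory.Integrable.fourier_fourierInv_eq`).
-/

open scoped ContDiff ENNReal FourierTransform Topology ComplexConjugate
open Set MeasureTheory Filter Polynomial Metric

namespace Pool.Agent.Work.MP_6bf1e5_an.Ens

noncomputable section

theorem ev_inner (ξ x : R3) : inner ℝ ξ x = ∑ j, ξ j * x j := by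
  simp [PiLp.inner_apply, mul_comm]

theorem ev_def (f : R3 → ℂ) (x : R3) :
    ev f x = ∫ ξ, Real.fourierChar (inner ℝ ξ x) • f ξ := Real.fourierInv_eq f x

theorem ev_neg (f : R3 → ℂ) (x : R3) : ev f x = 𝓕 f (-x) := Real.fourierInv_eq_fourier_neg f x

theorem ev_fun (f : R3 → ℂ) : ev f = fun x => 𝓕 f (-x) := funext (ev_neg f)

theorem ev_int {f : R3 → ℂ} (hf : Integrable f) (x : R3) :
    Integrable fun ξ => Real.fourierChar (inner ℝ ξ x) • f ξ := by
  simpa using (Real.fourierIntegral_convergent_iff (-x)).2 hf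

theorem ev_eq (f : R3 → ℂ) (x : R3) :
    ev f x = ∫ ξ, Complex.exp (2 * Real.pi * Complex.I * ((∑ j, ξ j * x j : ℝ) : ℂ)) * f ξ := by
  rw [ev, Real.fourierInv_eq']
  refine integral_congr_ae (Eventually.of_forall fun ξ => ?_)
  simp only [smul_eq_mul, ev_inner]
  congr 2
  push_cast
  ring
theorem norm_ev_le (f : R3 → ℂ) (x : R3) : ‖ev f x‖ ≤ ∫ ξ, ‖f ξ‖ := by
  rw [ev_def]
  simpa only [Circle.norm_smul] using
    norm_integral_le_integral_norm fun ξ => Real.fourierChar (inner ℝ ξ x) • f ξ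
theorem ev_congr {f g : R3 → ℂ} (h : ∀ ξ, ξ ≠ 0 → f ξ = g ξ) : ev f = ev g := by
  funext x
  refine Real.fourierInv_congr_ae ?_ x
  filter_upwards [(Set.countable_singleton (0 : R3)).ae_notMem volume] with ξ hξ
  exact h ξ hξ
theorem ev_add {f g : R3 → ℂ} (hf : Integrable f) (hg : Integrable g) (x : R3) :
    ev (fun ξ => f ξ + g ξ) x = ev f x + ev g x := by
  simp only [ev_def, smul_add]
  exact integral_add (ev_int hf x) (ev_int hg x)
theorem ev_sub {f g : R3 → ℂ} (hf : Integrable f) (hg : Integrable g) (x : R3) :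
    ev (fun ξ => f ξ - g ξ) x = ev f x - ev g x := by
  simp only [ev_def, smul_sub]
  exact integral_sub (ev_int hf x) (ev_int hg x)
theorem ev_const_mul (z : ℂ) (f : R3 → ℂ) (x : R3) : ev (fun ξ => z * f ξ) x = z * ev f x := by
  simp only [ev_eq, mul_left_comm _ z]
  exact integral_const_mul _ _
theorem ev_sum {α : Type} (s : Finset α) {f : α → R3 → ℂ} (hf : ∀ a ∈ s, Integrable (f a)) (x : R3) :
    ev (fun ξ => ∑ a ∈ s, f a ξ) x = ∑ a ∈ s, ev (f a) x := by
  simp only [ev_def, Finset.smul_sum]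
  exact integral_finsetSum s fun a ha => ev_int (hf a ha) x
theorem continuous_ev {f : R3 → ℂ} (hf : Integrable f) : Continuous (ev f) := by
  have h : Continuous (𝓕 f) := VectorFourier.fourierIntegral_continuous Real.continuous_fourierChar
    (innerSL ℝ).continuous₂ hf
  rw [ev_fun]
  exact h.comp continuous_neg
theorem tendsto_ev (f : R3 → ℂ) : Tendsto (ev f) (cocompact R3) (𝓝 0) := by
  have h : Tendsto (𝓕 f) (cocompact R3) (𝓝 0) := tendsto_integral_exp_inner_smul_cocompact f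
  rw [ev_fun]
  exact h.comp (Homeomorph.neg R3).toCocompactMap.cocompact_tendsto'
theorem ev_inj {f : R3 → ℂ} (hf : Integrable f) (hc : ContinuousOn f {0}ᶜ) (h : ∀ x, ev f x = 0)
    {ξ : R3} (hξ : ξ ≠ 0) : f ξ = 0 := by
  have h0 : 𝓕 f = 0 := funext fun x => by
    have := h (-x)
    rwa [ev_neg, neg_neg] at this
  have h1 := hf.fourierInv_fourier_eq (by rw [h0]; exact integrable_zero _ _ _)
    (hc.continuousAt (isOpen_compl_singleton.mem_nhds hξ))
  rw [← h1, h0, Real.fourierInv_eq]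
  simp
theorem integrable_cv_self {f g : R3 → ℂ} (hf : Integrable f) (hg : Integrable g) :
    Integrable (cv f g) :=
  hf.integrable_convolution (ContinuousLinearMap.mul ℂ ℂ) hg
theorem ev_cv {f g : R3 → ℂ} (hf : Integrable f) (hg : Integrable g) (x : R3) :
    ev (cv f g) x = ev f x * ev g x := by
  simp only [ev_neg]
  exact Real.fourier_mul_convolution_eq hf hg (-x)
theorem hasFDerivAt_ev {f : R3 → ℂ} (hf : Integrable f) (hf' : Integrable fun ξ => ‖ξ‖ * ‖f ξ‖)
    (x : R3) : ∃ L : R3 →L[ℝ] ℂ, HasFDerivAt (ev f) L x ∧ ∀ j, L (EuclideanSpace.single j 1) =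
      ev (fun ξ => 2 * Real.pi * Complex.I * (ξ j : ℂ) * f ξ) x := by
  have h := (Real.hasFDerivAt_fourier hf hf' (-x)).comp x (hasFDerivAt_id x).neg
  refine ⟨_, by rw [ev_fun]; exact h, fun j => ?_⟩
  have hi : Integrable (VectorFourier.fourierSMulRight (innerSL ℝ) f) := by
    refine (hf'.const_mul (2 * Real.pi * ‖(innerSL ℝ : R3 →L[ℝ] R3 →L[ℝ] ℝ)‖)).mono'
      hf.1.fourierSMulRight (Eventually.of_forall fun v => ?_)
    simpa only [mul_assoc] using VectorFourier.norm_fourierSMulRight_le (innerSL ℝ) f v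
  rw [ContinuousLinearMap.comp_apply, Real.fourier_continuousLinearMap_apply hi, ev_neg]
  refine congrArg (fun g : R3 → ℂ => 𝓕 g (-x)) (funext fun ξ => ?_)
  have e : innerSL ℝ ξ (EuclideanSpace.single j (1 : ℝ)) = ξ j := by
    rw [innerSL_apply_apply, EuclideanSpace.inner_single_right]
    simp
  simp [e]
  ring
theorem ev_hasFDerivAt_re {f : R3 → ℂ} {L : R3 →L[ℝ] ℂ} {x : R3} (h : HasFDerivAt (ev f) L x) :
    HasFDerivAt (fun y => (ev f y).re) (Complex.reCLM.comp L) x :=
  Complex.reCLM.hasFDerivAt.comp x h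
theorem pd_re_ev {f : R3 → ℂ} (hf : Integrable f) (hf' : Integrable fun ξ => ‖ξ‖ * ‖f ξ‖)
    (j : Fin 3) (x : R3) : pd j (fun y => (ev f y).re) x =
      (ev (fun ξ => 2 * Real.pi * Complex.I * (ξ j : ℂ) * f ξ) x).re := by
  obtain ⟨L, h1, h2⟩ := hasFDerivAt_ev hf hf' x
  rw [pd, (ev_hasFDerivAt_re h1).fderiv, ← h2 j]
  rfl
/-- If `ev f` is the real function `u`, then multiplication by `2 π i ξ j` gives `pd j u`. -/
theorem ev_coord {f : R3 → ℂ} {u : R3 → ℝ} (hf : Integrable f)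
    (hf' : Integrable fun ξ => ‖ξ‖ * ‖f ξ‖) (h : ∀ x, ev f x = u x) (j : Fin 3) (x : R3) :
    ev (fun ξ => 2 * Real.pi * Complex.I * (ξ j : ℂ) * f ξ) x = (pd j u x : ℝ) := by
  obtain ⟨L, h1, h2⟩ := hasFDerivAt_ev hf hf' x
  have hu : u = fun y => (ev f y).re := funext fun y => by rw [h y, Complex.ofReal_re]
  have h3 : HasFDerivAt u (Complex.reCLM.comp L) x := hu ▸ ev_hasFDerivAt_re h1
  have h4 : HasFDerivAt (ev f) (Complex.ofRealCLM.comp (Complex.reCLM.comp L)) x := by
    rw [funext h]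
    exact Complex.ofRealCLM.hasFDerivAt.comp x h3
  rw [← h2 j, pd, h3.fderiv]
  exact DFunLike.congr_fun (h1.unique h4) _
theorem contDiff_ev {f : R3 → ℂ} (hm : AEStronglyMeasurable f volume)
    (hf : ∀ n : ℕ, Integrable fun ξ => ‖ξ‖ ^ n * ‖f ξ‖) : ContDiff ℝ ∞ (ev f) := by
  have _ := hm
  have h : ContDiff ℝ ∞ (𝓕 f) := Real.contDiff_fourier fun n _ => hf n
  rw [ev_fun]
  exact h.comp contDiff_neg
theorem ev_real {f : R3 → ℂ} (h : ∀ ξ, f (-ξ) = conj (f ξ)) (x : R3) :
    (((ev f x).re : ℝ) : ℂ) = ev f x := by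
  rw [← Complex.conj_eq_iff_re, ev_eq, ← integral_conj, ← integral_neg_eq_self]
  refine integral_congr_ae (Eventually.of_forall fun ξ => ?_)
  simp only [map_mul, h, Complex.conj_conj, ← Complex.exp_conj, Complex.conj_ofReal, Complex.conj_I,
    map_ofNat, PiLp.neg_apply, neg_mul, Finset.sum_neg_distrib, Complex.ofReal_neg, mul_neg, map_neg,
    neg_neg]
theorem ev_scale (f : R3 → ℂ) {l : ℝ} (hl : 0 < l) (x : R3) :
    ev (fun ξ => f (l • ξ)) x = (((l ^ 3)⁻¹ : ℝ) : ℂ) * ev f (l⁻¹ • x) := by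
  have h := Measure.integral_comp_smul_of_nonneg volume
    (fun η : R3 => Real.fourierChar (inner ℝ η (l⁻¹ • x)) • f η) l (hR := hl.le)
  rw [ev_def, ev_def, ← Complex.real_smul]
  simp only [finrank_euclideanSpace, Fintype.card_fin] at h
  rw [← h]
  simp only [inner_smul_left, inner_smul_right, RCLike.conj_to_real, ← mul_assoc,
    inv_mul_cancel₀ hl.ne', one_mul]

end

end Pool.Agent.Work.MP_6bf1e5_an.Ens
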