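import Pool.Agent.Work.MP_6bf1e5_an.Ens.Conv

/-!
The projected nonlinearity.
-/

open scoped ContDiff ENNReal FourierTransform Topology ComplexConjugate
open Set MeasureTheory Filter Polynomial Metric

namespace Pool.Agent.Work.MP_6bf1e5_an.Ens

noncomputable section

variable {ι : Type} [Fintype ι]

/-- Continuous off `0` and bounded by `C * wt κ`. -/
structure VB (κ C : ℝ) (f : R3 → V ι) : Prop where
  cont : ContinuousOn f {0}ᶜ
  bound : ∀ ξ, ‖f ξ‖ ≤ C * wt κ ξ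

theorem nl_comp (v : V ι) (a : ι) (i : Fin 3) : ‖v a i‖ ≤ ‖v‖ :=
  (norm_le_pi_norm (v a) i).trans (norm_le_pi_norm v a)

omit [Fintype ι] in
theorem nl_cont {X : Type} [TopologicalSpace X] {f : X → V ι} {S : Set X} (h : ContinuousOn f S)
    (a : ι) (i : Fin 3) : ContinuousOn (fun x => f x a i) S :=
  continuousOn_pi.1 (continuousOn_pi.1 h a) i

theorem nl_coord (ξ : R3) (i : Fin 3) : |ξ i| ≤ ‖ξ‖ := by
  simpa using PiLp.norm_apply_le ξ i

theorem nl_lr_sum (ξ : R3) (v : Fin 3 → ℂ) (i : Fin 3) : ∑ k, (lr ξ i k : ℂ) * v k =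
    v i - (∑ k, (ξ i : ℂ) * ξ k * v k) / ((‖ξ‖ ^ 2 : ℝ) : ℂ) := by
  have e : ∀ k, (lr ξ i k : ℂ) * v k =
      (if i = k then v k else 0) - (ξ i : ℂ) * ξ k * v k / ((‖ξ‖ ^ 2 : ℝ) : ℂ) := by
    intro k
    unfold lr
    split_ifs <;> push_cast <;> ring
  simp_rw [e]
  rw [Finset.sum_sub_distrib, ← Finset.sum_div]
  simp

omit [Fintype ι] in
theorem nl_origin {f : R3 → V ι} (hc : Continuous f) (hd : DivFree f) : f 0 = 0 := by
  funext a j
  have h : (fun t : ℝ => f (t • EuclideanSpace.single j (1 : ℝ)) a j) = fun _ => 0 := by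
    refine Continuous.ext_on (dense_compl_singleton 0) (by fun_prop) continuous_const
      fun t ht => ?_
    have h1 := hd (t • EuclideanSpace.single j (1 : ℝ)) a
    rw [Finset.sum_eq_single j (fun k _ hk => by simp [hk]) (by simp)] at h1
    have h2 : (((t • EuclideanSpace.single j (1 : ℝ) : R3) j : ℝ) : ℂ) ≠ 0 := by
      simpa using ht
    exact (mul_eq_zero.1 h1).resolve_left h2
  simpa using congrFun h 0

theorem VB.nl_int {κ C1 C2 : ℝ} (hκ : 0 ≤ κ) {f g : R3 → V ι} (hf : VB κ C1 f) (hg : VB κ C2 g)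
    (b : ι) (j : Fin 3) (d : ι) (k : Fin 3) {ξ : R3} (hξ : ξ ≠ 0) :
    Integrable fun η => f η b j * g (ξ - η) d k :=
  integrable_cv (f := fun η => f η b j) (g := fun η => g η d k) hκ (nl_cont hf.cont b j)
    (nl_cont hg.cont d k) (fun η _ => (nl_comp _ b j).trans (hf.bound η))
    (fun η _ => (nl_comp _ d k).trans (hg.bound η)) hξ

theorem VB.adm {κ C : ℝ} {f : R3 → V ι} (h : VB κ C f) (hκ : 0 < κ) (a : ι) (i : Fin 3) :
    Adm fun ξ => f ξ a i :=
  ⟨nl_cont h.cont a i, C, κ, hκ, fun ξ _ => (nl_comp _ a i).trans (h.bound ξ)⟩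

theorem abs_lr_le (ξ : R3) (i k : Fin 3) : |lr ξ i k| ≤ 2 := by
  have h1 : |ξ i * ξ k / ‖ξ‖ ^ 2| ≤ 1 := by
    rw [abs_div, abs_mul, abs_of_nonneg (sq_nonneg ‖ξ‖)]
    refine div_le_one_of_le₀ ?_ (sq_nonneg _)
    rw [sq]
    exact mul_le_mul (nl_coord ξ i) (nl_coord ξ k) (abs_nonneg _) (norm_nonneg _)
  have h2 : |(if i = k then 1 else 0 : ℝ)| ≤ 1 := by split_ifs <;> simp
  exact (abs_sub _ _).trans (by linarith)

theorem contDiffOn_lr (i k : Fin 3) : ContDiffOn ℝ ∞ (fun ξ => lr ξ i k) {0}ᶜ := by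
  unfold lr
  refine contDiffOn_const.sub (ContDiffOn.div ?_ (contDiff_norm_sq ℝ).contDiffOn fun ξ hξ => ?_)
  · exact ContDiff.contDiffOn (by fun_prop)
  · exact pow_ne_zero _ (norm_ne_zero_iff.2 hξ)

theorem lr_neg (ξ : R3) (i k : Fin 3) : lr (-ξ) i k = lr ξ i k := by
  simp [lr]

theorem lr_smul {l : ℝ} (hl : l ≠ 0) (ξ : R3) (i k : Fin 3) : lr (l • ξ) i k = lr ξ i k := by
  have e : (l • ξ) i * (l • ξ) k / ‖l • ξ‖ ^ 2 = l ^ 2 * (ξ i * ξ k) / (l ^ 2 * ‖ξ‖ ^ 2) := by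
    rw [norm_smul, mul_pow, Real.norm_eq_abs, sq_abs, PiLp.smul_apply, PiLp.smul_apply,
      smul_eq_mul, smul_eq_mul]
    ring
  rw [lr, e, mul_div_mul_left _ _ (pow_ne_zero _ hl), lr]

theorem sum_mul_lr {ξ : R3} (hξ : ξ ≠ 0) (k : Fin 3) : ∑ i, ξ i * lr ξ i k = 0 := by
  have h0 : ‖ξ‖ ^ 2 ≠ 0 := pow_ne_zero _ (norm_ne_zero_iff.2 hξ)
  have e : ∀ i, ξ i * lr ξ i k = (if i = k then ξ k else 0) - ξ i ^ 2 * (ξ k / ‖ξ‖ ^ 2) := by
    intro i
    unfold lr
    split_ifs with h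
    · subst h
      ring
    · ring
  simp_rw [e]
  rw [Finset.sum_sub_distrib, ← Finset.sum_mul, ← EuclideanSpace.real_norm_sq_eq,
    mul_div_cancel₀ _ h0]
  simp

theorem lr_of_div {ξ : R3} {v : Fin 3 → ℂ} (h : ∑ j, (ξ j : ℂ) * v j = 0) (i : Fin 3) :
    ∑ k, (lr ξ i k : ℂ) * v k = v i := by
  rw [nl_lr_sum]
  have e : ∑ k, (ξ i : ℂ) * ξ k * v k = ξ i * ∑ k, (ξ k : ℂ) * v k := by
    rw [Finset.mul_sum]
    exact Finset.sum_congr rfl fun k _ => mul_assoc _ _ _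
  rw [e, h]
  simp

theorem lr_of_curl {ξ : R3} (hξ : ξ ≠ 0) {v : Fin 3 → ℂ}
    (h : ∀ i j, (ξ i : ℂ) * v j = (ξ j : ℂ) * v i) (i : Fin 3) :
    ∑ k, (lr ξ i k : ℂ) * v k = 0 := by
  have h0 : ((‖ξ‖ ^ 2 : ℝ) : ℂ) ≠ 0 :=
    Complex.ofReal_ne_zero.2 (pow_ne_zero _ (norm_ne_zero_iff.2 hξ))
  rw [nl_lr_sum]
  have e : ∑ k, (ξ i : ℂ) * ξ k * v k = ((‖ξ‖ ^ 2 : ℝ) : ℂ) * v i := by
    rw [EuclideanSpace.real_norm_sq_eq, Complex.ofReal_sum, Finset.sum_mul]
    refine Finset.sum_congr rfl fun k _ => ?_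
    push_cast
    linear_combination (ξ k : ℂ) * h i k
  rw [e, mul_div_cancel_left₀ _ h0, sub_self]

theorem XX.fn_origin (v : XX ι) : v.fn 0 = 0 := nl_origin v.cont v.div

theorem YY.fn_origin (y : YY ι) (t : ℝ) : y.fn (t, 0) = 0 :=
  nl_origin (f := fun ξ => y.fn (t, ξ)) (y.cont.comp (by fun_prop)) (y.div t)

theorem YY.vb (y : YY ι) (κ s : ℝ) : VB κ ‖y‖ (lift κ y.fn s) := by
  refine ⟨(continuousOn_wt κ).smul (y.cont.comp (by fun_prop)).continuousOn, fun ξ => ?_⟩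
  rw [lift, norm_smul, Real.norm_of_nonneg (wt_nonneg κ ξ), mul_comm]
  exact mul_le_mul_of_nonneg_right (y.norm_fn_le _) (wt_nonneg κ ξ)

theorem YY.continuousOn_lift (y : YY ι) (κ : ℝ) :
    ContinuousOn (fun z : ℝ × R3 => lift κ y.fn z.1 z.2) (univ ×ˢ {0}ᶜ) :=
  ((continuousOn_wt κ).comp continuousOn_snd fun _ hz => hz.2).smul y.cont.continuousOn


variable (c : ι → ι → ι → ℝ)

theorem NL_origin (f g : R3 → V ι) : NL c f g 0 = 0 := by
  funext a i
  simp [NL]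

theorem NL_div (f g : R3 → V ι) : DivFree (NL c f g) := by
  intro ξ a
  by_cases hξ : ξ = 0
  · simp [hξ]
  have e : ∀ i, (ξ i : ℂ) * NL c f g ξ a i = ∑ b, ∑ d, ∑ k, ∑ j, ((ξ i * lr ξ i k : ℝ) : ℂ) *
      (2 * Real.pi * Complex.I * c a b d * ξ j * cv (fun η => f η b j) (fun η => g η d k) ξ) := by
    intro i
    simp only [NL, Finset.mul_sum]
    refine Finset.sum_congr rfl fun b _ => Finset.sum_congr rfl fun d _ =>
      Finset.sum_congr rfl fun k _ => Finset.sum_congr rfl fun j _ => ?_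
    push_cast
    ring
  simp_rw [e]
  rw [Finset.sum_comm]
  refine Finset.sum_eq_zero fun b _ => ?_
  rw [Finset.sum_comm]
  refine Finset.sum_eq_zero fun d _ => ?_
  rw [Finset.sum_comm]
  refine Finset.sum_eq_zero fun k _ => ?_
  rw [Finset.sum_comm]
  refine Finset.sum_eq_zero fun j _ => ?_
  rw [← Finset.sum_mul, ← Complex.ofReal_sum, sum_mul_lr hξ]
  simp

theorem NL_star (f g : R3 → V ι) (ξ : R3) :
    NL c (fun η => star (f (-η))) (fun η => star (g (-η))) ξ = star (NL c f g (-ξ)) := by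
  funext a i
  have e : ∀ b d j k, cv (fun η => star (f (-η)) b j) (fun η => star (g (-η)) d k) ξ =
      conj (cv (fun η => f η b j) (fun η => g η d k) (-ξ)) := fun b d j k =>
    cv_conj (fun η => f η b j) (fun η => g η d k) ξ
  show _ = conj (NL c f g (-ξ) a i)
  simp only [NL, e, map_mul, map_sum, Complex.conj_ofReal, Complex.conj_I, lr_neg, map_ofNat,
    PiLp.neg_apply, Finset.mul_sum]
  refine Finset.sum_congr rfl fun b _ => Finset.sum_congr rfl fun d _ =>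
    Finset.sum_congr rfl fun k _ => Finset.sum_congr rfl fun j _ => ?_
  push_cast
  ring

theorem NL_sym {f g : R3 → V ι} (hf : Sym f) (hg : Sym g) : Sym (NL c f g) := by
  intro ξ
  have e1 : (fun η => star (f (-η))) = f := funext fun η => by rw [hf, star_star]
  have e2 : (fun η => star (g (-η))) = g := funext fun η => by rw [hg, star_star]
  have := NL_star c f g (-ξ)
  rwa [e1, e2, neg_neg] at this

theorem nl_smul (z w : ℂ) (f g : R3 → V ι) (ξ : R3) :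
    NL c (fun η => z • f η) (fun η => w • g η) ξ = (z * w) • NL c f g ξ := by
  have e : ∀ b d j k, cv (fun η => (z • f η) b j) (fun η => (w • g η) d k) ξ =
      z * w * cv (fun η => f η b j) (fun η => g η d k) ξ := by
    intro b d j k
    rw [cv, cv, ← integral_const_mul]
    simp only [Pi.smul_apply, smul_eq_mul]
    congr 1
    funext η
    ring
  funext a i
  show _ = z * w * NL c f g ξ a i
  simp only [NL, e, Finset.mul_sum]
  refine Finset.sum_congr rfl fun b _ => Finset.sum_congr rfl fun d _ =>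
    Finset.sum_congr rfl fun k _ => Finset.sum_congr rfl fun j _ => ?_
  ring

theorem NL_smul_left (z : ℂ) (f g : R3 → V ι) (ξ : R3) :
    NL c (fun η => z • f η) g ξ = z • NL c f g ξ := by
  simpa using nl_smul c z 1 f g ξ

theorem NL_smul_right (z : ℂ) (f g : R3 → V ι) (ξ : R3) :
    NL c f (fun η => z • g η) ξ = z • NL c f g ξ := by
  simpa using nl_smul c 1 z f g ξ

theorem NL_rsmul (r s : ℝ) (f g : R3 → V ι) (ξ : R3) :
    NL c (fun η => r • f η) (fun η => s • g η) ξ = (r * s) • NL c f g ξ := by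
  have := nl_smul c r s f g ξ
  rw [← Complex.ofReal_mul] at this
  simpa only [Complex.coe_smul] using this

theorem NL_add_left {κ C1 C2 C3 : ℝ} (hκ : 0 ≤ κ) {f f' g : R3 → V ι} (hf : VB κ C1 f)
    (hf' : VB κ C2 f') (hg : VB κ C3 g) (ξ : R3) :
    NL c (fun η => f η + f' η) g ξ = NL c f g ξ + NL c f' g ξ := by
  by_cases hξ : ξ = 0
  · simp [hξ, NL_origin]
  have e : ∀ b d j k, cv (fun η => (f η + f' η) b j) (fun η => g η d k) ξ =
      cv (fun η => f η b j) (fun η => g η d k) ξ + cv (fun η => f' η b j) (fun η => g η d k) ξ := by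
    intro b d j k
    rw [cv, cv, cv, ← integral_add (hf.nl_int hκ hg b j d k hξ) (hf'.nl_int hκ hg b j d k hξ)]
    simp only [Pi.add_apply, add_mul]
  funext a i
  simp only [NL, e, Pi.add_apply (NL c f g ξ), mul_add, Finset.sum_add_distrib]
  rfl

theorem NL_add_right {κ C1 C2 C3 : ℝ} (hκ : 0 ≤ κ) {f g g' : R3 → V ι} (hf : VB κ C1 f)
    (hg : VB κ C2 g) (hg' : VB κ C3 g') (ξ : R3) :
    NL c f (fun η => g η + g' η) ξ = NL c f g ξ + NL c f g' ξ := by
  by_cases hξ : ξ = 0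
  · simp [hξ, NL_origin]
  have e : ∀ b d j k, cv (fun η => f η b j) (fun η => (g η + g' η) d k) ξ =
      cv (fun η => f η b j) (fun η => g η d k) ξ + cv (fun η => f η b j) (fun η => g' η d k) ξ := by
    intro b d j k
    rw [cv, cv, cv, ← integral_add (hf.nl_int hκ hg b j d k hξ) (hf.nl_int hκ hg' b j d k hξ)]
    simp only [Pi.add_apply, mul_add]
  funext a i
  simp only [NL, e, mul_add, Finset.sum_add_distrib]
  rfl

theorem NL_scale (f g : R3 → V ι) {l : ℝ} (hl : 0 < l) (ξ : R3) :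
    NL c (fun η => f (l • η)) (fun η => g (l • η)) ξ = (l ^ 4)⁻¹ • NL c f g (l • ξ) := by
  have e : ∀ b d j k, cv (fun η => f (l • η) b j) (fun η => g (l • η) d k) ξ =
      (((l ^ 3)⁻¹ : ℝ) : ℂ) * cv (fun η => f η b j) (fun η => g η d k) (l • ξ) := fun b d j k =>
    cv_scale (fun η => f η b j) (fun η => g η d k) hl ξ
  have h0 : (l : ℂ) ≠ 0 := Complex.ofReal_ne_zero.2 hl.ne'
  funext a i
  simp only [NL, e, Pi.smul_apply, Complex.real_smul, lr_smul hl.ne', PiLp.smul_apply,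
    smul_eq_mul, Finset.mul_sum]
  refine Finset.sum_congr rfl fun b _ => Finset.sum_congr rfl fun d _ =>
    Finset.sum_congr rfl fun k _ => Finset.sum_congr rfl fun j _ => ?_
  push_cast
  field_simp

theorem exists_norm_NL_le : ∃ K : ℝ, 0 ≤ K ∧ ∀ (f g : R3 → V ι) (κ Cf Cg : ℝ), 0 ≤ κ → 0 ≤ Cf →
    0 ≤ Cg → (∀ ξ, ‖f ξ‖ ≤ Cf * wt κ ξ) → (∀ ξ, ‖g ξ‖ ≤ Cg * wt κ ξ) →
    ∀ ξ, ‖NL c f g ξ‖ ≤ K * Cf * Cg * (‖ξ‖ * w2 κ ξ) := by
  obtain ⟨K, hK, h⟩ := exists_norm_cv_le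
  have hS : 0 ≤ ∑ a, ∑ b, ∑ d, |c a b d| := by positivity
  refine ⟨2 * Real.pi * (∑ a, ∑ b, ∑ d, |c a b d|) * 18 * K, by positivity,
    fun f g κ Cf Cg hκ hf hg bf bg ξ => ?_⟩
  by_cases hξ : ξ = 0
  · simp [hξ, NL_origin]
  have hw := w2_nonneg κ ξ
  refine (pi_norm_le_iff_of_nonneg (by positivity)).2 fun a =>
    (pi_norm_le_iff_of_nonneg (by positivity)).2 fun i => ?_
  have h1 : ∀ b d, ‖∑ k, ∑ j, ((lr ξ i k * ξ j : ℝ) : ℂ) *
      cv (fun η => f η b j) (fun η => g η d k) ξ‖ ≤ 18 * K * Cf * Cg * (‖ξ‖ * w2 κ ξ) := by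
    intro b d
    have h2 : ∀ k j, ‖((lr ξ i k * ξ j : ℝ) : ℂ) * cv (fun η => f η b j) (fun η => g η d k) ξ‖ ≤
        2 * ‖ξ‖ * (K * Cf * Cg * w2 κ ξ) := by
      intro k j
      rw [norm_mul, Complex.norm_real, Real.norm_eq_abs, abs_mul]
      exact mul_le_mul (mul_le_mul (abs_lr_le ξ i k) (nl_coord ξ j) (abs_nonneg _) zero_le_two)
        (h _ _ κ Cf Cg hκ hf hg (fun η _ => (nl_comp _ b j).trans (bf η))
          (fun η _ => (nl_comp _ d k).trans (bg η)) ξ hξ) (norm_nonneg _) (by positivity)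
    refine (norm_sum_le _ _).trans ((Finset.sum_le_sum fun k _ => (norm_sum_le _ _).trans
      (Finset.sum_le_sum fun j _ => h2 k j)).trans (le_of_eq ?_))
    simp only [Finset.sum_const, Finset.card_univ, Fintype.card_fin, nsmul_eq_mul]
    push_cast
    ring
  have h3 : ‖∑ b, ∑ d, (c a b d : ℂ) * ∑ k, ∑ j, ((lr ξ i k * ξ j : ℝ) : ℂ) *
      cv (fun η => f η b j) (fun η => g η d k) ξ‖ ≤
      (∑ b, ∑ d, |c a b d|) * (18 * K * Cf * Cg * (‖ξ‖ * w2 κ ξ)) := by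
    rw [Finset.sum_mul]
    refine (norm_sum_le _ _).trans (Finset.sum_le_sum fun b _ => ?_)
    rw [Finset.sum_mul]
    refine (norm_sum_le _ _).trans (Finset.sum_le_sum fun d _ => ?_)
    rw [norm_mul, Complex.norm_real, Real.norm_eq_abs]
    exact mul_le_mul_of_nonneg_left (h1 b d) (abs_nonneg _)
  have h4 : ∑ b, ∑ d, |c a b d| ≤ ∑ a, ∑ b, ∑ d, |c a b d| :=
    Finset.single_le_sum (f := fun a => ∑ b, ∑ d, |c a b d|) (fun a _ => by positivity)
      (Finset.mem_univ a)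
  have h5 : ‖(2 * Real.pi * Complex.I : ℂ)‖ = 2 * Real.pi := by
    simp [abs_of_pos Real.pi_pos]
  rw [NL, norm_mul, h5]
  calc _ ≤ 2 * Real.pi * ((∑ a, ∑ b, ∑ d, |c a b d|) * (18 * K * Cf * Cg * (‖ξ‖ * w2 κ ξ))) :=
        mul_le_mul_of_nonneg_left (h3.trans (mul_le_mul_of_nonneg_right h4 (by positivity)))
          (by positivity)
    _ = _ := by ring

theorem continuousOn_NL {P : Type} [TopologicalSpace P] [FirstCountableTopology P] {S : Set P}
    {f g : P → R3 → V ι} {κ C : ℝ} (hκ : 0 < κ)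
    (hf : ContinuousOn (fun z : P × R3 => f z.1 z.2) (S ×ˢ {0}ᶜ))
    (hg : ContinuousOn (fun z : P × R3 => g z.1 z.2) (S ×ˢ {0}ᶜ))
    (bf : ∀ s ∈ S, ∀ ξ, ‖f s ξ‖ ≤ C * wt κ ξ) (bg : ∀ s ∈ S, ∀ ξ, ‖g s ξ‖ ≤ C * wt κ ξ) :
    ContinuousOn (fun z : P × R3 => NL c (f z.1) (g z.1) z.2) (S ×ˢ {0}ᶜ) := by
  refine continuousOn_pi.2 fun a => continuousOn_pi.2 fun i => ?_
  refine continuousOn_const.mul (continuousOn_finsetSum _ fun b _ =>
    continuousOn_finsetSum _ fun d _ => continuousOn_const.mul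
      (continuousOn_finsetSum _ fun k _ => continuousOn_finsetSum _ fun j _ => ?_))
  refine ContinuousOn.mul (Complex.continuous_ofReal.comp_continuousOn (ContinuousOn.mul
    ((contDiffOn_lr i k).continuousOn.comp continuousOn_snd fun _ hz => hz.2)
    (Continuous.continuousOn (by fun_prop)))) ?_
  exact continuousOn_cv (f := fun s η => f s η b j) (g := fun s η => g s η d k) hκ
    (nl_cont hf b j) (nl_cont hg d k) (fun s hs η _ => (nl_comp _ b j).trans (bf s hs η))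
    fun s hs η _ => (nl_comp _ d k).trans (bg s hs η)


end

end Pool.Agent.Work.MP_6bf1e5_an.Ens
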