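import Pool.Agent.Work.MP_6bf1e5_an.Ens.Ev

/-!
Plancherel inequality for integrable functions. If `f` is also square integrable, then the inverse Fourier
transform of `f` in `L²` and the inverse Fourier integral `ev f` have the same integral against each test
function (Fubini), so they agree almost everywhere; the transform on `L²` is an isometry.
-/

open scoped ContDiff ENNReal FourierTransform Topology ComplexConjugate
open Set MeasureTheory Filter Polynomial Metric

namespace Pool.Agent.Work.MP_6bf1e5_an.Ens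

noncomputable section

theorem planch_cont {f : R3 → ℂ} (hf : Integrable f) : Continuous (ev f) := by
  have h : Continuous fun p : R3 × R3 => (-innerₗ R3) p.1 p.2 :=
    (continuous_inner (𝕜 := ℝ) (E := R3)).neg
  exact VectorFourier.fourierIntegral_continuous Real.continuous_fourierChar h hf

theorem planch_fubini {f g : R3 → ℂ} (hf : Integrable f) (hg : Integrable g) :
    ∫ x, ev g x • f x = ∫ x, g x • ev f x := by
  have h : Continuous fun p : R3 × R3 => (-innerₗ R3) p.1 p.2 :=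
    (continuous_inner (𝕜 := ℝ) (E := R3)).neg
  have h1 := VectorFourier.integral_fourierIntegral_smul_eq_flip (L := -innerₗ R3)
    Real.continuous_fourierChar h hg hf
  have h2 : (-innerₗ R3).flip = -innerₗ R3 := by
    ext x y
    simp [real_inner_comm]
  rw [h2] at h1
  exact h1

theorem planch_ae {f : R3 → ℂ} (hf : Integrable f) (h2 : MemLp f 2 volume) :
    ((𝓕⁻ (h2.toLp f) : Lp ℂ 2 (volume : Measure R3)) : R3 → ℂ) =ᵐ[volume] ev f := by
  apply ae_eq_of_integral_contDiff_smul_eq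
  · exact (Lp.memLp _).locallyIntegrable (by norm_num)
  · exact (planch_cont hf).locallyIntegrable
  · intro g g_smooth g_cpt
    have hg₁ : HasCompactSupport (Complex.ofRealCLM ∘ g) := g_cpt.comp_left rfl
    have hg₂ : ContDiff ℝ ∞ (Complex.ofRealCLM ∘ g) := by fun_prop
    set φ : SchwartzMap R3 ℂ := hg₁.toSchwartzMap hg₂ with hφ
    have hφx : ∀ x, φ x = (g x : ℂ) := fun x => rfl
    have e1 := congrArg (fun T : TemperedDistribution R3 ℂ => T φ)
      (Lp.fourierInv_toTemperedDistribution_eq (h2.toLp f))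
    simp only [TemperedDistribution.fourierInv_apply, Lp.toTemperedDistribution_apply] at e1
    have e2 : ∫ x, (𝓕⁻ φ : SchwartzMap R3 ℂ) x • (h2.toLp f : R3 → ℂ) x = ∫ x, ev φ x • f x := by
      apply integral_congr_ae
      filter_upwards [h2.coeFn_toLp] with x hx
      rw [hx, SchwartzMap.fourierInv_coe]
      rfl
    rw [e2, planch_fubini hf φ.integrable] at e1
    simp only [hφx, Complex.coe_smul] at e1
    exact e1.symm

theorem planch_eLp {f : R3 → ℂ} (hf : Integrable f) (h2 : MemLp f 2 volume) :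
    eLpNorm (ev f) 2 volume = eLpNorm f 2 volume := by
  have h1 : ‖(𝓕⁻ (h2.toLp f) : Lp ℂ 2 (volume : Measure R3))‖ = ‖h2.toLp f‖ :=
    (Lp.fourierTransformₗᵢ R3 ℂ).symm.norm_map _
  have h3 : ‖(𝓕⁻ (h2.toLp f) : Lp ℂ 2 (volume : Measure R3))‖ₑ = ‖h2.toLp f‖ₑ := by
    rw [← ofReal_norm, ← ofReal_norm, h1]
  rw [Lp.enorm_def, Lp.enorm_toLp, eLpNorm_congr_ae (planch_ae hf h2)] at h3
  exact h3

theorem planch_sq (f : R3 → ℂ) : ∫⁻ x, ‖f x‖ₑ ^ 2 = eLpNorm f 2 volume ^ 2 := by
  rw [eLpNorm_eq_lintegral_rpow_enorm_toReal (by norm_num) (by norm_num)]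
  simp only [ENNReal.toReal_ofNat, ENNReal.rpow_ofNat]
  rw [← ENNReal.rpow_natCast, ← ENNReal.rpow_mul]
  norm_num

theorem lintegral_ev_sq_le {f : R3 → ℂ} (hf : Integrable f) :
    ∫⁻ x, ‖ev f x‖ₑ ^ 2 ≤ ∫⁻ ξ, ‖f ξ‖ₑ ^ 2 := by
  by_cases h : eLpNorm f 2 volume < ⊤
  · rw [planch_sq, planch_sq, planch_eLp hf ⟨hf.aestronglyMeasurable, h⟩]
  · rw [planch_sq f, not_lt, top_le_iff] at *
    rw [h]
    simp

theorem integral_ev_sq_le {f : R3 → ℂ} (hf : Integrable f) (h2 : Integrable fun ξ => ‖f ξ‖ ^ 2) :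
    Integrable (fun x => ‖ev f x‖ ^ 2) ∧ ∫ x, ‖ev f x‖ ^ 2 ≤ ∫ ξ, ‖f ξ‖ ^ 2 := by
  have hm : MemLp f 2 volume := (memLp_two_iff_integrable_sq_norm hf.aestronglyMeasurable).mpr h2
  have hc := (planch_cont hf).aestronglyMeasurable (μ := volume)
  have hm' : MemLp (ev f) 2 volume := ⟨hc, by rw [planch_eLp hf hm]; exact hm.2⟩
  have hi := (memLp_two_iff_integrable_sq_norm hc).mp hm'
  refine ⟨hi, ?_⟩
  have key : ∀ g : R3 → ℂ, Integrable (fun x => ‖g x‖ ^ 2) →
      ∫ x, ‖g x‖ ^ 2 = (∫⁻ x, ‖g x‖ₑ ^ 2).toReal := by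
    intro g hg
    rw [integral_eq_lintegral_of_nonneg_ae (Eventually.of_forall fun x => by positivity)
      hg.aestronglyMeasurable]
    congr 1
    apply lintegral_congr
    intro x
    rw [ENNReal.ofReal_pow (norm_nonneg _), ofReal_norm]
  rw [key _ hi, key _ h2, planch_sq, planch_sq, planch_eLp hf hm]

end

end Pool.Agent.Work.MP_6bf1e5_an.Ens
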