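import Pool.Agent.Work.MP_6bf1e5_an.Ens.NL
import Pool.Agent.Work.MP_6bf1e5_an.Ens.Conv

-- merged part: Pool.Agent.Work.MP_6bf1e5_an.Ens.Bil
section
/-!
The Duhamel bilinear operator. With `|NL| ≤ K |y| |z| |ξ|^(3/2) wt κ ξ` (`w2_eq`) one gets
`|duh t ξ| ≤ K |y| |z| min (t |ξ|^(3/2)) (|ξ|^(-1/2) / (4 π² ν))`, and the minimum is at most
`K' t^(1/4)` (weighted geometric mean with exponents 1/4 and 3/4). Continuity at `ξ = 0` comes from
the first bound, continuity off `0` from `continuousOn_NL` and continuity of parametric interval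
integrals. Build `B` with `LinearMap.mkContinuous₂`.
-/

open scoped ContDiff ENNReal FourierTransform Topology ComplexConjugate
open Set MeasureTheory Filter Polynomial Metric

namespace Pool.Agent.Work.MP_6bf1e5_an.Ens

noncomputable section

variable {ι : Type} [Fintype ι]

variable {ν κ : ℝ} (c : ι → ι → ι → ℝ)

theorem bil_contOn (hκ : 0 < κ) (y z : YY ι) :
    ContinuousOn (fun p : ℝ × R3 => NL c (lift κ y.fn p.1) (lift κ z.fn p.1) p.2)
      (univ ×ˢ {0}ᶜ) := by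
  refine continuousOn_NL c (C := ‖y‖ + ‖z‖) hκ (y.continuousOn_lift κ) (z.continuousOn_lift κ)
    (fun s _ ξ => ?_) (fun s _ ξ => ?_)
  · refine ((y.vb κ s).bound ξ).trans (mul_le_mul_of_nonneg_right ?_ (wt_nonneg κ ξ))
    linarith [norm_nonneg z]
  · refine ((z.vb κ s).bound ξ).trans (mul_le_mul_of_nonneg_right ?_ (wt_nonneg κ ξ))
    linarith [norm_nonneg y]

theorem bil_cont_time (hκ : 0 < κ) (y z : YY ι) (ξ : R3) :
    Continuous fun s : ℝ => NL c (lift κ y.fn s) (lift κ z.fn s) ξ := by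
  by_cases hξ : ξ = 0
  · subst hξ
    simp only [NL_origin]
    exact continuous_const
  · exact (bil_contOn c hκ y z).comp_continuous (f := fun s : ℝ => (s, ξ)) (by fun_prop)
      (fun s => ⟨mem_univ _, hξ⟩)

theorem bil_cont_integrand (hκ : 0 < κ) (y z : YY ι) (t : ℝ) (ξ : R3) :
    Continuous fun s : ℝ => Real.exp (-(hr ν ξ * (t - s))) •
      NL c (lift κ y.fn s) (lift κ z.fn s) ξ := by
  have h1 : Continuous fun s : ℝ => Real.exp (-(hr ν ξ * (t - s))) := by fun_prop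
  exact h1.smul (bil_cont_time c hκ y z ξ)

theorem bil_duh_origin (y z : ℝ × R3 → V ι) (t : ℝ) : duh ν c κ y z t 0 = 0 := by
  simp [duh, wt_zero]

theorem bil_exp_int {h t : ℝ} (hh : 0 < h) (ht : 0 ≤ t) :
    0 ≤ ∫ s in (0 : ℝ)..t, Real.exp (-(h * (t - s))) ∧
    ∫ s in (0 : ℝ)..t, Real.exp (-(h * (t - s))) ≤ t ∧
    ∫ s in (0 : ℝ)..t, Real.exp (-(h * (t - s))) ≤ h⁻¹ := by
  refine ⟨intervalIntegral.integral_nonneg ht fun s _ => (Real.exp_pos _).le, ?_, ?_⟩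
  · have h1 : ∫ s in (0 : ℝ)..t, Real.exp (-(h * (t - s))) ≤ ∫ _s in (0 : ℝ)..t, (1 : ℝ) := by
      refine intervalIntegral.integral_mono_on ht (Continuous.intervalIntegrable (by fun_prop) _ _)
        (Continuous.intervalIntegrable continuous_const _ _) fun s hs => ?_
      rw [Real.exp_le_one_iff]
      have := mul_nonneg hh.le (sub_nonneg.2 hs.2)
      linarith
    simpa using h1
  · have hd : ∀ s ∈ uIcc (0 : ℝ) t, HasDerivAt (fun s => h⁻¹ * Real.exp (-(h * (t - s))))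
        (Real.exp (-(h * (t - s)))) s := by
      intro s _
      have h1 : HasDerivAt (fun s => -(h * (t - s))) h s := by
        have := (((hasDerivAt_id' s).const_sub t).const_mul h).fun_neg
        exact this.congr_deriv (by ring)
      have h2 := h1.exp.const_mul h⁻¹
      refine h2.congr_deriv ?_
      field_simp
    rw [intervalIntegral.integral_eq_sub_of_hasDerivAt hd
      (Continuous.intervalIntegrable (by fun_prop) _ _)]
    have : 0 ≤ h⁻¹ * Real.exp (-(h * (t - 0))) := by positivity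
    simp only [sub_self, mul_zero, neg_zero, Real.exp_zero, mul_one]
    linarith

theorem bil_scalar {a r t I : ℝ} (ha : 0 < a) (hr : 0 < r) (h0 : 0 ≤ I) (h1 : I ≤ t)
    (h2 : I ≤ (a * r ^ 2)⁻¹) :
    r ^ (3 / 2 : ℝ) * I ≤ a⁻¹ * r ^ (-(1 / 2) : ℝ) ∧
      r ^ (3 / 2 : ℝ) * I ≤ a⁻¹ ^ (3 / 4 : ℝ) * t ^ (1 / 4 : ℝ) := by
  have hp : 0 < r ^ (3 / 2 : ℝ) := Real.rpow_pos_of_pos hr _
  constructor
  · refine (mul_le_mul_of_nonneg_left h2 hp.le).trans (le_of_eq ?_)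
    have : r ^ (3 / 2 : ℝ) = r ^ (-(1 / 2) : ℝ) * r ^ 2 := by
      rw [← Real.rpow_natCast, ← Real.rpow_add hr]; norm_num
    rw [this]
    field_simp
  · have hI : I = I ^ (3 / 4 : ℝ) * I ^ (1 / 4 : ℝ) := by
      rw [← Real.rpow_add' h0 (by norm_num)]; norm_num
    have h3 : I ^ (3 / 4 : ℝ) ≤ ((a * r ^ 2)⁻¹) ^ (3 / 4 : ℝ) :=
      Real.rpow_le_rpow h0 h2 (by norm_num)
    have h4 : I ^ (1 / 4 : ℝ) ≤ t ^ (1 / 4 : ℝ) := Real.rpow_le_rpow h0 h1 (by norm_num)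
    have h5 : ((a * r ^ 2)⁻¹) ^ (3 / 4 : ℝ) = a⁻¹ ^ (3 / 4 : ℝ) * (r ^ (3 / 2 : ℝ))⁻¹ := by
      rw [mul_inv, Real.mul_rpow (by positivity) (by positivity), Real.inv_rpow (by positivity)
        (x := r ^ 2), ← Real.rpow_natCast, ← Real.rpow_mul hr.le]
      norm_num
    have h6 : I ≤ a⁻¹ ^ (3 / 4 : ℝ) * (r ^ (3 / 2 : ℝ))⁻¹ * t ^ (1 / 4 : ℝ) := by
      rw [hI, ← h5]
      exact mul_le_mul h3 h4 (by positivity) (by positivity)
    refine (mul_le_mul_of_nonneg_left h6 hp.le).trans (le_of_eq ?_)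
    field_simp

theorem exists_norm_duh_le (hν : 0 < ν) : ∃ K : ℝ, 0 ≤ K ∧ ∀ κ : ℝ, 0 < κ → ∀ (y z : YY ι) (t : ℝ),
    0 ≤ t → ∀ ξ : R3, ‖duh ν c κ y.fn z.fn t ξ‖ ≤ K * ‖y‖ * ‖z‖ * (t * ‖ξ‖ ^ (3 / 2 : ℝ)) ∧
      ‖duh ν c κ y.fn z.fn t ξ‖ ≤ K * ‖y‖ * ‖z‖ * ‖ξ‖ ^ (-(1 / 2) : ℝ) ∧
      ‖duh ν c κ y.fn z.fn t ξ‖ ≤ K * ‖y‖ * ‖z‖ * t ^ (1 / 4 : ℝ) := by
  obtain ⟨K, hK, hN⟩ := exists_norm_NL_le c
  set a : ℝ := 4 * Real.pi ^ 2 * ν with ha
  have hap : 0 < a := by positivity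
  set M : ℝ := 1 + a⁻¹ + a⁻¹ ^ (3 / 4 : ℝ) with hM
  have ha1 : 0 ≤ a⁻¹ := by positivity
  have ha2 : 0 ≤ a⁻¹ ^ (3 / 4 : ℝ) := by positivity
  refine ⟨K * M, by positivity, fun κ hκ y z t ht ξ => ?_⟩
  by_cases hξ : ξ = 0
  · subst hξ
    rw [bil_duh_origin, norm_zero]
    exact ⟨by positivity, by positivity, by positivity⟩
  have hr0 : 0 < ‖ξ‖ := norm_pos_iff.2 hξ
  have hw := wt_pos κ hξ
  have hh : hr ν ξ = a * ‖ξ‖ ^ 2 := rfl
  have hhp : 0 < hr ν ξ := by rw [hh]; positivity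
  obtain ⟨i0, i1, i2⟩ := bil_exp_int hhp ht
  set I := ∫ s in (0 : ℝ)..t, Real.exp (-(hr ν ξ * (t - s))) with hI
  have hw2 : ‖ξ‖ * w2 κ ξ = ‖ξ‖ ^ (3 / 2 : ℝ) * wt κ ξ := by
    rw [w2_eq, ← mul_assoc]
    congr 1
    rw [← Real.rpow_one_add' hr0.le (by norm_num)]
    norm_num
  have hmain : ‖duh ν c κ y.fn z.fn t ξ‖ ≤ K * ‖y‖ * ‖z‖ * (‖ξ‖ ^ (3 / 2 : ℝ) * I) := by
    have h1 : ‖∫ s in (0 : ℝ)..t, Real.exp (-(hr ν ξ * (t - s))) •
        NL c (lift κ y.fn s) (lift κ z.fn s) ξ‖ ≤ ∫ s in (0 : ℝ)..t,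
          Real.exp (-(hr ν ξ * (t - s))) * (K * ‖y‖ * ‖z‖ * (‖ξ‖ ^ (3 / 2 : ℝ) * wt κ ξ)) := by
      refine intervalIntegral.norm_integral_le_of_norm_le ht
        (Eventually.of_forall fun s _ => ?_) (Continuous.intervalIntegrable (by fun_prop) _ _)
      rw [norm_smul, Real.norm_eq_abs, abs_of_pos (Real.exp_pos _), ← hw2]
      exact mul_le_mul_of_nonneg_left (hN _ _ κ _ _ hκ.le (norm_nonneg y) (norm_nonneg z)
        (y.vb κ s).bound (z.vb κ s).bound ξ) (Real.exp_pos _).le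
    rw [intervalIntegral.integral_mul_const, ← hI] at h1
    rw [duh, norm_smul, Real.norm_eq_abs, abs_of_pos (inv_pos.2 hw)]
    refine (mul_le_mul_of_nonneg_left h1 (inv_pos.2 hw).le).trans (le_of_eq ?_)
    field_simp
  obtain ⟨j1, j2⟩ := bil_scalar hap hr0 i0 i1 (hh ▸ i2)
  have hp : 0 ≤ ‖ξ‖ ^ (3 / 2 : ℝ) := by positivity
  have hC : 0 ≤ K * ‖y‖ * ‖z‖ := by positivity
  have key : ∀ X : ℝ, ‖ξ‖ ^ (3 / 2 : ℝ) * I ≤ M * X →
      ‖duh ν c κ y.fn z.fn t ξ‖ ≤ K * M * ‖y‖ * ‖z‖ * X := fun X hX =>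
    hmain.trans ((mul_le_mul_of_nonneg_left hX hC).trans (le_of_eq (by ring)))
  refine ⟨key _ ?_, key _ ?_, key _ ?_⟩
  · have h1 : ‖ξ‖ ^ (3 / 2 : ℝ) * I ≤ 1 * (t * ‖ξ‖ ^ (3 / 2 : ℝ)) := by
      have := mul_le_mul_of_nonneg_left i1 hp
      linarith
    exact h1.trans (mul_le_mul_of_nonneg_right (by linarith) (by positivity))
  · exact j1.trans (mul_le_mul_of_nonneg_right (by linarith) (by positivity))
  · exact j2.trans (mul_le_mul_of_nonneg_right (by linarith) (by positivity))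

theorem hasDerivAt_duh (hκ : 0 < κ) (y z : YY ι) {ξ : R3} (hξ : ξ ≠ 0) (t : ℝ) :
    HasDerivAt (fun s => wt κ ξ • duh ν c κ y.fn z.fn s ξ)
      (-(hr ν ξ • wt κ ξ • duh ν c κ y.fn z.fn t ξ)
        + NL c (lift κ y.fn t) (lift κ z.fn t) ξ) t := by
  have hw := wt_pos κ hξ
  set N : ℝ → V ι := fun s => NL c (lift κ y.fn s) (lift κ z.fn s) ξ with hN
  have hNc : Continuous N := bil_cont_time c hκ y z ξ
  set h := hr ν ξ with hh
  have hF : ∀ s, wt κ ξ • duh ν c κ y.fn z.fn s ξ =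
      Real.exp (-(h * s)) • ∫ u in (0 : ℝ)..s, Real.exp (h * u) • N u := by
    intro s
    rw [duh, smul_smul, mul_inv_cancel₀ hw.ne', one_smul, ← intervalIntegral.integral_smul]
    refine intervalIntegral.integral_congr fun u _ => ?_
    simp only [hN]
    rw [smul_smul, ← Real.exp_add]
    congr 2
    ring
  simp only [hF]
  have hc0 : Continuous fun u => Real.exp (h * u) := by fun_prop
  have hc : Continuous fun u => Real.exp (h * u) • N u := hc0.smul hNc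
  have h1 : HasDerivAt (fun s => ∫ u in (0 : ℝ)..s, Real.exp (h * u) • N u)
      (Real.exp (h * t) • N t) t := (hc.integral_hasStrictDerivAt 0 t).hasDerivAt
  have h2 : HasDerivAt (fun s => Real.exp (-(h * s))) (Real.exp (-(h * t)) * -h) t := by
    have := ((hasDerivAt_id t).const_mul h).neg.exp
    simpa using this
  refine (h2.smul h1).congr_deriv ?_
  rw [smul_smul, ← Real.exp_add, neg_add_cancel, Real.exp_zero, one_smul, smul_smul, add_comm,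
    ← neg_smul]
  congr 2
  ring

theorem bil_clamp_nonneg (t1 t : ℝ) : 0 ≤ clamp t1 t := le_max_left _ _

theorem bil_clamp_le {t1 : ℝ} (h : 0 ≤ t1) (t : ℝ) : clamp t1 t ≤ t1 :=
  max_le h (min_le_right _ _)

theorem bil_clamp_cont (t1 : ℝ) : Continuous (clamp t1) := by
  unfold clamp
  fun_prop

theorem bil_duh_contOn (hκ : 0 < κ) (y z : YY ι) :
    ContinuousOn (fun p : ℝ × R3 => duh ν c κ y.fn z.fn p.1 p.2) (univ ×ˢ {0}ᶜ) := by
  unfold duh
  refine ContinuousOn.smul (f := fun p : ℝ × R3 => (wt κ p.2)⁻¹)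
    (g := fun p : ℝ × R3 => ∫ s in (0 : ℝ)..p.1, Real.exp (-(hr ν p.2 * (p.1 - s))) •
      NL c (lift κ y.fn s) (lift κ z.fn s) p.2) ?_ ?_
  · refine ContinuousOn.inv₀ ((continuousOn_wt κ).comp continuousOn_snd fun p hp => hp.2) ?_
    exact fun p hp => (wt_pos κ hp.2).ne'
  · rw [continuousOn_iff_continuous_domRestrict]
    refine intervalIntegral.continuous_parametric_intervalIntegral_of_continuous
      (X := ↥((univ : Set ℝ) ×ˢ ({0}ᶜ : Set R3))) (μ := volume) (a₀ := 0)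
      (f := fun p s => Real.exp (-(hr ν p.1.2 * (p.1.1 - s))) •
        NL c (lift κ y.fn s) (lift κ z.fn s) p.1.2) (s := fun p => p.1.1) ?_ (by fun_prop)
    refine Continuous.smul (f := fun q : ↥((univ : Set ℝ) ×ˢ ({0}ᶜ : Set R3)) × ℝ =>
      Real.exp (-(hr ν q.1.1.2 * (q.1.1.1 - q.2)))) ?_ ?_
    · unfold hr
      fun_prop
    · exact (bil_contOn c hκ y z).comp_continuous
        (f := fun q : ↥((univ : Set ℝ) ×ˢ ({0}ᶜ : Set R3)) × ℝ => (q.2, q.1.1.2)) (by fun_prop)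
        (fun q => ⟨mem_univ _, q.1.2.2⟩)

theorem bil_duh_cont (hν : 0 < ν) (hκ : 0 < κ) {t1 : ℝ} (ht1 : 0 < t1) (y z : YY ι) :
    Continuous fun p : ℝ × R3 => duh ν c κ y.fn z.fn (clamp t1 p.1) p.2 := by
  obtain ⟨K, hK, hb⟩ := exists_norm_duh_le c hν
  rw [continuous_iff_continuousAt]
  rintro ⟨t, ξ⟩
  by_cases hξ : ξ = 0
  · subst hξ
    rw [ContinuousAt, bil_duh_origin]
    refine squeeze_zero_norm (a := fun p : ℝ × R3 => K * ‖y‖ * ‖z‖ * (t1 * ‖p.2‖ ^ (3 / 2 : ℝ)))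
      (fun p => ?_) ?_
    · refine (hb κ hκ y z _ (bil_clamp_nonneg t1 p.1) p.2).1.trans ?_
      refine mul_le_mul_of_nonneg_left ?_ (by positivity)
      exact mul_le_mul_of_nonneg_right (bil_clamp_le ht1.le _) (by positivity)
    · have hc : Continuous fun p : ℝ × R3 => K * ‖y‖ * ‖z‖ * (t1 * ‖p.2‖ ^ (3 / 2 : ℝ)) := by
        refine continuous_const.mul (continuous_const.mul ?_)
        exact continuous_snd.norm.rpow_const fun _ => Or.inr (by norm_num)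
      have := hc.tendsto (t, 0)
      simpa using this
  · have ho : IsOpen ((univ : Set ℝ) ×ˢ ({0}ᶜ : Set R3)) := isOpen_univ.prod isOpen_compl_singleton
    have h1 : ContinuousAt (fun p : ℝ × R3 => duh ν c κ y.fn z.fn p.1 p.2) (clamp t1 t, ξ) :=
      (bil_duh_contOn c hκ y z).continuousAt (ho.mem_nhds ⟨mem_univ _, hξ⟩)
    have h2 : Continuous fun p : ℝ × R3 => (clamp t1 p.1, p.2) :=
      ((bil_clamp_cont t1).comp continuous_fst).prodMk continuous_snd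
    exact ContinuousAt.comp (f := fun p : ℝ × R3 => (clamp t1 p.1, p.2)) (x := (t, ξ)) h1
      h2.continuousAt

theorem bil_duh_div (hκ : 0 < κ) (y z : YY ι) (t : ℝ) : DivFree (duh ν c κ y.fn z.fn t) := by
  intro ξ a
  let L : V ι →L[ℝ] ℂ := ∑ j, (ξ j) • ((ContinuousLinearMap.proj j : (Fin 3 → ℂ) →L[ℝ] ℂ).comp
    (ContinuousLinearMap.proj a : V ι →L[ℝ] (Fin 3 → ℂ)))
  have hL : ∀ v : V ι, L v = ∑ j, (ξ j : ℂ) * v a j := by
    intro v
    simp [L]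
  rw [← hL, duh, map_smul, ← L.intervalIntegral_comp_comm
    ((bil_cont_integrand c hκ y z t ξ).intervalIntegrable _ _)]
  have : ∀ s, L (Real.exp (-(hr ν ξ * (t - s))) • NL c (lift κ y.fn s) (lift κ z.fn s) ξ) = 0 := by
    intro s
    rw [map_smul, hL, NL_div c _ _ ξ a, smul_zero]
  simp [this]

theorem bil_lift_add (y y' : YY ι) (s : ℝ) :
    lift κ (y + y').fn s = fun η => lift κ y.fn s η + lift κ y'.fn s η := by
  funext η
  simp [lift]

theorem bil_lift_smul (a : ℂ) (y : YY ι) (s : ℝ) :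
    lift κ (a • y).fn s = fun η => a • lift κ y.fn s η := by
  funext η
  simp only [lift, YY.fn_smul]
  rw [smul_comm]

theorem bil_add_left (hκ : 0 < κ) (y y' z : YY ι) (t : ℝ) (ξ : R3) :
    duh ν c κ (y + y').fn z.fn t ξ = duh ν c κ y.fn z.fn t ξ + duh ν c κ y'.fn z.fn t ξ := by
  unfold duh
  rw [← smul_add, ← intervalIntegral.integral_add
    ((bil_cont_integrand c hκ y z t ξ).intervalIntegrable _ _)
    ((bil_cont_integrand c hκ y' z t ξ).intervalIntegrable _ _)]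
  congr 2
  funext s
  rw [bil_lift_add, NL_add_left c hκ.le (y.vb κ s) (y'.vb κ s) (z.vb κ s), smul_add]

theorem bil_add_right (hκ : 0 < κ) (y z z' : YY ι) (t : ℝ) (ξ : R3) :
    duh ν c κ y.fn (z + z').fn t ξ = duh ν c κ y.fn z.fn t ξ + duh ν c κ y.fn z'.fn t ξ := by
  unfold duh
  rw [← smul_add, ← intervalIntegral.integral_add
    ((bil_cont_integrand c hκ y z t ξ).intervalIntegrable _ _)
    ((bil_cont_integrand c hκ y z' t ξ).intervalIntegrable _ _)]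
  congr 2
  funext s
  rw [bil_lift_add, NL_add_right c hκ.le (y.vb κ s) (z.vb κ s) (z'.vb κ s), smul_add]

theorem bil_smul_left (a : ℂ) (y z : YY ι) (t : ℝ) (ξ : R3) :
    duh ν c κ (a • y).fn z.fn t ξ = a • duh ν c κ y.fn z.fn t ξ := by
  unfold duh
  rw [smul_comm a, ← intervalIntegral.integral_smul a]
  congr 2
  funext s
  rw [bil_lift_smul, NL_smul_left, smul_comm]

theorem bil_smul_right (a : ℂ) (y z : YY ι) (t : ℝ) (ξ : R3) :
    duh ν c κ y.fn (a • z).fn t ξ = a • duh ν c κ y.fn z.fn t ξ := by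
  unfold duh
  rw [smul_comm a, ← intervalIntegral.integral_smul a]
  congr 2
  funext s
  rw [bil_lift_smul, NL_smul_right, smul_comm]

theorem exists_Bil (hν : 0 < ν) : ∃ K : ℝ, 0 ≤ K ∧ ∀ κ : ℝ, 0 < κ → ∀ t1 : ℝ, 0 < t1 →
    ∃ B : YY ι →L[ℂ] YY ι →L[ℂ] YY ι, ‖B‖ ≤ K * t1 ^ (1 / 4 : ℝ) ∧
      ∀ y z t ξ, (B y z).fn (t, ξ) = duh ν c κ y.fn z.fn (clamp t1 t) ξ := by
  obtain ⟨K, hK, hb⟩ := exists_norm_duh_le c hν
  refine ⟨K, hK, fun κ hκ t1 ht1 => ?_⟩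
  have hbd : ∀ (y z : YY ι) (p : ℝ × R3), ‖duh ν c κ y.fn z.fn (clamp t1 p.1) p.2‖ ≤
      K * t1 ^ (1 / 4 : ℝ) * ‖y‖ * ‖z‖ := by
    intro y z p
    refine (hb κ hκ y z _ (bil_clamp_nonneg t1 p.1) p.2).2.2.trans ?_
    have h1 : clamp t1 p.1 ^ (1 / 4 : ℝ) ≤ t1 ^ (1 / 4 : ℝ) :=
      Real.rpow_le_rpow (bil_clamp_nonneg _ _) (bil_clamp_le ht1.le _) (by norm_num)
    exact (mul_le_mul_of_nonneg_left h1 (by positivity)).trans (le_of_eq (by ring))
  let F : YY ι → YY ι → YY ι := fun y z =>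
    YY.mk (fun p => duh ν c κ y.fn z.fn (clamp t1 p.1) p.2) (bil_duh_cont c hν hκ ht1 y z) _
      (hbd y z) (fun t => bil_duh_div c hκ y z (clamp t1 t))
  have hF : ∀ y z p, (F y z).fn p = duh ν c κ y.fn z.fn (clamp t1 p.1) p.2 := fun y z p => rfl
  let L : YY ι →ₗ[ℂ] YY ι →ₗ[ℂ] YY ι := LinearMap.mk₂ ℂ F
    (fun y y' z => YY.ext fun p => by rw [YY.fn_add, hF, hF, hF, bil_add_left c hκ])
    (fun a y z => YY.ext fun p => by rw [YY.fn_smul, hF, hF, bil_smul_left])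
    (fun y z z' => YY.ext fun p => by rw [YY.fn_add, hF, hF, hF, bil_add_right c hκ])
    (fun a y z => YY.ext fun p => by rw [YY.fn_smul, hF, hF, bil_smul_right])
  have hL : ∀ y z, ‖L y z‖ ≤ K * t1 ^ (1 / 4 : ℝ) * ‖y‖ * ‖z‖ := fun y z =>
    YY.norm_le _ (by positivity) (hbd y z)
  exact ⟨L.mkContinuous₂ _ hL, L.mkContinuous₂_norm_le (by positivity) hL, fun y z t ξ => rfl⟩

end

end Pool.Agent.Work.MP_6bf1e5_an.Ens
end

-- merged part: Pool.Agent.Work.MP_6bf1e5_an.Ens.HE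
section
-- merged part: Pool.Agent.Work.MP_6bf1e5_an.Ens.HE
section
/-!
The heat operator, the rescaled evaluation, the real structures and their commutation rules.
-/

open scoped ContDiff ENNReal FourierTransform Topology ComplexConjugate
open Set MeasureTheory Filter Polynomial Metric

namespace Pool.Agent.Work.MP_6bf1e5_an.Ens

noncomputable section

variable {ι : Type} [Fintype ι]

omit [Fintype ι] in
theorem he_div_smul {ξ : R3} {w : V ι} (r : ℝ) (a : ι) (h : ∑ j, (ξ j : ℂ) * w a j = 0) :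
    ∑ j, (ξ j : ℂ) * (r • w) a j = 0 := by
  have := congrArg ((r : ℂ) * ·) h
  simpa [Finset.mul_sum, mul_left_comm] using this

omit [Fintype ι] in
theorem he_div_scale {ξ : R3} {w : V ι} {l : ℝ} (hl : l ≠ 0) (a : ι)
    (h : ∑ j, ((l • ξ) j : ℂ) * w a j = 0) : ∑ j, (ξ j : ℂ) * w a j = 0 := by
  have h' : (l : ℂ) * ∑ j, (ξ j : ℂ) * w a j = 0 := by
    simpa [Finset.mul_sum, mul_assoc] using h
  exact (mul_eq_zero.1 h').resolve_left (Complex.ofReal_ne_zero.2 hl)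

omit [Fintype ι] in
theorem he_div_star {ξ : R3} {w : V ι} (a : ι) (h : ∑ j, ((-ξ) j : ℂ) * w a j = 0) :
    ∑ j, (ξ j : ℂ) * star w a j = 0 := by
  have h' : ∑ j, (ξ j : ℂ) * w a j = 0 := by
    simpa [Finset.sum_neg_distrib] using h
  have := congrArg (starRingEnd ℂ) h'
  simpa [map_sum] using this

theorem he_norm_star (w : V ι) : ‖star w‖ = ‖w‖ := norm_star w

theorem he_exp_le {ν : ℝ} (hν : 0 < ν) (t1 t : ℝ) (ξ : R3) :
    Real.exp (-(hr ν ξ * clamp t1 t)) ≤ 1 := by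
  rw [Real.exp_le_one_iff, neg_nonpos]
  refine mul_nonneg ?_ (le_max_left _ _)
  unfold hr
  positivity

theorem exists_H {ν : ℝ} (hν : 0 < ν) (t1 : ℝ) : ∃ H : XX ι →L[ℂ] YY ι, ‖H‖ ≤ 1 ∧
    ∀ v t ξ, (H v).fn (t, ξ) = Real.exp (-(hr ν ξ * clamp t1 t)) • v.fn ξ := by
  have hb : ∀ (v : XX ι) (z : ℝ × R3),
      ‖Real.exp (-(hr ν z.2 * clamp t1 z.1)) • v.fn z.2‖ ≤ 1 * ‖v‖ := fun v z => by
    rw [norm_smul, Real.norm_of_nonneg (Real.exp_pos _).le]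
    exact mul_le_mul (he_exp_le hν _ _ _) (v.norm_fn_le _) (norm_nonneg _) zero_le_one
  have hc : ∀ v : XX ι,
      Continuous fun z : ℝ × R3 => Real.exp (-(hr ν z.2 * clamp t1 z.1)) • v.fn z.2 := fun v => by
    have := v.cont
    unfold hr clamp
    fun_prop
  let L : XX ι →ₗ[ℂ] YY ι :=
    { toFun := fun v => YY.mk (fun z => Real.exp (-(hr ν z.2 * clamp t1 z.1)) • v.fn z.2) (hc v) _
        (hb v) fun t ξ a => he_div_smul _ a (v.div ξ a)
      map_add' := fun v w => YY.ext fun z => by simp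
      map_smul' := fun r v => YY.ext fun z => by
        simp only [YY.fn_mk, XX.fn_smul, RingHom.id_apply, YY.fn_smul]
        exact smul_comm _ _ _ }
  have hL : ∀ v, ‖L v‖ ≤ 1 * ‖v‖ := fun v => YY.norm_le _ (by positivity) (hb v)
  exact ⟨L.mkContinuous 1 hL, L.mkContinuous_norm_le zero_le_one hL, fun _ _ _ => rfl⟩

theorem exists_E {κ t1 : ℝ} (hκ : 0 < κ) (h0 : 0 < t1) (h1 : t1 < 1) :
    ∃ E : YY ι →L[ℂ] XX ι, ‖E‖ ≤ (1 - t1) ^ (1 / 4 : ℝ) ∧ ∀ y ξ, (E y).fn ξ =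
      ((1 - t1) ^ (1 / 4 : ℝ) * Real.exp (-(κ * ‖ξ‖ * ((√(1 - t1))⁻¹ - 1)))) •
        y.fn (t1, (√(1 - t1))⁻¹ • ξ) := by
  obtain ⟨l, hl⟩ : ∃ l, l = (√(1 - t1))⁻¹ := ⟨_, rfl⟩
  obtain ⟨q, hq⟩ : ∃ q, q = (1 - t1) ^ (1 / 4 : ℝ) := ⟨_, rfl⟩
  have hq0 : 0 ≤ q := hq ▸ Real.rpow_nonneg (by linarith) _
  have hl1 : 1 < l := by
    rw [hl]
    refine (one_lt_inv₀ (Real.sqrt_pos.2 (by linarith))).2 ?_
    rw [Real.sqrt_lt' one_pos]
    linarith
  rw [← hl, ← hq]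
  have hb0 : ∀ (y : YY ι) (ξ : R3), ‖(q * Real.exp (-(κ * ‖ξ‖ * (l - 1)))) • y.fn (t1, l • ξ)‖
      ≤ q * Real.exp (-(κ * ‖ξ‖ * (l - 1))) * ‖y‖ := fun y ξ => by
    rw [norm_smul, Real.norm_of_nonneg (by positivity)]
    exact mul_le_mul_of_nonneg_left (y.norm_fn_le _) (by positivity)
  have hb : ∀ (y : YY ι) (ξ : R3),
      ‖(q * Real.exp (-(κ * ‖ξ‖ * (l - 1)))) • y.fn (t1, l • ξ)‖ ≤ q * ‖y‖ := fun y ξ => by
    refine (hb0 y ξ).trans (mul_le_mul_of_nonneg_right ?_ (norm_nonneg _))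
    refine mul_le_of_le_one_right hq0 ?_
    rw [Real.exp_le_one_iff, neg_nonpos]
    exact mul_nonneg (by positivity) (by linarith)
  have hc : ∀ y : YY ι,
      Continuous fun ξ : R3 => (q * Real.exp (-(κ * ‖ξ‖ * (l - 1)))) • y.fn (t1, l • ξ) :=
    fun y => by
      have := y.cont
      fun_prop
  have hz : ∀ y : YY ι, Tendsto
      (fun ξ : R3 => (q * Real.exp (-(κ * ‖ξ‖ * (l - 1)))) • y.fn (t1, l • ξ))
      (cocompact R3) (𝓝 0) := fun y => by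
    refine squeeze_zero_norm (hb0 y) ?_
    have a1 : Tendsto (fun ξ : R3 => κ * ‖ξ‖ * (l - 1)) (cocompact R3) atTop :=
      ((tendsto_norm_cocompact_atTop (E := R3)).const_mul_atTop hκ).atTop_mul_const (by linarith)
    have a2 := ((Real.tendsto_exp_neg_atTop_nhds_zero.comp a1).const_mul q).mul_const ‖y‖
    simpa using a2
  let L : YY ι →ₗ[ℂ] XX ι :=
    { toFun := fun y => XX.mk
        (fun ξ => (q * Real.exp (-(κ * ‖ξ‖ * (l - 1)))) • y.fn (t1, l • ξ)) (hc y) _ (hb y)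
        (fun ξ a => he_div_smul _ a (he_div_scale (by linarith : l ≠ 0) a (y.div t1 (l • ξ) a)))
        (hz y)
      map_add' := fun v w => XX.ext fun z => by simp
      map_smul' := fun r v => XX.ext fun z => by
        simp only [XX.fn_mk, XX.fn_smul, RingHom.id_apply, YY.fn_smul]
        exact smul_comm _ _ _ }
  have hL : ∀ y, ‖L y‖ ≤ q * ‖y‖ := fun y => XX.norm_le _ (by positivity) (hb y)
  exact ⟨L.mkContinuous q hL, L.mkContinuous_norm_le hq0 hL, fun _ _ => rfl⟩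

theorem exists_sigX : ∃ σ : XX ι →L[ℝ] XX ι, ∀ v ξ, (σ v).fn ξ = star (v.fn (-ξ)) := by
  have hb : ∀ (v : XX ι) (ξ : R3), ‖star (v.fn (-ξ))‖ ≤ 1 * ‖v‖ := fun v ξ => by
    rw [he_norm_star, one_mul]
    exact v.norm_fn_le _
  have hc : ∀ v : XX ι, Continuous fun ξ : R3 => star (v.fn (-ξ)) := fun v => by
    have := v.cont
    fun_prop
  have hz : ∀ v : XX ι, Tendsto (fun ξ : R3 => star (v.fn (-ξ))) (cocompact R3) (𝓝 0) :=
    fun v => by
      have a1 : Tendsto (fun ξ : R3 => -ξ) (cocompact R3) (cocompact R3) :=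
        (Homeomorph.neg R3).map_cocompact.le
      simpa using (v.zero.comp a1).star
  let L : XX ι →ₗ[ℝ] XX ι :=
    { toFun := fun v => XX.mk (fun ξ => star (v.fn (-ξ))) (hc v) _ (hb v)
        (fun ξ a => he_div_star a (v.div (-ξ) a)) (hz v)
      map_add' := fun v w => XX.ext fun z => by simp
      map_smul' := fun r v => XX.ext fun z => by simp }
  have hL : ∀ v, ‖L v‖ ≤ 1 * ‖v‖ := fun v => XX.norm_le _ (by positivity) (hb v)
  exact ⟨L.mkContinuous 1 hL, fun _ _ => rfl⟩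

theorem exists_sigY : ∃ σ' : YY ι →L[ℝ] YY ι, ∀ y t ξ, (σ' y).fn (t, ξ) = star (y.fn (t, -ξ)) := by
  have hb : ∀ (y : YY ι) (z : ℝ × R3), ‖star (y.fn (z.1, -z.2))‖ ≤ 1 * ‖y‖ := fun y z => by
    rw [he_norm_star, one_mul]
    exact y.norm_fn_le _
  have hc : ∀ y : YY ι, Continuous fun z : ℝ × R3 => star (y.fn (z.1, -z.2)) := fun y => by
    have := y.cont
    fun_prop
  let L : YY ι →ₗ[ℝ] YY ι :=
    { toFun := fun y => YY.mk (fun z => star (y.fn (z.1, -z.2))) (hc y) _ (hb y)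
        fun t ξ a => he_div_star a (y.div t (-ξ) a)
      map_add' := fun v w => YY.ext fun z => by simp
      map_smul' := fun r v => YY.ext fun z => by simp }
  have hL : ∀ y, ‖L y‖ ≤ 1 * ‖y‖ := fun y => YY.norm_le _ (by positivity) (hb y)
  exact ⟨L.mkContinuous 1 hL, fun _ _ _ => rfl⟩

theorem he_hr_neg (ν : ℝ) (ξ : R3) : hr ν (-ξ) = hr ν ξ := by rw [hr, hr, norm_neg]

omit [Fintype ι] in
theorem he_star_rsmul (r : ℝ) (w : V ι) : star (r • w) = r • star w := by simp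

theorem he_integral_star (f : ℝ → V ι) (a b : ℝ) :
    ∫ s in a..b, star (f s) = star (∫ s in a..b, f s) := by
  have h := fun μ : Measure ℝ => (starL' ℝ : V ι ≃L[ℝ] V ι).integral_comp_comm (μ := μ) f
  simp only [starL'_apply] at h
  simp only [intervalIntegral, h, star_sub]

variable {ν κ t1 : ℝ} {c : ι → ι → ι → ℝ} {H : XX ι →L[ℂ] YY ι} {E : YY ι →L[ℂ] XX ι}
  {B : YY ι →L[ℂ] YY ι →L[ℂ] YY ι} {σ : XX ι →L[ℝ] XX ι} {σ' : YY ι →L[ℝ] YY ι}

theorem Ops.lift_E (h : Ops ν c κ t1 H E B σ σ') (h1 : t1 < 1) (y : YY ι) (ξ : R3) :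
    wt κ ξ • (E y).fn ξ = (1 - t1)⁻¹ • lift κ y.fn t1 ((√(1 - t1))⁻¹ • ξ) := by
  have h0 : 0 < 1 - t1 := by linarith
  have hl : 0 < (√(1 - t1))⁻¹ := inv_pos.2 (Real.sqrt_pos.2 h0)
  rw [h.hE, lift, smul_smul, smul_smul, wt_smul κ hl]
  congr 1
  have e1 : (√(1 - t1))⁻¹ ^ (-(5 / 2) : ℝ) = (1 - t1) * (1 - t1) ^ (1 / 4 : ℝ) := by
    rw [Real.sqrt_eq_rpow, ← Real.rpow_neg h0.le, ← Real.rpow_mul h0.le,
      ← Real.rpow_one_add' h0.le (by norm_num)]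
    norm_num
  have e2 : Real.exp (-(κ * (√(1 - t1))⁻¹ * ‖ξ‖))
      = Real.exp (-(κ * ‖ξ‖)) * Real.exp (-(κ * ‖ξ‖ * ((√(1 - t1))⁻¹ - 1))) := by
    rw [← Real.exp_add]
    congr 1
    ring
  rw [e1, wt, wt, e2]
  field_simp
theorem Ops.sig_sig (h : Ops ν c κ t1 H E B σ σ') (v : XX ι) : σ (σ v) = v :=
  XX.ext fun ξ => by rw [h.hσ, h.hσ, neg_neg, star_star]
theorem Ops.sig_sig' (h : Ops ν c κ t1 H E B σ σ') (y : YY ι) : σ' (σ' y) = y :=
  YY.ext fun ⟨t, ξ⟩ => by rw [h.hσ', h.hσ', neg_neg, star_star]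
theorem Ops.H_sig (h : Ops ν c κ t1 H E B σ σ') (v : XX ι) : H (σ v) = σ' (H v) :=
  YY.ext fun ⟨t, ξ⟩ => by rw [h.hσ', h.hH, h.hH, h.hσ, he_hr_neg, he_star_rsmul]
theorem Ops.E_sig (h : Ops ν c κ t1 H E B σ σ') (y : YY ι) : E (σ' y) = σ (E y) :=
  XX.ext fun ξ => by rw [h.hσ, h.hE, h.hE, h.hσ', norm_neg, smul_neg, he_star_rsmul]
theorem Ops.B_sig (h : Ops ν c κ t1 H E B σ σ') (y z : YY ι) :
    B (σ' y) (σ' z) = σ' (B y z) := by
  have hl : ∀ (w : YY ι) (s : ℝ),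
      lift κ (σ' w).fn s = fun η => star (lift κ w.fn s (-η)) := fun w s => by
    funext η
    rw [lift, lift, h.hσ', wt_neg, he_star_rsmul]
  refine YY.ext fun ⟨t, ξ⟩ => ?_
  rw [h.hσ', h.hB, h.hB, duh, duh, he_star_rsmul, ← he_integral_star, wt_neg]
  simp only [hl, NL_star, he_star_rsmul, he_hr_neg]
theorem Ops.sig_eq (h : Ops ν c κ t1 H E B σ σ') {v : XX ι} (hv : Sym v.fn) : σ v = v :=
  XX.ext fun ξ => by rw [h.hσ, hv ξ, star_star]
theorem Ops.sig_eq' (h : Ops ν c κ t1 H E B σ σ') {y : YY ι}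
    (hy : ∀ t, Sym fun ξ => y.fn (t, ξ)) : σ' y = y :=
  YY.ext fun ⟨t, ξ⟩ => by
    have : y.fn (t, -ξ) = star (y.fn (t, ξ)) := hy t ξ
    rw [h.hσ', this, star_star]
theorem Ops.sym_lift (h : Ops ν c κ t1 H E B σ σ') {y : YY ι} (hy : σ' y = y) (t : ℝ) :
    Sym (lift κ y.fn t) := by
  intro ξ
  have := h.hσ' y t (-ξ)
  rw [hy, neg_neg] at this
  rw [lift, lift, wt_neg, this, he_star_rsmul]
theorem Ops.sig_mem (h : Ops ν c κ t1 H E B σ σ') {v : XX ι} (hv : v ∈ Ds ι) : σ v ∈ Ds ι := by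
  obtain ⟨h1, h2, h3⟩ := hv
  have e : (σ v).fn = (starL' ℝ : V ι ≃L[ℝ] V ι) ∘ v.fn ∘ (Homeomorph.neg R3) := by
    funext ξ
    exact h.hσ v ξ
  refine ⟨?_, ?_, ?_⟩
  · rw [e]
    exact (starL' ℝ : V ι ≃L[ℝ] V ι).contDiff.comp (h1.comp contDiff_neg)
  · rw [e]
    exact (h2.comp_homeomorph _).comp_left (map_zero _)
  · have a1 : Tendsto (fun ξ : R3 => -ξ) (𝓝 0) (𝓝 0) := by
      simpa using (continuous_neg (G := R3)).tendsto 0
    filter_upwards [a1.eventually h3] with ξ hξ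
    rw [h.hσ, hξ]
    simp

end

end Pool.Agent.Work.MP_6bf1e5_an.Ens
end

-- merged part: Pool.Agent.Work.MP_6bf1e5_an.Ens.Approx
section
/-!
Finite rank approximation. Cover the compact shell `r ≤ |ξ| ≤ R` by finitely many small balls with
centres `ξ_n ≠ 0` that avoid `0`, take a continuous partition of unity `φ_n` (compact supports in the
balls, sum `1` on the shell, between `0` and `1` everywhere) and put
`(F y) ξ a i = ∑ n, φ_n ξ * ∑ k, lr ξ i k * (T y) ξ_n a k`. Use `lr_of_div`, `abs_lr_le`.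
-/

open scoped ContDiff ENNReal FourierTransform Topology ComplexConjugate
open Set MeasureTheory Filter Polynomial Metric

namespace Pool.Agent.Work.MP_6bf1e5_an.Ens

noncomputable section

variable {ι : Type} [Fintype ι]

/-- Evaluation at a point. -/
def approxEv (ξ : R3) : XX ι →L[ℂ] V ι :=
  LinearMap.mkContinuous
    { toFun := fun v => v.fn ξ
      map_add' := fun _ _ => rfl
      map_smul' := fun _ _ => rfl } 1 fun v => by simpa using v.norm_fn_le ξ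

theorem approxEv_apply (ξ : R3) (v : XX ι) : approxEv ξ v = v.fn ξ := rfl

theorem approx_fn_sum {α : Type} (s : Finset α) (v : α → XX ι) (ξ : R3) :
    (∑ n ∈ s, v n).fn ξ = ∑ n ∈ s, (v n).fn ξ := by
  simp only [← approxEv_apply, map_sum]

theorem approx_exists_L {φ : R3 → ℝ} (hφ : Continuous φ) (hc : HasCompactSupport φ)
    (h0 : (0 : R3) ∉ tsupport φ) : ∃ L : V ι →L[ℂ] XX ι, ∀ v ξ a i,
      (L v).fn ξ a i = φ ξ * ∑ k, (lr ξ i k : ℂ) * v a k := by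
  have h1 : ∀ i k, Continuous fun ξ => φ ξ * lr ξ i k := fun i k => by
    refine ContinuousOn.continuous_of_tsupport_subset (s := {0}ᶜ)
      (hφ.continuousOn.mul (contDiffOn_lr i k).continuousOn) isOpen_compl_singleton ?_
    refine (tsupport_mul_subset_left (f := φ) (g := fun ξ => lr ξ i k)).trans fun ξ hξ h => h0 ?_
    rwa [mem_singleton_iff.mp h] at hξ
  have key : ∀ v : V ι, ∃ x : XX ι, ∀ ξ a i,
      x.fn ξ a i = φ ξ * ∑ k, (lr ξ i k : ℂ) * v a k := fun v => by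
    set g : R3 → V ι := fun ξ a i => φ ξ * ∑ k, (lr ξ i k : ℂ) * v a k with hg
    have hgc : Continuous g := by
      refine continuous_pi fun a => continuous_pi fun i => ?_
      have : (fun ξ => g ξ a i) = fun ξ => ∑ k, ((φ ξ * lr ξ i k : ℝ) : ℂ) * v a k := by
        ext ξ
        simp only [hg, Finset.mul_sum, Complex.ofReal_mul, mul_assoc]
      rw [this]
      exact continuous_finsetSum _ fun k _ =>
        (Complex.continuous_ofReal.comp (h1 i k)).mul continuous_const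
    have hgs : HasCompactSupport g := hc.mono fun ξ hξ h => hξ <| by
      ext a i
      simp [hg, h]
    obtain ⟨C, hC⟩ := hgc.bounded_above_of_compact_support hgs
    have hgd : DivFree g := fun ξ a => by
      rcases eq_or_ne ξ 0 with rfl | hξ
      · simp
      · have : ∑ j, (ξ j : ℂ) * g ξ a j =
            φ ξ * ∑ k, ((∑ j, ξ j * lr ξ j k : ℝ) : ℂ) * v a k := by
          simp only [hg, Finset.mul_sum, Complex.ofReal_sum, Complex.ofReal_mul, Finset.sum_mul]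
          rw [Finset.sum_comm]
          exact Finset.sum_congr rfl fun j _ => Finset.sum_congr rfl fun k _ => by ring
        rw [this]
        simp [sum_mul_lr hξ]
    exact ⟨XX.mk g hgc C hC hgd hgs.is_zero_at_infty, fun ξ a i => rfl⟩
  choose x hx using key
  let L : V ι →ₗ[ℂ] XX ι :=
    { toFun := x
      map_add' := fun v w => XX.ext fun ξ => by
        ext a i
        simp only [XX.fn_add, Pi.add_apply, hx, mul_add, Finset.sum_add_distrib]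
      map_smul' := fun z v => XX.ext fun ξ => by
        ext a i
        simp only [XX.fn_smul, Pi.smul_apply, hx, smul_eq_mul, RingHom.id_apply, Finset.mul_sum]
        exact Finset.sum_congr rfl fun k _ => by ring }
  exact ⟨LinearMap.toContinuousLinearMap L, hx⟩

theorem approx_norm_lr (ξ : R3) (w : V ι) (a : ι) (i : Fin 3) :
    ‖∑ k, (lr ξ i k : ℂ) * w a k‖ ≤ 6 * ‖w‖ := by
  have h : ∀ k, ‖(lr ξ i k : ℂ) * w a k‖ ≤ 2 * ‖w‖ := fun k => by
    rw [norm_mul, Complex.norm_real, Real.norm_eq_abs]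
    exact mul_le_mul (abs_lr_le ξ i k) ((norm_le_pi_norm (w a) k).trans (norm_le_pi_norm w a))
      (norm_nonneg _) zero_le_two
  refine (norm_sum_le _ _).trans ?_
  rw [Fin.sum_univ_three]
  linarith [h 0, h 1, h 2]

theorem approx_of_cont {Y : Type} [NormedAddCommGroup Y] [NormedSpace ℂ Y] (T : Y →L[ℂ] XX ι)
    (h : ∀ ξ0 : R3, ξ0 ≠ 0 → ∀ ε > 0, ∃ δ > 0, ∀ ξ, dist ξ ξ0 < δ →
      ∀ y, ‖(T y).fn ξ - (T y).fn ξ0‖ ≤ ε * ‖y‖)
    (h0 : ∀ ε > 0, ∃ r > 0, ∃ R : ℝ, ∀ ξ : R3, ‖ξ‖ ≤ r ∨ R ≤ ‖ξ‖ → ∀ y, ‖(T y).fn ξ‖ ≤ ε * ‖y‖)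
    {ε : ℝ} (hε : 0 < ε) : ∃ F : Y →L[ℂ] XX ι,
      FiniteDimensional ℂ (LinearMap.range (F : Y →ₗ[ℂ] XX ι)) ∧ ‖T - F‖ ≤ ε := by
  classical
  have hε' : 0 < ε / 7 := by positivity
  obtain ⟨r, hr, R, hout⟩ := h0 _ hε'
  set K : Set R3 := closedBall 0 R ∩ (ball 0 r)ᶜ with hK
  have hKc : IsCompact K := (isCompact_closedBall 0 R).inter_right isOpen_ball.isClosed_compl
  have hK0 : ∀ ξ ∈ K, ξ ≠ 0 := by
    rintro ξ hξ rfl
    exact hξ.2 (mem_ball_self hr)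
  have hδ : ∀ ξ0 : K, ∃ δ > 0, δ ≤ ‖(ξ0 : R3)‖ ∧ ∀ ξ : R3, dist ξ ξ0 < δ →
      ∀ y, ‖(T y).fn ξ - (T y).fn ξ0‖ ≤ ε / 7 * ‖y‖ := fun ξ0 => by
    obtain ⟨δ, hδ, h'⟩ := h ξ0 (hK0 _ ξ0.2) _ hε'
    exact ⟨min δ ‖(ξ0 : R3)‖, lt_min hδ (norm_pos_iff.mpr (hK0 _ ξ0.2)), min_le_right _ _,
      fun ξ hξ => h' ξ (hξ.trans_le (min_le_left _ _))⟩
  choose δ hδ0 hδ1 hδ2 using hδ
  obtain ⟨t, ht⟩ := hKc.elim_finite_subcover (fun n : K => ball (n : R3) (δ n))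
    (fun _ => isOpen_ball) fun ξ hξ => mem_iUnion.mpr ⟨⟨ξ, hξ⟩, mem_ball_self (hδ0 _)⟩
  obtain ⟨φ, hφ, hφc⟩ := PartitionOfUnity.exists_isSubordinate_of_locallyFinite_t2space hKc
    (fun n : t => ball ((n : K) : R3) (δ n)) (fun _ => isOpen_ball) (locallyFinite_of_finite _)
    fun ξ hξ => by
      obtain ⟨n, hn, h'⟩ := mem_iUnion₂.mp (ht hξ)
      exact mem_iUnion.mpr ⟨⟨n, hn⟩, h'⟩
  have hL : ∀ n : t, ∃ L : V ι →L[ℂ] XX ι, ∀ v ξ a i,
      (L v).fn ξ a i = φ n ξ * ∑ k, (lr ξ i k : ℂ) * v a k := fun n =>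
    approx_exists_L (φ n).continuous (hφc n) fun h' => by
      have := mem_ball.mp (hφ n h')
      rw [dist_zero_left] at this
      exact absurd (hδ1 n) (not_le.mpr this)
  choose L hL using hL
  refine ⟨∑ n : t, L n ∘L approxEv ((n : K) : R3) ∘L T, ?_, ?_⟩
  · let M : (t → V ι) →ₗ[ℂ] XX ι := ∑ n : t, (L n : V ι →ₗ[ℂ] XX ι) ∘ₗ LinearMap.proj n
    refine Submodule.finiteDimensional_of_le (S₂ := LinearMap.range M) ?_
    rintro _ ⟨y, rfl⟩
    refine ⟨fun n => (T y).fn ((n : K) : R3), ?_⟩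
    simp [M, approxEv_apply]
  · refine ContinuousLinearMap.opNorm_le_bound _ hε.le fun y => ?_
    have hy : 0 ≤ ε / 7 * ‖y‖ := by positivity
    refine XX.norm_le _ (by positivity) fun ξ => ?_
    refine (pi_norm_le_iff_of_nonneg (by positivity)).mpr fun a =>
      (pi_norm_le_iff_of_nonneg (by positivity)).mpr fun i => ?_
    have hs1 : ∑ n : t, φ n ξ ≤ 1 := by
      have := φ.sum_le_one ξ
      rwa [finsum_eq_sum_of_fintype] at this
    have hs0 : 0 ≤ ∑ n : t, φ n ξ := Finset.sum_nonneg fun n _ => φ.nonneg n ξ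
    have e1 : ((T - ∑ n : t, L n ∘L approxEv ((n : K) : R3) ∘L T) y).fn ξ a i =
        ((1 - ∑ n : t, φ n ξ : ℝ) : ℂ) * (T y).fn ξ a i + ∑ n : t, φ n ξ *
          ∑ k, (lr ξ i k : ℂ) * ((T y).fn ξ - (T y).fn ((n : K) : R3)) a k := by
      rw [sub_apply, sum_apply, XX.fn_sub, approx_fn_sum]
      simp only [Pi.sub_apply, Finset.sum_apply, ContinuousLinearMap.comp_apply, hL,
        approxEv_apply, mul_sub, Finset.sum_sub_distrib, lr_of_div ((T y).div ξ a),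
        ← Finset.sum_mul]
      push_cast
      ring
    have e2 : ‖((1 - ∑ n : t, φ n ξ : ℝ) : ℂ) * (T y).fn ξ a i‖ ≤ ε / 7 * ‖y‖ := by
      by_cases hξ : ξ ∈ K
      · have := φ.sum_eq_one hξ
        rw [finsum_eq_sum_of_fintype] at this
        rw [this, sub_self, Complex.ofReal_zero, zero_mul, norm_zero]
        exact hy
      · have h1 : ‖ξ‖ ≤ r ∨ R ≤ ‖ξ‖ := by
          by_contra hcon
          rw [not_or, not_le, not_le] at hcon
          exact hξ ⟨mem_closedBall_zero_iff.mpr hcon.2.le, fun h' =>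
            absurd (mem_ball_zero_iff.mp h') (not_lt.mpr hcon.1.le)⟩
        have h2 := ((norm_le_pi_norm ((T y).fn ξ a) i).trans
          (norm_le_pi_norm ((T y).fn ξ) a)).trans (hout ξ h1 y)
        rw [norm_mul, Complex.norm_real, Real.norm_eq_abs, abs_of_nonneg (by linarith)]
        nlinarith [norm_nonneg ((T y).fn ξ a i)]
    have e3 : ∀ n : t, ‖(φ n ξ : ℂ) * ∑ k, (lr ξ i k : ℂ) *
        ((T y).fn ξ - (T y).fn ((n : K) : R3)) a k‖ ≤ φ n ξ * (6 * (ε / 7 * ‖y‖)) := fun n => by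
      rw [norm_mul, Complex.norm_real, Real.norm_eq_abs, abs_of_nonneg (φ.nonneg n ξ)]
      by_cases hn : φ n ξ = 0
      · simp [hn]
      · refine mul_le_mul_of_nonneg_left ((approx_norm_lr ξ _ a i).trans ?_) (φ.nonneg n ξ)
        have := hδ2 n ξ (mem_ball.mp (hφ n (subset_tsupport _ hn))) y
        linarith
    rw [e1]
    refine (norm_add_le _ _).trans ?_
    have e4 := (norm_sum_le _ _).trans (Finset.sum_le_sum fun n (_ : n ∈ Finset.univ) => e3 n)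
    rw [← Finset.sum_mul] at e4
    nlinarith

end

end Pool.Agent.Work.MP_6bf1e5_an.Ens
end

-- merged part: Pool.Agent.Work.MP_6bf1e5_an.Ens.Equi
section
/-!
Equicontinuity of convolution with a fixed function. Write `U = χ U + (1 - χ) U` with a continuous
cut-off `χ` supported in a small ball (`exists_small_ball`): the first piece contributes at most
`C sup_{|η| ≥ |ξ0|/4} wt · ∫_{ball} wt`; the second is bounded and continuous on `[0, t1] × ℝ³`, so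
dominated convergence in `(s, η)` (or uniform continuity on a compact set plus tails) applies.
For the flipped order substitute `η ↦ ξ - η`.
-/

open scoped ContDiff ENNReal FourierTransform Topology ComplexConjugate
open Set MeasureTheory Filter Polynomial Metric

namespace Pool.Agent.Work.MP_6bf1e5_an.Ens

noncomputable section

theorem cv_comm (f g : R3 → ℂ) (ξ : R3) : cv f g ξ = cv g f ξ := by
  rw [cv, cv, ← integral_sub_left_eq_self _ volume ξ]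
  simp only [sub_sub_cancel, mul_comm]

/-- Away from a small ball the functions `U s` are uniformly equicontinuous. -/
theorem equi_unif {U : ℝ → R3 → ℂ} {κ C t1 : ℝ} (hκ : 0 < κ) (hC : 0 ≤ C)
    (hU : ContinuousOn (fun z : ℝ × R3 => U z.1 z.2) (Icc 0 t1 ×ˢ {0}ᶜ))
    (bU : ∀ s ∈ Icc 0 t1, ∀ ξ, ξ ≠ 0 → ‖U s ξ‖ ≤ C * wt κ ξ) {r ε : ℝ} (hr : 0 < r) (hε : 0 < ε) :
    ∃ δ > 0, δ ≤ r ∧ ∀ s ∈ Icc 0 t1, ∀ x y : R3, dist x y < δ → 2 * r ≤ ‖y‖ →
      ‖U s x - U s y‖ ≤ ε := by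
  obtain ⟨R, hR, hR0⟩ := (((tendsto_rpow_neg_atTop (y := 5 / 2) (by norm_num)).eventually
    (gt_mem_nhds (show 0 < ε / (2 * (C + 1)) by positivity))).and (eventually_gt_atTop 0)).exists
  have hK : IsCompact (Icc 0 t1 ×ˢ (closedBall (0 : R3) (R + 2 * r) \ ball 0 r)) :=
    isCompact_Icc.prod ((isCompact_closedBall _ _).diff isOpen_ball)
  have hsub : Icc 0 t1 ×ˢ (closedBall (0 : R3) (R + 2 * r) \ ball 0 r) ⊆ Icc 0 t1 ×ˢ {0}ᶜ := by
    refine prod_mono le_rfl fun x hx h => hx.2 ?_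
    rw [mem_singleton_iff.1 h]
    exact mem_ball_self hr
  obtain ⟨δ, hδ, H⟩ := Metric.uniformContinuousOn_iff.1
    (hK.uniformContinuousOn_of_continuous (hU.mono hsub)) ε hε
  refine ⟨min δ r, lt_min hδ hr, min_le_right _ _, fun s hs x y hxy hy => ?_⟩
  have h1 : ‖x - y‖ < r := by
    rw [← dist_eq_norm]
    exact hxy.trans_le (min_le_right _ _)
  have h2 : ‖y‖ - ‖x‖ < r := by
    rw [norm_sub_rev] at h1
    exact (norm_sub_norm_le y x).trans_lt h1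
  have h3 : ‖x‖ - ‖y‖ < r := (norm_sub_norm_le x y).trans_lt h1
  rcases le_or_gt ‖y‖ (R + r) with h | h
  · rw [← dist_eq_norm]
    refine (H (s, x) ⟨hs, ?_, ?_⟩ (s, y) ⟨hs, ?_, ?_⟩ ?_).le
    · rw [mem_closedBall_zero_iff]
      linarith
    · rw [mem_ball_zero_iff]
      linarith
    · rw [mem_closedBall_zero_iff]
      linarith
    · rw [mem_ball_zero_iff]
      linarith
    · rw [Prod.dist_eq, dist_self]
      exact max_lt hδ (hxy.trans_le (min_le_left _ _))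
  · have key : ∀ z : R3, R ≤ ‖z‖ → ‖U s z‖ ≤ ε / 2 := fun z hz => by
      have h4 := bU s hs z (norm_pos_iff.1 (hR0.trans_le hz))
      have h5 := mul_le_mul_of_nonneg_left ((wt_le_of_le hκ.le hR0 hz).trans hR.le) hC
      have h6 : C * (ε / (2 * (C + 1))) ≤ ε / 2 := by
        rw [← mul_div_assoc, div_le_div_iff₀ (by positivity) (by positivity)]
        nlinarith
      linarith
    linarith [norm_sub_le (U s x) (U s y), key x (by linarith), key y (by linarith)]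

theorem cv_equicont {U : ℝ → R3 → ℂ} {κ C t1 : ℝ} (hκ : 0 < κ)
    (hU : ContinuousOn (fun z : ℝ × R3 => U z.1 z.2) (Icc 0 t1 ×ˢ {0}ᶜ))
    (bU : ∀ s ∈ Icc 0 t1, ∀ ξ, ξ ≠ 0 → ‖U s ξ‖ ≤ C * wt κ ξ) {ξ0 : R3} (h0 : ξ0 ≠ 0) {ε : ℝ}
    (hε : 0 < ε) : ∃ δ > 0, ∀ ξ, dist ξ ξ0 < δ → ∀ s ∈ Icc 0 t1, ∀ (g : R3 → ℂ) (Cg : ℝ), 0 ≤ Cg →
      ContinuousOn g {0}ᶜ → (∀ η, η ≠ 0 → ‖g η‖ ≤ Cg * wt κ η) →
      ‖cv (U s) g ξ - cv (U s) g ξ0‖ ≤ ε * Cg := by
  have bU' : ∀ s ∈ Icc 0 t1, ∀ ξ, ξ ≠ 0 → ‖U s ξ‖ ≤ |C| * wt κ ξ := fun s hs ξ hξ =>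
    (bU s hs ξ hξ).trans (mul_le_mul_of_nonneg_right (le_abs_self C) (wt_nonneg κ ξ))
  have hn : 0 < ‖ξ0‖ := norm_pos_iff.2 h0
  set M : ℝ := (‖ξ0‖ / 2) ^ (-(5 / 2) : ℝ) * |C| with hM
  have hM0 : 0 ≤ M := by positivity
  set I : ℝ := ∫ η, wt κ η with hI
  have hI0 : 0 ≤ I := integral_nonneg (wt_nonneg κ)
  obtain ⟨r0, hr0, hsm⟩ := exists_small_ball hκ (show 0 < ε / (4 * (M + 1)) by positivity)
  set r : ℝ := min (r0 / 3) (‖ξ0‖ / 4) with hr
  have hr1 : r ≤ r0 / 3 := min_le_left _ _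
  have hr2 : r ≤ ‖ξ0‖ / 4 := min_le_right _ _
  obtain ⟨δ, hδ, hδr, H⟩ := equi_unif hκ (abs_nonneg C) hU bU' (show 0 < r by positivity)
    (show 0 < ε / (2 * (I + 1)) by positivity)
  refine ⟨δ, hδ, fun ξ hξ s hs g Cg hCg hg bg => ?_⟩
  have hξr : ‖ξ - ξ0‖ < r := by
    rw [← dist_eq_norm]
    exact hξ.trans_le hδr
  have hξ0 : ξ ≠ 0 := by
    rintro rfl
    rw [zero_sub, norm_neg] at hξr
    linarith
  have hUs : ContinuousOn (U s) {0}ᶜ :=
    hU.comp (f := fun η : R3 => (s, η)) (by fun_prop) fun η hη => ⟨hs, hη⟩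
  set φ : R3 → ℝ := (ball (0 : R3) r0).indicator (wt κ) with hφ
  have hφi : Integrable φ := (integrable_wt hκ).indicator measurableSet_ball
  have hφ0 : ∀ x, 0 ≤ φ x := fun x => indicator_nonneg (fun x _ => wt_nonneg κ x) x
  have hφI : ∀ ζ : R3, ∫ η, φ (ζ - η) ≤ ε / (4 * (M + 1)) := fun ζ => by
    rw [integral_sub_left_eq_self φ volume ζ, hφ, integral_indicator measurableSet_ball]
    exact hsm
  have i1 : Integrable fun η => ε / (2 * (I + 1)) * wt κ η := (integrable_wt hκ).const_mul _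
  have i2 : Integrable fun η => M * (φ (ξ - η) + φ (ξ0 - η)) :=
    ((hφi.comp_sub_left ξ).add (hφi.comp_sub_left ξ0)).const_mul _
  rw [cv_comm (U s) g ξ, cv_comm (U s) g ξ0, cv, cv, ← integral_sub
    (integrable_cv hκ.le hg hUs bg (bU s hs) hξ0) (integrable_cv hκ.le hg hUs bg (bU s hs) h0)]
  refine (norm_integral_le_of_norm_le ((i1.add i2).const_mul Cg) ?_).trans ?_
  · filter_upwards [Measure.ae_ne volume 0, Measure.ae_ne volume ξ, Measure.ae_ne volume ξ0]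
      with η h1 h2 h3
    rw [← mul_sub, norm_mul]
    refine (mul_le_mul_of_nonneg_right (bg η h1) (norm_nonneg _)).trans ?_
    rw [mul_assoc]
    refine mul_le_mul_of_nonneg_left ?_ hCg
    have hd : dist (ξ - η) (ξ0 - η) < δ := by rwa [dist_sub_right]
    rw [Pi.add_apply]
    rcases le_or_gt (2 * r) ‖ξ0 - η‖ with h | h
    · refine le_add_of_le_of_nonneg ?_ (mul_nonneg hM0 (add_nonneg (hφ0 _) (hφ0 _)))
      rw [mul_comm]
      exact mul_le_mul_of_nonneg_right (H s hs _ _ hd h) (wt_nonneg κ η)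
    · refine le_add_of_nonneg_of_le (mul_nonneg (by positivity) (wt_nonneg κ η)) ?_
      have h4 : ‖ξ - η‖ < r0 := by
        have := norm_sub_le_norm_sub_add_norm_sub ξ ξ0 η
        linarith
      have h5 : ‖ξ0‖ / 2 ≤ ‖η‖ := by
        have := norm_sub_norm_le ξ0 η
        linarith
      rw [hφ, indicator_of_mem (mem_ball_zero_iff.2 h4),
        indicator_of_mem (mem_ball_zero_iff.2 (by linarith)), hM, mul_assoc]
      refine mul_le_mul (wt_le_of_le hκ.le (by positivity) h5) ((norm_sub_le _ _).trans ?_)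
        (norm_nonneg _) (by positivity)
      rw [mul_add]
      exact add_le_add (bU' s hs _ (sub_ne_zero.2 h2.symm)) (bU' s hs _ (sub_ne_zero.2 h3.symm))
  · simp only [Pi.add_apply]
    rw [integral_const_mul, integral_add i1 i2, integral_const_mul, integral_const_mul,
      integral_add (hφi.comp_sub_left ξ) (hφi.comp_sub_left ξ0), mul_comm ε]
    refine mul_le_mul_of_nonneg_left ?_ hCg
    have h1 : ε / (2 * (I + 1)) * I ≤ ε / 2 := by
      rw [div_mul_eq_mul_div, div_le_div_iff₀ (by positivity) (by positivity)]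
      nlinarith
    have h2 : M * (ε / (4 * (M + 1)) + ε / (4 * (M + 1))) ≤ ε / 2 := by
      rw [← add_div, ← mul_div_assoc, div_le_div_iff₀ (by positivity) (by positivity)]
      nlinarith
    have h3 := mul_le_mul_of_nonneg_left (add_le_add (hφI ξ) (hφI ξ0)) hM0
    linarith

end

end Pool.Agent.Work.MP_6bf1e5_an.Ens
end

-- merged part: Pool.Agent.Work.MP_6bf1e5_an.Ens.ApproxB
section
/-!
The linearised Duhamel operator followed by the rescaled evaluation is a limit of finite rank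
operators: `approx_of_cont` with `cv_equicont` (and `cv_comm`), continuity of the symbols off `0`,
`exists_norm_cv_le` and the first two bounds of `exists_norm_duh_le`.
-/

open scoped ContDiff ENNReal FourierTransform Topology ComplexConjugate
open Set MeasureTheory Filter Polynomial Metric

namespace Pool.Agent.Work.MP_6bf1e5_an.Ens

noncomputable section

variable {ι : Type} [Fintype ι]

/-- Families that are bounded and equicontinuous at `ξ0`, relative to the sizes `N`. -/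
structure ApproxbEq {P F : Type} [NormedAddCommGroup F] (ξ0 : R3) (N : P → ℝ) (Φ : P → R3 → F) :
    Prop where
  bd : ∃ M, 0 ≤ M ∧ ∀ p, ‖Φ p ξ0‖ ≤ M * N p
  eq : ∀ ε > 0, ∀ᶠ ξ in 𝓝 ξ0, ∀ p, ‖Φ p ξ - Φ p ξ0‖ ≤ ε * N p

section eqc

variable {P F : Type} [NormedAddCommGroup F] {ξ0 : R3} {N : P → ℝ}

theorem ApproxbEq.add {Φ Ψ : P → R3 → F} (h : ApproxbEq ξ0 N Φ) (h' : ApproxbEq ξ0 N Ψ) :
    ApproxbEq ξ0 N fun p ξ => Φ p ξ + Ψ p ξ := by
  obtain ⟨M, hM, h1⟩ := h.bd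
  obtain ⟨M', hM', h2⟩ := h'.bd
  refine ⟨⟨M + M', add_nonneg hM hM', fun p => ?_⟩, fun ε hε => ?_⟩
  · rw [add_mul]
    exact norm_add_le_of_le (h1 p) (h2 p)
  · filter_upwards [h.eq _ (half_pos hε), h'.eq _ (half_pos hε)] with ξ h3 h4 p
    rw [add_sub_add_comm, ← add_halves ε, add_mul]
    exact norm_add_le_of_le (h3 p) (h4 p)

theorem ApproxbEq.sum {α : Type} (s : Finset α) (hN : ∀ p, 0 ≤ N p) {Φ : α → P → R3 → F}
    (h : ∀ a, ApproxbEq ξ0 N (Φ a)) : ApproxbEq ξ0 N fun p ξ => ∑ a ∈ s, Φ a p ξ := by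
  classical
  induction s using Finset.induction_on with
  | empty =>
    refine ⟨⟨0, le_rfl, fun p => by simp⟩, fun ε hε => Eventually.of_forall fun ξ p => ?_⟩
    simpa using mul_nonneg hε.le (hN p)
  | insert a s ha ih =>
    simp only [Finset.sum_insert ha]
    exact (h a).add ih

theorem ApproxbEq.pi {α : Type} [Fintype α] (hN : ∀ p, 0 ≤ N p) {Φ : P → R3 → α → F}
    (h : ∀ a, ApproxbEq ξ0 N fun p ξ => Φ p ξ a) : ApproxbEq ξ0 N Φ := by
  choose M hM h1 using fun a => (h a).bd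
  refine ⟨⟨∑ a, M a, Finset.sum_nonneg fun a _ => hM a, fun p => ?_⟩, fun ε hε => ?_⟩
  · refine (pi_norm_le_iff_of_nonneg
      (mul_nonneg (Finset.sum_nonneg fun a _ => hM a) (hN p))).2 fun a => (h1 a p).trans ?_
    exact mul_le_mul_of_nonneg_right
      (Finset.single_le_sum (fun a _ => hM a) (Finset.mem_univ a)) (hN p)
  · filter_upwards [eventually_all.2 fun a => (h a).eq ε hε] with ξ h2 p
    exact (pi_norm_le_iff_of_nonneg (mul_nonneg hε.le (hN p))).2 fun a => h2 a p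

theorem ApproxbEq.comp {Φ : P → R3 → F} {φ : R3 → R3} (h : ApproxbEq (φ ξ0) N Φ)
    (hφ : ContinuousAt φ ξ0) : ApproxbEq ξ0 N fun p ξ => Φ p (φ ξ) :=
  ⟨h.bd, fun ε hε => hφ.eventually (h.eq ε hε)⟩

theorem ApproxbEq.smul {𝕜 : Type} [NormedField 𝕜] [NormedSpace 𝕜 F] (hN : ∀ p, 0 ≤ N p)
    {m : P → R3 → 𝕜} {Φ : P → R3 → F} (hm : ApproxbEq ξ0 (fun _ => 1) m) (h : ApproxbEq ξ0 N Φ) :
    ApproxbEq ξ0 N fun p ξ => m p ξ • Φ p ξ := by
  obtain ⟨A, hA, h1⟩ := hm.bd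
  obtain ⟨M, hM, h2⟩ := h.bd
  simp only [mul_one] at h1
  refine ⟨⟨A * M, mul_nonneg hA hM, fun p => ?_⟩, fun ε hε => ?_⟩
  · rw [norm_smul, mul_assoc]
    exact mul_le_mul (h1 p) (h2 p) (norm_nonneg _) hA
  · filter_upwards [hm.eq 1 one_pos, hm.eq (ε / 2 / (M + 1)) (by positivity),
      h.eq (ε / 2 / (A + 1)) (by positivity)] with ξ h3 h4 h5 p
    have h6 : ‖m p ξ‖ ≤ A + 1 := by
      have h7 := norm_add_le_of_le (h1 p) (h3 p)
      rwa [add_sub_cancel, mul_one] at h7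
    have h7 : m p ξ • Φ p ξ - m p ξ0 • Φ p ξ0 =
        m p ξ • (Φ p ξ - Φ p ξ0) + (m p ξ - m p ξ0) • Φ p ξ0 := by
      rw [smul_sub, sub_smul, sub_add_sub_cancel]
    have h8 : ‖m p ξ • (Φ p ξ - Φ p ξ0)‖ ≤ ε / 2 * N p := by
      rw [norm_smul]
      refine (mul_le_mul h6 (h5 p) (norm_nonneg _) (by positivity)).trans (le_of_eq ?_)
      field_simp
    have h9 : ‖(m p ξ - m p ξ0) • Φ p ξ0‖ ≤ ε / 2 * N p := by
      rw [norm_smul]
      have h10 : ‖Φ p ξ0‖ ≤ (M + 1) * N p :=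
        (h2 p).trans (mul_le_mul_of_nonneg_right (by linarith) (hN p))
      refine (mul_le_mul (h4 p) h10 (norm_nonneg _) (by positivity)).trans (le_of_eq ?_)
      field_simp
    rw [h7, ← add_halves ε, add_mul]
    exact norm_add_le_of_le h8 h9

theorem approxb_const {m : R3 → F} (h : ContinuousAt m ξ0) :
    ApproxbEq ξ0 (fun _ : P => 1) fun _ => m := by
  refine ⟨⟨‖m ξ0‖, norm_nonneg _, fun _ => by simp⟩, fun ε hε => ?_⟩
  filter_upwards [Metric.tendsto_nhds.1 h ε hε] with ξ h1 _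
  rw [mul_one, ← dist_eq_norm]
  exact h1.le

theorem ApproxbEq.mul (hN : ∀ p, 0 ≤ N p) {m : R3 → ℂ} {Φ : P → R3 → ℂ} (hm : ContinuousAt m ξ0)
    (h : ApproxbEq ξ0 N Φ) : ApproxbEq ξ0 N fun p ξ => m ξ * Φ p ξ :=
  ApproxbEq.smul hN (approxb_const hm) h

theorem approxb_time {a b : ℝ} {m : ℝ → R3 → F} (h : Continuous fun z : R3 × ℝ => m z.2 z.1) :
    ApproxbEq ξ0 (fun _ : Icc a b × P => 1) fun p => m p.1 := by
  have h0 : Continuous fun s => m s ξ0 := h.comp (Continuous.prodMk_right ξ0)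
  constructor
  · obtain ⟨M, hM⟩ := isCompact_Icc.exists_bound_of_continuousOn (s := Icc a b) h0.continuousOn
    exact ⟨max M 0, le_max_right _ _, fun p => by
      rw [mul_one]
      exact (hM _ p.1.2).trans (le_max_left _ _)⟩
  · intro ε hε
    have h1 : Continuous fun z : R3 × ℝ => ‖m z.2 z.1 - m z.2 ξ0‖ :=
      (h.sub (h0.comp continuous_snd)).norm
    have h2 : ∀ᶠ ξ in 𝓝 ξ0, ∀ s ∈ Icc a b, ‖m s ξ - m s ξ0‖ < ε :=
      isCompact_Icc.eventually_forall_of_forall_eventually fun s _ =>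
        h1.continuousAt.eventually_lt continuousAt_const (by simpa using hε)
    filter_upwards [h2] with ξ h3 p
    rw [mul_one]
    exact (h3 _ p.1.2).le

theorem ApproxbEq.integral [NormedSpace ℝ F] {b : ℝ} (hb : 0 < b) {Φ : ℝ → P → R3 → F}
    (h : ApproxbEq ξ0 (fun p : Icc 0 b × P => N p.2) fun p => Φ p.1 p.2)
    (hi : ∀ᶠ ξ in 𝓝 ξ0, ∀ p, IntervalIntegrable (fun s => Φ s p ξ) volume 0 b) :
    ApproxbEq ξ0 N fun p ξ => ∫ s in (0 : ℝ)..b, Φ s p ξ := by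
  have hs : ∀ s ∈ uIoc 0 b, s ∈ Icc 0 b := fun s hs => by
    rw [uIoc_of_le hb.le] at hs
    exact Ioc_subset_Icc_self hs
  obtain ⟨M, hM, h1⟩ := h.bd
  refine ⟨⟨M * b, by positivity, fun p => ?_⟩, fun ε hε => ?_⟩
  · refine (intervalIntegral.norm_integral_le_of_norm_le_const (C := M * N p)
      fun s h2 => h1 (⟨s, hs s h2⟩, p)).trans (le_of_eq ?_)
    rw [sub_zero, abs_of_pos hb]
    ring
  · filter_upwards [h.eq (ε / b) (by positivity), hi] with ξ h2 h3 p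
    rw [← intervalIntegral.integral_sub (h3 p) (hi.self_of_nhds p)]
    refine (intervalIntegral.norm_integral_le_of_norm_le_const (C := ε / b * N p)
      fun s h4 => h2 (⟨s, hs s h4⟩, p)).trans (le_of_eq ?_)
    rw [sub_zero, abs_of_pos hb]
    field_simp

theorem approxb_NL (c : ι → ι → ι → ℝ) (hξ : ξ0 ≠ 0) (hN : ∀ p, 0 ≤ N p) {f g : P → R3 → V ι}
    (h : ∀ b j d k, ApproxbEq ξ0 N fun p => cv (fun η => f p η b j) fun η => g p η d k) :
    ApproxbEq ξ0 N fun p => NL c (f p) (g p) := by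
  refine ApproxbEq.pi hN fun a => ApproxbEq.pi hN fun i => ?_
  refine ApproxbEq.mul hN continuousAt_const (ApproxbEq.sum _ hN fun b => ApproxbEq.sum _ hN
    fun d => ApproxbEq.mul hN continuousAt_const (ApproxbEq.sum _ hN fun k =>
      ApproxbEq.sum _ hN fun j => ApproxbEq.mul hN ?_ (h b j d k)))
  refine Complex.continuous_ofReal.continuousAt.comp (ContinuousAt.mul ?_ (by fun_prop))
  exact (contDiffOn_lr i k).continuousOn.continuousAt (isOpen_compl_singleton.mem_nhds hξ)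

end eqc

theorem approxb_comp_le {κ C : ℝ} {f : R3 → V ι} (h : VB κ C f) (a : ι) (i : Fin 3) (ξ : R3) :
    ‖f ξ a i‖ ≤ C * wt κ ξ :=
  ((norm_le_pi_norm (f ξ a) i).trans (norm_le_pi_norm (f ξ) a)).trans (h.bound ξ)

theorem approxb_cv {κ t1 : ℝ} (hκ : 0 < κ) (U : YY ι) {ξ0 : R3} (hξ : ξ0 ≠ 0) (b d : ι)
    (j k : Fin 3) : ApproxbEq ξ0 (fun p : Icc 0 t1 × YY ι => ‖p.2‖) fun p =>
      cv (fun η => lift κ U.fn p.1 η b j) fun η => lift κ p.2.fn p.1 η d k := by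
  constructor
  · obtain ⟨K, hK, h⟩ := exists_norm_cv_le
    refine ⟨K * ‖U‖ * w2 κ ξ0, mul_nonneg (by positivity) (w2_nonneg κ ξ0), fun p => ?_⟩
    refine (h _ _ κ ‖U‖ ‖p.2‖ hκ.le (norm_nonneg _) (norm_nonneg _)
      (fun ξ _ => approxb_comp_le (U.vb κ p.1) b j ξ)
      (fun ξ _ => approxb_comp_le (p.2.vb κ p.1) d k ξ) ξ0 hξ).trans (le_of_eq ?_)
    ring
  · intro ε hε
    have hU : ContinuousOn (fun z : ℝ × R3 => lift κ U.fn z.1 z.2 b j) (Icc 0 t1 ×ˢ {0}ᶜ) :=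
      (continuousOn_pi.1 (continuousOn_pi.1 (U.continuousOn_lift κ) b) j).mono
        (prod_mono (subset_univ _) Subset.rfl)
    obtain ⟨δ, hδ, h⟩ := cv_equicont (U := fun s η => lift κ U.fn s η b j) hκ hU
      (fun s _ ξ _ => approxb_comp_le (U.vb κ s) b j ξ) hξ hε
    filter_upwards [ball_mem_nhds ξ0 hδ] with ξ h1 p
    exact h ξ h1 p.1 p.1.2 _ _ (norm_nonneg _)
      (continuousOn_pi.1 (continuousOn_pi.1 (p.2.vb κ p.1).cont d) k)
      fun η _ => approxb_comp_le (p.2.vb κ p.1) d k η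

theorem approxb_int (ν : ℝ) (c : ι → ι → ι → ℝ) {κ : ℝ} (hκ : 0 < κ) (y z : YY ι) (t : ℝ) {ξ : R3}
    (hξ : ξ ≠ 0) : IntervalIntegrable (fun s => Real.exp (-(hr ν ξ * (t - s))) •
      NL c (lift κ y.fn s) (lift κ z.fn s) ξ) volume 0 t := by
  have h := continuousOn_NL c (S := univ) (f := lift κ y.fn) (g := lift κ z.fn)
    (C := max ‖y‖ ‖z‖) hκ (y.continuousOn_lift κ) (z.continuousOn_lift κ)
    (fun s _ η => ((y.vb κ s).bound η).trans
      (mul_le_mul_of_nonneg_right (le_max_left _ _) (wt_nonneg κ η)))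
    (fun s _ η => ((z.vb κ s).bound η).trans
      (mul_le_mul_of_nonneg_right (le_max_right _ _) (wt_nonneg κ η)))
  have h1 : Continuous fun s => NL c (lift κ y.fn s) (lift κ z.fn s) ξ :=
    h.comp_continuous (f := fun s : ℝ => (s, ξ)) (by fun_prop) fun s => ⟨trivial, hξ⟩
  have h2 : Continuous fun s => Real.exp (-(hr ν ξ * (t - s))) := by fun_prop
  exact (h2.smul h1).intervalIntegrable _ _

theorem approxb_duh_of (ν : ℝ) (c : ι → ι → ι → ℝ) {κ t1 : ℝ} (hκ : 0 < κ) (h0 : 0 < t1)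
    {ξ0 : R3} (hξ : ξ0 ≠ 0) (f g : YY ι → YY ι)
    (h : ∀ b j d k, ApproxbEq ξ0 (fun p : Icc 0 t1 × YY ι => ‖p.2‖) fun p =>
      cv (fun η => lift κ (f p.2).fn p.1 η b j) fun η => lift κ (g p.2).fn p.1 η d k) :
    ApproxbEq ξ0 (fun y : YY ι => ‖y‖) fun y => duh ν c κ (f y).fn (g y).fn t1 := by
  have hne : ∀ᶠ ξ in 𝓝 ξ0, ξ ≠ 0 := isOpen_compl_singleton.mem_nhds hξ
  refine ApproxbEq.smul (fun _ => norm_nonneg _) (approxb_const ?_) (ApproxbEq.integral h0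
    (Φ := fun s y ξ => Real.exp (-(hr ν ξ * (t1 - s))) •
      NL c (lift κ (f y).fn s) (lift κ (g y).fn s) ξ) ?_ ?_)
  · exact ((continuousOn_wt κ).continuousAt hne).inv₀ (wt_pos κ hξ).ne'
  · refine ApproxbEq.smul (fun _ => norm_nonneg _)
      (approxb_time (m := fun s ξ => Real.exp (-(hr ν ξ * (t1 - s)))) ?_)
      (approxb_NL c hξ (fun _ => norm_nonneg _) h)
    unfold hr
    fun_prop
  · filter_upwards [hne] with ξ h1 y
    exact approxb_int ν c hκ _ _ t1 h1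

theorem approxb_duh (ν : ℝ) (c : ι → ι → ι → ℝ) {κ t1 : ℝ} (hκ : 0 < κ) (h0 : 0 < t1) (U : YY ι)
    {ξ0 : R3} (hξ : ξ0 ≠ 0) :
    (ApproxbEq ξ0 (fun y : YY ι => ‖y‖) fun y => duh ν c κ U.fn y.fn t1) ∧
      ApproxbEq ξ0 (fun y : YY ι => ‖y‖) fun y => duh ν c κ y.fn U.fn t1 := by
  refine ⟨approxb_duh_of ν c hκ h0 hξ (fun _ => U) id fun b j d k => approxb_cv hκ U hξ b d j k,
    approxb_duh_of ν c hκ h0 hξ id (fun _ => U) fun b j d k => ?_⟩
  have h := approxb_cv (t1 := t1) hκ U hξ d b k j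
  convert h using 2 with p
  funext ξ
  exact cv_comm _ _ ξ

variable {ν κ t1 : ℝ} {c : ι → ι → ι → ℝ} {H : XX ι →L[ℂ] YY ι} {E : YY ι →L[ℂ] XX ι}
  {B : YY ι →L[ℂ] YY ι →L[ℂ] YY ι} {σ : XX ι →L[ℝ] XX ι} {σ' : YY ι →L[ℝ] YY ι}

theorem duh_equicont (c : ι → ι → ι → ℝ) (hν : 0 < ν) (hκ : 0 < κ) (h0 : 0 < t1) (U : YY ι) {ξ0 : R3}
    (hξ : ξ0 ≠ 0) {ε : ℝ} (hε : 0 < ε) : ∃ δ > 0, ∀ ξ, dist ξ ξ0 < δ → ∀ y : YY ι,
      ‖duh ν c κ U.fn y.fn t1 ξ - duh ν c κ U.fn y.fn t1 ξ0‖ ≤ ε * ‖y‖ ∧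
      ‖duh ν c κ y.fn U.fn t1 ξ - duh ν c κ y.fn U.fn t1 ξ0‖ ≤ ε * ‖y‖ := by
  have _ := hν
  obtain ⟨h1, h2⟩ := approxb_duh ν c hκ h0 U hξ
  obtain ⟨δ, hδ, h⟩ := Metric.eventually_nhds_iff.1 ((h1.eq ε hε).and (h2.eq ε hε))
  exact ⟨δ, hδ, fun ξ h3 y => ⟨(h h3).1 y, (h h3).2 y⟩⟩

theorem Ops.approx (h : Ops ν c κ t1 H E B σ σ') (hν : 0 < ν) (hκ : 0 < κ) (h0 : 0 < t1)
    (h1 : t1 < 1) (U : YY ι) {ε : ℝ} (hε : 0 < ε) : ∃ F : YY ι →L[ℂ] XX ι,
      FiniteDimensional ℂ (LinearMap.range (F : YY ι →ₗ[ℂ] XX ι)) ∧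
        ‖E ∘L (B U + B.flip U) - F‖ ≤ ε := by
  obtain ⟨l, hl⟩ : ∃ l : ℝ, l = (√(1 - t1))⁻¹ := ⟨_, rfl⟩
  have hl1 : 1 ≤ l := by
    rw [hl]
    exact one_le_inv₀ (Real.sqrt_pos.2 (by linarith)) |>.2 (Real.sqrt_le_one.2 (by linarith))
  have hl0 : 0 < l := by linarith
  obtain ⟨ρ, hρ⟩ : ∃ ρ : R3 → ℝ, ρ = fun ξ =>
      (1 - t1) ^ (1 / 4 : ℝ) * Real.exp (-(κ * ‖ξ‖ * (l - 1))) := ⟨_, rfl⟩
  have hρ1 : ∀ ξ, ‖ρ ξ‖ ≤ 1 := fun ξ => by
    have h2 : (0 : ℝ) ≤ (1 - t1) ^ (1 / 4 : ℝ) := Real.rpow_nonneg (by linarith) _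
    rw [hρ, Real.norm_of_nonneg (by positivity)]
    refine mul_le_one₀ (Real.rpow_le_one (by linarith) (by linarith) (by norm_num))
      (Real.exp_pos _).le (Real.exp_le_one_iff.2 ?_)
    exact neg_nonpos.2 (mul_nonneg (by positivity) (by linarith))
  have hT : ∀ y ξ, ((E ∘L (B U + B.flip U)) y).fn ξ =
      ρ ξ • (duh ν c κ U.fn y.fn t1 (l • ξ) + duh ν c κ y.fn U.fn t1 (l • ξ)) := fun y ξ => by
    have hc : clamp t1 t1 = t1 := by simp [clamp, h0.le]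
    rw [ContinuousLinearMap.comp_apply, h.hE, add_apply, YY.fn_add,
      ContinuousLinearMap.flip_apply, h.hB, h.hB, hc, hρ, hl]
  refine approx_of_cont _ (fun ξ0 hξ ε hε => ?_) (fun ε hε => ?_) hε
  · obtain ⟨h2, h3⟩ := approxb_duh ν c hκ h0 U (smul_ne_zero hl0.ne' hξ)
    have h4 := ApproxbEq.smul (fun _ => norm_nonneg _)
      (approxb_const (m := ρ) (ξ0 := ξ0) (by rw [hρ]; fun_prop))
      ((h2.add h3).comp (φ := fun ξ => l • ξ) (by fun_prop))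
    obtain ⟨δ, hδ, h5⟩ := Metric.eventually_nhds_iff.1 (h4.eq ε hε)
    refine ⟨δ, hδ, fun ξ h6 y => ?_⟩
    rw [hT, hT]
    exact h5 h6 y
  · obtain ⟨K, hK, h2⟩ := exists_norm_duh_le c hν
    have h3 : ∀ᶠ x in 𝓝 (0 : ℝ), 2 * K * ‖U‖ * (t1 * (l * x) ^ (3 / 2 : ℝ)) < ε := by
      refine ContinuousAt.eventually_lt ?_ continuousAt_const (by simpa using hε)
      exact continuousAt_const.mul (continuousAt_const.mul
        (ContinuousAt.rpow_const (by fun_prop) (Or.inr (by norm_num))))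
    have h4 : ∀ᶠ x in atTop, 2 * K * ‖U‖ * (l * x) ^ (-(1 / 2) : ℝ) < ε := by
      have h5 := ((tendsto_rpow_neg_atTop (y := 1 / 2) (by norm_num)).comp
        (tendsto_id.const_mul_atTop hl0)).const_mul (2 * K * ‖U‖)
      rw [mul_zero] at h5
      exact h5.eventually_lt_const hε
    obtain ⟨r, hr0, h5⟩ := Metric.eventually_nhds_iff.1 h3
    obtain ⟨R, h6⟩ := eventually_atTop.1 h4
    refine ⟨r / 2, half_pos hr0, R, fun ξ hξ y => ?_⟩
    have key : ∀ w : ℝ, 2 * K * ‖U‖ * w < ε →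
        ‖duh ν c κ U.fn y.fn t1 (l • ξ)‖ ≤ K * ‖U‖ * ‖y‖ * w →
        ‖duh ν c κ y.fn U.fn t1 (l • ξ)‖ ≤ K * ‖y‖ * ‖U‖ * w →
        ‖((E ∘L (B U + B.flip U)) y).fn ξ‖ ≤ ε * ‖y‖ := fun w h7 h8 h9 => by
      rw [hT, norm_smul]
      refine (mul_le_of_le_one_left (norm_nonneg _) (hρ1 ξ)).trans
        ((norm_add_le_of_le h8 h9).trans ?_)
      nlinarith [norm_nonneg y]
    have hn : ‖l • ξ‖ = l * ‖ξ‖ := by rw [norm_smul, Real.norm_of_nonneg hl0.le]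
    have h7 := h2 κ hκ U y t1 h0.le (l • ξ)
    have h8 := h2 κ hκ y U t1 h0.le (l • ξ)
    rw [hn] at h7 h8
    rcases hξ with hξ | hξ
    · refine key _ (h5 ?_) h7.1 h8.1
      rw [dist_zero_right, norm_norm]
      linarith
    · exact key _ (h6 _ hξ) h7.2.1 h8.2.1

end

end Pool.Agent.Work.MP_6bf1e5_an.Ens
end
end

-- merged part: Pool.Agent.Work.MP_6bf1e5_an.Ens.Prof
section
/-!
The self-similar solution on the Fourier side. For `Profile.fsol` apply `ray` at the point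
`√(1-t) • ξ`, the chain rule with `μ = √(1-s) / √(1-t)`, `NL_scale` and `NL_rsmul`. For
`Profile.normalised` take `κ = κ0 / 4`; the normalised functions are `(wt κ ξ)⁻¹ • W ξ` and are bounded by
`C |ξ|^(1/2) exp (-κ |ξ|)` (`w2_eq`).
-/

open scoped ContDiff ENNReal FourierTransform Topology ComplexConjugate
open Set MeasureTheory Filter Polynomial Metric

namespace Pool.Agent.Work.MP_6bf1e5_an.Ens

noncomputable section

variable {ι : Type} [Fintype ι]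

variable {ν : ℝ} {c : ι → ι → ι → ℝ} {W : R3 → V ι}

omit [Fintype ι] in
theorem Uh_scale (W : R3 → V ι) {r : ℝ} (hr : 0 < r) {t : ℝ} (ξ : R3) :
    r • Uh W ((t - (1 - r)) / r) (√r • ξ) = Uh W t ξ := by
  have h1 : 1 - (t - (1 - r)) / r = (1 - t) / r := by field_simp; ring
  have h2 : √r ≠ 0 := (Real.sqrt_pos.mpr hr).ne'
  simp only [Uh, h1, smul_smul]
  rw [Real.sqrt_div' _ hr.le, div_mul_cancel₀ _ h2, mul_div_cancel₀ _ hr.ne']

theorem prof_w2_anti {κ κ' : ℝ} (h : κ ≤ κ') (ξ : R3) : w2 κ' ξ ≤ w2 κ ξ := by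
  unfold w2
  have := mul_le_mul_of_nonneg_right h (norm_nonneg ξ)
  gcongr

theorem prof_w2_smul (κ : ℝ) {l : ℝ} (hl : 0 < l) (ξ : R3) :
    l ^ 2 * w2 κ (l • ξ) = w2 (κ * l) ξ := by
  unfold w2
  rw [norm_smul, Real.norm_of_nonneg hl.le, mul_pow, mul_inv, ← mul_assoc, ← mul_assoc,
    mul_inv_cancel₀ (by positivity), one_mul, mul_assoc]

theorem prof_bound (h : Profile ν c W) :
    ∃ C κ : ℝ, 0 ≤ C ∧ 0 < κ ∧ ∀ ξ, ‖W ξ‖ ≤ C * w2 κ ξ := by
  obtain ⟨C, κ, hκ, hb⟩ := h.bound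
  exact ⟨max C 0, κ, le_max_right _ _, hκ, fun ξ => (hb ξ).trans
    (mul_le_mul_of_nonneg_right (le_max_left _ _) (w2_nonneg _ _))⟩

theorem prof_norm_Uh {C κ : ℝ} (hC : 0 ≤ C) (hκ : 0 < κ) (hb : ∀ ξ, ‖W ξ‖ ≤ C * w2 κ ξ)
    {t T : ℝ} (ht : t ≤ T) (hT : T < 1) (ξ : R3) :
    ‖Uh W t ξ‖ ≤ C * w2 (κ * √(1 - T)) ξ := by
  have h1 : 0 < 1 - t := by linarith
  have h2 : 0 < √(1 - t) := Real.sqrt_pos.mpr h1
  have h3 : √(1 - T) ≤ √(1 - t) := Real.sqrt_le_sqrt (by linarith)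
  calc ‖Uh W t ξ‖ = √(1 - t) ^ 2 * ‖W (√(1 - t) • ξ)‖ := by
        rw [Uh, norm_smul, Real.norm_of_nonneg h1.le, Real.sq_sqrt h1.le]
    _ ≤ √(1 - t) ^ 2 * (C * w2 κ (√(1 - t) • ξ)) := by gcongr; exact hb _
    _ = C * w2 (κ * √(1 - t)) ξ := by rw [← prof_w2_smul κ h2]; ring
    _ ≤ C * w2 (κ * √(1 - T)) ξ :=
        mul_le_mul_of_nonneg_left (prof_w2_anti (mul_le_mul_of_nonneg_left h3 hκ.le) ξ) hC

omit [Fintype ι] in
theorem prof_cont_Uh (hc : ContinuousOn W {0}ᶜ) :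
    ContinuousOn (fun z : ℝ × R3 => Uh W z.1 z.2) (Iio 1 ×ˢ {0}ᶜ) := by
  unfold Uh
  have e1 : Continuous fun z : ℝ × R3 => 1 - z.1 := by fun_prop
  have e2 : Continuous fun z : ℝ × R3 => √(1 - z.1) • z.2 := by fun_prop
  refine ContinuousOn.smul e1.continuousOn (hc.comp e2.continuousOn ?_)
  rintro ⟨t, ξ⟩ ⟨ht, hξ⟩
  have h1 : 0 < 1 - t := sub_pos.mpr ht
  exact smul_ne_zero (Real.sqrt_pos.mpr h1).ne' hξ

omit [Fintype ι] in
theorem prof_div_smul {f : R3 → V ι} {ξ η : R3} {l : ℝ} (hl : l ≠ 0) (hη : η = l • ξ)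
    (hd : DivFree f) (r : ℝ) (a : ι) : ∑ j, (ξ j : ℂ) * (r • f η) a j = 0 := by
  have h1 := hd η a
  have h2 : (l : ℂ) ≠ 0 := Complex.ofReal_ne_zero.mpr hl
  have h3 : (l : ℂ) * ∑ j, (ξ j : ℂ) * (r • f η) a j = r * ∑ j, (η j : ℂ) * f η a j := by
    rw [Finset.mul_sum, Finset.mul_sum]
    refine Finset.sum_congr rfl fun j _ => ?_
    have : η j = l * ξ j := by rw [hη]; simp
    simp only [this, Pi.smul_apply, Complex.real_smul]
    push_cast
    ring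
  rw [h1, mul_zero] at h3
  exact (mul_eq_zero.mp h3).resolve_left h2

omit [Fintype ι] in
theorem prof_div_Uh (hd : DivFree W) {t : ℝ} (ht : t < 1) : DivFree (Uh W t) := fun _ a =>
  prof_div_smul (Real.sqrt_pos.mpr (sub_pos.mpr ht)).ne' rfl hd _ a

omit [Fintype ι] in
theorem prof_star_smul (r : ℝ) (v : V ι) : star (r • v) = r • star v := by
  funext a i
  simp

omit [Fintype ι] in
theorem prof_sym_Uh (hs : Sym W) (t : ℝ) : Sym (Uh W t) := fun ξ => by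
  rw [Uh, Uh, smul_neg, hs, prof_star_smul]

theorem prof_ode (h : Profile ν c W) {ξ : R3} (hξ : ξ ≠ 0) {t : ℝ} (ht : t < 1) :
    HasDerivAt (fun s => Uh W s ξ) (-(hr ν ξ • Uh W t ξ) - NL c (Uh W t) (Uh W t) ξ) t := by
  have h1 : 0 < 1 - t := sub_pos.mpr ht
  have h2 : 0 < √(1 - t) := Real.sqrt_pos.mpr h1
  have h3 : √(1 - t) ^ 2 = 1 - t := Real.sq_sqrt h1.le
  have hr' := h.ray _ (smul_ne_zero h2.ne' hξ)
  have hμ : HasDerivAt (fun s => √(1 - s) / √(1 - t)) (-1 / (2 * √(1 - t)) / √(1 - t)) t :=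
    (((hasDerivAt_id t).const_sub 1).sqrt h1.ne').div_const _
  have hμ1 : √(1 - t) / √(1 - t) = 1 := div_self h2.ne'
  have h4 := (HasDerivAt.scomp_of_eq t hr' hμ hμ1.symm).const_smul (1 - t)
  have h5 : (fun s => Uh W s ξ) =ᶠ[𝓝 t] (1 - t) • ((fun μ : ℝ => μ ^ 2 • W (μ • √(1 - t) • ξ)) ∘
      fun s => √(1 - s) / √(1 - t)) := by
    filter_upwards [Iio_mem_nhds ht] with s hs
    have hs1 : 0 < 1 - s := sub_pos.mpr hs
    simp only [Uh, Pi.smul_apply, Function.comp, smul_smul]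
    rw [div_mul_cancel₀ _ h2.ne', div_pow, h3, Real.sq_sqrt hs1.le, mul_div_cancel₀ _ h1.ne']
  refine (h4.congr_of_eventuallyEq h5).congr_deriv ?_
  have h6 : NL c (Uh W t) (Uh W t) ξ = NL c W W (√(1 - t) • ξ) := by
    have e1 := NL_rsmul c (1 - t) (1 - t) (fun η => W (√(1 - t) • η)) (fun η => W (√(1 - t) • η)) ξ
    rw [NL_scale c W W h2, smul_smul] at e1
    have e2 : (1 - t) * (1 - t) * (√(1 - t) ^ 4)⁻¹ = 1 := by
      have : √(1 - t) ^ 4 = (1 - t) * (1 - t) := by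
        rw [show (4 : ℕ) = 2 + 2 from rfl, pow_add, h3]
      rw [this, mul_inv_cancel₀ (by positivity)]
    rw [e2, one_smul] at e1
    exact e1
  have h7 : hr ν (√(1 - t) • ξ) = hr ν ξ * (1 - t) := by
    simp only [hr, norm_smul, Real.norm_of_nonneg h2.le, mul_pow, h3]
    ring
  have h8 : (1 - t) * (-1 / (2 * √(1 - t)) / √(1 - t) * 2) = -1 := by
    field_simp
    linarith
  rw [h6, h7, Uh, smul_smul, smul_smul, smul_smul, mul_assoc, h8, neg_one_smul, neg_add,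
    ← sub_eq_add_neg]

theorem Profile.fsol (h : Profile ν c W) : FSol ν c (Uh W) := by
  intro T _ hT
  obtain ⟨C, κ, hC, hκ, hb⟩ := prof_bound h
  have hk : 0 < κ * √(1 - T) := mul_pos hκ (Real.sqrt_pos.mpr (sub_pos.mpr hT))
  obtain ⟨C', _, hC'⟩ := w2_le_wt hk
  refine ⟨(prof_cont_Uh h.cont).mono (prod_mono (fun t ht => ht.2.trans_lt hT) Subset.rfl),
    ⟨C * C', _, half_pos hk, fun t ht ξ => ?_⟩, fun t ht => prof_div_Uh h.div (ht.2.trans_lt hT),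
    fun t _ => prof_sym_Uh h.sym t,
    fun ξ hξ t ht => (prof_ode h hξ (ht.2.trans_lt hT)).hasDerivWithinAt⟩
  refine (prof_norm_Uh hC hκ hb ht.2 hT ξ).trans ?_
  rw [mul_assoc]
  exact mul_le_mul_of_nonneg_left (hC' ξ) hC

theorem prof_norm_inv {C κ : ℝ} {ξ : R3} {v : V ι} (hv : ‖v‖ ≤ C * w2 (2 * κ) ξ) :
    ‖(wt κ ξ)⁻¹ • v‖ ≤ C * (‖ξ‖ ^ (1 / 2 : ℝ) * Real.exp (-κ * ‖ξ‖)) := by
  rcases eq_or_ne ξ 0 with rfl | hξ
  · simp [wt_zero]
  have h1 := wt_pos κ hξ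
  have h2 : wt (2 * κ) ξ = wt κ ξ * Real.exp (-κ * ‖ξ‖) := by
    simp only [wt, mul_assoc, ← Real.exp_add]
    congr 2
    ring
  rw [norm_smul, norm_inv, Real.norm_of_nonneg h1.le, inv_mul_le_iff₀ h1]
  refine hv.trans_eq ?_
  rw [w2_eq, h2]
  ring

theorem prof_wt_inv {C κ κ' : ℝ} {ξ : R3} {v : V ι} (hv : ‖v‖ ≤ C * w2 κ' ξ) :
    wt κ ξ • (wt κ ξ)⁻¹ • v = v := by
  rcases eq_or_ne ξ 0 with rfl | hξ
  · have : v = 0 := by simpa [w2] using hv
    simp [this]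
  · rw [smul_inv_smul₀ (wt_pos κ hξ).ne']

theorem prof_le {κ : ℝ} (hκ : 0 < κ) {x : ℝ} (hx : 0 ≤ x) :
    x ^ (1 / 2 : ℝ) * Real.exp (-κ * x) ≤ 1 + κ⁻¹ := by
  have h1 : x ^ (1 / 2 : ℝ) ≤ 1 + x := by
    rw [← Real.sqrt_eq_rpow]
    exact Real.sqrt_le_iff.mpr ⟨by positivity, by nlinarith⟩
  have h2 : Real.exp (-κ * x) ≤ 1 := Real.exp_le_one_iff.mpr (by nlinarith)
  have h3 : x * Real.exp (-κ * x) ≤ κ⁻¹ := by
    have := Real.add_one_le_exp (κ * x)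
    rw [neg_mul, Real.exp_neg, ← div_eq_mul_inv, div_le_iff₀ (Real.exp_pos _), inv_mul_eq_div,
      le_div_iff₀ hκ]
    linarith
  have h4 := mul_le_mul_of_nonneg_right h1 (Real.exp_pos (-κ * x)).le
  linarith

theorem prof_cont_inv {C κ : ℝ} {F : ℝ × R3 → V ι} (hc : ContinuousOn F (univ ×ˢ {0}ᶜ))
    (hb : ∀ z, ‖F z‖ ≤ C * w2 (2 * κ) z.2) : Continuous fun z => (wt κ z.2)⁻¹ • F z := by
  rw [continuous_iff_continuousAt]
  rintro ⟨t, ξ⟩
  rcases eq_or_ne ξ 0 with rfl | hξ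
  · have h1 : Continuous fun z : ℝ × R3 => C * (‖z.2‖ ^ (1 / 2 : ℝ) * Real.exp (-κ * ‖z.2‖)) := by
      have : Continuous fun z : ℝ × R3 => ‖z.2‖ ^ (1 / 2 : ℝ) :=
        Continuous.rpow_const (by fun_prop) fun _ => Or.inr (by norm_num)
      fun_prop
    have h2 := h1.tendsto' (t, 0) 0 (by simp)
    have h3 := squeeze_zero_norm (fun z => prof_norm_inv (hb z)) h2
    unfold ContinuousAt
    simpa [wt_zero] using h3
  · have ho : (univ ×ˢ {0}ᶜ : Set (ℝ × R3)) ∈ 𝓝 (t, ξ) :=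
      (isOpen_univ.prod isOpen_compl_singleton).mem_nhds ⟨mem_univ _, hξ⟩
    have h1 : ContinuousAt (wt κ) ξ :=
      (continuousOn_wt κ).continuousAt (isOpen_compl_singleton.mem_nhds hξ)
    have h2 : ContinuousAt (fun z : ℝ × R3 => wt κ z.2) (t, ξ) :=
      ContinuousAt.comp (g := wt κ) (f := Prod.snd) h1 continuousAt_snd
    exact (h2.inv₀ (wt_pos κ hξ).ne').smul (hc.continuousAt ho)

theorem Profile.normalised (h : Profile ν c W) : ∃ κ > 0, ∃ M : ℝ,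
    (∃ Wn : XX ι, Sym Wn.fn ∧ ∀ ξ, wt κ ξ • Wn.fn ξ = W ξ) ∧
    ∀ t1, 0 < t1 → t1 ≤ 3 / 4 → ∃ U : YY ι, ‖U‖ ≤ M ∧ (∀ t, Sym fun ξ => U.fn (t, ξ)) ∧
      ∀ t ξ, lift κ U.fn t ξ = Uh W (clamp t1 t) ξ := by
  obtain ⟨C, κ0, hC, hκ0, hb⟩ := prof_bound h
  have hκ : 0 < κ0 / 4 := by positivity
  have hM : ∀ {ξ : R3} {v : V ι}, ‖v‖ ≤ C * w2 (2 * (κ0 / 4)) ξ →
      ‖(wt (κ0 / 4) ξ)⁻¹ • v‖ ≤ C * (1 + (κ0 / 4)⁻¹) := fun hv =>
    (prof_norm_inv hv).trans (mul_le_mul_of_nonneg_left (prof_le hκ (norm_nonneg _)) hC)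
  refine ⟨κ0 / 4, hκ, C * (1 + (κ0 / 4)⁻¹), ?_, fun t1 h0 h1 => ?_⟩
  · have hb' : ∀ ξ, ‖W ξ‖ ≤ C * w2 (2 * (κ0 / 4)) ξ := fun ξ =>
      (hb ξ).trans (mul_le_mul_of_nonneg_left (prof_w2_anti (by linarith) ξ) hC)
    have hc := (prof_cont_inv (F := fun z => W z.2)
      (h.cont.comp continuousOn_snd fun z hz => hz.2) fun z => hb' z.2).comp
      (Continuous.prodMk_right (0 : ℝ))
    have hz : Tendsto (fun ξ => (wt (κ0 / 4) ξ)⁻¹ • W ξ) (cocompact R3) (𝓝 0) := by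
      refine squeeze_zero_norm (fun ξ => prof_norm_inv (hb' ξ)) ?_
      have := ((tendsto_rpow_mul_exp_neg_mul_atTop_nhds_zero (1 / 2) _ hκ).comp
        (tendsto_norm_cocompact_atTop (E := R3))).const_mul C
      simpa using this
    refine ⟨XX.mk (fun ξ => (wt (κ0 / 4) ξ)⁻¹ • W ξ) hc _ (fun ξ => hM (hb' ξ))
      (fun ξ a => prof_div_smul one_ne_zero (one_smul ℝ ξ).symm h.div _ a) hz, fun ξ => ?_,
      fun ξ => prof_wt_inv (hb' ξ)⟩
    simp only [XX.fn_mk]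
    rw [wt_neg, h.sym, prof_star_smul]
  · have hcl : ∀ t, clamp t1 t ≤ 3 / 4 := fun t =>
      max_le (by norm_num) ((min_le_right _ _).trans h1)
    have hcl1 : ∀ t, clamp t1 t < 1 := fun t => (hcl t).trans_lt (by norm_num)
    have hs : κ0 * √(1 - 3 / 4) = 2 * (κ0 / 4) := by
      rw [show (1 - 3 / 4 : ℝ) = (1 / 2) ^ 2 by norm_num, Real.sqrt_sq (by norm_num)]
      ring
    have hb' : ∀ z : ℝ × R3, ‖Uh W (clamp t1 z.1) z.2‖ ≤ C * w2 (2 * (κ0 / 4)) z.2 := fun z =>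
      hs ▸ prof_norm_Uh hC hκ0 hb (hcl z.1) (by norm_num) z.2
    have hcc : Continuous fun z : ℝ × R3 => (clamp t1 z.1, z.2) := by
      unfold clamp
      fun_prop
    have hc := prof_cont_inv (F := fun z => Uh W (clamp t1 z.1) z.2)
      ((prof_cont_Uh h.cont).comp hcc.continuousOn fun z hz => ⟨hcl1 z.1, hz.2⟩) hb'
    refine ⟨YY.mk (fun z => (wt (κ0 / 4) z.2)⁻¹ • Uh W (clamp t1 z.1) z.2) hc _
      (fun z => hM (hb' z))
      (fun t ξ a => prof_div_smul one_ne_zero (one_smul ℝ ξ).symm (prof_div_Uh h.div (hcl1 t)) _ a),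
      YY.norm_le _ (by positivity) fun z => hM (hb' z), fun t ξ => ?_,
      fun t ξ => prof_wt_inv (hb' (t, ξ))⟩
    simp only [YY.fn_mk]
    rw [wt_neg, prof_sym_Uh h.sym, prof_star_smul]

end

end Pool.Agent.Work.MP_6bf1e5_an.Ens
end

-- merged part: Pool.Agent.Work.MP_6bf1e5_an.Ens.Glue
section
/-!
Rescaling, restricting and gluing Fourier-side solutions.
-/

open scoped ContDiff ENNReal FourierTransform Topology ComplexConjugate
open Set MeasureTheory Filter Polynomial Metric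

namespace Pool.Agent.Work.MP_6bf1e5_an.Ens

noncomputable section

variable {ι : Type} [Fintype ι]

variable {ν : ℝ} {c : ι → ι → ι → ℝ}

theorem SSol.congr {a b : ℝ} {f g : ℝ → R3 → V ι} (h : SSol ν c a b f)
    (e : ∀ t ∈ Icc a b, g t = f t) : SSol ν c a b g := by
  refine ⟨h.cont.congr fun z hz => by rw [e z.1 hz.1], ?_, fun t ht => ?_, fun t ht => ?_,
    fun ξ hξ t ht => ?_⟩
  · obtain ⟨C, κ, hκ, hb⟩ := h.bound
    exact ⟨C, κ, hκ, fun t ht ξ => by rw [e t ht]; exact hb t ht ξ⟩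
  · rw [e t ht]; exact h.div t ht
  · rw [e t ht]; exact h.sym t ht
  · rw [e t ht]
    exact (h.ode ξ hξ t ht).congr (fun s hs => by rw [e s hs]) (by rw [e t ht])

theorem SSol.mono {a b a' b' : ℝ} {f : ℝ → R3 → V ι} (h : SSol ν c a b f) (ha : a ≤ a')
    (hb : b' ≤ b) : SSol ν c a' b' f := by
  have hs : Icc a' b' ⊆ Icc a b := Icc_subset_Icc ha hb
  refine ⟨h.cont.mono (prod_mono hs Subset.rfl), ?_, fun t ht => h.div t (hs ht),
    fun t ht => h.sym t (hs ht), fun ξ hξ t ht => (h.ode ξ hξ t (hs ht)).mono hs⟩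
  obtain ⟨C, κ, hκ, hb⟩ := h.bound
  exact ⟨C, κ, hκ, fun t ht ξ => hb t (hs ht) ξ⟩

theorem glue_cont {a b : ℝ} {f : ℝ → R3 → V ι} (h : SSol ν c a b f) {z : ℝ × R3}
    (hz : z.2 ≠ 0) :
    ContinuousWithinAt (fun z : ℝ × R3 => f z.1 z.2) (Icc a b ×ˢ {0}ᶜ) z := by
  by_cases hm : z.1 ∈ Icc a b
  · exact h.cont z ⟨hm, hz⟩
  · refine continuousWithinAt_of_notMem_closure fun hc => hm ?_
    rw [closure_prod_eq, isClosed_Icc.closure_eq] at hc
    exact hc.1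

theorem glue_ode {a b : ℝ} {f : ℝ → R3 → V ι} (h : SSol ν c a b f) {ξ : R3} (hξ : ξ ≠ 0)
    (t : ℝ) : HasDerivWithinAt (fun s => f s ξ)
      (-(hr ν ξ • f t ξ) - NL c (f t) (f t) ξ) (Icc a b) t := by
  by_cases hm : t ∈ Icc a b
  · exact h.ode ξ hξ t hm
  · refine HasFDerivWithinAt.of_notMem_closure ?_
    rwa [isClosed_Icc.closure_eq]

theorem SSol.append {a b d : ℝ} {f : ℝ → R3 → V ι} (hab : a ≤ b) (hbd : b ≤ d)
    (h1 : SSol ν c a b f) (h2 : SSol ν c b d f) : SSol ν c a d f := by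
  have hu : Icc a d = Icc a b ∪ Icc b d := (Icc_union_Icc_eq_Icc hab hbd).symm
  refine ⟨fun z hz => ?_, ?_, fun t ht => ?_, fun t ht => ?_, fun ξ hξ t _ => ?_⟩
  · rw [hu, union_prod]
    exact (glue_cont h1 hz.2).union (glue_cont h2 hz.2)
  · obtain ⟨C1, κ1, hκ1, b1⟩ := h1.bound
    obtain ⟨C2, κ2, hκ2, b2⟩ := h2.bound
    refine ⟨max 0 (max C1 C2), min κ1 κ2, lt_min hκ1 hκ2, fun t ht ξ => ?_⟩
    rw [hu] at ht
    rcases ht with ht | ht
    · refine (b1 t ht ξ).trans ?_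
      calc C1 * wt κ1 ξ ≤ max 0 (max C1 C2) * wt κ1 ξ :=
            mul_le_mul_of_nonneg_right (le_max_of_le_right (le_max_left _ _)) (wt_nonneg _ _)
        _ ≤ _ := mul_le_mul_of_nonneg_left (wt_anti (min_le_left _ _) ξ) (le_max_left _ _)
    · refine (b2 t ht ξ).trans ?_
      calc C2 * wt κ2 ξ ≤ max 0 (max C1 C2) * wt κ2 ξ :=
            mul_le_mul_of_nonneg_right (le_max_of_le_right (le_max_right _ _)) (wt_nonneg _ _)
        _ ≤ _ := mul_le_mul_of_nonneg_left (wt_anti (min_le_right _ _) ξ) (le_max_left _ _)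
  · rw [hu] at ht
    exact ht.elim (h1.div t) (h2.div t)
  · rw [hu] at ht
    exact ht.elim (h1.sym t) (h2.sym t)
  · rw [hu]
    exact (glue_ode h1 hξ t).union (glue_ode h2 hξ t)

theorem glue_hr_smul (ν : ℝ) {r : ℝ} (hr0 : 0 ≤ r) (ξ : R3) : hr ν (√r • ξ) = r * hr ν ξ := by
  simp only [hr, norm_smul, Real.norm_eq_abs, mul_pow, sq_abs, Real.sq_sqrt hr0]
  ring

theorem SSol.scale {b : ℝ} {f : ℝ → R3 → V ι} (h : SSol ν c 0 b f) {r : ℝ} (hr : 0 < r) (t0 : ℝ) :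
    SSol ν c t0 (t0 + r * b) fun t ξ => r • f ((t - t0) / r) (√r • ξ) := by
  have hs : 0 < √r := Real.sqrt_pos.mpr hr
  have hm : ∀ t ∈ Icc t0 (t0 + r * b), (t - t0) / r ∈ Icc 0 b := fun t ht =>
    ⟨div_nonneg (sub_nonneg.mpr ht.1) hr.le, by rw [div_le_iff₀ hr]; linarith [ht.2]⟩
  refine ⟨?_, ?_, fun t ht ξ a => ?_, fun t ht ξ => ?_, fun ξ hξ t ht => ?_⟩
  · have hφ : Continuous fun z : ℝ × R3 => (((z.1 - t0) / r, √r • z.2) : ℝ × R3) := by fun_prop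
    have := h.cont.comp hφ.continuousOn (s := Icc t0 (t0 + r * b) ×ˢ {0}ᶜ) fun z hz =>
      ⟨hm z.1 hz.1, smul_ne_zero hs.ne' hz.2⟩
    exact this.const_smul r
  · obtain ⟨C, κ, hκ, hb⟩ := h.bound
    refine ⟨r * C * (√r) ^ (-(5 / 2) : ℝ), κ * √r, mul_pos hκ hs, fun t ht ξ => ?_⟩
    rw [norm_smul, Real.norm_eq_abs, abs_of_pos hr]
    have := hb _ (hm t ht) (√r • ξ)
    rw [wt_smul κ hs] at this
    calc r * ‖f ((t - t0) / r) (√r • ξ)‖
        ≤ r * (C * ((√r) ^ (-(5 / 2) : ℝ) * wt (κ * √r) ξ)) := mul_le_mul_of_nonneg_left this hr.le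
      _ = _ := by ring
  · have := h.div _ (hm t ht) (√r • ξ) a
    simp only [PiLp.smul_apply, smul_eq_mul, Complex.ofReal_mul] at this
    simp only [Pi.smul_apply, Complex.real_smul]
    have h2 : ((√r : ℝ) : ℂ) ≠ 0 := Complex.ofReal_ne_zero.mpr hs.ne'
    apply mul_left_cancel₀ h2
    have h3 := congrArg (fun w => (r : ℂ) * w) this
    simp only [Finset.mul_sum, mul_zero] at h3 ⊢
    rw [← h3]
    exact Finset.sum_congr rfl fun j _ => by ring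
  · have := h.sym _ (hm t ht) (√r • ξ)
    simp only [smul_neg, this, star_smul, star_trivial]
  · have hξ' : √r • ξ ≠ 0 := smul_ne_zero hs.ne' hξ
    have h1 := h.ode _ hξ' _ (hm t ht)
    have h2 : HasDerivWithinAt (fun s : ℝ => (s - t0) / r) (1 / r) (Icc t0 (t0 + r * b)) t :=
      (((hasDerivAt_id t).sub_const t0).div_const r).hasDerivWithinAt
    have h3 := (h1.scomp t h2 hm).const_smul r
    have e1 : NL c (fun ξ => r • f ((t - t0) / r) (√r • ξ)) (fun ξ => r • f ((t - t0) / r) (√r • ξ)) ξ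
        = NL c (f ((t - t0) / r)) (f ((t - t0) / r)) (√r • ξ) := by
      rw [NL_rsmul c r r (fun ξ => f ((t - t0) / r) (√r • ξ)) (fun ξ => f ((t - t0) / r) (√r • ξ)),
        NL_scale c _ _ hs, smul_smul]
      have : r * r * ((√r) ^ 4)⁻¹ = 1 := by
        have : (√r) ^ 4 = r * r := by
          rw [show (4 : ℕ) = 2 * 2 from rfl, pow_mul, Real.sq_sqrt hr.le, sq]
        rw [this]
        exact mul_inv_cancel₀ (mul_pos hr hr).ne'
      rw [this, one_smul]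
    refine HasDerivWithinAt.congr_deriv h3 ?_
    rw [e1, smul_smul, mul_one_div_cancel hr.ne', one_smul, glue_hr_smul ν hr.le, smul_smul,
      mul_comm]

/-- Glue the rescaled segments; `F n` lives on `[0, 1 - q]`. -/
theorem exists_glue {q : ℝ} (h0 : 0 < q) (h1 : q < 1) {F : ℕ → ℝ → R3 → V ι}
    (hF : ∀ n, SSol ν c 0 (1 - q) (F n))
    (hm : ∀ n ξ, F n (1 - q) ξ = q • F (n + 1) 0 (√q • ξ)) :
    ∃ f : ℝ → R3 → V ι, FSol ν c f ∧ ∀ n, ∀ t ∈ Icc (1 - q ^ n) (1 - q ^ (n + 1)), ∀ ξ,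
      f t ξ = q ^ n • F n ((t - (1 - q ^ n)) / q ^ n) (√(q ^ n) • ξ) := by
  classical
  set G : ℕ → ℝ → R3 → V ι := fun n t ξ =>
    q ^ n • F n ((t - (1 - q ^ n)) / q ^ n) (√(q ^ n) • ξ) with hG
  have hGs : ∀ n, SSol ν c (1 - q ^ n) (1 - q ^ (n + 1)) (G n) := fun n => by
    have := (hF n).scale (pow_pos h0 n) (1 - q ^ n)
    rwa [show 1 - q ^ n + q ^ n * (1 - q) = 1 - q ^ (n + 1) by ring] at this
  have hGm : ∀ n, G n (1 - q ^ (n + 1)) = G (n + 1) (1 - q ^ (n + 1)) := fun n => by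
    funext ξ
    have e1 : (1 - q ^ (n + 1) - (1 - q ^ n)) / q ^ n = 1 - q := by
      have := (pow_pos h0 n).ne'
      field_simp
      ring
    simp only [hG, e1, sub_self, zero_div, hm, smul_smul]
    rw [← Real.sqrt_mul h0.le, ← pow_succ, ← pow_succ']
  have hanti : StrictAnti fun n : ℕ => q ^ n := pow_right_strictAnti₀ h0 h1
  have hdec : ∀ n : ℕ, q ^ (n + 1) ≤ q ^ n := fun n => hanti.antitone (Nat.le_succ n)
  set N : ℝ → ℕ := fun t => if h : ∃ n : ℕ, t ≤ 1 - q ^ (n + 1) then Nat.find h else 0 with hN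
  have key : ∀ n, ∀ t ∈ Icc (1 - q ^ n) (1 - q ^ (n + 1)), G (N t) t = G n t := by
    intro n t ht
    have hex : ∃ n : ℕ, t ≤ 1 - q ^ (n + 1) := ⟨n, ht.2⟩
    have e : N t = Nat.find hex := by simp only [hN, dif_pos hex]
    have hle : Nat.find hex ≤ n := Nat.find_min' hex ht.2
    have hsp := Nat.find_spec hex
    rw [e]
    rcases hle.eq_or_lt with h | h
    · rw [h]
    · have h2 : q ^ (Nat.find hex + 1) ≤ q ^ n := by linarith [ht.1]
      have h3 : n ≤ Nat.find hex + 1 := hanti.le_iff_ge.mp h2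
      have h4 : n = Nat.find hex + 1 := by omega
      have h5 : t = 1 - q ^ (Nat.find hex + 1) := le_antisymm hsp (by rw [← h4]; exact ht.1)
      generalize Nat.find hex = m at h4 h5
      subst h4
      rw [h5]
      exact hGm m
  have hpiece : ∀ n, SSol ν c (1 - q ^ n) (1 - q ^ (n + 1)) fun t => G (N t) t := fun n =>
    (hGs n).congr (key n)
  have hall : ∀ n, SSol ν c 0 (1 - q ^ (n + 1)) fun t => G (N t) t := by
    intro n
    induction n with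
    | zero => simpa using hpiece 0
    | succ n ih =>
      refine SSol.append ?_ ?_ ih (hpiece (n + 1))
      · linarith [pow_le_one₀ (n := n + 1) h0.le h1.le]
      · linarith [hdec (n + 1)]
  refine ⟨fun t => G (N t) t, fun T _ hT => ?_, fun n t ht ξ => congrFun (key n t ht) ξ⟩
  obtain ⟨n, hn⟩ := exists_pow_lt_of_lt_one (sub_pos.mpr hT) h1
  refine (hall n).mono le_rfl ?_
  linarith [hdec n]

end

end Pool.Agent.Work.MP_6bf1e5_an.Ens
end

-- merged part: Pool.Agent.Work.MP_6bf1e5_an.Ens.Seg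
section
/-!
One step of the construction is a Fourier-side solution: multiply the fixed point equation by the
weight, use `hasDerivAt_duh`, `Profile.fsol` and bilinearity of `NL`.
-/

open scoped ContDiff ENNReal FourierTransform Topology ComplexConjugate
open Set MeasureTheory Filter Polynomial Metric

namespace Pool.Agent.Work.MP_6bf1e5_an.Ens

noncomputable section

variable {ι : Type} [Fintype ι]

variable {ν κ t1 : ℝ} {c : ι → ι → ι → ℝ} {H : XX ι →L[ℂ] YY ι} {E : YY ι →L[ℂ] XX ι}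
  {B : YY ι →L[ℂ] YY ι →L[ℂ] YY ι} {σ : XX ι →L[ℝ] XX ι} {σ' : YY ι →L[ℝ] YY ι} {W : R3 → V ι}

theorem seg_clamp {t : ℝ} (ht : t ∈ Icc 0 t1) : clamp t1 t = t := by
  rw [clamp, min_eq_left ht.2, max_eq_right ht.1]

theorem seg_div (z : YY ι) (κ t : ℝ) : DivFree (lift κ z.fn t) := by
  intro ξ a
  have := congrArg (((wt κ ξ : ℝ) : ℂ) * ·) (z.div t ξ a)
  simpa [lift, Finset.mul_sum, mul_left_comm] using this

theorem seg_formula (h : Ops ν c κ t1 H E B σ σ') {U y : YY ι} {v : XX ι}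
    (he : y + (B U y + B y U) + B y y = H v) {s : ℝ} (hs : s ∈ Icc 0 t1) (ξ : R3) :
    lift κ y.fn s ξ = Real.exp (-(hr ν ξ * s)) • wt κ ξ • v.fn ξ -
      wt κ ξ • duh ν c κ U.fn y.fn s ξ - wt κ ξ • duh ν c κ y.fn U.fn s ξ -
      wt κ ξ • duh ν c κ y.fn y.fn s ξ := by
  have e := congrArg (fun z : YY ι => z.fn (s, ξ)) he
  simp only [YY.fn_add, h.hB, h.hH, seg_clamp hs] at e
  rw [smul_comm, ← e, lift]
  module

theorem Ops.segment (h : Ops ν c κ t1 H E B σ σ') (hκ : 0 < κ) (h0 : 0 < t1) (h1 : t1 < 1)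
    (hW : Profile ν c W) {U y : YY ι} {v : XX ι}
    (hU : ∀ t ξ, lift κ U.fn t ξ = Uh W (clamp t1 t) ξ)
    (he : y + (B U y + B y U) + B y y = H v) (hy : σ' y = y) :
    SSol ν c 0 t1 (fun s ξ => Uh W s ξ + lift κ y.fn s ξ) ∧
      ∀ ξ, lift κ y.fn 0 ξ = wt κ ξ • v.fn ξ := by
  have hS := hW.fsol t1 h0 h1
  have hU' : ∀ t ∈ Icc 0 t1, Uh W t = lift κ U.fn t := fun t ht =>
    funext fun ξ => by rw [hU, seg_clamp ht]
  have hf : ∀ t ∈ Icc 0 t1, ∀ ξ, Uh W t ξ + lift κ y.fn t ξ = lift κ (U + y).fn t ξ := by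
    intro t ht ξ
    rw [hU' t ht, lift, lift, lift, YY.fn_add, smul_add]
  refine ⟨⟨?_, ⟨‖U + y‖, κ, hκ, fun t ht ξ => ?_⟩, fun t ht => ?_, fun t ht ξ => ?_,
    fun ξ hξ t ht => ?_⟩, fun ξ => ?_⟩
  · exact (((U + y).continuousOn_lift κ).mono (prod_mono_left (subset_univ _))).congr
      fun z hz => hf z.1 hz.1 z.2
  · rw [hf t ht]
    exact ((U + y).vb κ t).bound ξ
  · rw [funext (hf t ht)]
    exact seg_div _ κ t
  · rw [hS.sym t ht ξ, h.sym_lift hy t ξ, star_add]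
  · have d0 : HasDerivAt (fun s : ℝ => Real.exp (-(hr ν ξ * s)))
        (Real.exp (-(hr ν ξ * t)) * -(hr ν ξ * 1)) t :=
      ((hasDerivAt_id t).const_mul (hr ν ξ)).neg.exp
    have d1 := (((d0.smul_const (wt κ ξ • v.fn ξ)).sub (hasDerivAt_duh (ν := ν) c hκ U y hξ t)).sub
      (hasDerivAt_duh (ν := ν) c hκ y U hξ t)).sub (hasDerivAt_duh (ν := ν) c hκ y y hξ t)
    have d2 := (d1.hasDerivWithinAt (s := Icc 0 t1)).congr_of_mem
      (fun s hs => seg_formula h he hs ξ) ht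
    refine ((hS.ode ξ hξ t ht).add d2).congr_deriv ?_
    have bU := U.vb κ t
    have bY := y.vb κ t
    have bS : VB κ ‖U + y‖ fun η => lift κ U.fn t η + lift κ y.fn t η := by
      rw [← hU' t ht, funext (hf t ht)]
      exact (U + y).vb κ t
    rw [seg_formula h he ht ξ, hU' t ht, NL_add_left c hκ.le bU bY bS,
      NL_add_right c hκ.le bU bU bY, NL_add_right c hκ.le bY bU bY]
    module
  · rw [seg_formula h he ⟨le_rfl, h0.le⟩ ξ]
    simp [duh]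

end

end Pool.Agent.Work.MP_6bf1e5_an.Ens
end
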