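import Pool.Agent.Work.MP_6bf1e5_an.Ens.NL
import Pool.Agent.Work.MP_6bf1e5_an.Ens.Ev
import Pool.Agent.Work.MP_6bf1e5_an.Ens.Basic

/-!
Smoothness of the inverse Fourier integral of a solution; follow `Work/MP_6bf1e5_an/B/Smooth.lean` with integrals
instead of sums (`hasFDerivWithinAt_integral_convex`, `hasDerivWithinAt_cv`).
-/

open scoped ContDiff ENNReal FourierTransform Topology ComplexConjugate
open Set MeasureTheory Filter Polynomial Metric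

namespace Pool.Agent.Work.MP_6bf1e5_an.Ens

noncomputable section

variable {ι : Type} [Fintype ι]

/-- Continuous off `ξ = 0` and bounded by a weight on `[0, T]`. -/
def UB (T : ℝ) (f : ℝ → R3 → ℂ) : Prop :=
  ContinuousOn (fun z : ℝ × R3 => f z.1 z.2) (Icc 0 T ×ˢ {0}ᶜ) ∧
    ∃ C κ : ℝ, 0 < κ ∧ ∀ t ∈ Icc 0 T, ∀ ξ, ξ ≠ 0 → ‖f t ξ‖ ≤ C * wt κ ξ

/-- The same for the time derivatives up to order `n`. -/
def Sm (T : ℝ) : ℕ → (ℝ → R3 → ℂ) → Prop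
  | 0, f => UB T f
  | n + 1, f => UB T f ∧ ∃ f' : ℝ → R3 → ℂ, (∀ ξ, ξ ≠ 0 → ∀ t ∈ Icc 0 T,
      HasDerivWithinAt (fun s => f s ξ) (f' t ξ) (Icc 0 T) t) ∧ Sm T n f'

variable {T : ℝ} {n : ℕ} {f g : ℝ → R3 → ℂ}

theorem UB.adm (h : UB T f) {t : ℝ} (ht : t ∈ Icc 0 T) : Adm (f t) := by
  obtain ⟨C, κ, hκ, hb⟩ := h.2
  exact ⟨h.1.comp (f := fun ξ : R3 => (t, ξ)) (by fun_prop) fun ξ hξ => ⟨ht, hξ⟩,
    C, κ, hκ, hb t ht⟩

theorem Sm.ub (h : Sm T n f) : UB T f := by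
  cases n with
  | zero => exact h
  | succ n => exact h.1

theorem sm_pred : ∀ {f : ℝ → R3 → ℂ}, Sm T (n + 1) f → Sm T n f := by
  induction n with
  | zero => exact fun h => h.1
  | succ n ih => exact fun ⟨h1, f', h2, h3⟩ => ⟨h1, f', h2, ih h3⟩

theorem sm_bound (h : UB T f) : ∃ C κ : ℝ, 0 ≤ C ∧ 0 < κ ∧ ∀ C' κ' : ℝ, C ≤ C' → κ' ≤ κ →
    ∀ t ∈ Icc 0 T, ∀ ξ, ξ ≠ 0 → ‖f t ξ‖ ≤ C' * wt κ' ξ := by
  obtain ⟨C, κ, hκ, hb⟩ := h.2
  refine ⟨max C 0, κ, le_max_right _ _, hκ, fun C' κ' hC hκ' t ht ξ hξ => (hb t ht ξ hξ).trans ?_⟩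
  exact mul_le_mul ((le_max_left _ _).trans hC) (wt_anti hκ' ξ) (wt_nonneg _ _)
    ((le_max_right _ _).trans hC)

theorem sm_bound2 (hf : UB T f) (hg : UB T g) : ∃ C κ : ℝ, 0 ≤ C ∧ 0 < κ ∧
    (∀ t ∈ Icc 0 T, ∀ ξ, ξ ≠ 0 → ‖f t ξ‖ ≤ C * wt κ ξ) ∧
    ∀ t ∈ Icc 0 T, ∀ ξ, ξ ≠ 0 → ‖g t ξ‖ ≤ C * wt κ ξ := by
  obtain ⟨C, κ, hC, hκ, hb⟩ := sm_bound hf
  obtain ⟨D, μ, _, hμ, hd⟩ := sm_bound hg
  exact ⟨max C D, min κ μ, hC.trans (le_max_left _ _), lt_min hκ hμ,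
    hb _ _ (le_max_left _ _) (min_le_left _ _), hd _ _ (le_max_right _ _) (min_le_right _ _)⟩

theorem sm_ub_add (hf : UB T f) (hg : UB T g) : UB T fun t ξ => f t ξ + g t ξ := by
  obtain ⟨C, κ, _, hκ, h1, h2⟩ := sm_bound2 hf hg
  refine ⟨hf.1.add hg.1, C + C, κ, hκ, fun t ht ξ hξ => (norm_add_le _ _).trans ?_⟩
  rw [add_mul]
  exact add_le_add (h1 t ht ξ hξ) (h2 t ht ξ hξ)

theorem sm_add : ∀ {f g : ℝ → R3 → ℂ}, Sm T n f → Sm T n g →
    Sm T n fun t ξ => f t ξ + g t ξ := by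
  induction n with
  | zero => exact sm_ub_add
  | succ n ih =>
    rintro f g ⟨h1, f', h2, h3⟩ ⟨g1, g', g2, g3⟩
    exact ⟨sm_ub_add h1 g1, _, fun ξ hξ t ht => (h2 ξ hξ t ht).add (g2 ξ hξ t ht), ih h3 g3⟩

theorem Sm.add (hf : Sm T n f) (hg : Sm T n g) : Sm T n fun t ξ => f t ξ + g t ξ :=
  sm_add hf hg

theorem sm_zero : Sm T n fun _ _ => 0 := by
  have ub : UB T fun _ _ => 0 := ⟨continuousOn_const, 0, 1, one_pos, fun t _ ξ _ => by simp⟩
  induction n with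
  | zero => exact ub
  | succ n ih => exact ⟨ub, fun _ _ => 0, fun ξ _ t _ => hasDerivWithinAt_const _ _ _, ih⟩

theorem Sm.sum {α : Type} (s : Finset α) {f : α → ℝ → R3 → ℂ} (hf : ∀ a ∈ s, Sm T n (f a)) :
    Sm T n fun t ξ => ∑ a ∈ s, f a t ξ := by
  classical
  induction s using Finset.induction_on with
  | empty => simpa using sm_zero
  | insert a s ha ih =>
    simp only [Finset.sum_insert ha]
    exact (hf a (Finset.mem_insert_self _ _)).add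
      (ih fun b hb => hf b (Finset.mem_insert_of_mem hb))

theorem sm_ub_symb (hf : UB T f) {m : R3 → ℂ} (hm : ContinuousOn m {0}ᶜ) {C : ℝ} {k : ℕ}
    (hb : ∀ ξ, ξ ≠ 0 → ‖m ξ‖ ≤ C * (1 + ‖ξ‖) ^ k) : UB T fun t ξ => m ξ * f t ξ := by
  obtain ⟨D, κ, hD, hκ, h1⟩ := sm_bound hf
  obtain ⟨E, hE, h2⟩ := pow_mul_wt_le hκ k
  refine ⟨(hm.comp continuousOn_snd fun z hz => hz.2).mul hf.1, max C 0 * D * E, κ / 2,
    half_pos hκ, fun t ht ξ hξ => ?_⟩
  have h3 : ‖m ξ‖ ≤ max C 0 * (1 + ‖ξ‖) ^ k :=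
    (hb ξ hξ).trans (mul_le_mul_of_nonneg_right (le_max_left _ _) (by positivity))
  have h4 := h1 D κ le_rfl le_rfl t ht ξ hξ
  have h5 : 0 ≤ max C 0 := le_max_right _ _
  calc ‖m ξ * f t ξ‖ = ‖m ξ‖ * ‖f t ξ‖ := norm_mul _ _
    _ ≤ (max C 0 * (1 + ‖ξ‖) ^ k) * (D * wt κ ξ) :=
        mul_le_mul h3 h4 (norm_nonneg _) (by positivity)
    _ = max C 0 * D * ((1 + ‖ξ‖) ^ k * wt κ ξ) := by ring
    _ ≤ max C 0 * D * (E * wt (κ / 2) ξ) := mul_le_mul_of_nonneg_left (h2 ξ) (by positivity)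
    _ = _ := by ring

theorem sm_symb {m : R3 → ℂ} (hm : ContinuousOn m {0}ᶜ) {C : ℝ} {k : ℕ}
    (hb : ∀ ξ, ξ ≠ 0 → ‖m ξ‖ ≤ C * (1 + ‖ξ‖) ^ k) :
    ∀ {f : ℝ → R3 → ℂ}, Sm T n f → Sm T n fun t ξ => m ξ * f t ξ := by
  induction n with
  | zero => exact fun h => sm_ub_symb h hm hb
  | succ n ih =>
    rintro f ⟨h1, f', h2, h3⟩
    exact ⟨sm_ub_symb h1 hm hb, _, fun ξ hξ t ht => (h2 ξ hξ t ht).const_mul (m ξ), ih h3⟩

theorem Sm.symb (hf : Sm T n f) {m : R3 → ℂ} (hm : ContinuousOn m {0}ᶜ) {C : ℝ} {k : ℕ}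
    (hb : ∀ ξ, ξ ≠ 0 → ‖m ξ‖ ≤ C * (1 + ‖ξ‖) ^ k) : Sm T n fun t ξ => m ξ * f t ξ :=
  sm_symb hm hb hf

theorem sm_ub_cv (hf : UB T f) (hg : UB T g) : UB T fun t ξ => cv (f t) (g t) ξ := by
  obtain ⟨C, κ, hC, hκ, h1, h2⟩ := sm_bound2 hf hg
  obtain ⟨K, hK, h3⟩ := exists_norm_cv_le
  obtain ⟨E, hE, h4⟩ := w2_le_wt hκ
  refine ⟨continuousOn_cv hκ hf.1 hg.1 h1 h2, K * C * C * E, κ / 2, half_pos hκ,
    fun t ht ξ hξ => (h3 _ _ κ C C hκ.le hC hC (h1 t ht) (h2 t ht) ξ hξ).trans ?_⟩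
  rw [mul_assoc (K * C * C)]
  exact mul_le_mul_of_nonneg_left (h4 ξ) (by positivity)

theorem sm_cv : ∀ {f g : ℝ → R3 → ℂ}, Sm T n f → Sm T n g →
    Sm T n fun t ξ => cv (f t) (g t) ξ := by
  induction n with
  | zero => exact sm_ub_cv
  | succ n ih =>
    intro f g hf hg
    obtain ⟨h1, f', h2, h3⟩ := id hf
    obtain ⟨g1, g', g2, g3⟩ := id hg
    refine ⟨sm_ub_cv h1 g1, fun t ξ => cv (f' t) (g t) ξ + cv (f t) (g' t) ξ,
      fun ξ hξ t ht => ?_, (ih h3 (sm_pred hg)).add (ih (sm_pred hf) g3)⟩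
    obtain ⟨C1, κ1, _, k1, b1⟩ := sm_bound h1
    obtain ⟨C2, κ2, _, k2, b2⟩ := sm_bound h3.ub
    obtain ⟨C3, κ3, _, k3, b3⟩ := sm_bound g1
    obtain ⟨C4, κ4, _, k4, b4⟩ := sm_bound g3.ub
    exact hasDerivWithinAt_cv (κ := min (min κ1 κ2) (min κ3 κ4))
      (C := max (max C1 C2) (max C3 C4)) (lt_min (lt_min k1 k2) (lt_min k3 k4))
      (fun s hs => (h1.adm hs).cont) (fun s hs => (h3.ub.adm hs).cont)
      (fun s hs => (g1.adm hs).cont) (fun s hs => (g3.ub.adm hs).cont)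
      (b1 _ _ (by simp) (by simp)) (b2 _ _ (by simp) (by simp))
      (b3 _ _ (by simp) (by simp)) (b4 _ _ (by simp) (by simp)) h2 g2 hξ ht

theorem Sm.cv (hf : Sm T n f) (hg : Sm T n g) : Sm T n fun t ξ => cv (f t) (g t) ξ :=
  sm_cv hf hg

theorem sm_abs_coord_le (ξ : R3) (j : Fin 3) : |ξ j| ≤ ‖ξ‖ := by
  simpa using PiLp.norm_apply_le ξ j

theorem SSol.sm {ν : ℝ} {c : ι → ι → ι → ℝ} {F : ℝ → R3 → V ι} (h : SSol ν c 0 T F) (n : ℕ) (a : ι)
    (i : Fin 3) : Sm T n fun t ξ => F t ξ a i := by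
  have ub : ∀ a i, UB T fun t ξ => F t ξ a i := fun a i => by
    obtain ⟨C, κ, hκ, hb⟩ := h.bound
    refine ⟨continuousOn_pi.mp (continuousOn_pi.mp h.cont a) i, C, κ, hκ, fun t ht ξ _ => ?_⟩
    exact ((norm_le_pi_norm _ i).trans (norm_le_pi_norm _ a)).trans (hb t ht ξ)
  induction n generalizing a i with
  | zero => exact ub a i
  | succ n ih =>
    refine ⟨ub a i, fun t ξ => (-(hr ν ξ • F t ξ) - NL c (F t) (F t) ξ) a i,
      fun ξ hξ t ht => hasDerivWithinAt_pi.mp (hasDerivWithinAt_pi.mp (h.ode ξ hξ t ht) a) i, ?_⟩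
    have h1 : Sm T n fun t ξ => ((-hr ν ξ : ℝ) : ℂ) * F t ξ a i := by
      refine (ih a i).symb (C := 4 * Real.pi ^ 2 * |ν|) (k := 2) ?_ fun ξ _ => ?_
      · unfold hr
        fun_prop
      · rw [Complex.norm_real, norm_neg, hr, Real.norm_eq_abs, abs_mul, abs_mul,
          abs_of_nonneg (by positivity : (0 : ℝ) ≤ 4 * Real.pi ^ 2), abs_of_nonneg (sq_nonneg ‖ξ‖)]
        gcongr
        linarith
    have h2 : ∀ b d k j, Sm T n fun t ξ =>
        (-(2 * Real.pi * Complex.I * (c a b d : ℂ)) * ((lr ξ i k * ξ j : ℝ) : ℂ)) *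
          cv (fun η => F t η b j) (fun η => F t η d k) ξ := fun b d k j => by
      refine ((ih b j).cv (ih d k)).symb (C := ‖2 * Real.pi * Complex.I * (c a b d : ℂ)‖ * 2)
        (k := 1) ?_ fun ξ _ => ?_
      · refine continuousOn_const.mul (Complex.continuous_ofReal.comp_continuousOn ?_)
        exact (contDiffOn_lr i k).continuousOn.mul (by fun_prop)
      · rw [norm_mul, norm_neg, Complex.norm_real, Real.norm_eq_abs, abs_mul, pow_one,
          mul_assoc _ (2 : ℝ)]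
        have := abs_lr_le ξ i k
        have := sm_abs_coord_le ξ j
        gcongr
        linarith
    have h3 := h1.add (Sm.sum Finset.univ fun b _ => Sm.sum Finset.univ fun d _ =>
      Sm.sum Finset.univ fun k _ => Sm.sum Finset.univ fun j _ => h2 b d k j)
    convert h3 using 3 with t ξ
    simp only [Pi.sub_apply, Pi.neg_apply, Pi.smul_apply, NL, Complex.real_smul, Finset.mul_sum,
      sub_eq_add_neg, ← Finset.sum_neg_distrib, Complex.ofReal_neg, neg_mul, mul_assoc]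

/-- The oscillating factor. -/
def smE (x ξ : R3) : ℂ := Complex.exp (2 * Real.pi * Complex.I * ((∑ j, ξ j * x j : ℝ) : ℂ))

theorem sm_norm_E (x ξ : R3) : ‖smE x ξ‖ = 1 := by
  have : (2 * Real.pi * Complex.I * ((∑ j, ξ j * x j : ℝ) : ℂ) : ℂ) =
      ((2 * Real.pi * ∑ j, ξ j * x j : ℝ) : ℂ) * Complex.I := by
    simp only [Complex.ofReal_mul, Complex.ofReal_ofNat]
    ring
  rw [smE, this, Complex.norm_exp_ofReal_mul_I]

theorem sm_cont_E : Continuous fun z : R3 × R3 => smE z.1 z.2 := by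
  unfold smE
  fun_prop

theorem sm_ev_eq (f : R3 → ℂ) (x : R3) : ev f x = ∫ ξ, smE x ξ * f ξ := ev_eq f x

theorem sm_ae_ne : ∀ᵐ ξ : R3, ξ ≠ 0 := by
  simp [ae_iff]

theorem sm_aesm (h : UB T f) (x : R3) {t : ℝ} (ht : t ∈ Icc 0 T) :
    AEStronglyMeasurable (fun ξ => smE x ξ * f t ξ) volume :=
  (sm_cont_E.comp (f := fun ξ : R3 => (x, ξ)) (by fun_prop)).aestronglyMeasurable.mul
    (aesm_of_continuousOn (h.adm ht).cont)

theorem sm_int (h : UB T f) (x : R3) {t : ℝ} (ht : t ∈ Icc 0 T) :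
    Integrable fun ξ => smE x ξ * f t ξ :=
  (h.adm ht).integrable.norm.mono' (sm_aesm h x ht)
    (Eventually.of_forall fun ξ => by rw [norm_mul, sm_norm_E, one_mul])

/-- The coordinate forms. -/
def smX (j : Fin 3) : R3 × ℝ →L[ℝ] ℂ :=
  Complex.ofRealCLM.comp ((EuclideanSpace.proj j).comp (ContinuousLinearMap.fst ℝ R3 ℝ))

/-- The time form. -/
def smT : R3 × ℝ →L[ℝ] ℂ := Complex.ofRealCLM.comp (ContinuousLinearMap.snd ℝ R3 ℝ)

theorem sm_hasFDerivAt_E (ξ : R3) (z : R3 × ℝ) : HasFDerivAt (fun z : R3 × ℝ => smE z.1 ξ)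
    (smE z.1 ξ • ∑ j, (2 * Real.pi * Complex.I * (ξ j : ℂ)) • smX j) z := by
  have e : (fun z : R3 × ℝ => smE z.1 ξ) = fun z =>
      Complex.exp ((∑ j, (2 * Real.pi * Complex.I * (ξ j : ℂ)) • smX j) z) := by
    funext z
    simp [smE, smX, Finset.mul_sum, mul_assoc]
  have := (∑ j, (2 * Real.pi * Complex.I * (ξ j : ℂ)) • smX j).hasFDerivAt (x := z) |>.cexp
  rw [e, show smE z.1 ξ = _ from congrFun e z]
  exact this

theorem sm_coord {f : ℝ → R3 → ℂ} (h : Sm T n f) (j : Fin 3) :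
    Sm T n fun t ξ => 2 * Real.pi * Complex.I * (ξ j : ℂ) * f t ξ := by
  refine h.symb (m := fun ξ => 2 * Real.pi * Complex.I * (ξ j : ℂ))
    (C := ‖(2 * Real.pi * Complex.I : ℂ)‖) (k := 1) (by fun_prop) fun ξ _ => ?_
  rw [norm_mul, Complex.norm_real, Real.norm_eq_abs, pow_one]
  have := sm_abs_coord_le ξ j
  gcongr
  linarith

theorem sm_contDiffOn : ∀ {f : ℝ → R3 → ℂ}, Sm T n f →
    ContDiffOn ℝ n (fun z : R3 × ℝ => ev (f z.2) z.1) (univ ×ˢ Icc 0 T) := by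
  induction n with
  | zero =>
    intro f hf
    obtain ⟨C, κ, hκ, hb⟩ := hf.2
    rw [Nat.cast_zero, contDiffOn_zero]
    simp only [sm_ev_eq]
    refine continuousOn_of_dominated (bound := fun ξ => C * wt κ ξ)
      (fun z hz => sm_aesm hf z.1 hz.2) (fun z hz => ?_) ((integrable_wt hκ).const_mul C) ?_
    · filter_upwards [sm_ae_ne] with ξ hξ
      rw [norm_mul, sm_norm_E, one_mul]
      exact hb _ hz.2 ξ hξ
    · filter_upwards [sm_ae_ne] with ξ hξ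
      refine (sm_cont_E.comp (f := fun z : R3 × ℝ => (z.1, ξ)) (by fun_prop)).continuousOn.mul ?_
      exact hf.1.comp (f := fun z : R3 × ℝ => (z.2, ξ)) (by fun_prop) fun z hz => ⟨hz.2, hξ⟩
  | succ n ih =>
    intro f hf
    obtain ⟨h1, f', h2, h3⟩ := id hf
    have hj := fun j => sm_coord (sm_pred hf) j
    rw [Nat.cast_succ, contDiffOn_succ_iff_hasFDerivWithinAt (by simp)]
    intro z hz
    rw [insert_eq_of_mem hz]
    refine ⟨_, self_mem_nhdsWithin, by simp,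
      fun z => ∑ j, ev (fun ξ => 2 * Real.pi * Complex.I * (ξ j : ℂ) * f z.2 ξ) z.1 • smX j +
        ev (f' z.2) z.1 • smT, fun y hy => ?_,
      (ContDiffOn.sum fun j _ => (ih (hj j)).smul contDiffOn_const).add
        ((ih h3).smul contDiffOn_const)⟩
    choose N μ hμ hN using fun j => (hj j).ub.2
    obtain ⟨M, κ, hκ, hM⟩ := h3.ub.2
    have ij := fun j => (sm_int (hj j).ub y.1 hy.2).smul_const (smX j)
    have i2 := (sm_int h3.ub y.1 hy.2).smul_const smT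
    have := hasFDerivWithinAt_integral_convex (μ := (volume : Measure R3))
      (convex_univ.prod (convex_Icc 0 T))
      (f := fun (z : R3 × ℝ) ξ => smE z.1 ξ * f z.2 ξ)
      (f' := fun z ξ => ∑ j, (smE z.1 ξ * (2 * Real.pi * Complex.I * (ξ j : ℂ) * f z.2 ξ)) • smX j +
        (smE z.1 ξ * f' z.2 ξ) • smT)
      (bound := fun ξ => ∑ j, N j * wt (μ j) ξ * ‖smX j‖ + M * wt κ ξ * ‖smT‖) hy
      (fun z hz => sm_aesm h1 z.1 hz.2) (sm_int h1 y.1 hy.2)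
      ((integrable_finsetSum _ fun j _ => ij j).add i2).aestronglyMeasurable
      (by
        filter_upwards [sm_ae_ne] with ξ hξ z hz
        refine (norm_add_le _ _).trans (add_le_add ((norm_sum_le _ _).trans
          (Finset.sum_le_sum fun j _ => ?_)) ?_) <;>
          rw [norm_smul, norm_mul, sm_norm_E, one_mul] <;> gcongr
        exacts [hN j _ hz.2 ξ hξ, hM _ hz.2 ξ hξ])
      ((integrable_finsetSum _ fun j _ =>
        ((integrable_wt (hμ j)).const_mul _).mul_const _).add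
        (((integrable_wt hκ).const_mul _).mul_const _))
      (by
        filter_upwards [sm_ae_ne] with ξ hξ z hz
        have d1 := (sm_hasFDerivAt_E ξ z).hasFDerivWithinAt (s := univ ×ˢ Icc 0 T)
        have d2 := (h2 ξ hξ z.2 hz.2).hasFDerivWithinAt.comp z
          (hasFDerivWithinAt_snd (s := (univ : Set R3) ×ˢ Icc 0 T)) fun z hz => hz.2
        refine (d1.mul d2).congr_fderiv (ContinuousLinearMap.ext fun v => ?_)
        simp [smT, Fin.sum_univ_three]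
        ring)
    rw [integral_add (integrable_finsetSum _ fun j _ => ij j) i2,
      integral_finsetSum _ fun j _ => ij j] at this
    simpa only [sm_ev_eq, integral_smul_const] using this

theorem Sm.contDiffOn (h : Sm T n f) :
    ContDiffOn ℝ n (fun z : R3 × ℝ => ev (f z.2) z.1) (univ ×ˢ Icc 0 T) :=
  sm_contDiffOn h

theorem hasDerivWithinAt_ev (hf : UB T f) (hg : UB T g)
    (hd : ∀ ξ, ξ ≠ 0 → ∀ t ∈ Icc 0 T, HasDerivWithinAt (fun s => f s ξ) (g t ξ) (Icc 0 T) t)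
    (x : R3) {t : ℝ} (ht : t ∈ Icc 0 T) :
    HasDerivWithinAt (fun s => ev (f s) x) (ev (g t) x) (Icc 0 T) t := by
  obtain ⟨M, κ, hκ, hM⟩ := hg.2
  simp only [sm_ev_eq]
  refine hasDerivWithinAt_integral_convex (convex_Icc 0 T) (f := fun s ξ => smE x ξ * f s ξ)
    (f' := fun s ξ => smE x ξ * g s ξ) (bound := fun ξ => M * wt κ ξ) ht
    (fun s hs => sm_aesm hf x hs) (sm_int hf x ht) (sm_aesm hg x ht) ?_
    ((integrable_wt hκ).const_mul M) ?_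
  · filter_upwards [sm_ae_ne] with ξ hξ s hs
    rw [norm_mul, sm_norm_E, one_mul]
    exact hM s hs ξ hξ
  · filter_upwards [sm_ae_ne] with ξ hξ s hs
    exact (hd ξ hξ s hs).const_mul _

theorem js_re_ev (h : ∀ T, 0 < T → T < 1 → ∀ n, Sm T n f) :
    JS (Ico 0 1) fun x t => (ev (f t) x).re := by
  intro z hz
  obtain ⟨T, hT, hT1⟩ := exists_between hz.2.2
  have h0 : (0 : ℝ) ≤ z.2 := hz.2.1
  have h1 : ContDiffOn ℝ ∞ (fun z : R3 × ℝ => ev (f z.2) z.1) (univ ×ˢ Icc 0 T) :=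
    contDiffOn_infty.mpr fun n => (h T (h0.trans_lt hT) hT1 n).contDiffOn
  refine (Complex.reCLM.contDiff.comp_contDiffWithinAt
    (h1 z ⟨mem_univ _, h0, hT.le⟩)).mono_of_mem_nhdsWithin ?_
  have : {y : R3 × ℝ | y.2 < T} ∈ 𝓝 z := (isOpen_lt continuous_snd continuous_const).mem_nhds hT
  filter_upwards [self_mem_nhdsWithin, mem_nhdsWithin_of_mem_nhds this] with y hy hy'
  exact ⟨mem_univ _, hy.2.1, le_of_lt hy'⟩

end

end Pool.Agent.Work.MP_6bf1e5_an.Ens
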