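import Pool.Agent.Work.MP_6bf1e5_an.Ens.Defs

-- merged part: Pool.Agent.Work.MP_6bf1e5_an.Ens.Annulus
section
/-!
A contraction plus a finite rank operator has an annulus free of spectrum. For `‖S‖ < |z|` let
`R z = resolvent S z`, `U = range F`, `T z : U → U` the restriction of `F ∘ R z`. If `1 - T z` is invertible then so is
`z - S - F = (1 - F R z) (z - S)`. The determinant of `1 - T z` (matrix in a basis of `U`) is analytic on the
connected open set `‖S‖ < |z|` and does not vanish for large `|z|`, so it has finitely many zeros in a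
compact annulus `r1 ≤ |z| ≤ r2`, `‖S‖ < r1 < r2 < 1`; choose `[a, b]` between their norms.
-/

open scoped ContDiff ENNReal FourierTransform Topology ComplexConjugate
open Set MeasureTheory Filter Polynomial Metric

namespace Pool.Agent.Work.MP_6bf1e5_an.Ens

noncomputable section

variable {X : Type} [NormedAddCommGroup X] [NormedSpace ℂ X] [CompleteSpace X]


omit [CompleteSpace X] in
/-- A finite rank operator is a finite sum of rank one operators. -/
theorem annulus_rank (F : X →L[ℂ] X)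
    (hF : FiniteDimensional ℂ (LinearMap.range (F : X →ₗ[ℂ] X))) :
    ∃ (n : ℕ) (φ : Fin n → X →L[ℂ] ℂ) (e : Fin n → X), ∀ x, F x = ∑ i, φ i x • e i := by
  set U := LinearMap.range (F : X →ₗ[ℂ] X) with hU
  let b := Module.finBasis ℂ U
  let F' : X →L[ℂ] U := F.codRestrict U fun x => LinearMap.mem_range_self (F : X →ₗ[ℂ] X) x
  refine ⟨_, fun i => (LinearMap.toContinuousLinearMap (b.coord i)).comp F', fun i => b i,
    fun x => ?_⟩
  have h := congrArg (Subtype.val : U → X) (b.sum_repr (F' x))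
  rw [Submodule.coe_sum] at h
  exact h.symm

omit [CompleteSpace X] in
/-- `1 - I B` is invertible when the matrix of `1 - B I` is. -/
theorem annulus_unit {n : ℕ} (ψ : Fin n → X →L[ℂ] ℂ) (e : Fin n → X) (T : X →L[ℂ] X)
    (hT : ∀ x, T x = ∑ i, ψ i x • e i)
    (hdet : (1 - Matrix.of fun i j => ψ i (e j) : Matrix (Fin n) (Fin n) ℂ).det ≠ 0) :
    IsUnit (1 - T) := by
  set M : Matrix (Fin n) (Fin n) ℂ := Matrix.of fun i j => ψ i (e j) with hM
  have hu : IsUnit (1 - M).det := isUnit_iff_ne_zero.mpr hdet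
  set N := (1 - M)⁻¹ with hN
  have h1 : (1 - M) * N = 1 := Matrix.mul_nonsing_inv _ hu
  have h2 : N * (1 - M) = 1 := Matrix.nonsing_inv_mul _ hu
  let op : Matrix (Fin n) (Fin n) ℂ → X →L[ℂ] X := fun A =>
    ∑ i, ∑ j, A i j • (ψ j).smulRight (e i)
  have op_apply : ∀ A x, op A x = ∑ i, ∑ j, (A i j * ψ j x) • e i := by
    intro A x
    simp [op, mul_smul]
  have op_mul : ∀ A B, op A * op B = op (A * M * B) := by
    intro A B
    ext x
    rw [mul_apply_eq_comp, op_apply, op_apply (A * M * B)]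
    refine Finset.sum_congr rfl fun i _ => ?_
    rw [← Finset.sum_smul, ← Finset.sum_smul]
    congr 1
    simp only [op_apply, map_sum, map_smul, smul_eq_mul, Matrix.mul_apply, hM, Matrix.of_apply,
      Finset.mul_sum, Finset.sum_mul]
    rw [Finset.sum_comm]
    conv_rhs => rw [Finset.sum_comm]
    refine Finset.sum_congr rfl fun k _ => ?_
    rw [Finset.sum_comm]
    refine Finset.sum_congr rfl fun l _ => Finset.sum_congr rfl fun m _ => by ring
  have op_add : ∀ A B, op (A + B) = op A + op B := by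
    intro A B
    simp [op, add_smul, Finset.sum_add_distrib]
  have op_one : op 1 = T := by
    ext x
    rw [op_apply, hT]
    refine Finset.sum_congr rfl fun i _ => ?_
    rw [← Finset.sum_smul]
    simp [Matrix.one_apply]
  have e1 : N = 1 + 1 * M * N := by
    rw [one_mul, ← sub_eq_iff_eq_add, ← one_sub_mul, h1]
  have e2 : N = 1 + N * M * 1 := by
    rw [mul_one, ← sub_eq_iff_eq_add, ← mul_one_sub, h2]
  have k1 : op N = T + T * op N := by
    conv_lhs => rw [e1]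
    rw [op_add, ← op_mul, op_one]
  have k2 : op N = T + op N * T := by
    conv_lhs => rw [e2]
    rw [op_add, ← op_mul, op_one]
  refine ⟨⟨1 - T, 1 + op N, ?_, ?_⟩, rfl⟩
  · have : (1 - T) * (1 + op N) = 1 + (op N - (T + T * op N)) := by noncomm_ring
    rw [this, ← k1, sub_self, add_zero]
  · have : (1 + op N) * (1 - T) = 1 + (op N - (T + op N * T)) := by noncomm_ring
    rw [this, ← k2, sub_self, add_zero]

/-- Finitely many exceptional points in a closed disc. -/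
theorem annulus_finite (S F : X →L[ℂ] X) {ρ : ℝ} (hρ0 : 0 ≤ ρ) (hρ : ρ * ‖S‖ < 1)
    (hF : FiniteDimensional ℂ (LinearMap.range (F : X →ₗ[ℂ] X))) :
    {w : ℂ | ‖w‖ ≤ ρ ∧ ¬IsUnit (1 - w • (S + F))}.Finite := by
  obtain ⟨n, φ, e, hφ⟩ := annulus_rank F hF
  let O : Set ℂ := {w | ‖w‖ * ‖S‖ < 1}
  have hO : IsOpen O := isOpen_lt (by fun_prop) continuous_const
  have hunit : ∀ w ∈ O, IsUnit (1 - w • S) := fun w hw =>
    isUnit_one_sub_of_norm_lt_one (by rw [norm_smul]; exact hw)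
  let R : ℂ → X →L[ℂ] X := fun w => Ring.inverse (1 - w • S)
  have hR : ∀ w ∈ O, DifferentiableAt ℂ R w := fun w hw =>
    DifferentiableAt.inverse (by fun_prop) (hunit w hw)
  let g : ℂ → ℂ := fun w =>
    (1 - Matrix.of fun i j => (w • (φ i).comp (R w)) (e j) : Matrix (Fin n) (Fin n) ℂ).det
  have hg : DifferentiableOn ℂ g O := by
    intro w hw
    refine DifferentiableAt.differentiableWithinAt ?_
    simp only [g, Matrix.det_apply', Matrix.sub_apply, Matrix.of_apply]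
    refine DifferentiableAt.fun_sum fun σ _ => DifferentiableAt.const_mul ?_ _
    refine DifferentiableAt.fun_finsetProd fun i _ => DifferentiableAt.const_sub ?_ _
    simp only [smul_apply, ContinuousLinearMap.comp_apply, smul_eq_mul]
    exact differentiableAt_id.mul
      ((φ _).differentiableAt.comp w ((hR w hw).clm_apply (differentiableAt_const _)))
  have hKO : closedBall (0 : ℂ) ρ ⊆ O := fun w hw =>
    (mul_le_mul_of_nonneg_right (mem_closedBall_zero_iff.mp hw) (norm_nonneg _)).trans_lt hρ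
  have hA : AnalyticOnNhd ℂ g (closedBall 0 ρ) := (hg.analyticOnNhd hO).mono hKO
  rcases hA.eqOn_zero_or_eventually_ne_zero_of_preconnected
    (convex_closedBall (0 : ℂ) ρ).isPreconnected with h | h
  · have h0 := h (mem_closedBall_self hρ0)
    have : (Matrix.of fun i j => ((0 : ℂ) • (φ i).comp (R 0)) (e j) : Matrix (Fin n) (Fin n) ℂ)
        = 0 := by
      ext i j
      simp
    simp only [g, this, sub_zero, Matrix.det_one, Pi.zero_apply] at h0
    exact absurd h0 one_ne_zero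
  refine ((isCompact_closedBall (0 : ℂ) ρ).finite_sdiff_of_mem_codiscreteWithin h).subset ?_
  rintro w ⟨hw, hw'⟩
  have hwK : w ∈ closedBall (0 : ℂ) ρ := mem_closedBall_zero_iff.mpr hw
  refine ⟨hwK, fun hne => hw' ?_⟩
  have hu := annulus_unit (fun i => w • (φ i).comp (R w)) e (w • (F * R w))
    (fun x => by simp [hφ, Finset.smul_sum, mul_smul]) hne
  have hinv : R w * (1 - w • S) = 1 := Ring.inverse_mul_cancel _ (hunit w (hKO hwK))
  have : 1 - w • (S + F) = (1 - w • (F * R w)) * (1 - w • S) := by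
    rw [sub_mul, smul_mul_assoc, mul_assoc, hinv, one_mul, mul_one, smul_add, sub_sub]
  rw [this]
  exact hu.mul (hunit w (hKO hwK))

theorem exists_annulus (S F : X →L[ℂ] X) (hS : ‖S‖ < 1)
    (hF : FiniteDimensional ℂ (LinearMap.range (F : X →ₗ[ℂ] X))) :
    ∃ a b : ℝ, 0 < a ∧ ‖S‖ < a ∧ a < b ∧ b < 1 ∧
      ∀ z : ℂ, a ≤ ‖z‖ → ‖z‖ ≤ b → IsUnit (z • (1 : X →L[ℂ] X) - (S + F)) := by
  obtain ⟨r, hr1, hr2⟩ := exists_between hS
  have hr0 : 0 < r := (norm_nonneg _).trans_lt hr1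
  have hfin := annulus_finite S F (inv_nonneg.mpr hr0.le)
    (by rw [inv_mul_lt_iff₀ hr0, mul_one]; exact hr1) hF
  set Z := (fun w : ℂ => ‖w‖⁻¹) '' {w : ℂ | ‖w‖ ≤ r⁻¹ ∧ ¬IsUnit (1 - w • (S + F))} with hZ
  have hZf : Z.Finite := hfin.image _
  obtain ⟨c, hc, hcZ⟩ := (Ioo_infinite hr2).exists_notMem_finite hZf
  have hnh : Ioo r 1 ∩ Zᶜ ∈ 𝓝 c := (isOpen_Ioo.inter hZf.isClosed.isOpen_compl).mem_nhds ⟨hc, hcZ⟩
  obtain ⟨ε, hε, hb⟩ := Metric.nhds_basis_closedBall.mem_iff.mp hnh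
  rw [Real.closedBall_eq_Icc] at hb
  have ha : c - ε ∈ Ioo r 1 := (hb ⟨le_rfl, by linarith⟩).1
  have hb' : c + ε ∈ Ioo r 1 := (hb ⟨by linarith, le_rfl⟩).1
  refine ⟨c - ε, c + ε, hr0.trans ha.1, hr1.trans ha.1, by linarith, hb'.2, fun z h1 h2 => ?_⟩
  have hz : r < ‖z‖ := ha.1.trans_le h1
  have hz0 : z ≠ 0 := norm_pos_iff.mp (hr0.trans hz)
  have hu : IsUnit (1 - z⁻¹ • (S + F)) := by
    by_contra hne
    refine (hb ⟨h1, h2⟩).2 ⟨z⁻¹, ⟨?_, hne⟩, by simp⟩
    rw [norm_inv]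
    exact inv_anti₀ hr0 hz.le
  have : z • (1 : X →L[ℂ] X) - (S + F) = algebraMap ℂ (X →L[ℂ] X) z * (1 - z⁻¹ • (S + F)) := by
    rw [← Algebra.smul_def, smul_sub, smul_smul, mul_inv_cancel₀ hz0, one_smul]
  rw [this]
  exact ((isUnit_iff_ne_zero.mpr hz0).map _).mul hu

end

end Pool.Agent.Work.MP_6bf1e5_an.Ens
end

-- merged part: Pool.Agent.Work.MP_6bf1e5_an.Ens.GreenEx
section
/-!
Existence of the Green operators `G k = (2 π i)⁻¹ ∮ z^(k-1) (z - A)⁻¹ dz`. The resolvent set is open and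
the resolvent is differentiable there, so the integral is the same over the circles of radius `a` and
`b` (`Complex.circleIntegral_sub_center_inv_smul_eq_of_differentiable_on_annulus_off_countable` or
`circleIntegral_eq_of_differentiable_on_annulus_off_countable`).
-/

open scoped ContDiff ENNReal FourierTransform Topology ComplexConjugate
open Set MeasureTheory Filter Polynomial Metric

namespace Pool.Agent.Work.MP_6bf1e5_an.Ens

noncomputable section

variable {X : Type} [NormedAddCommGroup X] [NormedSpace ℂ X] [CompleteSpace X]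


theorem greenex_diff (A : X →L[ℂ] X) (k : ℤ) {z : ℂ} (hz : z ≠ 0)
    (h : IsUnit (z • (1 : X →L[ℂ] X) - A)) :
    DifferentiableAt ℂ (fun w : ℂ => w ^ k • Ring.inverse (w • (1 : X →L[ℂ] X) - A)) z := by
  have h1 : DifferentiableAt ℂ (fun w : ℂ => w • (1 : X →L[ℂ] X) - A) z :=
    (differentiableAt_id.smul_const _).sub_const _
  have h2 : DifferentiableAt ℂ (fun w : ℂ => Ring.inverse (w • (1 : X →L[ℂ] X) - A)) z :=
    DifferentiableAt.comp (g := Ring.inverse) z (differentiableAt_inverse h) h1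
  exact (differentiableAt_zpow.mpr (Or.inl hz)).smul h2

theorem greenex_clm {E F : Type} [NormedAddCommGroup E] [NormedSpace ℂ E] [CompleteSpace E]
    [NormedAddCommGroup F] [NormedSpace ℂ F] [CompleteSpace F] (L : E →L[ℂ] F) {f : ℂ → E} {R : ℝ}
    (hf : CircleIntegrable f 0 R) : L (∮ z in C(0, R), f z) = ∮ z in C(0, R), L (f z) := by
  simp only [circleIntegral]
  rw [← L.intervalIntegral_comp_comm hf.out]
  simp only [map_smul]

theorem greenex_bound (A : X →L[ℂ] X) {r : ℝ} (hr : 0 < r)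
    (h : ∀ z : ℂ, ‖z‖ = r → IsUnit (z • (1 : X →L[ℂ] X) - A)) :
    ∃ M : ℝ, 0 ≤ M ∧ ∀ k : ℤ, ‖(2 * Real.pi * Complex.I : ℂ)⁻¹ •
      ∮ z in C(0, r), z ^ (k - 1) • Ring.inverse (z • (1 : X →L[ℂ] X) - A)‖ ≤ M * r ^ k := by
  have hc : ContinuousOn (fun w : ℂ => w ^ (0 : ℤ) • Ring.inverse (w • (1 : X →L[ℂ] X) - A))
      (sphere 0 r) := fun z hz => by
    have hz' : ‖z‖ = r := by simpa using hz
    have h0 : z ≠ 0 := fun e => by simp [e] at hz'; linarith
    exact (greenex_diff A 0 h0 (h z hz')).continuousAt.continuousWithinAt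
  obtain ⟨M, hM⟩ := (isCompact_sphere (0 : ℂ) r).exists_bound_of_continuousOn hc
  refine ⟨max M 0, le_max_right _ _, fun k => ?_⟩
  refine (circleIntegral.norm_two_pi_i_inv_smul_integral_le_of_norm_le_const
    (C := r ^ (k - 1) * max M 0) hr.le fun z hz => ?_).trans (le_of_eq ?_)
  · have hz' : ‖z‖ = r := by simpa using hz
    have := hM z hz
    simp only [zpow_zero, one_smul] at this
    rw [norm_smul, norm_zpow, hz']
    exact mul_le_mul_of_nonneg_left (this.trans (le_max_left _ _)) (zpow_nonneg hr.le _)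
  · rw [zpow_sub₀ hr.ne', zpow_one]
    field_simp

theorem exists_green (A : X →L[ℂ] X) {a b : ℝ} (ha : 0 < a) (hab : a < b)
    (h : ∀ z : ℂ, a ≤ ‖z‖ → ‖z‖ ≤ b → IsUnit (z • (1 : X →L[ℂ] X) - A)) :
    ∃ C : ℝ, 0 ≤ C ∧ ∃ G, Green A a b C G := by
  have hb : 0 < b := ha.trans hab
  have hne : ∀ z : ℂ, a ≤ ‖z‖ → z ≠ 0 := fun z hz e => by
    simp [e] at hz
    linarith
  have hsa : ∀ z ∈ sphere (0 : ℂ) a, ‖z‖ = a := fun z hz => by simpa using hz
  have hu : ∀ z ∈ sphere (0 : ℂ) a, IsUnit (z • (1 : X →L[ℂ] X) - A) := fun z hz =>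
    h z (hsa z hz).ge ((hsa z hz).le.trans hab.le)
  have hint : ∀ k : ℤ, CircleIntegrable
      (fun w : ℂ => w ^ k • Ring.inverse (w • (1 : X →L[ℂ] X) - A)) 0 a := fun k =>
    ContinuousOn.circleIntegrable ha.le fun z hz =>
      (greenex_diff A k (hne z (hsa z hz).ge) (hu z hz)).continuousAt.continuousWithinAt
  have heq : ∀ k : ℤ, (∮ z in C(0, b), z ^ k • Ring.inverse (z • (1 : X →L[ℂ] X) - A)) =
      ∮ z in C(0, a), z ^ k • Ring.inverse (z • (1 : X →L[ℂ] X) - A) := fun k => by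
    refine Complex.circleIntegral_eq_of_differentiable_on_annulus_off_countable ha hab.le
      countable_empty (fun z hz => ?_) fun z hz => ?_
    · have h1 : ‖z‖ ≤ b := by simpa using hz.1
      have h2 : a ≤ ‖z‖ := by simpa using hz.2
      exact (greenex_diff A k (hne z h2) (h z h2 h1)).continuousAt.continuousWithinAt
    · have h1 : ‖z‖ < b := by simpa using hz.1.1
      have h2 : a < ‖z‖ := by simpa using hz.1.2
      exact greenex_diff A k (hne z h2.le) (h z h2.le h1.le)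
  obtain ⟨Ma, hMa, hA⟩ := greenex_bound A ha fun z hz => h z hz.ge (hz.le.trans hab.le)
  obtain ⟨Mb, hMb, hB⟩ := greenex_bound A hb fun z hz => h z (hab.le.trans hz.ge) hz.le
  have hl : ∀ k : ℤ, A * (∮ z in C(0, a), z ^ k • Ring.inverse (z • (1 : X →L[ℂ] X) - A)) =
      ∮ z in C(0, a), A * (z ^ k • Ring.inverse (z • (1 : X →L[ℂ] X) - A)) := fun k =>
    greenex_clm (ContinuousLinearMap.mul ℂ (X →L[ℂ] X) A) (hint k)
  have hr : ∀ k : ℤ, (∮ z in C(0, a), z ^ k • Ring.inverse (z • (1 : X →L[ℂ] X) - A)) * A =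
      ∮ z in C(0, a), (z ^ k • Ring.inverse (z • (1 : X →L[ℂ] X) - A)) * A := fun k =>
    greenex_clm ((ContinuousLinearMap.mul ℂ (X →L[ℂ] X)).flip A) (hint k)
  refine ⟨max Ma Mb, hMa.trans (le_max_left _ _), fun k => (2 * Real.pi * Complex.I : ℂ)⁻¹ •
    ∮ z in C(0, a), z ^ (k - 1) • Ring.inverse (z • (1 : X →L[ℂ] X) - A), fun k => ?_, fun k => ?_,
    fun n => ?_, fun n => ?_⟩
  · have hi2 : CircleIntegrable
        (fun w : ℂ => A * (w ^ (k - 1) • Ring.inverse (w • (1 : X →L[ℂ] X) - A))) 0 a :=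
      ContinuousOn.circleIntegrable ha.le fun z hz =>
        (continuousAt_const.mul (greenex_diff A (k - 1) (hne z (hsa z hz).ge)
          (hu z hz)).continuousAt).continuousWithinAt
    rw [mul_smul_comm, ← smul_sub, hl, ← circleIntegral.integral_sub (hint _) hi2,
      circleIntegral.integral_congr (g := fun z => (z - 0) ^ (k - 1) • (1 : X →L[ℂ] X)) ha.le,
      circleIntegral.integral_smul_const]
    · split_ifs with hk
      · subst hk
        simp only [zero_sub, zpow_neg_one]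
        rw [circleIntegral.integral_sub_center_inv 0 ha.ne', smul_smul,
          inv_mul_cancel₀ Complex.two_pi_I_ne_zero, one_smul]
      · rw [circleIntegral.integral_sub_zpow_of_ne (by omega), zero_smul, smul_zero]
    · intro z hz
      have h0 := hne z (hsa z hz).ge
      have h1 := Ring.mul_inverse_cancel _ (hu z hz)
      have h2 : z ^ (k + 1 - 1) = z ^ (k - 1) * z := by
        rw [← zpow_add_one₀ h0, add_sub_cancel_right, sub_add_cancel]
      simp only [sub_zero]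
      rw [h2, mul_smul, mul_smul_comm, ← smul_sub]
      rw [sub_mul, smul_mul_assoc, one_mul] at h1
      rw [h1]
  · rw [mul_smul_comm, smul_mul_assoc, hl, hr]
    congr 1
    refine circleIntegral.integral_congr ha.le fun z hz => ?_
    have h1 := Ring.mul_inverse_cancel _ (hu z hz)
    have h2 := Ring.inverse_mul_cancel _ (hu z hz)
    rw [sub_mul, smul_mul_assoc, one_mul] at h1
    rw [mul_sub, mul_smul_comm, mul_one] at h2
    simp only [mul_smul_comm, smul_mul_assoc]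
    congr 1
    exact sub_right_injective (h1.trans h2.symm)
  · refine (hA n).trans ?_
    rw [zpow_natCast]
    exact mul_le_mul_of_nonneg_right (le_max_left _ _) (pow_nonneg ha.le _)
  · rw [← heq]
    refine (hB (-n)).trans ?_
    rw [zpow_neg, zpow_natCast, div_eq_mul_inv]
    exact mul_le_mul_of_nonneg_right (le_max_right _ _) (inv_nonneg.mpr (pow_nonneg hb.le _))

end

end Pool.Agent.Work.MP_6bf1e5_an.Ens
end

-- merged part: Pool.Agent.Work.MP_6bf1e5_an.Ens.GreenProj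
section
/-!
Consequences of the Green operators. `Green.unique`: `x n = ∑ m, (G (n-m+1) - G (n-m) A) x m =
∑ m, G (n-m) (x (m+1) - A x m)`, all series converge absolutely. `Green.idem`: apply it to
`G k (G 1 x) - (if 1 ≤ k then G k x else 0)`. `Green.finite`: for `x` in the range of `P = 1 - G 1 = -A G 0`
one has `x = -G (-n) A^(n+1) x`, and `A^(n+1) - S^(n+1)` has finite rank, so for large `n` this finite rank
operator is injective on the range of `P`. `exists_J`: approximate a basis of the range of `P` from `D`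
and average with the conjugate by `σ`.
-/

open scoped ContDiff ENNReal FourierTransform Topology ComplexConjugate
open Set MeasureTheory Filter Polynomial Metric

namespace Pool.Agent.Work.MP_6bf1e5_an.Ens

noncomputable section

variable {X : Type} [NormedAddCommGroup X] [NormedSpace ℂ X] [CompleteSpace X]


variable {A : X →L[ℂ] X} {a b C : ℝ} {G : ℤ → X →L[ℂ] X}

omit [NormedSpace ℂ X] [CompleteSpace X] in
theorem greenproj_zero {v : X} {M r : ℝ} (h0 : 0 ≤ r) (h1 : r < 1) (N : ℕ)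
    (h : ∀ n, N ≤ n → ‖v‖ ≤ M * r ^ n) : v = 0 := by
  have ht : Tendsto (fun n : ℕ => M * r ^ n) atTop (𝓝 (M * 0)) :=
    (tendsto_pow_atTop_nhds_zero_of_lt_one h0 h1).const_mul M
  rw [mul_zero] at ht
  exact norm_le_zero_iff.1 (ge_of_tendsto ht (eventually_atTop.2 ⟨N, h⟩))

omit [CompleteSpace X] in
theorem greenproj_step (h : Green A a b C G) (k : ℤ) (v : X) :
    G (k + 1) v = A (G k v) + if k = 0 then v else 0 := by
  have h1 := congrArg (fun T : X →L[ℂ] X => T v) (h.step k)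
  simp only [ContinuousLinearMap.sub_apply, ContinuousLinearMap.mul_apply] at h1
  rw [← sub_eq_iff_eq_add', h1]
  split_ifs <;> rfl

omit [CompleteSpace X] in
theorem greenproj_comm (h : Green A a b C G) (k : ℤ) (v : X) : A (G k v) = G k (A v) :=
  congrArg (fun T : X →L[ℂ] X => T v) (h.comm k)

omit [CompleteSpace X] in
theorem greenproj_nonneg (h : Green A a b C G) : 0 ≤ C := by
  simpa using (norm_nonneg _).trans (h.pos 0)

omit [CompleteSpace X] in
theorem greenproj_pos (h : Green A a b C G) (n : ℕ) (v : X) : ‖G n v‖ ≤ C * ‖v‖ * a ^ n := by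
  refine ((G n).le_opNorm v).trans ?_
  rw [mul_right_comm]
  exact mul_le_mul_of_nonneg_right (h.pos n) (norm_nonneg _)

omit [CompleteSpace X] in
theorem greenproj_neg (h : Green A a b C G) (n : ℕ) (v : X) :
    ‖G (-n) v‖ ≤ C * ‖v‖ / b ^ n := by
  refine ((G (-n)).le_opNorm v).trans ?_
  rw [mul_div_right_comm]
  exact mul_le_mul_of_nonneg_right (h.neg n) (norm_nonneg _)

theorem Green.unique (h : Green A a b C G) (ha : 0 < a) (hab : a < b) {x : ℤ → X} {K : ℝ}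
    (hx : ∀ k, x (k + 1) = A (x k)) (hp : ∀ n : ℕ, ‖x n‖ ≤ K * a ^ n)
    (hn : ∀ n : ℕ, ‖x (-n)‖ ≤ K / b ^ n) (k : ℤ) : x k = 0 := by
  have hb : 0 < b := ha.trans hab
  have hC := greenproj_nonneg h
  have hr0 : 0 ≤ a / b := by positivity
  have hr1 : a / b < 1 := (div_lt_one hb).2 hab
  let u : ℤ → X := fun m => G (k + 1 - m) (x m)
  have hu : ∀ m, u m = u (m + 1) + if m = k then x m else 0 := fun m => by
    have e1 : k + 1 - m = (k - m) + 1 := by ring
    have e2 : k + 1 - (m + 1) = k - m := by ring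
    simp only [u]
    rw [e1, e2, greenproj_step h, greenproj_comm h, hx]
    simp only [sub_eq_zero, @eq_comm _ k m]
  have up : ∀ m, k + 1 ≤ m → u m = u (k + 1) := fun m hm => by
    induction m, hm using Int.leInduction with
    | base => rfl
    | succ m hm ih => rw [← ih, hu m, if_neg (by omega), add_zero]
  have down : ∀ m, m ≤ k → u m = u k := fun m hm => by
    induction m, hm using Int.leInductionDown with
    | base => rfl
    | pred m hm ih => rw [← ih, hu (m - 1), if_neg (by omega), add_zero, sub_add_cancel]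
  have z1 : u (k + 1) = 0 := by
    refine greenproj_zero (M := C * K * b ^ (k + 1)) hr0 hr1 (k + 1).toNat fun n hn' => ?_
    obtain ⟨j, hj⟩ : ∃ j : ℕ, (n : ℤ) = k + 1 + j := ⟨(n - (k + 1)).toNat, by omega⟩
    rw [← up n (by omega)]
    have e : k + 1 - n = -(j : ℤ) := by omega
    have e2 : b ^ (k + 1) = b ^ n / b ^ j := by
      rw [← zpow_natCast, ← zpow_natCast, ← zpow_sub₀ hb.ne']; congr 1; omega
    simp only [u]
    rw [e, e2]
    refine (greenproj_neg h j _).trans ?_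
    calc C * ‖x n‖ / b ^ j ≤ C * (K * a ^ n) / b ^ j := by gcongr; exact hp n
      _ = _ := by rw [div_pow]; field_simp
  have z2 : u k = 0 := by
    refine greenproj_zero (M := C * K * a ^ (k + 1)) hr0 hr1 (-k).toNat fun n hn' => ?_
    obtain ⟨j, hj⟩ : ∃ j : ℕ, (j : ℤ) = k + 1 + n := ⟨(k + 1 + n).toNat, by omega⟩
    rw [← down (-n) (by omega)]
    have e : k + 1 - -(n : ℤ) = j := by omega
    have e2 : a ^ (k + 1) = a ^ j / a ^ n := by
      rw [← zpow_natCast, ← zpow_natCast, ← zpow_sub₀ ha.ne']; congr 1; omega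
    simp only [u]
    rw [e, e2]
    refine (greenproj_pos h j _).trans ?_
    calc C * ‖x (-n)‖ * a ^ j ≤ C * (K / b ^ n) * a ^ j := by gcongr; exact hn n
      _ = _ := by rw [div_pow]; field_simp
  have := hu k
  rw [z1, z2, if_pos rfl, zero_add] at this
  exact this.symm

theorem greenproj_idem (h : Green A a b C G) (ha : 0 < a) (hab : a < b) (v : X) :
    G 1 (G 1 v) = G 1 v := by
  have hb : 0 < b := ha.trans hab
  have hC := greenproj_nonneg h
  have key := h.unique ha hab (x := fun k => G k (G 1 v) - if 1 ≤ k then G k v else 0)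
    (K := C * ‖G 1 v‖ + C * ‖v‖) (fun k => ?_) (fun n => ?_) (fun n => ?_) 1
  · simpa [sub_eq_zero] using key
  · rw [greenproj_step h k, map_sub]
    rcases lt_trichotomy k 0 with hk | rfl | hk
    · rw [if_neg hk.ne, if_neg (by omega), if_neg (by omega)]
      simp
    · simp
    · rw [if_neg hk.ne', if_pos (by omega), if_pos (by omega), greenproj_step h k, if_neg hk.ne']
      simp
  · refine (norm_sub_le _ _).trans ?_
    rw [add_mul]
    refine add_le_add (greenproj_pos h n _) ?_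
    split_ifs
    · exact greenproj_pos h n _
    · rw [norm_zero]; positivity
  · rw [if_neg (by omega), sub_zero]
    refine (greenproj_neg h n _).trans ?_
    gcongr
    exact le_add_of_nonneg_right (by positivity)

theorem Green.idem (h : Green A a b C G) (ha : 0 < a) (hab : a < b) :
    (1 - G 1) * (1 - G 1) = 1 - G 1 := by
  ext v
  simp [greenproj_idem h ha hab]

theorem Green.sigma (h : Green A a b C G) (ha : 0 < a) (hab : a < b) (σ : X →L[ℝ] X)
    (hσ : ∀ x, A (σ x) = σ (A x)) (k : ℤ) (x : X) : G k (σ x) = σ (G k x) := by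
  have key := h.unique ha hab (x := fun k => G k (σ x) - σ (G k x))
    (K := C * ‖σ x‖ + ‖σ‖ * (C * ‖x‖)) (fun k => ?_) (fun n => ?_) (fun n => ?_) k
  · exact sub_eq_zero.1 key
  · rw [greenproj_step h k, greenproj_step h k, map_sub, map_add, hσ]
    split_ifs <;> simp
  · refine (norm_sub_le _ _).trans ?_
    rw [add_mul, mul_assoc ‖σ‖]
    exact add_le_add (greenproj_pos h n _) ((σ.le_opNorm _).trans
      (mul_le_mul_of_nonneg_left (greenproj_pos h n _) (norm_nonneg _)))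
  · refine (norm_sub_le _ _).trans ?_
    rw [add_div, mul_div_assoc ‖σ‖]
    exact add_le_add (greenproj_neg h n _) ((σ.le_opNorm _).trans
      (mul_le_mul_of_nonneg_left (greenproj_neg h n _) (norm_nonneg _)))

omit [CompleteSpace X] in
theorem greenproj_rank {S F : X →L[ℂ] X}
    (hF : FiniteDimensional ℂ (LinearMap.range (F : X →ₗ[ℂ] X))) (m : ℕ) :
    FiniteDimensional ℂ (LinearMap.range (((S + F) ^ m - S ^ m : X →L[ℂ] X) : X →ₗ[ℂ] X)) := by
  induction m with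
  | zero =>
    refine Submodule.finiteDimensional_of_le (S₂ := ⊥) ?_
    rintro _ ⟨v, rfl⟩
    simp
  | succ m ih =>
    refine Submodule.finiteDimensional_of_le (S₂ := (LinearMap.range
      (((S + F) ^ m - S ^ m : X →L[ℂ] X) : X →ₗ[ℂ] X)).map (S : X →ₗ[ℂ] X) ⊔
        LinearMap.range (F : X →ₗ[ℂ] X)) ?_
    rintro _ ⟨v, rfl⟩
    have e : (S + F) ^ (m + 1) - S ^ (m + 1) = S * ((S + F) ^ m - S ^ m) + F * (S + F) ^ m := by
      rw [pow_succ', pow_succ']
      noncomm_ring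
    rw [e]
    exact Submodule.add_mem_sup ⟨_, ⟨v, rfl⟩, rfl⟩ ⟨_, rfl⟩

omit [CompleteSpace X] in
theorem greenproj_back (h : Green A a b C G) (n : ℕ) (v : X) :
    v - G 1 v = -G (-n) ((A ^ (n + 1)) v) := by
  induction n with
  | zero =>
    have := greenproj_step h 0 v
    rw [zero_add, if_pos rfl, greenproj_comm h] at this
    simp [this]
  | succ n ih =>
    have := greenproj_step h (-((n + 1 : ℕ) : ℤ)) ((A ^ (n + 1)) v)
    rw [if_neg (by omega), add_zero, greenproj_comm h,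
      show -((n + 1 : ℕ) : ℤ) + 1 = -n by omega] at this
    rw [ih, this, pow_succ' A (n + 1)]
    rfl

theorem Green.finite {S F : X →L[ℂ] X} (h : Green (S + F) a b C G) (ha : 0 < a) (hab : a < b)
    (hS : ‖S‖ < b) (hF : FiniteDimensional ℂ (LinearMap.range (F : X →ₗ[ℂ] X))) :
    FiniteDimensional ℂ (LinearMap.range ((1 - G 1 : X →L[ℂ] X) : X →ₗ[ℂ] X)) := by
  have hb : 0 < b := ha.trans hab
  have hC := greenproj_nonneg h
  have ht : Tendsto (fun n : ℕ => C * ‖S‖ * (‖S‖ / b) ^ n) atTop (𝓝 (C * ‖S‖ * 0)) :=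
    (tendsto_pow_atTop_nhds_zero_of_lt_one (by positivity) ((div_lt_one hb).2 hS)).const_mul _
  rw [mul_zero] at ht
  obtain ⟨n, hn⟩ := (ht.eventually (gt_mem_nhds one_pos)).exists
  have := greenproj_rank (S := S) hF (n + 1)
  let D : X →ₗ[ℂ] X := ((S + F) ^ (n + 1) - S ^ (n + 1) : X →L[ℂ] X)
  refine FiniteDimensional.of_injective (D.rangeRestrict.domRestrict _)
    ((injective_iff_map_eq_zero _).2 ?_)
  rintro ⟨_, w, rfl⟩ hv
  obtain ⟨v, hvw⟩ : ∃ v, v = w - G 1 w := ⟨_, rfl⟩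
  have h1 : D v = 0 := by
    rw [hvw]
    exact congrArg Subtype.val hv
  have h2 : ((S + F) ^ (n + 1)) v = (S ^ (n + 1)) v := sub_eq_zero.1 h1
  have h3 : G 1 v = 0 := by rw [hvw, map_sub, greenproj_idem h ha hab, sub_self]
  have h4 := greenproj_back h n v
  rw [h3, sub_zero, h2] at h4
  have h5 : ‖v‖ ≤ C * ‖S‖ * (‖S‖ / b) ^ n * ‖v‖ := by
    calc ‖v‖ = ‖G (-n) ((S ^ (n + 1)) v)‖ := by rw [← norm_neg (G _ _), ← h4]
      _ ≤ C * ‖(S ^ (n + 1)) v‖ / b ^ n := greenproj_neg h n _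
      _ ≤ C * (‖S‖ ^ (n + 1) * ‖v‖) / b ^ n := by
          gcongr
          exact ((S ^ (n + 1)).le_opNorm v).trans
            (mul_le_mul_of_nonneg_right (norm_pow_le' S n.succ_pos) (norm_nonneg _))
      _ = _ := by rw [div_pow]; field_simp; ring
  have h6 : v = 0 := by
    by_contra h0
    have := mul_lt_mul_of_pos_right hn (norm_pos_iff.2 h0)
    linarith
  exact Subtype.ext (hvw.symm.trans h6)

omit [CompleteSpace X] in
theorem greenproj_approx (P : X →L[ℂ] X)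
    (hP : FiniteDimensional ℂ (LinearMap.range (P : X →ₗ[ℂ] X))) (D : Submodule ℂ X)
    (hD : Dense (D : Set X)) {η : ℝ} (hη : 0 < η) :
    ∃ J : X →L[ℂ] X, (∀ x, J x ∈ D) ∧ ∀ x, ‖J x - P x‖ ≤ η * ‖x‖ := by
  let e := Module.finBasis ℂ (LinearMap.range (P : X →ₗ[ℂ] X))
  let Q : X →L[ℂ] LinearMap.range (P : X →ₗ[ℂ] X) := P.codRestrict _ fun x => ⟨x, rfl⟩
  let φ := fun i => (LinearMap.toContinuousLinearMap (e.coord i)).comp Q
  have hφ : ∀ x, P x = ∑ i, φ i x • (e i : X) := fun x => by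
    have := congrArg Subtype.val (e.sum_repr (Q x))
    rw [Submodule.coe_sum] at this
    exact this.symm
  obtain ⟨M, hM⟩ : ∃ M, M = ∑ i, ‖φ i‖ := ⟨_, rfl⟩
  have hM0 : 0 ≤ M := hM ▸ Finset.sum_nonneg fun i _ => norm_nonneg _
  have hδ : 0 < η / (M + 1) := by positivity
  choose d hd hd' using fun i => hD.exists_dist_lt (e i : X) hδ
  refine ⟨∑ i, (φ i).smulRight (d i), fun x => ?_, fun x => ?_⟩
  · rw [ContinuousLinearMap.sum_apply]
    exact D.sum_mem fun i _ => D.smul_mem _ (hd i)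
  · rw [ContinuousLinearMap.sum_apply, hφ, ← Finset.sum_sub_distrib]
    refine (norm_sum_le _ _).trans ?_
    calc ∑ i, ‖(φ i).smulRight (d i) x - φ i x • (e i : X)‖
        ≤ ∑ i, ‖φ i‖ * (η / (M + 1) * ‖x‖) := by
          refine Finset.sum_le_sum fun i _ => ?_
          rw [ContinuousLinearMap.smulRight_apply, ← smul_sub, norm_smul, ← dist_eq_norm', mul_comm (η / _),
            ← mul_assoc]
          exact mul_le_mul ((φ i).le_opNorm x) (hd' i).le dist_nonneg (by positivity)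
      _ = M / (M + 1) * (η * ‖x‖) := by rw [← Finset.sum_mul, ← hM]; ring
      _ ≤ η * ‖x‖ := mul_le_of_le_one_left (by positivity)
          ((div_le_one (by positivity)).2 (by linarith))

theorem exists_J (P : X →L[ℂ] X) (hP : FiniteDimensional ℂ (LinearMap.range (P : X →ₗ[ℂ] X)))
    (σ : X →L[ℝ] X) (hσ : ∀ x, σ (σ x) = x) (hPσ : ∀ x, P (σ x) = σ (P x)) (D : Submodule ℂ X)
    (hD : Dense (D : Set X)) (hDσ : ∀ x ∈ D, σ x ∈ D) {ε : ℝ} (hε : 0 < ε) :
    ∃ J : X →L[ℝ] X, (∀ x, J x ∈ D) ∧ (∀ x, J (σ x) = σ (J x)) ∧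
      ∀ x, ‖J x - P x‖ ≤ ε * ‖x‖ := by
  obtain ⟨J, h1, h2⟩ := greenproj_approx P hP D hD (η := ε / (1 + ‖σ‖ ^ 2)) (by positivity)
  refine ⟨(1 / 2 : ℝ) • (J.restrictScalars ℝ + σ.comp ((J.restrictScalars ℝ).comp σ)),
    fun x => ?_, fun x => ?_, fun x => ?_⟩
  · exact D.smul_of_tower_mem _ (D.add_mem (h1 x) (hDσ _ (h1 (σ x))))
  · simp [hσ, add_comm]
  · have e : ((1 / 2 : ℝ) • (J.restrictScalars ℝ + σ.comp ((J.restrictScalars ℝ).comp σ))) x - P x =
        (1 / 2 : ℝ) • ((J x - P x) + σ (J (σ x) - P (σ x))) := by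
      rw [map_sub, hPσ, hσ]
      simp only [ContinuousLinearMap.smul_apply, ContinuousLinearMap.add_apply,
        ContinuousLinearMap.coe_restrictScalars', ContinuousLinearMap.comp_apply]
      module
    have h3 : ‖σ (J (σ x) - P (σ x))‖ ≤ ‖σ‖ * (ε / (1 + ‖σ‖ ^ 2) * (‖σ‖ * ‖x‖)) := by
      refine (σ.le_opNorm _).trans (mul_le_mul_of_nonneg_left ((h2 _).trans ?_) (norm_nonneg _))
      exact mul_le_mul_of_nonneg_left (σ.le_opNorm x) (by positivity)
    have h4 : ε / (1 + ‖σ‖ ^ 2) * ‖x‖ + ‖σ‖ * (ε / (1 + ‖σ‖ ^ 2) * (‖σ‖ * ‖x‖)) = ε * ‖x‖ := by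
      field_simp
    have h5 := (norm_add_le _ _).trans (add_le_add (h2 x) h3)
    have h6 : 0 ≤ ε * ‖x‖ := by positivity
    rw [e, norm_smul, Real.norm_of_nonneg (by norm_num)]
    linarith

end

end Pool.Agent.Work.MP_6bf1e5_an.Ens
end

-- merged part: Pool.Agent.Work.MP_6bf1e5_an.Ens.LP
section
/-!
The Lyapunov-Perron fixed point. Fix `ρ` with `a < ρ < b`, `A = E M H`, `P = 1 - G 1`. Unknowns: `e : X` and a bounded
sequence `Z : ℕ →ᵇ Y`, `y n = ρ^n • Z n`. Put `h m = -E (M (B (y m) (y m)))`, `Θ = ∑' m, G (-m) (h m)`,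
`v n = G (n+1) (m0 + J e - Θ) + ∑' m, G (n-m) (h m)`. The map `e ↦ Θ - m0 - (J e - P e)`,
`y n ↦ M (H (v n) - B (y n) (y n))` is a contraction of the closed set of `σ`-invariant pairs in a small
ball (norm `max |e| (|Z| / K)` with `K` large, since `y` depends on `J e` with a constant of size one; `|h m| ≤ K δ² ρ^(2m) ≤ K δ² ρ^m`). At the fixed point
`P (m0 + J e - Θ) = 0` because `P P = P`, hence `v 0 = m0 + J e`, and `v (n+1) = A (v n) + h n = E (y n)`.
-/

open scoped ContDiff ENNReal FourierTransform Topology ComplexConjugate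
open Set MeasureTheory Filter Polynomial Metric

namespace Pool.Agent.Work.MP_6bf1e5_an.Ens

noncomputable section

variable {X Y : Type} [NormedAddCommGroup X] [NormedSpace ℂ X] [CompleteSpace X]
  [NormedAddCommGroup Y] [NormedSpace ℂ Y] [CompleteSpace Y]

open scoped BoundedContinuousFunction

omit [CompleteSpace X] in
lemma lp_smul (σ : X →L[ℝ] X) (r : ℝ) (x : X) : σ ((r : ℂ) • x) = (r : ℂ) • σ x := by
  rw [Complex.coe_smul, Complex.coe_smul, map_smul]

/-- The correction operator. -/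
lemma lp_L (P : X →L[ℂ] X) (hP : P * P = P) (σ : X →L[ℝ] X) (hσ : ∀ x, P (σ x) = σ (P x))
    (D : Submodule ℂ X) (J : X →L[ℝ] X) (hD : ∀ x, J x ∈ D) (hJ : ∀ x, J (σ x) = σ (J x))
    (h : ∀ x, ‖J x - P x‖ ≤ 1 / 2 * ‖x‖) :
    ∃ L : X →L[ℝ] X, (∀ x, L (σ x) = σ (L x)) ∧ (∀ x, P (L x) = 0) ∧ ∀ x, x + L x ∈ D := by
  have hn : ‖P.restrictScalars ℝ - J‖ < 1 := by
    refine lt_of_le_of_lt (ContinuousLinearMap.opNorm_le_bound _ (by norm_num) fun x => ?_)
      (show (1 / 2 : ℝ) < 1 by norm_num)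
    rw [sub_apply, norm_sub_rev]
    exact h x
  let T := Units.oneSub _ hn
  have hT : ∀ x, T.val x = x - (P x - J x) := fun x => rfl
  have h1 : ∀ x, T.val (T.inv x) = x := fun x => by
    rw [← mul_apply_eq_comp, T.val_inv]; rfl
  have h2 : ∀ x, T.inv (T.val x) = x := fun x => by
    rw [← mul_apply_eq_comp, T.inv_val]; rfl
  have h3 : ∀ x, T.inv (σ x) = σ (T.inv x) := fun x => by
    have : T.val (σ (T.inv x)) = σ (T.val (T.inv x)) := by
      rw [hT, hT, hσ, hJ, map_sub, map_sub]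
    rw [h1] at this
    rw [← this, h2]
  refine ⟨J * T.inv - 1, fun x => ?_, fun x => ?_, fun x => ?_⟩
  · change J (T.inv (σ x)) - σ x = σ (J (T.inv x) - x)
    rw [h3, hJ, map_sub]
  · have h4 : (J * T.inv - 1) x = P (T.inv x) - T.inv x := by
      have := h1 x
      rw [hT] at this
      change J (T.inv x) - x = _
      generalize T.inv x = e at this ⊢
      rw [← this]
      abel
    rw [h4, map_sub, ← mul_apply_eq_comp, hP, sub_self]
  · simpa using hD _

/-- Convolution with a summable kernel. -/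
lemma lp_conv (A : X →L[ℂ] X) (g : ℤ → X →L[ℂ] X) (hs : Summable fun k => ‖g k‖)
    (hstep : ∀ k, g (k + 1) - A * g k = if k = 0 then 1 else 0) (σ : X →L[ℝ] X)
    (hσ : ∀ k x, g k (σ x) = σ (g k x)) :
    ∃ (K : ℝ) (cv : ℕ → (ℕ → X) → X), 0 ≤ K ∧ (∀ k, ‖g k‖ ≤ K) ∧ (∀ n, cv n 0 = 0) ∧
      ∀ (η : ℕ → X) (β : ℝ), (∀ m, ‖η m‖ ≤ β) →
        (∀ n, cv (n + 1) η = A (cv n η) + η n) ∧
        ((∀ m, σ (η m) = η m) → ∀ n, σ (cv n η) = cv n η) ∧
        ∀ (η' : ℕ → X) (d : ℝ), (∀ m, ‖η m - η' m‖ ≤ d) → ∀ n, ‖cv n η - cv n η'‖ ≤ K * d := by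
  have hinj : ∀ n : ℕ, Function.Injective fun m : ℕ => (n : ℤ) - m := fun n m m' h => by
    simp only at h
    omega
  have hs' : ∀ n : ℕ, Summable fun m : ℕ => ‖g ((n : ℤ) - m)‖ := fun n =>
    hs.comp_injective (hinj n)
  have hle : ∀ n : ℕ, ∑' m : ℕ, ‖g ((n : ℤ) - m)‖ ≤ ∑' k, ‖g k‖ := fun n =>
    (hs' n).tsum_le_tsum_of_inj _ (hinj n) (fun _ _ => norm_nonneg _) (fun _ => le_rfl) hs
  have hb : ∀ (η : ℕ → X) (β : ℝ), (∀ m, ‖η m‖ ≤ β) → ∀ n m : ℕ,
      ‖g ((n : ℤ) - m) (η m)‖ ≤ ‖g ((n : ℤ) - m)‖ * β := fun η β h n m =>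
    (g _).le_opNorm_of_le (h m)
  have hsum : ∀ (η : ℕ → X) (β : ℝ), (∀ m, ‖η m‖ ≤ β) → ∀ n : ℕ,
      Summable fun m : ℕ => g ((n : ℤ) - m) (η m) := fun η β h n =>
    Summable.of_norm_bounded ((hs' n).mul_right β) (hb η β h n)
  refine ⟨∑' k, ‖g k‖, fun n η => ∑' m : ℕ, g ((n : ℤ) - m) (η m),
    tsum_nonneg fun _ => norm_nonneg _, fun k => hs.le_tsum k fun _ _ => norm_nonneg _,
    fun n => by simp, fun η β h => ⟨fun n => ?_, fun hη n => ?_, fun η' d hd n => ?_⟩⟩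
  · have h1 : ∀ m : ℕ, g (((n + 1 : ℕ) : ℤ) - m) (η m) =
        A (g ((n : ℤ) - m) (η m)) + if m = n then η n else 0 := by
      intro m
      have := congrArg (fun T : X →L[ℂ] X => T (η m)) (hstep ((n : ℤ) - m))
      simp only [sub_apply, mul_apply_eq_comp] at this
      rw [show ((n + 1 : ℕ) : ℤ) - m = (n : ℤ) - m + 1 by push_cast; ring,
        ← sub_eq_iff_eq_add', this]
      by_cases hm : m = n
      · simp [hm]
      · have : (n : ℤ) - m ≠ 0 := by omega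
        simp [hm, this]
    simp only [h1]
    rw [A.map_tsum (hsum η β h n), Summable.tsum_add (A.summable (hsum η β h n))
      (hasSum_ite_eq n (η n)).summable, tsum_ite_eq]
  · rw [σ.map_tsum (hsum η β h n)]
    exact tsum_congr fun m => by rw [← hσ, hη]
  · have h' : ∀ m, ‖η' m‖ ≤ β + d := fun m => by
      have := norm_sub_le (η m) (η m - η' m)
      rw [sub_sub_cancel] at this
      linarith [h m, hd m]
    rw [← (hsum η β h n).tsum_sub (hsum η' _ h' n)]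
    simp only [← map_sub]
    refine (tsum_of_norm_bounded ((hs' n).mul_right d).hasSum
      (hb (fun m => η m - η' m) d hd n)).trans ?_
    rw [tsum_mul_right]
    exact mul_le_mul_of_nonneg_right (hle n) ((norm_nonneg _).trans (hd 0))

/-- The quadratic fixed point. -/
lemma lp_fix (σ' : Y →L[ℝ] Y) (F : (ℕ →ᵇ Y) → ℕ → Y) {K : ℝ} (hK : 0 ≤ K)
    (h0 : ∀ n, F 0 n = 0)
    (hF : ∀ Z Z' n, ‖F Z n - F Z' n‖ ≤ K * ((‖Z‖ + ‖Z'‖) * ‖Z - Z'‖))
    (hσ : ∀ Z : ℕ →ᵇ Y, (∀ n, σ' (Z n) = Z n) → ∀ n, σ' (F Z n) = F Z n) :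
    ∃ ε > 0, ∀ c : ℕ → Y, (∀ n, ‖c n‖ ≤ ε) → (∀ n, σ' (c n) = c n) →
      ∃ Z : ℕ →ᵇ Y, ‖Z‖ ≤ 1 ∧ (∀ n, σ' (Z n) = Z n) ∧ ∀ n, Z n = c n + F Z n := by
  set δ : ℝ := 1 / (4 * (K + 1)) with hδ
  have hδ0 : 0 < δ := by positivity
  have hδ1 : δ * (4 * (K + 1)) = 1 := by rw [hδ]; field_simp
  have hKδ : K * δ ≤ 1 / 4 := by nlinarith
  have hδ2 : δ ≤ 1 := by nlinarith
  refine ⟨δ / 2, by positivity, fun c hc hcσ => ?_⟩
  have hb : ∀ (Z : ℕ →ᵇ Y) n, ‖c n + F Z n‖ ≤ δ / 2 + K * (‖Z‖ * ‖Z‖) := fun Z n => by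
    have := hF Z 0 n
    rw [h0, sub_zero, sub_zero, norm_zero, add_zero] at this
    exact (norm_add_le _ _).trans (add_le_add (hc n) this)
  let Φ : (ℕ →ᵇ Y) → ℕ →ᵇ Y := fun Z =>
    BoundedContinuousFunction.ofNormedAddCommGroupDiscrete _ _ (hb Z)
  have hΦ : ∀ Z n, Φ Z n = c n + F Z n := fun _ _ => rfl
  let S : Set (ℕ →ᵇ Y) := {Z | ‖Z‖ ≤ δ ∧ ∀ n, σ' (Z n) = Z n}
  have hS : IsClosed S := by
    have : IsClosed {Z : ℕ →ᵇ Y | ∀ n, σ' (Z n) = Z n} := by
      simp only [ofPred_forall]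
      exact isClosed_iInter fun n => isClosed_eq (by fun_prop) (by fun_prop)
    exact (isClosed_le continuous_norm continuous_const).inter this
  have hmap : MapsTo Φ S S := by
    rintro Z ⟨h1, h2⟩
    refine ⟨(BoundedContinuousFunction.norm_le hδ0.le).2 fun n => (hb Z n).trans ?_, fun n => ?_⟩
    · have h3 : ‖Z‖ * ‖Z‖ ≤ δ * δ := mul_self_le_mul_self (norm_nonneg _) h1
      nlinarith [mul_le_mul_of_nonneg_left h3 hK]
    · rw [hΦ, map_add, hcσ, hσ Z h2]
  have hcon : ContractingWith (1 / 2) (hmap.restrict Φ S S) := by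
    refine ⟨by norm_num, LipschitzWith.of_dist_le_mul fun Z Z' => ?_⟩
    change dist (Φ Z) (Φ Z') ≤ _ * dist Z.1 Z'.1
    rw [dist_eq_norm, dist_eq_norm]
    refine (BoundedContinuousFunction.norm_le (by positivity)).2 fun n => ?_
    rw [BoundedContinuousFunction.sub_apply, hΦ, hΦ, add_sub_add_left_eq_sub]
    refine (hF _ _ n).trans ?_
    rw [← mul_assoc]
    refine mul_le_mul_of_nonneg_right ?_ (norm_nonneg _)
    have h3 : K * (‖Z.1‖ + ‖Z'.1‖) ≤ K * (δ + δ) :=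
      mul_le_mul_of_nonneg_left (add_le_add Z.2.1 Z'.2.1) hK
    push_cast
    linarith
  obtain ⟨Z, hZ, hfix, -⟩ := hcon.exists_fixedPoint' hS.isComplete hmap (x := 0)
    ⟨by simpa using hδ0.le, fun n => by simp⟩ (edist_ne_top _ _)
  exact ⟨Z, hZ.1.trans hδ2, hZ.2, fun n => by rw [← hΦ, hfix.eq]⟩

/-- The rescaled problem. -/
lemma lp_core (H : X →L[ℂ] Y) (E : Y →L[ℂ] X) (M : Y →L[ℂ] Y) (B : Y →L[ℂ] Y →L[ℂ] Y)
    {g : ℤ → X →L[ℂ] X} (hs : Summable fun k => ‖g k‖)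
    (hstep : ∀ k, g (k + 1) - (E ∘L M ∘L H) * g k = if k = 0 then 1 else 0)
    (σ : X →L[ℝ] X) (σ' : Y →L[ℝ] Y)
    (hgσ : ∀ k x, g k (σ x) = σ (g k x)) (hH : ∀ x, H (σ x) = σ' (H x))
    (hE : ∀ y, E (σ' y) = σ (E y)) (hM : ∀ y, M (σ' y) = σ' (M y))
    (hB : ∀ y z, B (σ' y) (σ' z) = σ' (B y z)) (D : Submodule ℂ X) (W : X) (L : X →L[ℝ] X)
    (hL : ∀ x, L (σ x) = σ (L x)) (hL1 : ∀ x, g 1 (L x) = L x) (hLD : ∀ x, x + L x ∈ D)
    (hm : ∀ ε > 0, ∃ m0 : X, σ m0 = m0 ∧ W + m0 ∈ D ∧ ‖m0‖ ≤ ε) (c : ℕ → ℝ)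
    (hc : ∀ n, |c n| ≤ 1) :
    ∃ (v : ℕ → X) (y : ℕ → Y), W + v 0 ∈ D ∧ ∀ n,
      y n = M (H (v n) - (c n : ℂ) • B (y n) (y n)) ∧ v (n + 1) = E (y n) ∧ σ' (y n) = y n ∧
        ‖y n‖ ≤ 1 := by
  obtain ⟨K, cv, hK, hgK, hcv0, hcv⟩ := lp_conv _ g hs hstep σ hgσ
  let nl : (ℕ →ᵇ Y) → ℕ → Y := fun Z m => (c m : ℂ) • B (Z m) (Z m)
  let η : (ℕ →ᵇ Y) → ℕ → X := fun Z m => -E (M (nl Z m))
  have hnl : ∀ Z Z' m, ‖nl Z m - nl Z' m‖ ≤ ‖B‖ * ((‖Z‖ + ‖Z'‖) * ‖Z - Z'‖) := by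
    intro Z Z' m
    have e : nl Z m - nl Z' m = (c m : ℂ) • (B (Z m) ((Z - Z') m) + B ((Z - Z') m) (Z' m)) := by
      simp only [nl, BoundedContinuousFunction.sub_apply, map_sub, sub_apply,
        ← smul_sub]
      congr 1
      abel
    have e1 := B.le_of_opNorm₂_le_of_le le_rfl (Z.norm_coe_le_norm m) ((Z - Z').norm_coe_le_norm m)
    have e2 := B.le_of_opNorm₂_le_of_le le_rfl ((Z - Z').norm_coe_le_norm m) (Z'.norm_coe_le_norm m)
    rw [e, norm_smul, Complex.norm_real, Real.norm_eq_abs]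
    refine (mul_le_of_le_one_left (norm_nonneg _) (hc m)).trans ((norm_add_le _ _).trans ?_)
    linarith
  have hη : ∀ Z Z' m, ‖η Z m - η Z' m‖ ≤ ‖E‖ * (‖M‖ * (‖B‖ * ((‖Z‖ + ‖Z'‖) * ‖Z - Z'‖))) := by
    intro Z Z' m
    have e : η Z m - η Z' m = -E (M (nl Z m - nl Z' m)) := by
      simp only [η, map_sub]
      abel
    rw [e, norm_neg]
    exact E.le_opNorm_of_le (M.le_opNorm_of_le (hnl Z Z' m))
  have hnl0 : ∀ m, nl 0 m = 0 := fun m => by simp [nl]
  have hη0 : η 0 = 0 := funext fun m => by simp [η, hnl0]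
  have hηb : ∀ Z m, ‖η Z m‖ ≤ ‖E‖ * (‖M‖ * (‖B‖ * ((‖Z‖ + ‖(0 : ℕ →ᵇ Y)‖) * ‖Z - 0‖))) :=
    fun Z m => by simpa [hη0] using hη Z 0 m
  have hnlσ : ∀ Z : ℕ →ᵇ Y, (∀ n, σ' (Z n) = Z n) → ∀ n, σ' (nl Z n) = nl Z n := fun Z hZ n => by
    simp only [nl]
    rw [lp_smul, ← hB, hZ]
  have hcvσ : ∀ Z : ℕ →ᵇ Y, (∀ n, σ' (Z n) = Z n) → ∀ n, σ (cv n (η Z)) = cv n (η Z) :=
    fun Z hZ => (hcv _ _ (hηb Z)).2.1 fun m => by
      simp only [η]
      rw [map_neg, ← hE, ← hM, hnlσ Z hZ]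
  obtain ⟨ε, hε, hfix⟩ := lp_fix σ'
    (fun Z n => M (H (g (n + 1) (L (cv 0 (η Z))) + cv n (η Z)) - nl Z n))
    (K := ‖M‖ * (‖H‖ * ((K * ‖L‖ + 1) * (K * (‖E‖ * (‖M‖ * ‖B‖)))) + ‖B‖)) (by positivity)
    (fun n => by simp [hη0, hnl0, hcv0]) (fun Z Z' n => by
      have e0 := (hcv _ _ (hηb Z)).2.2 _ _ (hη Z Z')
      have e1 := (g (n + 1)).le_of_opNorm_le_of_le (hgK _) (L.le_opNorm_of_le (e0 0))
      have e2 := H.le_opNorm_of_le ((norm_add_le _ _).trans (add_le_add e1 (e0 n)))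
      have e3 := M.le_opNorm_of_le ((norm_sub_le _ _).trans (add_le_add e2 (hnl Z Z' n)))
      refine (le_of_eq (congrArg _ ?_)).trans (e3.trans (le_of_eq (by ring)))
      simp only [map_sub, map_add]
      abel)
    (fun Z hZ n => by
      rw [← hM, map_sub, hnlσ Z hZ, ← hH, map_add, ← hgσ, ← hL, hcvσ Z hZ, hcvσ Z hZ])
  have hpos : 0 < ‖M‖ * (‖H‖ * (K * ‖L‖)) + 1 := by positivity
  obtain ⟨m0, hm1, hm2, hm3⟩ := hm (ε / (‖M‖ * (‖H‖ * (K * ‖L‖)) + 1)) (by positivity)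
  obtain ⟨Z, hZ1, hZ2, hZ3⟩ := hfix (fun n => -M (H (g (n + 1) (L m0)))) (fun n => by
    rw [norm_neg]
    refine (M.le_opNorm_of_le (H.le_opNorm_of_le ((g (n + 1)).le_of_opNorm_le_of_le (hgK _)
      (L.le_opNorm_of_le le_rfl)))).trans ?_
    rw [le_div_iff₀ hpos] at hm3
    nlinarith [norm_nonneg m0]) (fun n => by rw [map_neg, ← hM, ← hH, ← hgσ, ← hL, hm1])
  have hy : ∀ n : ℕ, Z n = M (H (g (n + 1) (L (cv 0 (η Z) - m0)) + cv n (η Z)) - nl Z n) :=
    fun n => by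
      rw [hZ3 n]
      simp only [map_sub, map_add]
      abel
  refine ⟨fun n => g (n + 1) (L (cv 0 (η Z) - m0)) + cv n (η Z), Z, ?_, fun n =>
    ⟨hy n, ?_, hZ2 n, (Z.norm_coe_le_norm n).trans hZ1⟩⟩
  · have := D.add_mem hm2 (hLD (cv 0 (η Z) - m0))
    convert this using 1
    simp only [Nat.cast_zero, zero_add, hL1]
    abel
  · have e1 := congrArg (fun T : X →L[ℂ] X => T (L (cv 0 (η Z) - m0))) (hstep ((n : ℤ) + 1))
    have hn : (n : ℤ) + 1 ≠ 0 := by omega
    simp only [hn, if_false, sub_apply, mul_apply_eq_comp,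
      zero_apply, sub_eq_zero, ContinuousLinearMap.comp_apply] at e1
    have e2 := (hcv _ _ (hηb Z)).1 n
    simp only [ContinuousLinearMap.comp_apply] at e2
    conv_rhs => rw [hy n]
    simp only [Nat.cast_add, Nat.cast_one]
    rw [e1, e2]
    simp only [η, map_sub, map_add]
    abel

theorem lp (H : X →L[ℂ] Y) (E : Y →L[ℂ] X) (M : Y →L[ℂ] Y) (B : Y →L[ℂ] Y →L[ℂ] Y)
    {a b C : ℝ} {G : ℤ → X →L[ℂ] X} (hG : Green (E ∘L M ∘L H) a b C G) (ha : 0 < a) (hab : a < b)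
    (hb : b < 1) (hP : (1 - G 1) * (1 - G 1) = 1 - G 1) (σ : X →L[ℝ] X) (σ' : Y →L[ℝ] Y)
    (hGσ : ∀ k x, G k (σ x) = σ (G k x)) (hH : ∀ x, H (σ x) = σ' (H x))
    (hE : ∀ y, E (σ' y) = σ (E y)) (hM : ∀ y, M (σ' y) = σ' (M y))
    (hB : ∀ y z, B (σ' y) (σ' z) = σ' (B y z)) (D : Submodule ℂ X) (W : X)
    (hJ : ∀ ε > 0, ∃ J : X →L[ℝ] X, (∀ x, J x ∈ D) ∧ (∀ x, J (σ x) = σ (J x)) ∧
      ∀ x, ‖J x - (1 - G 1 : X →L[ℂ] X) x‖ ≤ ε * ‖x‖)
    (hm : ∀ ε > 0, ∃ m0 : X, σ m0 = m0 ∧ W + m0 ∈ D ∧ ‖m0‖ ≤ ε) :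
    ∃ ρ : ℝ, 0 < ρ ∧ ρ < 1 ∧ ∃ (v : ℕ → X) (y : ℕ → Y), W + v 0 ∈ D ∧ ∀ n,
      y n = M (H (v n) - B (y n) (y n)) ∧ v (n + 1) = E (y n) ∧ σ' (y n) = y n ∧
        ‖y n‖ ≤ ρ ^ n := by
  obtain ⟨ρ, h1, h2⟩ := exists_between hab
  have h0 : 0 < ρ := ha.trans h1
  have hb0 : 0 < b := h0.trans h2
  have hρ0 : (ρ : ℂ) ≠ 0 := by exact_mod_cast h0.ne'
  obtain ⟨J, hJ1, hJ2, hJ3⟩ := hJ (1 / 2) (by norm_num)
  obtain ⟨L, hL1, hL2, hL3⟩ := lp_L _ hP σ (fun x => by simp [hGσ]) D J hJ1 hJ2 hJ3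
  have hn : ∀ k : ℤ, ‖((ρ ^ (1 - k) : ℝ) : ℂ) • G k‖ = ρ ^ (1 - k) * ‖G k‖ := fun k => by
    rw [norm_smul, Complex.norm_real, Real.norm_of_nonneg (zpow_pos h0 _).le]
  have hs : Summable fun k : ℤ => ‖((ρ ^ (1 - k) : ℝ) : ℂ) • G k‖ := by
    refine Summable.of_nat_of_neg ?_ ?_
    · refine Summable.of_nonneg_of_le (fun _ => norm_nonneg _) (fun n => ?_)
        ((summable_geometric_of_lt_one (r := a / ρ) (by positivity)
          ((div_lt_one h0).2 h1)).mul_left (ρ * C))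
      rw [hn]
      refine (mul_le_mul_of_nonneg_left (hG.pos n) (zpow_pos h0 _).le).trans (le_of_eq ?_)
      rw [zpow_sub₀ h0.ne', zpow_one, zpow_natCast, div_pow]
      ring
    · refine Summable.of_nonneg_of_le (fun _ => norm_nonneg _) (fun n => ?_)
        ((summable_geometric_of_lt_one (r := ρ / b) (by positivity)
          ((div_lt_one hb0).2 h2)).mul_left (ρ * C))
      rw [hn]
      refine (mul_le_mul_of_nonneg_left (hG.neg n) (zpow_pos h0 _).le).trans (le_of_eq ?_)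
      rw [sub_neg_eq_add, zpow_add₀ h0.ne', zpow_one, zpow_natCast, div_pow]
      ring
  obtain ⟨v, y, hv, hy⟩ := lp_core H (((ρ⁻¹ : ℝ) : ℂ) • E) M B
    (g := fun k => ((ρ ^ (1 - k) : ℝ) : ℂ) • G k) hs (fun k => by
      have e : ((ρ⁻¹ : ℝ) : ℂ) * ((ρ ^ (1 - k) : ℝ) : ℂ) = ((ρ ^ (1 - (k + 1)) : ℝ) : ℂ) := by
        rw [← Complex.ofReal_mul, ← zpow_neg_one, ← zpow_add₀ h0.ne']
        congr 2
        ring
      rw [ContinuousLinearMap.smul_comp, smul_mul_smul_comm, e, ← smul_sub, hG.step]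
      split_ifs with hk
      · simp [hk]
      · simp) σ σ'
    (fun k x => by simp only [smul_apply]; rw [lp_smul, hGσ]) hH
    (fun y => by simp only [smul_apply]; rw [lp_smul, hE]) hM hB D W L hL1
    (fun x => by
      have := hL2 x
      simp only [sub_apply, one_apply_eq_self, sub_eq_zero] at this
      simpa using this.symm) hL3 hm (fun n => ρ ^ n)
    (fun n => by rw [abs_of_pos (pow_pos h0 n)]; exact pow_le_one₀ h0.le (by linarith))
  refine ⟨ρ, h0, by linarith, fun n => ((ρ ^ n : ℝ) : ℂ) • v n, fun n => ((ρ ^ n : ℝ) : ℂ) • y n,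
    by simpa using hv, fun n => ⟨?_, ?_, ?_, ?_⟩⟩
  · beta_reduce
    conv_lhs => rw [(hy n).1]
    simp only [map_smul, smul_apply, map_sub, smul_sub]
  · simp only [(hy n).2.1, smul_apply, map_smul, smul_smul]
    congr 1
    push_cast
    rw [pow_succ, mul_inv_cancel_right₀ hρ0]
  · rw [lp_smul, (hy n).2.2.1]
  · rw [norm_smul, Complex.norm_real, Real.norm_of_nonneg (pow_pos h0 n).le]
    exact mul_le_of_le_one_right (pow_pos h0 n).le (hy n).2.2.2

end

end Pool.Agent.Work.MP_6bf1e5_an.Ens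
end

-- merged part: Pool.Agent.Work.MP_6bf1e5_an.Ens.Stable
section
/-!
The abstract stable manifold theorem. `M = (1 + L)⁻¹` (Neumann series; it commutes with `σ'`),
`M = 1 - L M`, so `E M H = (E H - (E L - F) M H) - F M H`.
-/

open scoped ContDiff ENNReal FourierTransform Topology ComplexConjugate
open Set MeasureTheory Filter Polynomial Metric

namespace Pool.Agent.Work.MP_6bf1e5_an.Ens

noncomputable section

variable {X Y : Type} [NormedAddCommGroup X] [NormedSpace ℂ X] [CompleteSpace X]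
  [NormedAddCommGroup Y] [NormedSpace ℂ Y] [CompleteSpace Y]


theorem stable (H : X →L[ℂ] Y) (E : Y →L[ℂ] X) (L : Y →L[ℂ] Y) (B : Y →L[ℂ] Y →L[ℂ] Y)
    (σ : X →L[ℝ] X) (σ' : Y →L[ℝ] Y) (hL : ‖L‖ < 1) (hEH : ‖E ∘L H‖ < 1)
    (hK : ∀ ε > 0, ∃ F : Y →L[ℂ] X,
      FiniteDimensional ℂ (LinearMap.range (F : Y →ₗ[ℂ] X)) ∧ ‖E ∘L L - F‖ ≤ ε)
    (hσ : ∀ x, σ (σ x) = x) (hH : ∀ x, H (σ x) = σ' (H x)) (hE : ∀ y, E (σ' y) = σ (E y))
    (hLσ : ∀ y, L (σ' y) = σ' (L y)) (hB : ∀ y z, B (σ' y) (σ' z) = σ' (B y z))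
    (D : Submodule ℂ X) (hD : Dense (D : Set X)) (hDσ : ∀ x ∈ D, σ x ∈ D) (W : X) (hW : σ W = W) :
    ∃ ρ : ℝ, 0 < ρ ∧ ρ < 1 ∧ ∃ (v : ℕ → X) (y : ℕ → Y), W + v 0 ∈ D ∧ ∀ n,
      y n + L (y n) + B (y n) (y n) = H (v n) ∧ v (n + 1) = E (y n) ∧ σ' (y n) = y n ∧
        ‖y n‖ ≤ ρ ^ n := by
  obtain ⟨M, hM1, hM2⟩ : ∃ M : Y →L[ℂ] Y, (∀ y, M y + L (M y) = y) ∧ ∀ y, M (y + L y) = y := by
    let u := Units.oneSub (-L) (by rwa [norm_neg])
    have hu : (u : Y →L[ℂ] Y) = 1 + L := by simp [u]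
    refine ⟨(u⁻¹ : (Y →L[ℂ] Y)ˣ), fun y => ?_, fun y => ?_⟩
    · have := congrArg (fun T : Y →L[ℂ] Y => T y) u.mul_inv
      simpa [hu] using this
    · have := congrArg (fun T : Y →L[ℂ] Y => T y) u.inv_mul
      simpa only [hu, ContinuousLinearMap.mul_apply, ContinuousLinearMap.add_apply,
        ContinuousLinearMap.one_apply] using this
  have hMσ : ∀ y, M (σ' y) = σ' (M y) := fun y => by
    conv_lhs => rw [← hM1 y, map_add, ← hLσ, hM2]
  have hpos : 0 < (1 - ‖E ∘L H‖) / (‖M ∘L H‖ + 1) := div_pos (by linarith) (by positivity)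
  obtain ⟨F, hF, hFn⟩ := hK _ hpos
  have hA : E ∘L M ∘L H = (E ∘L H - (E ∘L L - F) ∘L M ∘L H) + -(F ∘L M ∘L H) := by
    ext x
    have := congrArg E (hM1 (H x))
    simp only [map_add, ContinuousLinearMap.comp_apply, ContinuousLinearMap.add_apply,
      ContinuousLinearMap.sub_apply, ContinuousLinearMap.neg_apply] at this ⊢
    rw [← this]
    abel
  have hS : ‖E ∘L H - (E ∘L L - F) ∘L M ∘L H‖ < 1 := by
    have h1 := norm_sub_le (E ∘L H) ((E ∘L L - F) ∘L M ∘L H)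
    have h2 := ((E ∘L L - F).opNorm_comp_le (M ∘L H)).trans
      (mul_le_mul_of_nonneg_right hFn (norm_nonneg _))
    have h3 : (1 - ‖E ∘L H‖) / (‖M ∘L H‖ + 1) * ‖M ∘L H‖ < 1 - ‖E ∘L H‖ := by
      rw [div_mul_eq_mul_div, div_lt_iff₀ (by positivity)]
      nlinarith
    linarith
  have hF' : FiniteDimensional ℂ
      (LinearMap.range ((-(F ∘L M ∘L H) : X →L[ℂ] X) : X →ₗ[ℂ] X)) := by
    refine Submodule.finiteDimensional_of_le (S₂ := LinearMap.range (F : Y →ₗ[ℂ] X)) ?_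
    rintro _ ⟨x, rfl⟩
    exact ⟨-M (H x), by simp⟩
  obtain ⟨a, b, ha, hSa, hab, hb, hunit⟩ := exists_annulus _ _ hS hF'
  obtain ⟨C, -, G, hG⟩ := exists_green _ ha hab hunit
  have hfin := hG.finite ha hab (hSa.trans hab) hF'
  rw [← hA] at hG
  have hGσ := hG.sigma ha hab σ fun x => by
    simp only [ContinuousLinearMap.comp_apply, hH, hMσ, hE]
  obtain ⟨ρ, h0, h1, v, y, hv, hy⟩ := lp H E M B hG ha hab hb (hG.idem ha hab) σ σ' hGσ hH hE hMσ
    hB D W (fun ε hε => exists_J _ hfin σ hσ (fun x => by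
      simp only [ContinuousLinearMap.sub_apply, ContinuousLinearMap.one_apply, hGσ, map_sub])
      D hD hDσ hε) fun ε hε => by
      have hδ : 0 < ε / (1 + ‖σ‖) := by positivity
      obtain ⟨d, hd, hdD⟩ := Metric.dense_iff.1 hD W _ hδ
      have hn : ‖d - W‖ ≤ ε / (1 + ‖σ‖) := (mem_ball_iff_norm.1 hd).le
      refine ⟨(2⁻¹ : ℝ) • ((d - W) + σ (d - W)), ?_, ?_, ?_⟩
      · rw [map_smul, map_add, hσ, add_comm]
      · have e : W + (2⁻¹ : ℝ) • ((d - W) + σ (d - W)) = (2⁻¹ : ℝ) • (d + σ d) := by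
          rw [map_sub, hW]
          module
        rw [e]
        exact D.smul_of_tower_mem _ (D.add_mem hdD (hDσ d hdD))
      · have h2 := norm_add_le (d - W) (σ (d - W))
        have h3 := σ.le_opNorm (d - W)
        rw [le_div_iff₀ (by positivity)] at hn
        rw [norm_smul, norm_inv, Real.norm_ofNat]
        nlinarith
  refine ⟨ρ, h0, h1, v, y, hv, fun n => ⟨?_, (hy n).2⟩⟩
  have h2 := hM1 (H (v n) - B (y n) (y n))
  rw [← (hy n).1] at h2
  rw [h2, sub_add_cancel]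

end

end Pool.Agent.Work.MP_6bf1e5_an.Ens
end
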