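import Pool.Agent.Work.MP_6bf1e5_an.Ens.Fill

/-!
Uniqueness and the energy inequality in the class of smooth solutions with bounded energy. For uniqueness apply
`exists_step` on intervals of length `h` with `K M h ≤ 1/2`, with `S` the supremum of the energy of the difference.
For the energy inequality compare with `CSol.zero`.
-/

open scoped ContDiff ENNReal FourierTransform Topology ComplexConjugate
open Set MeasureTheory Filter Polynomial Metric

namespace Pool.Agent.Work.MP_6bf1e5_an.Ens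

noncomputable section

variable {ι : Type} [Fintype ι]

variable {ν T : ℝ} {c : ι → ι → ι → ℝ} {u0 : ι → R3 → R3} {u v : ι → R3 → ℝ → R3}
  {p q : ι → R3 → ℝ → ℝ}

theorem energy_eq {w : ι → R3 → R3} (hw : ∀ a, Continuous (w a)) :
    energy w = ∫⁻ x, ENNReal.ofReal (den w x) := by
  rw [energy, ← lintegral_finsetSum _ fun a _ => ((hw a).enorm.measurable.pow_const 2)]
  refine lintegral_congr fun x => ?_
  rw [den, ENNReal.ofReal_sum_of_nonneg fun a _ => Finset.sum_nonneg fun i _ => sq_nonneg _]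
  refine Finset.sum_congr rfl fun a _ => ?_
  rw [← norm_sq_eq_sum, ENNReal.ofReal_pow (norm_nonneg _), ofReal_norm]

theorem uniq_den_nonneg (w : ι → R3 → R3) (x : R3) : 0 ≤ den w x :=
  Finset.sum_nonneg fun _ _ => Finset.sum_nonneg fun _ _ => sq_nonneg _

theorem uniq_den_cont {w : ι → R3 → R3} (hw : ∀ a, Continuous (w a)) : Continuous (den w) := by
  unfold den
  fun_prop

theorem uniq_cont {I : Set ℝ} (hu : CSol ν c u0 I u p) {t : ℝ} (ht : t ∈ I) (a : ι) :
    Continuous fun x => u a x t :=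
  (hu.smooth_u a).continuousOn.comp_continuous (f := fun x : R3 => (x, t)) (by fun_prop)
    fun _ => ⟨trivial, ht⟩

theorem uniq_int {w : ι → R3 → R3} (hw : ∀ a, Continuous (w a)) {C : ℝ≥0∞} (hC : C < ⊤)
    (h : energy w ≤ C) : Integrable (den w) ∧ ∫ x, den w x ≤ C.toReal := by
  rw [energy_eq hw] at h
  have hn : 0 ≤ᵐ[volume] den w := Eventually.of_forall (uniq_den_nonneg w)
  have hm := (uniq_den_cont hw).aestronglyMeasurable (μ := volume)
  refine ⟨⟨hm, (hasFiniteIntegral_iff_ofReal hn).2 (h.trans_lt hC)⟩, ?_⟩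
  rw [integral_eq_lintegral_of_nonneg_ae hn hm]
  exact ENNReal.toReal_mono hC.ne h

theorem uniq_energy {w : ι → R3 → R3} (hw : ∀ a, Continuous (w a)) (hi : Integrable (den w)) :
    energy w = ENNReal.ofReal (∫ x, den w x) := by
  rw [energy_eq hw, ofReal_integral_eq_lintegral_ofReal hi
    (Eventually.of_forall (uniq_den_nonneg w))]

theorem uniq_init {I : Set ℝ} (hu : CSol ν c u0 I u p) : u0 = fun a x => u a x 0 :=
  funext fun a => funext fun x => (hu.initial a x).symm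

theorem uniq_pair (hν : 0 < ν) (hT : 0 < T) (hc : ∀ a b d, c a b d = c d b a)
    {v0 : ι → R3 → R3} (hu : CSol ν c u0 (Icc 0 T) u p) (hv : CSol ν c v0 (Icc 0 T) v q)
    (eu : ∃ C < (⊤ : ℝ≥0∞), ∀ t ∈ Icc 0 T, energy (fun a x => u a x t) ≤ C)
    (ev : ∃ C < (⊤ : ℝ≥0∞), ∀ t ∈ Icc 0 T, energy (fun a x => v a x t) ≤ C) {M : ℝ}
    (hb : ∀ t ∈ Icc 0 T, ∀ a x i, |u a x t i| ≤ M ∧ ∀ j, |pd j (fun y => u a y t i) x| ≤ M) :
    ∃ E0, Pair ν c T E0 M M u p v q := by
  obtain ⟨C, hC, eu⟩ := eu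
  obtain ⟨D, hD, ev⟩ := ev
  have h1 := fun t ht => uniq_int (uniq_cont hu ht) hC (eu t ht)
  have h2 := fun t ht => uniq_int (uniq_cont hv ht) hD (ev t ht)
  exact ⟨max C.toReal D.toReal, hν, hT, hc, uniq_init hu ▸ hu, uniq_init hv ▸ hv,
    fun t ht => (h1 t ht).1, fun t ht => (h2 t ht).1,
    fun t ht => (h1 t ht).2.trans (le_max_left _ _),
    fun t ht => (h2 t ht).2.trans (le_max_right _ _),
    fun t ht a x i => (hb t ht a x i).1, fun t ht a x i j => (hb t ht a x i).2 j⟩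

/-- A discrete form of the Gronwall inequality. -/
theorem uniq_gronwall {e : ℝ → ℝ} {L B : ℝ} (hL : 0 ≤ L) (h0 : e 0 ≤ 0)
    (hB : ∀ t ∈ Icc 0 T, e t ≤ B)
    (hs : ∀ t0 t1 S : ℝ, 0 ≤ t0 → t0 ≤ t1 → t1 ≤ T → (∀ t ∈ Icc t0 t1, e t ≤ S) →
      e t1 ≤ e t0 + L * (t1 - t0) * S) : ∀ t ∈ Icc 0 T, e t ≤ 0 := by
  have hL' : 0 < 2 * (L + 1) := by linarith
  have key : ∀ k : ℕ, ∀ t ∈ Icc 0 T, t ≤ k / (2 * (L + 1)) → e t ≤ 0 := by
    intro k
    induction k with
    | zero =>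
      intro t ht h
      rw [Nat.cast_zero, zero_div] at h
      rwa [le_antisymm h ht.1]
    | succ k ih =>
      have hk : (0 : ℝ) ≤ k / (2 * (L + 1)) := div_nonneg k.cast_nonneg hL'.le
      have hn : ∀ n : ℕ, ∀ t ∈ Icc 0 T, t ≤ (k + 1 : ℕ) / (2 * (L + 1)) →
          e t ≤ max B 0 * (1 / 2) ^ n := by
        intro n
        induction n with
        | zero => exact fun t ht _ => by simpa using Or.inl (hB t ht)
        | succ n ihn =>
          intro t ht h
          have hS : 0 ≤ max B 0 * (1 / 2) ^ n := mul_nonneg (le_max_right _ _) (by positivity)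
          rcases le_total t (k / (2 * (L + 1))) with h1 | h1
          · exact (ih t ht h1).trans (mul_nonneg (le_max_right _ _) (by positivity))
          · have h2 := hs _ t _ hk h1 ht.2 fun s hs' =>
              ihn s ⟨hk.trans hs'.1, hs'.2.trans ht.2⟩ (hs'.2.trans h)
            have h3 := ih _ ⟨hk, h1.trans ht.2⟩ le_rfl
            have h4 : L * (t - k / (2 * (L + 1))) ≤ 1 / 2 := by
              have h5 : t - k / (2 * (L + 1)) ≤ 1 / (2 * (L + 1)) := by
                rw [Nat.cast_succ, add_div] at h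
                linarith
              refine (mul_le_mul_of_nonneg_left h5 hL).trans ?_
              rw [mul_one_div, div_le_iff₀ hL']
              linarith
            have h6 := mul_le_mul_of_nonneg_right h4 hS
            rw [pow_succ]
            linarith
      intro t ht h
      have hlim : Tendsto (fun n : ℕ => max B 0 * (1 / 2 : ℝ) ^ n) atTop (𝓝 (max B 0 * 0)) :=
        (tendsto_pow_atTop_nhds_zero_of_lt_one (by norm_num) (by norm_num)).const_mul _
      rw [mul_zero] at hlim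
      exact ge_of_tendsto' hlim fun n => hn n t ht h
  intro t ht
  obtain ⟨k, hk⟩ := exists_nat_ge (t * (2 * (L + 1)))
  exact key k t ht ((le_div_iff₀ hL').2 hk)

theorem CSol.unique (hν : 0 < ν) (hT : 0 < T) (hc : ∀ a b d, c a b d = c d b a)
    (hu : CSol ν c u0 (Icc 0 T) u p) (hv : CSol ν c u0 (Icc 0 T) v q)
    (eu : ∃ C < (⊤ : ℝ≥0∞), ∀ t ∈ Icc 0 T, energy (fun a x => u a x t) ≤ C)
    (ev : ∃ C < (⊤ : ℝ≥0∞), ∀ t ∈ Icc 0 T, energy (fun a x => v a x t) ≤ C)
    (hb : ∃ M : ℝ, ∀ t ∈ Icc 0 T, ∀ a x i,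
      |u a x t i| ≤ M ∧ ∀ j, |pd j (fun y => u a y t i) x| ≤ M) :
    ∀ t ∈ Icc 0 T, ∀ a x, v a x t = u a x t := by
  obtain ⟨M, hb⟩ := hb
  obtain ⟨E0, hP⟩ := uniq_pair hν hT hc hu hv eu ev (M := max M 0) fun t ht a x i =>
    ⟨(hb t ht a x i).1.trans (le_max_left _ _),
      fun j => ((hb t ht a x i).2 j).trans (le_max_left _ _)⟩
  obtain ⟨K, hK, hs⟩ := exists_step c
  have h0 : ∫ x, den (dif u v 0) x ≤ 0 := by
    simp [den, dif, hu.initial, hv.initial]
  have h1 := uniq_gronwall (e := fun t => ∫ x, den (dif u v t) x)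
    (mul_nonneg hK (le_max_right M 0)) h0 (fun t ht => (hP.integrable_den ht).2) (hs hP)
  intro t ht a x
  have hc' : Continuous (den (dif u v t)) :=
    uniq_den_cont fun a => (uniq_cont hv ht a).sub (uniq_cont hu ht a)
  have h2 := (integral_eq_zero_iff_of_nonneg (uniq_den_nonneg _) (hP.integrable_den ht).1).1
    (le_antisymm (h1 t ht) (integral_nonneg (uniq_den_nonneg _)))
  have h3 := congrFun ((hc'.ae_eq_iff_eq volume continuous_zero).1 h2) x
  have h4 := (Finset.sum_eq_zero_iff_of_nonneg fun _ _ =>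
    Finset.sum_nonneg fun _ _ => sq_nonneg _).1 h3 a (Finset.mem_univ a)
  rw [← norm_sq_eq_sum, sq_eq_zero_iff, norm_eq_zero] at h4
  exact sub_eq_zero.1 h4

theorem CSol.energy_le (hν : 0 < ν) (hT : 0 < T) (hc : ∀ a b d, c a b d = c d b a)
    (hv : CSol ν c u0 (Icc 0 T) v q)
    (ev : ∃ C < (⊤ : ℝ≥0∞), ∀ t ∈ Icc 0 T, energy (fun a x => v a x t) ≤ C) :
    ∀ t ∈ Icc 0 T, energy (fun a x => v a x t) ≤ energy u0 := by
  obtain ⟨E0, hP⟩ := uniq_pair hν hT hc (CSol.zero ν c (Icc 0 T)) hv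
    ⟨0, ENNReal.zero_lt_top, fun t _ => by simp [energy]⟩ ev (M := 0) fun t _ a x i =>
    ⟨by simp, fun j => by simp [pd_const]⟩
  obtain ⟨K, -, hs⟩ := exists_step c
  intro t ht
  have h0 : (0 : ℝ) ∈ Icc 0 T := ⟨le_rfl, hT.le⟩
  have h1 := hs hP 0 t _ le_rfl ht.1 ht.2 fun s hs' =>
    (hP.integrable_den ⟨hs'.1, hs'.2.trans ht.2⟩).2
  have h2 : ∀ s, dif (fun _ _ _ => 0) v s = fun a x => v a x s := fun s =>
    funext fun a => funext fun x => sub_zero _
  rw [h2, h2, mul_zero, zero_mul, zero_mul, add_zero] at h1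
  rw [uniq_init hv, uniq_energy (uniq_cont hv ht) (hP.iv t ht),
    uniq_energy (uniq_cont hv h0) (hP.iv 0 h0)]
  exact ENNReal.ofReal_le_ofReal h1

end

end Pool.Agent.Work.MP_6bf1e5_an.Ens
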