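import Pool.Agent.Work.MP_6bf1e5_an.Mat.Defs
import Pool.Agent.Work.MP_6bf1e5_an.Ens.NL
import Pool.Agent.Work.MP_6bf1e5_an.Ens.Ev
import Pool.Agent.Work.MP_6bf1e5_an.Ens.Basic
import Pool.Agent.Work.MP_6bf1e5_an.Ens.Conv
import Pool.Agent.Work.MP_6bf1e5_an.Ens.Stable
import Pool.Agent.Work.MP_6bf1e5_an.Ens.Seg
import Pool.Agent.Work.MP_6bf1e5_an.Ens.Planch
import Pool.Agent.Work.MP_6bf1e5_an.Ens.Sm
import Pool.Agent.Work.MP_6bf1e5_an.Ens.Uniq

-- merged part: Pool.Agent.Work.MP_6bf1e5_an.Mat.PhysF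
section
-- merged part: Pool.Agent.Work.MP_6bf1e5_an.Mat.RapB
section
/-!
The class `Rap`; compare the lemmas on `Adm` in Ens/Conv.lean. `norm_cv_le_weight`: bound the integrand by
`ρ ξ * (wt 0 η * wt 0 (ξ - η))` and use `exists_conv_wt`. For `Rap.cv` take `ρ = (1 + |ξ|)^(-N)`; continuity: the functions
`f exp (-|ξ| / k)` are `Adm`, and their convolutions converge uniformly on `{r ≤ |ξ|}` since
`1 - exp (-x) ≤ x` (or adapt the proof of `continuousOn_cv`).
-/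

open scoped ContDiff ENNReal FourierTransform Topology ComplexConjugate Matrix
open Set MeasureTheory Filter Metric Pool.Agent.Work.MP_6bf1e5_an.Ens

namespace Pool.Agent.Work.MP_6bf1e5_an.Mat

noncomputable section

variable {f g : R3 → ℂ}

theorem rapb_bound (h : Rap f) (N : ℕ) :
    ∃ C : ℝ, 0 ≤ C ∧ ∀ ξ, ξ ≠ 0 → ‖f ξ‖ ≤ C * (wt 0 ξ / (1 + ‖ξ‖) ^ N) := by
  obtain ⟨C, hC⟩ := h.bound N
  refine ⟨|C|, abs_nonneg C, fun ξ hξ => (hC ξ hξ).trans ?_⟩
  have := wt_nonneg 0 ξ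
  exact mul_le_mul_of_nonneg_right (le_abs_self C) (by positivity)

theorem rapb_wt (h : Rap f) : ∃ C : ℝ, 0 ≤ C ∧ ∀ ξ, ξ ≠ 0 → ‖f ξ‖ ≤ C * wt 0 ξ := by
  obtain ⟨C, hC, hb⟩ := rapb_bound h 0
  exact ⟨C, hC, fun ξ hξ => by simpa using hb ξ hξ⟩

theorem rapb_H (ξ : R3) : wt 0 ξ / (1 + ‖ξ‖) ^ 3 ≤ wtH 1 ‖ξ‖ := by
  have hs := norm_nonneg ξ
  have hm : 0 < max ‖ξ‖ (1 / 2) := lt_max_of_lt_right (by norm_num)
  have h1 : max ‖ξ‖ (1 / 2) ≤ 1 + ‖ξ‖ := max_le (by linarith only []) (by linarith only [hs])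
  have h2 : (max ‖ξ‖ (1 / 2)) ^ (5 / 2 : ℝ) ≤ (1 + ‖ξ‖) ^ 3 := by
    refine (Real.rpow_le_rpow hm.le h1 (by norm_num)).trans ?_
    rw [← Real.rpow_natCast]
    exact Real.rpow_le_rpow_of_exponent_le (by linarith only [hs]) (by norm_num)
  rw [wt, wtH, zero_mul, neg_zero, Real.exp_zero, mul_one, Real.rpow_neg hm.le, div_eq_mul_inv]
  exact mul_le_mul_of_nonneg_left (inv_anti₀ (Real.rpow_pos_of_pos hm _) h2) (by positivity)

theorem rapb_symb {m : R3 → ℂ} (hf : Rap f) (hm : ContinuousOn m {0}ᶜ) {C : ℝ} {n : ℕ}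
    (hb : ∀ ξ, ξ ≠ 0 → ‖m ξ‖ ≤ C * (1 + ‖ξ‖) ^ n) : Rap fun ξ => m ξ * f ξ := by
  refine ⟨hm.mul hf.cont, fun N => ?_⟩
  obtain ⟨D, -, h1⟩ := rapb_bound hf (N + n)
  refine ⟨C * D, fun ξ hξ => (conv_mul_le (hb ξ hξ) (h1 ξ hξ)).trans (le_of_eq ?_)⟩
  have : 1 + ‖ξ‖ ≠ 0 := by positivity
  rw [pow_add]
  field_simp

theorem Rap.integrable (h : Rap f) : Integrable f := by
  obtain ⟨C, hC, hb⟩ := rapb_bound h 3
  refine (wt_H_integrable.const_mul C).mono' (aesm_of_continuousOn h.cont) ?_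
  filter_upwards [Measure.ae_ne volume (0 : R3)] with ξ hξ
  exact (hb ξ hξ).trans (mul_le_mul_of_nonneg_left (rapb_H ξ) hC)

theorem Rap.integrable_pow (h : Rap f) (n : ℕ) : Integrable fun ξ => ‖ξ‖ ^ n * ‖f ξ‖ := by
  have h1 : Rap fun ξ => ((‖ξ‖ ^ n : ℝ) : ℂ) * f ξ := by
    refine rapb_symb h (m := fun ξ => ((‖ξ‖ ^ n : ℝ) : ℂ)) (C := 1) (n := n) (by fun_prop)
      fun ξ _ => ?_
    rw [Complex.norm_real, Real.norm_of_nonneg (by positivity), one_mul]
    exact pow_le_pow_left₀ (norm_nonneg _) (by linarith only []) n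
  refine h1.integrable.norm.congr (Eventually.of_forall fun ξ => ?_)
  simp only
  rw [norm_mul, Complex.norm_real, Real.norm_of_nonneg (by positivity)]

theorem Rap.add (hf : Rap f) (hg : Rap g) : Rap fun ξ => f ξ + g ξ := by
  refine ⟨hf.cont.add hg.cont, fun N => ?_⟩
  obtain ⟨C, h1⟩ := hf.bound N
  obtain ⟨D, h2⟩ := hg.bound N
  refine ⟨C + D, fun ξ hξ => ?_⟩
  rw [add_mul]
  exact (norm_add_le _ _).trans (add_le_add (h1 ξ hξ) (h2 ξ hξ))

theorem Rap.sum {α : Type} (s : Finset α) {f : α → R3 → ℂ} (hf : ∀ a ∈ s, Rap (f a)) :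
    Rap fun ξ => ∑ a ∈ s, f a ξ := by
  classical
  induction s using Finset.induction_on with
  | empty => exact ⟨continuousOn_const, fun _ => ⟨0, fun ξ _ => by simp⟩⟩
  | insert a s ha ih =>
    simp only [Finset.sum_insert ha]
    exact (hf a (Finset.mem_insert_self a s)).add
      (ih fun b hb => hf b (Finset.mem_insert_of_mem hb))

theorem Rap.const_mul (hf : Rap f) (z : ℂ) : Rap fun ξ => z * f ξ :=
  rapb_symb hf (m := fun _ => z) (C := ‖z‖) (n := 0) continuousOn_const fun ξ _ => by simp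

theorem Rap.coord (hf : Rap f) (j : Fin 3) : Rap fun ξ => (ξ j : ℂ) * f ξ := by
  refine rapb_symb hf (m := fun ξ => (ξ j : ℂ)) (C := 1) (n := 1) (by fun_prop) fun ξ _ => ?_
  have := PiLp.norm_apply_le ξ j
  rw [Complex.norm_real]
  linarith only [this]

theorem norm_cv_le_weight : ∃ K : ℝ, 0 ≤ K ∧ ∀ (f g : R3 → ℂ) (ρ : R3 → ℝ) (Cf Cg : ℝ),
    0 ≤ Cf → 0 ≤ Cg → (∀ ξ, 0 ≤ ρ ξ) → (∀ η ζ, ρ η * ρ ζ ≤ ρ (η + ζ)) →
    (∀ ξ, ξ ≠ 0 → ‖f ξ‖ ≤ Cf * (wt 0 ξ * ρ ξ)) → (∀ ξ, ξ ≠ 0 → ‖g ξ‖ ≤ Cg * (wt 0 ξ * ρ ξ)) →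
    ∀ ξ, ξ ≠ 0 → ‖cv f g ξ‖ ≤ K * Cf * Cg * (w2 0 ξ * ρ ξ) := by
  obtain ⟨K, hK0, hK⟩ := exists_conv_wt
  refine ⟨K, hK0, fun f g ρ Cf Cg hf hg h0 hρ bf bg ξ hξ => ?_⟩
  obtain ⟨h1, h2⟩ := hK 0 le_rfl ξ hξ
  have hξ0 := h0 ξ
  have h3 : ‖cv f g ξ‖ ≤ ∫ η, Cf * Cg * ρ ξ * (wt 0 η * wt 0 (ξ - η)) := by
    refine norm_integral_le_of_norm_le (h1.const_mul (Cf * Cg * ρ ξ)) ?_
    filter_upwards [conv_ae ξ] with η hη
    have a1 := hρ η (ξ - η)
    rw [add_sub_cancel] at a1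
    have a2 := wt_nonneg 0 η
    have a3 := wt_nonneg 0 (ξ - η)
    calc _ ≤ Cf * Cg * (wt 0 η * ρ η * (wt 0 (ξ - η) * ρ (ξ - η))) :=
        conv_mul_le (bf η hη.1) (bg _ hη.2)
      _ = Cf * Cg * (ρ η * ρ (ξ - η)) * (wt 0 η * wt 0 (ξ - η)) := by ring
      _ ≤ _ := by gcongr
  rw [integral_const_mul] at h3
  calc ‖cv f g ξ‖ ≤ Cf * Cg * ρ ξ * (K * w2 0 ξ) :=
      h3.trans (mul_le_mul_of_nonneg_left h2 (by positivity))
    _ = K * Cf * Cg * (w2 0 ξ * ρ ξ) := by ring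

theorem norm_NL_le_weight {ι : Type} [Fintype ι] (c : ι → ι → ι → ℝ) : ∃ K : ℝ, 0 ≤ K ∧
    ∀ (f : R3 → V ι) (ρ : R3 → ℝ) (C : ℝ), 0 ≤ C → (∀ ξ, 0 ≤ ρ ξ) →
    (∀ η ζ, ρ η * ρ ζ ≤ ρ (η + ζ)) → (∀ ξ, ‖f ξ‖ ≤ C * (wt 0 ξ * ρ ξ)) →
    ∀ ξ, ξ ≠ 0 → ‖NL c f f ξ‖ ≤ K * C ^ 2 * (ρ ξ / ‖ξ‖) := by
  obtain ⟨K, hK, h⟩ := norm_cv_le_weight
  have hS : 0 ≤ ∑ a, ∑ b, ∑ d, |c a b d| := by positivity
  refine ⟨2 * Real.pi * (∑ a, ∑ b, ∑ d, |c a b d|) * 18 * K, by positivity,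
    fun f ρ C hC h0 hρ bf ξ hξ => ?_⟩
  have hw := h0 ξ
  have hn := norm_pos_iff.2 hξ
  refine (pi_norm_le_iff_of_nonneg (by positivity)).2 fun a =>
    (pi_norm_le_iff_of_nonneg (by positivity)).2 fun i => ?_
  have h1 : ∀ b d, ‖∑ k, ∑ j, ((lr ξ i k * ξ j : ℝ) : ℂ) *
      cv (fun η => f η b j) (fun η => f η d k) ξ‖ ≤ 18 * K * C ^ 2 * (ρ ξ / ‖ξ‖) := by
    intro b d
    have h2 : ∀ k j, ‖((lr ξ i k * ξ j : ℝ) : ℂ) * cv (fun η => f η b j) (fun η => f η d k) ξ‖ ≤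
        2 * ‖ξ‖ * (K * C * C * (w2 0 ξ * ρ ξ)) := by
      intro k j
      rw [norm_mul, Complex.norm_real, Real.norm_eq_abs, abs_mul]
      exact mul_le_mul (mul_le_mul (abs_lr_le ξ i k) (nl_coord ξ j) (abs_nonneg _) zero_le_two)
        (h _ _ ρ C C hC hC h0 hρ (fun η _ => (nl_comp _ b j).trans (bf η))
          (fun η _ => (nl_comp _ d k).trans (bf η)) ξ hξ) (norm_nonneg _) (by positivity)
    refine (norm_sum_le _ _).trans ((Finset.sum_le_sum fun k _ => (norm_sum_le _ _).trans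
      (Finset.sum_le_sum fun j _ => h2 k j)).trans (le_of_eq ?_))
    simp only [Finset.sum_const, Finset.card_univ, Fintype.card_fin, nsmul_eq_mul, w2, zero_mul,
      neg_zero, Real.exp_zero]
    push_cast
    field_simp
    ring
  have h3 : ‖∑ b, ∑ d, (c a b d : ℂ) * ∑ k, ∑ j, ((lr ξ i k * ξ j : ℝ) : ℂ) *
      cv (fun η => f η b j) (fun η => f η d k) ξ‖ ≤
      (∑ b, ∑ d, |c a b d|) * (18 * K * C ^ 2 * (ρ ξ / ‖ξ‖)) := by
    rw [Finset.sum_mul]
    refine (norm_sum_le _ _).trans (Finset.sum_le_sum fun b _ => ?_)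
    rw [Finset.sum_mul]
    refine (norm_sum_le _ _).trans (Finset.sum_le_sum fun d _ => ?_)
    rw [norm_mul, Complex.norm_real, Real.norm_eq_abs]
    exact mul_le_mul_of_nonneg_left (h1 b d) (abs_nonneg _)
  have h4 : ∑ b, ∑ d, |c a b d| ≤ ∑ a, ∑ b, ∑ d, |c a b d| :=
    Finset.single_le_sum (f := fun a => ∑ b, ∑ d, |c a b d|) (fun a _ => by positivity)
      (Finset.mem_univ a)
  have h5 : ‖(2 * Real.pi * Complex.I : ℂ)‖ = 2 * Real.pi := by
    simp [abs_of_pos Real.pi_pos]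
  rw [NL, norm_mul, h5]
  calc _ ≤ 2 * Real.pi * ((∑ a, ∑ b, ∑ d, |c a b d|) * (18 * K * C ^ 2 * (ρ ξ / ‖ξ‖))) :=
        mul_le_mul_of_nonneg_left (h3.trans (mul_le_mul_of_nonneg_right h4 (by positivity)))
          (by positivity)
    _ = _ := by ring

theorem rapb_piece (hf : Rap f) (hg : Rap g) {ξ0 : R3} {r : ℝ} (hr : 0 < r) {w : R3 → R3 → ℂ}
    (hw : Continuous fun z : R3 × R3 => w z.1 z.2) (bw : ∀ η ζ, ‖w η ζ‖ ≤ 1)
    (sw : ∀ ξ η, dist ξ ξ0 < r → w η (ξ - η) ≠ 0 → r ≤ ‖ξ - η‖) :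
    ContinuousAt (fun ξ => ∫ η, w η (ξ - η) * (f η * g (ξ - η))) ξ0 := by
  obtain ⟨C, hC, bg⟩ := rapb_wt hg
  refine continuousAt_of_dominated (bound := fun η => ‖f η‖ * (C * r ^ (-(5 / 2) : ℝ)))
    (Eventually.of_forall fun ξ => ?_) ?_ (hf.integrable.norm.mul_const _) ?_
  · refine AEStronglyMeasurable.mul ?_ (conv_aesm hf.cont hg.cont ξ)
    exact (hw.comp (f := fun η : R3 => (η, ξ - η)) (by fun_prop)).aestronglyMeasurable
  · filter_upwards [ball_mem_nhds ξ0 hr] with ξ hξ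
    filter_upwards [conv_ae ξ] with η hη
    by_cases h : w η (ξ - η) = 0
    · rw [h, zero_mul, norm_zero]
      positivity
    · have h2 := wt_le_of_le le_rfl hr (sw _ η hξ h)
      have h3 := (bg _ hη.2).trans (mul_le_mul_of_nonneg_left h2 hC)
      rw [norm_mul, norm_mul]
      exact (mul_le_of_le_one_left (by positivity) (bw _ _)).trans
        (mul_le_mul_of_nonneg_left h3 (norm_nonneg _))
  · filter_upwards [conv_ae ξ0] with η hη
    refine ContinuousAt.mul ?_ (continuousAt_const.mul ?_)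
    · exact (hw.comp (f := fun ξ : R3 => (η, ξ - η)) (by fun_prop)).continuousAt
    · exact ContinuousAt.comp (f := fun ξ : R3 => ξ - η)
        (hg.cont.continuousAt (isOpen_compl_singleton.mem_nhds hη.2)) (by fun_prop)

theorem rapb_cont (hf : Rap f) (hg : Rap g) : ContinuousOn (cv f g) {0}ᶜ := by
  intro ξ0 hξ0
  have hr : 0 < ‖ξ0‖ / 4 := div_pos (norm_pos_iff.2 hξ0) four_pos
  obtain ⟨χ, hc, h0, h1, h2, h3⟩ := conv_cut hr
  obtain ⟨Cf, -, bf⟩ := rapb_wt hf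
  obtain ⟨Cg, -, bg⟩ := rapb_wt hg
  have b1 : ∀ η, ‖(χ η : ℂ)‖ ≤ 1 := fun η => by
    rw [Complex.norm_real, Real.norm_of_nonneg (h0 η)]
    exact h1 η
  have b2 : ∀ η, ‖((1 - χ η : ℝ) : ℂ)‖ ≤ 1 := fun η => by
    rw [Complex.norm_real, Real.norm_of_nonneg (sub_nonneg.2 (h1 η))]
    linarith only [h0, h0 η]
  have p1 := rapb_piece hf hg (ξ0 := ξ0) hr (w := fun η _ => (χ η : ℂ)) (by fun_prop)
    (fun η _ => b1 η) (fun ξ η hξ hη => by
      have a1 := h2 η fun h => hη (by rw [h, Complex.ofReal_zero])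
      have a2 : ‖ξ0‖ ≤ ‖ξ - η‖ + ‖η‖ + dist ξ ξ0 := by
        rw [dist_comm, dist_eq_norm]
        calc ‖ξ0‖ = ‖ξ - η + η + (ξ0 - ξ)‖ := by congr 1; abel
          _ ≤ _ := norm_add₃_le
      linarith only [hξ, a1, a2])
  have p2 := rapb_piece hg hf (ξ0 := ξ0) hr (w := fun _ ζ => ((1 - χ ζ : ℝ) : ℂ)) (by fun_prop)
    (fun _ ζ => b2 ζ) (fun ξ η _ hη => h3 _ fun h => hη (by
      rw [h, sub_self, Complex.ofReal_zero]))
  have key : ∀ ξ ∈ ({0}ᶜ : Set R3), cv f g ξ = (∫ η, (χ η : ℂ) * (f η * g (ξ - η))) +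
      ∫ η, ((1 - χ (ξ - η) : ℝ) : ℂ) * (g η * f (ξ - η)) := by
    intro ξ hξ
    have hi := integrable_cv le_rfl hf.cont hg.cont bf bg hξ
    have i1 : Integrable fun η => (χ η : ℂ) * (f η * g (ξ - η)) :=
      hi.bdd_mul (c := 1) (Continuous.aestronglyMeasurable (by fun_prop))
        (Eventually.of_forall b1)
    have i2 : Integrable fun η => ((1 - χ η : ℝ) : ℂ) * (f η * g (ξ - η)) :=
      hi.bdd_mul (c := 1) (Continuous.aestronglyMeasurable (by fun_prop))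
        (Eventually.of_forall b2)
    have e := integral_sub_left_eq_self
      (fun η => ((1 - χ η : ℝ) : ℂ) * (f η * g (ξ - η))) volume ξ
    simp only [sub_sub_cancel] at e
    have e' : ∫ η, ((1 - χ (ξ - η) : ℝ) : ℂ) * (g η * f (ξ - η)) =
        ∫ η, ((1 - χ η : ℝ) : ℂ) * (f η * g (ξ - η)) := by
      rw [← e]
      exact integral_congr_ae (Eventually.of_forall fun η => by simp only [mul_comm])
    rw [e', ← integral_add i1 i2, cv]
    refine integral_congr_ae (Eventually.of_forall fun η => ?_)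
    simp only
    push_cast
    ring
  exact (p1.add p2).continuousWithinAt.congr key (key ξ0 hξ0)

theorem Rap.cv (hf : Rap f) (hg : Rap g) : Rap (cv f g) := by
  refine ⟨rapb_cont hf hg, fun N => ?_⟩
  obtain ⟨K, hK, h⟩ := norm_cv_le_weight
  obtain ⟨Cf, hCf, bf⟩ := rapb_bound hf (N + 1)
  obtain ⟨Cg, hCg, bg⟩ := rapb_bound hg (N + 1)
  refine ⟨K * Cf * Cg, fun ξ hξ => (h f g (fun η => ((1 + ‖η‖) ^ (N + 1))⁻¹) Cf Cg hCf hCg
    (fun η => by positivity) (fun η ζ => ?_) bf bg ξ hξ).trans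
    (mul_le_mul_of_nonneg_left ?_ (by positivity))⟩
  · have a1 := norm_nonneg η
    have a2 := norm_nonneg ζ
    have a3 := norm_add_le η ζ
    rw [← mul_inv, ← mul_pow]
    exact inv_anti₀ (by positivity) (pow_le_pow_left₀ (by positivity) (by linarith only [a3, a1, a2, mul_nonneg_of_nonpos_of_nonpos (Mathlib.Tactic.Linarith.sub_nonpos_of_le a1) (Mathlib.Tactic.Linarith.sub_nonpos_of_le a2)]) _)
  · have hs := norm_nonneg ξ
    have a1 : ‖ξ‖ ^ (1 / 2 : ℝ) ≤ 1 + ‖ξ‖ :=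
      (Real.rpow_le_rpow hs (show ‖ξ‖ ≤ 1 + ‖ξ‖ by linarith) (by norm_num)).trans
        (Real.rpow_le_self_of_one_le (by linarith) (by norm_num))
    have a2 := wt_nonneg 0 ξ
    have a3 : 1 + ‖ξ‖ ≠ 0 := by positivity
    rw [w2_eq]
    calc _ ≤ (1 + ‖ξ‖) * wt 0 ξ * ((1 + ‖ξ‖) ^ (N + 1))⁻¹ := by gcongr
      _ = _ := by
        rw [pow_succ]
        field_simp

end

end Pool.Agent.Work.MP_6bf1e5_an.Mat
end

-- merged part: Pool.Agent.Work.MP_6bf1e5_an.Mat.FtC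
section
/-!
Inversion. `eq_zero_of_lap`: if `d x0 > 0` consider `d + ε |y|²` on a large closed ball, with `ε R² ` small compared with
`d x0`; at an interior maximum all second derivatives along coordinate lines are nonpositive, while the Laplacian is `6 ε`
(or use a bounded subharmonic perturbation). `ev_hat`: `v = re (ev (hat u))` is smooth (`contDiff_ev`), `lap v` and `v` tend
to `0` (`tendsto_ev`, `pd_re_ev`), and `lap (lap v) = lap (lap u)` by `Sy.ev_ft` and `ev_congr`; apply `eq_zero_of_lap`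
twice, and `ev_real` with `hat_neg`.
-/

open scoped ContDiff ENNReal FourierTransform Topology ComplexConjugate Matrix
open Set MeasureTheory Filter Metric Pool.Agent.Work.MP_6bf1e5_an.Ens

namespace Pool.Agent.Work.MP_6bf1e5_an.Mat

noncomputable section

theorem ftc_line {e : R3 → ℝ} (he : ContDiff ℝ ∞ e) (z : R3) (j : Fin 3) (t : ℝ) :
    HasDerivAt (fun s : ℝ => e (z + s • EuclideanSpace.single j (1 : ℝ)))
      (pd j e (z + t • EuclideanSpace.single j (1 : ℝ))) t := by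
  have h1 : HasDerivAt (fun s : ℝ => z + s • (EuclideanSpace.single j (1 : ℝ) : R3))
      (EuclideanSpace.single j (1 : ℝ)) t := by
    simpa using ((hasDerivAt_id t).smul_const (EuclideanSpace.single j (1 : ℝ) : R3)).const_add z
  exact (he.differentiable (by simp) _).hasFDerivAt.comp_hasDerivAt t h1

theorem ftc_pd_pd_nonpos {e : R3 → ℝ} (he : ContDiff ℝ ∞ e) {z : R3} (hz : IsLocalMax e z)
    (j : Fin 3) : pd j (pd j e) z ≤ 0 := by
  by_contra hc
  rw [not_le] at hc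
  set φ : ℝ → ℝ := fun s => e (z + s • EuclideanSpace.single j (1 : ℝ)) with hφ
  have hd : deriv φ = fun t => pd j e (z + t • EuclideanSpace.single j (1 : ℝ)) :=
    funext fun t => (ftc_line he z j t).deriv
  have hdd : deriv (deriv φ) 0 = pd j (pd j e) z := by
    rw [hd, (ftc_line (contDiff_pd he j) z j 0).deriv]
    simp
  have hmax : IsLocalMax φ 0 := by
    have hc' : ContinuousAt (fun s : ℝ => z + s • (EuclideanSpace.single j (1 : ℝ) : R3)) 0 := by
      fun_prop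
    have hz' : IsLocalMax e (z + (0 : ℝ) • (EuclideanSpace.single j (1 : ℝ) : R3)) := by
      simpa using hz
    exact hz'.comp_continuous (g := fun s : ℝ => z + s • (EuclideanSpace.single j (1 : ℝ) : R3)) hc'
  have hmin : IsLocalMin φ 0 :=
    isLocalMin_of_deriv_deriv_pos (by rw [hdd]; exact hc) hmax.deriv_eq_zero
      (ftc_line he z j 0).continuousAt
  have hev : φ =ᶠ[𝓝 0] fun _ => φ 0 := by
    filter_upwards [hmax, hmin] with s h1 h2
    exact le_antisymm h1 h2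
  have := hev.deriv.deriv_eq
  rw [hdd] at this
  simp at this
  exact hc.ne' this

theorem ftc_lap_add {f g : R3 → ℝ} (hf : ContDiff ℝ ∞ f) (hg : ContDiff ℝ ∞ g) (y : R3) :
    lap (fun x => f x + g x) y = lap f y + lap g y := by
  unfold lap
  rw [← Finset.sum_add_distrib]
  refine Finset.sum_congr rfl fun j _ => ?_
  have : pd j (fun x => f x + g x) = fun x => pd j f x + pd j g x :=
    funext fun x => pd_add (hf.differentiable (by simp) x) (hg.differentiable (by simp) x) j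
  rw [this, pd_add ((contDiff_pd hf j).differentiable (by simp) y)
    ((contDiff_pd hg j).differentiable (by simp) y)]

theorem ftc_lap_const_mul (r : ℝ) (f : R3 → ℝ) (y : R3) :
    lap (fun x => r * f x) y = r * lap f y := by
  unfold lap
  rw [Finset.mul_sum]
  refine Finset.sum_congr rfl fun j _ => ?_
  have : pd j (fun x => r * f x) = fun x => r * pd j f x := funext fun x => pd_const_mul r f j x
  rw [this, pd_const_mul]

theorem ftc_lap_sub {f g : R3 → ℝ} (hf : ContDiff ℝ ∞ f) (hg : ContDiff ℝ ∞ g) (y : R3) :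
    lap (fun x => f x - g x) y = lap f y - lap g y := by
  have h := ftc_lap_add hf (contDiff_const.mul hg : ContDiff ℝ ∞ fun x => (-1 : ℝ) * g x) y
  rw [ftc_lap_const_mul] at h
  simpa [sub_eq_add_neg] using h

theorem ftc_contDiff_lap {f : R3 → ℝ} (hf : ContDiff ℝ ∞ f) : ContDiff ℝ ∞ (lap f) := by
  unfold lap
  exact ContDiff.sum fun j _ => contDiff_pd (contDiff_pd hf j) j

theorem ftc_lap_sq (y : R3) : lap (fun x : R3 => x 0 * x 0) y = 2 := by
  have hc : ∀ x : R3, DifferentiableAt ℝ (fun x : R3 => x 0) x := fun x => by fun_prop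
  have h1 : ∀ j, pd j (fun x : R3 => x 0 * x 0)
      = fun x : R3 => (if (0 : Fin 3) = j then 2 else 0) * x 0 := by
    intro j
    funext x
    rw [pd_mul (hc x) (hc x), pd_coord]
    split_ifs <;> ring
  unfold lap
  simp only [h1, pd_const_mul, pd_coord, Fin.sum_univ_three]
  simp

theorem ftc_nonpos_of_lap {d : R3 → ℝ} (hd : ContDiff ℝ ∞ d) (h : ∀ y, lap d y = 0)
    (h0 : Tendsto d (cocompact R3) (𝓝 0)) (y : R3) : d y ≤ 0 := by
  by_contra hc
  rw [not_le] at hc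
  have h1 : ∀ᶠ x in cocompact R3, d x < d y / 2 := h0.eventually (gt_mem_nhds (half_pos hc))
  obtain ⟨K, hK, hK'⟩ := mem_cocompact.mp h1
  obtain ⟨R, hR⟩ := (hK.isBounded.insert y).subset_ball (0 : R3)
  have hy : ‖y‖ < R := by simpa using hR (mem_insert y K)
  have hR0 : 0 < R := (norm_nonneg y).trans_lt hy
  set ε : ℝ := d y / 2 / R ^ 2 with hε
  have hε0 : 0 < ε := by positivity
  have hq : ContDiff ℝ ∞ fun x : R3 => ε * (x 0 * x 0) := by fun_prop
  have he : ContDiff ℝ ∞ fun x : R3 => d x + ε * (x 0 * x 0) := hd.add hq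
  obtain ⟨z, hz, hmax⟩ := (isCompact_closedBall (0 : R3) R).exists_isMaxOn
    ⟨y, by simpa using hy.le⟩ he.continuous.continuousOn
  have hz' : ‖z‖ ≤ R := by simpa using hz
  have hyz : d y + ε * (y 0 * y 0) ≤ d z + ε * (z 0 * z 0) := hmax (by simpa using hy.le)
  have hlt : ‖z‖ < R := by
    refine lt_of_le_of_ne hz' fun hzR => ?_
    have hzK : z ∉ K := fun hk => by
      have := hR (mem_insert_of_mem y hk)
      simp [hzR] at this
    have h2 : d z < d y / 2 := hK' hzK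
    have h3 : z 0 * z 0 ≤ R ^ 2 := by
      rw [← hzR, norm_sq_eq_sum, Fin.sum_univ_three]
      linarith only [sq_nonneg (z 1), sq_nonneg (z 2), sq_nonneg (z.ofLp (2 : Fin (3 : ℕ))), sq_nonneg (z.ofLp (1 : Fin (3 : ℕ)))]
    have h4 : ε * (z 0 * z 0) ≤ d y / 2 := by
      calc ε * (z 0 * z 0) ≤ ε * R ^ 2 := by gcongr
        _ = d y / 2 := by rw [hε]; field_simp
    linarith only [hyz, h2, h4, hε0, mul_nonneg hε0.le (mul_self_nonneg (y 0)), mul_self_nonneg (y.ofLp (0 : Fin (3 : ℕ)))]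
  have hloc : IsLocalMax (fun x : R3 => d x + ε * (x 0 * x 0)) z :=
    hmax.isLocalMax (closedBall_mem_nhds_of_mem (by simpa using hlt))
  have h5 : lap (fun x : R3 => d x + ε * (x 0 * x 0)) z ≤ 0 :=
    Finset.sum_nonpos fun j _ => ftc_pd_pd_nonpos he hloc j
  rw [ftc_lap_add hd hq, ftc_lap_const_mul, ftc_lap_sq, h z] at h5
  linarith only [hε0, h5]

theorem eq_zero_of_lap {d : R3 → ℝ} (hd : ContDiff ℝ ∞ d) (h : ∀ y, lap d y = 0)
    (h0 : Tendsto d (cocompact R3) (𝓝 0)) (y : R3) : d y = 0 := by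
  have h1 := ftc_nonpos_of_lap hd h h0 y
  have h2 := ftc_nonpos_of_lap (d := fun x => (-1 : ℝ) * d x) (contDiff_const.mul hd)
    (fun x => by rw [ftc_lap_const_mul, h x, mul_zero]) (by simpa using h0.const_mul (-1 : ℝ)) y
  linarith only [h2, h1]

theorem Sy.rap_hat {u : R3 → ℝ} (h : Sy (-1) u) :
    Rap (hat u) ∧ ∃ C : ℝ, ∀ ξ, ‖hat u ξ‖ ≤ C * w2 0 ξ := rap_hat_of_low h (norm_ft_low h)

theorem ftc_rap_pd {f : R3 → ℂ} (hf : Rap f) (j : Fin 3) :
    Rap fun ξ => 2 * Real.pi * Complex.I * (ξ j : ℂ) * f ξ := by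
  simpa only [mul_assoc] using (hf.coord j).const_mul (2 * (Real.pi * Complex.I))

theorem ftc_pd_re {f : R3 → ℂ} (hf : Rap f) (j : Fin 3) : pd j (fun y => (ev f y).re)
    = fun x => (ev (fun ξ => 2 * Real.pi * Complex.I * (ξ j : ℂ) * f ξ) x).re :=
  funext fun x => pd_re_ev hf.integrable (by simpa using hf.integrable_pow 1) j x

theorem ftc_symb (f : R3 → ℂ) (ξ : R3) :
    ∑ j : Fin 3, 2 * Real.pi * Complex.I * (ξ j : ℂ) * (2 * Real.pi * Complex.I * (ξ j : ℂ) * f ξ)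
      = -(((2 * Real.pi * ‖ξ‖) ^ 2 : ℝ) : ℂ) * f ξ := by
  rw [mul_pow, norm_sq_eq_sum, Fin.sum_univ_three, Fin.sum_univ_three]
  push_cast
  linear_combination (4 * (Real.pi : ℂ) ^ 2 * ((ξ 0 : ℂ) ^ 2 + (ξ 1 : ℂ) ^ 2 + (ξ 2 : ℂ) ^ 2) * f ξ)
    * Complex.I_sq

theorem ftc_rap_lap {f : R3 → ℂ} (hf : Rap f) :
    Rap fun ξ => -(((2 * Real.pi * ‖ξ‖) ^ 2 : ℝ) : ℂ) * f ξ := by
  have := Rap.sum Finset.univ fun j _ => ftc_rap_pd (ftc_rap_pd hf j) j
  simpa only [ftc_symb] using this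

theorem ftc_lap_re {f : R3 → ℂ} (hf : Rap f) : lap (fun y => (ev f y).re)
    = fun x => (ev (fun ξ => -(((2 * Real.pi * ‖ξ‖) ^ 2 : ℝ) : ℂ) * f ξ) x).re := by
  funext x
  unfold lap
  simp only [ftc_pd_re hf, fun j => ftc_pd_re (ftc_rap_pd hf j) j]
  rw [← Complex.re_sum, ← ev_sum _ fun j _ => (ftc_rap_pd (ftc_rap_pd hf j) j).integrable]
  simp only [ftc_symb]

theorem ftc_tendsto_re (f : R3 → ℂ) : Tendsto (fun y => (ev f y).re) (cocompact R3) (𝓝 0) :=
  (Complex.continuous_re.tendsto 0).comp (tendsto_ev f)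

theorem Sy.ev_hat {u : R3 → ℝ} (h : Sy (-1) u) (x : R3) : ev (hat u) x = u x := by
  have hr := h.rap_hat.1
  have hu : ContDiff ℝ ∞ u := h.smooth ()
  have hv : ContDiff ℝ ∞ fun y => (ev (hat u) y).re :=
    Complex.reCLM.contDiff.comp (contDiff_ev hr.integrable.aestronglyMeasurable hr.integrable_pow)
  have h3 : Sy (-1 - 2) (lap u) := SyF.lap h
  have h5 : Sy (-1 - 2 - 2) (lap (lap u)) := SyF.lap h3
  have hll : ∀ y, lap (lap fun y => (ev (hat u) y).re) y = lap (lap u) y := by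
    intro y
    rw [ftc_lap_re hr, ftc_lap_re (ftc_rap_lap hr)]
    have : ev (fun ξ => -(((2 * Real.pi * ‖ξ‖) ^ 2 : ℝ) : ℂ) *
        (-(((2 * Real.pi * ‖ξ‖) ^ 2 : ℝ) : ℂ) * hat u ξ)) = ev (ft (lap (lap u))) := by
      refine ev_congr fun ξ hξ => ?_
      have h1 : (‖ξ‖ : ℂ) ≠ 0 := by exact_mod_cast norm_ne_zero_iff.mpr hξ
      have h2 : (Real.pi : ℂ) ≠ 0 := by exact_mod_cast Real.pi_ne_zero
      unfold hat
      push_cast
      field_simp
    simp only [this]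
    rw [h5.ev_ft (by norm_num), Complex.ofReal_re]
  have hl : ∀ y, lap (fun y => (ev (hat u) y).re) y - lap u y = 0 := by
    refine eq_zero_of_lap ((ftc_contDiff_lap hv).sub (ftc_contDiff_lap hu)) (fun y => ?_) ?_
    · rw [ftc_lap_sub (ftc_contDiff_lap hv) (ftc_contDiff_lap hu), hll, sub_self]
    · have := (ftc_tendsto_re fun ξ => -(((2 * Real.pi * ‖ξ‖) ^ 2 : ℝ) : ℂ) * hat u ξ).sub
        (h3.tendsto (by norm_num))
      rw [sub_zero] at this
      rw [ftc_lap_re hr]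
      exact this
  have h0 : (ev (hat u) x).re - u x = 0 := by
    refine eq_zero_of_lap (d := fun y => (ev (hat u) y).re - u y) (hv.sub hu) (fun y => ?_) ?_ x
    · rw [ftc_lap_sub hv hu, hl]
    · simpa using (ftc_tendsto_re (hat u)).sub (h.tendsto le_rfl)
  rw [← ev_real (hat_neg u) x, sub_eq_zero.mp h0]

end

end Pool.Agent.Work.MP_6bf1e5_an.Mat
end

-- merged part: Pool.Agent.Work.MP_6bf1e5_an.Ens.Ray
section
/-!
The derivative along rays. For `μ > 0` the function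
`ξ ↦ μ² f (μ ξ) - f ξ + ∫ m in 1..μ, m h (m ξ)` is continuous off `0`, integrable, and its inverse Fourier
integral vanishes (Fubini, `ev_scale`, and `d/dm (m⁻¹ u (m⁻¹ y)) = -m⁻² (u + y·∇u) (m⁻¹ y)`). Apply `ev_inj`
and the fundamental theorem of calculus.
-/

open scoped ContDiff ENNReal FourierTransform Topology ComplexConjugate
open Set MeasureTheory Filter Polynomial Metric

namespace Pool.Agent.Work.MP_6bf1e5_an.Ens

noncomputable section

/-- The integrand, with the dilation factor kept away from `0`. -/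
def rayH (h : R3 → ℂ) (m : ℝ) (ξ : R3) : ℂ := (m : ℂ) * h (max m (1 / 2) • ξ)

theorem ray_max_pos (m : ℝ) : 0 < max m (1 / 2) := lt_max_of_lt_right one_half_pos

theorem ray_cont {h : R3 → ℂ} (hh : Adm h) :
    ContinuousOn (fun z : ℝ × R3 => rayH h z.1 z.2) (univ ×ˢ {0}ᶜ) := by
  unfold rayH
  refine ContinuousOn.mul (by fun_prop) (hh.cont.comp (by fun_prop) ?_)
  rintro ⟨m, ξ⟩ ⟨-, hξ⟩
  exact smul_ne_zero (ray_max_pos m).ne' hξ

theorem ray_cont_slice {h : R3 → ℂ} (hh : Adm h) {ξ : R3} (hξ : ξ ≠ 0) :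
    Continuous fun m => rayH h m ξ := by
  rw [← continuousOn_univ]
  exact (ray_cont hh).comp (f := fun m : ℝ => (m, ξ)) (by fun_prop) fun m _ => ⟨mem_univ _, hξ⟩

theorem ray_bound {h : R3 → ℂ} (hh : Adm h) : ∃ C κ : ℝ, 0 ≤ C ∧ 0 < κ ∧
    ∀ m ∈ Icc (1 / 2 : ℝ) 2, ∀ ξ, ξ ≠ 0 → ‖rayH h m ξ‖ ≤ C * wt κ ξ := by
  obtain ⟨C, κ, hκ, hb⟩ := hh.bound
  refine ⟨2 * (|C| * (1 / 2 : ℝ) ^ (-(5 / 2) : ℝ)), κ * (1 / 2), by positivity, by positivity,
    fun m hm ξ hξ => ?_⟩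
  have hm0 : 0 < m := one_half_pos.trans_le hm.1
  have h1 := hb (m • ξ) (smul_ne_zero hm0.ne' hξ)
  rw [wt_smul κ hm0] at h1
  have h2 : m ^ (-(5 / 2) : ℝ) ≤ (1 / 2 : ℝ) ^ (-(5 / 2) : ℝ) :=
    Real.rpow_le_rpow_of_nonpos one_half_pos hm.1 (by norm_num)
  have h3 : wt (κ * m) ξ ≤ wt (κ * (1 / 2)) ξ := wt_anti (mul_le_mul_of_nonneg_left hm.1 hκ.le) ξ
  have h4 := wt_nonneg (κ * m) ξ
  have h5 : ‖h (m • ξ)‖ ≤ |C| * ((1 / 2 : ℝ) ^ (-(5 / 2) : ℝ) * wt (κ * (1 / 2)) ξ) :=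
    h1.trans (mul_le_mul (le_abs_self C) (mul_le_mul h2 h3 h4 (by positivity)) (by positivity)
      (abs_nonneg C))
  rw [rayH, max_eq_left hm.1, norm_mul, Complex.norm_real, Real.norm_of_nonneg hm0.le]
  calc m * ‖h (m • ξ)‖ ≤ 2 * (|C| * ((1 / 2 : ℝ) ^ (-(5 / 2) : ℝ) * wt (κ * (1 / 2)) ξ)) :=
        mul_le_mul hm.2 h5 (norm_nonneg _) two_pos.le
    _ = _ := by ring

theorem ray_sub {μ : ℝ} (hμ : μ ∈ Icc (1 / 2 : ℝ) 2) : uIcc 1 μ ⊆ Icc (1 / 2 : ℝ) 2 :=
  uIcc_subset_Icc ⟨by norm_num, by norm_num⟩ hμ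

theorem ray_adm {h : R3 → ℂ} (hh : Adm h) {μ : ℝ} (hμ : μ ∈ Icc (1 / 2 : ℝ) 2) :
    Adm fun ξ => ∫ m in (1 : ℝ)..μ, rayH h m ξ := by
  constructor
  · rw [continuousOn_iff_continuous_domRestrict]
    refine intervalIntegral.continuous_parametric_intervalIntegral_of_continuous'
      (f := fun (ξ : ({0}ᶜ : Set R3)) (m : ℝ) => rayH h m ξ) ?_ 1 μ
    rw [← continuousOn_univ]
    exact (ray_cont hh).comp (f := fun z : ({0}ᶜ : Set R3) × ℝ => (z.2, (z.1 : R3))) (by fun_prop)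
      fun z _ => ⟨mem_univ _, z.1.2⟩
  · obtain ⟨C, κ, -, hκ, hb⟩ := ray_bound hh
    refine ⟨C * |μ - 1|, κ, hκ, fun ξ hξ => ?_⟩
    refine (intervalIntegral.norm_integral_le_of_norm_le_const (C := C * wt κ ξ) fun m hm =>
      hb m (ray_sub hμ (uIoc_subset_uIcc hm)) ξ hξ).trans_eq (by ring)

theorem ray_integrable {h : R3 → ℂ} (hh : Adm h) {μ : ℝ} (hμ : μ ∈ Icc (1 / 2 : ℝ) 2) :
    Integrable (fun z : ℝ × R3 => rayH h z.1 z.2) ((volume.restrict (uIoc 1 μ)).prod volume) := by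
  obtain ⟨C, κ, -, hκ, hb⟩ := ray_bound hh
  have hfin : IsFiniteMeasure (volume.restrict (uIoc (1 : ℝ) μ)) :=
    isFiniteMeasure_restrict.2 (by simp [uIoc])
  have hmeas : (volume.restrict (uIoc (1 : ℝ) μ)).prod (volume : Measure R3) =
      (volume.prod volume).restrict (uIoc 1 μ ×ˢ {0}ᶜ) := by
    rw [← Measure.prod_restrict, restrict_compl_singleton]
  have hS : MeasurableSet (uIoc (1 : ℝ) μ ×ˢ ({0}ᶜ : Set R3)) :=
    measurableSet_uIoc.prod (measurableSet_singleton _).compl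
  refine (((integrable_wt hκ).const_mul C).comp_snd _).mono' ?_ ?_
  · rw [hmeas]
    exact ((ray_cont hh).mono (prod_mono (subset_univ _) Subset.rfl)).aestronglyMeasurable hS
  · rw [hmeas]
    refine (ae_restrict_iff' hS).2 (Eventually.of_forall fun z hz => ?_)
    exact hb z.1 (ray_sub hμ (uIoc_subset_uIcc hz.1)) z.2 hz.2

theorem ray_ev {h : R3 → ℂ} (hh : Adm h) {μ : ℝ} (hμ : μ ∈ Icc (1 / 2 : ℝ) 2) (y : R3) :
    ev (fun ξ => ∫ m in (1 : ℝ)..μ, rayH h m ξ) y = ∫ m in (1 : ℝ)..μ, ev (rayH h m) y := by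
  simp only [ev_eq]
  rw [intervalIntegral_integral_swap]
  · simp only [intervalIntegral.integral_const_mul]
  · refine (ray_integrable hh hμ).bdd_mul (c := 1) (Continuous.aestronglyMeasurable (by fun_prop))
      (Eventually.of_forall fun z => ?_)
    rw [Complex.norm_exp]
    simp

theorem ray_deriv {u : R3 → ℝ} (hu : Differentiable ℝ u) (y : R3) {m : ℝ} (hm : m ≠ 0) :
    HasDerivAt (fun m : ℝ => m⁻¹ * u (m⁻¹ • y))
      (-((m ^ 2)⁻¹ * (u (m⁻¹ • y) + ∑ j, (m⁻¹ • y) j * pd j u (m⁻¹ • y)))) m := by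
  have h1 := hasDerivAt_inv hm
  have h2 := (hu (m⁻¹ • y)).hasFDerivAt.comp_hasDerivAt m (h1.smul_const y)
  refine (h1.mul h2).congr_deriv ?_
  rw [← fderiv_eq_sum_pd, map_smul, map_smul, smul_eq_mul, smul_eq_mul, Function.comp_apply]
  ring

theorem ray_identity {f h : R3 → ℂ} {u : R3 → ℝ} (hf : Adm f) (hh : Adm h)
    (hu : Differentiable ℝ u) (e1 : ∀ y, ev f y = u y)
    (e2 : ∀ y, ev h y = ((u y + ∑ j, y j * pd j u y : ℝ) : ℂ)) {ξ : R3} (hξ : ξ ≠ 0) {μ : ℝ}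
    (hμ : μ ∈ Icc (1 / 2 : ℝ) 2) :
    ((μ ^ 2 : ℝ) : ℂ) * f (μ • ξ) - f ξ + ∫ m in (1 : ℝ)..μ, rayH h m ξ = 0 := by
  have hμ0 : 0 < μ := one_half_pos.trans_le hμ.1
  have i0 : Integrable fun ξ : R3 => f (μ • ξ) := hf.integrable.comp_smul hμ0.ne'
  have i1 : Integrable fun ξ : R3 => ((μ ^ 2 : ℝ) : ℂ) * f (μ • ξ) := i0.const_mul _
  have i2 : Integrable fun ξ : R3 => ((μ ^ 2 : ℝ) : ℂ) * f (μ • ξ) - f ξ := i1.sub hf.integrable
  have i3 := (ray_adm hh hμ).integrable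
  refine ev_inj (f := fun ξ => ((μ ^ 2 : ℝ) : ℂ) * f (μ • ξ) - f ξ + ∫ m in (1 : ℝ)..μ, rayH h m ξ)
    (i2.add i3) ?_ (fun y => ?_) hξ
  · refine ((continuousOn_const.mul (hf.cont.comp (by fun_prop) ?_)).sub hf.cont).add
      (ray_adm hh hμ).cont
    exact fun η hη => smul_ne_zero hμ0.ne' hη
  · rw [ev_add i2 i3, ev_sub i1 hf.integrable, ev_const_mul, ev_scale f hμ0, ray_ev hh hμ, e1, e1]
    have hpos : ∀ m ∈ uIcc (1 : ℝ) μ, 0 < m := fun m hm => one_half_pos.trans_le (ray_sub hμ hm).1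
    have h1 : ∀ m ∈ uIcc (1 : ℝ) μ, ev (rayH h m) y = (((m ^ 2)⁻¹ : ℝ) : ℂ) * ev h (m⁻¹ • y) := by
      intro m hm
      have : rayH h m = fun ξ => (m : ℂ) * h (m • ξ) := by
        funext η
        rw [rayH, max_eq_left (ray_sub hμ hm).1]
      rw [this, ev_const_mul, ev_scale h (hpos m hm), ← mul_assoc]
      congr 1
      have := (hpos m hm).ne'
      norm_cast
      field_simp
    have h2 : ∫ m in (1 : ℝ)..μ, (((m ^ 2)⁻¹ : ℝ) : ℂ) * ev h (m⁻¹ • y) =
        -((μ⁻¹ * u (μ⁻¹ • y) : ℝ) : ℂ) - -(((1 : ℝ)⁻¹ * u ((1 : ℝ)⁻¹ • y) : ℝ) : ℂ) := by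
      refine intervalIntegral.integral_eq_sub_of_hasDerivAt
        (f := fun m : ℝ => -((m⁻¹ * u (m⁻¹ • y) : ℝ) : ℂ)) (fun m hm => ?_) ?_
      · refine (ray_deriv hu y (hpos m hm).ne').ofReal_comp.neg.congr_deriv ?_
        rw [e2, ← Complex.ofReal_mul, Complex.ofReal_neg, neg_neg]
      · refine ContinuousOn.intervalIntegrable ?_
        have hc : ContinuousOn (fun m : ℝ => m⁻¹) (uIcc 1 μ) :=
          continuousOn_id.inv₀ fun m hm => (hpos m hm).ne'
        refine ContinuousOn.mul (Complex.continuous_ofReal.comp_continuousOn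
          ((continuousOn_id.pow 2).inv₀ fun m hm => pow_ne_zero 2 (hpos m hm).ne')) ?_
        exact (continuous_ev hh.integrable).comp_continuousOn (hc.smul continuousOn_const)
    rw [intervalIntegral.integral_congr h1, h2, inv_one, one_smul, one_mul]
    have := hμ0.ne'
    norm_cast
    field_simp
    ring

theorem hasDerivAt_ray {f h : R3 → ℂ} {u : R3 → ℝ} (hf : Adm f) (hh : Adm h)
    (hu : Differentiable ℝ u) (e1 : ∀ y, ev f y = u y)
    (e2 : ∀ y, ev h y = ((u y + ∑ j, y j * pd j u y : ℝ) : ℂ)) {ξ : R3} (hξ : ξ ≠ 0) :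
    HasDerivAt (fun μ : ℝ => μ ^ 2 • f (μ • ξ)) (-h ξ) 1 := by
  have hc := ray_cont_slice hh hξ
  have h1 := (intervalIntegral.integral_hasDerivAt_right (hc.intervalIntegrable 1 1)
    (hc.stronglyMeasurableAtFilter _ _) hc.continuousAt).const_sub (f ξ)
  have h2 : rayH h 1 ξ = h ξ := by
    rw [rayH, max_eq_left (by norm_num), one_smul, Complex.ofReal_one, one_mul]
  rw [h2] at h1
  refine h1.congr_of_eventuallyEq ?_
  filter_upwards [Icc_mem_nhds (show (1 / 2 : ℝ) < 1 by norm_num) one_lt_two] with μ hμ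
  have := ray_identity hf hh hu e1 e2 hξ hμ
  rw [Complex.real_smul]
  linear_combination this

end

end Pool.Agent.Work.MP_6bf1e5_an.Ens
end

-- merged part: Pool.Agent.Work.MP_6bf1e5_an.Mat.RayR
section
/-!
The derivative along rays for the class `Rap`: copy the proof of `hasDerivAt_ray` in Ens/Ray.lean, with `Adm` replaced by
`Rap` (only continuity off `0` and an integrable majorant that is uniform for dilations in `[1/2, 2]` are used).
-/

open scoped ContDiff ENNReal FourierTransform Topology ComplexConjugate Matrix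
open Set MeasureTheory Filter Metric Pool.Agent.Work.MP_6bf1e5_an.Ens

namespace Pool.Agent.Work.MP_6bf1e5_an.Mat

noncomputable section

theorem rayr_cont {h : R3 → ℂ} (hh : Rap h) :
    ContinuousOn (fun z : ℝ × R3 => rayH h z.1 z.2) (univ ×ˢ {0}ᶜ) := by
  unfold rayH
  refine ContinuousOn.mul (by fun_prop) (hh.cont.comp (by fun_prop) ?_)
  rintro ⟨m, ξ⟩ ⟨-, hξ⟩
  exact smul_ne_zero (ray_max_pos m).ne' hξ

theorem rayr_cont_slice {h : R3 → ℂ} (hh : Rap h) {ξ : R3} (hξ : ξ ≠ 0) :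
    Continuous fun m => rayH h m ξ := by
  rw [← continuousOn_univ]
  exact (rayr_cont hh).comp (f := fun m : ℝ => (m, ξ)) (by fun_prop) fun m _ => ⟨mem_univ _, hξ⟩

theorem rayr_cont_int {h : R3 → ℂ} (hh : Rap h) (μ : ℝ) :
    ContinuousOn (fun ξ => ∫ m in (1 : ℝ)..μ, rayH h m ξ) {0}ᶜ := by
  rw [continuousOn_iff_continuous_domRestrict]
  refine intervalIntegral.continuous_parametric_intervalIntegral_of_continuous'
    (f := fun (ξ : ({0}ᶜ : Set R3)) (m : ℝ) => rayH h m ξ) ?_ 1 μ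
  rw [← continuousOn_univ]
  exact (rayr_cont hh).comp (f := fun z : ({0}ᶜ : Set R3) × ℝ => (z.2, (z.1 : R3))) (by fun_prop)
    fun z _ => ⟨mem_univ _, z.1.2⟩

theorem rayr_integrable {h : R3 → ℂ} (hh : Rap h) (μ : ℝ) :
    Integrable (fun z : ℝ × R3 => rayH h z.1 z.2) ((volume.restrict (uIoc 1 μ)).prod volume) := by
  have hmeas : (volume.restrict (uIoc (1 : ℝ) μ)).prod (volume : Measure R3) =
      (volume.prod volume).restrict (uIoc 1 μ ×ˢ {0}ᶜ) := by
    rw [← Measure.prod_restrict, restrict_compl_singleton]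
  have hS : MeasurableSet (uIoc (1 : ℝ) μ ×ˢ ({0}ᶜ : Set R3)) :=
    measurableSet_uIoc.prod (measurableSet_singleton _).compl
  refine (integrable_prod_iff ?_).2 ⟨Eventually.of_forall fun m => ?_, ?_⟩
  · rw [hmeas]
    exact ((rayr_cont hh).mono (prod_mono (subset_univ _) Subset.rfl)).aestronglyMeasurable hS
  · exact (hh.integrable.comp_smul (ray_max_pos m).ne').const_mul (m : ℂ)
  · have h1 : ∀ m : ℝ, ∫ ξ : R3, ‖rayH h m ξ‖ =
        |m| * (|(max m (1 / 2) ^ Module.finrank ℝ R3)⁻¹| * ∫ ξ : R3, ‖h ξ‖) := by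
      intro m
      simp only [rayH, norm_mul, Complex.norm_real, Real.norm_eq_abs]
      rw [integral_const_mul, Measure.integral_comp_smul volume (fun ξ : R3 => ‖h ξ‖), smul_eq_mul]
    simp only [h1]
    have h2 : Continuous fun m : ℝ =>
        |m| * (|(max m (1 / 2) ^ Module.finrank ℝ R3)⁻¹| * ∫ ξ : R3, ‖h ξ‖) := by
      refine continuous_abs.mul (Continuous.mul (Continuous.abs ?_) continuous_const)
      exact Continuous.inv₀ (by fun_prop) fun m => pow_ne_zero _ (ray_max_pos m).ne'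
    exact (h2.intervalIntegrable 1 μ).def'

theorem rayr_integrable_int {h : R3 → ℂ} (hh : Rap h) (μ : ℝ) :
    Integrable fun ξ => ∫ m in (1 : ℝ)..μ, rayH h m ξ := by
  simp only [intervalIntegral.intervalIntegral_eq_integral_uIoc]
  exact (rayr_integrable hh μ).integral_prod_right.smul (if 1 ≤ μ then (1 : ℝ) else -1)

theorem rayr_ev {h : R3 → ℂ} (hh : Rap h) (μ : ℝ) (y : R3) :
    ev (fun ξ => ∫ m in (1 : ℝ)..μ, rayH h m ξ) y = ∫ m in (1 : ℝ)..μ, ev (rayH h m) y := by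
  simp only [ev_eq]
  rw [intervalIntegral_integral_swap]
  · simp only [intervalIntegral.integral_const_mul]
  · refine (rayr_integrable hh μ).bdd_mul (c := 1) (Continuous.aestronglyMeasurable (by fun_prop))
      (Eventually.of_forall fun z => ?_)
    rw [Complex.norm_exp]
    simp

theorem rayr_identity {f h : R3 → ℂ} {u : R3 → ℝ} (hf : Rap f) (hh : Rap h)
    (hu : Differentiable ℝ u) (e1 : ∀ y, ev f y = u y)
    (e2 : ∀ y, ev h y = ((u y + ∑ j, y j * pd j u y : ℝ) : ℂ)) {ξ : R3} (hξ : ξ ≠ 0) {μ : ℝ}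
    (hμ : μ ∈ Icc (1 / 2 : ℝ) 2) :
    ((μ ^ 2 : ℝ) : ℂ) * f (μ • ξ) - f ξ + ∫ m in (1 : ℝ)..μ, rayH h m ξ = 0 := by
  have hμ0 : 0 < μ := one_half_pos.trans_le hμ.1
  have i0 : Integrable fun ξ : R3 => f (μ • ξ) := hf.integrable.comp_smul hμ0.ne'
  have i1 : Integrable fun ξ : R3 => ((μ ^ 2 : ℝ) : ℂ) * f (μ • ξ) := i0.const_mul _
  have i2 : Integrable fun ξ : R3 => ((μ ^ 2 : ℝ) : ℂ) * f (μ • ξ) - f ξ := i1.sub hf.integrable
  have i3 := rayr_integrable_int hh μ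
  refine ev_inj (f := fun ξ => ((μ ^ 2 : ℝ) : ℂ) * f (μ • ξ) - f ξ + ∫ m in (1 : ℝ)..μ, rayH h m ξ)
    (i2.add i3) ?_ (fun y => ?_) hξ
  · refine ((continuousOn_const.mul (hf.cont.comp (by fun_prop) ?_)).sub hf.cont).add
      (rayr_cont_int hh μ)
    exact fun η hη => smul_ne_zero hμ0.ne' hη
  · rw [ev_add i2 i3, ev_sub i1 hf.integrable, ev_const_mul, ev_scale f hμ0, rayr_ev hh μ, e1, e1]
    have hpos : ∀ m ∈ uIcc (1 : ℝ) μ, 0 < m := fun m hm => one_half_pos.trans_le (ray_sub hμ hm).1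
    have h1 : ∀ m ∈ uIcc (1 : ℝ) μ, ev (rayH h m) y = (((m ^ 2)⁻¹ : ℝ) : ℂ) * ev h (m⁻¹ • y) := by
      intro m hm
      have : rayH h m = fun ξ => (m : ℂ) * h (m • ξ) := by
        funext η
        rw [rayH, max_eq_left (ray_sub hμ hm).1]
      rw [this, ev_const_mul, ev_scale h (hpos m hm), ← mul_assoc]
      congr 1
      have := (hpos m hm).ne'
      norm_cast
      field_simp
    have h2 : ∫ m in (1 : ℝ)..μ, (((m ^ 2)⁻¹ : ℝ) : ℂ) * ev h (m⁻¹ • y) =
        -((μ⁻¹ * u (μ⁻¹ • y) : ℝ) : ℂ) - -(((1 : ℝ)⁻¹ * u ((1 : ℝ)⁻¹ • y) : ℝ) : ℂ) := by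
      refine intervalIntegral.integral_eq_sub_of_hasDerivAt
        (f := fun m : ℝ => -((m⁻¹ * u (m⁻¹ • y) : ℝ) : ℂ)) (fun m hm => ?_) ?_
      · refine (ray_deriv hu y (hpos m hm).ne').ofReal_comp.neg.congr_deriv ?_
        rw [e2, ← Complex.ofReal_mul, Complex.ofReal_neg, neg_neg]
      · refine ContinuousOn.intervalIntegrable ?_
        have hc : ContinuousOn (fun m : ℝ => m⁻¹) (uIcc 1 μ) :=
          continuousOn_id.inv₀ fun m hm => (hpos m hm).ne'
        refine ContinuousOn.mul (Complex.continuous_ofReal.comp_continuousOn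
          ((continuousOn_id.pow 2).inv₀ fun m hm => pow_ne_zero 2 (hpos m hm).ne')) ?_
        exact (continuous_ev hh.integrable).comp_continuousOn (hc.smul continuousOn_const)
    rw [intervalIntegral.integral_congr h1, h2, inv_one, one_smul, one_mul]
    have := hμ0.ne'
    norm_cast
    field_simp
    ring

theorem hasDerivAt_ray_rap {f h : R3 → ℂ} {u : R3 → ℝ} (hf : Rap f) (hh : Rap h)
    (hu : Differentiable ℝ u) (e1 : ∀ y, ev f y = u y)
    (e2 : ∀ y, ev h y = ((u y + ∑ j, y j * pd j u y : ℝ) : ℂ)) {ξ : R3} (hξ : ξ ≠ 0) :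
    HasDerivAt (fun μ : ℝ => μ ^ 2 • f (μ • ξ)) (-h ξ) 1 := by
  have hc := rayr_cont_slice hh hξ
  have h1 := (intervalIntegral.integral_hasDerivAt_right (hc.intervalIntegrable 1 1)
    (hc.stronglyMeasurableAtFilter _ _) hc.continuousAt).const_sub (f ξ)
  have h2 : rayH h 1 ξ = h ξ := by
    rw [rayH, max_eq_left (by norm_num), one_smul, Complex.ofReal_one, one_mul]
  rw [h2] at h1
  refine h1.congr_of_eventuallyEq ?_
  filter_upwards [Icc_mem_nhds (show (1 / 2 : ℝ) < 1 by norm_num) one_lt_two] with μ hμ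
  have := rayr_identity hf hh hu e1 e2 hξ hμ
  rw [Complex.real_smul]
  linear_combination this

end

end Pool.Agent.Work.MP_6bf1e5_an.Mat
end

-- merged part: Pool.Agent.Work.MP_6bf1e5_an.Mat.ExpD
section
/-!
Exponential decay from the equation along rays. Fix `η ≠ 0`, `h = hr ν η`, `φ μ = μ² W (μ η)`. The hypothesis at `μ η` gives
`φ' μ = 2 μ h φ μ + 2 μ NL (μ η)`, and `φ` is bounded on `[1, ∞)`. So `exp (-h (μ² - 1)) φ μ` has derivative of norm at most
`n 2 μ exp (-h (μ² - 1))` if `‖NL (μ η)‖ ≤ n` for `μ ≥ 1` (`image_norm_le_of_norm_deriv_right_le_deriv_boundary`), hence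
`‖W η‖ ≤ n / h`. Let `‖W‖ ≤ M wt 0`, choose `K0` with `16 K M² / (4 π² ν √K0) ≤ 2 M` and `l0 = log 2 / K0`. For a truncation
level `T` put `ρ l ξ = exp (-l min |ξ| T)`. Induction in steps `log 2 / T` on `l ≤ l0`: `‖W‖ ≤ 2 M wt 0 ρ l` gives the bound with
`4 M` for the next `l`, and `norm_NL_le_weight` with the estimate above (for `|η| ≥ K0`; trivial for `|η| ≤ K0`) improves
`4 M` to `2 M`. Finally take `T = |ξ|`.
-/

open scoped ContDiff ENNReal FourierTransform Topology ComplexConjugate Matrix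
open Set MeasureTheory Filter Metric Pool.Agent.Work.MP_6bf1e5_an.Ens

namespace Pool.Agent.Work.MP_6bf1e5_an.Mat

noncomputable section

theorem expd_deriv {E : Type} [NormedAddCommGroup E] [NormedSpace ℝ E] {W N : R3 → E} {ν : ℝ}
    (ray : ∀ ξ, ξ ≠ 0 → HasDerivAt (fun μ : ℝ => μ ^ 2 • W (μ • ξ))
      ((2 : ℝ) • (hr ν ξ • W ξ + N ξ)) 1) {η : R3} (hη : η ≠ 0) {m : ℝ} (hm : 0 < m) :
    HasDerivAt (fun μ : ℝ => μ ^ 2 • W (μ • η))
      ((2 * m * hr ν η) • (m ^ 2 • W (m • η)) + (2 * m) • N (m • η)) m := by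
  have h0 := ray (m • η) (smul_ne_zero hm.ne' hη)
  have h1 : HasDerivAt (fun μ : ℝ => μ / m) (1 / m) m := (hasDerivAt_id m).div_const m
  have h2 : HasDerivAt (fun μ : ℝ => (μ / m) ^ 2 • W ((μ / m) • m • η))
      ((1 / m) • (2 : ℝ) • (hr ν (m • η) • W (m • η) + N (m • η))) m := by
    have := HasDerivAt.scomp (x := m) (h := fun μ : ℝ => μ / m)
      (g₁ := fun μ : ℝ => μ ^ 2 • W (μ • m • η)) (by rw [div_self hm.ne']; exact h0) h1
    exact this
  have h3 := h2.const_smul (m ^ 2)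
  have e1 : (fun μ : ℝ => μ ^ 2 • W (μ • η))
      = m ^ 2 • fun μ : ℝ => (μ / m) ^ 2 • W ((μ / m) • m • η) := by
    funext μ
    simp only [Pi.smul_apply, smul_smul]
    rw [div_mul_cancel₀ _ hm.ne']
    congr 1
    field_simp
  have e2 : hr ν (m • η) = m ^ 2 * hr ν η := by
    simp only [hr, norm_smul, Real.norm_eq_abs, abs_of_pos hm]
    ring
  rw [e1]
  convert h3 using 1
  rw [e2]
  simp only [smul_add, smul_smul]
  congr 2 <;> field_simp

theorem expd_ray {E : Type} [NormedAddCommGroup E] [NormedSpace ℝ E] {W N : R3 → E} {ν : ℝ}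
    (hν : 0 < ν) {C : ℝ} (b2 : ∀ ξ, ‖W ξ‖ ≤ C * w2 0 ξ)
    (ray : ∀ ξ, ξ ≠ 0 → HasDerivAt (fun μ : ℝ => μ ^ 2 • W (μ • ξ))
      ((2 : ℝ) • (hr ν ξ • W ξ + N ξ)) 1) {η : R3} (hη : η ≠ 0) {n : ℝ}
    (hn : ∀ μ : ℝ, 1 ≤ μ → ‖N (μ • η)‖ ≤ n) : ‖W η‖ ≤ n / hr ν η := by
  have hη' : 0 < ‖η‖ := norm_pos_iff.mpr hη
  have hh : 0 < hr ν η := by unfold hr; positivity
  set h := hr ν η with hdef
  have hn0 : 0 ≤ n := (norm_nonneg _).trans (hn 1 le_rfl)
  set e : ℝ → ℝ := fun μ => Real.exp (-(h * (μ ^ 2 - 1))) with he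
  have hde : ∀ μ, HasDerivAt e (e μ * -(h * (2 * μ))) μ := fun μ => by
    have h1 : HasDerivAt (fun μ : ℝ => -(h * (μ ^ 2 - 1))) (-(h * (2 * μ))) μ := by
      refine (((hasDerivAt_pow 2 μ).sub_const 1).const_mul h).neg.congr_deriv ?_
      simp
    exact h1.exp
  set g : ℝ → E := fun μ => e μ • (μ ^ 2 • W (μ • η)) - W η with hg
  have hdg : ∀ μ, 0 < μ → HasDerivAt g ((e μ * (2 * μ)) • N (μ • η)) μ := fun μ hμ => by
    refine (((hde μ).smul (expd_deriv ray hη hμ)).sub_const (W η)).congr_deriv ?_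
    rw [← hdef]
    simp only [smul_add, smul_smul]
    rw [add_right_comm, ← add_smul]
    have : e μ * (2 * μ * h * μ ^ 2) + e μ * -(h * (2 * μ)) * μ ^ 2 = 0 := by ring
    rw [this, zero_smul, zero_add]
  have hB : ∀ μ, HasDerivAt (fun μ => n / h * (1 - e μ)) (e μ * (2 * μ) * n) μ := fun μ => by
    refine (((hde μ).const_sub 1).const_mul (n / h)).congr_deriv ?_
    field_simp
  have key : ∀ b, 1 ≤ b → ‖g b‖ ≤ n / h * (1 - e b) := fun b hb => by
    refine image_norm_le_of_norm_deriv_right_le_deriv_boundary (a := 1) (b := b)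
      (f' := fun μ => (e μ * (2 * μ)) • N (μ • η)) ?_ ?_ ?_ hB ?_ ⟨hb, le_rfl⟩
    · exact fun x hx => (hdg x (by linarith only [hx, hx.1])).continuousAt.continuousWithinAt
    · exact fun x hx => (hdg x (by linarith [hx.1])).hasDerivWithinAt
    · simp [hg, he]
    · intro x hx
      have hx0 : 0 < x := by linarith only [hx, hx.1]
      have : 0 < e x := Real.exp_pos _
      rw [norm_smul, Real.norm_eq_abs, abs_of_pos (by positivity)]
      exact mul_le_mul_of_nonneg_left (hn x hx.1) (by positivity)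
  have hb : ∀ b, 1 ≤ b → ‖W η‖ ≤ n / h + e b * (C / ‖η‖ ^ 2) := fun b hb => by
    have hb0 : 0 < b := by linarith only [hb]
    have he0 : 0 < e b := Real.exp_pos _
    have h1 : ‖e b • (b ^ 2 • W (b • η))‖ ≤ e b * (C / ‖η‖ ^ 2) := by
      rw [norm_smul, norm_smul, Real.norm_eq_abs, Real.norm_eq_abs, abs_of_pos he0,
        abs_of_pos (by positivity)]
      refine mul_le_mul_of_nonneg_left ?_ he0.le
      refine (mul_le_mul_of_nonneg_left (b2 _) (by positivity)).trans (le_of_eq ?_)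
      simp only [w2, norm_smul, Real.norm_eq_abs, abs_of_pos hb0, zero_mul, neg_zero,
        Real.exp_zero]
      field_simp
    have h2 : W η = e b • (b ^ 2 • W (b • η)) - g b := by simp [hg]
    have h3 : n / h * (1 - e b) ≤ n / h := by
      have : 0 ≤ n / h * e b := by positivity
      linarith only [this]
    calc ‖W η‖ = ‖e b • (b ^ 2 • W (b • η)) - g b‖ := by rw [← h2]
      _ ≤ ‖e b • (b ^ 2 • W (b • η))‖ + ‖g b‖ := norm_sub_le _ _
      _ ≤ _ := by linarith only [h1, h3, key, hb, key b hb]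
  have hl : Tendsto e atTop (𝓝 0) := by
    refine Real.tendsto_exp_neg_atTop_nhds_zero.comp ?_
    refine Tendsto.const_mul_atTop hh ?_
    exact tendsto_atTop_add_const_right _ (-1) (tendsto_pow_atTop two_ne_zero)
  have hl2 : Tendsto (fun b => n / h + e b * (C / ‖η‖ ^ 2)) atTop (𝓝 (n / h + 0 * (C / ‖η‖ ^ 2))) :=
    (hl.mul_const _).const_add _
  rw [zero_mul, add_zero] at hl2
  exact ge_of_tendsto hl2 ((eventually_ge_atTop 1).mono hb)

/-- The truncated exponential weight. -/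
def expdR (T l : ℝ) (ξ : R3) : ℝ := Real.exp (-(l * min ‖ξ‖ T))

theorem expd_sub {T l : ℝ} (hT : 0 ≤ T) (hl : 0 ≤ l) (η ζ : R3) :
    expdR T l η * expdR T l ζ ≤ expdR T l (η + ζ) := by
  unfold expdR
  rw [← Real.exp_add]
  refine Real.exp_le_exp.mpr ?_
  have h : min ‖η + ζ‖ T ≤ min ‖η‖ T + min ‖ζ‖ T := by
    have h1 := norm_add_le η ζ
    have h2 := norm_nonneg η
    have h3 := norm_nonneg ζ
    have h4 := min_le_left ‖η + ζ‖ T
    have h5 := min_le_right ‖η + ζ‖ T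
    rcases le_total ‖η‖ T with a | a <;> rcases le_total ‖ζ‖ T with b | b <;>
      simp only [min_eq_left a, min_eq_right a, min_eq_left b, min_eq_right b] <;> linarith only [h1, h4, h2, h5, h3, hT]
  linarith only [h, hl, mul_le_mul_of_nonneg_left h hl]

theorem expd_wt (ξ : R3) (h : ξ ≠ 0) : wt 0 ξ = √‖ξ‖ / ‖ξ‖ ^ 3 := by
  have h0 : 0 < ‖ξ‖ := norm_pos_iff.mpr h
  simp only [wt, zero_mul, neg_zero, Real.exp_zero, mul_one]
  rw [Real.sqrt_eq_rpow, ← Real.rpow_natCast, ← Real.rpow_sub h0]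
  norm_num

theorem exp_decay {ι : Type} [Fintype ι] {ν : ℝ} {c : ι → ι → ι → ℝ} {W : R3 → V ι} (hν : 0 < ν)
    (b2 : ∃ C : ℝ, ∀ ξ, ‖W ξ‖ ≤ C * w2 0 ξ) (b5 : ∃ C : ℝ, ∀ ξ, ‖W ξ‖ ≤ C * wt 0 ξ)
    (ray : ∀ ξ, ξ ≠ 0 → HasDerivAt (fun μ : ℝ => μ ^ 2 • W (μ • ξ))
      ((2 : ℝ) • (hr ν ξ • W ξ + NL c W W ξ)) 1) :
    ∃ C κ : ℝ, 0 < κ ∧ ∀ ξ, ‖W ξ‖ ≤ C * w2 κ ξ := by
  obtain ⟨C2, h2⟩ := b2
  obtain ⟨M0, h5'⟩ := b5
  obtain ⟨K, hK, hN⟩ := norm_NL_le_weight c
  set M := |M0| with hM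
  have hM0 : 0 ≤ M := abs_nonneg _
  have h5 : ∀ ξ, ‖W ξ‖ ≤ M * wt 0 ξ := fun ξ =>
    (h5' ξ).trans (mul_le_mul_of_nonneg_right (le_abs_self _) (wt_nonneg _ _))
  have hpi := Real.pi_pos
  set s := 2 * K * M / (Real.pi ^ 2 * ν) + 1 with hs
  have hs0 : 0 < s := by positivity
  have hlog : 0 < Real.log 2 := Real.log_pos one_lt_two
  set l0 := Real.log 2 / s ^ 2 with hl0
  have hl00 : 0 < l0 := by positivity
  have improve : ∀ T l : ℝ, 0 ≤ T → 0 ≤ l → l ≤ l0 →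
      (∀ ξ, ‖W ξ‖ ≤ 4 * M * (wt 0 ξ * expdR T l ξ)) →
      ∀ ξ, ‖W ξ‖ ≤ 2 * M * (wt 0 ξ * expdR T l ξ) := by
    intro T l hT hl hll hb η
    have hw := wt_nonneg 0 η
    rcases le_total ‖η‖ (s ^ 2) with hη | hη
    · have h1 : l * min ‖η‖ T ≤ Real.log 2 := by
        have h3 : min ‖η‖ T ≤ s ^ 2 := (min_le_left _ _).trans hη
        calc l * min ‖η‖ T ≤ l * s ^ 2 := mul_le_mul_of_nonneg_left h3 hl
          _ ≤ l0 * s ^ 2 := mul_le_mul_of_nonneg_right hll (by positivity)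
          _ = Real.log 2 := by rw [hl0]; field_simp
      have h3 : (1 / 2 : ℝ) ≤ expdR T l η := by
        have : Real.exp (-Real.log 2) = 1 / 2 := by
          rw [Real.exp_neg, Real.exp_log two_pos, one_div]
        rw [← this]
        exact Real.exp_le_exp.mpr (by linarith only [h1])
      have h4 := mul_le_mul_of_nonneg_left h3 (mul_nonneg hM0 hw)
      linarith only [h4, h5, h5 η]
    · have hη0 : 0 < ‖η‖ := lt_of_lt_of_le (by positivity) hη
      have hne : η ≠ 0 := norm_pos_iff.mp hη0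
      have hR : 0 < expdR T l η := Real.exp_pos _
      have h1 := expd_ray hν h2 ray hne (n := K * (4 * M) ^ 2 * (expdR T l η / ‖η‖)) (by
        intro μ hμ
        have hμ0 : 0 < μ := by linarith only [hμ]
        have hn : ‖η‖ ≤ ‖μ • η‖ := by
          rw [norm_smul, Real.norm_eq_abs, abs_of_pos hμ0]
          linarith only [hμ, hη, mul_nonneg_of_nonpos_of_nonpos (Mathlib.Tactic.Linarith.sub_nonpos_of_le (sq_nonneg s)) (Mathlib.Tactic.Linarith.sub_nonpos_of_le hμ), mul_nonneg_of_nonpos_of_nonpos (Mathlib.Tactic.Linarith.sub_nonpos_of_le hη) (Mathlib.Tactic.Linarith.sub_nonpos_of_le hμ)]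
        refine (hN W (expdR T l) (4 * M) (by positivity) (fun ξ => (Real.exp_pos _).le)
          (expd_sub hT hl) hb _ (smul_ne_zero hμ0.ne' hne)).trans ?_
        refine mul_le_mul_of_nonneg_left ?_ (by positivity)
        refine div_le_div₀ hR.le ?_ hη0 hn
        refine Real.exp_le_exp.mpr (neg_le_neg ?_)
        exact mul_le_mul_of_nonneg_left (min_le_min_right _ hn) hl)
      refine h1.trans ?_
      have h3 : s ≤ √‖η‖ := Real.le_sqrt_of_sq_le hη
      have h4 : 2 * K * M / (Real.pi ^ 2 * ν) ≤ √‖η‖ := by linarith only [h3]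
      rw [expd_wt η hne, hr]
      have h6 : K * (4 * M) ^ 2 * (expdR T l η / ‖η‖) / (4 * Real.pi ^ 2 * ν * ‖η‖ ^ 2)
          = 2 * M * (2 * K * M / (Real.pi ^ 2 * ν) / ‖η‖ ^ 3 * expdR T l η) := by
        field_simp
        ring
      rw [h6]
      gcongr
  have ind : ∀ T : ℝ, 0 < T → ∀ j : ℕ, ∀ l : ℝ, 0 ≤ l → l ≤ l0 → l ≤ j * (Real.log 2 / T) →
      ∀ ξ, ‖W ξ‖ ≤ 2 * M * (wt 0 ξ * expdR T l ξ) := by
    intro T hT j
    induction j with
    | zero =>
      intro l hl _ hj ξ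
      have : l = 0 := le_antisymm (by simpa using hj) hl
      subst this
      have hw := mul_nonneg hM0 (wt_nonneg 0 ξ)
      simp only [expdR, zero_mul, neg_zero, Real.exp_zero, mul_one]
      linarith only [hw, h5, h5 ξ]
    | succ j ih =>
      intro l hl hll hj
      refine improve T l hT.le hl hll fun ξ => ?_
      have hd : 0 < Real.log 2 / T := by positivity
      have h1 := ih (max (l - Real.log 2 / T) 0) (le_max_right _ _)
        (max_le (by linarith only [hll, hd]) hl00.le)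
        (max_le (by push_cast at hj; linarith only [hj]) (by positivity)) ξ
      have h3 : expdR T (max (l - Real.log 2 / T) 0) ξ ≤ 2 * expdR T l ξ := by
        have e2 : (2 : ℝ) = Real.exp (Real.log 2) := (Real.exp_log two_pos).symm
        unfold expdR
        conv_rhs => rw [e2, ← Real.exp_add]
        refine Real.exp_le_exp.mpr ?_
        have m0 : 0 ≤ min ‖ξ‖ T := le_min (norm_nonneg _) hT.le
        have m1 : Real.log 2 / T * min ‖ξ‖ T ≤ Real.log 2 := by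
          calc Real.log 2 / T * min ‖ξ‖ T ≤ Real.log 2 / T * T :=
                mul_le_mul_of_nonneg_left (min_le_right _ _) hd.le
            _ = Real.log 2 := by field_simp
        have m2 := mul_le_mul_of_nonneg_right (le_max_left (l - Real.log 2 / T) 0) m0
        linarith only [m1, m2]
      have h4 := mul_le_mul_of_nonneg_left h3 (mul_nonneg hM0 (wt_nonneg 0 ξ))
      linarith only [h1, h4]
  refine ⟨2 * M + |C2| * Real.exp l0, l0, hl00, fun ξ => ?_⟩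
  have hw := w2_nonneg l0 ξ
  rcases le_total ‖ξ‖ 1 with hξ | hξ
  · have h1 : w2 0 ξ ≤ Real.exp l0 * w2 l0 ξ := by
      simp only [w2, zero_mul, neg_zero, Real.exp_zero, mul_one]
      rw [mul_left_comm, ← Real.exp_add]
      refine le_mul_of_one_le_right (by positivity) (Real.one_le_exp ?_)
      linarith only [hl00, hξ, mul_nonneg_of_nonpos_of_nonpos (le_of_lt (Mathlib.Tactic.Linarith.sub_neg_of_lt hl00)) (Mathlib.Tactic.Linarith.sub_nonpos_of_le hξ)]
    have h3 := mul_le_mul_of_nonneg_left h1 (abs_nonneg C2)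
    have h4 := mul_le_mul_of_nonneg_right (le_abs_self C2) (w2_nonneg 0 ξ)
    have h6 := mul_nonneg hM0 hw
    linarith only [h3, h4, h6, h2, h2 ξ]
  · have hξ0 : 0 < ‖ξ‖ := by linarith only [hξ]
    obtain ⟨j, hj⟩ := exists_nat_ge (l0 / (Real.log 2 / ‖ξ‖))
    have h1 := ind ‖ξ‖ hξ0 j l0 hl00.le le_rfl (by
      rwa [div_le_iff₀ (by positivity)] at hj) ξ
    have h3 : wt 0 ξ * expdR ‖ξ‖ l0 ξ = wt l0 ξ := by simp [wt, expdR]
    have h4 : wt l0 ξ ≤ w2 l0 ξ := by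
      rw [w2_eq]
      exact le_mul_of_one_le_left (wt_nonneg _ _) (Real.one_le_rpow hξ (by norm_num))
    rw [h3] at h1
    have h6 := mul_le_mul_of_nonneg_left h4 hM0
    have h7 : 0 ≤ |C2| * Real.exp l0 * w2 l0 ξ := by positivity
    linarith only [h1, h6, h7]

end

end Pool.Agent.Work.MP_6bf1e5_an.Mat
end

-- merged part: Pool.Agent.Work.MP_6bf1e5_an.Ens.ProfF
section
/-!
From the physical profile to its Fourier transform. Let `W`, `Z` be the transforms (`exists_hat`) of `SA A g` and of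
`2 SA A (g + th g)`. `hasDerivAt_ray` gives the derivative `-Z`. The function
`G i = Z i / 2 + hr W i + 2 π i ∑ c ξ_j cv (W b j) (W d i)` has inverse Fourier integral `-pd i P` (`ev_coord`, `ev_cv`,
`lap_SA`, `div_SA`, the profile equation), so `ξ_i G j - ξ_j G i = 0` by `pd_comm` and `ev_inj`; `lr_of_curl` and
`lr_of_div` give `Z / 2 + hr W + NL = 0`. For `Profile.scale` use `l^4 • W (l • ξ)`.
-/

open scoped ContDiff ENNReal FourierTransform Topology ComplexConjugate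
open Set MeasureTheory Filter Polynomial Metric

namespace Pool.Agent.Work.MP_6bf1e5_an.Ens

noncomputable section

variable {ι : Type} [Fintype ι]

/-- `f` is admissible and its inverse Fourier integral is the real function `u`. -/
structure ProfFRep (f : R3 → ℂ) (u : R3 → ℝ) : Prop where
  adm : Adm f
  eq : ∀ x, ev f x = u x

namespace ProfFRep

variable {f g : R3 → ℂ} {u v : R3 → ℝ}

theorem add (hf : ProfFRep f u) (hg : ProfFRep g v) :
    ProfFRep (fun ξ => f ξ + g ξ) fun x => u x + v x :=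
  ⟨hf.adm.add hg.adm, fun x => by
    rw [ev_add hf.adm.integrable hg.adm.integrable, hf.eq, hg.eq, Complex.ofReal_add]⟩

theorem smul (hf : ProfFRep f u) (r : ℝ) : ProfFRep (fun ξ => (r : ℂ) * f ξ) fun x => r * u x :=
  ⟨hf.adm.const_mul r, fun x => by rw [ev_const_mul, hf.eq, Complex.ofReal_mul]⟩

theorem sum {α : Type} [Fintype α] {f : α → R3 → ℂ} {u : α → R3 → ℝ}
    (h : ∀ a, ProfFRep (f a) (u a)) : ProfFRep (fun ξ => ∑ a, f a ξ) fun x => ∑ a, u a x :=
  ⟨Adm.sum _ fun a _ => (h a).adm, fun x => by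
    rw [ev_sum _ fun a _ => (h a).adm.integrable, Complex.ofReal_sum]
    exact Finset.sum_congr rfl fun a _ => (h a).eq x⟩

theorem coord (hf : ProfFRep f u) (j : Fin 3) :
    ProfFRep (fun ξ => 2 * Real.pi * Complex.I * (ξ j : ℂ) * f ξ) (pd j u) :=
  ⟨by simpa only [mul_assoc] using (hf.adm.coord j).const_mul (2 * Real.pi * Complex.I),
    ev_coord hf.adm.integrable (by simpa using hf.adm.integrable_pow 1) hf.eq j⟩

theorem cv (hf : ProfFRep f u) (hg : ProfFRep g v) : ProfFRep (cv f g) fun x => u x * v x :=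
  ⟨hf.adm.cv hg.adm, fun x => by
    rw [ev_cv hf.adm.integrable hg.adm.integrable, hf.eq, hg.eq, Complex.ofReal_mul]⟩

theorem inj (hf : ProfFRep f u) (h : ∀ x, u x = 0) {ξ : R3} (hξ : ξ ≠ 0) : f ξ = 0 :=
  ev_inj hf.adm.integrable hf.adm.cont (fun x => by rw [hf.eq, h, Complex.ofReal_zero]) hξ

theorem of_hat {f : R3 → Fin 3 → ℂ} {u : R3 → R3} (hc : ContinuousOn f {0}ᶜ) {C : ℝ}
    (hb : ∀ ξ, ‖f ξ‖ ≤ C * w2 Real.pi ξ) (h : ∀ y i, ev (fun ξ => f ξ i) y = (u y i : ℝ))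
    (i : Fin 3) : ProfFRep (fun ξ => f ξ i) fun y => u y i := by
  obtain ⟨D, -, hD⟩ := w2_le_wt Real.pi_pos
  refine ⟨⟨continuousOn_pi.1 hc i, |C| * D, _, half_pos Real.pi_pos, fun ξ _ => ?_⟩, fun y => h y i⟩
  rw [mul_assoc]
  exact (norm_le_pi_norm _ i).trans ((hb ξ).trans (mul_le_mul (le_abs_self C) (hD ξ)
    (w2_nonneg _ _) (abs_nonneg C)))

/-- A gradient is killed by the Leray symbol. -/
theorem grad {G : Fin 3 → R3 → ℂ} {P : R3 → ℝ} (hP : ContDiff ℝ ∞ P)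
    (h : ∀ i, ProfFRep (G i) fun y => -1 * pd i P y) {ξ : R3} (hξ : ξ ≠ 0) (i : Fin 3) :
    ∑ k, (lr ξ i k : ℂ) * G k ξ = 0 := by
  refine lr_of_curl hξ (fun i j => ?_) i
  have h1 := (((h j).coord i).add (((h i).coord j).smul (-1))).inj (fun x => by
    rw [pd_const_mul, pd_const_mul, pd_comm hP i j]
    ring) hξ
  refine mul_left_cancel₀ Complex.two_pi_I_ne_zero ?_
  push_cast at h1
  linear_combination h1

end ProfFRep

theorem proff_le {C : ι → ℝ} (a : ι) : C a ≤ ∑ b, |C b| :=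
  (le_abs_self _).trans (Finset.single_le_sum (f := fun b => |C b|) (fun _ _ => abs_nonneg _)
    (Finset.mem_univ a))

theorem RadProfile.profile {ν : ℝ} {c : ι → ι → ι → ℝ} {A : ι → Matrix (Fin 3) (Fin 3) ℝ}
    {g : ι → ℝ[X]} (h : RadProfile ν c A g) : ∃ W, Profile ν c W := by
  choose f f1 f2 f3 f4 f5 using fun a => exists_hat (h.symm a) (h.trace a) (h.zero a)
  choose z z1 z2 z3 z4 z5 using fun a => exists_hat (h.symm a) (h.trace a) (g := g a + th (g a))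
    (by rw [coeff_add, h.zero, coeff_zero_th, add_zero])
  choose C hC using f2
  choose D hD using z2
  choose E hE using fun a => decay_SA (A a) (h.zero a)
  have hf := fun a => ProfFRep.of_hat (f1 a) (hC a) (f5 a)
  have hz := fun a => ProfFRep.of_hat (z1 a) (hD a) (z5 a)
  have hu : ∀ a i, Differentiable ℝ fun y => SA (A a) (g a) y i := fun a i =>
    (contDiff_FA _ _ _ i).differentiable (by simp)
  have hp : phys (fun ξ a => f a ξ) = fun a => SA (A a) (g a) := by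
    funext a y
    ext i
    simp [phys, f5]
  refine ⟨fun ξ a => f a ξ, continuousOn_pi.2 f1, ⟨∑ a, |C a|, _, Real.pi_pos, fun ξ => ?_⟩,
    fun ξ a => f3 a ξ, fun ξ => funext fun a => f4 a ξ, fun ξ hξ => ?_,
    ⟨∑ a, |E a|, fun a y => ?_⟩, ?_⟩
  · exact (pi_norm_le_iff_of_nonneg (mul_nonneg (by positivity) (w2_nonneg _ _))).2 fun a =>
      (hC a ξ).trans (mul_le_mul_of_nonneg_right (proff_le a) (w2_nonneg _ _))
  · refine hasDerivAt_pi.2 fun a => hasDerivAt_pi.2 fun i => ?_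
    have h1 := hasDerivAt_ray (hf a i).adm ((hz a i).smul 2).adm (hu a i) (hf a i).eq
      (fun y => by rw [scal_SA (h.symm a), ((hz a i).smul 2).eq]) hξ
    obtain ⟨P, hP, hP'⟩ := h.eqn a
    have h2 := ProfFRep.grad hP (fun k => by
      have h3 := ((hz a k).add ((ProfFRep.sum fun j => ((hf a k).coord j).coord j).smul (-ν))).add
        (ProfFRep.sum fun b => ProfFRep.sum fun d => (ProfFRep.sum fun j =>
          ((hf b j).cv (hf d k)).coord j).smul (c a b d))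
      convert h3 using 2 with y
      have h4 := hP' y k
      rw [SA_linP, ← lap_SA (h.symm a) (h.trace a)] at h4
      have h5 : ∀ b d, ∑ j, pd j (fun x => SA (A b) (g b) x j * SA (A d) (g d) x k) y =
          ∑ j, SA (A b) (g b) y j * pd j (fun x => SA (A d) (g d) x k) y := fun b d => by
        simp only [pd_mul (hu b _ y) (hu d k y), Finset.sum_add_distrib, ← Finset.sum_mul,
          div_SA (h.symm b) (h.trace b), zero_mul, zero_add]
      simp only [h5]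
      linarith only [h4]) hξ i
    have h3 : ∀ k, ((-ν : ℝ) : ℂ) * ∑ j, 2 * Real.pi * Complex.I * (ξ j : ℂ) *
        (2 * Real.pi * Complex.I * (ξ j : ℂ) * f a ξ k) = (hr ν ξ : ℂ) * f a ξ k := fun k => by
      simp only [hr, norm_sq_eq_sum, Fin.sum_univ_three]
      push_cast
      linear_combination (-(4 * Real.pi ^ 2 * ν * (ξ 0 ^ 2 + ξ 1 ^ 2 + ξ 2 ^ 2) * f a ξ k) : ℂ) *
        Complex.I_mul_I
    have h4 : ∑ k, (lr ξ i k : ℂ) * ∑ b, ∑ d, (c a b d : ℂ) * ∑ j, 2 * Real.pi * Complex.I *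
        (ξ j : ℂ) * cv (fun η => f b η j) (fun η => f d η k) ξ =
          NL c (fun ξ a => f a ξ) (fun ξ a => f a ξ) ξ a i := by
      simp only [NL, Finset.mul_sum]
      rw [Finset.sum_comm]
      refine Finset.sum_congr rfl fun b _ => ?_
      rw [Finset.sum_comm]
      refine Finset.sum_congr rfl fun d _ => Finset.sum_congr rfl fun k _ =>
        Finset.sum_congr rfl fun j _ => ?_
      push_cast
      ring
    simp only [h3, mul_add, Finset.sum_add_distrib, h4, mul_left_comm _ (hr ν ξ : ℂ),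
      ← Finset.mul_sum, lr_of_div (f3 a ξ), lr_of_div (z3 a ξ)] at h2
    refine h1.congr_deriv ?_
    simp only [Pi.smul_apply, Pi.add_apply, Complex.real_smul]
    linear_combination -((2 : ℝ) : ℂ) * h2
  · rw [hp]
    exact (hE a y).trans (div_le_div_of_nonneg_right (proff_le a) (by positivity))
  · obtain ⟨a, y, hy⟩ := h.ne
    rw [hp]
    exact fun e => hy (congrFun (congrFun e a) y)

theorem Profile.scale {ν ν' : ℝ} {c : ι → ι → ι → ℝ} {W : R3 → V ι} (h : Profile ν c W) (hν : 0 < ν)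
    (hν' : 0 < ν') : ∃ W', Profile ν' c W' := by
  obtain ⟨l, hl, e⟩ : ∃ l : ℝ, 0 < l ∧ ν' = l ^ 2 * ν :=
    ⟨√(ν' / ν), by positivity, by rw [Real.sq_sqrt (by positivity), div_mul_cancel₀ _ hν.ne']⟩
  obtain ⟨C, κ, hκ, hC⟩ := h.bound
  obtain ⟨D, hD⟩ := h.decay
  have hn : ∀ ξ : R3, ‖l • ξ‖ = l * ‖ξ‖ := fun ξ => by rw [norm_smul, Real.norm_of_nonneg hl.le]
  have hp : ∀ a y, phys (fun ξ => l ^ 4 • W (l • ξ)) a y = l • phys W a (l⁻¹ • y) := fun a y => by
    ext i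
    have h1 := ev_scale (fun ξ => W ξ a i) hl y
    simp only [phys, Pi.smul_apply, Complex.real_smul, ev_const_mul, h1, PiLp.smul_apply,
      ← mul_assoc, Complex.re_ofReal_mul, smul_eq_mul]
    congr 1
    field_simp
  refine ⟨fun ξ => l ^ 4 • W (l • ξ), (h.cont.comp (s := {0}ᶜ) (by fun_prop) fun ξ hξ =>
    smul_ne_zero hl.ne' hξ).const_smul (l ^ 4), ⟨l ^ 2 * C, κ * l, by positivity, fun ξ => ?_⟩,
    fun ξ a => ?_, fun ξ => ?_, fun ξ hξ => ?_, ⟨l * (1 + l) * |D|, fun a y => ?_⟩, fun h0 => ?_⟩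
  · rw [norm_smul, Real.norm_of_nonneg (by positivity)]
    refine (mul_le_mul_of_nonneg_left (hC _) (by positivity)).trans_eq ?_
    simp only [w2, hn, mul_pow, mul_inv, mul_assoc]
    field_simp
  · have h1 := congrArg ((l : ℂ) ^ 3 * ·) (h.div (l • ξ) a)
    simp only [Finset.mul_sum, mul_zero, PiLp.smul_apply, smul_eq_mul] at h1
    rw [← h1]
    refine Finset.sum_congr rfl fun j _ => ?_
    simp only [Pi.smul_apply, Complex.real_smul]
    push_cast
    ring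
  · simp only [smul_neg, h.sym (l • ξ), star_smul, star_trivial]
  · have h1 := (h.ray (l • ξ) (smul_ne_zero hl.ne' hξ)).const_smul (l ^ 4)
    refine (h1.congr_of_eventuallyEq (Eventually.of_forall fun μ => ?_)).congr_deriv (Eq.symm ?_)
    · simp only [Pi.smul_apply, smul_comm l μ ξ, smul_comm (l ^ 4) (μ ^ 2)]
    · rw [NL_rsmul c (l ^ 4) (l ^ 4) (fun η => W (l • η)) fun η => W (l • η), NL_scale c W W hl]
      simp only [smul_add, smul_smul, hr, hn, e]
      congr 2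
      · ring
      · field_simp
  · have h1 := hD a (l⁻¹ • y)
    rw [norm_smul, Real.norm_of_nonneg (by positivity)] at h1
    rw [hp, norm_smul, Real.norm_of_nonneg hl.le, mul_assoc, mul_div_assoc]
    refine mul_le_mul_of_nonneg_left (h1.trans ((div_le_div_of_nonneg_right (le_abs_self D)
      (by positivity)).trans ?_)) hl.le
    rw [div_le_div_iff₀ (by positivity) (by positivity), mul_comm (1 + l), mul_assoc]
    refine mul_le_mul_of_nonneg_left ?_ (abs_nonneg D)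
    have h2 : l * (l⁻¹ * ‖y‖) = ‖y‖ := mul_inv_cancel_left₀ hl.ne' _
    have h3 : 0 ≤ l⁻¹ * ‖y‖ := by positivity
    linarith only [hl, h2, h3]
  · refine h.ne (funext fun a => funext fun y => ?_)
    have h1 := hp a (l • y)
    rw [h0, inv_smul_smul₀ hl.ne'] at h1
    exact (smul_eq_zero.1 h1.symm).resolve_left hl.ne'

end

end Pool.Agent.Work.MP_6bf1e5_an.Ens
end

-- merged part: Pool.Agent.Work.MP_6bf1e5_an.Mat.PhysF
section
/-!
From a physical profile to its Fourier transform: follow the proof of `RadProfile.profile` in Ens/ProfF.lean with `Adm`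
replaced by `Rap` (a structure like `ProfFRep`), `hat` in place of `exists_hat`, and `Z = hat` of the symbol
`W + y·∇W` (`Sy.euler`). `DivFree` for `hatW W` and for `Z` follows from `ev_inj`
(the field `W + y·∇W` is divergence free: `pd_comm`). `hat u 0 = 0`. The exponential bound is `exp_decay`.
-/

open scoped ContDiff ENNReal FourierTransform Topology ComplexConjugate Matrix
open Set MeasureTheory Filter Metric Pool.Agent.Work.MP_6bf1e5_an.Ens

namespace Pool.Agent.Work.MP_6bf1e5_an.Mat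

noncomputable section

/-- `f` is in the class `Rap` and its inverse Fourier integral is the real function `u`. -/
structure PhysFRep (f : R3 → ℂ) (u : R3 → ℝ) : Prop where
  rap : Rap f
  eq : ∀ x, ev f x = u x

namespace PhysFRep

variable {f g : R3 → ℂ} {u v : R3 → ℝ}

theorem add (hf : PhysFRep f u) (hg : PhysFRep g v) :
    PhysFRep (fun ξ => f ξ + g ξ) fun x => u x + v x :=
  ⟨hf.rap.add hg.rap, fun x => by
    rw [ev_add hf.rap.integrable hg.rap.integrable, hf.eq, hg.eq, Complex.ofReal_add]⟩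

theorem smul (hf : PhysFRep f u) (r : ℝ) : PhysFRep (fun ξ => (r : ℂ) * f ξ) fun x => r * u x :=
  ⟨hf.rap.const_mul r, fun x => by rw [ev_const_mul, hf.eq, Complex.ofReal_mul]⟩

theorem sum {α : Type} [Fintype α] {f : α → R3 → ℂ} {u : α → R3 → ℝ}
    (h : ∀ a, PhysFRep (f a) (u a)) : PhysFRep (fun ξ => ∑ a, f a ξ) fun x => ∑ a, u a x :=
  ⟨Rap.sum _ fun a _ => (h a).rap, fun x => by
    rw [ev_sum _ fun a _ => (h a).rap.integrable, Complex.ofReal_sum]
    exact Finset.sum_congr rfl fun a _ => (h a).eq x⟩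

theorem coord (hf : PhysFRep f u) (j : Fin 3) :
    PhysFRep (fun ξ => 2 * Real.pi * Complex.I * (ξ j : ℂ) * f ξ) (pd j u) :=
  ⟨by simpa only [mul_assoc] using (hf.rap.coord j).const_mul (2 * Real.pi * Complex.I),
    ev_coord hf.rap.integrable (by simpa using hf.rap.integrable_pow 1) hf.eq j⟩

theorem cv (hf : PhysFRep f u) (hg : PhysFRep g v) : PhysFRep (cv f g) fun x => u x * v x :=
  ⟨hf.rap.cv hg.rap, fun x => by
    rw [ev_cv hf.rap.integrable hg.rap.integrable, hf.eq, hg.eq, Complex.ofReal_mul]⟩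

theorem inj (hf : PhysFRep f u) (h : ∀ x, u x = 0) {ξ : R3} (hξ : ξ ≠ 0) : f ξ = 0 :=
  ev_inj hf.rap.integrable hf.rap.cont (fun x => by rw [hf.eq, h, Complex.ofReal_zero]) hξ

theorem of_sy (h : Sy (-1) u) : PhysFRep (hat u) u := ⟨h.rap_hat.1, h.ev_hat⟩

/-- A gradient is killed by the Leray symbol. -/
theorem grad {G : Fin 3 → R3 → ℂ} {P : R3 → ℝ} (hP : ContDiff ℝ ∞ P)
    (h : ∀ i, PhysFRep (G i) fun y => -1 * pd i P y) {ξ : R3} (hξ : ξ ≠ 0) (i : Fin 3) :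
    ∑ k, (lr ξ i k : ℂ) * G k ξ = 0 := by
  refine lr_of_curl hξ (fun i j => ?_) i
  have h1 := (((h j).coord i).add (((h i).coord j).smul (-1))).inj (fun x => by
    rw [pd_const_mul, pd_const_mul, pd_comm hP i j]
    ring) hξ
  refine mul_left_cancel₀ Complex.two_pi_I_ne_zero ?_
  push_cast at h1
  linear_combination h1

theorem div {G : Fin 3 → R3 → ℂ} {w : Fin 3 → R3 → ℝ} (h : ∀ i, PhysFRep (G i) (w i))
    (hw : ∀ y, ∑ i, pd i (w i) y = 0) {ξ : R3} (hξ : ξ ≠ 0) : ∑ j, (ξ j : ℂ) * G j ξ = 0 := by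
  have h1 := (PhysFRep.sum fun i => (h i).coord i).inj hw hξ
  refine mul_left_cancel₀ Complex.two_pi_I_ne_zero ?_
  rw [mul_zero, ← h1, Finset.mul_sum]
  exact Finset.sum_congr rfl fun j _ => by ring

end PhysFRep

theorem physf_hat_zero (u : R3 → ℝ) : hat u 0 = 0 := by simp [hat]

theorem physf_div {w : Fin 3 → R3 → ℝ} (hs : ∀ i, ContDiff ℝ ∞ (w i))
    (hw : ∀ y, ∑ i, pd i (w i) y = 0) (y : R3) :
    ∑ i, pd i (fun z => w i z + ∑ j, z j * pd j (w i) z) y = 0 := by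
  have d0 : ∀ i z, DifferentiableAt ℝ (w i) z := fun i => (hs i).differentiable (by simp)
  have d1 : ∀ i j z, DifferentiableAt ℝ (pd j (w i)) z := fun i j =>
    (contDiff_pd (hs i) j).differentiable (by simp)
  have dc : ∀ (j : Fin 3) (z : R3), DifferentiableAt ℝ (fun x : R3 => x j) z := fun j z => by
    fun_prop
  have h1 : ∀ i, pd i (fun z => w i z + ∑ j, z j * pd j (w i) z) y =
      2 * pd i (w i) y + ∑ j, y j * pd j (pd i (w i)) y := fun i => by
    have d2 : ∀ j ∈ Finset.univ, DifferentiableAt ℝ (fun z : R3 => z j * pd j (w i) z) y :=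
      fun j _ => (dc j y).mul (d1 i j y)
    rw [pd_add (d0 i y) (DifferentiableAt.fun_sum d2), pd_sum _ d2]
    simp only [pd_mul (dc _ y) (d1 i _ y), pd_coord, pd_comm (hs i) i, Finset.sum_add_distrib,
      ite_mul, one_mul, zero_mul, Finset.sum_ite_eq', Finset.mem_univ, if_true]
    ring
  have h2 : ∀ j, ∑ i, pd j (pd i (w i)) y = 0 := fun j => by
    rw [← pd_sum _ fun i _ => d1 i i y, funext hw, pd_const]
  simp only [h1, Finset.sum_add_distrib, ← Finset.mul_sum, hw]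
  rw [Finset.sum_comm]
  simp only [← Finset.mul_sum, h2, mul_zero, Finset.sum_const_zero, add_zero]

theorem physf_bound {ι : Type} [Fintype ι] {f : R3 → V ι} {w : R3 → ℝ} (hw : ∀ ξ, 0 ≤ w ξ)
    (h : ∀ a i, ∃ C : ℝ, ∀ ξ, ‖f ξ a i‖ ≤ C * w ξ) : ∃ C : ℝ, ∀ ξ, ‖f ξ‖ ≤ C * w ξ := by
  choose C hC using h
  refine ⟨∑ p : ι × Fin 3, |C p.1 p.2|, fun ξ => ?_⟩
  have h0 : 0 ≤ (∑ p : ι × Fin 3, |C p.1 p.2|) * w ξ := mul_nonneg (by positivity) (hw ξ)
  refine (pi_norm_le_iff_of_nonneg h0).2 fun a => (pi_norm_le_iff_of_nonneg h0).2 fun i => ?_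
  exact (hC a i ξ).trans (mul_le_mul_of_nonneg_right
    (proff_le (C := fun p : ι × Fin 3 => C p.1 p.2) (a, i)) (hw ξ))

theorem physf_norm_le (v : R3) : ‖v‖ ≤ ∑ i, |v i| := by
  refine (sq_le_sq₀ (norm_nonneg _) (by positivity)).1 ?_
  rw [norm_sq_eq_sum]
  simp only [Fin.sum_univ_three, ← sq_abs (v _)]
  linarith only [mul_nonneg (abs_nonneg (v 0)) (abs_nonneg (v 1)),
    mul_nonneg (abs_nonneg (v 0)) (abs_nonneg (v 2)),
    mul_nonneg (abs_nonneg (v 1)) (abs_nonneg (v 2))]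

theorem PhysProfile.profile {ι : Type} [Fintype ι] {ν : ℝ} {c : ι → ι → ι → ℝ} {W : ι → R3 → R3}
    (h : PhysProfile ν c W) (hν : 0 < ν) : Profile ν c (hatW W) := by
  have hf : ∀ a i, PhysFRep (fun ξ => hatW W ξ a i) fun y => W a y i := fun a i =>
    PhysFRep.of_sy (h.sy a i)
  have hz := fun a i => PhysFRep.of_sy (h.sy a i).euler
  have hs : ∀ a i, ContDiff ℝ ∞ fun y => W a y i := fun a i => (h.sy a i).smooth ()
  have hu : ∀ a i, Differentiable ℝ fun y => W a y i := fun a i => (hs a i).differentiable (by simp)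
  have hp : phys (hatW W) = W := by
    funext a y
    ext i
    simp [phys, (hf a i).eq]
  have h0 : ∀ a i, hatW W 0 a i = 0 := fun a i => physf_hat_zero _
  have f3 : DivFree (hatW W) := fun ξ a => by
    by_cases hξ : ξ = 0
    · simp [hξ]
    · exact PhysFRep.div (hf a) (h.div a) hξ
  have ray : ∀ ξ, ξ ≠ 0 → HasDerivAt (fun μ : ℝ => μ ^ 2 • hatW W (μ • ξ))
      ((2 : ℝ) • (hr ν ξ • hatW W ξ + NL c (hatW W) (hatW W) ξ)) 1 := fun ξ hξ => by
    refine hasDerivAt_pi.2 fun a => hasDerivAt_pi.2 fun i => ?_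
    have h1 := hasDerivAt_ray_rap (hf a i).rap (hz a i).rap (hu a i) (hf a i).eq (hz a i).eq hξ
    have z3 := PhysFRep.div (hz a) (physf_div (hs a) (h.div a)) hξ
    obtain ⟨P, hP, hP'⟩ := h.eqn a
    have h2 := PhysFRep.grad hP (fun k => by
      have h3 := ((((hz a k).smul (1 / 2)).add
        ((PhysFRep.sum fun j => ((hf a k).coord j).coord j).smul (-ν))).add
        (PhysFRep.sum fun b => PhysFRep.sum fun d => (PhysFRep.sum fun j =>
          ((hf b j).cv (hf d k)).coord j).smul (c a b d)))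
      convert h3 using 2 with y
      have h4 := hP' y k
      have h5 : ∀ b d, ∑ j, pd j (fun x => W b x j * W d x k) y =
          ∑ j, W b y j * pd j (fun x => W d x k) y := fun b d => by
        simp only [pd_mul (hu b _ y) (hu d k y), Finset.sum_add_distrib, ← Finset.sum_mul,
          h.div b, zero_mul, zero_add]
      simp only [h5]
      rw [lap] at h4
      linarith only [h4]) hξ i
    have h3 : ∀ k, ((-ν : ℝ) : ℂ) * ∑ j, 2 * Real.pi * Complex.I * (ξ j : ℂ) *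
        (2 * Real.pi * Complex.I * (ξ j : ℂ) * hatW W ξ a k) = (hr ν ξ : ℂ) * hatW W ξ a k :=
      fun k => by
      simp only [hr, norm_sq_eq_sum, Fin.sum_univ_three]
      push_cast
      linear_combination
        (-(4 * Real.pi ^ 2 * ν * (ξ 0 ^ 2 + ξ 1 ^ 2 + ξ 2 ^ 2) * hatW W ξ a k) : ℂ) *
          Complex.I_mul_I
    have h4 : ∑ k, (lr ξ i k : ℂ) * ∑ b, ∑ d, (c a b d : ℂ) * ∑ j, 2 * Real.pi * Complex.I *
        (ξ j : ℂ) * cv (fun η => hatW W η b j) (fun η => hatW W η d k) ξ =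
          NL c (hatW W) (hatW W) ξ a i := by
      simp only [NL, Finset.mul_sum]
      rw [Finset.sum_comm]
      refine Finset.sum_congr rfl fun b _ => ?_
      rw [Finset.sum_comm]
      refine Finset.sum_congr rfl fun d _ => Finset.sum_congr rfl fun k _ =>
        Finset.sum_congr rfl fun j _ => ?_
      push_cast
      ring
    simp only [h3, mul_add, Finset.sum_add_distrib, h4, mul_left_comm _ (hr ν ξ : ℂ),
      mul_left_comm _ ((1 / 2 : ℝ) : ℂ), ← Finset.mul_sum, lr_of_div (f3 ξ a), lr_of_div z3] at h2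
    refine h1.congr_deriv ?_
    simp only [Pi.smul_apply, Pi.add_apply, Complex.real_smul]
    push_cast at h2 ⊢
    linear_combination -(2 : ℂ) * h2
  refine ⟨continuousOn_pi.2 fun a => continuousOn_pi.2 fun i => (hf a i).rap.cont,
    exp_decay hν (physf_bound (w2_nonneg 0) fun a i => (h.sy a i).rap_hat.2)
      (physf_bound (wt_nonneg 0) fun a i => ?_) ray, f3,
    fun ξ => funext fun a => funext fun i => hat_neg _ ξ, ray, ?_, by rw [hp]; exact h.ne⟩
  · obtain ⟨C, hC⟩ := (hf a i).rap.bound 0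
    refine ⟨C, fun ξ => ?_⟩
    by_cases hξ : ξ = 0
    · rw [hξ, h0, wt_zero, norm_zero, mul_zero]
    · simpa using hC ξ hξ
  · choose C _ hC using fun a i => (h.sy a i).le
    refine ⟨∑ a, |∑ i, C a i|, fun a y => ?_⟩
    rw [hp]
    refine (physf_norm_le _).trans ((Finset.sum_le_sum fun i _ => hC a i () y).trans ?_)
    rw [← Finset.sum_mul, zpow_neg_one, ← div_eq_mul_inv]
    exact div_le_div_of_nonneg_right (proff_le (C := fun a => ∑ i, C a i) a) (by positivity)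

end

end Pool.Agent.Work.MP_6bf1e5_an.Mat
end
end

-- merged part: Pool.Agent.Work.MP_6bf1e5_an.Ens.Main
section
-- merged part: Pool.Agent.Work.MP_6bf1e5_an.Ens.Dense
section
/-!
Density of smooth data with compact support away from the origin: multiply by a continuous cut-off
that vanishes near `0` and near infinity (`XX.fn_origin`, `XX.zero`), approximate uniformly by a smooth
function with smaller support (`Continuous.exists_contDiff_approx`), apply the symbol `lr`.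
-/

open scoped ContDiff ENNReal FourierTransform Topology ComplexConjugate
open Set MeasureTheory Filter Polynomial Metric

namespace Pool.Agent.Work.MP_6bf1e5_an.Ens

noncomputable section

variable {ι : Type} [Fintype ι]

theorem dense_smooth {F : Type} [NormedAddCommGroup F] [NormedSpace ℝ F] {f : R3 → F}
    (h : ContDiffOn ℝ ∞ f {0}ᶜ) (h0 : f =ᶠ[𝓝 0] 0) : ContDiff ℝ ∞ f := by
  refine contDiff_iff_contDiffAt.2 fun ξ => ?_
  by_cases hξ : ξ = 0
  · subst hξ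
    exact contDiffAt_const.congr_of_eventuallyEq h0
  · exact h.contDiffAt (isOpen_compl_singleton.mem_nhds hξ)

theorem dense_cut (v : XX ι) {δ : ℝ} (hδ : 0 < δ) :
    ∃ g : R3 → V ι, ContDiff ℝ ∞ g ∧ HasCompactSupport g ∧ g =ᶠ[𝓝 0] 0 ∧
      ∀ ξ, ‖g ξ - v.fn ξ‖ ≤ 3 * δ := by
  let χ : R3 → ℝ := fun ξ => max 0 (min 1 ((‖v.fn ξ‖ - δ) / δ))
  have hv := v.cont
  have hχ : Continuous χ :=
    continuous_const.max (continuous_const.min ((hv.norm.sub continuous_const).div_const δ))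
  obtain ⟨g, hg, h1, h2⟩ := (hχ.smul hv).exists_contDiff_approx ⊤ (ε := fun _ => δ)
    continuous_const fun _ => hδ
  have h3 : ∀ ξ, ‖v.fn ξ‖ < δ → g ξ = 0 := fun ξ hξ => by
    by_contra hne
    refine h2 hne ?_
    have e : χ ξ = 0 :=
      max_eq_left ((min_le_right _ _).trans (div_nonpos_of_nonpos_of_nonneg (by linarith only [hξ]) hδ.le))
    simp [e]
  have hK : IsCompact {ξ | δ ≤ ‖v.fn ξ‖} := by
    have h4 := Metric.tendsto_nhds.1 v.zero δ hδ
    obtain ⟨K, hK, h5⟩ := mem_cocompact.1 h4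
    refine hK.of_isClosed_subset (isClosed_le continuous_const hv.norm) fun ξ hξ => ?_
    by_contra hn
    have h6 : dist (v.fn ξ) 0 < δ := h5 hn
    rw [dist_zero_right] at h6
    exact absurd hξ (not_le.2 h6)
  refine ⟨g, hg, HasCompactSupport.intro hK fun ξ hξ => h3 ξ (not_le.1 hξ), ?_, fun ξ => ?_⟩
  · have h4 : ∀ᶠ ξ in 𝓝 (0 : R3), ‖v.fn ξ‖ < δ :=
      hv.norm.continuousAt.eventually_lt continuousAt_const (by rwa [v.fn_origin, norm_zero])
    exact h4.mono h3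
  · have h4 : ‖g ξ - χ ξ • v.fn ξ‖ < δ := (dist_eq_norm _ _).symm.trans_lt (h1 ξ)
    have h5 : ‖χ ξ • v.fn ξ - v.fn ξ‖ ≤ 2 * δ := by
      by_cases h : 2 * δ ≤ ‖v.fn ξ‖
      · have e : χ ξ = 1 := by
          have h6 : 1 ≤ (‖v.fn ξ‖ - δ) / δ := (one_le_div hδ).2 (by linarith only [h])
          simp only [χ, min_eq_left h6, max_eq_right zero_le_one]
        rw [e, one_smul, sub_self, norm_zero]
        positivity
      · have h6 : 0 ≤ χ ξ := le_max_left _ _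
        have h7 : χ ξ ≤ 1 := max_le zero_le_one (min_le_left _ _)
        have e : χ ξ • v.fn ξ - v.fn ξ = (χ ξ - 1) • v.fn ξ := by rw [sub_smul, one_smul]
        rw [e, norm_smul, Real.norm_eq_abs, abs_of_nonpos (by linarith)]
        linarith only [hδ, h6, h, h7, norm_nonneg (v.fn ξ), mul_nonneg_of_nonpos_of_nonpos (le_of_lt (Mathlib.Tactic.Linarith.sub_neg_of_lt hδ)) (Mathlib.Tactic.Linarith.sub_nonpos_of_le h6), mul_nonneg_of_nonpos_of_nonpos (le_of_lt (Mathlib.Tactic.Linarith.sub_neg_of_lt (lt_of_not_ge h))) (Mathlib.Tactic.Linarith.sub_nonpos_of_le h7)]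
    linarith only [h4, h5, norm_sub_le_norm_sub_add_norm_sub (g ξ) (χ ξ • v.fn ξ) (v.fn ξ)]

theorem dense_Ds : Dense (Ds ι : Set (XX ι)) := by
  refine Metric.dense_iff.2 fun v ε hε => ?_
  obtain ⟨g, hg, hc, h0, hd⟩ := dense_cut v (δ := ε / 20) (by positivity)
  let w : R3 → V ι := fun ξ a i => ∑ k, (lr ξ i k : ℂ) * g ξ a k
  have hz : ∀ ξ, g ξ = 0 → w ξ = 0 := fun ξ h => by
    funext a i
    simp [w, h]
  have hw0 : w =ᶠ[𝓝 0] 0 := h0.mono hz
  have hwc : HasCompactSupport w := hc.mono fun ξ h h' => h (hz ξ h')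
  have hw : ContDiff ℝ ∞ w := by
    refine dense_smooth (contDiffOn_pi.2 fun a => contDiffOn_pi.2 fun i =>
      ContDiffOn.sum fun k _ => ContDiffOn.mul ?_ ?_) hw0
    · exact Complex.ofRealCLM.contDiff.comp_contDiffOn (contDiffOn_lr i k)
    · exact (contDiff_pi.1 (contDiff_pi.1 hg a) k).contDiffOn
  have hdiv : DivFree w := fun ξ a => by
    by_cases hξ : ξ = 0
    · simp [hξ]
    · have e : ∀ k, ∑ j, (ξ j : ℂ) * (lr ξ j k : ℂ) = 0 := fun k => by
        exact_mod_cast sum_mul_lr hξ k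
      simp only [w, Finset.mul_sum, ← mul_assoc]
      rw [Finset.sum_comm]
      simp only [← Finset.sum_mul, e, zero_mul, Finset.sum_const_zero]
  obtain ⟨C, hC⟩ := hw.continuous.bounded_above_of_compact_support hwc
  refine ⟨XX.mk w hw.continuous C hC hdiv hwc.is_zero_at_infty, ?_, hw, hwc, hw0⟩
  rw [mem_ball, dist_eq_norm]
  refine lt_of_le_of_lt (XX.norm_le _ (C := 18 * (ε / 20)) (by positivity) fun ξ => ?_)
    (by linarith only [hε])
  rw [XX.fn_sub, XX.fn_mk]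
  refine (pi_norm_le_iff_of_nonneg (by positivity)).2 fun a =>
    (pi_norm_le_iff_of_nonneg (by positivity)).2 fun i => ?_
  have e : (w ξ - v.fn ξ) a i = ∑ k, (lr ξ i k : ℂ) * (g ξ - v.fn ξ) a k := by
    simp only [Pi.sub_apply, mul_sub, Finset.sum_sub_distrib, lr_of_div (v.div ξ a) i, w]
  rw [e]
  have h1 : ∀ k, ‖(lr ξ i k : ℂ) * (g ξ - v.fn ξ) a k‖ ≤ 2 * (3 * (ε / 20)) := fun k => by
    rw [norm_mul, Complex.norm_real, Real.norm_eq_abs]
    exact mul_le_mul (abs_lr_le ξ i k)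
      (((norm_le_pi_norm _ k).trans (norm_le_pi_norm _ a)).trans (hd ξ)) (norm_nonneg _)
      zero_le_two
  refine (norm_sum_le _ _).trans ?_
  rw [Fin.sum_univ_three]
  linarith only [h1, h1 0, h1 1, h1 2]

theorem Ds_lift {v : XX ι} (hv : v ∈ Ds ι) (κ : ℝ) :
    ContDiff ℝ ∞ (fun ξ => wt κ ξ • v.fn ξ) ∧ HasCompactSupport fun ξ => wt κ ξ • v.fn ξ := by
  obtain ⟨h1, h2, h3⟩ := hv
  refine ⟨dense_smooth ((contDiffOn_wt κ).smul h1.contDiffOn) (h3.mono fun ξ h => ?_),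
    h2.mono fun ξ h h' => h ?_⟩
  · simp [h]
  · simp [h']

end

end Pool.Agent.Work.MP_6bf1e5_an.Ens
end

-- merged part: Pool.Agent.Work.MP_6bf1e5_an.Ens.DMain
section
/-!
The Fourier-side solution that converges to the profile. Take `κ, M, Wn` from `Profile.normalised`,
`K` from `exists_Bil`, `t1 ≤ 3/4` with `2 K t1^(1/4) M < 1`, `q = 1 - t1`, `L = B U + B.flip U`; apply
`stable`, `Ops.segment`, `exists_glue` (matching by `Ops.lift_E`) and `Uh_scale`. On the `n`-th interval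
`√(1-t) ∫ |f - Uh| ≤ √(q^n) q^n q^(-3n/2) ρ^n ∫ wt`.
-/

open scoped ContDiff ENNReal FourierTransform Topology ComplexConjugate
open Set MeasureTheory Filter Polynomial Metric

namespace Pool.Agent.Work.MP_6bf1e5_an.Ens

noncomputable section

variable {ι : Type} [Fintype ι]

theorem dmain_t1 {K M : ℝ} (hK : 0 ≤ K) : ∃ t1 : ℝ, 0 < t1 ∧ t1 ≤ 3 / 4 ∧
    2 * (K * t1 ^ (1 / 4 : ℝ) * M) < 1 := by
  have hA : 0 ≤ K * |M| := mul_nonneg hK (abs_nonneg M)
  set s : ℝ := 1 / (2 * (K * |M|) + 2) with hs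
  have s0 : 0 < s := by positivity
  have s1 : s ≤ 1 / 2 := one_div_le_one_div_of_le (by norm_num) (by linarith only [hA])
  have e : (s ^ 4) ^ (1 / 4 : ℝ) = s := by
    have := Real.pow_rpow_inv_natCast s0.le (n := 4) (by norm_num)
    simpa using this
  refine ⟨s ^ 4, by positivity, ?_, ?_⟩
  · have := pow_le_pow_left₀ s0.le s1 4
    norm_num at this ⊢
    linarith only [s0, s1, this]
  · rw [e]
    have h1 : K * s * M ≤ K * s * |M| :=
      mul_le_mul_of_nonneg_left (le_abs_self M) (mul_nonneg hK s0.le)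
    have h2 : s * (2 * (K * |M|) + 2) = 1 := by
      rw [hs]
      field_simp
    linarith only [s0, h1, h2]

theorem dmain_interval {q t : ℝ} (h0 : 0 < q) (h1 : q < 1) {N : ℕ} (ht : t ∈ Ico (1 - q ^ N) 1) :
    ∃ n, N ≤ n ∧ t ∈ Icc (1 - q ^ n) (1 - q ^ (n + 1)) := by
  have hN : 0 < q ^ N := pow_pos h0 N
  have a0 : 0 < (1 - t) / q ^ N := div_pos (by linarith [ht.2]) hN
  have a1 : (1 - t) / q ^ N ≤ 1 := (div_le_one hN).2 (by linarith [ht.1])
  obtain ⟨m, m1, m2⟩ := exists_nat_pow_near_of_lt_one a0 a1 h0 h1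
  rw [lt_div_iff₀ hN] at m1
  rw [div_le_iff₀ hN] at m2
  refine ⟨m + N, Nat.le_add_left _ _, ?_, ?_⟩
  · rw [pow_add]
    linarith only [m2]
  · have : q ^ (m + N + 1) = q ^ (m + 1) * q ^ N := by ring
    rw [this]
    linarith only [m1]

theorem dmain_int {κ r a s : ℝ} (hκ : 0 < κ) (hr : 0 < r) (hs : s ≤ r) {g : R3 → V ι}
    (hg : ∀ ξ, ‖g ξ‖ ≤ r * (a * wt κ (√r • ξ))) :
    √s * ∫ ξ, ‖g ξ‖ ≤ a * ∫ ξ, wt κ ξ := by
  have hl : 0 < √r := Real.sqrt_pos.2 hr
  have hi : Integrable fun ξ : R3 => r * (a * wt κ (√r • ξ)) :=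
    (((integrable_wt hκ).comp_smul hl.ne').const_mul a).const_mul r
  have h1 : ∫ ξ, ‖g ξ‖ ≤ ∫ ξ : R3, r * (a * wt κ (√r • ξ)) :=
    integral_mono_of_nonneg (Eventually.of_forall fun ξ => norm_nonneg _) hi
      (Eventually.of_forall hg)
  have h2 : ∫ ξ : R3, wt κ (√r • ξ) = (√r ^ 3)⁻¹ * ∫ ξ, wt κ ξ := by
    rw [Measure.integral_comp_smul_of_nonneg volume (wt κ) (√r) (hR := hl.le)]
    simp
  rw [integral_const_mul, integral_const_mul, h2] at h1
  have hI : 0 ≤ ∫ ξ, wt κ ξ := integral_nonneg fun ξ => wt_nonneg κ ξ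
  have h3 : √s ≤ √r := Real.sqrt_le_sqrt hs
  have h4 : √r * (r * (a * ((√r ^ 3)⁻¹ * ∫ ξ, wt κ ξ))) = a * ∫ ξ, wt κ ξ := by
    have : √r ^ 3 = √r * r := by
      rw [pow_succ, Real.sq_sqrt hr.le, mul_comm]
    rw [this]
    field_simp
  calc √s * ∫ ξ, ‖g ξ‖ ≤ √r * ∫ ξ, ‖g ξ‖ :=
        mul_le_mul_of_nonneg_right h3 (integral_nonneg fun ξ => norm_nonneg _)
    _ ≤ √r * (r * (a * ((√r ^ 3)⁻¹ * ∫ ξ, wt κ ξ))) := mul_le_mul_of_nonneg_left h1 hl.le
    _ = _ := h4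

theorem Profile.exists_fsol {ν : ℝ} {c : ι → ι → ι → ℝ} {W : R3 → V ι} (hν : 0 < ν)
    (h : Profile ν c W) : ∃ f : ℝ → R3 → V ι, FSol ν c f ∧ ContDiff ℝ ∞ (f 0) ∧
      HasCompactSupport (f 0) ∧ ∀ ε > 0, ∃ t0, 0 ≤ t0 ∧ t0 < 1 ∧ ∀ t ∈ Ico t0 1,
        √(1 - t) * ∫ ξ, ‖f t ξ - Uh W t ξ‖ ≤ ε := by
  obtain ⟨κ, hκ, M, ⟨Wn, hWs, hWn⟩, hU⟩ := h.normalised
  obtain ⟨K, hK, hB⟩ := exists_Bil c hν
  obtain ⟨t1, h0, h34, hsm⟩ := dmain_t1 (M := M) hK
  have h1 : t1 < 1 := by linarith only [h0, h34]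
  obtain ⟨U, hUM, hUs, hUl⟩ := hU t1 h0 h34
  obtain ⟨B, hBn, hBf⟩ := hB κ hκ t1 h0
  obtain ⟨H, hHn, hHf⟩ := exists_H (ι := ι) hν t1
  obtain ⟨E, hEn, hEf⟩ := exists_E (ι := ι) hκ h0 h1
  obtain ⟨σ, hσ⟩ := exists_sigX (ι := ι)
  obtain ⟨σ', hσ'⟩ := exists_sigY (ι := ι)
  have O : Ops ν c κ t1 H E B σ σ' := ⟨hHf, hEf, hBf, hσ, hσ'⟩
  have hBM : ‖B‖ * ‖U‖ ≤ K * t1 ^ (1 / 4 : ℝ) * M :=
    mul_le_mul hBn hUM (norm_nonneg _) (mul_nonneg hK (Real.rpow_nonneg h0.le _))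
  have hL : ‖B U + B.flip U‖ < 1 := by
    have a1 := norm_add_le (B U) (B.flip U)
    have a2 := B.le_opNorm U
    have a3 := B.flip.le_opNorm U
    rw [ContinuousLinearMap.opNorm_flip] at a3
    linarith only [hsm, hBM, a1, a2, a3]
  have hq0 : 0 < 1 - t1 := by linarith only [h1]
  have hq1 : 1 - t1 < 1 := by linarith only [h0]
  have hEH : ‖E ∘L H‖ < 1 := by
    have a1 := E.opNorm_comp_le H
    have a2 : (1 - t1) ^ (1 / 4 : ℝ) < 1 := Real.rpow_lt_one hq0.le hq1 (by norm_num)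
    have a3 : ‖E‖ * ‖H‖ ≤ ‖E‖ * 1 := mul_le_mul_of_nonneg_left hHn (norm_nonneg _)
    linarith only [hEn, a1, a2, a3]
  have hUσ : σ' U = U := O.sig_eq' hUs
  have hLσ : ∀ y, (B U + B.flip U) (σ' y) = σ' ((B U + B.flip U) y) := fun y => by
    have a1 := O.B_sig U y
    have a2 := O.B_sig y U
    rw [hUσ] at a1 a2
    simp only [add_apply, ContinuousLinearMap.flip_apply, map_add, a1, a2]
  obtain ⟨ρ, ρ0, ρ1, v, y, hv0, hy⟩ := stable H E (B U + B.flip U) B σ σ' hL hEH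
    (fun ε hε => O.approx hν hκ h0 h1 U hε) O.sig_sig O.H_sig O.E_sig hLσ O.B_sig (Ds ι)
    dense_Ds (fun x hx => O.sig_mem hx) Wn (O.sig_eq hWs)
  have hseg := fun n => O.segment hκ h0 h1 h hUl (y := y n) (v := v n)
    (by simpa only [add_apply, ContinuousLinearMap.flip_apply] using (hy n).1)
    (hy n).2.2.1
  have hl : 0 < √(1 - t1) := Real.sqrt_pos.2 hq0
  obtain ⟨f, hf, hfe⟩ := exists_glue (ν := ν) (c := c) hq0 hq1
    (F := fun n s ξ => Uh W s ξ + lift κ (y n).fn s ξ)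
    (fun n => by simpa only [sub_sub_cancel] using (hseg n).1) fun n ξ => by
      have a1 := O.lift_E h1 (y n) (√(1 - t1) • ξ)
      rw [smul_smul, inv_mul_cancel₀ hl.ne', one_smul, ← (hy n).2.1, ← (hseg (n + 1)).2] at a1
      have a2 : Uh W t1 ξ = (1 - t1) • Uh W 0 (√(1 - t1) • ξ) := by
        simp [Uh]
      simp only [sub_sub_cancel]
      rw [smul_add, a1, smul_smul, mul_inv_cancel₀ hq0.ne', one_smul, a2]
  have hf0 : f 0 = fun ξ => wt κ ξ • (Wn + v 0).fn ξ := funext fun ξ => by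
    have a1 := hfe 0 0 ⟨by simp, by simpa using h0.le⟩ ξ
    simp only [pow_zero, sub_self, zero_div, Real.sqrt_one, one_smul] at a1
    rw [a1, (hseg 0).2, XX.fn_add, smul_add, hWn]
    simp [Uh]
  obtain ⟨d1, d2⟩ := Ds_lift hv0 κ
  refine ⟨f, hf, hf0 ▸ d1, hf0 ▸ d2, fun ε hε => ?_⟩
  have hI : 0 ≤ ∫ ξ, wt κ ξ := integral_nonneg fun ξ => wt_nonneg κ ξ
  obtain ⟨N, hN⟩ := exists_pow_lt_of_lt_one (show 0 < ε / ((∫ ξ, wt κ ξ) + 1) by positivity) ρ1
  rw [lt_div_iff₀ (by positivity)] at hN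
  refine ⟨1 - (1 - t1) ^ N, sub_nonneg.2 (pow_le_one₀ hq0.le hq1.le),
    sub_lt_self _ (pow_pos hq0 N), fun t ht => ?_⟩
  obtain ⟨n, hn, htn⟩ := dmain_interval hq0 hq1 ht
  have hr : 0 < (1 - t1) ^ n := pow_pos hq0 n
  have b1 : √(1 - t) * ∫ ξ, ‖f t ξ - Uh W t ξ‖ ≤ ρ ^ n * ∫ ξ, wt κ ξ := by
    refine dmain_int hκ hr (by linarith only [htn, htn.1]) fun ξ => ?_
    rw [hfe n t htn ξ, smul_add, Uh_scale W hr, add_sub_cancel_left, norm_smul,
      Real.norm_of_nonneg hr.le]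
    refine mul_le_mul_of_nonneg_left ((((y n).vb κ _).bound _).trans ?_) hr.le
    exact mul_le_mul_of_nonneg_right (hy n).2.2.2 (wt_nonneg _ _)
  have b2 : ρ ^ n ≤ ρ ^ N := pow_le_pow_of_le_one ρ0.le ρ1.le hn
  have b3 : 0 < ρ ^ N := pow_pos ρ0 N
  linarith only [hN, b1, b3, b2, hI, mul_le_mul_of_nonneg_right b2 hI]

end

end Pool.Agent.Work.MP_6bf1e5_an.Ens
end

-- merged part: Pool.Agent.Work.MP_6bf1e5_an.Ens.Bounds
section
/-!
Bounds in physical space. For `SSol.energy_lt`: for `ξ ≠ 0` the derivative of `exp (hr t) • f t ξ` is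
`-exp (hr t) • NL`, so `|f t ξ| ≤ |f 0 ξ| + T K |ξ| w2 κ ξ ≤ C + C'/|ξ|`; use this for `|ξ| ≤ 1`, the weight for
`|ξ| ≥ 1`, and `lintegral_ev_sq_le`.
-/

open scoped ContDiff ENNReal FourierTransform Topology ComplexConjugate
open Set MeasureTheory Filter Polynomial Metric

namespace Pool.Agent.Work.MP_6bf1e5_an.Ens

noncomputable section

variable {ι : Type} [Fintype ι]

variable {ν T : ℝ} {c : ι → ι → ι → ℝ} {f : ℝ → R3 → V ι}

theorem bounds_comp_le (v : V ι) (a : ι) (i : Fin 3) : ‖v a i‖ ≤ ‖v‖ :=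
  (norm_le_pi_norm (v a) i).trans (norm_le_pi_norm v a)

theorem bounds_re_ev_le {f : R3 → ℂ} {g : R3 → ℝ} (hg : Integrable g) (h : ∀ ξ, ‖f ξ‖ ≤ g ξ)
    (x : R3) : |(ev f x).re| ≤ ∫ ξ, g ξ :=
  (Complex.abs_re_le_norm _).trans ((norm_ev_le f x).trans (integral_mono_of_nonneg
    (Eventually.of_forall fun _ => norm_nonneg _) hg (Eventually.of_forall h)))

theorem bounds_vb (h : SSol ν c 0 T f) :
    ∃ C κ : ℝ, 0 ≤ C ∧ 0 < κ ∧ ∀ t ∈ Icc 0 T, VB κ C (f t) := by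
  obtain ⟨C, κ, hκ, hb⟩ := h.bound
  refine ⟨|C|, κ, abs_nonneg C, hκ, fun t ht => ⟨?_, fun ξ => (hb t ht ξ).trans
    (mul_le_mul_of_nonneg_right (le_abs_self C) (wt_nonneg κ ξ))⟩⟩
  exact h.cont.comp (f := fun ξ : R3 => (t, ξ)) (by fun_prop) fun ξ hξ => ⟨ht, hξ⟩

theorem bounds_duhamel (h : SSol ν c 0 T f) (hν : 0 < ν) {ξ : R3} (hξ : ξ ≠ 0) {N : ℝ}
    (hN : ∀ t ∈ Icc 0 T, ‖NL c (f t) (f t) ξ‖ ≤ N) {t : ℝ} (ht : t ∈ Icc 0 T) :
    ‖f t ξ‖ ≤ ‖f 0 ξ‖ + N * t := by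
  have hh : 0 ≤ hr ν ξ := by
    unfold hr
    positivity
  have hsub : Icc 0 t ⊆ Icc 0 T := Icc_subset_Icc_right ht.2
  have h1 := norm_image_sub_le_of_norm_deriv_le_segment'
    (f := fun s => Real.exp (hr ν ξ * s) • f s ξ)
    (f' := fun s => -(Real.exp (hr ν ξ * s) • NL c (f s) (f s) ξ)) (a := 0) (b := t)
    (C := Real.exp (hr ν ξ * t) * N) (fun s hs => by
      have h2 : HasDerivAt (fun s => Real.exp (hr ν ξ * s)) (Real.exp (hr ν ξ * s) * hr ν ξ) s := by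
        simpa using ((hasDerivAt_id s).const_mul (hr ν ξ)).exp
      refine (h2.hasDerivWithinAt.fun_smul ((h.ode ξ hξ s (hsub hs)).mono hsub)).congr_deriv ?_
      rw [smul_sub, smul_neg, smul_smul]
      abel)
    (fun s hs => by
      rw [norm_neg, norm_smul, Real.norm_of_nonneg (Real.exp_pos _).le]
      exact mul_le_mul (Real.exp_le_exp.2 (mul_le_mul_of_nonneg_left hs.2.le hh))
        (hN s (hsub ⟨hs.1, hs.2.le⟩)) (norm_nonneg _) (Real.exp_pos _).le) t ⟨ht.1, le_rfl⟩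
  simp only [mul_zero, Real.exp_zero, one_smul, sub_zero] at h1
  have h3 := (norm_sub_norm_le _ _).trans h1
  rw [norm_smul, Real.norm_of_nonneg (Real.exp_pos _).le] at h3
  have h4 : 1 ≤ Real.exp (hr ν ξ * t) := Real.one_le_exp (mul_nonneg hh ht.1)
  refine le_of_mul_le_mul_left ?_ (Real.exp_pos (hr ν ξ * t))
  linarith only [h3, h4, mul_le_mul_of_nonneg_right h4 (norm_nonneg (f 0 ξ))]

theorem bounds_sq (h : SSol ν c 0 T f) (hν : 0 < ν) (h0 : ∃ C : ℝ, ∀ ξ, ‖f 0 ξ‖ ≤ C) :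
    ∃ D κ : ℝ, 0 < κ ∧ ∀ t ∈ Icc 0 T, ∀ ξ, ‖f t ξ‖ ^ 2 ≤ D * wt κ ξ := by
  obtain ⟨C, κ, hC, hκ, hb⟩ := bounds_vb h
  obtain ⟨C0, h0⟩ := h0
  obtain ⟨K, hK, hN⟩ := exists_norm_NL_le c
  have hC0 : 0 ≤ C0 := (norm_nonneg _).trans (h0 0)
  refine ⟨C ^ 2 + (C0 + K * C * C * T) ^ 2 * Real.exp κ, κ, hκ, fun t ht ξ => ?_⟩
  have hw := wt_nonneg κ ξ
  have hT : 0 ≤ T := ht.1.trans ht.2
  rw [add_mul]
  by_cases hξ : ξ = 0
  · have h1 := (hb t ht).bound ξ
    rw [hξ, wt_zero, mul_zero, norm_le_zero_iff] at h1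
    simp [hξ, h1, wt_zero]
  have hn : 0 < ‖ξ‖ := norm_pos_iff.2 hξ
  rcases le_total 1 ‖ξ‖ with h1 | h1
  · have h2 := wt_le_of_le hκ.le one_pos h1
    rw [Real.one_rpow] at h2
    have h3 := pow_le_pow_left₀ (norm_nonneg _) ((hb t ht).bound ξ) 2
    have h4 : C ^ 2 * (wt κ ξ * wt κ ξ) ≤ C ^ 2 * (1 * wt κ ξ) := by gcongr
    have h5 : 0 ≤ (C0 + K * C * C * T) ^ 2 * Real.exp κ * wt κ ξ := by positivity
    linarith only [h3, h4, h5]
  · have h2 := bounds_duhamel h hν hξ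
      (fun s hs => hN (f s) (f s) κ C C hκ.le hC hC (hb s hs).bound (hb s hs).bound ξ) ht
    have e1 : Real.exp (-(κ * ‖ξ‖)) ≤ 1 := Real.exp_le_one_iff.2 (neg_nonpos.2 (by positivity))
    have h3 : ‖ξ‖ * (‖ξ‖ * w2 κ ξ) ≤ 1 := by
      rw [w2, ← mul_assoc, ← mul_assoc, ← pow_two, mul_inv_cancel₀ (by positivity), one_mul]
      exact e1
    have h4 : ‖ξ‖ * ‖f t ξ‖ ≤ C0 + K * C * C * T :=
      calc ‖ξ‖ * ‖f t ξ‖ ≤ ‖ξ‖ * (C0 + K * C * C * (‖ξ‖ * w2 κ ξ) * t) := by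
            gcongr
            linarith only [h2, h0, h0 ξ]
        _ = ‖ξ‖ * C0 + K * C * C * ((‖ξ‖ * (‖ξ‖ * w2 κ ξ)) * t) := by ring
        _ ≤ 1 * C0 + K * C * C * (1 * T) := by
            have := ht.1
            have := ht.2
            gcongr
        _ = _ := by ring
    have h5 : (‖ξ‖ ^ 2)⁻¹ ≤ Real.exp κ * wt κ ξ := by
      have h6 : w2 κ ξ ≤ wt κ ξ := by
        rw [w2_eq]
        exact mul_le_of_le_one_left hw (Real.rpow_le_one hn.le h1 (by norm_num))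
      refine le_trans ?_ (mul_le_mul_of_nonneg_left h6 (Real.exp_pos κ).le)
      rw [w2, mul_left_comm, ← Real.exp_add]
      exact le_mul_of_one_le_right (by positivity) (Real.one_le_exp (by linarith only [hκ, h1, mul_nonneg_of_nonpos_of_nonpos (le_of_lt (Mathlib.Tactic.Linarith.sub_neg_of_lt hκ)) (Mathlib.Tactic.Linarith.sub_nonpos_of_le h1)]))
    have h7 : ‖f t ξ‖ ^ 2 ≤ (C0 + K * C * C * T) ^ 2 * (‖ξ‖ ^ 2)⁻¹ := by
      rw [← div_eq_mul_inv, le_div_iff₀ (by positivity), ← mul_pow, mul_comm]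
      exact pow_le_pow_left₀ (by positivity) h4 2
    have h8 := mul_le_mul_of_nonneg_left h5 (sq_nonneg (C0 + K * C * C * T))
    have h9 : 0 ≤ C ^ 2 * wt κ ξ := by positivity
    linarith only [h7, h8, h9]

omit [Fintype ι] in
theorem bounds_enorm (g : R3 → V ι) (a : ι) (x : R3) :
    ‖phys g a x‖ₑ ^ 2 ≤ ∑ i, ‖ev (fun ξ => g ξ a i) x‖ₑ ^ 2 := by
  simp only [← ofReal_norm, ← ENNReal.ofReal_pow (norm_nonneg _)]
  rw [← ENNReal.ofReal_sum_of_nonneg fun _ _ => sq_nonneg _, EuclideanSpace.norm_sq_eq]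
  refine ENNReal.ofReal_le_ofReal (Finset.sum_le_sum fun i _ => ?_)
  exact pow_le_pow_left₀ (norm_nonneg _) (Complex.abs_re_le_norm _) 2

theorem SSol.bounded (h : SSol ν c 0 T f) : ∃ M : ℝ, ∀ t ∈ Icc 0 T, ∀ a x i,
    |phys (f t) a x i| ≤ M ∧ ∀ j, |pd j (fun y => phys (f t) a y i) x| ≤ M := by
  obtain ⟨C, κ, hC, hκ, hb⟩ := bounds_vb h
  obtain ⟨C', -, hC'⟩ := pow_mul_wt_le hκ 1
  refine ⟨max (∫ ξ, C * wt κ ξ) (∫ ξ, 2 * Real.pi * C * (C' * wt (κ / 2) ξ)),
    fun t ht a x i => ⟨?_, fun j => ?_⟩⟩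
  · exact (bounds_re_ev_le ((integrable_wt hκ).const_mul C)
      (fun ξ => (bounds_comp_le _ a i).trans ((hb t ht).bound ξ)) x).trans (le_max_left _ _)
  · have hA := (hb t ht).adm hκ a i
    have e := pd_re_ev hA.integrable (by simpa using hA.integrable_pow 1) j x
    refine le_trans (le_of_eq (congrArg abs e)) ((bounds_re_ev_le
      (((integrable_wt (half_pos hκ)).const_mul C').const_mul _) (fun ξ => ?_) x).trans
      (le_max_right _ _))
    have h1 : ‖ξ j‖ ≤ (1 + ‖ξ‖) ^ 1 := by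
      rw [pow_one]
      linarith [PiLp.norm_apply_le ξ j]
    have h2 := (bounds_comp_le _ a i).trans ((hb t ht).bound ξ)
    have h3 := Real.pi_pos
    calc ‖2 * Real.pi * Complex.I * (ξ j : ℂ) * f t ξ a i‖
        = 2 * Real.pi * (‖ξ j‖ * ‖f t ξ a i‖) := by
          simp only [norm_mul, Complex.norm_real, Complex.norm_I, Complex.norm_ofNat,
            Real.norm_of_nonneg h3.le]
          ring
      _ ≤ 2 * Real.pi * ((1 + ‖ξ‖) ^ 1 * (C * wt κ ξ)) := by gcongr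
      _ = 2 * Real.pi * C * ((1 + ‖ξ‖) ^ 1 * wt κ ξ) := by ring
      _ ≤ _ := by
          have := hC' ξ
          gcongr

theorem SSol.energy_lt (h : SSol ν c 0 T f) (hν : 0 < ν) (h0 : ∃ C : ℝ, ∀ ξ, ‖f 0 ξ‖ ≤ C) :
    ∃ C < (⊤ : ℝ≥0∞), ∀ t ∈ Icc 0 T, energy (phys (f t)) ≤ C := by
  obtain ⟨C, κ, -, hκ, hb⟩ := bounds_vb h
  obtain ⟨D, κ', hκ', hD⟩ := bounds_sq h hν h0
  refine ⟨∑ _a : ι, ∑ _i : Fin 3, ∫⁻ ξ, ENNReal.ofReal (D * wt κ' ξ),
    ENNReal.sum_lt_top.2 fun _ _ => ENNReal.sum_lt_top.2 fun _ _ =>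
      ((integrable_wt hκ').const_mul D).lintegral_lt_top, fun t ht => ?_⟩
  refine Finset.sum_le_sum fun a _ => (lintegral_mono (bounds_enorm (f t) a)).trans ?_
  have hi := fun i => ((hb t ht).adm hκ a i).integrable
  rw [lintegral_finsetSum _ fun i _ => (continuous_ev (hi i)).measurable.enorm.pow_const 2]
  refine Finset.sum_le_sum fun i _ => (lintegral_ev_sq_le (hi i)).trans
    (lintegral_mono fun ξ => ?_)
  rw [← ofReal_norm, ← ENNReal.ofReal_pow (norm_nonneg _)]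
  exact ENNReal.ofReal_le_ofReal
    ((pow_le_pow_left₀ (norm_nonneg _) (bounds_comp_le _ a i) 2).trans (hD t ht ξ))

theorem exists_schwartz {g : R3 → V ι} (hg : ContDiff ℝ ∞ g) (hc : HasCompactSupport g) :
    ∃ u0 : ι → SchwartzMap R3 R3, ∀ a x, u0 a x = phys g a x := by
  have h1 : ∀ a i, HasCompactSupport fun ξ => g ξ a i := fun a i =>
    hc.comp_left (g := fun v : V ι => v a i) rfl
  have h2 : ∀ a i, ContDiff ℝ ∞ fun ξ => g ξ a i := fun a i =>
    contDiff_pi.1 (contDiff_pi.1 hg a) i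
  refine ⟨fun a => ∑ i, SchwartzMap.postcompCLM
    (Complex.reCLM.smulRight (EuclideanSpace.single i (1 : ℝ) : R3))
    (𝓕⁻ ((h1 a i).toSchwartzMap (h2 a i))), fun a x => ?_⟩
  have e : ∀ i, (𝓕⁻ ((h1 a i).toSchwartzMap (h2 a i)) : SchwartzMap R3 ℂ) x =
      ev (fun ξ => g ξ a i) x := fun i => congrFun (SchwartzMap.fourierInv_coe _) x
  ext j
  simp [SchwartzMap.postcompCLM_apply, e, phys, Pi.single_apply]

theorem phys_Uh (W : R3 → V ι) {t : ℝ} (ht : t < 1) (a : ι) (x : R3) :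
    phys (Uh W t) a x = (√(1 - t))⁻¹ • phys W a ((√(1 - t))⁻¹ • x) := by
  have hl : 0 < √(1 - t) := Real.sqrt_pos.2 (sub_pos.2 ht)
  have e : (1 - t) * (√(1 - t) ^ 3)⁻¹ = (√(1 - t))⁻¹ := by
    nth_rw 1 [← Real.sq_sqrt (sub_pos.2 ht).le]
    field_simp
  ext i
  change (ev (fun ξ => ((1 - t : ℝ) : ℂ) * W (√(1 - t) • ξ) a i) x).re =
    (√(1 - t))⁻¹ * (ev (fun ξ => W ξ a i) ((√(1 - t))⁻¹ • x)).re
  rw [ev_const_mul, ev_scale (fun ξ => W ξ a i) hl, ← mul_assoc, ← Complex.ofReal_mul, e,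
    Complex.re_ofReal_mul]

theorem norm_phys_sub_le {g g' : R3 → V ι} {κ κ' C C' : ℝ} (hκ : 0 < κ) (hκ' : 0 < κ')
    (hg : VB κ C g) (hg' : VB κ' C' g') (a : ι) (x : R3) :
    ‖phys g a x - phys g' a x‖ ≤ 3 * ∫ ξ, ‖g ξ - g' ξ‖ := by
  have hi : Integrable fun ξ => ‖g ξ - g' ξ‖ :=
    (Integrable.mono' (((integrable_wt hκ).const_mul C).add ((integrable_wt hκ').const_mul C'))
      (aesm_of_continuousOn (hg.cont.sub hg'.cont)) (Eventually.of_forall fun ξ =>
        (norm_sub_le _ _).trans (add_le_add (hg.bound ξ) (hg'.bound ξ)))).norm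
  have h0 : 0 ≤ ∫ ξ, ‖g ξ - g' ξ‖ := integral_nonneg fun _ => norm_nonneg _
  have h1 : ∀ i, ‖(phys g a x - phys g' a x) i‖ ^ 2 ≤ (∫ ξ, ‖g ξ - g' ξ‖) ^ 2 := fun i => by
    have h2 := bounds_re_ev_le (f := fun ξ => g ξ a i - g' ξ a i) hi
      (fun ξ => bounds_comp_le (g ξ - g' ξ) a i) x
    rw [ev_sub (hg.adm hκ a i).integrable (hg'.adm hκ' a i).integrable, Complex.sub_re] at h2
    exact pow_le_pow_left₀ (norm_nonneg _) h2 2
  refine le_of_sq_le_sq ?_ (by positivity)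
  rw [EuclideanSpace.norm_sq_eq, Fin.sum_univ_three]
  linarith only [h1, h1 0, h1 1, h1 2, sq_nonneg (∫ ξ, ‖g ξ - g' ξ‖), sq_nonneg (∫ (ξ : R3), ‖g ξ - g' ξ‖)]

end

end Pool.Agent.Work.MP_6bf1e5_an.Ens
end

-- merged part: Pool.Agent.Work.MP_6bf1e5_an.Ens.Classical
section
/-!
Fourier-side solutions give smooth solutions. The pressure has transform
`-∑ c a b d ∑ k j, ξ_k ξ_j / |ξ|² cv (f b j) (f d k)`; `NL = 2πi ∑ c ξ_j cv (f b j) (f d i) + 2πi ξ_i p`, and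
`ev (2πi ξ_j cv (f b j) (f d i)) = pd j (u b j * u d i)` (`ev_cv`, `ev_real`, `ev_coord`).
-/

open scoped ContDiff ENNReal FourierTransform Topology ComplexConjugate
open Set MeasureTheory Filter Polynomial Metric

namespace Pool.Agent.Work.MP_6bf1e5_an.Ens

noncomputable section

variable {ι : Type} [Fintype ι]

/-- The symbol of the pressure. -/
def classical_m (r : ℝ) (k j : Fin 3) (ξ : R3) : ℂ := ((-(r * (ξ k * ξ j / ‖ξ‖ ^ 2)) : ℝ) : ℂ)

/-- The transform of the pressure. -/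
def classical_P (c : ι → ι → ι → ℝ) (F : R3 → V ι) (a : ι) (ξ : R3) : ℂ :=
  ∑ b, ∑ d, ∑ k, ∑ j, classical_m (c a b d) k j ξ * cv (fun η => F η b j) (fun η => F η d k) ξ

theorem classical_m_cont (r : ℝ) (k j : Fin 3) : ContinuousOn (classical_m r k j) {0}ᶜ := by
  refine Complex.continuous_ofReal.comp_continuousOn (ContinuousOn.neg (continuousOn_const.mul ?_))
  refine ContinuousOn.div (by fun_prop) (by fun_prop) fun ξ hξ => ?_
  exact pow_ne_zero _ (norm_ne_zero_iff.2 hξ)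

theorem classical_m_le (r : ℝ) (k j : Fin 3) (ξ : R3) (hξ : ξ ≠ 0) :
    ‖classical_m r k j ξ‖ ≤ |r| * (1 + ‖ξ‖) ^ 0 := by
  have h0 : 0 < ‖ξ‖ := norm_pos_iff.2 hξ
  rw [classical_m, Complex.norm_real, norm_neg, norm_mul, pow_zero, Real.norm_eq_abs]
  refine mul_le_mul_of_nonneg_left ?_ (abs_nonneg r)
  rw [norm_div, norm_mul, norm_pow, norm_norm, div_le_one (by positivity), sq]
  exact mul_le_mul (PiLp.norm_apply_le ξ k) (PiLp.norm_apply_le ξ j) (norm_nonneg _) h0.le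

theorem classical_sm {ν T : ℝ} {c : ι → ι → ι → ℝ} {f : ℝ → R3 → V ι} (h : SSol ν c 0 T f)
    (n : ℕ) (a : ι) : Sm T n fun t ξ => classical_P c (f t) a ξ :=
  Sm.sum _ fun b _ => Sm.sum _ fun d _ => Sm.sum _ fun k _ => Sm.sum _ fun j _ =>
    ((h.sm n b j).cv (h.sm n d k)).symb (classical_m_cont _ k j) (classical_m_le _ k j)

theorem classical_NL (c : ι → ι → ι → ℝ) (F : R3 → V ι) (a : ι) (i : Fin 3) (ξ : R3) :
    NL c F F ξ a i = (∑ b, ∑ d, (c a b d : ℂ) * ∑ j, 2 * Real.pi * Complex.I * (ξ j : ℂ) *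
      cv (fun η => F η b j) (fun η => F η d i) ξ) +
      2 * Real.pi * Complex.I * (ξ i : ℂ) * classical_P c F a ξ := by
  simp only [NL, classical_P, Finset.mul_sum, ← Finset.sum_add_distrib]
  refine Finset.sum_congr rfl fun b _ => Finset.sum_congr rfl fun d _ => ?_
  rw [Finset.sum_add_distrib]
  have e : ∀ k j, 2 * Real.pi * Complex.I * ((c a b d : ℂ) * (((lr ξ i k * ξ j : ℝ) : ℂ) *
      cv (fun η => F η b j) (fun η => F η d k) ξ)) =
      (if i = k then (c a b d : ℂ) * (2 * Real.pi * Complex.I * (ξ j : ℂ) *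
        cv (fun η => F η b j) (fun η => F η d k) ξ) else 0) +
      2 * Real.pi * Complex.I * (ξ i : ℂ) * (classical_m (c a b d) k j ξ *
        cv (fun η => F η b j) (fun η => F η d k) ξ) := fun k j => by
    simp only [lr, classical_m]
    split_ifs <;> push_cast <;> ring
  simp only [e, Finset.sum_add_distrib]
  congr 1
  rw [Finset.sum_comm]
  simp only [Finset.sum_ite_eq, Finset.mem_univ, if_true]

theorem classical_adm {g : R3 → ℂ} (hg : Adm g) (j : Fin 3) :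
    Adm fun ξ => 2 * Real.pi * Complex.I * (ξ j : ℂ) * g ξ := by
  simpa only [mul_assoc] using (hg.coord j).const_mul (2 * Real.pi * Complex.I)

theorem classical_int {g : R3 → ℂ} (hg : Adm g) : Integrable fun ξ => ‖ξ‖ * ‖g ξ‖ := by
  simpa only [pow_one] using hg.integrable_pow 1

theorem classical_coord {g : R3 → ℂ} {u : R3 → ℝ} (hg : Adm g) (h : ∀ x, ev g x = u x) (j : Fin 3)
    (x : R3) : ev (fun ξ => 2 * Real.pi * Complex.I * (ξ j : ℂ) * g ξ) x = (pd j u x : ℝ) :=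
  ev_coord hg.integrable (classical_int hg) h j x

section Static

variable {F : R3 → V ι} (hA : ∀ a i, Adm fun ξ => F ξ a i) (hs : Sym F)

omit [Fintype ι] in
include hs in
theorem classical_real (a : ι) (i : Fin 3) (x : R3) :
    ev (fun ξ => F ξ a i) x = (phys F a x i : ℝ) :=
  (ev_real (fun ξ => by rw [hs ξ]; rfl) x).symm

include hA hs

omit [Fintype ι] in
theorem classical_div (hd : DivFree F) (a : ι) (x : R3) :
    ∑ i, pd i (fun y => phys F a y i) x = 0 := by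
  have h1 := ev_sum Finset.univ (fun i _ => (classical_adm (hA a i) i).integrable) x
  have h2 : (fun ξ : R3 => ∑ i, 2 * Real.pi * Complex.I * (ξ i : ℂ) * F ξ a i) =
      fun ξ => 0 * (fun _ => 0) ξ := by
    funext ξ
    simp only [mul_assoc, ← Finset.mul_sum, hd ξ a, mul_zero]
  rw [h2, ev_const_mul, zero_mul] at h1
  simp only [classical_coord (hA a _) (classical_real hs a _)] at h1
  exact_mod_cast h1.symm

omit [Fintype ι] in
theorem classical_lap (ν : ℝ) (a : ι) (i : Fin 3) (x : R3) :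
    ev (fun ξ => -((hr ν ξ : ℂ) * F ξ a i)) x =
      (ν * ∑ j, pd j (pd j fun y => phys F a y i) x : ℝ) := by
  have h1 := ev_sum Finset.univ
    (fun j _ => (classical_adm (classical_adm (hA a i) j) j).integrable) x
  simp only [classical_coord (classical_adm (hA a i) _)
    (classical_coord (hA a i) (classical_real hs a i) _)] at h1
  push_cast
  rw [← h1, ← ev_const_mul]
  congr 1
  funext ξ
  have e : ∀ j, 2 * Real.pi * Complex.I * (ξ j : ℂ) *
      (2 * Real.pi * Complex.I * (ξ j : ℂ) * F ξ a i) =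
      -(4 * Real.pi ^ 2 * F ξ a i) * (ξ j : ℂ) ^ 2 := fun j => by
    linear_combination (4 * Real.pi ^ 2 * (ξ j : ℂ) ^ 2 * F ξ a i) * Complex.I_mul_I
  simp only [e, ← Finset.mul_sum, hr, norm_sq_eq_sum]
  push_cast
  ring

theorem classical_nl (hd : DivFree F) (c : ι → ι → ι → ℝ) (a : ι)
    (hP : Adm (classical_P c F a)) (i : Fin 3) (x : R3) :
    (ev (fun ξ => NL c F F ξ a i) x).re =
      ∑ b, ∑ d, c a b d * ∑ j, phys F b x j * pd j (fun y => phys F d y i) x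
        + pd i (fun y => (ev (classical_P c F a) y).re) x := by
  have hsm : ∀ b j, Differentiable ℝ fun y => phys F b y j := fun b j =>
    Complex.reCLM.differentiable.comp ((contDiff_ev (hA b j).integrable.aestronglyMeasurable
      (hA b j).integrable_pow).differentiable (by simp))
  have h1 : ∀ b d j, Adm fun ξ : R3 => 2 * Real.pi * Complex.I * (ξ j : ℂ) *
      cv (fun η => F η b j) (fun η => F η d i) ξ := fun b d j =>
    classical_adm ((hA b j).cv (hA d i)) j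
  have h2 := fun b d => (Adm.sum Finset.univ fun j _ => h1 b d j).const_mul (c a b d)
  have h3 := fun b => Adm.sum Finset.univ fun d _ => h2 b d
  have h4 : ∀ b d j, ev (fun ξ : R3 => 2 * Real.pi * Complex.I * (ξ j : ℂ) *
      cv (fun η => F η b j) (fun η => F η d i) ξ) x =
      (pd j (fun y => phys F b y j * phys F d y i) x : ℝ) := fun b d j =>
    classical_coord ((hA b j).cv (hA d i)) (fun y => by
      rw [ev_cv (hA b j).integrable (hA d i).integrable, classical_real hs, classical_real hs,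
        Complex.ofReal_mul]) j x
  simp only [classical_NL]
  rw [ev_add (Adm.sum Finset.univ fun b _ => h3 b).integrable (classical_adm hP i).integrable,
    Complex.add_re, pd_re_ev hP.integrable (classical_int hP),
    ev_sum _ fun b _ => (h3 b).integrable, Complex.re_sum]
  congr 1
  refine Finset.sum_congr rfl fun b _ => ?_
  rw [ev_sum _ fun d _ => (h2 b d).integrable, Complex.re_sum]
  refine Finset.sum_congr rfl fun d _ => ?_
  rw [ev_const_mul, ev_sum _ fun j _ => (h1 b d j).integrable, Complex.re_ofReal_mul,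
    Complex.re_sum]
  simp only [h4, Complex.ofReal_re, pd_mul (hsm _ _ x) (hsm _ _ x), Finset.sum_add_distrib,
    ← Finset.sum_mul, classical_div hA hs hd, zero_mul, zero_add]

end Static

theorem FSol.classical {ν : ℝ} {c : ι → ι → ι → ℝ} {f : ℝ → R3 → V ι} (h : FSol ν c f) :
    ∃ p, CSol ν c (phys (f 0)) (Ico 0 1) (fun a x t => phys (f t) a x) p := by
  have key : ∀ t ∈ Ico (0 : ℝ) 1, ∃ T, t ∈ Icc 0 T ∧ t < T ∧ SSol ν c 0 T f := fun t ht =>
    ⟨(t + 1) / 2, ⟨ht.1, by linarith only [ht, ht.2]⟩, by linarith [ht.2],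
      h _ (by linarith [ht.1]) (by linarith [ht.2])⟩
  refine ⟨fun a x t => (ev (classical_P c (f t) a) x).re, fun a =>
    (contDiffOn_vec (v := fun x t => phys (f t) a x)).2 fun i =>
    js_re_ev (f := fun t ξ => f t ξ a i) fun T h0 h1 n => (h T h0 h1).sm n a i,
    fun a => js_re_ev (f := fun t ξ => classical_P c (f t) a ξ)
      fun T h0 h1 n => classical_sm (h T h0 h1) n a,
    fun a x t ht i => ?_, fun a x t ht => ?_, fun _ _ => rfl⟩
  · obtain ⟨T, htT, hlt, hS⟩ := key t ht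
    have hA : ∀ a i, Adm fun ξ => f t ξ a i := fun a i => (hS.sm 0 a i).ub.adm htT
    have hP : Adm (classical_P c (f t) a) := (classical_sm hS 0 a).ub.adm htT
    obtain ⟨h1, g, h2, h3⟩ := hS.sm 1 a i
    have h4 := hasDerivWithinAt_ev h1 h3.ub h2 x htT
    have hN : Adm fun ξ => NL c (f t) (f t) ξ a i := by
      simp only [classical_NL]
      exact (Adm.sum _ fun b _ => Adm.sum _ fun d _ => (Adm.sum _ fun j _ =>
        classical_adm ((hA b j).cv (hA d i)) j).const_mul _).add (classical_adm hP i)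
    have hH : Adm fun ξ => -((hr ν ξ : ℂ) * f t ξ a i) := by
      have h5 := (Adm.sum Finset.univ fun j _ => ((hA a i).coord j).coord j).const_mul
        (-(4 * Real.pi ^ 2 * ν))
      convert h5 using 2 with ξ
      simp only [hr, norm_sq_eq_sum, ← mul_assoc, ← Finset.sum_mul, ← sq]
      push_cast
      ring
    have h5 : ev (g t) = ev fun ξ => -((hr ν ξ : ℂ) * f t ξ a i) - NL c (f t) (f t) ξ a i := by
      refine ev_congr fun ξ hξ => ?_
      have h6 := hasDerivWithinAt_pi.1 (hasDerivWithinAt_pi.1 (hS.ode ξ hξ t htT) a) i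
      rw [(uniqueDiffOn_Icc (htT.1.trans_lt hlt) t htT).eq_deriv _ (h2 ξ hξ t htT) h6]
      simp
    rw [h5, ev_sub hH.integrable hN.integrable, classical_lap hA (hS.sym t htT)] at h4
    have hnb : Icc 0 T ∈ 𝓝[Ico 0 1] t :=
      mem_nhdsWithin.2 ⟨Iio T, isOpen_Iio, hlt, fun s hs => ⟨hs.2.1, hs.1.le⟩⟩
    have h6 := (Complex.reCLM.hasFDerivAt.comp_hasDerivWithinAt t h4).mono_of_mem_nhdsWithin hnb
    have h7 : derivWithin (fun s => phys (f s) a x i) (Ico 0 1) t = _ :=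
      h6.derivWithin (uniqueDiffOn_Ico 0 1 t ht)
    rw [h7, Complex.reCLM_apply, Complex.sub_re, Complex.ofReal_re,
      classical_nl hA (hS.sym t htT) (hS.div t htT) c a hP]
    ring
  · obtain ⟨T, htT, -, hS⟩ := key t ht
    exact classical_div (fun a i => (hS.sm 0 a i).ub.adm htT) (hS.sym t htT) (hS.div t htT) a x

end

end Pool.Agent.Work.MP_6bf1e5_an.Ens
end

-- merged part: Pool.Agent.Work.MP_6bf1e5_an.Ens.Main
section
/-!
The theorem for a coupling tensor with a profile. If a global solution `v` existed, it would equal `u` on `[0, 1)`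
(`CSol.mono`, `CSol.unique`) and be bounded on a compact neighbourhood of `(0, 1)`, so `√(1-t) u (√(1-t) y, t) → 0`,
while the limit is `phys W a y ≠ 0` for some `a, y`.
-/

open scoped ContDiff ENNReal FourierTransform Topology ComplexConjugate
open Set MeasureTheory Filter Polynomial Metric

namespace Pool.Agent.Work.MP_6bf1e5_an.Ens

noncomputable section

variable {ι : Type} [Fintype ι]

theorem main_congr {ν : ℝ} {c : ι → ι → ι → ℝ} {u0 : ι → R3 → R3} {I : Set ℝ}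
    {u u' : ι → R3 → ℝ → R3} {p : ι → R3 → ℝ → ℝ} (h : CSol ν c u0 I u p) (h0 : 0 ∈ I)
    (e : ∀ t ∈ I, ∀ a x, u' a x t = u a x t) : CSol ν c u0 I u' p := by
  refine ⟨fun a => (h.smooth_u a).congr fun z hz => e z.2 hz.2 a z.1, h.smooth_p,
    fun a x t ht i => ?_, fun a x t ht => ?_, fun a x => (e 0 h0 a x).trans (h.initial a x)⟩
  · rw [derivWithin_congr (f := fun s => u a x s i) (fun s hs => by simp only [e s hs])
      (by simp only [e t ht])]
    simp only [e t ht]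
    exact h.momentum a x t ht i
  · simp only [e t ht]
    exact h.divFree a x t ht

theorem main_T {t : ℝ} (ht : t ∈ Ico (0 : ℝ) 1) : ∃ T, 0 < T ∧ T < 1 ∧ t ∈ Icc 0 T :=
  ⟨(t + 1) / 2, by linarith only [ht, ht.1], by linarith [ht.2], ht.1, by linarith [ht.2]⟩

theorem Profile.cblowup {ν : ℝ} {c : ι → ι → ι → ℝ} {W : R3 → V ι} (hν : 0 < ν)
    (hc : ∀ a b d, c a b d = c d b a) (h : Profile ν c W) : CBlowup ν c := by
  obtain ⟨f, hf, hs, hk, hconv⟩ := h.exists_fsol hν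
  obtain ⟨p, hu⟩ := hf.classical
  obtain ⟨u0, hu0⟩ := exists_schwartz hs hk
  have e0 : (fun a => (u0 a : R3 → R3)) = phys (f 0) := by
    funext a x
    exact hu0 a x
  have h0 : ∃ C : ℝ, ∀ ξ, ‖f 0 ξ‖ ≤ C := hs.continuous.bounded_above_of_compact_support hk
  have z01 : (0 : ℝ) ∈ Ico (0 : ℝ) 1 := ⟨le_rfl, zero_lt_one⟩
  have huT : ∀ T, 0 < T → T < 1 → CSol ν c (phys (f 0)) (Icc 0 T) (fun a x t => phys (f t) a x) p :=
    fun T h1 h2 => hu.mono (Icc_subset_Ico_right h2) (uniqueDiffOn_Icc h1)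
  have hlim : ∀ ε > 0, ∃ t0, 0 ≤ t0 ∧ t0 < 1 ∧ ∀ t ∈ Ico t0 1, ∀ a y,
      ‖√(1 - t) • phys (f t) a (√(1 - t) • y) - phys W a y‖ ≤ ε := by
    intro ε hε
    obtain ⟨t0, h1, h2, h3⟩ := hconv (ε / 3) (by positivity)
    refine ⟨t0, h1, h2, fun t ht a y => ?_⟩
    obtain ⟨T, hT, hT1, htT⟩ := main_T ⟨h1.trans ht.1, ht.2⟩
    obtain ⟨C, κ, -, hκ, hb⟩ := bounds_vb (hf T hT hT1)
    obtain ⟨C', κ', -, hκ', hb'⟩ := bounds_vb (h.fsol T hT hT1)
    have hr : 0 < √(1 - t) := Real.sqrt_pos.2 (sub_pos.2 ht.2)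
    have e : phys W a y = √(1 - t) • phys (Uh W t) a (√(1 - t) • y) := by
      rw [phys_Uh W ht.2, inv_smul_smul₀ hr.ne', smul_inv_smul₀ hr.ne']
    rw [e, ← smul_sub, norm_smul, Real.norm_of_nonneg hr.le]
    have h4 := mul_le_mul_of_nonneg_left
      (norm_phys_sub_le hκ hκ' (hb t htT) (hb' t htT) a (√(1 - t) • y)) hr.le
    linarith only [h4, h3, ht, h3 t ht]
  refine ⟨u0, fun a x => ?_, ⟨fun a x t => phys (f t) a x, p, e0 ▸ hu, fun t ht => ?_, phys W,
    h.ne, h.decay, ?_, fun ε hε => ?_⟩, ?_⟩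
  · simp only [hu0]
    exact hu.divFree a x 0 z01
  · obtain ⟨T, hT, hT1, htT⟩ := main_T ht
    rw [e0]
    exact (huT T hT hT1).energy_le hν hT hc ((hf T hT hT1).energy_lt hν h0) t htT
  · obtain ⟨q, hq⟩ := h.fsol.classical
    have e : Uh W 0 = W := funext fun ξ => by simp [Uh]
    rw [e] at hq
    exact ⟨q, main_congr hq z01 fun t ht a x => (phys_Uh W ht.2 a x).symm⟩
  · obtain ⟨t0, -, h1, h2⟩ := hlim ε hε
    exact ⟨t0, h1, h2⟩
  · rintro ⟨v, q, hv, C, hC, hE⟩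
    rw [e0] at hv
    have huv : ∀ t ∈ Ico (0 : ℝ) 1, ∀ a x, v a x t = phys (f t) a x := by
      intro t ht
      obtain ⟨T, hT, hT1, htT⟩ := main_T ht
      exact (huT T hT hT1).unique hν hT hc (hv.mono Icc_subset_Ici_self (uniqueDiffOn_Icc hT))
        ((hf T hT hT1).energy_lt hν h0) ⟨C, hC, fun s hs => hE s hs.1⟩ (hf T hT hT1).bounded t htT
    obtain ⟨a, ha⟩ := Function.ne_iff.1 h.ne
    obtain ⟨y, hy⟩ := Function.ne_iff.1 ha
    have hδ : 0 < ‖phys W a y‖ := norm_pos_iff.2 hy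
    obtain ⟨t0, h1, h2, h3⟩ := hlim _ (half_pos hδ)
    have c1 : Continuous fun t : ℝ => √(1 - t) := by fun_prop
    have c2 : ContinuousAt (fun t : ℝ => v a (√(1 - t) • y) t) 1 :=
      ContinuousAt.comp (f := fun t : ℝ => (√(1 - t) • y, t))
        ((hv.smooth_u a).continuousOn.continuousAt
          (prod_mem_nhds univ_mem (Ici_mem_nhds zero_lt_one)))
        ((c1.smul continuous_const).prodMk continuous_id).continuousAt
    have c3 := (((c1.continuousAt.smul c2).sub (continuousAt_const (y := phys W a y))).norm.tendsto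
      ).mono_left (nhdsWithin_le_nhds (s := Iio 1))
    have h4 := le_of_tendsto c3 (by
      filter_upwards [Ico_mem_nhdsLT h2] with t ht
      have h5 := h3 t ht a y
      rw [← huv t ⟨h1.trans ht.1, ht.2⟩] at h5
      exact h5)
    simp only [Pi.sub_apply, Pi.smul_apply', sub_self, Real.sqrt_zero, zero_smul, zero_sub,
      norm_neg] at h4
    linarith only [hδ, h4]

end

end Pool.Agent.Work.MP_6bf1e5_an.Ens
end
end
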