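import Pool.Agent.Work.MP_6bf1e5_an.Ens.Planch
import Pool.Agent.Work.MP_6bf1e5_an.Ens.Basic

/-!
The Newton potential of a test function `φ`. Its transform `𝓕 φ` is a Schwartz function
(`HasCompactSupport.toSchwartzMap`), `|ξ|^(-2)` is integrable near `0`, `|ξ|^(-1)` is square integrable near `0`.
-/

open scoped ContDiff ENNReal FourierTransform Topology ComplexConjugate
open Set MeasureTheory Filter Polynomial Metric

namespace Pool.Agent.Work.MP_6bf1e5_an.Ens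

noncomputable section

variable {φ ψ : R3 → ℝ}

/-- A test function as a complex Schwartz function. -/
def newtonS (h : Test φ) : SchwartzMap R3 ℂ :=
  (h.2.comp_left (g := fun r : ℝ => (r : ℂ)) Complex.ofReal_zero).toSchwartzMap
    (Complex.ofRealCLM.contDiff.comp h.1)

theorem integrable_fourier_test (h : Test φ) (n : ℕ) :
    Integrable fun ξ : R3 => ‖ξ‖ ^ n * ‖𝓕 (fun y => (φ y : ℂ)) ξ‖ :=
  (𝓕 (newtonS h)).integrable_pow_mul volume n

theorem newton_int (h : Test φ) : Integrable (𝓕 fun y => (φ y : ℂ)) := (𝓕 (newtonS h)).integrable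

theorem newton_cont (h : Test φ) : Continuous (𝓕 fun y => (φ y : ℂ)) := (𝓕 (newtonS h)).continuous

theorem newton_inv (h : Test φ) (x : R3) : ev (𝓕 fun y => (φ y : ℂ)) x = φ x :=
  (newtonS h).integrable.fourierInv_fourier_eq (𝓕 (newtonS h)).integrable
    (newtonS h).continuous.continuousAt

theorem newton_uniq (h : Test φ) {f : R3 → ℂ} (hf : Integrable f) (hc : Continuous f)
    (he : ∀ x, ev f x = φ x) {ξ : R3} (hξ : ξ ≠ 0) : 𝓕 (fun y => (φ y : ℂ)) ξ = f ξ :=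
  sub_eq_zero.1 (ev_inj (f := fun ξ => 𝓕 (fun y => (φ y : ℂ)) ξ - f ξ) ((newton_int h).sub hf)
    ((newton_cont h).sub hc).continuousOn
    (fun x => by rw [ev_sub (newton_int h) hf, newton_inv h, he, sub_self]) hξ)

theorem newton_coord (ξ : R3) (j : Fin 3) : |ξ j| ≤ ‖ξ‖ := by
  simpa using PiLp.norm_apply_le ξ j

theorem newton_pd (h : Test φ) (j : Fin 3) {ξ : R3} (hξ : ξ ≠ 0) :
    𝓕 (fun y => (pd j φ y : ℂ)) ξ =
      2 * Real.pi * Complex.I * (ξ j : ℂ) * 𝓕 (fun y => (φ y : ℂ)) ξ := by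
  have h1 : Integrable fun ξ : R3 => ‖ξ‖ * ‖𝓕 (fun y => (φ y : ℂ)) ξ‖ := by
    simpa using integrable_fourier_test h 1
  have hc : Continuous fun ξ : R3 =>
      2 * Real.pi * Complex.I * (ξ j : ℂ) * 𝓕 (fun y => (φ y : ℂ)) ξ :=
    Continuous.mul (by fun_prop) (newton_cont h)
  refine newton_uniq (h.pd j) ((h1.const_mul ‖2 * Real.pi * Complex.I‖).mono'
    hc.aestronglyMeasurable (Eventually.of_forall fun η => ?_)) hc
    (ev_coord (newton_int h) h1 (newton_inv h) j) hξ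
  rw [norm_mul, norm_mul, mul_assoc, Complex.norm_real, Real.norm_eq_abs]
  gcongr
  exact newton_coord η j

theorem newton_meas (h : Test φ) : Measurable fun ξ : R3 =>
    -(𝓕 (fun y => (φ y : ℂ)) ξ) / ((4 * Real.pi ^ 2 * ‖ξ‖ ^ 2 : ℝ) : ℂ) :=
  (newton_cont h).measurable.neg.div (by fun_prop)

theorem newton_mom (h : Test φ) (n : ℕ) : Integrable fun ξ : R3 =>
    ‖ξ‖ ^ n * ‖-(𝓕 (fun y => (φ y : ℂ)) ξ) / ((4 * Real.pi ^ 2 * ‖ξ‖ ^ 2 : ℝ) : ℂ)‖ := by
  have hm : AEStronglyMeasurable (fun ξ : R3 =>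
      ‖ξ‖ ^ n * ‖-(𝓕 (fun y => (φ y : ℂ)) ξ) / ((4 * Real.pi ^ 2 * ‖ξ‖ ^ 2 : ℝ) : ℂ)‖) volume :=
    ((measurable_norm.pow_const n).mul (newton_meas h).norm).aestronglyMeasurable
  have hπ : 1 ≤ 4 * Real.pi ^ 2 := by nlinarith [Real.pi_gt_three]
  have key : ∀ ξ : R3,
      ‖‖ξ‖ ^ n * ‖-(𝓕 (fun y => (φ y : ℂ)) ξ) / ((4 * Real.pi ^ 2 * ‖ξ‖ ^ 2 : ℝ) : ℂ)‖‖ ≤
        ‖ξ‖ ^ n * ‖𝓕 (fun y => (φ y : ℂ)) ξ‖ * (‖ξ‖ ^ 2)⁻¹ := fun ξ => by
    rw [Real.norm_of_nonneg (by positivity), norm_div, norm_neg, Complex.norm_real,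
      Real.norm_of_nonneg (by positivity), div_eq_mul_inv, mul_inv, ← mul_assoc]
    refine mul_le_mul_of_nonneg_left ?_ (by positivity)
    exact mul_le_of_le_one_left (by positivity) (inv_le_one_of_one_le₀ hπ)
  rw [← integrableOn_univ, ← union_compl_self (ball (0 : R3) 1), integrableOn_union]
  constructor
  · refine integrableOn_ball_of_norm_le_rpow (α := 2)
      (C := SchwartzMap.seminorm ℝ n 0 (𝓕 (newtonS h))) (by simp) (by simp; norm_num)
      (Eventually.of_forall fun ξ => (key ξ).trans ?_) hm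
    rw [Real.rpow_neg (norm_nonneg _), Real.rpow_two]
    exact mul_le_mul_of_nonneg_right ((𝓕 (newtonS h)).norm_pow_mul_le_seminorm ℝ n ξ)
      (by positivity)
  · refine (integrable_fourier_test h n).integrableOn.mono' hm.restrict
      ((ae_restrict_iff' measurableSet_ball.compl).2 (Eventually.of_forall fun ξ hξ =>
        (key ξ).trans (mul_le_of_le_one_right (by positivity) (inv_le_one_of_one_le₀ ?_))))
    exact one_le_pow₀ (by simpa using hξ)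

theorem contDiff_nw (h : Test φ) : ContDiff ℝ ∞ (nw φ) :=
  Complex.reCLM.contDiff.comp (contDiff_ev (newton_meas h).aestronglyMeasurable (newton_mom h))

theorem newton_int0 (h : Test φ) : Integrable fun ξ : R3 =>
    -(𝓕 (fun y => (φ y : ℂ)) ξ) / ((4 * Real.pi ^ 2 * ‖ξ‖ ^ 2 : ℝ) : ℂ) :=
  (integrable_norm_iff (newton_meas h).aestronglyMeasurable).1
    (by simpa only [pow_zero, one_mul] using newton_mom h 0)

theorem pd_nw (h : Test φ) (j : Fin 3) : pd j (nw φ) = nw (pd j φ) := by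
  funext x
  refine (pd_re_ev (newton_int0 h) (by simpa only [pow_one] using newton_mom h 1) j x).trans ?_
  rw [nw, ev_congr fun ξ hξ => ?_]
  rw [newton_pd h j hξ]
  ring

theorem nw_sum {φ : Fin 3 → R3 → ℝ} (h : ∀ k, Test (φ k)) (x : R3) :
    nw (fun y => ∑ k, φ k y) x = ∑ k, nw (φ k) x := by
  simp only [nw]
  rw [← Complex.re_sum, ← ev_sum _ fun k _ => newton_int0 (h k), ev_congr fun ξ hξ => ?_]
  rw [newton_uniq (Test.sum Finset.univ fun k _ => h k)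
    (integrable_finsetSum Finset.univ fun k _ => newton_int (h k))
    (continuous_finsetSum Finset.univ fun k _ => newton_cont (h k)) (fun y => by
      rw [ev_sum _ fun k _ => newton_int (h k), Complex.ofReal_sum]
      exact Finset.sum_congr rfl fun k _ => newton_inv (h k) y) hξ, ← Finset.sum_div,
    Finset.sum_neg_distrib]

theorem pd_pd_nw (h : Test φ) (i j : Fin 3) (x : R3) : pd i (pd j (nw φ)) x =
    (ev (fun ξ => ((ξ i * ξ j / ‖ξ‖ ^ 2 : ℝ) : ℂ) * 𝓕 (fun y => (φ y : ℂ)) ξ) x).re := by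
  rw [pd_nw h, pd_nw (h.pd j), nw, ev_congr fun ξ hξ => ?_]
  have h1 : (‖ξ‖ : ℂ) ≠ 0 := by simpa using hξ
  have h2 : (Real.pi : ℂ) ≠ 0 := by simp
  rw [newton_pd (h.pd j) i hξ, newton_pd h j hξ]
  push_cast
  field_simp
  rw [Complex.I_sq]
  ring

theorem newton_le (i j : Fin 3) (ξ : R3) (z : ℂ) :
    ‖((ξ i * ξ j / ‖ξ‖ ^ 2 : ℝ) : ℂ) * z‖ ≤ ‖z‖ := by
  rw [norm_mul, Complex.norm_real, Real.norm_eq_abs, abs_div, abs_mul, abs_of_nonneg (sq_nonneg ‖ξ‖)]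
  refine mul_le_of_le_one_left (norm_nonneg _) (div_le_one_of_le₀ ?_ (sq_nonneg _))
  rw [sq]
  exact mul_le_mul (newton_coord ξ i) (newton_coord ξ j) (abs_nonneg _) (norm_nonneg _)

theorem newton_meas2 (h : Test φ) (i j : Fin 3) : AEStronglyMeasurable
    (fun ξ : R3 => ((ξ i * ξ j / ‖ξ‖ ^ 2 : ℝ) : ℂ) * 𝓕 (fun y => (φ y : ℂ)) ξ) volume :=
  (Measurable.mul (by fun_prop) (newton_cont h).measurable).aestronglyMeasurable

theorem newton_int2 (h : Test φ) (i j : Fin 3) :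
    Integrable fun ξ : R3 => ((ξ i * ξ j / ‖ξ‖ ^ 2 : ℝ) : ℂ) * 𝓕 (fun y => (φ y : ℂ)) ξ :=
  (newton_int h).mono (newton_meas2 h i j) (Eventually.of_forall fun ξ => newton_le i j ξ _)

theorem lap_nw (h : Test φ) (x : R3) : ∑ j, pd j (pd j (nw φ)) x = φ x := by
  simp only [pd_pd_nw h]
  rw [← Complex.re_sum, ← ev_sum _ fun k _ => newton_int2 h k k,
    ev_congr (g := 𝓕 fun y => (φ y : ℂ)) fun ξ hξ => ?_, newton_inv h, Complex.ofReal_re]
  rw [← Finset.sum_mul, ← Complex.ofReal_sum, ← Finset.sum_div]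
  simp only [← sq]
  rw [← norm_sq_eq_sum, div_self (by simpa using hξ), Complex.ofReal_one, one_mul]

theorem integral_hess_nw_le (h : Test φ) (i j : Fin 3) :
    Integrable (fun x => pd i (pd j (nw φ)) x ^ 2) ∧
      ∫ x, pd i (pd j (nw φ)) x ^ 2 ≤ ∫ x, φ x ^ 2 := by
  have h1 : Integrable fun ξ => ‖𝓕 (fun y => (φ y : ℂ)) ξ‖ ^ 2 :=
    ((𝓕 (newtonS h)).memLp 2 volume).norm.integrable_sq
  have h2 : ∀ ξ : R3, ‖((ξ i * ξ j / ‖ξ‖ ^ 2 : ℝ) : ℂ) * 𝓕 (fun y => (φ y : ℂ)) ξ‖ ^ 2 ≤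
      ‖𝓕 (fun y => (φ y : ℂ)) ξ‖ ^ 2 := fun ξ =>
    pow_le_pow_left₀ (norm_nonneg _) (newton_le i j ξ _) 2
  have h3 : Integrable fun ξ : R3 =>
      ‖((ξ i * ξ j / ‖ξ‖ ^ 2 : ℝ) : ℂ) * 𝓕 (fun y => (φ y : ℂ)) ξ‖ ^ 2 :=
    h1.mono' ((newton_meas2 h i j).norm.pow 2) (Eventually.of_forall fun ξ => by
      rw [Real.norm_of_nonneg (sq_nonneg _)]
      exact h2 ξ)
  obtain ⟨h4, h5⟩ := integral_ev_sq_le (newton_int2 h i j) h3
  have h6 : ∀ x, pd i (pd j (nw φ)) x ^ 2 ≤ ‖ev (fun ξ : R3 =>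
      ((ξ i * ξ j / ‖ξ‖ ^ 2 : ℝ) : ℂ) * 𝓕 (fun y => (φ y : ℂ)) ξ) x‖ ^ 2 := fun x => by
    rw [pd_pd_nw h, ← sq_abs]
    exact pow_le_pow_left₀ (abs_nonneg _) (Complex.abs_re_le_norm _) 2
  have h7 : Integrable fun x => pd i (pd j (nw φ)) x ^ 2 :=
    h4.mono' ((contDiff_pd (contDiff_pd (contDiff_nw h) j) i).continuous.pow 2).aestronglyMeasurable
      (Eventually.of_forall fun x => by
        rw [Real.norm_of_nonneg (sq_nonneg _)]
        exact h6 x)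
  refine ⟨h7, (integral_mono h7 h4 h6).trans (h5.trans ((integral_mono h3 h1 h2).trans_eq ?_))⟩
  refine (newtonS h).integral_norm_sq_fourier.trans (integral_congr_ae (Eventually.of_forall
    fun x => ?_))
  change ‖(φ x : ℂ)‖ ^ 2 = φ x ^ 2
  rw [Complex.norm_real, Real.norm_eq_abs, sq_abs]

end

end Pool.Agent.Work.MP_6bf1e5_an.Ens
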