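import Pool.Agent.Work.MP_6bf1e5_an.Mat.Defs

/-!
The contracted transport terms. With `v = SA B g y`, `w = SA C h`, `pd_FA` and `v·y = 3 g Y_B` give `v·∇w` as a combination of
`Y_B C y`, `Y_C B y`, `C B y`, `Y_B Y_C y`, `(By·Cy) y`. Contracted with `tau` over `B = Am p q`, `C = Am r s` these are
`(Y y + z A y)/6`, the same, `7/12 A y`, `z Y/3 y`, `7/12 Y y`; summed over `B = C = Am p q` they are `2/3 z y`, the same,
`5/3 y`, `2/3 z² y`, `5/3 z y`.
-/

open scoped ContDiff ENNReal FourierTransform Topology ComplexConjugate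
open Set MeasureTheory Filter Polynomial Metric

namespace Pool.Agent.Work.MP_6bf1e5_an.Ens

noncomputable section

theorem Am_symm (p q i j : Fin 3) : Am p q i j = Am p q j i := by
  fin_cases p <;> fin_cases q <;> fin_cases i <;> fin_cases j <;> simp [Am]

theorem Am_trace (p q : Fin 3) : ∑ i, Am p q i i = 0 := by
  fin_cases p <;> fin_cases q <;> simp [Am, Fin.sum_univ_three]

theorem tens_transpose (p q : Fin 3) : (Am p q).transpose = Am p q := by
  ext i j
  exact Am_symm p q j i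

theorem tau_sym2 (a b d : Fin 3 × Fin 3) : tau a b d = tau a d b := by
  rw [tau, ← Matrix.trace_transpose, Matrix.transpose_mul, Matrix.transpose_mul, tens_transpose,
    tens_transpose, tens_transpose, ← Matrix.mul_assoc, Matrix.trace_mul_comm, ← Matrix.mul_assoc,
    tau]

theorem tau_sym1 (a b d : Fin 3 × Fin 3) : tau a b d = tau b a d := by
  rw [tau_sym2 b, tau, tau, Matrix.mul_assoc, Matrix.trace_mul_comm]

/-- The five bilinear expressions. -/
def tensE (c1 c2 c3 c4 c5 : ℝ) (B C : Matrix (Fin 3) (Fin 3) ℝ) (y : R3) (i : Fin 3) : ℝ :=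
  c1 * (qf B y * ∑ k, C i k * y k) + c2 * (qf C y * ∑ k, B i k * y k)
    + c3 * (∑ j, C i j * ∑ k, B j k * y k) + c4 * (qf B y * qf C y * y i)
    + c5 * ((∑ j, (∑ k, B j k * y k) * ∑ k, C j k * y k) * y i)

theorem tens_norm (y : R3) : ‖y‖ ^ 2 = y 0 ^ 2 + y 1 ^ 2 + y 2 ^ 2 := by
  rw [EuclideanSpace.real_norm_sq_eq, Fin.sum_univ_three]

theorem tens_expand {B C : Matrix (Fin 3) (Fin 3) ℝ} (hC : ∀ i j, C i j = C j i) (g h : ℝ[X])
    (y : R3) (i : Fin 3) :
    ∑ j, SA B g y j * pd j (fun z => SA C h z i) y =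
      tensE (2 * rad (dz (al h)) y * (rad (al g) y + ‖y‖ ^ 2 * rad (be g) y)
          + rad (al h) y * rad (be g) y)
        (rad (be h) y * rad (al g) y) (rad (al h) y * rad (al g) y)
        (2 * rad (dz (be h)) y * (rad (al g) y + ‖y‖ ^ 2 * rad (be g) y)
          + 3 * (rad (be h) y * rad (be g) y))
        (2 * (rad (be h) y * rad (al g) y)) B C y i := by
  simp only [SA, pd_FA hC]
  simp only [FA, tensE, tens_norm, qf, Fin.sum_univ_three]
  fin_cases i <;> simp <;> ring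

theorem tens_qf (p q : Fin 3) (y : R3) :
    qf (Am p q) y = y p * y q - if p = q then ‖y‖ ^ 2 / 3 else 0 := by
  rw [tens_norm]
  fin_cases p <;> fin_cases q <;> simp [qf, Am, Fin.sum_univ_three] <;> ring

theorem tens_mv (p q i : Fin 3) (y : R3) :
    ∑ k, Am p q i k * y k = ((if i = p then y q else 0) + if i = q then y p else 0) / 2
      - if p = q then y i / 3 else 0 := by
  fin_cases p <;> fin_cases q <;> fin_cases i <;> simp [Am, Fin.sum_univ_three] <;> ring

theorem tens_tr {A : Matrix (Fin 3) (Fin 3) ℝ} (hs : ∀ i j, A i j = A j i) (h0 : ∑ i, A i i = 0)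
    (p q r s : Fin 3) : (A * Am p q * Am r s).trace =
      ((if q = r then A p s else 0) + (if q = s then A p r else 0) + (if p = r then A q s else 0)
        + if p = s then A q r else 0) / 4 - (if p = q then A r s else 0) / 3
        - (if r = s then A p q else 0) / 3 := by
  have h1 := hs 1 0
  have h2 := hs 2 0
  have h3 := hs 2 1
  have h4 : A 2 2 = -A 0 0 - A 1 1 := by rw [Fin.sum_univ_three] at h0; linarith
  fin_cases p <;> fin_cases q <;> fin_cases r <;> fin_cases s <;>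
    simp [Am, Fin.sum_univ_three, Matrix.trace, Matrix.mul_apply, h1, h2, h3, h4] <;> ring

theorem tens_tau {A : Matrix (Fin 3) (Fin 3) ℝ} (hs : ∀ i j, A i j = A j i) (h0 : ∑ i, A i i = 0)
    (c1 c2 c3 c4 c5 : ℝ) (y : R3) (i : Fin 3) :
    ∑ b : Fin 3 × Fin 3, ∑ d : Fin 3 × Fin 3, (A * Am b.1 b.2 * Am d.1 d.2).trace *
      tensE c1 c2 c3 c4 c5 (Am b.1 b.2) (Am d.1 d.2) y i =
      ((c1 + c2) * ‖y‖ ^ 2 / 6 + 7 / 12 * c3) * ∑ k, A i k * y k
        + ((c1 + c2) / 6 + c4 * ‖y‖ ^ 2 / 3 + 7 / 12 * c5) * qf A y * y i := by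
  have h1 := hs 1 0
  have h2 := hs 2 0
  have h3 := hs 2 1
  have h4 : A 2 2 = -A 0 0 - A 1 1 := by rw [Fin.sum_univ_three] at h0; linarith
  simp only [tens_tr hs h0, tensE, tens_qf, tens_mv]
  simp only [qf, tens_norm, Fintype.sum_prod_type, Fin.sum_univ_three]
  fin_cases i <;> simp [Am, h1, h2, h3, h4] <;> ring

theorem tens_unit (c1 c2 c3 c4 c5 : ℝ) (y : R3) (i : Fin 3) :
    ∑ b : Fin 3 × Fin 3, tensE c1 c2 c3 c4 c5 (Am b.1 b.2) (Am b.1 b.2) y i =
      (2 / 3 * (c1 + c2) * ‖y‖ ^ 2 + 5 / 3 * c3 + 2 / 3 * c4 * (‖y‖ ^ 2) ^ 2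
        + 5 / 3 * c5 * ‖y‖ ^ 2) * y i := by
  simp only [tensE, tens_qf, tens_mv]
  simp only [tens_norm, Fintype.sum_prod_type, Fin.sum_univ_three]
  fin_cases i <;> simp [Am] <;> ring

theorem tens_be (g : ℝ[X]) (y : R3) : ‖y‖ ^ 2 * rad (be g) y = -2 * rad (th g) y := by
  rw [← norm_sq_mul_dz]
  simp only [rad, be, eval_neg, eval_mul, eval_ofNat]
  ring

theorem tens_al (g : ℝ[X]) (y : R3) : rad (al g) y = 3 * rad g y + 2 * rad (th g) y := by
  simp only [rad, al, eval_add, eval_mul, eval_ofNat]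

theorem tens_th_be (g : ℝ[X]) (y : R3) :
    ‖y‖ ^ 2 * rad (th (be g)) y = -2 * (rad (th (th g)) y - rad (th g) y) := by
  have hx : ‖y‖ ^ 2 * (1 + ‖y‖ ^ 2)⁻¹ = 1 - (1 + ‖y‖ ^ 2)⁻¹ := by
    have : (1 + ‖y‖ ^ 2) ≠ 0 := by positivity
    field_simp
    ring
  simp only [rad, th, be, dz]
  generalize (1 + ‖y‖ ^ 2)⁻¹ = x at hx ⊢
  simp only [derivative_neg, derivative_mul, derivative_X, derivative_sub, derivative_one,
    derivative_X_pow, derivative_ofNat, eval_neg, eval_mul, eval_add, eval_sub, eval_X, eval_one,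
    eval_pow, eval_ofNat, eval_zero, eval_C]
  push_cast
  linear_combination (-(1 - x) * (4 * x * (derivative g).eval x
    + 2 * x ^ 2 * (derivative (derivative g)).eval x)) * hx

theorem contract_tau (g h : ℝ[X]) (a : Fin 3 × Fin 3) (y : R3) (i : Fin 3) :
    ∑ b : Fin 3 × Fin 3, ∑ d : Fin 3 × Fin 3, tau a b d *
      ∑ j, SA (Am b.1 b.2) g y j * pd j (fun z => SA (Am d.1 d.2) h z i) y
      = FA (Am a.1 a.2) (bilA g h) (bilB g h) y i := by
  simp only [tens_expand (Am_symm _ _), tau]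
  rw [tens_tau (Am_symm _ _) (Am_trace _ _)]
  have e1 := tens_be g y
  have e2 := tens_be h y
  have e3 := tens_al g y
  have e4 := norm_sq_mul_dz (al h) y
  have e5 := norm_sq_mul_dz (be h) y
  have eA : rad (bilA g h) y = rad g y * rad (th (al h)) y - 1 / 3 * (rad (al h) y * rad (th g) y
      + rad (al g) y * rad (th h) y) + 7 / 12 * (rad (al h) y * rad (al g) y) := by
    simp only [rad, bilA, eval_add, eval_sub, eval_mul, eval_C]
  have eB : rad (bilB g h) y = rad g y * rad (dz (al h)) y + 1 / 6 * (rad (al h) y * rad (be g) y)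
      + 4 / 3 * (rad (be h) y * rad (al g) y) + 2 * (rad g y * rad (th (be h)) y)
      - 2 * (rad (be h) y * rad (th g) y) := by
    simp only [rad, bilB, eval_add, eval_sub, eval_mul, eval_C, eval_ofNat]
  change _ = rad (bilA g h) y * _ + rad (bilB g h) y * _ * _
  rw [eA, eB, e1, ← e4, ← e5]
  have e6 : rad (al g) y + -2 * rad (th g) y = 3 * rad g y := by rw [e3]; ring
  rw [e6]
  linear_combination (rad (al h) y / 6 * (∑ k, Am a.1 a.2 i k * y k)
    + rad (be h) y * qf (Am a.1 a.2) y * y i) * e1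
    + rad (al g) y / 6 * (∑ k, Am a.1 a.2 i k * y k) * e2

theorem contract_unit (g h : ℝ[X]) (y : R3) (i : Fin 3) :
    ∑ b : Fin 3 × Fin 3, ∑ j, SA (Am b.1 b.2) g y j * pd j (fun z => SA (Am b.1 b.2) h z i) y
      = rad (bilR g h) y * y i := by
  simp only [tens_expand (Am_symm _ _)]
  rw [tens_unit]
  have e1 := tens_be g y
  have e2 := tens_be h y
  have e3 := tens_al g y
  have e4 := norm_sq_mul_dz (al h) y
  have e5 := norm_sq_mul_dz (be h) y
  have e7 := tens_th_be h y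
  have eR : rad (bilR g h) y = 4 * (rad g y * rad (th (al h)) y)
      - 4 / 3 * (rad (al h) y * rad (th g) y) - 8 * (rad (al g) y * rad (th h) y)
      + 5 / 3 * (rad (al h) y * rad (al g) y) - 8 * (rad g y * (rad (th (th h)) y - rad (th h) y))
      + 8 * (rad (th h) y * rad (th g) y) := by
    simp only [rad, bilR, eval_add, eval_sub, eval_mul, eval_C, eval_ofNat]
  have e6 : rad (al g) y + -2 * rad (th g) y = 3 * rad g y := by rw [e3]; ring
  rw [eR, e1, e6, ← e4]
  rw [← e5] at e7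
  congr 1
  linear_combination (2 / 3 * rad (al h) y + 2 * (‖y‖ ^ 2 * rad (be h) y)) * e1
    + (4 * rad (al g) y - 4 * rad (th g) y) * e2 + 4 * rad g y * e7

end

end Pool.Agent.Work.MP_6bf1e5_an.Ens
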