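import Pool.Agent.Work.MP_6bf1e5_an.Ens.Weak

/-!
The local energy identity for the difference `w = v - u`: subtract the equations, use
`v^b·∇v^d - u^b·∇u^d = v^b·∇w^d + w^b·∇u^d`, multiply by `2 ψ w^a`, integrate by parts; the symmetry of `c` in the outer
indices turns `2 ∑ c w^a·(v^b·∇w^d)` into `∑ c v^b·∇(w^a·w^d)`.
-/

open scoped ContDiff ENNReal FourierTransform Topology ComplexConjugate
open Set MeasureTheory Filter Polynomial Metric

namespace Pool.Agent.Work.MP_6bf1e5_an.Ens

noncomputable section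

variable {ι : Type} [Fintype ι]

variable {ν T E0 M0 M1 : ℝ} {c : ι → ι → ι → ℝ} {u v : ι → R3 → ℝ → R3} {p q : ι → R3 → ℝ → ℝ}


/-- The difference at time `t`. -/
def dif (u v : ι → R3 → ℝ → R3) (t : ℝ) (a : ι) (x : R3) : R3 := v a x t - u a x t

theorem locen_diff {f : R3 → ℝ} (hf : ContDiff ℝ ∞ f) (x : R3) : DifferentiableAt ℝ f x :=
  hf.differentiable (by simp) x

theorem locen_div {G : Fin 3 → R3 → ℝ} (hG : ∀ j, ContDiff ℝ ∞ (G j)) {ψ : R3 → ℝ}
    (hψ : Test ψ) : ∫ x, (∑ j, pd j (G j) x) * ψ x = -∫ x, ∑ j, G j x * pd j ψ x := by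
  simp_rw [Finset.sum_mul]
  rw [integral_finsetSum _ fun j _ => hψ.integrable_mul (contDiff_pd (hG j) j).continuous,
    integral_finsetSum _ fun j _ => (hψ.pd j).integrable_mul (hG j).continuous,
    ← Finset.sum_neg_distrib]
  exact Finset.sum_congr rfl fun j _ => integral_pd_mul (hG j) hψ j

theorem locen_swap (f : ι → ι → ι → ℝ) :
    ∑ a, ∑ b, ∑ d, f a b d = ∑ a, ∑ b, ∑ d, f d b a :=
  calc ∑ a, ∑ b, ∑ d, f a b d = ∑ b, ∑ a, ∑ d, f a b d := Finset.sum_comm
    _ = ∑ b, ∑ d, ∑ a, f a b d := Finset.sum_congr rfl fun _ _ => Finset.sum_comm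
    _ = ∑ d, ∑ b, ∑ a, f a b d := Finset.sum_comm

/-- The viscous term. -/
theorem locen_visc {w : ι → Fin 3 → R3 → ℝ} (hw : ∀ a i, ContDiff ℝ ∞ (w a i)) {ψ : R3 → ℝ}
    (hψ : Test ψ) : ∫ x, (∑ a, ∑ i, w a i x * ∑ j, pd j (pd j (w a i)) x) * ψ x =
      -(∫ x, (∑ a, ∑ i, ∑ j, pd j (w a i) x ^ 2) * ψ x)
        - ∫ x, ∑ a, ∑ i, ∑ j, w a i x * pd j (w a i) x * pd j ψ x := by
  have hd : ∀ a i j, ContDiff ℝ ∞ (pd j (w a i)) := fun a i j => contDiff_pd (hw a i) j
  have h1 := locen_div (G := fun j y => ∑ a, ∑ i, w a i y * pd j (w a i) y)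
    (fun j => ContDiff.sum fun a _ => ContDiff.sum fun i _ => (hw a i).mul (hd a i j)) hψ
  have h2 : ∀ x, (∑ j, pd j (fun y => ∑ a, ∑ i, w a i y * pd j (w a i) y) x) * ψ x =
      (∑ a, ∑ i, ∑ j, pd j (w a i) x ^ 2) * ψ x
        + (∑ a, ∑ i, w a i x * ∑ j, pd j (pd j (w a i)) x) * ψ x := fun x => by
    have h3 : ∀ j, pd j (fun y => ∑ a, ∑ i, w a i y * pd j (w a i) y) x =
        ∑ a, ∑ i, (pd j (w a i) x * pd j (w a i) x + w a i x * pd j (pd j (w a i)) x) :=
      fun j => by
        rw [pd_sum _ fun a _ => locen_diff (ContDiff.sum fun i _ => (hw a i).mul (hd a i j)) x]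
        refine Finset.sum_congr rfl fun a _ => ?_
        rw [pd_sum _ fun i _ => locen_diff ((hw a i).mul (hd a i j)) x]
        exact Finset.sum_congr rfl fun i _ =>
          pd_mul (locen_diff (hw a i) x) (locen_diff (hd a i j) x) j
    rw [← add_mul, Finset.sum_congr rfl fun j _ => h3 j, Finset.sum_comm,
      ← Finset.sum_add_distrib]
    congr 1
    refine Finset.sum_congr rfl fun a _ => ?_
    simp only [Fin.sum_univ_three]
    ring
  have h4 : ∀ x, ∑ j, (∑ a, ∑ i, w a i x * pd j (w a i) x) * pd j ψ x =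
      ∑ a, ∑ i, ∑ j, w a i x * pd j (w a i) x * pd j ψ x := fun x => by
    simp only [Finset.sum_mul]
    rw [Finset.sum_comm]
    exact Finset.sum_congr rfl fun a _ => Finset.sum_comm
  simp only [h2, h4] at h1
  rw [integral_add (hψ.integrable_mul (ContDiff.sum fun a _ => ContDiff.sum fun i _ =>
      ContDiff.sum fun j _ => (hd a i j).pow 2).continuous)
    (hψ.integrable_mul (ContDiff.sum fun a _ => ContDiff.sum fun i _ =>
      (hw a i).mul (ContDiff.sum fun j _ => contDiff_pd (hd a i j) j)).continuous)] at h1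
  linarith

/-- The transport term. -/
theorem locen_trans (hc : ∀ a b d, c a b d = c d b a) {w z : ι → Fin 3 → R3 → ℝ}
    (hw : ∀ a i, ContDiff ℝ ∞ (w a i)) (hz : ∀ a i, ContDiff ℝ ∞ (z a i))
    (hdiv : ∀ a x, ∑ i, pd i (z a i) x = 0) {ψ : R3 → ℝ} (hψ : Test ψ) :
    2 * ∫ x, (∑ a, ∑ i, w a i x * ∑ b, ∑ d, c a b d * ∑ j, z b j x * pd j (w d i) x) * ψ x =
      -∫ x, ∑ a, ∑ b, ∑ d, c a b d * (∑ i, w a i x * w d i x) * ∑ j, z b j x * pd j ψ x := by
  have hs : ∀ a d, ContDiff ℝ ∞ fun y => ∑ i, w a i y * w d i y := fun a d =>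
    ContDiff.sum fun i _ => (hw a i).mul (hw d i)
  have hg : ∀ a b d j, ContDiff ℝ ∞ fun y => c a b d * ((∑ i, w a i y * w d i y) * z b j y) :=
    fun a b d j => contDiff_const.mul ((hs a d).mul (hz b j))
  have h1 := locen_div
    (G := fun j y => ∑ a, ∑ b, ∑ d, c a b d * ((∑ i, w a i y * w d i y) * z b j y))
    (fun j => ContDiff.sum fun a _ => ContDiff.sum fun b _ => ContDiff.sum fun d _ => hg a b d j) hψ
  have h2 : ∀ x, ∑ j, pd j
      (fun y => ∑ a, ∑ b, ∑ d, c a b d * ((∑ i, w a i y * w d i y) * z b j y)) x =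
      2 * ∑ a, ∑ i, w a i x * ∑ b, ∑ d, c a b d * ∑ j, z b j x * pd j (w d i) x := fun x => by
    have h3 : ∀ j, pd j
        (fun y => ∑ a, ∑ b, ∑ d, c a b d * ((∑ i, w a i y * w d i y) * z b j y)) x =
        ∑ a, ∑ b, ∑ d, c a b d * ((∑ i, (pd j (w a i) x * w d i x + w a i x * pd j (w d i) x))
          * z b j x + (∑ i, w a i x * w d i x) * pd j (z b j) x) := fun j => by
      rw [pd_sum _ fun a _ =>
        locen_diff (ContDiff.sum fun b _ => ContDiff.sum fun d _ => hg a b d j) x]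
      refine Finset.sum_congr rfl fun a _ => ?_
      rw [pd_sum _ fun b _ => locen_diff (ContDiff.sum fun d _ => hg a b d j) x]
      refine Finset.sum_congr rfl fun b _ => ?_
      rw [pd_sum _ fun d _ => locen_diff (hg a b d j) x]
      refine Finset.sum_congr rfl fun d _ => ?_
      rw [pd_const_mul, pd_mul (locen_diff (hs a d) x) (locen_diff (hz b j) x),
        pd_sum _ fun i _ => locen_diff ((hw a i).mul (hw d i)) x,
        Finset.sum_congr rfl fun i _ => pd_mul (locen_diff (hw a i) x) (locen_diff (hw d i) x) j]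
    have h4 : ∑ j, pd j
        (fun y => ∑ a, ∑ b, ∑ d, c a b d * ((∑ i, w a i y * w d i y) * z b j y)) x =
        ∑ a, ∑ b, ∑ d, c a b d * (∑ i, ∑ j, w d i x * (z b j x * pd j (w a i) x))
          + ∑ a, ∑ b, ∑ d, c a b d * (∑ i, ∑ j, w a i x * (z b j x * pd j (w d i) x)) := by
      rw [Finset.sum_congr rfl fun j _ => h3 j, Finset.sum_comm, ← Finset.sum_add_distrib]
      refine Finset.sum_congr rfl fun a _ => ?_
      rw [Finset.sum_comm, ← Finset.sum_add_distrib]
      refine Finset.sum_congr rfl fun b _ => ?_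
      rw [Finset.sum_comm, ← Finset.sum_add_distrib]
      refine Finset.sum_congr rfl fun d _ => ?_
      have h5 := hdiv b x
      simp only [Fin.sum_univ_three] at h5 ⊢
      linear_combination (c a b d * (w a 0 x * w d 0 x + w a 1 x * w d 1 x + w a 2 x * w d 2 x)) * h5
    have h6 : ∑ a, ∑ i, w a i x * ∑ b, ∑ d, c a b d * ∑ j, z b j x * pd j (w d i) x =
        ∑ a, ∑ b, ∑ d, c a b d * (∑ i, ∑ j, w a i x * (z b j x * pd j (w d i) x)) := by
      refine Finset.sum_congr rfl fun a _ => ?_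
      simp only [Finset.mul_sum]
      rw [Finset.sum_comm]
      refine Finset.sum_congr rfl fun b _ => ?_
      rw [Finset.sum_comm]
      refine Finset.sum_congr rfl fun d _ => Finset.sum_congr rfl fun i _ =>
        Finset.sum_congr rfl fun j _ => ?_
      ring
    rw [h4, h6, locen_swap fun a b d =>
      c a b d * (∑ i, ∑ j, w d i x * (z b j x * pd j (w a i) x)), two_mul]
    congr 1
    exact Finset.sum_congr rfl fun a _ => Finset.sum_congr rfl fun b _ =>
      Finset.sum_congr rfl fun d _ => by rw [hc d b a]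
  have h7 : ∀ x, ∑ j, (∑ a, ∑ b, ∑ d, c a b d * ((∑ i, w a i x * w d i x) * z b j x)) * pd j ψ x =
      ∑ a, ∑ b, ∑ d, c a b d * (∑ i, w a i x * w d i x) * ∑ j, z b j x * pd j ψ x := fun x => by
    simp only [Finset.sum_mul (s := (Finset.univ : Finset ι))]
    rw [Finset.sum_comm]
    refine Finset.sum_congr rfl fun a _ => ?_
    rw [Finset.sum_comm]
    refine Finset.sum_congr rfl fun b _ => ?_
    rw [Finset.sum_comm]
    refine Finset.sum_congr rfl fun d _ => ?_
    simp only [Fin.sum_univ_three]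
    ring
  simp only [h2, h7, mul_assoc (2 : ℝ)] at h1
  rwa [integral_const_mul] at h1

theorem locen_four {f1 f2 f3 f4 : R3 → ℝ} (i1 : Integrable f1) (i2 : Integrable f2)
    (i3 : Integrable f3) (i4 : Integrable f4) (r1 r2 r3 r4 : ℝ) :
    ∫ x, (r1 * f1 x - r2 * f2 x - r3 * f3 x - r4 * f4 x) =
      r1 * (∫ x, f1 x) - r2 * (∫ x, f2 x) - r3 * (∫ x, f3 x) - r4 * ∫ x, f4 x := by
  have j2 : Integrable fun x => r1 * f1 x - r2 * f2 x := (i1.const_mul _).sub (i2.const_mul _)
  have j3 : Integrable fun x => r1 * f1 x - r2 * f2 x - r3 * f3 x := j2.sub (i3.const_mul _)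
  rw [integral_sub j3 (i4.const_mul _), integral_sub j2 (i3.const_mul _),
    integral_sub (i1.const_mul _) (i2.const_mul _), integral_const_mul, integral_const_mul,
    integral_const_mul, integral_const_mul]

omit [Fintype ι] in
theorem locen_apply (t : ℝ) (a : ι) (x : R3) (i : Fin 3) :
    dif u v t a x i = v a x t i - u a x t i := rfl

theorem Pair.jw (h : Pair ν c T E0 M0 M1 u p v q) (a : ι) (i : Fin 3) :
    JS (Icc 0 T) fun x t => dif u v t a x i := (h.hv.ju a i).sub (h.hu.ju a i)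

theorem Pair.jdis (h : Pair ν c T E0 M0 M1 u p v q) :
    JS (Icc 0 T) fun x t => dis (dif u v t) x := by
  simp only [dis, sq]
  exact JS.sum _ fun a _ => JS.sum _ fun i _ => JS.sum _ fun j _ =>
    ((h.jw a i).pd (uniqueDiffOn_Icc h.hT) j).mul ((h.jw a i).pd (uniqueDiffOn_Icc h.hT) j)

theorem Pair.locen_pd (h : Pair ν c T E0 M0 M1 u p v q) {t : ℝ} (ht : t ∈ Icc 0 T) (a : ι)
    (i j : Fin 3) (x : R3) : pd j (fun y => dif u v t a y i) x =
      pd j (fun y => v a y t i) x - pd j (fun y => u a y t i) x :=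
  pd_sub (locen_diff ((h.hv.ju a i).slice ht) x) (locen_diff ((h.hu.ju a i).slice ht) x) j

theorem Pair.div_dif (h : Pair ν c T E0 M0 M1 u p v q) {t : ℝ} (ht : t ∈ Icc 0 T) (a : ι) (x : R3) :
    ∑ i, pd i (fun y => dif u v t a y i) x = 0 := by
  simp only [h.locen_pd ht, Finset.sum_sub_distrib, h.hv.divFree a x t ht, h.hu.divFree a x t ht,
    sub_zero]

theorem Pair.locen_jden (h : Pair ν c T E0 M0 M1 u p v q) :
    JS (Icc 0 T) fun x t => den (dif u v t) x := by
  simp only [den, sq]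
  exact JS.sum _ fun a _ => JS.sum _ fun i _ => (h.jw a i).mul (h.jw a i)

theorem Pair.integrable_den (h : Pair ν c T E0 M0 M1 u p v q) {t : ℝ} (ht : t ∈ Icc 0 T) :
    Integrable (den (dif u v t)) ∧ ∫ x, den (dif u v t) x ≤ 4 * E0 := by
  have hle : ∀ x, den (dif u v t) x ≤
      2 * den (fun a x => v a x t) x + 2 * den (fun a x => u a x t) x := fun x => by
    simp only [den, Finset.mul_sum, ← Finset.sum_add_distrib, locen_apply]
    refine Finset.sum_le_sum fun a _ => Finset.sum_le_sum fun i _ => ?_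
    nlinarith [sq_nonneg (v a x t i + u a x t i)]
  have h0 : ∀ x, 0 ≤ den (dif u v t) x := fun x =>
    Finset.sum_nonneg fun a _ => Finset.sum_nonneg fun i _ => sq_nonneg _
  have hi : Integrable fun x =>
      2 * den (fun a x => v a x t) x + 2 * den (fun a x => u a x t) x :=
    ((h.iv t ht).const_mul 2).add ((h.iu t ht).const_mul 2)
  have h1 : Integrable (den (dif u v t)) :=
    hi.mono' (h.locen_jden.slice ht).continuous.aestronglyMeasurable
      (Eventually.of_forall fun x => by rw [Real.norm_of_nonneg (h0 x)]; exact hle x)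
  refine ⟨h1, (integral_mono h1 hi hle).trans ?_⟩
  rw [integral_add ((h.iv t ht).const_mul 2) ((h.iu t ht).const_mul 2), integral_const_mul,
    integral_const_mul]
  linarith [h.ev t ht, h.eu t ht]

/-- The equation for the difference. -/
theorem Pair.locen_eq (h : Pair ν c T E0 M0 M1 u p v q) {t : ℝ} (ht : t ∈ Icc 0 T) (a : ι)
    (i : Fin 3) (x : R3) :
    derivWithin (fun s => v a x s i) (Icc 0 T) t - derivWithin (fun s => u a x s i) (Icc 0 T) t =
      ν * (∑ j, pd j (pd j fun y => dif u v t a y i) x)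
        - (∑ b, ∑ d, c a b d * ∑ j, v b x t j * pd j (fun y => dif u v t d y i) x)
        - (∑ b, ∑ d, c a b d * ∑ j, dif u v t b x j * pd j (fun y => u d y t i) x)
        - (pd i (fun y => q a y t) x - pd i (fun y => p a y t) x) := by
  have h1 : ∀ j, pd j (pd j fun y => dif u v t a y i) x =
      pd j (pd j fun y => v a y t i) x - pd j (pd j fun y => u a y t i) x := fun j => by
    rw [funext (h.locen_pd ht a i j)]
    exact pd_sub (locen_diff (contDiff_pd ((h.hv.ju a i).slice ht) j) x)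
      (locen_diff (contDiff_pd ((h.hu.ju a i).slice ht) j) x) j
  have h2 : ∀ b j, dif u v t b x j = v b x t j - u b x t j := fun _ _ => rfl
  have e1 := h.hv.momentum a x t ht i
  have e2 := h.hu.momentum a x t ht i
  simp only [h1, h2, h.locen_pd ht, mul_sub, sub_mul, Finset.sum_sub_distrib]
  linarith

theorem Pair.locen_deriv (h : Pair ν c T E0 M0 M1 u p v q) {t : ℝ} (ht : t ∈ Icc 0 T) (x : R3) :
    derivWithin (fun s => den (dif u v s) x) (Icc 0 T) t =
      2 * ν * (∑ a, ∑ i, dif u v t a x i * ∑ j, pd j (pd j fun y => dif u v t a y i) x)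
        - 2 * (∑ a, ∑ i, dif u v t a x i *
            ∑ b, ∑ d, c a b d * ∑ j, v b x t j * pd j (fun y => dif u v t d y i) x)
        - 2 * (∑ a, ∑ b, ∑ d, c a b d * ∑ i, ∑ j,
            dif u v t a x i * dif u v t b x j * pd j (fun y => u d y t i) x)
        - 2 * ∑ a, ((∑ i, pd i (fun y => q a y t) x * dif u v t a x i)
            - ∑ i, pd i (fun y => p a y t) x * dif u v t a x i) := by
  have h1 : HasDerivWithinAt (fun s => den (dif u v s) x)
      (∑ a, ∑ i, 2 * dif u v t a x i * (derivWithin (fun s => v a x s i) (Icc 0 T) t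
        - derivWithin (fun s => u a x s i) (Icc 0 T) t)) (Icc 0 T) t := by
    refine HasDerivWithinAt.fun_sum fun a _ => HasDerivWithinAt.fun_sum fun i _ => ?_
    have h2 : HasDerivWithinAt (fun s => dif u v s a x i) _ (Icc 0 T) t :=
      ((h.hv.ju a i).hasDerivWithinAt x ht).sub ((h.hu.ju a i).hasDerivWithinAt x ht)
    simpa using h2.fun_pow 2
  have h3 : ∀ a, ∑ i, dif u v t a x i *
      ∑ b, ∑ d, c a b d * ∑ j, dif u v t b x j * pd j (fun y => u d y t i) x =
      ∑ b, ∑ d, c a b d * ∑ i, ∑ j,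
        dif u v t a x i * dif u v t b x j * pd j (fun y => u d y t i) x := fun a => by
    simp only [Finset.mul_sum]
    rw [Finset.sum_comm]
    refine Finset.sum_congr rfl fun b _ => ?_
    rw [Finset.sum_comm]
    refine Finset.sum_congr rfl fun d _ => Finset.sum_congr rfl fun i _ =>
      Finset.sum_congr rfl fun j _ => ?_
    ring
  rw [h1.derivWithin (uniqueDiffOn_Icc h.hT t ht), ← Finset.sum_congr rfl fun a _ => h3 a,
    Finset.mul_sum, Finset.mul_sum, Finset.mul_sum, Finset.mul_sum, ← Finset.sum_sub_distrib,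
    ← Finset.sum_sub_distrib, ← Finset.sum_sub_distrib]
  refine Finset.sum_congr rfl fun a _ => ?_
  rw [← Finset.sum_sub_distrib, Finset.mul_sum, Finset.mul_sum, Finset.mul_sum, Finset.mul_sum,
    ← Finset.sum_sub_distrib, ← Finset.sum_sub_distrib, ← Finset.sum_sub_distrib]
  refine Finset.sum_congr rfl fun i _ => ?_
  rw [h.locen_eq ht]
  ring

theorem Pair.local_energy (h : Pair ν c T E0 M0 M1 u p v q) {ψ : R3 → ℝ} (hψ : Test ψ) {t : ℝ}
    (ht : t ∈ Icc 0 T) : HasDerivWithinAt (fun s => ∫ x, den (dif u v s) x * ψ x)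
      (-(2 * ν * ∫ x, dis (dif u v t) x * ψ x)
        - 2 * ν * (∫ x, ∑ a, ∑ i, ∑ j,
            dif u v t a x i * pd j (fun y => dif u v t a y i) x * pd j ψ x)
        + (∫ x, ∑ a, ∑ b, ∑ d, c a b d * (∑ i, dif u v t a x i * dif u v t d x i)
            * ∑ j, v b x t j * pd j ψ x)
        - 2 * (∫ x, (∑ a, ∑ b, ∑ d, c a b d * ∑ i, ∑ j,
            dif u v t a x i * dif u v t b x j * pd j (fun y => u d y t i) x) * ψ x)
        - 2 * ∑ a, ((∑ i, ∫ x, pd i (fun y => q a y t) x * (ψ x * dif u v t a x i))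
            - ∑ i, ∫ x, pd i (fun y => p a y t) x * (ψ x * dif u v t a x i)))
      (Icc 0 T) t := by
  have hw : ∀ a i, ContDiff ℝ ∞ fun y => dif u v t a y i := fun a i => (h.jw a i).slice ht
  have hu : ∀ a i, ContDiff ℝ ∞ fun y => u a y t i := fun a i => (h.hu.ju a i).slice ht
  have hv : ∀ a i, ContDiff ℝ ∞ fun y => v a y t i := fun a i => (h.hv.ju a i).slice ht
  have hp : ∀ a i, ContDiff ℝ ∞ fun x => pd i (fun y => p a y t) x * dif u v t a x i :=
    fun a i => (contDiff_pd ((h.hu.jp a).slice ht) i).mul (hw a i)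
  have hq : ∀ a i, ContDiff ℝ ∞ fun x => pd i (fun y => q a y t) x * dif u v t a x i :=
    fun a i => (contDiff_pd ((h.hv.jp a).slice ht) i).mul (hw a i)
  have e1 := locen_visc hw hψ
  have e2 := locen_trans h.hc hw hv (fun a x => h.hv.divFree a x t ht) hψ
  have i1 : Integrable fun x => (∑ a, ∑ i, dif u v t a x i *
      ∑ j, pd j (pd j fun y => dif u v t a y i) x) * ψ x :=
    hψ.integrable_mul (ContDiff.sum fun a _ => ContDiff.sum fun i _ => (hw a i).mul
      (ContDiff.sum fun j _ => contDiff_pd (contDiff_pd (hw a i) j) j)).continuous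
  have i2 : Integrable fun x => (∑ a, ∑ i, dif u v t a x i *
      ∑ b, ∑ d, c a b d * ∑ j, v b x t j * pd j (fun y => dif u v t d y i) x) * ψ x :=
    hψ.integrable_mul (ContDiff.sum fun a _ => ContDiff.sum fun i _ => (hw a i).mul
      (ContDiff.sum fun b _ => ContDiff.sum fun d _ => contDiff_const.mul
        (ContDiff.sum fun j _ => (hv b j).mul (contDiff_pd (hw d i) j)))).continuous
  have i3 : Integrable fun x => (∑ a, ∑ b, ∑ d, c a b d * ∑ i, ∑ j,
      dif u v t a x i * dif u v t b x j * pd j (fun y => u d y t i) x) * ψ x :=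
    hψ.integrable_mul (ContDiff.sum fun a _ => ContDiff.sum fun b _ => ContDiff.sum fun d _ =>
      contDiff_const.mul (ContDiff.sum fun i _ => ContDiff.sum fun j _ =>
        ((hw a i).mul (hw b j)).mul (contDiff_pd (hu d i) j))).continuous
  have i4 : Integrable fun x => (∑ a, ((∑ i, pd i (fun y => q a y t) x * dif u v t a x i)
      - ∑ i, pd i (fun y => p a y t) x * dif u v t a x i)) * ψ x :=
    hψ.integrable_mul (ContDiff.sum fun a _ => (ContDiff.sum fun i _ => hq a i).sub
      (ContDiff.sum fun i _ => hp a i)).continuous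
  have e3 : ∫ x, (∑ a, ((∑ i, pd i (fun y => q a y t) x * dif u v t a x i)
      - ∑ i, pd i (fun y => p a y t) x * dif u v t a x i)) * ψ x =
      ∑ a, ((∑ i, ∫ x, pd i (fun y => q a y t) x * (ψ x * dif u v t a x i))
        - ∑ i, ∫ x, pd i (fun y => p a y t) x * (ψ x * dif u v t a x i)) := by
    simp only [mul_comm (ψ _), ← mul_assoc]
    simp only [Finset.sum_mul (s := (Finset.univ : Finset ι))]
    rw [integral_finsetSum _ fun a _ => hψ.integrable_mul
      ((ContDiff.sum fun i _ => hq a i).sub (ContDiff.sum fun i _ => hp a i)).continuous]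
    refine Finset.sum_congr rfl fun a _ => ?_
    rw [← integral_finsetSum _ fun i _ => hψ.integrable_mul (hq a i).continuous,
      ← integral_finsetSum _ fun i _ => hψ.integrable_mul (hp a i).continuous,
      ← integral_sub (integrable_finsetSum _ fun i _ => hψ.integrable_mul (hq a i).continuous)
        (integrable_finsetSum _ fun i _ => hψ.integrable_mul (hp a i).continuous)]
    simp only [sub_mul, Finset.sum_mul]
  have e4 := h.locen_jden.hasDerivWithinAt_integral h.hT hψ ht
  simp only [h.locen_deriv ht, sub_mul, mul_assoc _ _ (ψ _)] at e4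
  rw [locen_four i1 i2 i3 i4, e1, e2, e3] at e4
  convert e4 using 1
  simp only [dis]
  ring

end

end Pool.Agent.Work.MP_6bf1e5_an.Ens
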