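import Pool.Agent.Work.MP_6bf1e5_an.Ens.Stmt

/-!
Working definitions for the proof (none of them occurs in the final statement).
The plan is in the team store, file h1_g7_plan.md.
-/

open scoped ContDiff ENNReal FourierTransform BoundedContinuousFunction Topology Matrix
open Set MeasureTheory Filter Polynomial

namespace Pool.Agent.Work.MP_6bf1e5_an.Ens

noncomputable section

/-! ### The system with a general coupling tensor -/

/-- The conclusion of the theorem for the coupling tensor `c`. -/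
def CBlowup {ι : Type} [Fintype ι] (ν : ℝ) (c : ι → ι → ι → ℝ) : Prop :=
  ∃ u0 : ι → SchwartzMap R3 R3, (∀ a x, ∑ i, pd i (fun y => u0 a y i) x = 0) ∧
    (∃ u p, CSol ν c (fun a => u0 a) (Ico 0 1) u p ∧
      (∀ t ∈ Ico (0 : ℝ) 1, energy (fun a x => u a x t) ≤ energy fun a => u0 a) ∧
      ∃ W : ι → R3 → R3, W ≠ 0 ∧ (∃ C : ℝ, ∀ a y, ‖W a y‖ ≤ C / (1 + ‖y‖)) ∧
        (∃ q, CSol ν c W (Ico 0 1) (fun a x t => (√(1 - t))⁻¹ • W a ((√(1 - t))⁻¹ • x)) q) ∧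
        ∀ ε > 0, ∃ t0 < 1, ∀ t ∈ Ico t0 1, ∀ a y,
          ‖√(1 - t) • u a (√(1 - t) • y) t - W a y‖ ≤ ε) ∧
    ¬∃ u p, CSol ν c (fun a => u0 a) (Ici 0) u p ∧
      ∃ C < (⊤ : ℝ≥0∞), ∀ t ≥ 0, energy (fun a x => u a x t) ≤ C

/-- Adjoin a unit to a coupling tensor. -/
def unitC {ι : Type} [DecidableEq ι] (c : ι → ι → ι → ℝ) : Option ι → Option ι → Option ι → ℝ
  | some a, some b, some d => c a b d
  | none, b, d => if b = d then 1 else 0
  | some a, none, d => if some a = d then 1 else 0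
  | some a, some b, none => if a = b then 1 else 0

/-! ### Radial profiles: polynomials in `x = 1 / (1 + |y|²)` -/

/-- A polynomial in `1 / (1 + |y|²)`. -/
def rad (p : ℝ[X]) (y : R3) : ℝ := p.eval (1 + ‖y‖ ^ 2)⁻¹

/-- The derivative in `z = |y|²`. -/
def dz (p : ℝ[X]) : ℝ[X] := -(X ^ 2 * derivative p)

/-- `z` times the derivative in `z`. -/
def th (p : ℝ[X]) : ℝ[X] := -(X * (1 - X) * derivative p)

/-- The quadratic form of `A`. -/
def qf (A : Matrix (Fin 3) (Fin 3) ℝ) (y : R3) : ℝ := ∑ i, ∑ j, A i j * y i * y j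

/-- The field `a(z) A y + b(z) (y·Ay) y`. -/
def FA (A : Matrix (Fin 3) (Fin 3) ℝ) (a b : ℝ[X]) (y : R3) : R3 :=
  WithLp.toLp 2 fun i => rad a y * ∑ j, A i j * y j + rad b y * qf A y * y i

/-- First coefficient of the poloidal field. -/
def al (g : ℝ[X]) : ℝ[X] := 3 * g + 2 * th g

/-- Second coefficient of the poloidal field. -/
def be (g : ℝ[X]) : ℝ[X] := -(2 * dz g)

/-- The poloidal field with potential `g`. -/
def SA (A : Matrix (Fin 3) (Fin 3) ℝ) (g : ℝ[X]) : R3 → R3 := FA A (al g) (be g)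

/-- The seven-dimensional radial Laplacian. -/
def lap7 (g : ℝ[X]) : ℝ[X] := 4 * th (dz g) + 14 * dz g

/-- The linear part of the profile equation on potentials. -/
def linP (ν : ℝ) (g : ℝ[X]) : ℝ[X] := g + th g - C ν * lap7 g

/-- First coefficient of the contracted transport term. -/
def bilA (g h : ℝ[X]) : ℝ[X] :=
  g * th (al h) - C (1 / 3) * (al h * th g + al g * th h) + C (7 / 12) * (al h * al g)

/-- Second coefficient of the contracted transport term. -/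
def bilB (g h : ℝ[X]) : ℝ[X] :=
  g * dz (al h) + C (1 / 6) * (al h * be g) + C (4 / 3) * (be h * al g)
    + 2 * (g * th (be h)) - 2 * (be h * th g)

/-- Radial coefficient of the transport term in the equation of the unit. -/
def bilR (g h : ℝ[X]) : ℝ[X] :=
  4 * (g * th (al h)) - C (4 / 3) * (al h * th g) - 8 * (al g * th h) + C (5 / 3) * (al h * al g)
    - 8 * (g * (th (th h) - th h)) + 8 * (th h * th g)

/-- The symmetric traceless part of `e_i e_jᵀ`. -/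
def Am (i j : Fin 3) : Matrix (Fin 3) (Fin 3) ℝ := fun r s =>
  ((if r = i ∧ s = j then 1 else 0) + (if r = j ∧ s = i then 1 else 0)) / 2
    - (if i = j ∧ r = s then 1 else 0) / 3

/-- The invariant cubic form. -/
def tau (a b d : Fin 3 × Fin 3) : ℝ := (Am a.1 a.2 * Am b.1 b.2 * Am d.1 d.2).trace

/-- The polynomial certificate. -/
structure Cert (ν : ℝ) (g : Fin 8 → ℝ[X]) (γ : Fin 8 → Fin 8 → Fin 8 → ℝ) : Prop where
  sym1 : ∀ k l m, γ k l m = γ l k m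
  sym2 : ∀ k l m, γ k l m = γ k m l
  zero : ∀ k, (g k).coeff 0 = 0
  eqn : ∀ k, be (linP ν (g k)) + ∑ l, ∑ m, C (γ k l m) * bilB (g l) (g m)
    = dz (al (linP ν (g k)) + ∑ l, ∑ m, C (γ k l m) * bilA (g l) (g m))
  ne : ∃ k, (g k).eval 1 ≠ 0

/-- The coupling tensor of the 72 species. -/
def cOf (γ : Fin 8 → Fin 8 → Fin 8 → ℝ) (a b d : Fin 8 × Fin 3 × Fin 3) : ℝ :=
  γ a.1 b.1 d.1 * tau a.2 b.2 d.2

/-- A self-similar profile made of poloidal fields, in physical space. -/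
structure RadProfile {ι : Type} [Fintype ι] (ν : ℝ) (c : ι → ι → ι → ℝ)
    (A : ι → Matrix (Fin 3) (Fin 3) ℝ) (g : ι → ℝ[X]) : Prop where
  symm : ∀ a i j, A a i j = A a j i
  trace : ∀ a, ∑ i, A a i i = 0
  zero : ∀ a, (g a).coeff 0 = 0
  eqn : ∀ a, ∃ P : R3 → ℝ, ContDiff ℝ ∞ P ∧ ∀ y i, SA (A a) (linP ν (g a)) y i
    + ∑ b, ∑ d, c a b d * ∑ j, SA (A b) (g b) y j * pd j (fun z => SA (A d) (g d) z i) y
    + pd i P y = 0
  ne : ∃ a y, SA (A a) (g a) y ≠ 0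

/-! ### Fourier side -/

/-- Values of Fourier transforms of families of vector fields (sup norm). -/
abbrev V (ι : Type) := ι → Fin 3 → ℂ

/-- `ev f y = ∫ exp (2 π i ⟪ξ, y⟫) f ξ dξ`. -/
def ev (f : R3 → ℂ) : R3 → ℂ := 𝓕⁻ f

/-- The real fields with Fourier transform `f`. -/
def phys {ι : Type} (f : R3 → V ι) (a : ι) (x : R3) : R3 :=
  WithLp.toLp 2 fun i => (ev (fun ξ => f ξ a i) x).re

/-- Convolution of scalar functions. -/
def cv (f g : R3 → ℂ) (ξ : R3) : ℂ := ∫ η, f η * g (ξ - η)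

/-- The symbol of the Leray projection. -/
def lr (ξ : R3) (i k : Fin 3) : ℝ := (if i = k then 1 else 0) - ξ i * ξ k / ‖ξ‖ ^ 2

/-- The projected nonlinearity in divergence form. -/
def NL {ι : Type} [Fintype ι] (c : ι → ι → ι → ℝ) (f g : R3 → V ι) (ξ : R3) : V ι := fun a i =>
  2 * Real.pi * Complex.I * ∑ b, ∑ d, (c a b d : ℂ) * ∑ k, ∑ j,
    ((lr ξ i k * ξ j : ℝ) : ℂ) * cv (fun η => f η b j) (fun η => g η d k) ξ

/-- The heat exponent `4 π² ν |ξ|²`. -/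
def hr (ν : ℝ) (ξ : R3) : ℝ := 4 * Real.pi ^ 2 * ν * ‖ξ‖ ^ 2

/-- The weight `|ξ|^(-5/2) exp (-κ |ξ|)`; it vanishes at `ξ = 0`. -/
def wt (κ : ℝ) (ξ : R3) : ℝ := ‖ξ‖ ^ (-(5 / 2) : ℝ) * Real.exp (-(κ * ‖ξ‖))

/-- The weight `|ξ|^(-2) exp (-κ |ξ|)`; it vanishes at `ξ = 0`. -/
def w2 (κ : ℝ) (ξ : R3) : ℝ := (‖ξ‖ ^ 2)⁻¹ * Real.exp (-(κ * ‖ξ‖))

/-- Divergence free on the Fourier side. -/
def DivFree {ι : Type} (f : R3 → V ι) : Prop := ∀ ξ a, ∑ j, (ξ j : ℂ) * f ξ a j = 0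

/-- Fourier transform of a real field. -/
def Sym {ι : Type} (f : R3 → V ι) : Prop := ∀ ξ, f (-ξ) = star (f ξ)

/-- Scalar functions that are continuous off `0` and bounded by a multiple of a weight. -/
structure Adm (f : R3 → ℂ) : Prop where
  cont : ContinuousOn f {0}ᶜ
  bound : ∃ C κ : ℝ, 0 < κ ∧ ∀ ξ, ξ ≠ 0 → ‖f ξ‖ ≤ C * wt κ ξ

/-- Fourier transform of a self-similar profile. -/
structure Profile {ι : Type} [Fintype ι] (ν : ℝ) (c : ι → ι → ι → ℝ) (W : R3 → V ι) : Prop where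
  cont : ContinuousOn W {0}ᶜ
  bound : ∃ C κ : ℝ, 0 < κ ∧ ∀ ξ, ‖W ξ‖ ≤ C * w2 κ ξ
  div : DivFree W
  sym : Sym W
  ray : ∀ ξ, ξ ≠ 0 → HasDerivAt (fun μ : ℝ => μ ^ 2 • W (μ • ξ))
    ((2 : ℝ) • (hr ν ξ • W ξ + NL c W W ξ)) 1
  decay : ∃ C : ℝ, ∀ a y, ‖phys W a y‖ ≤ C / (1 + ‖y‖)
  ne : phys W ≠ 0

/-- The self-similar solution on the Fourier side. -/
def Uh {ι : Type} (W : R3 → V ι) (t : ℝ) (ξ : R3) : V ι := (1 - t) • W (√(1 - t) • ξ)

/-- Fourier-side solution on a compact time interval. -/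
structure SSol {ι : Type} [Fintype ι] (ν : ℝ) (c : ι → ι → ι → ℝ) (a b : ℝ)
    (f : ℝ → R3 → V ι) : Prop where
  cont : ContinuousOn (fun z : ℝ × R3 => f z.1 z.2) (Icc a b ×ˢ {0}ᶜ)
  bound : ∃ C κ : ℝ, 0 < κ ∧ ∀ t ∈ Icc a b, ∀ ξ, ‖f t ξ‖ ≤ C * wt κ ξ
  div : ∀ t ∈ Icc a b, DivFree (f t)
  sym : ∀ t ∈ Icc a b, Sym (f t)
  ode : ∀ ξ, ξ ≠ 0 → ∀ t ∈ Icc a b, HasDerivWithinAt (fun s => f s ξ)
    (-(hr ν ξ • f t ξ) - NL c (f t) (f t) ξ) (Icc a b) t

/-- Fourier-side solution on `[0, 1)`. -/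
def FSol {ι : Type} [Fintype ι] (ν : ℝ) (c : ι → ι → ι → ℝ) (f : ℝ → R3 → V ι) : Prop :=
  ∀ T, 0 < T → T < 1 → SSol ν c 0 T f

/-! ### The Banach spaces of normalised functions -/

/-- Normalised data: bounded, continuous, divergence free, vanishing at infinity. -/
def Xs (ι : Type) [Fintype ι] : Submodule ℂ (R3 →ᵇ V ι) where
  carrier := {f | DivFree f ∧ Tendsto f (cocompact R3) (𝓝 0)}
  zero_mem' := ⟨fun ξ a => by simp, tendsto_const_nhds⟩
  add_mem' := by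
    rintro f g ⟨hf, hf'⟩ ⟨hg, hg'⟩
    refine ⟨fun ξ a => ?_, by simpa [Pi.add_def] using hf'.add hg'⟩
    simp [mul_add, Finset.sum_add_distrib, hf ξ a, hg ξ a]
  smul_mem' := by
    rintro z f ⟨hf, hf'⟩
    refine ⟨fun ξ a => ?_, by simpa using hf'.const_smul z⟩
    have := congrArg (z * ·) (hf ξ a)
    simpa [Finset.mul_sum, mul_left_comm] using this

/-- Normalised trajectories: bounded, continuous, divergence free. -/
def Ys (ι : Type) [Fintype ι] : Submodule ℂ (ℝ × R3 →ᵇ V ι) where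
  carrier := {y | ∀ t, DivFree fun ξ => y (t, ξ)}
  zero_mem' := fun t ξ a => by simp
  add_mem' := by
    intro f g hf hg t ξ a
    simp [mul_add, Finset.sum_add_distrib, hf t ξ a, hg t ξ a]
  smul_mem' := by
    intro z f hf t ξ a
    have := congrArg (z * ·) (hf t ξ a)
    simpa [Finset.mul_sum, mul_left_comm] using this

theorem isClosed_Xs (ι : Type) [Fintype ι] : IsClosed (Xs ι : Set (R3 →ᵇ V ι)) := by
  have h1 : IsClosed {f : R3 →ᵇ V ι | DivFree f} := by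
    simp only [DivFree, ofPred_forall]
    exact isClosed_iInter fun ξ => isClosed_iInter fun a => isClosed_eq (by fun_prop) continuous_const
  have h2 : IsClosed {f : R3 →ᵇ V ι | Tendsto f (cocompact R3) (𝓝 0)} := by
    refine isClosed_of_closure_subset fun f hf => ?_
    rw [mem_ofPred_eq, Metric.tendsto_nhds]
    intro ε hε
    obtain ⟨g, hg, hfg⟩ := Metric.mem_closure_iff.mp hf (ε / 2) (half_pos hε)
    filter_upwards [Metric.tendsto_nhds.mp hg (ε / 2) (half_pos hε)] with x hx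
    have := (BoundedContinuousFunction.dist_coe_le_dist (f := f) (g := g) x).trans_lt hfg
    linarith [dist_triangle (f x) (g x) 0]
  exact h1.inter h2

theorem isClosed_Ys (ι : Type) [Fintype ι] : IsClosed (Ys ι : Set (ℝ × R3 →ᵇ V ι)) := by
  have : (Ys ι : Set (ℝ × R3 →ᵇ V ι)) =
      ⋂ t, ⋂ ξ : R3, ⋂ a, {y | ∑ j, (ξ j : ℂ) * y (t, ξ) a j = 0} := by
    ext y
    simp only [mem_iInter, mem_ofPred_eq]
    exact Iff.rfl
  rw [this]
  exact isClosed_iInter fun t => isClosed_iInter fun ξ => isClosed_iInter fun a =>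
    isClosed_eq (by fun_prop) continuous_const

/-- The Banach space of normalised data. -/
def XX (ι : Type) [Fintype ι] : Type := ↥(Xs ι)

/-- The Banach space of normalised trajectories. -/
def YY (ι : Type) [Fintype ι] : Type := ↥(Ys ι)

instance (ι : Type) [Fintype ι] : NormedAddCommGroup (XX ι) :=
  inferInstanceAs (NormedAddCommGroup (Xs ι))

instance (ι : Type) [Fintype ι] : NormedSpace ℂ (XX ι) := inferInstanceAs (NormedSpace ℂ (Xs ι))

instance (ι : Type) [Fintype ι] : CompleteSpace (XX ι) := (isClosed_Xs ι).completeSpace_coe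

instance (ι : Type) [Fintype ι] : NormedAddCommGroup (YY ι) :=
  inferInstanceAs (NormedAddCommGroup (Ys ι))

instance (ι : Type) [Fintype ι] : NormedSpace ℂ (YY ι) := inferInstanceAs (NormedSpace ℂ (Ys ι))

instance (ι : Type) [Fintype ι] : CompleteSpace (YY ι) := (isClosed_Ys ι).completeSpace_coe

section API

variable {ι : Type} [Fintype ι]

/-- The underlying function. -/
def XX.fn (v : XX ι) : R3 → V ι := (Subtype.val v : R3 →ᵇ V ι)

/-- The underlying function. -/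
def YY.fn (y : YY ι) : ℝ × R3 → V ι := (Subtype.val y : ℝ × R3 →ᵇ V ι)

theorem XX.cont (v : XX ι) : Continuous v.fn := (Subtype.val v : R3 →ᵇ V ι).continuous
theorem XX.div (v : XX ι) : DivFree v.fn := (Subtype.property v).1
theorem XX.zero (v : XX ι) : Tendsto v.fn (cocompact R3) (𝓝 0) := (Subtype.property v).2
theorem XX.norm_fn_le (v : XX ι) (ξ : R3) : ‖v.fn ξ‖ ≤ ‖v‖ :=
  (Subtype.val v : R3 →ᵇ V ι).norm_coe_le_norm ξ
theorem XX.norm_le (v : XX ι) {C : ℝ} (hC : 0 ≤ C) (h : ∀ ξ, ‖v.fn ξ‖ ≤ C) : ‖v‖ ≤ C :=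
  (BoundedContinuousFunction.norm_le hC).mpr h
theorem XX.ext {v w : XX ι} (h : ∀ ξ, v.fn ξ = w.fn ξ) : v = w :=
  Subtype.ext (BoundedContinuousFunction.ext h)
@[simp] theorem XX.fn_add (v w : XX ι) (ξ : R3) : (v + w).fn ξ = v.fn ξ + w.fn ξ := rfl
@[simp] theorem XX.fn_sub (v w : XX ι) (ξ : R3) : (v - w).fn ξ = v.fn ξ - w.fn ξ := rfl
@[simp] theorem XX.fn_neg (v : XX ι) (ξ : R3) : (-v).fn ξ = -v.fn ξ := rfl
@[simp] theorem XX.fn_zero (ξ : R3) : (0 : XX ι).fn ξ = 0 := rfl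
@[simp] theorem XX.fn_smul (z : ℂ) (v : XX ι) (ξ : R3) : (z • v).fn ξ = z • v.fn ξ := rfl
@[simp] theorem XX.fn_rsmul (r : ℝ) (v : XX ι) (ξ : R3) : (r • v).fn ξ = r • v.fn ξ := by
  rw [← Complex.coe_smul, XX.fn_smul, Complex.coe_smul]

/-- Build an element of `XX`. -/
def XX.mk (f : R3 → V ι) (hc : Continuous f) (C : ℝ) (hb : ∀ ξ, ‖f ξ‖ ≤ C) (hd : DivFree f)
    (hz : Tendsto f (cocompact R3) (𝓝 0)) : XX ι :=
  Subtype.mk (BoundedContinuousFunction.ofNormedAddCommGroup f hc C hb) ⟨hd, hz⟩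

@[simp] theorem XX.fn_mk (f : R3 → V ι) (hc : Continuous f) (C : ℝ) (hb : ∀ ξ, ‖f ξ‖ ≤ C)
    (hd : DivFree f) (hz : Tendsto f (cocompact R3) (𝓝 0)) : (XX.mk f hc C hb hd hz).fn = f := rfl

theorem YY.cont (y : YY ι) : Continuous y.fn := (Subtype.val y : ℝ × R3 →ᵇ V ι).continuous
theorem YY.div (y : YY ι) (t : ℝ) : DivFree fun ξ => y.fn (t, ξ) := Subtype.property y t
theorem YY.norm_fn_le (y : YY ι) (z : ℝ × R3) : ‖y.fn z‖ ≤ ‖y‖ :=
  (Subtype.val y : ℝ × R3 →ᵇ V ι).norm_coe_le_norm z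
theorem YY.norm_le (y : YY ι) {C : ℝ} (hC : 0 ≤ C) (h : ∀ z, ‖y.fn z‖ ≤ C) : ‖y‖ ≤ C :=
  (BoundedContinuousFunction.norm_le hC).mpr h
theorem YY.ext {y w : YY ι} (h : ∀ z, y.fn z = w.fn z) : y = w :=
  Subtype.ext (BoundedContinuousFunction.ext h)
@[simp] theorem YY.fn_add (v w : YY ι) (z : ℝ × R3) : (v + w).fn z = v.fn z + w.fn z := rfl
@[simp] theorem YY.fn_sub (v w : YY ι) (z : ℝ × R3) : (v - w).fn z = v.fn z - w.fn z := rfl
@[simp] theorem YY.fn_neg (v : YY ι) (z : ℝ × R3) : (-v).fn z = -v.fn z := rfl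
@[simp] theorem YY.fn_zero (z : ℝ × R3) : (0 : YY ι).fn z = 0 := rfl
@[simp] theorem YY.fn_smul (a : ℂ) (v : YY ι) (z : ℝ × R3) : (a • v).fn z = a • v.fn z := rfl
@[simp] theorem YY.fn_rsmul (r : ℝ) (v : YY ι) (z : ℝ × R3) : (r • v).fn z = r • v.fn z := by
  rw [← Complex.coe_smul, YY.fn_smul, Complex.coe_smul]

/-- Build an element of `YY`. -/
def YY.mk (f : ℝ × R3 → V ι) (hc : Continuous f) (C : ℝ) (hb : ∀ z, ‖f z‖ ≤ C)
    (hd : ∀ t, DivFree fun ξ => f (t, ξ)) : YY ι :=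
  Subtype.mk (BoundedContinuousFunction.ofNormedAddCommGroup f hc C hb) hd

@[simp] theorem YY.fn_mk (f : ℝ × R3 → V ι) (hc : Continuous f) (C : ℝ) (hb : ∀ z, ‖f z‖ ≤ C)
    (hd : ∀ t, DivFree fun ξ => f (t, ξ)) : (YY.mk f hc C hb hd).fn = f := rfl

end API

/-- Smooth data with compact support away from the origin. -/
def Ds (ι : Type) [Fintype ι] : Submodule ℂ (XX ι) where
  carrier := {f | ContDiff ℝ ∞ f.fn ∧ HasCompactSupport f.fn ∧ f.fn =ᶠ[𝓝 0] 0}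
  zero_mem' := ⟨contDiff_const, HasCompactSupport.zero, EventuallyEq.rfl⟩
  add_mem' := by
    rintro f g ⟨h1, h2, h3⟩ ⟨g1, g2, g3⟩
    refine ⟨h1.add g1, h2.add g2, ?_⟩
    filter_upwards [h3, g3] with x hx gx
    simp [hx, gx]
  smul_mem' := by
    rintro z f ⟨h1, h2, h3⟩
    refine ⟨h1.const_smul z, h2.mono fun x hx => ?_, ?_⟩
    · intro h
      apply hx
      simp [h]
    · filter_upwards [h3] with x hx
      simp [hx]

/-- Time clamped to `[0, t1]`. -/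
def clamp (t1 t : ℝ) : ℝ := max 0 (min t t1)

/-- Undo the normalisation at time `s`. -/
def lift {ι : Type} (κ : ℝ) (y : ℝ × R3 → V ι) (s : ℝ) (η : R3) : V ι := wt κ η • y (s, η)

/-- The normalised Duhamel integral. -/
def duh {ι : Type} [Fintype ι] (ν : ℝ) (c : ι → ι → ι → ℝ) (κ : ℝ) (y z : ℝ × R3 → V ι)
    (t : ℝ) (ξ : R3) : V ι :=
  (wt κ ξ)⁻¹ • ∫ s in (0 : ℝ)..t, Real.exp (-(hr ν ξ * (t - s))) • NL c (lift κ y s) (lift κ z s) ξ

/-- The operators of the local theory, given by their pointwise formulas. -/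
structure Ops {ι : Type} [Fintype ι] (ν : ℝ) (c : ι → ι → ι → ℝ) (κ t1 : ℝ)
    (H : XX ι →L[ℂ] YY ι) (E : YY ι →L[ℂ] XX ι) (B : YY ι →L[ℂ] YY ι →L[ℂ] YY ι)
    (σ : XX ι →L[ℝ] XX ι) (σ' : YY ι →L[ℝ] YY ι) : Prop where
  hH : ∀ v t ξ, (H v).fn (t, ξ) = Real.exp (-(hr ν ξ * clamp t1 t)) • v.fn ξ
  hE : ∀ y ξ, (E y).fn ξ = ((1 - t1) ^ (1 / 4 : ℝ) *
    Real.exp (-(κ * ‖ξ‖ * ((√(1 - t1))⁻¹ - 1)))) • y.fn (t1, (√(1 - t1))⁻¹ • ξ)
  hB : ∀ y z t ξ, (B y z).fn (t, ξ) = duh ν c κ y.fn z.fn (clamp t1 t) ξ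
  hσ : ∀ v ξ, (σ v).fn ξ = star (v.fn (-ξ))
  hσ' : ∀ y t ξ, (σ' y).fn (t, ξ) = star (y.fn (t, -ξ))

/-! ### Abstract Green operators -/

/-- Two-sided fundamental solution of `x (k+1) - A x k = δ`. -/
structure Green {X : Type} [NormedAddCommGroup X] [NormedSpace ℂ X] (A : X →L[ℂ] X)
    (a b C : ℝ) (G : ℤ → X →L[ℂ] X) : Prop where
  step : ∀ k, G (k + 1) - A * G k = if k = 0 then 1 else 0
  comm : ∀ k, A * G k = G k * A
  pos : ∀ n : ℕ, ‖G n‖ ≤ C * a ^ n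
  neg : ∀ n : ℕ, ‖G (-n)‖ ≤ C / b ^ n

/-! ### Energy method -/

/-- The solution of `Δ χ = φ` that vanishes at infinity. -/
def nw (φ : R3 → ℝ) (x : R3) : ℝ :=
  (ev (fun ξ => -(𝓕 (fun y => (φ y : ℂ)) ξ) / ((4 * Real.pi ^ 2 * ‖ξ‖ ^ 2 : ℝ) : ℂ)) x).re

/-- Smooth with compact support. -/
def Test (φ : R3 → ℝ) : Prop := ContDiff ℝ ∞ φ ∧ HasCompactSupport φ

/-- Smooth, and every derivative is bounded, square integrable and vanishes at infinity. -/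
structure Nice (h : R3 → ℝ) : Prop where
  smooth : ContDiff ℝ ∞ h
  bdd : ∀ n, ∃ C, ∀ x, ‖iteratedFDeriv ℝ n h x‖ ≤ C
  sq : ∀ n, Integrable fun x => ‖iteratedFDeriv ℝ n h x‖ ^ 2
  zero : ∀ n, Tendsto (iteratedFDeriv ℝ n h) (cocompact R3) (𝓝 0)

/-- The momentum flux. -/
def flux {ι : Type} [Fintype ι] (c : ι → ι → ι → ℝ) (v : ι → R3 → R3) (a : ι) (i j : Fin 3)
    (x : R3) : ℝ := ∑ b, ∑ d, c a b d * (v b x j * v d x i)

/-- Energy density. -/
def den {ι : Type} [Fintype ι] (w : ι → R3 → R3) (x : R3) : ℝ := ∑ a, ∑ i, w a x i ^ 2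

/-- Dissipation density. -/
def dis {ι : Type} [Fintype ι] (w : ι → R3 → R3) (x : R3) : ℝ :=
  ∑ a, ∑ i, ∑ j, pd j (fun y => w a y i) x ^ 2

/-- Two solutions on `[0, T]` with energy at most `E0`; the first is bounded by `M0` and its
gradient by `M1`. -/
structure Pair {ι : Type} [Fintype ι] (ν : ℝ) (c : ι → ι → ι → ℝ) (T E0 M0 M1 : ℝ)
    (u : ι → R3 → ℝ → R3) (p : ι → R3 → ℝ → ℝ) (v : ι → R3 → ℝ → R3) (q : ι → R3 → ℝ → ℝ) :
    Prop where
  hν : 0 < ν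
  hT : 0 < T
  hc : ∀ a b d, c a b d = c d b a
  hu : CSol ν c (fun a x => u a x 0) (Icc 0 T) u p
  hv : CSol ν c (fun a x => v a x 0) (Icc 0 T) v q
  iu : ∀ t ∈ Icc 0 T, Integrable (den fun a x => u a x t)
  iv : ∀ t ∈ Icc 0 T, Integrable (den fun a x => v a x t)
  eu : ∀ t ∈ Icc 0 T, ∫ x, den (fun a x => u a x t) x ≤ E0
  ev : ∀ t ∈ Icc 0 T, ∫ x, den (fun a x => v a x t) x ≤ E0
  b0 : ∀ t ∈ Icc 0 T, ∀ a x i, |u a x t i| ≤ M0
  b1 : ∀ t ∈ Icc 0 T, ∀ a x i j, |pd j (fun y => u a y t i) x| ≤ M1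

end

end Pool.Agent.Work.MP_6bf1e5_an.Ens
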