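import Pool.Agent.Work.MP_6bf1e5_an.Ens.Ev

/-!
Gaussians (`fourier_gaussian_innerProductSpace`) and their derivatives (`ev_coord`).
-/

open scoped ContDiff ENNReal FourierTransform Topology ComplexConjugate
open Set MeasureTheory Filter Polynomial Metric

namespace Pool.Agent.Work.MP_6bf1e5_an.Ens

noncomputable section

/-- The Fourier transform of `exp (-t |y|²)`. -/
def gauss (t : ℝ) (ξ : R3) : ℝ := (Real.pi / t) ^ (3 / 2 : ℝ) * Real.exp (-(Real.pi ^ 2 * ‖ξ‖ ^ 2 / t))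

theorem gauss_cont (t : ℝ) : Continuous (gauss t) := by
  unfold gauss
  fun_prop

theorem gauss_nonneg {t : ℝ} (ht : 0 < t) (ξ : R3) : 0 ≤ gauss t ξ := by
  unfold gauss
  positivity

theorem gauss_exp {b : ℝ} (hb : 0 < b) : Integrable fun ξ : R3 => Real.exp (-(b * ‖ξ‖ ^ 2)) := by
  have h := (GaussianFourier.integrable_cexp_neg_mul_sq_norm_add (V := R3) (b := b)
    (by simpa using hb) 0 0).norm
  refine h.congr (Eventually.of_forall fun ξ => ?_)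
  simp only [zero_mul, add_zero, Complex.norm_exp]
  congr 1
  norm_cast
  rw [neg_mul]

theorem integrable_gauss {t : ℝ} (ht : 0 < t) (n : ℕ) :
    Integrable fun ξ : R3 => ‖ξ‖ ^ n * gauss t ξ := by
  have hb : 0 < Real.pi ^ 2 / t := by positivity
  have h := (gauss_exp (half_pos hb)).const_mul
    (n.factorial * Real.exp (1 / (2 * (Real.pi ^ 2 / t))) * (Real.pi / t) ^ (3 / 2 : ℝ))
  refine h.mono' ((continuous_norm.pow n).mul (gauss_cont t)).aestronglyMeasurable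
    (Eventually.of_forall fun ξ => ?_)
  rw [Real.norm_of_nonneg (mul_nonneg (by positivity) (gauss_nonneg ht ξ)), gauss,
    mul_div_right_comm]
  generalize Real.pi ^ 2 / t = b at hb
  have h1 := Real.pow_div_factorial_le_exp _ (norm_nonneg ξ) n
  rw [div_le_iff₀ (by positivity)] at h1
  have h2 : ‖ξ‖ + -(b * ‖ξ‖ ^ 2) ≤ 1 / (2 * b) + -(b / 2 * ‖ξ‖ ^ 2) := by
    have h3 : 1 / (2 * b) + b / 2 * ‖ξ‖ ^ 2 - ‖ξ‖ = (b * ‖ξ‖ - 1) ^ 2 / (2 * b) := by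
      field_simp
      ring
    have h4 : 0 ≤ (b * ‖ξ‖ - 1) ^ 2 / (2 * b) := by positivity
    linarith
  have h3 := Real.exp_le_exp.2 h2
  rw [Real.exp_add, Real.exp_add] at h3
  have h4 : 0 ≤ (Real.pi / t) ^ (3 / 2 : ℝ) := by positivity
  generalize (Real.pi / t) ^ (3 / 2 : ℝ) = c at h4
  calc ‖ξ‖ ^ n * (c * Real.exp (-(b * ‖ξ‖ ^ 2)))
      ≤ Real.exp ‖ξ‖ * n.factorial * (c * Real.exp (-(b * ‖ξ‖ ^ 2))) := by gcongr
    _ = n.factorial * c * (Real.exp ‖ξ‖ * Real.exp (-(b * ‖ξ‖ ^ 2))) := by ring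
    _ ≤ n.factorial * c * (Real.exp (1 / (2 * b)) * Real.exp (-(b / 2 * ‖ξ‖ ^ 2))) := by gcongr
    _ = _ := by ring

theorem ev_gauss {t : ℝ} (ht : 0 < t) (y : R3) :
    ev (fun ξ => (gauss t ξ : ℂ)) y = (Real.exp (-(t * ‖y‖ ^ 2)) : ℝ) := by
  have hb : 0 < Real.pi ^ 2 / t := by positivity
  have e : (fun ξ : R3 => (gauss t ξ : ℂ)) = fun ξ => (((Real.pi / t) ^ (3 / 2 : ℝ) : ℝ) : ℂ) *
      Complex.exp (-((Real.pi ^ 2 / t : ℝ) : ℂ) * (‖ξ‖ : ℂ) ^ 2) := by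
    funext ξ
    rw [gauss, mul_div_right_comm]
    push_cast
    rw [neg_mul]
  rw [e, ev_const_mul, ev, Real.fourierInv_eq_fourier_neg,
    fourier_gaussian_innerProductSpace (by rwa [Complex.ofReal_re]), norm_neg]
  have e1 : (Real.pi : ℂ) / ((Real.pi ^ 2 / t : ℝ) : ℂ) = ((t / Real.pi : ℝ) : ℂ) := by
    rw [← Complex.ofReal_div]
    congr 1
    field_simp
  have e2 : ((Module.finrank ℝ R3 : ℕ) / 2 : ℂ) = ((3 / 2 : ℝ) : ℂ) := by simp
  have e3 : -(Real.pi : ℂ) ^ 2 * (‖y‖ : ℂ) ^ 2 / ((Real.pi ^ 2 / t : ℝ) : ℂ) =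
      ((-(t * ‖y‖ ^ 2) : ℝ) : ℂ) := by
    norm_cast
    field_simp
  rw [e1, e2, e3, ← Complex.ofReal_cpow (by positivity), ← Complex.ofReal_exp, ← mul_assoc,
    ← Complex.ofReal_mul, ← Real.mul_rpow (by positivity) (by positivity),
    show Real.pi / t * (t / Real.pi) = 1 by field_simp, Real.one_rpow, Complex.ofReal_one, one_mul]

/-- Continuous and bounded by a power times the Gaussian. -/
def gauss_B (t : ℝ) (f : R3 → ℂ) : Prop :=
  Continuous f ∧ ∃ (C : ℝ) (n : ℕ), ∀ ξ, ‖f ξ‖ ≤ C * (‖ξ‖ ^ n * gauss t ξ)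

theorem gauss_B.int {t : ℝ} (ht : 0 < t) {f : R3 → ℂ} (h : gauss_B t f) : Integrable f :=
  let ⟨h1, C, n, h2⟩ := h
  ((integrable_gauss ht n).const_mul C).mono' h1.aestronglyMeasurable (Eventually.of_forall h2)

theorem gauss_B.int' {t : ℝ} (ht : 0 < t) {f : R3 → ℂ} (h : gauss_B t f) :
    Integrable fun ξ => ‖ξ‖ * ‖f ξ‖ := by
  obtain ⟨h1, C, n, h2⟩ := h
  refine ((integrable_gauss ht (n + 1)).const_mul C).mono'
    (continuous_norm.mul h1.norm).aestronglyMeasurable (Eventually.of_forall fun ξ => ?_)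
  rw [Real.norm_of_nonneg (by positivity)]
  exact (mul_le_mul_of_nonneg_left (h2 ξ) (norm_nonneg ξ)).trans_eq (by ring)

theorem gauss_B.coord {t : ℝ} {f : R3 → ℂ} (h : gauss_B t f) (j : Fin 3) :
    gauss_B t fun ξ => 2 * Real.pi * Complex.I * (ξ j : ℂ) * f ξ := by
  obtain ⟨h1, C, n, h2⟩ := h
  refine ⟨by fun_prop, ‖2 * Real.pi * Complex.I‖ * C, n + 1, fun ξ => ?_⟩
  have h3 : ‖(ξ j : ℂ)‖ ≤ ‖ξ‖ := (Complex.norm_real _).trans_le (PiLp.norm_apply_le ξ j)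
  rw [norm_mul, norm_mul _ (ξ j : ℂ)]
  calc _ ≤ ‖2 * Real.pi * Complex.I‖ * ‖ξ‖ * (C * (‖ξ‖ ^ n * gauss t ξ)) := by
        gcongr
        exact h2 ξ
    _ = _ := by ring

theorem gauss_B0 {t : ℝ} (ht : 0 < t) : gauss_B t fun ξ => (gauss t ξ : ℂ) :=
  ⟨Complex.continuous_ofReal.comp (gauss_cont t), 1, 0, fun ξ => by
    rw [Complex.norm_real, Real.norm_of_nonneg (gauss_nonneg ht ξ), pow_zero, one_mul, one_mul]⟩

theorem gauss_pd (t : ℝ) {P : R3 → ℝ} {x : R3} {L : R3 →L[ℝ] ℝ} (h : HasFDerivAt P L x)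
    (j : Fin 3) : pd j (fun y => P y * Real.exp (-(t * ‖y‖ ^ 2))) x =
      (L (EuclideanSpace.single j 1) - 2 * t * x j * P x) * Real.exp (-(t * ‖x‖ ^ 2)) := by
  have h1 := h.fun_mul (((hasStrictFDerivAt_norm_sq x).hasFDerivAt.const_mul t).fun_neg.exp)
  rw [pd, h1.fderiv]
  simp [EuclideanSpace.inner_single_right]
  ring

theorem gauss_hc (i : Fin 3) (x : R3) :
    HasFDerivAt (fun y : R3 => y i) (EuclideanSpace.proj i : R3 →L[ℝ] ℝ) x :=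
  (EuclideanSpace.proj i : R3 →L[ℝ] ℝ).hasFDerivAt

theorem gauss_ev1 {t : ℝ} (ht : 0 < t) (i : Fin 3) (y : R3) :
    ev (fun ξ => 2 * Real.pi * Complex.I * (ξ i : ℂ) * (gauss t ξ : ℂ)) y =
      ((-(2 * t) * y i) * Real.exp (-(t * ‖y‖ ^ 2)) : ℝ) := by
  rw [ev_coord (u := fun y => 1 * Real.exp (-(t * ‖y‖ ^ 2))) ((gauss_B0 ht).int ht)
    ((gauss_B0 ht).int' ht) (fun y => by rw [ev_gauss ht, one_mul]),
    gauss_pd t (hasFDerivAt_const 1 y)]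
  simp

theorem gauss_ev2 {t : ℝ} (ht : 0 < t) (i j : Fin 3) (y : R3) :
    ev (fun ξ => 2 * Real.pi * Complex.I * (ξ j : ℂ) *
      (2 * Real.pi * Complex.I * (ξ i : ℂ) * (gauss t ξ : ℂ))) y =
      ((4 * t ^ 2 * y i * y j - if i = j then 2 * t else 0) * Real.exp (-(t * ‖y‖ ^ 2)) : ℝ) := by
  rw [ev_coord (((gauss_B0 ht).coord i).int ht) (((gauss_B0 ht).coord i).int' ht) (gauss_ev1 ht i),
    gauss_pd t ((gauss_hc i y).const_mul (-(2 * t)))]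
  congr 2
  by_cases h : i = j <;> simp [h] <;> ring

theorem ev_gauss2 {t : ℝ} (ht : 0 < t) (i j : Fin 3) (y : R3) :
    ev (fun ξ => (2 * Real.pi * Complex.I) ^ 2 * ((ξ i * ξ j * gauss t ξ : ℝ) : ℂ)) y =
      ((4 * t ^ 2 * y i * y j - if i = j then 2 * t else 0) * Real.exp (-(t * ‖y‖ ^ 2)) : ℝ) := by
  rw [← gauss_ev2 ht]
  congr 1
  funext ξ
  push_cast
  ring

theorem gauss_e3 (t : ℝ) (i j k : Fin 3) :
    (fun ξ : R3 => (2 * Real.pi * Complex.I) ^ 3 * ((ξ i * ξ j * ξ k * gauss t ξ : ℝ) : ℂ)) =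
      fun ξ => 2 * Real.pi * Complex.I * (ξ k : ℂ) * (2 * Real.pi * Complex.I * (ξ j : ℂ) *
        (2 * Real.pi * Complex.I * (ξ i : ℂ) * (gauss t ξ : ℂ))) := by
  funext ξ
  push_cast
  ring

theorem ev_gauss3 {t : ℝ} (ht : 0 < t) (i j k : Fin 3) (y : R3) :
    ev (fun ξ => (2 * Real.pi * Complex.I) ^ 3 * ((ξ i * ξ j * ξ k * gauss t ξ : ℝ) : ℂ)) y =
      ((4 * t ^ 2 * ((if i = j then y k else 0) + (if i = k then y j else 0)
        + if j = k then y i else 0) - 8 * t ^ 3 * y i * y j * y k)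
          * Real.exp (-(t * ‖y‖ ^ 2)) : ℝ) := by
  rw [gauss_e3, ev_coord ((((gauss_B0 ht).coord i).coord j).int ht)
    ((((gauss_B0 ht).coord i).coord j).int' ht) (gauss_ev2 ht i j),
    gauss_pd t ((((gauss_hc i y).const_mul (4 * t ^ 2)).fun_mul (gauss_hc j y)).sub_const _)]
  congr 2
  by_cases h : i = j <;> by_cases h' : i = k <;> by_cases h'' : j = k <;> simp_all <;> ring

/-- The cubic symbol `|ξ|² A ξ - (ξ·Aξ) ξ`. -/
def cub (A : Matrix (Fin 3) (Fin 3) ℝ) (ξ : R3) (i : Fin 3) : ℝ :=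
  ‖ξ‖ ^ 2 * ∑ j, A i j * ξ j - qf A ξ * ξ i

theorem ev_cub {A : Matrix (Fin 3) (Fin 3) ℝ} (hs : ∀ i j, A i j = A j i) (h0 : ∑ i, A i i = 0)
    {t : ℝ} (ht : 0 < t) (i : Fin 3) (y : R3) :
    ev (fun ξ => (2 * Real.pi * Complex.I) ^ 3 * ((cub A ξ i * gauss t ξ / (4 * t ^ 2) : ℝ) : ℂ)) y =
      (((3 - 2 * t * ‖y‖ ^ 2) * ∑ j, A i j * y j + 2 * t * qf A y * y i)
        * Real.exp (-(t * ‖y‖ ^ 2)) : ℝ) := by
  let g : Fin 3 → Fin 3 → Fin 3 → R3 → ℂ := fun i j k ξ =>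
    (2 * Real.pi * Complex.I) ^ 3 * ((ξ i * ξ j * ξ k * gauss t ξ : ℝ) : ℂ)
  have hg : ∀ i j k, Integrable (g i j k) := fun i j k => by
    have h := ((((gauss_B0 ht).coord i).coord j).coord k).int ht
    rwa [← gauss_e3] at h
  have e : (fun ξ => (2 * Real.pi * Complex.I) ^ 3 *
      ((cub A ξ i * gauss t ξ / (4 * t ^ 2) : ℝ) : ℂ)) = fun ξ => ∑ p : Fin 3 × Fin 3,
        (((A i p.1 / (4 * t ^ 2) : ℝ) : ℂ) * g p.2 p.2 p.1 ξ -
          ((A p.1 p.2 / (4 * t ^ 2) : ℝ) : ℂ) * g p.1 p.2 i ξ) := by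
    funext ξ
    simp only [g, cub, qf, EuclideanSpace.real_norm_sq_eq, Fintype.sum_prod_type, Fin.sum_univ_three]
    push_cast
    ring
  rw [e, ev_sum _ fun p _ => ((hg _ _ _).const_mul _).sub' ((hg _ _ _).const_mul _)]
  simp only [ev_sub ((hg _ _ _).const_mul _) ((hg _ _ _).const_mul _), ev_const_mul]
  simp only [g, ev_gauss3 ht, ← Complex.ofReal_mul, ← Complex.ofReal_sub, ← Complex.ofReal_sum]
  congr 1
  have h1 : A 2 2 = -A 0 0 - A 1 1 := by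
    rw [Fin.sum_univ_three] at h0
    linarith
  have h2 : ‖y‖ ^ 2 = y 0 ^ 2 + y 1 ^ 2 + y 2 ^ 2 := by
    rw [EuclideanSpace.real_norm_sq_eq, Fin.sum_univ_three]
  generalize Real.exp (-(t * ‖y‖ ^ 2)) = E
  rw [h2]
  fin_cases i <;>
    simp [qf, Fintype.sum_prod_type, Fin.sum_univ_three, h1, hs 1 0, hs 2 0, hs 2 1] <;>
    field_simp <;> ring

end

end Pool.Agent.Work.MP_6bf1e5_an.Ens
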