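import Pool.Agent.Work.MP_6bf1e5_an.Ens.Defs

/-!
The weights. For `exists_conv_wt`: `exp (-κ|η|) exp (-κ|ξ-η|) ≤ exp (-κ|ξ|)`; split into
`|η| ≤ |ξ|/2`, `|ξ-η| ≤ |ξ|/2` and the rest, where the product of the powers is at most half the sum
of `|η|^(-5)` and `|ξ-η|^(-5)`, each cut to norm `≥ |ξ|/2`; polar coordinates
(`integral_fun_norm_addHaar`, `integrable_fun_norm_addHaar`).
-/

open scoped ContDiff ENNReal FourierTransform Topology ComplexConjugate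
open Set MeasureTheory Filter Polynomial Metric

namespace Pool.Agent.Work.MP_6bf1e5_an.Ens

noncomputable section

theorem wt_nonneg (κ : ℝ) (ξ : R3) : 0 ≤ wt κ ξ := by
  unfold wt
  positivity

theorem wt_pos (κ : ℝ) {ξ : R3} (h : ξ ≠ 0) : 0 < wt κ ξ := by
  have := norm_pos_iff.2 h
  unfold wt
  positivity

theorem wt_zero (κ : ℝ) : wt κ 0 = 0 := by
  unfold wt
  rw [norm_zero, Real.zero_rpow (by norm_num), zero_mul]

theorem wt_neg (κ : ℝ) (ξ : R3) : wt κ (-ξ) = wt κ ξ := by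
  unfold wt
  rw [norm_neg]

theorem w2_nonneg (κ : ℝ) (ξ : R3) : 0 ≤ w2 κ ξ := by
  unfold w2
  positivity

theorem contDiffOn_wt (κ : ℝ) : ContDiffOn ℝ ∞ (wt κ) {0}ᶜ := by
  intro ξ hξ
  have h0 : ξ ≠ 0 := hξ
  have h1 : ContDiffAt ℝ ∞ (fun x : R3 => ‖x‖) ξ := contDiffAt_norm ℝ h0
  have h2 := h1.rpow_const_of_ne (p := -(5 / 2)) (norm_ne_zero_iff.2 h0)
  exact (h2.mul (contDiffAt_const.mul h1).neg.exp).contDiffWithinAt

theorem continuousOn_wt (κ : ℝ) : ContinuousOn (wt κ) {0}ᶜ := (contDiffOn_wt κ).continuousOn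

theorem measurable_wt (κ : ℝ) : Measurable (wt κ) := by
  unfold wt
  exact (measurable_norm.pow_const _).mul (measurable_norm.const_mul κ).neg.exp

theorem wt_anti {κ κ' : ℝ} (h : κ ≤ κ') (ξ : R3) : wt κ' ξ ≤ wt κ ξ := by
  unfold wt
  refine mul_le_mul_of_nonneg_left (Real.exp_le_exp.2 ?_) (by positivity)
  exact neg_le_neg (mul_le_mul_of_nonneg_right h (norm_nonneg _))

theorem wt_pow_le_exp {a : ℝ} (ha : 0 < a) (n : ℕ) :
    ∃ C, 0 ≤ C ∧ ∀ s : ℝ, 0 ≤ s → (1 + s) ^ n ≤ C * Real.exp (a * s) := by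
  obtain ⟨b, hb⟩ : ∃ b : ℝ, b = a / (n + 1) := ⟨_, rfl⟩
  have hb0 : 0 < b := by rw [hb]; positivity
  have hab : (n + 1) * b = a := by rw [hb]; field_simp
  refine ⟨(1 + b⁻¹) ^ n, by positivity, fun s hs => ?_⟩
  have h1 : 1 + s ≤ (1 + b⁻¹) * Real.exp (b * s) := by
    have a1 := Real.add_one_le_exp (b * s)
    have a2 : 0 ≤ b * s := by positivity
    have a3 : b⁻¹ * (b * s) = s := by field_simp
    have a4 : 0 < b⁻¹ := by positivity
    nlinarith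
  refine (pow_le_pow_left₀ (by positivity) h1 n).trans ?_
  rw [mul_pow, ← Real.exp_nat_mul]
  refine mul_le_mul_of_nonneg_left (Real.exp_le_exp.2 ?_) (by positivity)
  have a2 : 0 ≤ b * s := by positivity
  rw [← hab]
  nlinarith

/-- The radial majorant at scale `r`. -/
def wtH (r s : ℝ) : ℝ := s ^ (-(5 / 2) : ℝ) * (max s (r / 2)) ^ (-(5 / 2) : ℝ)

theorem wt_H_nonneg (r : ℝ) {s : ℝ} (hs : 0 ≤ s) : 0 ≤ wtH r s := by
  have : 0 ≤ max s (r / 2) := hs.trans (le_max_left _ _)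
  unfold wtH
  positivity

theorem wt_H_measurable (r : ℝ) : Measurable (wtH r) := by
  unfold wtH
  exact (measurable_id.pow_const _).mul ((measurable_id.max measurable_const).pow_const _)

theorem wt_H_integrable : Integrable fun η : R3 => wtH 1 ‖η‖ := by
  rw [integrable_fun_norm_addHaar (volume : Measure R3) (f := wtH 1)]
  have hd : Module.finrank ℝ R3 - 1 = 2 := by simp
  rw [hd, ← Ioc_union_Ioi_eq_Ioi (zero_le_one (α := ℝ))]
  have hm : Measurable fun y : ℝ => y ^ 2 • wtH 1 y :=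
    (measurable_id.pow_const 2).smul (wt_H_measurable 1)
  refine IntegrableOn.union ?_ ?_
  · have h1 : IntegrableOn (fun y : ℝ => y ^ (-(1 / 2) : ℝ)) (Ioc 0 1) :=
      (intervalIntegral.intervalIntegrable_rpow' (a := 0) (b := 1) (by norm_num)).1
    refine Integrable.mono' (h1.mul_const ((1 / 2 : ℝ) ^ (-(5 / 2) : ℝ))) hm.aestronglyMeasurable
      ((ae_restrict_iff' measurableSet_Ioc).2 (Eventually.of_forall fun y hy => ?_))
    have hy0 : 0 < y := hy.1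
    have := wt_H_nonneg 1 hy0.le
    rw [smul_eq_mul, Real.norm_eq_abs, abs_of_nonneg (by positivity), wtH, ← mul_assoc,
      ← Real.rpow_natCast, ← Real.rpow_add hy0]
    have e : ((2 : ℕ) : ℝ) + -(5 / 2) = -(1 / 2) := by norm_num
    rw [e]
    exact mul_le_mul_of_nonneg_left
      (Real.rpow_le_rpow_of_nonpos (by norm_num) (le_max_right _ _) (by norm_num)) (by positivity)
  · refine (integrableOn_Ioi_rpow_of_lt (a := -3) (by norm_num) one_pos).congr_fun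
      (fun y hy => ?_) measurableSet_Ioi
    have hy1 : 1 < y := hy
    have hy0 : 0 < y := by linarith
    simp only
    rw [smul_eq_mul, wtH, max_eq_left (by linarith), ← Real.rpow_add hy0, ← Real.rpow_natCast,
      ← Real.rpow_add hy0]
    norm_num

theorem integrable_wt {κ : ℝ} (h : 0 < κ) : Integrable (wt κ) := by
  obtain ⟨C, hC, hC'⟩ := wt_pow_le_exp h 3
  refine Integrable.mono' (wt_H_integrable.const_mul C) (measurable_wt κ).aestronglyMeasurable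
    (Eventually.of_forall fun ξ => ?_)
  rw [Real.norm_eq_abs, abs_of_nonneg (wt_nonneg κ ξ), wt, wtH, mul_left_comm]
  refine mul_le_mul_of_nonneg_left ?_ (by positivity)
  have hs := norm_nonneg ξ
  have hm : 0 < max ‖ξ‖ (1 / 2) := lt_max_of_lt_right (by norm_num)
  have h1 : max ‖ξ‖ (1 / 2) ≤ 1 + ‖ξ‖ := max_le (by linarith) (by linarith)
  have h2 : (max ‖ξ‖ (1 / 2)) ^ (5 / 2 : ℝ) ≤ (1 + ‖ξ‖) ^ 3 := by
    refine (Real.rpow_le_rpow hm.le h1 (by norm_num)).trans ?_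
    rw [← Real.rpow_natCast]
    exact Real.rpow_le_rpow_of_exponent_le (by linarith) (by norm_num)
  rw [Real.rpow_neg hm.le, Real.exp_neg, ← div_eq_mul_inv, inv_eq_one_div,
    div_le_div_iff₀ (Real.exp_pos _) (Real.rpow_pos_of_pos hm _), one_mul]
  exact h2.trans (hC' _ hs)

theorem pow_mul_wt_le {κ : ℝ} (h : 0 < κ) (n : ℕ) :
    ∃ C, 0 ≤ C ∧ ∀ ξ : R3, (1 + ‖ξ‖) ^ n * wt κ ξ ≤ C * wt (κ / 2) ξ := by
  obtain ⟨C, hC, hC'⟩ := wt_pow_le_exp (half_pos h) n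
  refine ⟨C, hC, fun ξ => ?_⟩
  refine (mul_le_mul_of_nonneg_right (hC' _ (norm_nonneg ξ)) (wt_nonneg κ ξ)).trans_eq ?_
  unfold wt
  have e : Real.exp (-(κ / 2 * ‖ξ‖)) = Real.exp (κ / 2 * ‖ξ‖) * Real.exp (-(κ * ‖ξ‖)) := by
    rw [← Real.exp_add]
    congr 1
    ring
  rw [e]
  ring

theorem wt_w2_eq (κ : ℝ) (ξ : R3) : w2 κ ξ = ‖ξ‖ ^ (1 / 2 : ℝ) * wt κ ξ := by
  unfold w2 wt
  rw [← mul_assoc, ← Real.rpow_add' (norm_nonneg ξ) (by norm_num)]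
  have e : (1 / 2 : ℝ) + -(5 / 2) = -((2 : ℕ) : ℝ) := by norm_num
  rw [e, Real.rpow_neg (norm_nonneg ξ), Real.rpow_natCast]

theorem w2_le_wt {κ : ℝ} (h : 0 < κ) : ∃ C, 0 ≤ C ∧ ∀ ξ : R3, w2 κ ξ ≤ C * wt (κ / 2) ξ := by
  obtain ⟨C, hC, hC'⟩ := pow_mul_wt_le h 1
  refine ⟨C, hC, fun ξ => le_trans ?_ (hC' ξ)⟩
  rw [wt_w2_eq, pow_one]
  refine mul_le_mul_of_nonneg_right ?_ (wt_nonneg κ ξ)
  have hs := norm_nonneg ξ
  refine (Real.rpow_le_rpow hs (show ‖ξ‖ ≤ 1 + ‖ξ‖ by linarith) (by norm_num)).trans ?_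
  exact Real.rpow_le_self_of_one_le (by linarith) (by norm_num)

theorem w2_eq (κ : ℝ) (ξ : R3) : w2 κ ξ = ‖ξ‖ ^ (1 / 2 : ℝ) * wt κ ξ := wt_w2_eq κ ξ

theorem wt_smul (κ : ℝ) {l : ℝ} (hl : 0 < l) (ξ : R3) :
    wt κ (l • ξ) = l ^ (-(5 / 2) : ℝ) * wt (κ * l) ξ := by
  unfold wt
  rw [norm_smul, Real.norm_eq_abs, abs_of_pos hl, Real.mul_rpow hl.le (norm_nonneg ξ),
    mul_assoc κ, mul_assoc]

theorem wt_le_of_le {κ r : ℝ} (hκ : 0 ≤ κ) (hr : 0 < r) {ξ : R3} (h : r ≤ ‖ξ‖) :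
    wt κ ξ ≤ r ^ (-(5 / 2) : ℝ) := by
  unfold wt
  have h1 : Real.exp (-(κ * ‖ξ‖)) ≤ 1 :=
    Real.exp_le_one_iff.2 (neg_nonpos.2 (mul_nonneg hκ (norm_nonneg ξ)))
  exact (mul_le_of_le_one_right (by positivity) h1).trans
    (Real.rpow_le_rpow_of_nonpos hr h (by norm_num))

theorem exists_small_ball {κ : ℝ} (h : 0 < κ) {ε : ℝ} (hε : 0 < ε) :
    ∃ r > 0, ∫ η in ball (0 : R3) r, wt κ η ≤ ε := by
  have h1 : Tendsto ((volume : Measure R3) ∘ fun r : ℝ => ball (0 : R3) r) (𝓝[>] 0) (𝓝 0) := by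
    have e : ((volume : Measure R3) ∘ fun r : ℝ => ball (0 : R3) r) =
        fun r : ℝ => ENNReal.ofReal r ^ 3 * ENNReal.ofReal (Real.pi * 4 / 3) := by
      ext r
      exact EuclideanSpace.volume_ball_fin_three 0 r
    rw [e]
    have h2 : Tendsto (fun r : ℝ => ENNReal.ofReal r ^ 3) (𝓝 0) (𝓝 (ENNReal.ofReal 0 ^ 3)) :=
      ((ENNReal.continuous_pow 3).comp ENNReal.continuous_ofReal).tendsto 0
    have h3 := ENNReal.Tendsto.mul_const (b := ENNReal.ofReal (Real.pi * 4 / 3)) h2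
      (Or.inr ENNReal.ofReal_ne_top)
    simp only [ENNReal.ofReal_zero, ne_eq, OfNat.ofNat_ne_zero, not_false_eq_true, zero_pow,
      zero_mul] at h3
    exact h3.mono_left nhdsWithin_le_nhds
  have h4 := ((integrable_wt h).tendsto_setIntegral_nhds_zero h1).eventually (Iic_mem_nhds hε)
  obtain ⟨r, hr, hr'⟩ := (h4.and self_mem_nhdsWithin).exists
  exact ⟨r, hr', hr⟩

theorem wt_H_scale {r : ℝ} (hr : 0 < r) (η : R3) :
    wtH r ‖η‖ = (r ^ 5)⁻¹ * wtH 1 ‖r⁻¹ • η‖ := by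
  have hs := norm_nonneg η
  have hi : 0 < r⁻¹ := inv_pos.2 hr
  have e1 : max (r⁻¹ * ‖η‖) (1 / 2) = r⁻¹ * max ‖η‖ (r / 2) := by
    rw [mul_max_of_nonneg _ _ hi.le]
    congr 1
    field_simp
  have e2 : r⁻¹ ^ (-(5 / 2) : ℝ) * r⁻¹ ^ (-(5 / 2) : ℝ) = r ^ 5 := by
    rw [← Real.rpow_add hi, Real.inv_rpow hr.le, ← Real.rpow_neg hr.le, ← Real.rpow_natCast]
    norm_num
  unfold wtH
  rw [norm_smul, Real.norm_eq_abs, abs_of_pos hi, e1, Real.mul_rpow hi.le hs,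
    Real.mul_rpow hi.le (hs.trans (le_max_left _ _)), mul_mul_mul_comm, e2, ← mul_assoc,
    inv_mul_cancel₀ (by positivity), one_mul]

theorem wt_H_prod {r a b : ℝ} (hr : 0 < r) (ha : 0 ≤ a) (hab : a ≤ b) (h : r ≤ a + b) :
    a ^ (-(5 / 2) : ℝ) * b ^ (-(5 / 2) : ℝ) ≤ wtH r a :=
  mul_le_mul_of_nonneg_left (Real.rpow_le_rpow_of_nonpos (lt_max_of_lt_right (half_pos hr))
    (max_le hab (by linarith)) (by norm_num)) (by positivity)

theorem wt_conv_le {κ : ℝ} (hκ : 0 ≤ κ) {ξ : R3} (h : ξ ≠ 0) (η : R3) :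
    wt κ η * wt κ (ξ - η) ≤ Real.exp (-(κ * ‖ξ‖)) * (wtH ‖ξ‖ ‖η‖ + wtH ‖ξ‖ ‖ξ - η‖) := by
  have hr := norm_pos_iff.2 h
  have ha := norm_nonneg η
  have hb := norm_nonneg (ξ - η)
  have ht : ‖ξ‖ ≤ ‖η‖ + ‖ξ - η‖ := by
    have := norm_add_le η (ξ - η)
    rwa [add_sub_cancel] at this
  have h1 : Real.exp (-(κ * ‖η‖)) * Real.exp (-(κ * ‖ξ - η‖)) ≤ Real.exp (-(κ * ‖ξ‖)) := by
    rw [← Real.exp_add]
    refine Real.exp_le_exp.2 ?_
    have := mul_le_mul_of_nonneg_left ht hκ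
    linarith
  have h2 : ‖η‖ ^ (-(5 / 2) : ℝ) * ‖ξ - η‖ ^ (-(5 / 2) : ℝ) ≤ wtH ‖ξ‖ ‖η‖ + wtH ‖ξ‖ ‖ξ - η‖ := by
    rcases le_total ‖η‖ ‖ξ - η‖ with h3 | h3
    · exact (wt_H_prod hr ha h3 ht).trans (le_add_of_nonneg_right (wt_H_nonneg _ hb))
    · rw [mul_comm]
      exact (wt_H_prod hr hb h3 (by linarith)).trans (le_add_of_nonneg_left (wt_H_nonneg _ ha))
  unfold wt
  rw [mul_mul_mul_comm, mul_comm]
  exact mul_le_mul h1 h2 (by positivity) (Real.exp_pos _).le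

theorem exists_conv_wt : ∃ K : ℝ, 0 ≤ K ∧ ∀ κ : ℝ, 0 ≤ κ → ∀ ξ : R3, ξ ≠ 0 →
    Integrable (fun η => wt κ η * wt κ (ξ - η)) ∧
      ∫ η, wt κ η * wt κ (ξ - η) ≤ K * w2 κ ξ := by
  obtain ⟨K, hK⟩ : ∃ K : ℝ, K = ∫ η : R3, wtH 1 ‖η‖ := ⟨_, rfl⟩
  have hK0 : 0 ≤ K := by
    rw [hK]
    exact integral_nonneg fun η => wt_H_nonneg 1 (norm_nonneg η)
  refine ⟨2 * K, by positivity, fun κ hκ ξ h => ?_⟩
  have hr := norm_pos_iff.2 h
  have i1 : Integrable fun η : R3 => wtH ‖ξ‖ ‖η‖ := by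
    simp only [wt_H_scale hr]
    exact (wt_H_integrable.comp_smul (inv_ne_zero hr.ne')).const_mul _
  have v1 : ∫ η : R3, wtH ‖ξ‖ ‖η‖ = (‖ξ‖ ^ 2)⁻¹ * K := by
    simp only [wt_H_scale hr]
    rw [integral_const_mul, Measure.integral_comp_inv_smul_of_nonneg volume
      (fun η : R3 => wtH 1 ‖η‖) hr.le, ← hK]
    have hd : Module.finrank ℝ R3 = 3 := by simp
    rw [hd, smul_eq_mul]
    field_simp
  have i2 : Integrable fun η : R3 => wtH ‖ξ‖ ‖ξ - η‖ := i1.comp_sub_left ξ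
  have v2 : ∫ η : R3, wtH ‖ξ‖ ‖ξ - η‖ = (‖ξ‖ ^ 2)⁻¹ * K := by
    rw [← v1]
    exact integral_sub_left_eq_self (fun η : R3 => wtH ‖ξ‖ ‖η‖) volume ξ
  have i3 := (i1.add i2).const_mul (Real.exp (-(κ * ‖ξ‖)))
  have i4 : Integrable fun η => wt κ η * wt κ (ξ - η) := by
    refine Integrable.mono' i3 ((measurable_wt κ).mul
      ((measurable_wt κ).comp (measurable_const.sub measurable_id))).aestronglyMeasurable
      (Eventually.of_forall fun η => ?_)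
    rw [Real.norm_eq_abs, abs_of_nonneg (mul_nonneg (wt_nonneg κ _) (wt_nonneg κ _))]
    exact wt_conv_le hκ h η
  refine ⟨i4, (integral_mono i4 i3 fun η => wt_conv_le hκ h η).trans_eq ?_⟩
  simp only [Pi.add_apply]
  rw [integral_const_mul, integral_add i1 i2, v1, v2, w2]
  ring

end

end Pool.Agent.Work.MP_6bf1e5_an.Ens
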