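import Pool.Agent.Work.MP_6bf1e5_an.Ens.CertA
import Pool.Agent.Work.MP_6bf1e5_an.Ens.CertB

/-!
The polynomial certificate.
-/

open Polynomial

namespace Pool.Agent.Work.MP_6bf1e5_an.Ens

noncomputable section

theorem certR_coeff (n e : ℕ) : 100 * (certR (X ^ n)).coeff e = certRc n e := by
  have h := congrArg (coeff · e) (certR_pow n)
  simp only [coeff_add, coeff_C_mul, coeff_X_pow, coeff_ofNat_mul] at h
  rw [h, certRc]
  split_ifs <;> first | omega | (push_cast; ring)

theorem certB_coeff (p q e : ℕ) : 100 * (certB (X ^ p) (X ^ q)).coeff e = certBc p q e := by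
  have h := congrArg (coeff · e) (certB_pow p q)
  simp only [coeff_add, coeff_C_mul, coeff_X_pow, coeff_ofNat_mul] at h
  rw [h, certBc]
  split_ifs <;> first | omega | (push_cast; ring)

theorem cert_coeff' (k : Fin 8) (e : ℕ) : ∑ l : Fin 8, certQ k l * certRc (l + 1) e
    + ∑ l : Fin 8, ∑ m : Fin 8, certG k l m * certBc (l + 1) (m + 1) e = 0 := by
  by_cases he : e < 20
  · exact cert_coeff k ⟨e, he⟩
  · have h1 : ∀ l : Fin 8, certRc (l + 1) e = 0 := fun l => by
      have := l.isLt
      unfold certRc
      split_ifs <;> omega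
    have h2 : ∀ l m : Fin 8, certBc (l + 1) (m + 1) e = 0 := fun l m => by
      have := l.isLt
      have := m.isLt
      unfold certBc
      split_ifs <;> omega
    simp only [h1, h2, mul_zero, Finset.sum_const_zero, add_zero]

theorem exists_cert : ∃ g γ, Cert (1 / 100) g γ := by
  have hpos : ∀ a : Fin 8, (0 : ℝ) < certE a a := fun a => by exact_mod_cast certE_pos a
  refine cert_of_gram (Matrix.of fun k l => (certQ k l : ℝ))
    (Matrix.of fun a k => (certM a k : ℝ) / √(certE a a)) (fun k l m => (certG k l m : ℝ))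
    (fun k l m => by rw [certG_sym1]) (fun k l m => by rw [certG_sym2]) ?_ fun k => ?_
  · ext a b
    have h : ((Matrix.of fun a k : Fin 8 => (certM a k : ℝ) / √(certE a a)) *
        (Matrix.of fun k l : Fin 8 => (certQ k l : ℝ)) *
        (Matrix.of fun a k : Fin 8 => (certM a k : ℝ) / √(certE a a)).transpose) a b
        = (certE a b : ℝ) / (√(certE a a) * √(certE b b)) := by
      simp only [Matrix.mul_apply, Matrix.transpose_apply, Matrix.of_apply]
      generalize √(certE a a : ℝ) = s
      generalize √(certE b b : ℝ) = t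
      rw [certE]
      push_cast
      simp only [Finset.sum_div, Finset.sum_mul]
      refine Finset.sum_congr rfl fun l _ => Finset.sum_congr rfl fun k _ => ?_
      ring
    rw [h, Matrix.one_apply]
    split_ifs with hab
    · subst hab
      rw [Real.mul_self_sqrt (hpos a).le, div_self (hpos a).ne']
    · rw [certE_off a b hab, Int.cast_zero, zero_div]
  · ext e
    have h : ((∑ l : Fin 8, certQ k l * certRc (l + 1) e
      + ∑ l : Fin 8, ∑ m : Fin 8, certG k l m * certBc (l + 1) (m + 1) e : ℤ) : ℝ) = 0 := by
      rw [cert_coeff', Int.cast_zero]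
    simp only [Int.cast_add, Int.cast_sum, Int.cast_mul, ← certR_coeff, ← certB_coeff] at h
    simp only [coeff_add, finsetSum_coeff, coeff_smul, smul_eq_mul, Matrix.of_apply, coeff_zero]
    refine mul_left_cancel₀ (by norm_num : (100 : ℝ) ≠ 0) ?_
    rw [mul_zero, ← h, mul_add]
    simp only [Finset.mul_sum, mul_left_comm (100 : ℝ)]

end

end Pool.Agent.Work.MP_6bf1e5_an.Ens
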