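import Pool.Agent.Work.MP_6bf1e5_an.Ens.Defs

/-!
Linear algebra behind the polynomial certificate: the residual operators, their values on
monomials, and the passage from a certificate with a positive definite Gram matrix to one with
the identity matrix.
-/

open Polynomial

namespace Pool.Agent.Work.MP_6bf1e5_an.Ens

noncomputable section

/-- The Euler operator. -/
def certD (p : ℝ[X]) : ℝ[X] := X * derivative p

theorem cert_dz (p : ℝ[X]) : dz p = -(X * certD p) := by simp only [dz, certD]; ring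
theorem cert_th (p : ℝ[X]) : th p = -((1 - X) * certD p) := by simp only [th, certD]; ring
theorem certD_add (p q : ℝ[X]) : certD (p + q) = certD p + certD q := by
  simp only [certD, derivative_add]; ring
theorem certD_sub (p q : ℝ[X]) : certD (p - q) = certD p - certD q := by
  simp only [certD, derivative_sub]; ring
theorem certD_neg (p : ℝ[X]) : certD (-p) = -certD p := by
  simp only [certD, derivative_neg]; ring
theorem certD_mul (p q : ℝ[X]) : certD (p * q) = certD p * q + p * certD q := by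
  simp only [certD, derivative_mul]; ring
theorem certD_X : certD X = X := by simp [certD]
theorem certD_C (a : ℝ) : certD (C a) = 0 := by simp [certD]
theorem certD_one : certD 1 = 0 := by simp [certD]
theorem certD_zero : certD 0 = 0 := by simp [certD]
theorem certD_ofNat (n : ℕ) [n.AtLeastTwo] : certD (ofNat(n)) = 0 := by simp [certD]
theorem certD_pow (n : ℕ) : certD (X ^ n) = C (n : ℝ) * X ^ n := by
  cases n with
  | zero => simp [certD]
  | succ n => simp only [certD, derivative_X_pow, Nat.add_sub_cancel]; ring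

/-- The linear residual. -/
def certR (g : ℝ[X]) : ℝ[X] := be (linP (1 / 100) g) - dz (al (linP (1 / 100) g))

/-- The bilinear residual. -/
def certB (g h : ℝ[X]) : ℝ[X] := bilB g h - dz (bilA g h)

theorem cert_dz_add (p q : ℝ[X]) : dz (p + q) = dz p + dz q := by
  simp only [cert_dz, certD_add]; ring
theorem cert_th_add (p q : ℝ[X]) : th (p + q) = th p + th q := by
  simp only [cert_th, certD_add]; ring
theorem cert_al_add (p q : ℝ[X]) : al (p + q) = al p + al q := by
  simp only [al, cert_th_add]; ring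
theorem cert_be_add (p q : ℝ[X]) : be (p + q) = be p + be q := by
  simp only [be, cert_dz_add]; ring
theorem cert_dz_C (a : ℝ) (p : ℝ[X]) : dz (C a * p) = C a * dz p := by
  simp only [cert_dz, certD_mul, certD_C]; ring
theorem cert_th_C (a : ℝ) (p : ℝ[X]) : th (C a * p) = C a * th p := by
  simp only [cert_th, certD_mul, certD_C]; ring
theorem cert_al_C (a : ℝ) (p : ℝ[X]) : al (C a * p) = C a * al p := by
  simp only [al, cert_th_C]; ring
theorem cert_be_C (a : ℝ) (p : ℝ[X]) : be (C a * p) = C a * be p := by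
  simp only [be, cert_dz_C]; ring
theorem cert_lin_add (ν : ℝ) (p q : ℝ[X]) : linP ν (p + q) = linP ν p + linP ν q := by
  simp only [linP, lap7, cert_dz_add, cert_th_add]; ring
theorem cert_lin_C (ν a : ℝ) (p : ℝ[X]) : linP ν (C a * p) = C a * linP ν p := by
  simp only [linP, lap7, cert_dz_C, cert_th_C]; ring
theorem cert_bilA_add1 (p q h : ℝ[X]) : bilA (p + q) h = bilA p h + bilA q h := by
  simp only [bilA, cert_th_add, cert_al_add]; ring
theorem cert_bilA_add2 (p q h : ℝ[X]) : bilA h (p + q) = bilA h p + bilA h q := by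
  simp only [bilA, cert_th_add, cert_al_add]; ring
theorem cert_bilA_C1 (a : ℝ) (p h : ℝ[X]) : bilA (C a * p) h = C a * bilA p h := by
  simp only [bilA, cert_th_C, cert_al_C]; ring
theorem cert_bilA_C2 (a : ℝ) (p h : ℝ[X]) : bilA h (C a * p) = C a * bilA h p := by
  simp only [bilA, cert_th_C, cert_al_C]; ring

/-- The linear residual as a linear map. -/
def certRL : ℝ[X] →ₗ[ℝ] ℝ[X] where
  toFun := certR
  map_add' p q := by
    simp only [certR, cert_lin_add, cert_be_add, cert_al_add, cert_dz_add]; ring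
  map_smul' a p := by
    simp only [certR, smul_eq_C_mul, cert_lin_C, cert_be_C, cert_al_C, cert_dz_C, RingHom.id_apply]
    ring

/-- The bilinear residual as a bilinear map. -/
def certBL : ℝ[X] →ₗ[ℝ] ℝ[X] →ₗ[ℝ] ℝ[X] :=
  LinearMap.mk₂ ℝ certB
    (fun p q h => by
      simp only [certB, bilB, cert_bilA_add1, cert_be_add, cert_al_add, cert_dz_add, cert_th_add]
      ring)
    (fun a p h => by
      simp only [certB, bilB, smul_eq_C_mul, cert_bilA_C1, cert_be_C, cert_al_C, cert_dz_C,
        cert_th_C]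
      ring)
    (fun h p q => by
      simp only [certB, bilB, cert_bilA_add2, cert_be_add, cert_al_add, cert_dz_add, cert_th_add]
      ring)
    (fun a h p => by
      simp only [certB, bilB, smul_eq_C_mul, cert_bilA_C2, cert_be_C, cert_al_C, cert_dz_C,
        cert_th_C]
      ring)

theorem cert_dz_pow (n : ℕ) : dz (X ^ n) = C (-n : ℝ) * X ^ (n + 1) := by
  simp only [cert_dz, certD_pow, C_neg]; ring

theorem cert_th_pow (n : ℕ) : th (X ^ n) = C (-n : ℝ) * X ^ n + C (n : ℝ) * X ^ (n + 1) := by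
  simp only [cert_th, certD_pow, C_neg]; ring

theorem cert_al_pow (n : ℕ) :
    al (X ^ n) = C (3 - 2 * n : ℝ) * X ^ n + C (2 * n : ℝ) * X ^ (n + 1) := by
  simp only [al, cert_th_pow]
  refine Polynomial.funext fun x => ?_
  simp only [eval_add, eval_mul, eval_pow, eval_X, eval_C, eval_ofNat]
  ring

theorem cert_be_pow (n : ℕ) : be (X ^ n) = C (2 * n : ℝ) * X ^ (n + 1) := by
  simp only [be, cert_dz_pow]
  refine Polynomial.funext fun x => ?_
  simp only [eval_neg, eval_mul, eval_pow, eval_X, eval_C, eval_ofNat]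
  ring

theorem cert_lin_pow (n : ℕ) : linP (1 / 100) (X ^ n) = C (1 - n : ℝ) * X ^ n
    + C (n - (4 * n * (n + 1) - 14 * n) / 100 : ℝ) * X ^ (n + 1)
    + C (4 * n * (n + 1) / 100 : ℝ) * X ^ (n + 2) := by
  simp only [linP, lap7, cert_dz_pow, cert_th_C, cert_th_pow]
  refine Polynomial.funext fun x => ?_
  simp only [eval_add, eval_sub, eval_mul, eval_pow, eval_X, eval_C, eval_ofNat]
  push_cast
  ring

theorem certR_pow (n : ℕ) : 100 * certR (X ^ n) =
    C (100 * (5 * n - 7 * n ^ 2 + 2 * n ^ 3) : ℝ) * X ^ (n + 1)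
    + C (530 * n + 98 * n ^ 2 - 424 * n ^ 3 + 8 * n ^ 4 : ℝ) * X ^ (n + 2)
    + C (448 * n + 640 * n ^ 2 + 176 * n ^ 3 - 16 * n ^ 4 : ℝ) * X ^ (n + 3)
    + C (48 * n + 88 * n ^ 2 + 48 * n ^ 3 + 8 * n ^ 4 : ℝ) * X ^ (n + 4) := by
  simp only [certR, cert_lin_pow, cert_be_add, cert_be_C, cert_be_pow, cert_al_add, cert_al_C,
    cert_al_pow, cert_dz_add, cert_dz_C, cert_dz_pow]
  refine Polynomial.funext fun x => ?_
  simp only [eval_add, eval_sub, eval_mul, eval_pow, eval_X, eval_C, eval_ofNat]
  push_cast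
  ring

theorem cert_bilA_pow (p q : ℕ) : bilA (X ^ p) (X ^ q) =
    C (-q * (3 - 2 * q) + ((3 - 2 * q) * p + (3 - 2 * p) * q) / 3
      + 7 / 12 * ((3 - 2 * q) * (3 - 2 * p)) : ℝ) * X ^ (p + q)
    + C (q * (3 - 2 * q) - 2 * q * (q + 1)
      - ((3 - 2 * q) * p - 2 * q * p + (3 - 2 * p) * q - 2 * p * q) / 3
      + 7 / 12 * ((3 - 2 * q) * (2 * p) + 2 * q * (3 - 2 * p)) : ℝ) * X ^ (p + q + 1)
    + C (2 * q * (q + 1) - (2 * q * p + 2 * p * q) / 3 + 7 / 12 * (2 * q * (2 * p)) : ℝ)
      * X ^ (p + q + 2) := by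
  simp only [bilA, cert_al_pow, cert_th_add, cert_th_C, cert_th_pow]
  refine Polynomial.funext fun x => ?_
  simp only [eval_add, eval_sub, eval_mul, eval_pow, eval_X, eval_C]
  push_cast
  ring

theorem certB_pow (p q : ℕ) : 100 * certB (X ^ p) (X ^ q) =
    C (25 * (25 * q - 30 * q ^ 2 + 25 * p - 40 * p * q + 12 * p * q ^ 2 - 10 * p ^ 2
      + 4 * p ^ 2 * q + 8 * q ^ 3) : ℝ) * X ^ (p + q + 1)
    + C (25 * (6 * q ^ 2 + 22 * q + 24 * p * q - 24 * p * q ^ 2 + 10 * p ^ 2 - 8 * p ^ 2 * q
      - 16 * q ^ 3 + 10 * p) : ℝ) * X ^ (p + q + 2)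
    + C (100 * (3 * p * q ^ 2 + 4 * p * q + p ^ 2 * q + 2 * q ^ 3 + 6 * q ^ 2 + 4 * q) : ℝ)
      * X ^ (p + q + 3) := by
  simp only [certB, bilB, cert_bilA_pow, cert_al_pow, cert_be_pow, cert_th_C, cert_th_pow,
    cert_dz_add, cert_dz_C, cert_dz_pow]
  refine Polynomial.funext fun x => ?_
  simp only [eval_add, eval_sub, eval_mul, eval_pow, eval_X, eval_C, eval_ofNat]
  push_cast
  ring

theorem cert_dz_sum {κ : Type} (s : Finset κ) (f : κ → ℝ[X]) :
    dz (∑ i ∈ s, f i) = ∑ i ∈ s, dz (f i) := by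
  simp only [dz, derivative_sum, Finset.mul_sum, Finset.sum_neg_distrib]

/-- Orthonormalisation of a certificate. -/
theorem cert_of_gram (Q S : Matrix (Fin 8) (Fin 8) ℝ) (γ : Fin 8 → Fin 8 → Fin 8 → ℝ)
    (h1 : ∀ k l m, γ k l m = γ l k m) (h2 : ∀ k l m, γ k l m = γ k m l)
    (hS : S * Q * S.transpose = 1)
    (h : ∀ k, ∑ l, Q k l • certR (X ^ (l.val + 1))
      + ∑ l, ∑ m, γ k l m • certB (X ^ (l.val + 1)) (X ^ (m.val + 1)) = 0) :
    ∃ g γ, Cert (1 / 100) g γ := by
  set e : Fin 8 → ℝ[X] := fun l => X ^ (l.val + 1) with he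
  set g : Fin 8 → ℝ[X] := fun a => ∑ l, (S * Q) a l • e l with hg
  have hT : S.transpose * (S * Q) = 1 := mul_eq_one_comm.mp hS
  have heg : ∀ l, e l = ∑ b, S b l • g b := by
    intro l
    simp only [hg, Finset.smul_sum, smul_smul]
    rw [Finset.sum_comm]
    have : ∀ m, ∑ b, (S b l * (S * Q) b m) • e m = (if l = m then (1 : ℝ) else 0) • e m := by
      intro m
      rw [← Finset.sum_smul, ← Matrix.one_apply, ← hT, Matrix.mul_apply]
      rfl
    simp [this]
  refine ⟨g, fun a b c => ∑ k, ∑ l, ∑ m, S a k * S b l * S c m * γ k l m, ?_, ?_, ?_, ?_, ?_⟩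
  · intro a b c
    rw [Finset.sum_comm]
    refine Finset.sum_congr rfl fun k _ => Finset.sum_congr rfl fun l _ =>
      Finset.sum_congr rfl fun m _ => ?_
    rw [h1 l k m]; ring
  · intro a b c
    refine Finset.sum_congr rfl fun k _ => ?_
    rw [Finset.sum_comm]
    refine Finset.sum_congr rfl fun l _ => Finset.sum_congr rfl fun m _ => ?_
    rw [h2 k m l]; ring
  · intro a
    simp [hg, he]
  · intro a
    have key : certRL (g a) + ∑ b, ∑ c,
        (∑ k, ∑ l, ∑ m, S a k * S b l * S c m * γ k l m) • certBL (g b) (g c) = 0 := by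
      have h3 : ∑ k, S a k • (∑ l, Q k l • certRL (e l)
          + ∑ l, ∑ m, γ k l m • certBL (e l) (e m)) = 0 :=
        Finset.sum_eq_zero fun k _ => by
          have : ∑ l, Q k l • certRL (e l) + ∑ l, ∑ m, γ k l m • certBL (e l) (e m) = 0 := h k
          rw [this, smul_zero]
      rw [← h3]
      simp only [smul_add, Finset.sum_add_distrib]
      refine congrArg₂ (· + ·) ?_ ?_
      · simp only [hg, map_sum, map_smul, Finset.smul_sum, smul_smul, Matrix.mul_apply,
          Finset.sum_smul]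
        rw [Finset.sum_comm]
      · have h4 : ∀ l m, certBL (e l) (e m) = ∑ b, ∑ c, (S b l * S c m) • certBL (g b) (g c) := by
          intro l m
          rw [heg l, heg m]
          simp only [map_sum, map_smul, LinearMap.sum_apply, LinearMap.smul_apply,
            Finset.smul_sum, smul_smul]
          rw [Finset.sum_comm]
          refine Finset.sum_congr rfl fun b _ => Finset.sum_congr rfl fun c _ => ?_
          rw [mul_comm]
        simp only [h4, Finset.smul_sum, smul_smul, Finset.sum_smul]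
        have sw : ∀ F : Fin 8 → Fin 8 → Fin 8 → Fin 8 → Fin 8 → ℝ[X],
            ∑ b, ∑ c, ∑ k, ∑ l, ∑ m, F b c k l m = ∑ k, ∑ l, ∑ m, ∑ b, ∑ c, F b c k l m := by
          intro F
          have := Finset.sum_comm (s := Finset.univ) (t := Finset.univ)
            (f := fun (x : Fin 8 × Fin 8) (y : Fin 8 × Fin 8 × Fin 8) => F x.1 x.2 y.1 y.2.1 y.2.2)
          simpa only [Fintype.sum_prod_type] using this
        rw [sw]
        refine Finset.sum_congr rfl fun k _ => Finset.sum_congr rfl fun l _ =>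
          Finset.sum_congr rfl fun m _ => Finset.sum_congr rfl fun b _ =>
          Finset.sum_congr rfl fun c _ => ?_
        exact congrArg (· • certBL (g b) (g c)) (by ring)
    have k2 : ∀ b c, certBL (g b) (g c) = bilB (g b) (g c) - dz (bilA (g b) (g c)) :=
      fun _ _ => rfl
    have k1 : certRL (g a) = be (linP (1 / 100) (g a)) - dz (al (linP (1 / 100) (g a))) := rfl
    simp only [k1, k2, smul_eq_C_mul, mul_sub, Finset.sum_sub_distrib] at key
    simp only [cert_dz_add, cert_dz_sum, cert_dz_C]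
    linear_combination key
  · by_contra hne
    push Not at hne
    have := congrArg (eval 1) (heg 0)
    simp [he, eval_finsetSum, hne] at this

end

end Pool.Agent.Work.MP_6bf1e5_an.Ens
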