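import Pool.Agent.Work.MP_6bf1e5_an.Ens.Basic

/-!
Cut-off functions. For `exists_cut` take `h ((|x|² - r²) / (r d))` with `h = 1 - Real.smoothTransition`; on the
support of the gradient `|x| ≤ 2 r`. For `exists_cut_seq` take `θ n x = θ ((n+1)⁻¹ • x)` with a fixed bump `θ`
and use `norm_iteratedFDeriv_mul_le`.
-/

open scoped ContDiff ENNReal FourierTransform Topology ComplexConjugate
open Set MeasureTheory Filter Polynomial Metric

namespace Pool.Agent.Work.MP_6bf1e5_an.Ens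

noncomputable section

theorem cut_deriv_bound : ∃ L : ℝ, 0 ≤ L ∧ ∀ t, |deriv Real.smoothTransition t| ≤ L := by
  have hc : Continuous (deriv Real.smoothTransition) :=
    (Real.smoothTransition.contDiff (n := 1)).continuous_deriv le_rfl
  have hs : HasCompactSupport (deriv Real.smoothTransition) := by
    refine HasCompactSupport.intro (isCompact_Icc (a := (0 : ℝ)) (b := 1)) fun t ht => ?_
    rcases lt_or_ge t 0 with h | h
    · have : Real.smoothTransition =ᶠ[𝓝 t] fun _ => 0 := by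
        filter_upwards [Iio_mem_nhds h] with s hs
        exact Real.smoothTransition.zero_of_nonpos (le_of_lt hs)
      rw [this.deriv_eq, deriv_const]
    · have h1 : 1 < t := by
        by_contra h2
        exact ht ⟨h, not_lt.1 h2⟩
      have : Real.smoothTransition =ᶠ[𝓝 t] fun _ => 1 := by
        filter_upwards [Ioi_mem_nhds h1] with s hs
        exact Real.smoothTransition.one_of_one_le (le_of_lt hs)
      rw [this.deriv_eq, deriv_const]
  obtain ⟨L, hL⟩ := hc.bounded_above_of_compact_support hs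
  exact ⟨L, (norm_nonneg _).trans (hL 0), hL⟩

theorem exists_cut : ∃ K : ℝ, 0 ≤ K ∧ ∀ r d : ℝ, 0 < d → d ≤ r → ∃ ψ : R3 → ℝ, Test ψ ∧
    (∀ x, 0 ≤ ψ x ∧ ψ x ≤ 1) ∧ (∀ x, ‖x‖ ≤ r → ψ x = 1) ∧ (∀ x, r + d ≤ ‖x‖ → ψ x = 0) ∧
      ∀ x, ‖fderiv ℝ ψ x‖ ≤ K / d := by
  obtain ⟨L, hL0, hL⟩ := cut_deriv_bound
  refine ⟨4 * L, by positivity, fun r d hd hdr => ?_⟩
  have hr : 0 < r := hd.trans_le hdr
  have hrd : 0 < r * d := mul_pos hr hd
  have hz : ∀ x : R3, r + d ≤ ‖x‖ →
      Real.smoothTransition (1 - (r * d)⁻¹ * (‖x‖ ^ 2 - r ^ 2)) = 0 := by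
    intro x hx
    refine Real.smoothTransition.zero_of_nonpos ?_
    have h1 : (r + d) ^ 2 ≤ ‖x‖ ^ 2 := pow_le_pow_left₀ (by positivity) hx 2
    have h2 : r * d ≤ ‖x‖ ^ 2 - r ^ 2 := by nlinarith
    have h3 : 1 ≤ (r * d)⁻¹ * (‖x‖ ^ 2 - r ^ 2) := by
      rw [← div_eq_inv_mul, le_div_iff₀ hrd]
      linarith
    linarith
  refine ⟨fun x => Real.smoothTransition (1 - (r * d)⁻¹ * (‖x‖ ^ 2 - r ^ 2)), ⟨?_, ?_⟩,
    fun x => ⟨Real.smoothTransition.nonneg _, Real.smoothTransition.le_one _⟩, fun x hx => ?_,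
    hz, fun x => ?_⟩
  · exact (Real.smoothTransition.contDiff (n := ⊤)).comp
      (contDiff_const.sub (contDiff_const.mul ((contDiff_norm_sq ℝ).sub contDiff_const)))
  · refine HasCompactSupport.intro (isCompact_closedBall (0 : R3) (r + d)) fun x hx => hz x ?_
    rw [mem_closedBall_zero_iff, not_le] at hx
    exact hx.le
  · refine Real.smoothTransition.one_of_one_le ?_
    have h1 : ‖x‖ ^ 2 ≤ r ^ 2 := pow_le_pow_left₀ (norm_nonneg x) hx 2
    have h2 : (r * d)⁻¹ * (‖x‖ ^ 2 - r ^ 2) ≤ 0 :=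
      mul_nonpos_of_nonneg_of_nonpos (inv_nonneg.2 hrd.le) (by linarith)
    linarith
  · rcases le_or_gt ‖x‖ (2 * r) with hx | hx
    · have h1 : HasFDerivAt (fun x : R3 => 1 - (r * d)⁻¹ * (‖x‖ ^ 2 - r ^ 2))
          (-((r * d)⁻¹ • (2 • innerSL ℝ x))) x :=
        (((hasStrictFDerivAt_norm_sq x).hasFDerivAt.sub_const (r ^ 2)).const_mul _).const_sub 1
      have h2 : HasDerivAt Real.smoothTransition
          (deriv Real.smoothTransition (1 - (r * d)⁻¹ * (‖x‖ ^ 2 - r ^ 2)))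
          (1 - (r * d)⁻¹ * (‖x‖ ^ 2 - r ^ 2)) :=
        (((Real.smoothTransition.contDiff (n := 1)).differentiable one_ne_zero) _).hasDerivAt
      have h3 := (h2.comp_hasFDerivAt x h1).fderiv
      have h4 : fderiv ℝ (fun x : R3 => Real.smoothTransition
          (1 - (r * d)⁻¹ * (‖x‖ ^ 2 - r ^ 2))) x = _ := h3
      rw [h4, norm_smul, norm_neg, norm_smul, two_nsmul, Real.norm_eq_abs, Real.norm_eq_abs,
        abs_of_pos (inv_pos.2 hrd)]
      have h5 : ‖innerSL ℝ x + innerSL ℝ x‖ ≤ 4 * r := by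
        refine (norm_add_le _ _).trans ?_
        rw [innerSL_apply_norm]
        linarith
      calc _ ≤ L * ((r * d)⁻¹ * (4 * r)) :=
            mul_le_mul (hL _) (mul_le_mul_of_nonneg_left h5 (inv_pos.2 hrd).le) (by positivity) hL0
        _ = 4 * L / d := by field_simp
    · have h1 : (fun x : R3 => Real.smoothTransition (1 - (r * d)⁻¹ * (‖x‖ ^ 2 - r ^ 2)))
          =ᶠ[𝓝 x] fun _ => 0 := by
        filter_upwards [(isOpen_lt continuous_const continuous_norm).mem_nhds hx] with y hy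
        refine hz y ?_
        have hy' : 2 * r < ‖y‖ := hy
        linarith
      rw [h1.fderiv_eq, fderiv_fun_const]
      simp only [Pi.zero_apply, norm_zero]
      positivity

theorem cut_key : ∃ θ : ℕ → R3 → ℝ, (∀ n, Test (θ n)) ∧
    (∀ k, ∃ C : ℝ, 0 ≤ C ∧ ∀ n x, ‖iteratedFDeriv ℝ k (fun y => 1 - θ n y) x‖ ≤ C) ∧
    ∀ (n : ℕ) (x : R3), ‖x‖ ≤ n → θ n x = 1 := by
  obtain ⟨K, -, hK⟩ := exists_cut
  obtain ⟨ψ, hψ, -, h1, h0, -⟩ := hK 1 1 one_pos le_rfl
  have hpos : ∀ n : ℕ, (0 : ℝ) < n + 1 := fun n => by positivity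
  refine ⟨fun n x => ψ (((n : ℝ) + 1)⁻¹ • x), fun n => ⟨?_, ?_⟩, fun k => ?_, fun n x hx => ?_⟩
  · exact hψ.1.comp (contDiff_id.const_smul _)
  · refine HasCompactSupport.intro (isCompact_closedBall (0 : R3) (2 * (n + 1))) fun x hx => ?_
    rw [mem_closedBall_zero_iff, not_le] at hx
    refine h0 _ ?_
    rw [norm_smul, Real.norm_eq_abs, abs_of_pos (inv_pos.2 (hpos n)), ← div_eq_inv_mul,
      le_div_iff₀ (hpos n)]
    linarith
  · have hψk : ContDiff ℝ k ψ := hψ.1.of_le (mod_cast le_top)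
    obtain ⟨C, hC⟩ := hψk.continuous_iteratedFDeriv'.bounded_above_of_compact_support
      (hψ.2.iteratedFDeriv k)
    have hC0 : 0 ≤ C := (norm_nonneg _).trans (hC 0)
    have hη : ∀ x, ‖iteratedFDeriv ℝ k (fun y => 1 - ψ y) x‖ ≤ 1 + C := by
      intro x
      rw [fun_iteratedFDeriv_sub_apply contDiffAt_const hψk.contDiffAt]
      refine (norm_sub_le _ _).trans (add_le_add ?_ (hC x))
      rcases eq_or_ne k 0 with rfl | hk
      · simp
      · rw [iteratedFDeriv_const_of_ne hk]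
        simp
    refine ⟨1 + C, by positivity, fun n x => ?_⟩
    have h2 := iteratedFDeriv_comp_const_smul (𝕜 := ℝ) (f := fun y => 1 - ψ y) (i := k)
      ((n : ℝ) + 1)⁻¹ (contDiff_const.sub hψk)
    rw [h2, norm_smul, norm_pow, Real.norm_eq_abs, abs_of_pos (inv_pos.2 (hpos n))]
    have h3 : ((n : ℝ) + 1)⁻¹ ^ k ≤ 1 :=
      pow_le_one₀ (inv_pos.2 (hpos n)).le (inv_le_one_of_one_le₀ (by linarith [n.cast_nonneg (α := ℝ)]))
    calc _ ≤ 1 * (1 + C) := mul_le_mul h3 (hη _) (norm_nonneg _) zero_le_one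
      _ = 1 + C := one_mul _
  · refine h1 _ ?_
    rw [norm_smul, Real.norm_eq_abs, abs_of_pos (inv_pos.2 (hpos n)), ← div_eq_inv_mul,
      div_le_one (hpos n)]
    linarith

theorem exists_cut_seq : ∃ θ : ℕ → R3 → ℝ, (∀ n, Test (θ n)) ∧ ∀ h, Nice h → ∀ m : ℕ,
    Tendsto (fun n => ∫ x, ‖iteratedFDeriv ℝ m (fun y => (1 - θ n y) * h y) x‖ ^ 2) atTop (𝓝 0) ∧
    (∀ n, Integrable fun x => ‖iteratedFDeriv ℝ m (fun y => (1 - θ n y) * h y) x‖ ^ 2) ∧
    ∀ ε > 0, ∀ᶠ n in atTop, ∀ x, ‖iteratedFDeriv ℝ m (fun y => (1 - θ n y) * h y) x‖ ≤ ε := by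
  obtain ⟨θ, hθ, hC, h1⟩ := cut_key
  choose C hC0 hC using hC
  refine ⟨θ, hθ, fun h hh m => ?_⟩
  have hη : ∀ n, ContDiff ℝ ∞ fun y => 1 - θ n y := fun n => contDiff_const.sub (hθ n).1
  have hcont : ∀ n, Continuous (iteratedFDeriv ℝ m fun y => (1 - θ n y) * h y) := fun n =>
    ((hη n).mul hh.smooth).continuous_iteratedFDeriv (mod_cast le_top)
  set G : R3 → ℝ := fun x => ∑ i ∈ Finset.range (m + 1),
    (m.choose i : ℝ) * C i * ‖iteratedFDeriv ℝ (m - i) h x‖ with hG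
  have hle : ∀ n x, ‖iteratedFDeriv ℝ m (fun y => (1 - θ n y) * h y) x‖ ≤ G x := by
    intro n x
    refine (norm_iteratedFDeriv_mul_le (hη n) hh.smooth x (mod_cast le_top)).trans ?_
    refine Finset.sum_le_sum fun i _ => ?_
    exact mul_le_mul_of_nonneg_right
      (mul_le_mul_of_nonneg_left (hC i n x) (Nat.cast_nonneg _)) (norm_nonneg _)
  have hzero : ∀ (n : ℕ) (x : R3), ‖x‖ < n →
      iteratedFDeriv ℝ m (fun y => (1 - θ n y) * h y) x = 0 := by
    intro n x hx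
    have h2 : (fun y => (1 - θ n y) * h y) =ᶠ[𝓝 x] fun _ => 0 := by
      filter_upwards [(isOpen_lt continuous_norm continuous_const).mem_nhds hx] with y hy
      have hy' : ‖y‖ < n := hy
      rw [h1 n y hy'.le, sub_self, zero_mul]
    rw [(h2.iteratedFDeriv ℝ m).eq_of_nhds, iteratedFDeriv_fun_zero]
    rfl
  have hG2 : MemLp G 2 := by
    refine memLp_finsetSum _ fun i _ => MemLp.const_mul ?_ _
    have hc : Continuous (iteratedFDeriv ℝ (m - i) h) :=
      hh.smooth.continuous_iteratedFDeriv (WithTop.coe_le_coe.2 le_top)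
    exact ((memLp_two_iff_integrable_sq_norm hc.aestronglyMeasurable).2 (hh.sq _)).norm
  have hGi : Integrable fun x => G x ^ 2 := hG2.integrable_sq
  have hb : ∀ n x, ‖‖iteratedFDeriv ℝ m (fun y => (1 - θ n y) * h y) x‖ ^ 2‖ ≤ G x ^ 2 := by
    intro n x
    rw [Real.norm_eq_abs, abs_of_nonneg (by positivity)]
    exact pow_le_pow_left₀ (norm_nonneg _) (hle n x) 2
  have hm : ∀ n, AEStronglyMeasurable
      (fun x => ‖iteratedFDeriv ℝ m (fun y => (1 - θ n y) * h y) x‖ ^ 2) volume := fun n =>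
    ((hcont n).norm.pow 2).aestronglyMeasurable
  refine ⟨?_, fun n => hGi.mono' (hm n) (Eventually.of_forall (hb n)), fun ε hε => ?_⟩
  · have h3 := tendsto_integral_of_dominated_convergence (μ := volume) (f := fun _ : R3 => (0 : ℝ))
      (fun x => G x ^ 2) hm hGi (fun n => Eventually.of_forall (hb n))
      (Eventually.of_forall fun x => by
        refine tendsto_const_nhds.congr' ?_
        filter_upwards [tendsto_natCast_atTop_atTop.eventually_gt_atTop ‖x‖] with n hn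
        rw [hzero n x hn, norm_zero]
        norm_num)
    simpa using h3
  · have hG0 : Tendsto G (cocompact R3) (𝓝 0) := by
      have h4 := tendsto_finsetSum (Finset.range (m + 1)) fun i _ =>
        ((hh.zero (m - i)).norm.const_mul ((m.choose i : ℝ) * C i))
      simpa using h4
    obtain ⟨K, hK, hKε⟩ := mem_cocompact.1 (hG0.eventually (gt_mem_nhds hε))
    obtain ⟨R, hR⟩ := hK.isBounded.exists_norm_le
    filter_upwards [tendsto_natCast_atTop_atTop.eventually_gt_atTop R] with n hn x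
    by_cases hx : x ∈ K
    · rw [hzero n x ((hR x hx).trans_lt hn), norm_zero]
      exact hε.le
    · exact (hle n x).trans (le_of_lt (hKε hx))

end

end Pool.Agent.Work.MP_6bf1e5_an.Ens
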