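import Pool.Agent.Work.MP_6bf1e5_an.Ens.Defs

/-!
Every totally symmetric tensor is, up to a positive factor, the tensor of third moments of an orthonormal family of
mean zero on a finite uniform probability space. Points: `s (η1 c_abd e_a + η2 e_b + η3 e_d)` for all `a, b, d` and the
four sign patterns with `η1 η2 η3 = 1`, the points `± r_a e_a`, and the origin. The first family has sum `0`, diagonal
second moments and third moments `24 s³ c` in total; choose `s > 0` small and `2 r_a² = N - s² σ_a`.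
-/

open scoped ContDiff ENNReal FourierTransform Topology ComplexConjugate
open Set MeasureTheory Filter Polynomial Metric

namespace Pool.Agent.Work.MP_6bf1e5_an.Ens

noncomputable section

/-- The four sign patterns with product one. -/
def ensembleSg : Fin 4 → Fin 3 → ℝ := ![![1, 1, 1], ![1, -1, -1], ![-1, 1, -1], ![-1, -1, 1]]

/-- The unscaled points of the first family. -/
def ensembleW {ι : Type} [DecidableEq ι] (c : ι → ι → ι → ℝ) (o : (ι × ι × ι) × Fin 4) (x : ι) : ℝ :=
  ensembleSg o.2 0 * (if o.1.1 = x then c o.1.1 o.1.2.1 o.1.2.2 else 0)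
    + ensembleSg o.2 1 * (if o.1.2.1 = x then 1 else 0)
    + ensembleSg o.2 2 * (if o.1.2.2 = x then 1 else 0)

theorem ensemble_sg1 (A B D : ℝ) :
    ∑ k : Fin 4, (ensembleSg k 0 * A + ensembleSg k 1 * B + ensembleSg k 2 * D) = 0 := by
  simp [Fin.sum_univ_four, ensembleSg]
  ring

theorem ensemble_sg2 (A B D A' B' D' : ℝ) :
    ∑ k : Fin 4, (ensembleSg k 0 * A + ensembleSg k 1 * B + ensembleSg k 2 * D)
      * (ensembleSg k 0 * A' + ensembleSg k 1 * B' + ensembleSg k 2 * D')
      = 4 * (A * A' + B * B' + D * D') := by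
  simp [Fin.sum_univ_four, ensembleSg]
  ring

theorem ensemble_sg3 (A B D A' B' D' A'' B'' D'' : ℝ) :
    ∑ k : Fin 4, (ensembleSg k 0 * A + ensembleSg k 1 * B + ensembleSg k 2 * D)
      * (ensembleSg k 0 * A' + ensembleSg k 1 * B' + ensembleSg k 2 * D')
      * (ensembleSg k 0 * A'' + ensembleSg k 1 * B'' + ensembleSg k 2 * D'')
      = 4 * (A * B' * D'' + A * D' * B'' + B * A' * D'' + B * D' * A'' + D * A' * B''
        + D * B' * A'') := by
  simp [Fin.sum_univ_four, ensembleSg]
  ring

section First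

variable {ι : Type} [Fintype ι] [DecidableEq ι] (c : ι → ι → ι → ℝ)

theorem ensemble_w1 (x : ι) : ∑ o, ensembleW c o x = 0 := by
  rw [Fintype.sum_prod_type]
  exact Finset.sum_eq_zero fun p _ => ensemble_sg1 _ _ _

theorem ensemble_w2 {x y : ι} (hxy : x ≠ y) : ∑ o, ensembleW c o x * ensembleW c o y = 0 := by
  rw [Fintype.sum_prod_type]
  refine Finset.sum_eq_zero fun p _ => ?_
  refine (ensemble_sg2 _ _ _ _ _ _).trans ?_
  have key : ∀ (a : ι) (r : ℝ), (if a = x then r else 0) * (if a = y then r else 0) = 0 := by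
    intro a r
    by_cases h : a = x
    · have : a ≠ y := h ▸ hxy
      simp [this]
    · simp [h]
  rw [key, key, key]
  simp

theorem ensemble_pick (f : ι → ι → ι → ℝ) (x y z : ι) :
    ∑ p : ι × ι × ι, (if p.1 = x then f p.1 p.2.1 p.2.2 else 0) * (if p.2.1 = y then 1 else 0)
      * (if p.2.2 = z then 1 else 0) = f x y z := by
  rw [Finset.sum_eq_single (x, y, z)]
  · simp
  · rintro ⟨a, b, d⟩ - hne
    by_cases ha : a = x
    · by_cases hb : b = y
      · have hd : d ≠ z := fun hd => hne (by rw [ha, hb, hd])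
        simp [hd]
      · simp [hb]
    · simp [ha]
  · simp

theorem ensemble_w3 (h1 : ∀ a b d, c a b d = c b a d) (h2 : ∀ a b d, c a b d = c a d b)
    (x y z : ι) :
    ∑ o, ensembleW c o x * ensembleW c o y * ensembleW c o z = 24 * c x y z := by
  rw [Fintype.sum_prod_type]
  have e : ∀ p : ι × ι × ι, ∑ k : Fin 4,
      ensembleW c (p, k) x * ensembleW c (p, k) y * ensembleW c (p, k) z = 4 *
      ((if p.1 = x then c p.1 p.2.1 p.2.2 else 0) * (if p.2.1 = y then 1 else 0)
          * (if p.2.2 = z then 1 else 0)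
        + (if p.1 = x then c p.1 p.2.1 p.2.2 else 0) * (if p.2.1 = z then 1 else 0)
          * (if p.2.2 = y then 1 else 0)
        + (if p.1 = y then c p.1 p.2.1 p.2.2 else 0) * (if p.2.1 = x then 1 else 0)
          * (if p.2.2 = z then 1 else 0)
        + (if p.1 = z then c p.1 p.2.1 p.2.2 else 0) * (if p.2.1 = x then 1 else 0)
          * (if p.2.2 = y then 1 else 0)
        + (if p.1 = y then c p.1 p.2.1 p.2.2 else 0) * (if p.2.1 = z then 1 else 0)
          * (if p.2.2 = x then 1 else 0)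
        + (if p.1 = z then c p.1 p.2.1 p.2.2 else 0) * (if p.2.1 = y then 1 else 0)
          * (if p.2.2 = x then 1 else 0)) := by
    intro p
    refine (ensemble_sg3 _ _ _ _ _ _ _ _ _).trans ?_
    ring
  simp only [e]
  rw [← Finset.mul_sum]
  simp only [Finset.sum_add_distrib, ensemble_pick]
  have e1 : c x z y = c x y z := h2 _ _ _
  have e2 : c y x z = c x y z := h1 _ _ _
  have e3 : c z x y = c x y z := by rw [h1, h2]
  have e4 : c y z x = c x y z := by rw [h2, h1]
  have e5 : c z y x = c x y z := by rw [h1, h2, h1]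
  rw [e1, e2, e3, e4, e5]
  ring

end First

/-- The index set of the ensemble. -/
abbrev EnsembleIx (ι : Type) := Option (((ι × ι × ι) × Fin 4) ⊕ (ι × Bool))

/-- The points of the ensemble. -/
def ensembleV {ι : Type} [DecidableEq ι] (c : ι → ι → ι → ℝ) (s : ℝ) (r : ι → ℝ) :
    EnsembleIx ι → ι → ℝ
  | none, _ => 0
  | some (Sum.inl o), x => s * ensembleW c o x
  | some (Sum.inr (a, true)), x => if a = x then r a else 0
  | some (Sum.inr (a, false)), x => -(if a = x then r a else 0)

section Second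

variable {ι : Type} [Fintype ι] [DecidableEq ι] (c : ι → ι → ι → ℝ) (s : ℝ) (r : ι → ℝ)

theorem ensemble_v1 (x : ι) : ∑ o, ensembleV c s r o x = 0 := by
  simp only [Fintype.sum_option, Fintype.sum_sum_type, ensembleV, ← Finset.mul_sum, ensemble_w1]
  rw [Fintype.sum_prod_type]
  simp

theorem ensemble_v2 (x y : ι) : ∑ o, ensembleV c s r o x * ensembleV c s r o y =
    if x = y then s ^ 2 * ∑ o, ensembleW c o x ^ 2 + 2 * r x ^ 2 else 0 := by
  have e : ∀ o, s * ensembleW c o x * (s * ensembleW c o y)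
      = s ^ 2 * (ensembleW c o x * ensembleW c o y) := fun o => by ring
  simp only [Fintype.sum_option, Fintype.sum_sum_type, ensembleV, e, ← Finset.mul_sum]
  rw [Fintype.sum_prod_type (α₁ := ι) (α₂ := Bool)]
  simp only [Fintype.sum_bool]
  by_cases hxy : x = y
  · subst hxy
    rw [if_pos rfl, Finset.sum_eq_single x]
    · simp only [if_true, sq]
      ring
    · intro b _ hb
      simp [hb]
    · simp
  · rw [if_neg hxy, ensemble_w2 c hxy, Finset.sum_eq_zero]
    · simp
    · intro a _
      by_cases h : a = x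
      · have : a ≠ y := h ▸ hxy
        simp [this]
      · simp [h]

theorem ensemble_v3 (h1 : ∀ a b d, c a b d = c b a d) (h2 : ∀ a b d, c a b d = c a d b)
    (x y z : ι) : ∑ o, ensembleV c s r o x * ensembleV c s r o y * ensembleV c s r o z =
    24 * s ^ 3 * c x y z := by
  have e : ∀ o, s * ensembleW c o x * (s * ensembleW c o y) * (s * ensembleW c o z)
      = s ^ 3 * (ensembleW c o x * ensembleW c o y * ensembleW c o z) := fun o => by ring
  simp only [Fintype.sum_option, Fintype.sum_sum_type, ensembleV, e, ← Finset.mul_sum,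
    ensemble_w3 c h1 h2]
  rw [Fintype.sum_prod_type (α₁ := ι) (α₂ := Bool)]
  simp only [Fintype.sum_bool]
  rw [Finset.sum_eq_zero (fun a _ => by ring)]
  ring

end Second

theorem ensemble_core {ι : Type} [Fintype ι] [DecidableEq ι] (c : ι → ι → ι → ℝ)
    (h1 : ∀ a b d, c a b d = c b a d) (h2 : ∀ a b d, c a b d = c a d b) :
    ∃ (l : ℝ) (v : EnsembleIx ι → ι → ℝ), 0 < l ∧ (∀ x, ∑ o, v o x = 0) ∧
      (∀ x y, ∑ o, v o x * v o y = if x = y then (Fintype.card (EnsembleIx ι) : ℝ) else 0) ∧
      ∀ x y z, ∑ o, v o x * v o y * v o z = Fintype.card (EnsembleIx ι) * (l * c x y z) := by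
  set N : ℝ := (Fintype.card (EnsembleIx ι) : ℝ) with hN
  have hN1 : 1 ≤ N := by
    rw [hN]
    exact_mod_cast Fintype.card_pos
  set σ : ι → ℝ := fun x => ∑ o, ensembleW c o x ^ 2 with hσ
  have hσ0 : ∀ x, 0 ≤ σ x := fun x => Finset.sum_nonneg fun o _ => sq_nonneg _
  set T : ℝ := ∑ x, σ x with hT
  have hT0 : 0 ≤ T := Finset.sum_nonneg fun x _ => hσ0 x
  have hσT : ∀ x, σ x ≤ T := fun x =>
    Finset.single_le_sum (fun y _ => hσ0 y) (Finset.mem_univ x)
  set s : ℝ := (1 + T)⁻¹ with hs
  have hs0 : 0 < s := by positivity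
  have hsσ : ∀ x, s ^ 2 * σ x ≤ N := by
    intro x
    have h3 : s * (1 + T) = 1 := inv_mul_cancel₀ (by positivity)
    have h4 : s * σ x ≤ 1 := by nlinarith [hσT x]
    have h5 : s ≤ 1 := by nlinarith
    nlinarith [mul_nonneg hs0.le (hσ0 x)]
  refine ⟨24 * s ^ 3 / N, ensembleV c s fun x => √((N - s ^ 2 * σ x) / 2), by positivity,
    ensemble_v1 c s _, fun x y => ?_, fun x y z => ?_⟩
  · rw [ensemble_v2]
    split_ifs with h
    · rw [Real.sq_sqrt (by linarith [hsσ x])]
      simp only [hσ]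
      ring
    · rfl
  · rw [ensemble_v3 c s _ h1 h2]
    field_simp

theorem exists_ensemble {ι : Type} [Fintype ι] [DecidableEq ι] (c : ι → ι → ι → ℝ)
    (h1 : ∀ a b d, c a b d = c b a d) (h2 : ∀ a b d, c a b d = c a d b) :
    ∃ (l : ℝ) (N : ℕ) (φ : Fin N → Option ι → ℝ), 0 < l ∧ 0 < N ∧ (∀ o, φ o none = 1) ∧
      ∀ a b d, ∑ o, φ o a * φ o b * φ o d = N * unitC (fun a b d => l * c a b d) a b d := by
  obtain ⟨l, v, hl, m1, m2, m3⟩ := ensemble_core c h1 h2
  let e := (Fintype.equivFin (EnsembleIx ι)).symm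
  let ψ : EnsembleIx ι → Option ι → ℝ := fun o a => a.elim 1 (v o)
  refine ⟨l, Fintype.card (EnsembleIx ι), fun o => ψ (e o), hl, Fintype.card_pos,
    fun o => rfl, fun a b d => ?_⟩
  rw [Equiv.sum_comp e fun o => ψ o a * ψ o b * ψ o d]
  rcases a with _ | a <;> rcases b with _ | b <;> rcases d with _ | d <;>
    simp [ψ, unitC, m1, m2, m3]

end

end Pool.Agent.Work.MP_6bf1e5_an.Ens
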