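import Pool.Agent.Work.MP_6bf1e5_an.Ens.Cut

/-!
Local interpolation. With `φ` from `exists_cut` (equal to `1` on the ball of radius `r`), for each component `f`:
`∫_{B r} f⁴ ≤ ‖f‖₂ ‖φ f‖₆³` (Cauchy-Schwarz on `|f| · |φ f|³`) and `‖φ f‖₆ ≤ C ‖∇(φ f)‖₂`
(`eLpNorm_le_eLpNorm_fderiv_of_eq`). Then `den² ≤ card · ∑ f⁴`.
-/

open scoped ContDiff ENNReal FourierTransform Topology ComplexConjugate
open Set MeasureTheory Filter Polynomial Metric

namespace Pool.Agent.Work.MP_6bf1e5_an.Ens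

noncomputable section

theorem sob_int_pow {g : R3 → ℝ} (hg : Test g) (n : ℕ) : Integrable fun x => g x ^ (n + 1) := by
  have h1 : Continuous fun x => g x ^ n := hg.1.continuous.pow n
  simpa [pow_succ] using hg.integrable_mul h1

theorem sob_gns : ∃ C : ℝ, 0 ≤ C ∧ ∀ g : R3 → ℝ, Test g →
    ∫ x, g x ^ 6 ≤ C * (∫ x, ‖fderiv ℝ g x‖ ^ 2) ^ 3 := by
  obtain ⟨C0, hC0⟩ : ∃ C0 : NNReal, C0 = SNormLESNormFDerivOfEqConst ℝ (volume : Measure R3) (2 : NNReal) :=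
    ⟨_, rfl⟩
  refine ⟨(C0 : ℝ) ^ 6, by positivity, fun g hg => ?_⟩
  have h1 : ContDiff ℝ 1 g := hg.1.of_le (by exact_mod_cast le_top)
  have key := eLpNorm_le_eLpNorm_fderiv_of_eq (volume : Measure R3) h1 hg.2 (p := 2) (p' := 6)
    (by norm_num) (by simp) (by simp; norm_num)
  rw [← hC0] at key
  have m1 : MemLp g ((6 : NNReal) : ℝ≥0∞) volume := hg.1.continuous.memLp_of_hasCompactSupport hg.2
  have m2 : MemLp (fderiv ℝ g) ((2 : NNReal) : ℝ≥0∞) volume :=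
    (h1.continuous_fderiv one_ne_zero).memLp_of_hasCompactSupport (hg.2.fderiv ℝ)
  rw [m1.eLpNorm_eq_integral_rpow_norm (by norm_num) ENNReal.coe_ne_top,
    m2.eLpNorm_eq_integral_rpow_norm (by norm_num) ENNReal.coe_ne_top,
    ← ENNReal.ofReal_coe_nnreal (p := C0), ← ENNReal.ofReal_mul C0.coe_nonneg,
    ENNReal.ofReal_le_ofReal_iff (by positivity)] at key
  simp only [ENNReal.coe_toReal, NNReal.coe_ofNat] at key
  have e1 : ∫ x, ‖g x‖ ^ (6 : ℝ) = ∫ x, g x ^ 6 := by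
    refine integral_congr_ae (Eventually.of_forall fun x => ?_)
    have : ‖g x‖ ^ (6 : ℝ) = ‖g x‖ ^ (6 : ℕ) := by exact_mod_cast Real.rpow_natCast ‖g x‖ 6
    simp only
    rw [this, Real.norm_eq_abs]
    exact Even.pow_abs (n := 6) (by decide) _
  have e2 : ∫ x, ‖fderiv ℝ g x‖ ^ (2 : ℝ) = ∫ x, ‖fderiv ℝ g x‖ ^ 2 := by
    refine integral_congr_ae (Eventually.of_forall fun x => ?_)
    exact Real.rpow_two _
  rw [e1, e2] at key
  have p1 : 0 ≤ ∫ x, g x ^ 6 := integral_nonneg fun x => by positivity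
  have p2 : 0 ≤ ∫ x, ‖fderiv ℝ g x‖ ^ 2 := integral_nonneg fun x => by positivity
  have h6 := pow_le_pow_left₀ (by positivity) key 6
  have a1 : ((∫ x, g x ^ 6) ^ (6 : ℝ)⁻¹) ^ 6 = ∫ x, g x ^ 6 := by
    exact_mod_cast Real.rpow_inv_natCast_pow (n := 6) p1 (by norm_num)
  have a2 : ((∫ x, ‖fderiv ℝ g x‖ ^ 2) ^ (2 : ℝ)⁻¹) ^ 2 = ∫ x, ‖fderiv ℝ g x‖ ^ 2 := by
    exact_mod_cast Real.rpow_inv_natCast_pow (n := 2) p2 (by norm_num)
  have a3 : ∀ y : ℝ, y ^ 6 = (y ^ 2) ^ 3 := fun y => by ring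
  rw [a1, mul_pow, a3 ((∫ x, ‖fderiv ℝ g x‖ ^ 2) ^ (2 : ℝ)⁻¹), a2] at h6
  exact h6

theorem sob_cs {g : R3 → ℝ} (hg : Test g) :
    ∫ x, g x ^ 4 ≤ √(∫ x, g x ^ 2) * √(∫ x, g x ^ 6) := by
  have hc := hg.1.continuous
  have m1 : MemLp g (ENNReal.ofReal 2) volume := hc.memLp_of_hasCompactSupport hg.2
  have hs : HasCompactSupport fun x => g x ^ 3 :=
    hg.2.comp_left (g := fun y : ℝ => y ^ 3) (by norm_num)
  have m2 : MemLp (fun x => g x ^ 3) (ENNReal.ofReal 2) volume :=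
    (hc.pow 3).memLp_of_hasCompactSupport hs
  have key := integral_mul_norm_le_Lp_mul_Lq Real.HolderConjugate.two_two m1 m2
  have e0 : ∫ x, ‖g x‖ * ‖g x ^ 3‖ = ∫ x, g x ^ 4 := by
    refine integral_congr_ae (Eventually.of_forall fun x => ?_)
    have : g x * g x ^ 3 = g x ^ 4 := by ring
    simp only
    rw [← norm_mul, this, Real.norm_of_nonneg (by positivity)]
  have e1 : ∫ x, ‖g x‖ ^ (2 : ℝ) = ∫ x, g x ^ 2 := by
    refine integral_congr_ae (Eventually.of_forall fun x => ?_)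
    simp only [Real.rpow_two, Real.norm_eq_abs, sq_abs]
  have e2 : ∫ x, ‖g x ^ 3‖ ^ (2 : ℝ) = ∫ x, g x ^ 6 := by
    refine integral_congr_ae (Eventually.of_forall fun x => ?_)
    simp only [Real.rpow_two, Real.norm_eq_abs, sq_abs]
    ring
  rw [e0, e1, e2] at key
  simpa only [Real.sqrt_eq_rpow] using key

theorem sob_grad {f φ : R3 → ℝ} (hf : ContDiff ℝ ∞ f) (hφ : Test φ) {ρ L : ℝ}
    (h01 : ∀ x, 0 ≤ φ x ∧ φ x ≤ 1) (h0 : ∀ x, ρ ≤ ‖x‖ → φ x = 0)
    (hL : ∀ x, ‖fderiv ℝ φ x‖ ≤ L) (x : R3) :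
    ‖fderiv ℝ (fun y => φ y * f y) x‖ ^ 2 ≤
      2 * (ball (0 : R3) ρ).indicator (fun y => ∑ j, pd j f y ^ 2) x + 2 * L ^ 2 * f x ^ 2 := by
  have d1 : DifferentiableAt ℝ f x := hf.differentiable (by simp) x
  have d2 : DifferentiableAt ℝ φ x := hφ.1.differentiable (by simp) x
  rw [norm_fderiv_sq]
  simp only [pd_mul d2 d1]
  have h1 : ∑ j, pd j φ x ^ 2 ≤ L ^ 2 := by
    rw [← norm_fderiv_sq]
    exact pow_le_pow_left₀ (norm_nonneg _) (hL x) 2
  have h2 : φ x ^ 2 * ∑ j, pd j f x ^ 2 ≤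
      (ball (0 : R3) ρ).indicator (fun y => ∑ j, pd j f y ^ 2) x := by
    by_cases hx : x ∈ ball (0 : R3) ρ
    · rw [indicator_of_mem hx]
      have : φ x ^ 2 ≤ 1 := pow_le_one₀ (h01 x).1 (h01 x).2
      exact mul_le_of_le_one_left (by positivity) this
    · rw [indicator_of_notMem hx, h0 x (by simpa using hx)]
      simp
  have h3 : ∑ j, (pd j φ x * f x + φ x * pd j f x) ^ 2 ≤
      2 * (φ x ^ 2 * ∑ j, pd j f x ^ 2) + 2 * (∑ j, pd j φ x ^ 2) * f x ^ 2 := by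
    rw [Finset.mul_sum, Finset.mul_sum, Finset.mul_sum, Finset.sum_mul, ← Finset.sum_add_distrib]
    refine Finset.sum_le_sum fun j _ => ?_
    nlinarith [sq_nonneg (pd j φ x * f x - φ x * pd j f x)]
  have h4 : (∑ j, pd j φ x ^ 2) * f x ^ 2 ≤ L ^ 2 * f x ^ 2 :=
    mul_le_mul_of_nonneg_right h1 (sq_nonneg _)
  linarith

theorem sob_intOn {F : R3 → ℝ} (hF : Continuous F) (ρ : ℝ) : IntegrableOn F (ball (0 : R3) ρ) :=
  (hF.continuousOn.integrableOn_compact (isCompact_closedBall (0 : R3) ρ)).mono_set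
    ball_subset_closedBall

/-- The estimate for one component. -/
theorem sob_one : ∃ K : ℝ, 0 ≤ K ∧ ∀ (f : R3 → ℝ) (r d E D : ℝ), 0 < d → d ≤ r →
    ContDiff ℝ ∞ f → Integrable (fun x => f x ^ 2) → ∫ x, f x ^ 2 ≤ E →
    ∫ x in ball 0 (r + d), ∑ j, pd j f x ^ 2 ≤ D →
    ∫ x in ball 0 r, f x ^ 4 ≤ K * √E * (D + E / d ^ 2) ^ (3 / 2 : ℝ) := by
  obtain ⟨C, hC, hgns⟩ := sob_gns
  obtain ⟨K, hK, hcut⟩ := exists_cut
  refine ⟨√(C * (2 + 2 * K ^ 2) ^ 3), Real.sqrt_nonneg _, fun f r d E D hd hr hf hi hE hD => ?_⟩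
  obtain ⟨φ, hφ, h01, h1, h0, hL⟩ := hcut r d hd hr
  have hg : Test fun x => φ x * f x := hφ.mul hf
  have hE0 : 0 ≤ E := (integral_nonneg fun x => sq_nonneg (f x)).trans hE
  have hD0 : 0 ≤ D := (integral_nonneg fun x => by positivity).trans hD
  have hZ : 0 ≤ D + E / d ^ 2 := by positivity
  have s1 : ∫ x in ball 0 r, f x ^ 4 ≤ ∫ x, (φ x * f x) ^ 4 := by
    have : ∫ x in ball (0 : R3) r, f x ^ 4 = ∫ x in ball (0 : R3) r, (φ x * f x) ^ 4 := by
      refine setIntegral_congr_fun measurableSet_ball fun x hx => ?_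
      have : ‖x‖ ≤ r := by simpa using ball_subset_closedBall hx
      simp only [h1 x this, one_mul]
    rw [this]
    exact setIntegral_le_integral (sob_int_pow hg 3) (Eventually.of_forall fun x => by positivity)
  have s2 : ∫ x, (φ x * f x) ^ 2 ≤ E := by
    refine le_trans (integral_mono (sob_int_pow hg 1) hi fun x => ?_) hE
    have : φ x ^ 2 ≤ 1 := pow_le_one₀ (h01 x).1 (h01 x).2
    simp only [mul_pow]
    exact mul_le_of_le_one_left (sq_nonneg _) this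
  have c1 : Continuous fun y => ∑ j, pd j f y ^ 2 :=
    continuous_finsetSum _ fun j _ => (contDiff_pd hf j).continuous.pow 2
  have i1 : Integrable ((ball (0 : R3) (r + d)).indicator fun y => ∑ j, pd j f y ^ 2) :=
    (integrable_indicator_iff measurableSet_ball).mpr (sob_intOn c1 _)
  have s3 : ∫ x, ‖fderiv ℝ (fun y => φ y * f y) x‖ ^ 2 ≤ (2 + 2 * K ^ 2) * (D + E / d ^ 2) := by
    have := integral_mono_of_nonneg (Eventually.of_forall fun x => by positivity)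
      ((i1.const_mul 2).add (hi.const_mul (2 * (K / d) ^ 2)))
      (Eventually.of_forall (sob_grad hf hφ h01 h0 hL))
    refine this.trans ?_
    simp only [Pi.add_apply]
    rw [integral_add (i1.const_mul 2) (hi.const_mul _), integral_const_mul, integral_const_mul,
      integral_indicator measurableSet_ball]
    have t1 : 2 * (K / d) ^ 2 * ∫ x, f x ^ 2 ≤ 2 * (K / d) ^ 2 * E :=
      mul_le_mul_of_nonneg_left hE (by positivity)
    have t2 : 2 * (K / d) ^ 2 * E = 2 * K ^ 2 * (E / d ^ 2) := by ring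
    have t3 : 0 ≤ E / d ^ 2 := by positivity
    have t4 : 0 ≤ K ^ 2 * D := by positivity
    nlinarith
  have s4 : ∫ x, (φ x * f x) ^ 6 ≤ C * (2 + 2 * K ^ 2) ^ 3 * (D + E / d ^ 2) ^ 3 := by
    refine (hgns _ hg).trans ?_
    rw [mul_assoc, ← mul_pow]
    exact mul_le_mul_of_nonneg_left
      (pow_le_pow_left₀ (integral_nonneg fun x => by positivity) s3 3) hC
  have s5 : √((D + E / d ^ 2) ^ 3) = (D + E / d ^ 2) ^ (3 / 2 : ℝ) := by
    rw [Real.sqrt_eq_rpow, ← Real.rpow_natCast, ← Real.rpow_mul hZ]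
    norm_num
  calc ∫ x in ball 0 r, f x ^ 4 ≤ √(∫ x, (φ x * f x) ^ 2) * √(∫ x, (φ x * f x) ^ 6) :=
        s1.trans (sob_cs hg)
    _ ≤ √E * √(C * (2 + 2 * K ^ 2) ^ 3 * (D + E / d ^ 2) ^ 3) :=
        mul_le_mul (Real.sqrt_le_sqrt s2) (Real.sqrt_le_sqrt s4) (Real.sqrt_nonneg _)
          (Real.sqrt_nonneg _)
    _ = _ := by
        rw [Real.sqrt_mul (by positivity), s5]
        ring

theorem exists_L4 (ι : Type) [Fintype ι] : ∃ K : ℝ, 0 ≤ K ∧ ∀ (w : ι → R3 → R3) (r d : ℝ), 0 < d → d ≤ r →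
    (∀ a i, ContDiff ℝ ∞ fun x => w a x i) → Integrable (den w) →
    ∫ x in ball 0 r, den w x ^ 2 ≤ K * √(∫ x, den w x) *
      ((∫ x in ball 0 (r + d), dis w x) + (∫ x, den w x) / d ^ 2) ^ (3 / 2 : ℝ) := by
  obtain ⟨K, hK, hone⟩ := sob_one
  obtain ⟨N, hN⟩ : ∃ N : ℝ, N = Fintype.card (ι × Fin 3) := ⟨_, rfl⟩
  have hN0 : 0 ≤ N := by rw [hN]; positivity
  refine ⟨N * N * K, by positivity, fun w r d hd hr hw hi => ?_⟩
  have hden : ∀ x, den w x = ∑ p : ι × Fin 3, w p.1 x p.2 ^ 2 := fun x => by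
    rw [den, Fintype.sum_prod_type]
  have hdis : ∀ x, dis w x = ∑ p : ι × Fin 3, ∑ j, pd j (fun y => w p.1 y p.2) x ^ 2 := fun x => by
    rw [dis, Fintype.sum_prod_type]
  have c0 : ∀ p : ι × Fin 3, Continuous fun x => w p.1 x p.2 := fun p => (hw p.1 p.2).continuous
  have c1 : ∀ p : ι × Fin 3, Continuous fun x => ∑ j, pd j (fun y => w p.1 y p.2) x ^ 2 := fun p =>
    continuous_finsetSum _ fun j _ => (contDiff_pd (hw p.1 p.2) j).continuous.pow 2
  have le1 : ∀ (p : ι × Fin 3) x, w p.1 x p.2 ^ 2 ≤ den w x := fun p x => by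
    rw [hden]
    exact Finset.single_le_sum (f := fun p : ι × Fin 3 => w p.1 x p.2 ^ 2)
      (fun _ _ => sq_nonneg _) (Finset.mem_univ p)
  have le2 : ∀ (p : ι × Fin 3) x, ∑ j, pd j (fun y => w p.1 y p.2) x ^ 2 ≤ dis w x := fun p x => by
    rw [hdis]
    exact Finset.single_le_sum
      (f := fun p : ι × Fin 3 => ∑ j, pd j (fun y => w p.1 y p.2) x ^ 2)
      (fun _ _ => by positivity) (Finset.mem_univ p)
  have cdis : Continuous (dis w) := by
    rw [funext hdis]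
    exact continuous_finsetSum _ fun p _ => c1 p
  have cden : Continuous (den w) := by
    rw [funext hden]
    exact continuous_finsetSum _ fun p _ => (c0 p).pow 2
  have i0 : ∀ p : ι × Fin 3, Integrable fun x => w p.1 x p.2 ^ 2 := fun p =>
    hi.mono' ((c0 p).pow 2).aestronglyMeasurable (Eventually.of_forall fun x => by
      rw [Real.norm_of_nonneg (sq_nonneg _)]
      exact le1 p x)
  have one : ∀ p : ι × Fin 3, ∫ x in ball 0 r, w p.1 x p.2 ^ 4 ≤ K * √(∫ x, den w x) *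
      ((∫ x in ball 0 (r + d), dis w x) + (∫ x, den w x) / d ^ 2) ^ (3 / 2 : ℝ) := fun p =>
    hone _ r d _ _ hd hr (hw p.1 p.2) (i0 p) (integral_mono (i0 p) hi (le1 p))
      (integral_mono (sob_intOn (c1 p) _) (sob_intOn cdis _) (le2 p))
  have i4 : ∀ p : ι × Fin 3, IntegrableOn (fun x => w p.1 x p.2 ^ 4) (ball (0 : R3) r) := fun p =>
    sob_intOn ((c0 p).pow 4) r
  have pt : ∀ x, den w x ^ 2 ≤ N * ∑ p : ι × Fin 3, w p.1 x p.2 ^ 4 := fun x => by
    rw [hden, hN]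
    have := sq_sum_le_card_mul_sum_sq (s := (Finset.univ : Finset (ι × Fin 3)))
      (f := fun p => w p.1 x p.2 ^ 2)
    simpa only [Finset.card_univ, ← pow_mul] using this
  calc ∫ x in ball 0 r, den w x ^ 2 ≤ ∫ x in ball 0 r, N * ∑ p : ι × Fin 3, w p.1 x p.2 ^ 4 :=
        integral_mono (sob_intOn (F := fun x => den w x ^ 2) (cden.pow 2) r)
          ((integrable_finsetSum _ fun p _ => i4 p).const_mul N) pt
    _ = N * ∑ p : ι × Fin 3, ∫ x in ball 0 r, w p.1 x p.2 ^ 4 := by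
        rw [integral_const_mul, integral_finsetSum _ fun p _ => i4 p]
    _ ≤ N * ∑ _p : ι × Fin 3, K * √(∫ x, den w x) *
        ((∫ x in ball 0 (r + d), dis w x) + (∫ x, den w x) / d ^ 2) ^ (3 / 2 : ℝ) :=
        mul_le_mul_of_nonneg_left (Finset.sum_le_sum fun p _ => one p) hN0
    _ = _ := by
        rw [Finset.sum_const, Finset.card_univ, nsmul_eq_mul, ← hN]
        ring

end

end Pool.Agent.Work.MP_6bf1e5_an.Ens
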