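import Pool.Agent.Work.MP_6bf1e5_an.Ens.EstP
import Pool.Agent.Work.MP_6bf1e5_an.Ens.Sob

/-!
The local energy inequality. Put `d = (ρ - r)/4`, `ψ` from `exists_cut r d`, `X = ∫_{B ρ} dis`, `Z = X + 4 E0 / d²`.
Second term of `local_energy`: `≤ C/d √X √E0`. Third (`v = u + w`): `≤ C/d (M0 E0 + √E0 √(∫_{B(r+d)} den²))`. Fourth: `≤ K M1 ∫ den`.
Pressure: `Pair.press_est` with radii `r + d`, `d` (the gradient of `ψ ≥ 0` vanishes where `ψ` does);
`exists_L4` with radii `r + 2d`, `d`. Young: `C/d Z^(3/4) ≤ ε Z + C'/d⁴`. Since `1 ≤ R`, `d ≤ R`, each of `1/d`, `1/d²`, `1/d⁴`,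
`R^(3/2)/d⁴` is at most `R³/d⁴`.
-/

open scoped ContDiff ENNReal FourierTransform Topology ComplexConjugate
open Set MeasureTheory Filter Polynomial Metric

namespace Pool.Agent.Work.MP_6bf1e5_an.Ens

noncomputable section

variable {ι : Type} [Fintype ι]

variable {ν T E0 M0 M1 : ℝ} {c : ι → ι → ι → ℝ} {u v : ι → R3 → ℝ → R3} {p q : ι → R3 → ℝ → ℝ}


theorem est_den_nonneg (w : ι → R3 → R3) (x : R3) : 0 ≤ den w x :=
  Finset.sum_nonneg fun _ _ => Finset.sum_nonneg fun _ _ => sq_nonneg _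

theorem est_dis_nonneg (w : ι → R3 → R3) (x : R3) : 0 ≤ dis w x :=
  Finset.sum_nonneg fun _ _ => Finset.sum_nonneg fun _ _ => Finset.sum_nonneg fun _ _ => sq_nonneg _

theorem est_mul_le (w : ι → R3 → R3) (a b : ι) (i j : Fin 3) (x : R3) :
    |w a x i * w b x j| ≤ den w x := by
  have h1 := sq_le_den w a i x
  have h2 := sq_le_den w b j x
  rw [abs_le]
  constructor <;> nlinarith [sq_nonneg (w a x i + w b x j), sq_nonneg (w a x i - w b x j)]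

theorem est_sum3 {f : Fin 3 → ℝ} {M : ℝ} (h : ∀ i, |f i| ≤ M) : |∑ i, f i| ≤ 3 * M := by
  refine (Finset.abs_sum_le_sum_abs _ _).trans ?_
  rw [Fin.sum_univ_three]
  linarith [h 0, h 1, h 2]

theorem est_csum (c S : ι → ι → ι → ℝ) {M : ℝ} (h : ∀ a b d, |S a b d| ≤ M) :
    |∑ a, ∑ b, ∑ d, c a b d * S a b d| ≤ (∑ a, ∑ b, ∑ d, |c a b d|) * M := by
  simp only [Finset.sum_mul]
  refine (Finset.abs_sum_le_sum_abs _ _).trans (Finset.sum_le_sum fun a _ => ?_)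
  refine (Finset.abs_sum_le_sum_abs _ _).trans (Finset.sum_le_sum fun b _ => ?_)
  refine (Finset.abs_sum_le_sum_abs _ _).trans (Finset.sum_le_sum fun d _ => ?_)
  rw [abs_mul]
  exact mul_le_mul_of_nonneg_left (h a b d) (abs_nonneg _)

theorem est_intOn {h : R3 → ℝ} (hh : Continuous h) (s : ℝ) : IntegrableOn h (ball 0 s) :=
  (hh.continuousOn.integrableOn_compact (isCompact_closedBall 0 s)).mono_set ball_subset_closedBall

theorem est_int {f D h : R3 → ℝ} (hD : Integrable D) (hh : Continuous h) (A A' s : ℝ)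
    (h1 : ∀ x, ‖x‖ < s → |f x| ≤ A * D x + A' * h x) (h2 : ∀ x, s ≤ ‖x‖ → |f x| ≤ A * D x) :
    |∫ x, f x| ≤ A * (∫ x, D x) + A' * ∫ x in ball 0 s, h x := by
  have hi : Integrable ((ball (0 : R3) s).indicator h) :=
    (integrable_indicator_iff measurableSet_ball).2 (est_intOn hh s)
  have := norm_integral_le_of_norm_le (f := f) ((hD.const_mul A).add (hi.const_mul A'))
    (Eventually.of_forall fun x => by
      by_cases hx : x ∈ ball (0 : R3) s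
      · simpa [indicator_of_mem hx] using h1 x (mem_ball_zero_iff.1 hx)
      · simpa [indicator_of_notMem hx] using h2 x (not_lt.1 fun h => hx (mem_ball_zero_iff.2 h)))
  simp only [Pi.add_apply] at this
  rwa [integral_add (hD.const_mul A) (hi.const_mul A'), integral_const_mul, integral_const_mul,
    integral_indicator measurableSet_ball] at this

theorem est_amgm {x y η : ℝ} (hη : 0 < η) : x * y ≤ η * x ^ 2 + y ^ 2 / η := by
  have h : η * x ^ 2 + y ^ 2 / η - x * y = ((η * x - y / 2) ^ 2 + 3 / 4 * y ^ 2) / η := by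
    field_simp
    ring
  have : 0 ≤ ((η * x - y / 2) ^ 2 + 3 / 4 * y ^ 2) / η := by positivity
  linarith

theorem est_young {A S Z κ η : ℝ} (hA : 0 ≤ A) (hS : 0 ≤ S) (hZ : 0 ≤ Z) (hκ : 0 ≤ κ) (hη : 0 < η)
    (h : S ^ 4 ≤ κ * Z ^ 3) : A * S ≤ η * Z + κ * A ^ 4 / η ^ 3 := by
  have h0 : 0 ≤ κ * A ^ 4 / η ^ 3 := by positivity
  rcases le_or_gt (A * S) (η * Z) with h1 | h1
  · linarith
  · have hS' : 0 < S := by
      rcases hS.eq_or_lt with e | e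
      · rw [← e, mul_zero] at h1
        exact absurd h1 (not_lt.2 (by positivity))
      · exact e
    have h2 : Z ≤ A * S / η := by
      rw [le_div_iff₀ hη]
      linarith
    have h3 : S ^ 4 ≤ κ * (A * S / η) ^ 3 :=
      h.trans (mul_le_mul_of_nonneg_left (pow_le_pow_left₀ hZ h2 3) hκ)
    have h4 : S * S ^ 3 ≤ κ * A ^ 3 / η ^ 3 * S ^ 3 := by
      calc S * S ^ 3 = S ^ 4 := by ring
        _ ≤ _ := h3
        _ = _ := by ring
    have h5 : S ≤ κ * A ^ 3 / η ^ 3 := le_of_mul_le_mul_right h4 (by positivity)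
    have h6 : A * S ≤ κ * A ^ 4 / η ^ 3 := by
      calc A * S ≤ A * (κ * A ^ 3 / η ^ 3) := mul_le_mul_of_nonneg_left h5 hA
        _ = _ := by ring
    have : 0 ≤ η * Z := by positivity
    linarith

section terms

variable {w : ι → R3 → R3} {ψ : R3 → ℝ} {L s : ℝ}

theorem est_T2 (hD : Integrable (den w)) (hG : Continuous (dis w)) (hL : ∀ j x, |pd j ψ x| ≤ L)
    (h0 : ∀ j x, s ≤ ‖x‖ → pd j ψ x = 0) {η : ℝ} (hη : 0 < η) :
    |∫ x, ∑ a, ∑ i, ∑ j, w a x i * pd j (fun y => w a y i) x * pd j ψ x|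
      ≤ 3 * L ^ 2 / η * (∫ x, den w x) + η * ∫ x in ball 0 s, dis w x := by
  refine est_int hD hG _ _ s (fun x _ => ?_) fun x hx => ?_
  · have e : 3 * L ^ 2 / η * den w x + η * dis w x = ∑ a, ∑ i, ∑ j : Fin 3,
        (η * pd j (fun y => w a y i) x ^ 2 + L ^ 2 / η * w a x i ^ 2) := by
      simp only [den, dis, Finset.sum_add_distrib, Finset.mul_sum, Finset.sum_const,
        Finset.card_univ, Fintype.card_fin, nsmul_eq_mul, Nat.cast_ofNat]
      rw [add_comm]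
      congr 1
      exact Finset.sum_congr rfl fun a _ => Finset.sum_congr rfl fun i _ => by ring
    rw [e]
    refine (Finset.abs_sum_le_sum_abs _ _).trans (Finset.sum_le_sum fun a _ => ?_)
    refine (Finset.abs_sum_le_sum_abs _ _).trans (Finset.sum_le_sum fun i _ => ?_)
    refine (Finset.abs_sum_le_sum_abs _ _).trans (Finset.sum_le_sum fun j _ => ?_)
    have h1 := est_amgm (x := |pd j (fun y => w a y i) x|) (y := L * |w a x i|) hη
    rw [mul_pow, sq_abs, sq_abs] at h1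
    have h2 : |w a x i * pd j (fun y => w a y i) x * pd j ψ x|
        ≤ |pd j (fun y => w a y i) x| * (L * |w a x i|) := by
      rw [abs_mul, abs_mul]
      calc _ ≤ |w a x i| * |pd j (fun y => w a y i) x| * L :=
            mul_le_mul_of_nonneg_left (hL j x) (by positivity)
        _ = _ := by ring
    calc _ ≤ _ := h2
      _ ≤ _ := h1
      _ = _ := by ring
  · simp only [h0 _ x hx, mul_zero, Finset.sum_const_zero, abs_zero]
    exact mul_nonneg (by positivity) (est_den_nonneg w x)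

theorem est_T3 (c : ι → ι → ι → ℝ) (hD : Integrable (den w)) (hc : Continuous (den w))
    (hL : ∀ j x, |pd j ψ x| ≤ L) (h0 : ∀ j x, s ≤ ‖x‖ → pd j ψ x = 0) {z : ι → R3 → R3} {M σ : ℝ}
    (hM : 0 ≤ M) (hσ : 0 < σ) (hz : ∀ b x j, |z b x j| ≤ M + |w b x j|) :
    |∫ x, ∑ a, ∑ b, ∑ d, c a b d * (∑ i, w a x i * w d x i) * ∑ j, z b x j * pd j ψ x|
      ≤ 9 * (∑ a, ∑ b, ∑ d, |c a b d|) * L * (M + σ) * (∫ x, den w x)
        + 9 * (∑ a, ∑ b, ∑ d, |c a b d|) * L / σ * ∫ x in ball 0 s, den w x ^ 2 := by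
  have hL0 : 0 ≤ L := (abs_nonneg _).trans (hL 0 0)
  have hC : 0 ≤ ∑ a, ∑ b, ∑ d, |c a b d| := by positivity
  refine est_int (h := fun x => den w x ^ 2) hD (hc.pow 2) _ _ s (fun x _ => ?_) fun x hx => ?_
  · have hd := est_den_nonneg w x
    simp only [mul_assoc (c _ _ _)]
    refine (est_csum c _ (M := 3 * (3 * (L * ((M + σ) * den w x + den w x ^ 2 / σ))))
      fun a b d => ?_).trans (le_of_eq (by ring))
    rw [Finset.mul_sum]
    refine est_sum3 fun j => ?_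
    have h1 : |∑ i, w a x i * w d x i| ≤ 3 * den w x := est_sum3 fun i => est_mul_le w a d i i x
    have h2 : |z b x j * pd j ψ x| ≤ (M + |w b x j|) * L := by
      rw [abs_mul]
      exact mul_le_mul (hz b x j) (hL j x) (abs_nonneg _) (by positivity)
    have h3 := est_amgm (x := |w b x j|) (y := den w x) hσ
    rw [sq_abs] at h3
    have h4 := mul_le_mul_of_nonneg_left (sq_le_den w b j x) hσ.le
    have h5 : den w x * (M + |w b x j|) ≤ (M + σ) * den w x + den w x ^ 2 / σ := by nlinarith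
    rw [abs_mul]
    calc _ ≤ 3 * den w x * ((M + |w b x j|) * L) :=
          mul_le_mul h1 h2 (abs_nonneg _) (by positivity)
      _ = 3 * (L * (den w x * (M + |w b x j|))) := by ring
      _ ≤ _ := by gcongr
  · simp only [h0 _ x hx, mul_zero, Finset.sum_const_zero, abs_zero]
    exact mul_nonneg (by positivity) (est_den_nonneg w x)

theorem est_T4 (c : ι → ι → ι → ℝ) (hD : Integrable (den w)) (hψ : ∀ x, 0 ≤ ψ x ∧ ψ x ≤ 1)
    {g : ι → Fin 3 → Fin 3 → R3 → ℝ} {M : ℝ} (hg : ∀ d i j x, |g d i j x| ≤ M) :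
    |∫ x, (∑ a, ∑ b, ∑ d, c a b d * ∑ i, ∑ j, w a x i * w b x j * g d i j x) * ψ x|
      ≤ 9 * (∑ a, ∑ b, ∑ d, |c a b d|) * M * ∫ x, den w x := by
  rw [← integral_const_mul, ← Real.norm_eq_abs]
  refine norm_integral_le_of_norm_le (hD.const_mul _) (Eventually.of_forall fun x => ?_)
  have h1 := est_csum c (fun a b d => ∑ i, ∑ j, w a x i * w b x j * g d i j x)
    (M := 3 * (3 * (den w x * M))) fun a b d => est_sum3 fun i => est_sum3 fun j => by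
      rw [abs_mul]
      exact mul_le_mul (est_mul_le w a b i j x) (hg d i j x) (abs_nonneg _) (est_den_nonneg w x)
  rw [Real.norm_eq_abs, abs_mul, abs_of_nonneg (hψ x).1]
  calc _ ≤ _ := mul_le_of_le_one_right (abs_nonneg _) (hψ x).2
    _ ≤ _ := h1
    _ = _ := by ring

theorem est_T1 {G : R3 → ℝ} (hG : Continuous G) (hG0 : ∀ x, 0 ≤ G x) (hψ : Test ψ)
    (h0 : ∀ x, 0 ≤ ψ x) {r : ℝ} (h1 : ∀ x, ‖x‖ ≤ r → ψ x = 1) :
    ∫ x in ball 0 r, G x ≤ ∫ x, G x * ψ x := by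
  rw [setIntegral_congr_fun (g := fun x => G x * ψ x) measurableSet_ball fun x hx => by
    simp only [h1 x (mem_ball_zero_iff.1 hx).le, mul_one]]
  exact setIntegral_le_integral (hψ.integrable_mul hG)
    (Eventually.of_forall fun x => mul_nonneg (hG0 x) (h0 x))

end terms

theorem est_radii {R d ρ k : ℝ} (hR : 1 ≤ R) (hd : 0 < d) (hdR : d ≤ R) (hρ0 : 0 ≤ ρ)
    (hρ : ρ ≤ 2 * R) (hk : 0 ≤ k) :
    k / d ≤ k * (R ^ 3 / d ^ 4) ∧ (k / d) ^ 2 ≤ k ^ 2 * (R ^ 3 / d ^ 4) ∧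
      (k / d) ^ 4 ≤ k ^ 4 * (R ^ 3 / d ^ 4) ∧ 1 / d ^ 2 ≤ R ^ 3 / d ^ 4 ∧
      k / d * (ρ ^ (3 / 2 : ℝ) / d ^ 3) ≤ 8 * k * (R ^ 3 / d ^ 4) := by
  have a3 : d ^ 3 ≤ R ^ 3 := pow_le_pow_left₀ hd.le hdR 3
  have a2 : d ^ 2 ≤ R ^ 3 :=
    (pow_le_pow_left₀ hd.le hdR 2).trans (pow_le_pow_right₀ hR (by norm_num))
  have a0 : 1 ≤ R ^ 3 := one_le_pow₀ hR
  have a4 : ρ ^ (3 / 2 : ℝ) ≤ 8 * R ^ 3 := by
    calc ρ ^ (3 / 2 : ℝ) ≤ (2 * R) ^ (3 / 2 : ℝ) := Real.rpow_le_rpow hρ0 hρ (by norm_num)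
      _ ≤ (2 * R) ^ ((3 : ℕ) : ℝ) := Real.rpow_le_rpow_of_exponent_le (by linarith) (by norm_num)
      _ = 8 * R ^ 3 := by rw [Real.rpow_natCast]; ring
  refine ⟨?_, ?_, ?_, ?_, ?_⟩
  · calc k / d = k * (d ^ 3 / d ^ 4) := by field_simp
      _ ≤ _ := by gcongr
  · calc (k / d) ^ 2 = k ^ 2 * (d ^ 2 / d ^ 4) := by field_simp
      _ ≤ _ := by gcongr
  · calc (k / d) ^ 4 = k ^ 4 * (1 / d ^ 4) := by field_simp
      _ ≤ _ := by gcongr
  · calc 1 / d ^ 2 = d ^ 2 / d ^ 4 := by field_simp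
      _ ≤ _ := by gcongr
  · calc k / d * (ρ ^ (3 / 2 : ℝ) / d ^ 3) = k * (ρ ^ (3 / 2 : ℝ) / d ^ 4) := by field_simp
      _ ≤ k * (8 * R ^ 3 / d ^ 4) := by gcongr
      _ = _ := by ring

/-- The final computation with real numbers. -/
theorem est_arith {ν ε C N Bp k E M κ L W X Y0 Y1 T2 T3 T4 P I S Q Z e1 m : ℝ} (hν : 0 < ν)
    (hε : 0 < ε) (hC : 0 ≤ C) (hN : 0 ≤ N) (hBp : 0 ≤ Bp) (hE : 0 ≤ E) (hM : 0 ≤ M)
    (hκ : 0 ≤ κ) (hL : 0 ≤ L) (hS : 0 ≤ S) (hZ : 0 ≤ Z) (hI : I ≤ E) (h1 : Y0 ≤ Y1)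
    (h2 : |T2| ≤ 3 * L ^ 2 / (ε / (4 * ν)) * I + ε / (4 * ν) * X)
    (h3 : |T3| ≤ 9 * C * L * (M + (S + 1)) * I + 9 * C * L / (S + 1) * S ^ 2)
    (h4 : |T4| ≤ 9 * C * m * I) (h5 : |P| ≤ N * (Bp * L * (S + 1 + Q)))
    (h6 : S ^ 4 ≤ κ * Z ^ 3) (h7 : Z ≤ X + E * e1) (w1 : L ≤ k * W) (w2 : L ^ 2 ≤ k ^ 2 * W)
    (w4 : L ^ 4 ≤ k ^ 4 * W) (w0 : e1 ≤ W) (w5 : L * Q ≤ 8 * k * W) :
    -(2 * ν * Y1) - 2 * ν * T2 + T3 - 2 * T4 - 2 * P + 2 * ν * Y0 ≤ ε * X + 18 * C * m * I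
      + (24 * ν ^ 2 / ε * E * k ^ 2 + (9 * C * (M + 1) * E + 2 * N * Bp) * k + 16 * N * Bp * k
        + ε / 2 * E + κ * (9 * C * (E + 1) + 2 * N * Bp) ^ 4 / (ε / 2) ^ 3 * k ^ 4) * W := by
  have b1 : 2 * ν * Y0 ≤ 2 * ν * Y1 := mul_le_mul_of_nonneg_left h1 (by positivity)
  have b2 : -(2 * ν * T2) ≤ ε / 2 * X + 24 * ν ^ 2 / ε * E * k ^ 2 * W := by
    calc -(2 * ν * T2) = 2 * ν * (-T2) := by ring
      _ ≤ 2 * ν * (3 * L ^ 2 / (ε / (4 * ν)) * I + ε / (4 * ν) * X) :=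
          mul_le_mul_of_nonneg_left ((neg_le_abs _).trans h2) (by positivity)
      _ = ε / 2 * X + 24 * ν ^ 2 / ε * (L ^ 2 * I) := by field_simp; ring
      _ ≤ ε / 2 * X + 24 * ν ^ 2 / ε * (L ^ 2 * E) := by gcongr
      _ ≤ ε / 2 * X + 24 * ν ^ 2 / ε * (k ^ 2 * W * E) := by gcongr
      _ = _ := by ring
  have b3 : T3 ≤ 9 * C * (M + 1) * E * L + 9 * C * (E + 1) * (L * S) := by
    have c1 : S ^ 2 / (S + 1) ≤ S := by
      rw [div_le_iff₀ (by positivity)]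
      nlinarith
    calc T3 ≤ _ := (le_abs_self _).trans h3
      _ = 9 * C * L * (M + (S + 1)) * I + 9 * C * L * (S ^ 2 / (S + 1)) := by ring
      _ ≤ 9 * C * L * (M + (S + 1)) * E + 9 * C * L * S := by gcongr
      _ = _ := by ring
  have b4 : -(2 * T4) ≤ 18 * C * m * I := by linarith [neg_le_abs T4]
  have b5 : -(2 * P) ≤ 2 * N * Bp * L + 2 * N * Bp * (L * S) + 2 * N * Bp * (L * Q) := by
    linarith [neg_le_abs P]
  have b6 := est_young (A := (9 * C * (E + 1) + 2 * N * Bp) * L) (η := ε / 2) (by positivity) hS hZ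
    hκ (by positivity) h6
  have b7 : ε / 2 * Z ≤ ε / 2 * X + ε / 2 * E * W := by
    calc ε / 2 * Z ≤ ε / 2 * (X + E * W) :=
          mul_le_mul_of_nonneg_left (h7.trans (by gcongr)) (by positivity)
      _ = _ := by ring
  have b8 : κ * ((9 * C * (E + 1) + 2 * N * Bp) * L) ^ 4 / (ε / 2) ^ 3
      ≤ κ * (9 * C * (E + 1) + 2 * N * Bp) ^ 4 / (ε / 2) ^ 3 * k ^ 4 * W := by
    calc _ = κ * (9 * C * (E + 1) + 2 * N * Bp) ^ 4 / (ε / 2) ^ 3 * L ^ 4 := by ring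
      _ ≤ κ * (9 * C * (E + 1) + 2 * N * Bp) ^ 4 / (ε / 2) ^ 3 * (k ^ 4 * W) := by gcongr
      _ = _ := by ring
  have b9 : (9 * C * (M + 1) * E + 2 * N * Bp) * L ≤ (9 * C * (M + 1) * E + 2 * N * Bp) * (k * W) :=
    mul_le_mul_of_nonneg_left w1 (by positivity)
  have b10 : 2 * N * Bp * (L * Q) ≤ 2 * N * Bp * (8 * k * W) :=
    mul_le_mul_of_nonneg_left w5 (by positivity)
  linarith

theorem exists_est (c : ι → ι → ι → ℝ) : ∃ K : ℝ, 0 ≤ K ∧ ∀ {ν T E0 M0 M1 : ℝ}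
    {u v : ι → R3 → ℝ → R3} {p q : ι → R3 → ℝ → ℝ}, Pair ν c T E0 M0 M1 u p v q → ∀ ε > 0,
    ∃ B : ℝ, 0 ≤ B ∧ ∀ R r ρ : ℝ, 1 ≤ R → R ≤ r → r < ρ → ρ ≤ 2 * R → ∃ ψ : R3 → ℝ, Test ψ ∧
      (∀ x, 0 ≤ ψ x ∧ ψ x ≤ 1) ∧ (∀ x, ‖x‖ ≤ r → ψ x = 1) ∧ ∀ t ∈ Icc 0 T, ∃ e : ℝ,
        HasDerivWithinAt (fun s => ∫ x, den (dif u v s) x * ψ x) e (Icc 0 T) t ∧
        e + 2 * ν * ∫ x in ball 0 r, dis (dif u v t) x ≤ ε * (∫ x in ball 0 ρ, dis (dif u v t) x)
          + K * M1 * (∫ x, den (dif u v t) x) + B * R ^ 3 / (ρ - r) ^ 4 := by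
  obtain ⟨k, hk, hcut⟩ := exists_cut
  obtain ⟨K4, hK4, hL4⟩ := exists_L4 ι
  have hC : 0 ≤ ∑ a, ∑ b, ∑ d, |c a b d| := by positivity
  refine ⟨18 * ∑ a, ∑ b, ∑ d, |c a b d|, by positivity, ?_⟩
  intro ν T E0 M0 M1 u v p q h ε hε
  obtain ⟨Bp, hBp, hP⟩ := h.press_est
  have hν := h.hν
  have hE : 0 ≤ 4 * E0 := (integral_nonneg (est_den_nonneg _)).trans
    (h.integrable_den (left_mem_Icc.2 h.hT.le)).2
  set C := ∑ a, ∑ b, ∑ d, |c a b d| with hCd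
  refine ⟨256 * (24 * ν ^ 2 / ε * (4 * E0) * k ^ 2
    + (9 * C * (|M0| + 1) * (4 * E0) + 2 * Fintype.card ι * Bp) * k
    + 16 * Fintype.card ι * Bp * k + ε / 2 * (4 * E0)
    + K4 ^ 2 * (4 * E0) * (9 * C * (4 * E0 + 1) + 2 * Fintype.card ι * Bp) ^ 4 / (ε / 2) ^ 3
      * k ^ 4), by positivity, fun R r ρ hR hr hrρ hρ => ?_⟩
  obtain ⟨d, hd⟩ : ∃ d, ρ - r = 4 * d := ⟨(ρ - r) / 4, by ring⟩
  have hd0 : 0 < d := by linarith
  obtain ⟨ψ, hψ, hψ1, hψ2, hψ3, hψ4⟩ := hcut r d hd0 (by linarith)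
  have hf0 : ∀ x : R3, r + d ≤ ‖x‖ → fderiv ℝ ψ x = 0 := fun x hx =>
    IsLocalMin.fderiv_eq_zero (Eventually.of_forall fun y => by rw [hψ3 x hx]; exact (hψ1 y).1)
  have hp0 : ∀ s, r + d ≤ s → ∀ j (x : R3), s ≤ ‖x‖ → pd j ψ x = 0 := fun s hs j x hx => by
    rw [pd, hf0 x (hs.trans hx)]
    rfl
  have hL : ∀ j x, |pd j ψ x| ≤ k / d := fun j x => (abs_pd_le ψ j x).trans (hψ4 x)
  refine ⟨ψ, hψ, hψ1, hψ2, fun t ht => ⟨_, h.local_energy hψ ht, ?_⟩⟩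
  obtain ⟨hD, hI⟩ := h.integrable_den ht
  have hw : ∀ a i, ContDiff ℝ ∞ fun x => dif u v t a x i := fun a i => (h.jw a i).slice ht
  have hG : Continuous (dis (dif u v t)) := (h.jdis.slice ht).continuous
  have hDc : Continuous (den (dif u v t)) :=
    continuous_finsetSum _ fun a _ => continuous_finsetSum _ fun i _ => (hw a i).continuous.pow 2
  have hI0 : 0 ≤ ∫ x, den (dif u v t) x := integral_nonneg (est_den_nonneg _)
  have hY : 0 ≤ ∫ x in ball 0 (r + d + d), den (dif u v t) x ^ 2 :=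
    integral_nonneg fun x => sq_nonneg _
  have hX : ∫ x in ball 0 (r + d + d + d), dis (dif u v t) x ≤ ∫ x in ball 0 ρ, dis (dif u v t) x :=
    setIntegral_mono_set (est_intOn hG ρ) (Eventually.of_forall (est_dis_nonneg _))
      (ball_subset_ball (by linarith)).eventuallyLE
  have hZ : 0 ≤ (∫ x in ball 0 (r + d + d + d), dis (dif u v t) x)
      + (∫ x, den (dif u v t) x) / d ^ 2 :=
    add_nonneg (integral_nonneg (est_dis_nonneg _)) (by positivity)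
  have h3 := est_T3 c hD hDc hL (hp0 (r + d + d) (by linarith)) (z := fun b x => v b x t)
    (abs_nonneg M0) (σ := √(∫ x in ball 0 (r + d + d), den (dif u v t) x ^ 2) + 1)
    (by positivity) fun b x j => by
      have e : v b x t j = u b x t j + dif u v t b x j := by simp [dif]
      rw [e]
      exact (abs_add_le _ _).trans (add_le_add_left ((h.b0 t ht b x j).trans (le_abs_self _)) _)
  have h5 : |∑ a, ((∑ i, ∫ x, pd i (fun y => q a y t) x * (ψ x * dif u v t a x i))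
      - ∑ i, ∫ x, pd i (fun y => p a y t) x * (ψ x * dif u v t a x i))|
      ≤ Fintype.card ι * (Bp * (k / d) * (√(∫ x in ball 0 (r + d + d), den (dif u v t) x ^ 2) + 1
        + (r + d) ^ (3 / 2 : ℝ) / d ^ 3)) := by
    refine (Finset.abs_sum_le_sum_abs _ _).trans ((Finset.sum_le_sum fun a _ =>
      hP (r + d) d (k / d) ψ (by linarith) hd0 hψ hf0 hψ4 t ht a).trans (le_of_eq ?_))
    rw [Finset.sum_const, Finset.card_univ, nsmul_eq_mul]
  have h6 : √(∫ x in ball 0 (r + d + d), den (dif u v t) x ^ 2) ^ 4 ≤ K4 ^ 2 * (4 * E0) *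
      ((∫ x in ball 0 (r + d + d + d), dis (dif u v t) x)
        + (∫ x, den (dif u v t) x) / d ^ 2) ^ 3 := by
    have a1 := pow_le_pow_left₀ hY (hL4 (dif u v t) (r + d + d) d hd0 (by linarith) hw hD) 2
    rw [mul_pow, mul_pow, Real.sq_sqrt hI0, ← Real.rpow_natCast (_ ^ (3 / 2 : ℝ)),
      ← Real.rpow_mul hZ, show (3 / 2 : ℝ) * (2 : ℕ) = (3 : ℕ) by norm_num, Real.rpow_natCast] at a1
    rw [show (4 : ℕ) = 2 * 2 from rfl, pow_mul, Real.sq_sqrt hY]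
    exact a1.trans (by gcongr)
  obtain ⟨w1, w2, w4, w0, w5⟩ := est_radii (ρ := r + d) hR hd0 (by linarith) (by linarith)
    (by linarith) hk
  rw [← Real.sq_sqrt hY, Real.sqrt_sq (Real.sqrt_nonneg _)] at h3
  have key := est_arith hν hε hC (Nat.cast_nonneg _) hBp hE (abs_nonneg M0) (by positivity)
    (by positivity) (Real.sqrt_nonneg _) hZ hI
    (est_T1 hG (est_dis_nonneg _) hψ (fun x => (hψ1 x).1) hψ2)
    (est_T2 hD hG hL (hp0 ρ (by linarith)) (by positivity)) h3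
    (est_T4 c hD hψ1 (g := fun d i j x => pd j (fun y => u d y t i) x)
      fun d i j x => h.b1 t ht d x i j) h5 h6
    (add_le_add hX (by rw [← div_eq_mul_one_div]; gcongr)) w1 w2 w4 w0 w5
  refine key.trans (le_of_eq ?_)
  rw [hd]
  field_simp
  ring

end

end Pool.Agent.Work.MP_6bf1e5_an.Ens
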