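import Pool.Agent.Work.MP_6bf1e5_an.Ens.Newton
import Pool.Agent.Work.MP_6bf1e5_an.Ens.Gauss

/-!
Off-diagonal bound. Write `1/|ξ|² = π² ∫ t in Ioi 0, t^(-2) exp (-π²|ξ|²/t)`, i.e.
`ξ_i ξ_j/|ξ|² = π^(1/2) ∫ t^(-1/2) ξ_i ξ_j gauss t ξ dt`; Fubini (the integrand is dominated since `𝓕 φ` is integrable);
`ev (m · 𝓕 φ) x = ∫ ev m (x - y) φ y dy` for integrable `m`; `ev_gauss2`; finally
`∫ t^(1/2) (1 + t|z|²) exp (-t|z|²) dt ≤ C |z|^(-3)`.
-/

open scoped ContDiff ENNReal FourierTransform Topology ComplexConjugate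
open Set MeasureTheory Filter Polynomial Metric

namespace Pool.Agent.Work.MP_6bf1e5_an.Ens

noncomputable section

theorem kernel_sub {a : ℝ} (ha : 0 < a) :
    IntegrableOn (fun t : ℝ => (t ^ 2)⁻¹ * Real.exp (-(a / t))) (Ioi 0) ∧
      ∫ t in Ioi (0 : ℝ), (t ^ 2)⁻¹ * Real.exp (-(a / t)) = a⁻¹ := by
  have e : EqOn (fun x : ℝ => (|(-1 : ℝ)| * x ^ ((-1 : ℝ) - 1)) • Real.exp (-a * x ^ (-1 : ℝ)))
      (fun t : ℝ => (t ^ 2)⁻¹ * Real.exp (-(a / t))) (Ioi 0) := fun t ht => by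
    have ht' : (0 : ℝ) < t := ht
    simp only [smul_eq_mul]
    rw [Real.rpow_neg_one, show (-1 : ℝ) - 1 = -2 by norm_num, Real.rpow_neg ht'.le, Real.rpow_two,
      abs_neg, abs_one, one_mul, neg_mul, div_eq_mul_inv]
  constructor
  · exact ((integrableOn_Ioi_comp_rpow_iff (fun y => Real.exp (-a * y)) (p := -1) (by norm_num)).2
      (integrableOn_exp_mul_Ioi (neg_lt_zero.2 ha) 0)).congr_fun e measurableSet_Ioi
  · rw [← setIntegral_congr_fun measurableSet_Ioi e,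
      integral_comp_rpow_Ioi (fun y => Real.exp (-a * y)) (p := -1) (by norm_num),
      integral_exp_mul_Ioi (neg_lt_zero.2 ha)]
    simp

/-- The symbol at scale `t`. -/
def kernelS (i j : Fin 3) (t : ℝ) (ξ : R3) : ℝ :=
  Real.pi ^ 2 * (ξ i * ξ j) * ((t ^ 2)⁻¹ * Real.exp (-(Real.pi ^ 2 * ‖ξ‖ ^ 2 / t)))

theorem kernel_coord (z : R3) (i j : Fin 3) : |z i * z j| ≤ ‖z‖ ^ 2 := by
  rw [abs_mul, sq]
  exact mul_le_mul (PiLp.norm_apply_le z i) (PiLp.norm_apply_le z j) (abs_nonneg _) (norm_nonneg _)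

theorem kernel_fub {f : R3 → ℂ} (hf : Integrable f) (i j : Fin 3) :
    ∫ ξ : R3, ((ξ i * ξ j / ‖ξ‖ ^ 2 : ℝ) : ℂ) * f ξ =
      ∫ t in Ioi (0 : ℝ), ∫ ξ : R3, (kernelS i j t ξ : ℂ) * f ξ := by
  have hne : ∀ᵐ ξ : R3, ξ ≠ 0 := compl_mem_ae_iff.2 (measure_singleton 0)
  have hp : ∀ ξ : R3, ξ ≠ 0 → 0 < Real.pi ^ 2 * ‖ξ‖ ^ 2 := fun ξ h => by
    have := norm_pos_iff.2 h
    have := Real.pi_pos
    positivity
  have hm : AEStronglyMeasurable (fun p : ℝ × R3 => (kernelS i j p.1 p.2 : ℂ) * f p.2)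
      ((volume.restrict (Ioi 0)).prod volume) := by
    refine AEStronglyMeasurable.mul (Measurable.aestronglyMeasurable ?_) hf.1.comp_snd
    unfold kernelS
    fun_prop
  have hi : Integrable (fun p : ℝ × R3 => (kernelS i j p.1 p.2 : ℂ) * f p.2)
      ((volume.restrict (Ioi 0)).prod volume) := by
    refine (integrable_prod_iff' hm).2 ⟨?_, hf.norm.mono' hm.prod_swap.norm.integral_prod_right' ?_⟩
    · filter_upwards [hne] with ξ h
      exact ((kernel_sub (hp ξ h)).1.const_mul _).ofReal.mul_const _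
    · filter_upwards [hne] with ξ h
      have h0 := norm_pos_iff.2 h
      have h1 : ∀ t : ℝ, ‖(kernelS i j t ξ : ℂ) * f ξ‖ = Real.pi ^ 2 * |ξ i * ξ j| * ‖f ξ‖ *
          ((t ^ 2)⁻¹ * Real.exp (-(Real.pi ^ 2 * ‖ξ‖ ^ 2 / t))) := fun t => by
        rw [norm_mul, Complex.norm_real, Real.norm_eq_abs, kernelS, abs_mul, abs_mul,
          abs_of_nonneg (sq_nonneg _), abs_of_nonneg (a := _ * Real.exp _) (by positivity)]
        ring
      simp only [h1]
      rw [integral_const_mul, (kernel_sub (hp ξ h)).2, Real.norm_of_nonneg (by positivity),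
        mul_right_comm, ← div_eq_mul_inv, mul_div_mul_left _ _ (by positivity)]
      exact mul_le_of_le_one_left (norm_nonneg _)
        ((div_le_one (by positivity)).2 (kernel_coord ξ i j))
  rw [integral_integral_swap hi]
  refine integral_congr_ae ?_
  filter_upwards [hne] with ξ h
  rw [integral_mul_const, integral_complex_ofReal]
  unfold kernelS
  rw [integral_const_mul, (kernel_sub (hp ξ h)).2, ← div_eq_mul_inv,
    mul_div_mul_left _ _ (by positivity)]

theorem kernel_int {g : R3 → ℂ} (hg : Integrable g) (x : R3) :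
    Integrable fun ξ : R3 => Real.fourierChar (inner ℝ ξ x) • g ξ := by
  simpa using (Real.fourierIntegral_convergent_iff (-x)).2 hg

theorem kernel_conv {g ψ : R3 → ℂ} (hg : Integrable g) (hψ : Integrable ψ) (x : R3) :
    ev (fun ξ => g ξ * 𝓕 ψ ξ) x = ∫ y, ψ y * ev g (x - y) := by
  have h := VectorFourier.integral_fourierIntegral_smul_eq_flip (L := innerₗ R3)
    Real.continuous_fourierChar (innerSL ℝ).continuous₂ hψ (kernel_int hg x)
  rw [ev, Real.fourierInv_eq]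
  refine (integral_congr_ae (ae_of_all _ fun ξ => ?_)).trans
    (h.trans (integral_congr_ae (ae_of_all _ fun y => ?_)))
  · change _ = 𝓕 ψ ξ • _
    simp only [Circle.smul_def, smul_eq_mul]
    ring
  · simp only [smul_eq_mul, ev, Real.fourierInv_eq, VectorFourier.fourierIntegral]
    congr 2
    funext ξ
    rw [smul_smul, ← AddChar.map_add_eq_mul, inner_sub_right, LinearMap.flip_apply, innerₗ_apply_apply,
      real_inner_comm ξ y, neg_add_eq_sub]

theorem kernelS_eq (i j : Fin 3) {t : ℝ} (ht : 0 < t) (ξ : R3) : kernelS i j t ξ =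
    Real.pi ^ 2 * (t ^ 2)⁻¹ / (Real.pi / t) ^ (3 / 2 : ℝ) * (ξ i * ξ j * gauss t ξ) := by
  have := Real.pi_pos
  have : 0 < (Real.pi / t) ^ (3 / 2 : ℝ) := by positivity
  rw [kernelS, gauss]
  field_simp

theorem kernelS_int (i j : Fin 3) {t : ℝ} (ht : 0 < t) :
    Integrable fun ξ => (kernelS i j t ξ : ℂ) := by
  simp only [kernelS_eq i j ht]
  refine (Integrable.const_mul ((integrable_gauss ht 2).mono' ?_ (ae_of_all _ fun ξ => ?_)) _).ofReal
  · refine Continuous.aestronglyMeasurable ?_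
    unfold gauss
    fun_prop
  · have := Real.pi_pos
    have h : 0 ≤ gauss t ξ := by
      unfold gauss
      positivity
    rw [Real.norm_eq_abs, abs_mul, abs_of_nonneg h]
    exact mul_le_mul_of_nonneg_right (kernel_coord ξ i j) h

theorem kernel_phys (i j : Fin 3) {t d : ℝ} (ht : 0 < t) (hd : 0 < d) {z : R3} (hz : d ≤ ‖z‖) :
    ‖ev (fun ξ => (kernelS i j t ξ : ℂ)) z‖ ≤
      2 * (t ^ (3 / 2 - 1 : ℝ) * Real.exp (-(d ^ 2 / 2 * t))) := by
  have hπ := Real.pi_pos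
  have hA : 0 < (Real.pi / t) ^ (3 / 2 : ℝ) := by positivity
  have hr : 0 < t ^ (3 / 2 - 1 : ℝ) := by positivity
  have h1 : 1 ≤ (Real.pi / t) ^ (3 / 2 : ℝ) * (t ^ (3 / 2 - 1 : ℝ) * t) := by
    rw [← Real.rpow_add_one ht.ne', sub_add_cancel, ← Real.mul_rpow (by positivity) ht.le,
      div_mul_cancel₀ _ ht.ne']
    exact Real.one_le_rpow (by linarith [Real.pi_gt_three]) (by norm_num)
  have e : (fun ξ => (kernelS i j t ξ : ℂ)) = fun ξ =>
      ((-(4 * t ^ 2 * (Real.pi / t) ^ (3 / 2 : ℝ))⁻¹ : ℝ) : ℂ) *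
        ((2 * Real.pi * Complex.I) ^ 2 * ((ξ i * ξ j * gauss t ξ : ℝ) : ℂ)) := by
    funext ξ
    have e1 : (2 * Real.pi * Complex.I : ℂ) ^ 2 = ((-(4 * Real.pi ^ 2) : ℝ) : ℂ) := by
      rw [mul_pow, Complex.I_sq]
      push_cast
      ring
    rw [e1, kernelS_eq i j ht, ← Complex.ofReal_mul, ← Complex.ofReal_mul]
    congr 1
    field_simp
  rw [e, ev_const_mul, ev_gauss2 ht, ← Complex.ofReal_mul, Complex.norm_real, Real.norm_eq_abs,
    abs_mul, abs_neg, abs_of_pos (by positivity), abs_mul, abs_of_pos (Real.exp_pos _)]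
  generalize (Real.pi / t) ^ (3 / 2 : ℝ) = A at hA h1
  generalize t ^ (3 / 2 - 1 : ℝ) = r at hr h1
  have h2 : |4 * t ^ 2 * z i * z j - if i = j then 2 * t else 0| ≤
      4 * t * (t * ‖z‖ ^ 2 + 1 / 2) := by
    refine (abs_sub _ _).trans ?_
    have k1 : |4 * t ^ 2 * z i * z j| ≤ 4 * t ^ 2 * ‖z‖ ^ 2 := by
      rw [mul_assoc, abs_mul, abs_of_pos (by positivity)]
      exact mul_le_mul_of_nonneg_left (kernel_coord z i j) (by positivity)
    have k2 : |if i = j then 2 * t else 0| ≤ 2 * t := by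
      split_ifs
      · exact (abs_of_pos (by positivity)).le
      · rw [abs_zero]
        positivity
    linarith
  have h3 : (t * ‖z‖ ^ 2 + 1 / 2) * Real.exp (-(t * ‖z‖ ^ 2)) ≤
      2 * Real.exp (-(d ^ 2 / 2 * t)) := by
    have k1 := Real.add_one_le_exp (t * ‖z‖ ^ 2 / 2)
    have k2 : Real.exp (t * ‖z‖ ^ 2 / 2) * Real.exp (-(t * ‖z‖ ^ 2)) ≤
        Real.exp (-(d ^ 2 / 2 * t)) := by
      rw [← Real.exp_add]
      have := mul_le_mul_of_nonneg_left (pow_le_pow_left₀ hd.le hz 2) ht.le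
      exact Real.exp_le_exp.2 (by linarith)
    have k3 := mul_le_mul_of_nonneg_right k1 (Real.exp_pos (-(t * ‖z‖ ^ 2))).le
    have k4 := Real.exp_pos (-(t * ‖z‖ ^ 2))
    linarith
  have h4 : (4 * t ^ 2 * A)⁻¹ * (4 * t) ≤ r := by
    rw [inv_mul_le_iff₀ (by positivity)]
    nlinarith
  calc _ ≤ (4 * t ^ 2 * A)⁻¹ * (4 * t * (t * ‖z‖ ^ 2 + 1 / 2) * Real.exp (-(t * ‖z‖ ^ 2))) := by
        gcongr
    _ = (4 * t ^ 2 * A)⁻¹ * (4 * t) * ((t * ‖z‖ ^ 2 + 1 / 2) * Real.exp (-(t * ‖z‖ ^ 2))) := by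
        ring
    _ ≤ r * (2 * Real.exp (-(d ^ 2 / 2 * t))) := mul_le_mul h4 h3 (by positivity) hr.le
    _ = _ := by ring

theorem exists_kernel_bound : ∃ K : ℝ, 0 ≤ K ∧ ∀ φ, Test φ → ∀ (d : ℝ) (x : R3), 0 < d →
    (∀ y, φ y ≠ 0 → d ≤ ‖x - y‖) → ∀ i j, |pd i (pd j (nw φ)) x| ≤ K / d ^ 3 * ∫ y, |φ y| := by
  refine ⟨2 * (2 ^ (3 / 2 : ℝ) * Real.Gamma (3 / 2)), by positivity, fun φ hφ d x hd h i j => ?_⟩
  have h1 : Integrable φ := hφ.1.continuous.integrable_of_hasCompactSupport hφ.2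
  have h2 : Integrable fun y => (φ y : ℂ) := h1.ofReal
  have h3 : Integrable (𝓕 fun y => (φ y : ℂ)) := by
    have k : Continuous (𝓕 fun y => (φ y : ℂ)) := VectorFourier.fourierIntegral_continuous
      Real.continuous_fourierChar (innerSL ℝ).continuous₂ h2
    refine (integrable_norm_iff k.aestronglyMeasurable).1 ?_
    simpa using integrable_fourier_test hφ 0
  have h4 : ∀ g : R3 → ℂ, ev (fun ξ => g ξ * 𝓕 (fun y => (φ y : ℂ)) ξ) x =
      ∫ ξ : R3, g ξ * (Real.fourierChar (inner ℝ ξ x) • 𝓕 (fun y => (φ y : ℂ)) ξ) := fun g => by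
    simp only [ev, Real.fourierInv_eq, mul_smul_comm]
  have hr : 0 < d ^ 2 / 2 := by positivity
  have h5 : IntegrableOn (fun t : ℝ => t ^ (3 / 2 - 1 : ℝ) * Real.exp (-(d ^ 2 / 2 * t))) (Ioi 0) := by
    simpa only [Real.rpow_one, neg_mul] using
      integrableOn_rpow_mul_exp_neg_mul_rpow (s := 3 / 2 - 1) (p := 1) (by norm_num) one_pos hr
  rw [pd_pd_nw hφ]
  refine (Complex.abs_re_le_norm _).trans ?_
  rw [h4, kernel_fub (kernel_int h3 x)]
  refine (norm_integral_le_of_norm_le ((h5.const_mul 2).mul_const (∫ y, |φ y|)) ?_).trans_eq ?_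
  · refine ae_restrict_of_forall_mem measurableSet_Ioi fun t ht => ?_
    rw [← h4, kernel_conv (kernelS_int i j ht) h2, ← integral_const_mul]
    refine norm_integral_le_of_norm_le (h1.abs.const_mul _) (ae_of_all _ fun y => ?_)
    rw [norm_mul, Complex.norm_real, Real.norm_eq_abs, mul_comm]
    by_cases hy : φ y = 0
    · simp [hy]
    · exact mul_le_mul_of_nonneg_right (kernel_phys i j ht hd (h y hy)) (abs_nonneg _)
  · rw [integral_mul_const, integral_const_mul,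
      Real.integral_rpow_mul_exp_neg_mul_Ioi (by norm_num) hr, one_div_div,
      Real.div_rpow two_pos.le (sq_nonneg d), ← Real.rpow_natCast d 2, ← Real.rpow_mul hd.le,
      show ((2 : ℕ) : ℝ) * (3 / 2) = (3 : ℕ) by norm_num, Real.rpow_natCast]
    ring

theorem kernel_cs {μ : Measure R3} {f g : R3 → ℝ} (hf : Integrable (fun x => f x ^ 2) μ)
    (hg : Integrable (fun x => g x ^ 2) μ) (h : Integrable (fun x => f x * g x) μ) :
    |∫ x, f x * g x ∂μ| ≤ √(∫ x, f x ^ 2 ∂μ) * √(∫ x, g x ^ 2 ∂μ) := by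
  have h1 := discrim_le_zero (a := ∫ x, f x ^ 2 ∂μ) (b := 2 * ∫ x, f x * g x ∂μ)
    (c := ∫ x, g x ^ 2 ∂μ) fun l => by
      have k1 : 0 ≤ ∫ x, (l * l * f x ^ 2 + 2 * l * (f x * g x) + g x ^ 2) ∂μ :=
        integral_nonneg fun x => by
          simp only [Pi.zero_apply]
          nlinarith [sq_nonneg (l * f x + g x)]
      have k2 : Integrable (fun x => l * l * f x ^ 2 + 2 * l * (f x * g x)) μ :=
        (hf.const_mul _).add (h.const_mul _)
      rw [integral_add k2 hg, integral_add (hf.const_mul _) (h.const_mul _), integral_const_mul,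
        integral_const_mul] at k1
      linarith
  rw [← Real.sqrt_mul (integral_nonneg fun x => sq_nonneg _)]
  refine Real.abs_le_sqrt ?_
  rw [discrim] at h1
  linarith

theorem exists_hess_bound : ∃ K : ℝ, 0 ≤ K ∧ ∀ (F g : R3 → ℝ) (r d : ℝ), Test g → Continuous F →
    Integrable F → 0 < d → (∀ x, r ≤ ‖x‖ → g x = 0) → ∀ i j,
    |∫ x, F x * pd i (pd j (nw g)) x| ≤ √(∫ x in ball 0 (r + d), F x ^ 2) * √(∫ x, g x ^ 2)
      + K / d ^ 3 * (∫ x, |g x|) * ∫ x, |F x| := by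
  obtain ⟨K, hK, h⟩ := exists_kernel_bound
  refine ⟨K, hK, fun F g r d hg hF hi hd h0 i j => ?_⟩
  have p1 : 0 ≤ ∫ x, |g x| := integral_nonneg fun x => abs_nonneg _
  have p2 : 0 ≤ ∫ x, |F x| := integral_nonneg fun x => abs_nonneg _
  by_cases h1 : Integrable fun x => F x * pd i (pd j (nw g)) x
  swap
  · rw [integral_undef h1, abs_zero]
    positivity
  obtain ⟨h2, h3⟩ := integral_hess_nw_le hg i j
  rw [← integral_add_compl (measurableSet_ball (x := (0 : R3)) (ε := r + d)) h1]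
  refine (abs_add_le _ _).trans (add_le_add ?_ ?_)
  · have k1 : IntegrableOn (fun x => F x ^ 2) (ball 0 (r + d)) :=
      ((hF.pow 2).continuousOn.integrableOn_compact (isCompact_closedBall 0 (r + d))).mono_set
        ball_subset_closedBall
    refine (kernel_cs k1 h2.integrableOn h1.integrableOn).trans
      (mul_le_mul_of_nonneg_left (Real.sqrt_le_sqrt (le_trans ?_ h3)) (Real.sqrt_nonneg _))
    exact setIntegral_le_integral h2 (ae_of_all _ fun x => sq_nonneg _)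
  · rw [← integral_const_mul]
    refine le_trans ?_ (setIntegral_le_integral (s := (ball 0 (r + d))ᶜ) (hi.abs.const_mul _)
      (ae_of_all _ fun x => by simp only [Pi.zero_apply]; positivity))
    rw [← Real.norm_eq_abs]
    refine norm_integral_le_of_norm_le (hi.abs.const_mul _).integrableOn
      (ae_restrict_of_forall_mem measurableSet_ball.compl fun x hx => ?_)
    rw [Real.norm_eq_abs, abs_mul, mul_comm]
    refine mul_le_mul_of_nonneg_right (h g hg d x hd (fun y hy => ?_) i j) (abs_nonneg _)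
    have k1 : ‖y‖ < r := not_le.1 fun k => hy (h0 y k)
    have k2 : r + d ≤ ‖x‖ := not_lt.1 fun k => hx (mem_ball_zero_iff.2 k)
    linarith [norm_sub_norm_le x y]

end

end Pool.Agent.Work.MP_6bf1e5_an.Ens
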