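import Pool.Agent.Work.MP_6bf1e5_an.Ens.PressA

/-!
The weak pressure formula. Let `χ = nw (div Φ)` and `Ψ` from `exists_potentials`,
so `Φ i = pd i χ + ∑ j, pd j (Ψ i j)`. With `θ n` from `exists_cut_seq` put `Φn i = ∑ j, pd j (θ n Ψ i j)`
(test field, divergence free, so the pressure term of `CSol.weak` vanishes) and
`Ξn i = Φ i - Φn i - pd i (θ n χ) = ∑ j, pd j ((1 - θ n) Ψ i j) + pd i ((1 - θ n) χ)`. Apply `CSol.weak` to `Φ` and `Φn`, subtract,
use `CSol.integral_grad` for `θ n χ` and its Laplacian: `A(t) = ∑ ∫ pd i q Φ i` and `B n (t) = ∑ ∫ flux pd j (pd i (θ n χ))` are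
continuous, `B n → B` uniformly, and the integral of `A - B n` over any time interval tends to `0`. Hence `A = B`.
-/

open scoped ContDiff ENNReal FourierTransform Topology ComplexConjugate
open Set MeasureTheory Filter Polynomial Metric

namespace Pool.Agent.Work.MP_6bf1e5_an.Ens

noncomputable section

variable {ι : Type} [Fintype ι]

theorem press_grad {ν : ℝ} {c : ι → ι → ι → ℝ} {v0 : ι → R3 → R3} {v : ι → R3 → ℝ → R3}
    {q : ι → R3 → ℝ → ℝ} {I : Set ℝ} (h : CSol ν c v0 I v q) {Θ Ξ : Fin 3 → R3 → ℝ} {χ : R3 → ℝ}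
    (hχ : Test χ) (hΞ : ∀ i, Test (Ξ i)) (e : ∀ i x, Θ i x = pd i χ x + Ξ i x) (a : ι) {t : ℝ}
    (ht : t ∈ I) : ∑ i, ∫ x, v a x t i * Θ i x = ∑ i, ∫ x, v a x t i * Ξ i x := by
  have hs := fun i => ((h.ju a i).slice ht).continuous
  have e1 : ∀ i, ∫ x, v a x t i * Θ i x
      = (∫ x, v a x t i * pd i χ x) + ∫ x, v a x t i * Ξ i x := fun i => by
    rw [← integral_add ((hχ.pd i).integrable_mul (hs i)) ((hΞ i).integrable_mul (hs i))]
    simp only [e, mul_add]
  simp only [e1]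
  rw [Finset.sum_add_distrib, h.integral_grad hχ a ht, zero_add]

theorem press_pd_add {f g : R3 → ℝ} (hf : ContDiff ℝ ∞ f) (hg : ContDiff ℝ ∞ g) (j : Fin 3) :
    pd j (fun y => f y + g y) = fun x => pd j f x + pd j g x :=
  funext fun x => pd_add (hf.differentiable (by simp) x) (hg.differentiable (by simp) x) j

theorem press_lap {f g Θ : R3 → ℝ} (hf : ContDiff ℝ ∞ f) (hg : ContDiff ℝ ∞ g) (i : Fin 3)
    (e : ∀ x, Θ x = pd i f x + g x) (x : R3) : ∑ j, pd j (pd j Θ) x
      = pd i (fun y => ∑ j, pd j (pd j f) y) x + ∑ j, pd j (pd j g) x := by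
  obtain rfl : Θ = fun x => pd i f x + g x := funext e
  rw [pd_sum _ fun j _ => (contDiff_pd (contDiff_pd hf j) j).differentiable (by simp) x,
    ← Finset.sum_add_distrib]
  refine Finset.sum_congr rfl fun j _ => ?_
  rw [press_pd_add (contDiff_pd hf i) hg j,
    press_pd_add (contDiff_pd (contDiff_pd hf i) j) (contDiff_pd hg j) j]
  have e1 : pd j (pd i f) = pd i (pd j f) := funext (pd_comm hf j i)
  rw [e1]
  exact congrArg (· + pd j (pd j g) x) (pd_comm (contDiff_pd hf j) j i x)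

theorem press_split {θ f : R3 → ℝ} (hθ : ContDiff ℝ ∞ θ) (hf : ContDiff ℝ ∞ f) (k : Fin 3) (x : R3) :
    pd k f x = pd k (fun y => θ y * f y) x + pd k (fun y => (1 - θ y) * f y) x := by
  rw [← pd_add ((hθ.mul hf).differentiable (by simp) x)
    (((contDiff_const.sub hθ).mul hf).differentiable (by simp) x)]
  congr 1
  funext y
  ring

theorem press_anti {f : R3 → ℝ} (hf : ContDiff ℝ ∞ f) {P : Fin 3 → Fin 3 → R3 → ℝ}
    (hP : ∀ i k, Test (P i k)) (ha : ∀ i k x, P i k x = -P k i x) :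
    ∑ i, ∫ x, pd i f x * ∑ k, pd k (P i k) x = 0 := by
  have e : ∀ i, ∫ x, pd i f x * ∑ k, pd k (P i k) x
      = -∑ k, ∫ x, pd k (pd i f) x * P i k x := fun i => by
    simp only [Finset.mul_sum]
    rw [integral_finsetSum _ fun k _ => ((hP i k).pd k).integrable_mul (contDiff_pd hf i).continuous,
      ← Finset.sum_neg_distrib]
    exact Finset.sum_congr rfl fun k _ => by
      rw [integral_pd_mul (contDiff_pd hf i) (hP i k) k, neg_neg]
  have e2 : ∑ i, ∑ k, ∫ x, pd k (pd i f) x * P i k x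
      = -∑ i, ∑ k, ∫ x, pd k (pd i f) x * P i k x := by
    conv_lhs => rw [Finset.sum_comm]
    simp only [← Finset.sum_neg_distrib, ← integral_neg]
    refine Finset.sum_congr rfl fun i _ => Finset.sum_congr rfl fun k _ => ?_
    congr 1
    funext x
    rw [ha k i x, pd_comm hf i k x, mul_neg]
  simp only [e]
  rw [Finset.sum_neg_distrib]
  linarith

theorem press_hess {χ : R3 → ℝ} (hχ : Nice χ) (i j : Fin 3) :
    ∃ C, ∀ x, ‖pd i (pd j χ) x‖ ≤ C := by
  obtain ⟨C, hC⟩ := hχ.bdd 2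
  refine ⟨C, fun x => ?_⟩
  rw [← norm_iteratedFDeriv_zero (𝕜 := ℝ)]
  exact (norm_iteratedFDeriv_pd_le (contDiff_pd hχ.smooth j) i 0 x).trans
    ((norm_iteratedFDeriv_pd_le hχ.smooth j 1 x).trans (hC x))

theorem CSol.pressure {ν T E0 : ℝ} {c : ι → ι → ι → ℝ} {v0 : ι → R3 → R3} {v : ι → R3 → ℝ → R3}
    {q : ι → R3 → ℝ → ℝ} (h : CSol ν c v0 (Icc 0 T) v q) (hT : 0 < T)
    (iv : ∀ t ∈ Icc 0 T, Integrable (den fun a x => v a x t))
    (ev : ∀ t ∈ Icc 0 T, ∫ x, den (fun a x => v a x t) x ≤ E0) {Φ : Fin 3 → R3 → ℝ}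
    (hΦ : ∀ i, Test (Φ i)) (a : ι) {t : ℝ} (ht : t ∈ Icc 0 T) :
    ∑ i, ∫ x, pd i (fun y => q a y t) x * Φ i x = ∑ i, ∑ j, ∫ x,
      flux c (fun b y => v b y t) a i j x * pd i (pd j (nw fun y => ∑ k, pd k (Φ k) y)) x := by
  obtain ⟨hχ, Ψ, hΨ, hanti, hdec⟩ := exists_potentials hΦ
  set χ : R3 → ℝ := nw fun y => ∑ k, pd k (Φ k) y
  obtain ⟨θ, hθ, hS⟩ := press_cut
  obtain ⟨K, hK, hF⟩ := exists_flux_le c
  obtain ⟨R, hR⟩ : ∃ R : Fin 3 → ℕ → R3 → ℝ,
      R = fun i n x => ∑ k, pd k (fun y => (1 - θ n y) * Ψ i k y) x := ⟨_, rfl⟩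
  obtain ⟨Ξ, hΞ⟩ : ∃ Ξ : Fin 3 → ℕ → R3 → ℝ,
      Ξ = fun i n x => pd i (fun y => (1 - θ n y) * χ y) x + R i n x := ⟨_, rfl⟩
  obtain ⟨Θ, hΘ⟩ : ∃ Θ : ℕ → Fin 3 → R3 → ℝ,
      Θ = fun n i x => Φ i x - ∑ k, pd k (fun y => θ n y * Ψ i k y) x := ⟨_, rfl⟩
  have sR : ∀ i, press_Small (R i) := fun i => by
    rw [hR]
    exact press_Small.sum fun k => (hS _ (hΨ i k)).pd k
  have sΞ : ∀ i, press_Small (Ξ i) := fun i => by
    rw [hΞ]
    exact ((hS _ hχ).pd i).add (sR i)
  have tP : ∀ n i k, Test fun y => θ n y * Ψ i k y := fun n i k => (hθ n).mul (hΨ i k).smooth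
  have tP' : ∀ n i, Test fun x => ∑ k, pd k (fun y => θ n y * Ψ i k y) x := fun n i =>
    Test.sum _ fun k _ => (tP n i k).pd k
  have tχ : ∀ n, Test fun y => θ n y * χ y := fun n => (hθ n).mul hχ.smooth
  have tΘ : ∀ n i, Test (Θ n i) := fun n i => by
    rw [hΘ]
    exact (hΦ i).sub (tP' n i)
  have e1 : ∀ n i x, Θ n i x = pd i χ x + R i n x := fun n i x => by
    simp only [hΘ, hR]
    rw [hdec i x, Finset.sum_congr rfl fun k _ => press_split (hθ n).1 (hΨ i k).smooth k x,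
      Finset.sum_add_distrib]
    ring
  have e2 : ∀ n i x, Θ n i x = pd i (fun y => θ n y * χ y) x + Ξ i n x := fun n i x => by
    rw [e1, press_split (hθ n).1 hχ.smooth i x, hΞ, add_assoc]
  have tΞ : ∀ n i, Test (Ξ i n) := fun n i => by
    have e : Ξ i n = fun x => Θ n i x - pd i (fun y => θ n y * χ y) x :=
      funext fun x => by rw [e2, add_sub_cancel_left]
    rw [e]
    exact (tΘ n i).sub ((tχ n).pd i)
  have lap : ∀ {φ : R3 → ℝ}, Test φ → Test fun x => ∑ j, pd j (pd j φ) x := fun hφ =>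
    Test.sum _ fun j _ => (hφ.pd j).pd j
  have hw : ∀ i, ∀ s ∈ Icc 0 T, ∀ x, v a x s i ^ 2 ≤ den (fun a x => v a x s) x :=
    fun i s _ x => sq_le_den (fun a x => v a x s) a i x
  have key := press_limit hT (G := fun n s => ∑ i, ∫ x, v a x s i * Θ n i x)
    (e := fun n s => ν * (∑ i, ∫ x, v a x s i * ∑ j, pd j (pd j (Ξ i n)) x)
      + ∑ i, ∑ j, ∫ x, flux c (fun b y => v b y s) a i j x * pd j (R i n) x)
    (L := fun s => (∑ i, ∑ j, ∫ x, flux c (fun b y => v b y s) a i j x * pd i (pd j χ) x)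
      - ∑ i, ∫ x, pd i (fun y => q a y s) x * Φ i x)
    (fun n s hs => h.weak hT (tΘ n) a hs) (fun n => ?_) ?_ ?_ (fun n s hs => ?_) ht
  · linarith
  · refine ((continuousOn_const.mul (continuousOn_finsetSum _ fun i _ =>
      (h.ju a i).continuousOn_integral (lap (tΘ n i)))).add
      (continuousOn_finsetSum _ fun i _ => continuousOn_finsetSum _ fun j _ =>
        (h.jflux a i j).continuousOn_integral ((tΘ n i).pd j))).sub
      (continuousOn_finsetSum _ fun i _ =>
        ((h.jp a).pd (uniqueDiffOn_Icc hT) i).continuousOn_integral (tΘ n i))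
  · refine (press_unif_sum fun i => press_pair_sq (w := fun x s => v a x s i) (sΞ i).s0 (hw i)
      iv ev).congr (Eventually.of_forall fun n s hs => ?_)
    exact (press_grad h (tχ n) (tΞ n) (e2 n) a hs).symm
  · refine press_unif_add (press_unif_mul ν (press_unif_sum fun i =>
      press_pair_sq (w := fun x s => v a x s i)
        (press_Small.sum fun j => ((sΞ i).pd j).pd j).s0 (hw i) iv ev))
      (press_unif_sum fun i => press_unif_sum fun j =>
        press_pair_one (F := fun x s => flux c (fun b y => v b y s) a i j x) ((sR i).pd j).s0 hK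
          (fun s _ x => hF _ a i j x) iv ev)
  · have hq := (h.jp a).slice hs
    have a1 := press_grad h (lap (tχ n)) (fun i => lap (tΞ n i))
      (Θ := fun i x => ∑ j, pd j (pd j (Θ n i)) x)
      (fun i x => press_lap (tχ n).1 (tΞ n i).1 i (e2 n i) x) a hs
    have a2 : ∀ i j, ∫ x, flux c (fun b y => v b y s) a i j x * pd j (Θ n i) x
        = (∫ x, flux c (fun b y => v b y s) a i j x * pd j (R i n) x)
          + ∫ x, flux c (fun b y => v b y s) a i j x * pd i (pd j χ) x := fun i j => by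
      have hc := ((h.jflux a i j).slice hs).continuous
      have i1 : Integrable (flux c (fun b y => v b y s) a i j) :=
        ((iv s hs).const_mul K).mono' hc.aestronglyMeasurable
          (Eventually.of_forall fun x => hF _ a i j x)
      obtain ⟨C, hC⟩ := press_hess hχ i j
      have i2 := i1.mul_bdd
        (contDiff_pd (contDiff_pd hχ.smooth j) i).continuous.aestronglyMeasurable
        (Eventually.of_forall hC)
      have i3 := ((tΘ n i).pd j).integrable_mul hc
      rw [← sub_eq_iff_eq_add, ← integral_sub i3 i2]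
      congr 1
      funext x
      have e : Θ n i = fun x => pd i χ x + R i n x := funext (e1 n i)
      rw [e, press_pd_add (contDiff_pd hχ.smooth i) ((sR i).sm n) j]
      simp only
      rw [pd_comm hχ.smooth j i x]
      ring
    have a3 : ∑ i, ∫ x, pd i (fun y => q a y s) x * Θ n i x
        = ∑ i, ∫ x, pd i (fun y => q a y s) x * Φ i x := by
      have a4 := press_anti hq (tP n) fun i k x => by rw [hanti i k x, mul_neg]
      rw [← sub_zero (∑ i, ∫ x, pd i (fun y => q a y s) x * Φ i x), ← a4, ← Finset.sum_sub_distrib]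
      refine Finset.sum_congr rfl fun i _ => ?_
      rw [← integral_sub ((hΦ i).integrable_mul (contDiff_pd hq i).continuous)
        ((tP' n i).integrable_mul (contDiff_pd hq i).continuous)]
      simp only [hΘ, mul_sub]
    simp only [a2, Finset.sum_add_distrib]
    rw [a1, a3]
    ring

end

end Pool.Agent.Work.MP_6bf1e5_an.Ens
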