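import Pool.Agent.Work.MP_6bf1e5_an.Ens.LocEn
import Pool.Agent.Work.MP_6bf1e5_an.Ens.Press
import Pool.Agent.Work.MP_6bf1e5_an.Ens.Kernel

/-!
The pressure term. `CSol.pressure` for both solutions with `Φ i = ψ w^a_i`, `div Φ = g = w^a·∇ψ` (`Pair.div_dif`),
`F = flux v - flux u = ∑ c (w w + w u + u w)`, so `|F| ≤ C (den w + M0 √(den w))`, `∫|F| ≤ C E0` (`exists_flux_le`),
`∫ g² ≤ L² 4 E0`, `∫|g| ≤ L √(4 E0) √(vol (ball 0 r))`; then `exists_hess_bound`.
-/

open scoped ContDiff ENNReal FourierTransform Topology ComplexConjugate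
open Set MeasureTheory Filter Polynomial Metric

namespace Pool.Agent.Work.MP_6bf1e5_an.Ens

noncomputable section

variable {ι : Type} [Fintype ι]

variable {ν T E0 M0 M1 : ℝ} {c : ι → ι → ι → ℝ} {u v : ι → R3 → ℝ → R3} {p q : ι → R3 → ℝ → ℝ}

theorem estp_den_nonneg (w : ι → R3 → R3) (x : R3) : 0 ≤ den w x :=
  Finset.sum_nonneg fun _ _ => Finset.sum_nonneg fun _ _ => sq_nonneg _

theorem estp_l1 {g D : R3 → ℝ} {L E r : ℝ} (hr : 0 < r) (hL : 0 ≤ L) (hD : Integrable D)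
    (hD0 : ∀ x, 0 ≤ D x) (hE : ∫ x, D x ≤ E) (hg : ∀ x, g x ^ 2 ≤ L ^ 2 * D x)
    (h0 : ∀ x, r ≤ ‖x‖ → g x = 0) :
    ∫ x, |g x| ≤ L * (r ^ (3 / 2 : ℝ) * (E + Real.pi * 4 / 3)) := by
  obtain ⟨s, hs⟩ : ∃ s, s = r ^ (3 / 2 : ℝ) := ⟨_, rfl⟩
  have hs0 : 0 < s := by rw [hs]; positivity
  have hs2 : r ^ 3 = s * s := by
    rw [hs, ← Real.rpow_add hr, ← Real.rpow_natCast]
    norm_num
  have h1 : Integrable ((ball (0 : R3) r).indicator fun _ => s⁻¹) :=
    (integrable_indicator_iff measurableSet_ball).2 (integrableOn_const measure_ball_lt_top.ne)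
  have h2 : ∀ x, |g x| ≤ L * (s * D x + (ball (0 : R3) r).indicator (fun _ => s⁻¹) x) := by
    intro x
    have := hD0 x
    by_cases hx : x ∈ ball (0 : R3) r
    · rw [indicator_of_mem hx]
      refine abs_le_of_sq_le_sq ((hg x).trans ?_) (by positivity)
      rw [mul_pow]
      refine mul_le_mul_of_nonneg_left ?_ (sq_nonneg _)
      have e : (s * D x + s⁻¹) ^ 2 = (s * D x - s⁻¹) ^ 2 + 4 * D x := by
        field_simp
        ring
      rw [e]
      nlinarith [sq_nonneg (s * D x - s⁻¹)]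
    · rw [indicator_of_notMem hx, h0 x (by simpa using hx), abs_zero]
      positivity
  refine (integral_mono_of_nonneg (ae_of_all _ fun x => abs_nonneg _)
    (((hD.const_mul s).add h1).const_mul L) (ae_of_all _ h2)).trans ?_
  rw [integral_const_mul, ← hs]
  refine mul_le_mul_of_nonneg_left ?_ hL
  simp only [Pi.add_apply]
  rw [integral_add (hD.const_mul s) h1, integral_const_mul, integral_indicator measurableSet_ball,
    setIntegral_const, measureReal_def, EuclideanSpace.volume_ball_fin_three, ENNReal.toReal_mul,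
    ENNReal.toReal_pow, ENNReal.toReal_ofReal hr.le, ENNReal.toReal_ofReal (by positivity), hs2,
    smul_eq_mul, mul_add]
  refine add_le_add (mul_le_mul_of_nonneg_left hE hs0.le) (le_of_eq ?_)
  field_simp

theorem estp_pt (c : ι → ι → ι → ℝ) (M : ℝ) : ∃ C : ℝ, 0 ≤ C ∧ ∀ (u v w : ι → R3 → R3) (x : R3),
    (∀ a, w a x = v a x - u a x) → (∀ a i, |u a x i| ≤ M) → ∀ a i j,
      (flux c v a i j x - flux c u a i j x) ^ 2 ≤ C * (den w x ^ 2 + den w x) := by
  refine ⟨(∑ a, ∑ b, ∑ d, |c a b d|) ^ 2 * (2 + 8 * M ^ 2), by positivity,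
    fun u v w x hw hM a i j => ?_⟩
  have hD := estp_den_nonneg w x
  obtain ⟨s, hs0, hs⟩ : ∃ s, 0 ≤ s ∧ den w x = s ^ 2 := ⟨_, Real.sqrt_nonneg _, (Real.sq_sqrt hD).symm⟩
  have hM0 : 0 ≤ M := (abs_nonneg _).trans (hM a i)
  have h1 : ∀ b k, |w b x k| ≤ s := fun b k => abs_le_of_sq_le_sq (hs ▸ sq_le_den w b k x) hs0
  have h2 : ∀ b d, |v b x j * v d x i - u b x j * u d x i| ≤ s * s + s * M + M * s := by
    intro b d
    have e : v b x j * v d x i - u b x j * u d x i =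
        w b x j * w d x i + w b x j * u d x i + u b x j * w d x i := by
      simp only [hw, PiLp.sub_apply]
      ring
    rw [e]
    refine (abs_add_three _ _ _).trans (add_le_add (add_le_add ?_ ?_) ?_) <;> rw [abs_mul]
    exacts [mul_le_mul (h1 _ _) (h1 _ _) (abs_nonneg _) hs0,
      mul_le_mul (h1 _ _) (hM _ _) (abs_nonneg _) hs0,
      mul_le_mul (hM _ _) (h1 _ _) (abs_nonneg _) hM0]
  have h3 : |flux c v a i j x - flux c u a i j x| ≤
      (∑ a, ∑ b, ∑ d, |c a b d|) * (s * s + s * M + M * s) := by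
    refine le_trans ?_ (mul_le_mul_of_nonneg_right (Finset.single_le_sum
      (f := fun a => ∑ b, ∑ d, |c a b d|) (fun _ _ => by positivity) (Finset.mem_univ a))
      (by positivity))
    simp only [flux, ← Finset.sum_sub_distrib, ← mul_sub, Finset.sum_mul]
    refine (Finset.abs_sum_le_sum_abs _ _).trans (Finset.sum_le_sum fun b _ =>
      (Finset.abs_sum_le_sum_abs _ _).trans (Finset.sum_le_sum fun d _ => ?_))
    rw [abs_mul]
    exact mul_le_mul_of_nonneg_left (h2 b d) (abs_nonneg _)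
  rw [← sq_abs]
  refine (pow_le_pow_left₀ (abs_nonneg _) h3 2).trans ?_
  rw [mul_pow, mul_assoc, hs]
  refine mul_le_mul_of_nonneg_left ?_ (sq_nonneg _)
  nlinarith [sq_nonneg (s * s - 2 * M * s), sq_nonneg s, sq_nonneg (M * s ^ 2)]

theorem estp_ball {f : R3 → ℝ} (hf : Continuous f) (R : ℝ) : IntegrableOn f (ball 0 R) :=
  (hf.continuousOn.integrableOn_compact (isCompact_closedBall 0 R)).mono_set ball_subset_closedBall

theorem estp_l2 {F D : R3 → ℝ} {C E R : ℝ} (hC : 0 ≤ C) (hD : Integrable D) (hc : Continuous D)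
    (hD0 : ∀ x, 0 ≤ D x) (hE : ∫ x, D x ≤ E) (hF : ∀ x, F x ^ 2 ≤ C * (D x ^ 2 + D x)) :
    √(∫ x in ball 0 R, F x ^ 2) ≤ √C * (√(∫ x in ball 0 R, D x ^ 2) + √E) := by
  have h1 := estp_ball (hc.pow 2) R
  have h2 : ∫ x in ball 0 R, F x ^ 2 ≤ C * ((∫ x in ball 0 R, D x ^ 2) + E) := by
    refine (integral_mono_of_nonneg (ae_of_all _ fun x => sq_nonneg _)
      ((h1.add hD.integrableOn).const_mul C) (ae_of_all _ hF)).trans ?_
    rw [integral_const_mul]
    simp only [Pi.add_apply]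
    rw [integral_add h1 hD.integrableOn]
    exact mul_le_mul_of_nonneg_left (add_le_add le_rfl
      ((setIntegral_le_integral hD (ae_of_all _ hD0)).trans hE)) hC
  refine (Real.sqrt_le_sqrt h2).trans ?_
  rw [Real.sqrt_mul hC]
  refine mul_le_mul_of_nonneg_left (Real.sqrt_le_iff.2 ⟨by positivity, ?_⟩) (Real.sqrt_nonneg _)
  rw [add_sq, Real.sq_sqrt (integral_nonneg fun x => sq_nonneg _),
    Real.sq_sqrt ((integral_nonneg hD0).trans hE), add_right_comm]
  exact le_add_of_nonneg_right (by positivity)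

theorem estp_flux {K : ℝ} (hK : ∀ (w : ι → R3 → R3) a i j x, |flux c w a i j x| ≤ K * den w x)
    {w : ι → R3 → R3} (hw : Integrable (den w)) {a : ι} {i j : Fin 3}
    (hc : Continuous (flux c w a i j)) : Integrable (flux c w a i j) :=
  (hw.const_mul K).mono' hc.aestronglyMeasurable (ae_of_all _ (hK w a i j))

theorem estp_mul {F g : R3 → ℝ} (hF : Integrable F) (hg : Test g) (i j : Fin 3) :
    Integrable fun x => F x * pd i (pd j (nw g)) x := by
  rw [pd_nw hg]
  have h := nice_pd_nw (hg.pd j) i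
  obtain ⟨C, hC⟩ := h.bdd 0
  exact hF.mul_bdd h.smooth.continuous.aestronglyMeasurable
    (ae_of_all _ fun x => norm_iteratedFDeriv_zero.symm.trans_le (hC x))

theorem estp_div (h : Pair ν c T E0 M0 M1 u p v q) {ψ : R3 → ℝ} (hψ : Test ψ) {t : ℝ}
    (ht : t ∈ Icc 0 T) (a : ι) (x : R3) :
    ∑ k, pd k (fun y => ψ y * dif u v t a y k) x = fderiv ℝ ψ x (dif u v t a x) := by
  have h1 : ∀ k, pd k (fun y => ψ y * dif u v t a y k) x =
      dif u v t a x k * pd k ψ x + ψ x * pd k (fun y => dif u v t a y k) x := fun k => by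
    rw [pd_mul (hψ.1.differentiable (by simp) x)
      (((h.jw a k).slice ht).differentiable (by simp) x), mul_comm]
  simp only [h1, Finset.sum_add_distrib, ← Finset.mul_sum, h.div_dif ht, mul_zero, add_zero,
    fderiv_eq_sum_pd]

theorem Pair.press_est (h : Pair ν c T E0 M0 M1 u p v q) : ∃ B : ℝ, 0 ≤ B ∧
    ∀ (r d L : ℝ) (ψ : R3 → ℝ), 0 < r → 0 < d → Test ψ → (∀ x, r ≤ ‖x‖ → fderiv ℝ ψ x = 0) →
      (∀ x, ‖fderiv ℝ ψ x‖ ≤ L) → ∀ t ∈ Icc 0 T, ∀ a,
      |(∑ i, ∫ x, pd i (fun y => q a y t) x * (ψ x * dif u v t a x i))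
        - ∑ i, ∫ x, pd i (fun y => p a y t) x * (ψ x * dif u v t a x i)|
        ≤ B * L * (√(∫ x in ball 0 (r + d), den (dif u v t) x ^ 2) + 1 + r ^ (3 / 2 : ℝ) / d ^ 3) := by
  obtain ⟨K, hK0, hK⟩ := exists_flux_le c
  obtain ⟨K', hK0', hK'⟩ := exists_hess_bound
  obtain ⟨C, hC0, hC⟩ := estp_pt c M0
  have hE : 0 ≤ E0 :=
    (integral_nonneg fun x => estp_den_nonneg _ x).trans (h.eu 0 ⟨le_rfl, h.hT.le⟩)
  obtain ⟨e, he0, he⟩ : ∃ e, 0 ≤ e ∧ √(4 * E0) = e := ⟨_, Real.sqrt_nonneg _, rfl⟩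
  obtain ⟨k, hk0, hk⟩ : ∃ k, 0 ≤ k ∧ √C = k := ⟨_, Real.sqrt_nonneg _, rfl⟩
  obtain ⟨m, hm0, hm⟩ : ∃ m, 0 ≤ m ∧ K' * (4 * E0 + Real.pi * 4 / 3) * (K * E0 + K * E0) = m :=
    ⟨_, by positivity, rfl⟩
  refine ⟨9 * (k * e + k * e * e + m), by positivity, fun r d L ψ hr hd hψ h0 hL t ht a => ?_⟩
  have hL0 : 0 ≤ L := (norm_nonneg _).trans (hL 0)
  have hΦ : ∀ i, Test fun x => ψ x * dif u v t a x i := fun i => hψ.mul ((h.jw a i).slice ht)
  rw [h.hv.pressure h.hT h.iv h.ev hΦ a ht, h.hu.pressure h.hT h.iu h.eu hΦ a ht]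
  have hg : Test fun y => ∑ k, pd k (fun x => ψ x * dif u v t a x k) y :=
    Test.sum _ fun k _ => (hΦ k).pd k
  simp only [estp_div h hψ ht] at hg ⊢
  obtain ⟨g, hg'⟩ : ∃ g : R3 → ℝ, g = fun y => fderiv ℝ ψ y (dif u v t a y) := ⟨_, rfl⟩
  rw [← hg'] at hg ⊢
  obtain ⟨hD, hDE⟩ := h.integrable_den ht
  have hD0 := estp_den_nonneg (dif u v t)
  have hDc : Continuous (den (dif u v t)) := continuous_finsetSum _ fun b _ =>
    continuous_finsetSum _ fun i _ => ((h.jw b i).slice ht).continuous.pow 2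
  have g0 : ∀ x, r ≤ ‖x‖ → g x = 0 := fun x hx => by simp [hg', h0 x hx]
  have g1 : ∀ x, g x ^ 2 ≤ L ^ 2 * den (dif u v t) x := fun x => by
    have h1 : |g x| ≤ L * ‖dif u v t a x‖ := hg' ▸
      ((fderiv ℝ ψ x).le_opNorm _).trans (mul_le_mul_of_nonneg_right (hL x) (norm_nonneg _))
    rw [← sq_abs]
    refine (pow_le_pow_left₀ (abs_nonneg _) h1 2).trans ?_
    rw [mul_pow, norm_sq_eq_sum]
    exact mul_le_mul_of_nonneg_left (Finset.single_le_sum
      (f := fun b => ∑ i, dif u v t b x i ^ 2) (fun _ _ => by positivity) (Finset.mem_univ a))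
      (sq_nonneg _)
  have g2 : √(∫ x, g x ^ 2) ≤ L * e := by
    rw [← he, ← Real.sqrt_sq hL0, ← Real.sqrt_mul (sq_nonneg _)]
    refine Real.sqrt_le_sqrt ((integral_mono_of_nonneg (ae_of_all _ fun x => sq_nonneg _)
      (hD.const_mul _) (ae_of_all _ g1)).trans ?_)
    rw [integral_const_mul]
    exact mul_le_mul_of_nonneg_left hDE (sq_nonneg _)
  have g3 := estp_l1 hr hL0 hD hD0 hDE g1 g0
  obtain ⟨X, hX0, hX⟩ : ∃ X, 0 ≤ X ∧ √(∫ x in ball 0 (r + d), den (dif u v t) x ^ 2) = X :=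
    ⟨_, Real.sqrt_nonneg _, rfl⟩
  obtain ⟨s, hs0, hs⟩ : ∃ s, 0 ≤ s ∧ r ^ (3 / 2 : ℝ) / d ^ 3 = s := ⟨_, by positivity, rfl⟩
  have key : ∀ i j, |(∫ x, flux c (fun b y => v b y t) a i j x * pd i (pd j (nw g)) x) -
      ∫ x, flux c (fun b y => u b y t) a i j x * pd i (pd j (nw g)) x| ≤
      (k * e + k * e * e + m) * L * (X + 1 + s) := by
    intro i j
    have cv := ((h.hv.jflux a i j).slice ht).continuous
    have cu := ((h.hu.jflux a i j).slice ht).continuous
    have iv := estp_flux hK (h.iv t ht) cv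
    have iu := estp_flux hK (h.iu t ht) cu
    rw [← integral_sub (estp_mul iv hg i j) (estp_mul iu hg i j)]
    simp only [← sub_mul]
    refine (hK' _ g r d hg (cv.sub cu) (iv.sub iu) hd g0 i j).trans ?_
    have f1 := estp_l2 (R := r + d) hC0 hD hDc hD0 hDE fun x =>
      hC (fun b y => u b y t) (fun b y => v b y t) (dif u v t) x (fun _ => rfl)
        (fun b k => h.b0 t ht b x k) a i j
    rw [hk, hX, he] at f1
    have f2 : ∫ x, |flux c (fun b y => v b y t) a i j x - flux c (fun b y => u b y t) a i j x| ≤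
        K * E0 + K * E0 := by
      refine (integral_mono_of_nonneg (ae_of_all _ fun x => abs_nonneg _)
        (((h.iv t ht).const_mul K).add ((h.iu t ht).const_mul K))
        (ae_of_all _ fun x => (abs_sub _ _).trans (add_le_add (hK _ a i j x) (hK _ a i j x)))).trans ?_
      simp only [Pi.add_apply]
      rw [integral_add ((h.iv t ht).const_mul K) ((h.iu t ht).const_mul K), integral_const_mul,
        integral_const_mul]
      exact add_le_add (mul_le_mul_of_nonneg_left (h.ev t ht) hK0)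
        (mul_le_mul_of_nonneg_left (h.eu t ht) hK0)
    refine (add_le_add (mul_le_mul f1 g2 (Real.sqrt_nonneg _) (by positivity))
      (mul_le_mul (mul_le_mul_of_nonneg_left g3 (by positivity)) f2
        (integral_nonneg fun x => abs_nonneg _) (by positivity))).trans ?_
    have e1 : K' / d ^ 3 * (L * (r ^ (3 / 2 : ℝ) * (4 * E0 + Real.pi * 4 / 3))) *
        (K * E0 + K * E0) = L * (m * s) := by
      rw [← hm, ← hs]
      ring
    rw [e1, mul_comm _ L, mul_assoc L, show k * (X + e) * (L * e) = L * (k * e * X + k * e * e) by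
      ring, ← mul_add]
    refine mul_le_mul_of_nonneg_left ?_ hL0
    have e2 : (k * e + k * e * e + m) * (X + 1 + s) = k * e * X + k * e * e + m * s +
        (k * e * (1 + s) + k * e * e * (X + s) + m * (X + 1)) := by ring
    rw [e2]
    exact le_add_of_nonneg_right (by positivity)
  rw [hX, hs, ← Finset.sum_sub_distrib]
  simp only [← Finset.sum_sub_distrib]
  refine (Finset.abs_sum_le_sum_abs _ _).trans ((Finset.sum_le_sum fun i _ =>
    (Finset.abs_sum_le_sum_abs _ _).trans (Finset.sum_le_sum fun j _ => key i j)).trans_eq ?_)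
  simp only [Finset.sum_const, Finset.card_univ, Fintype.card_fin, nsmul_eq_mul]
  push_cast
  ring

end

end Pool.Agent.Work.MP_6bf1e5_an.Ens
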