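import Pool.Agent.Work.MP_6bf1e5_an.Ens.Est

/-!
Hole filling and the global energy inequality. `hole_fill`: radii `R (2 - θ^k)` with `θ = 9/10`. `exists_step`: integrate
`exists_est` in time (`JS.continuousOn_setIntegral`, a function with nonpositive derivative is antitone); with `ε = ν` and
`hole_fill` the integrals `∫ dt ∫_{B R} dis` are bounded independently of `R ≥ 1`; then take `r = R`, `ρ = 2R`, let `R → ∞`
and `ε → 0`.
-/

open scoped ContDiff ENNReal FourierTransform Topology ComplexConjugate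
open Set MeasureTheory Filter Polynomial Metric

namespace Pool.Agent.Work.MP_6bf1e5_an.Ens

noncomputable section

variable {ι : Type} [Fintype ι]

theorem hole_fill : ∃ K : ℝ, 0 ≤ K ∧ ∀ (f : ℝ → ℝ) (R A B : ℝ), 0 < R → 0 ≤ A → 0 ≤ B →
    (∃ M, ∀ r ∈ Icc R (2 * R), f r ≤ M) →
    (∀ r ρ, R ≤ r → r < ρ → ρ ≤ 2 * R → f r ≤ f ρ / 2 + A + B / (ρ - r) ^ 4) →
    f R ≤ 2 * A + K * B / R ^ 4 := by
  refine ⟨50000, by norm_num, fun f R A B hR hA hB ⟨M, hM⟩ hf => ?_⟩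
  set c : ℝ := 10000 * B / R ^ 4 with hc
  have hc0 : 0 ≤ c := by positivity
  have hth : ∀ n : ℕ, 0 < (9 / 10 : ℝ) ^ n ∧ (9 / 10 : ℝ) ^ n ≤ 1 := fun n =>
    ⟨by positivity, pow_le_one₀ (by norm_num) (by norm_num)⟩
  have hmem : ∀ n : ℕ, R * (2 - (9 / 10 : ℝ) ^ n) ∈ Icc R (2 * R) := fun n => by
    obtain ⟨h1, h2⟩ := hth n
    constructor <;> nlinarith
  have key : ∀ n : ℕ, f R ≤ f (R * (2 - (9 / 10 : ℝ) ^ n)) * (1 / 2 : ℝ) ^ n
      + 2 * A * (1 - (1 / 2 : ℝ) ^ n) + 5 * c * (1 - (4 / 5 : ℝ) ^ n) := by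
    intro n
    induction n with
    | zero => norm_num
    | succ n ih =>
      obtain ⟨h1, h2⟩ := hth n
      have hd : R * (2 - (9 / 10 : ℝ) ^ (n + 1)) - R * (2 - (9 / 10 : ℝ) ^ n)
          = R * (9 / 10 : ℝ) ^ n / 10 := by ring
      have hlt : R * (2 - (9 / 10 : ℝ) ^ n) < R * (2 - (9 / 10 : ℝ) ^ (n + 1)) := by
        have : 0 < R * (9 / 10 : ℝ) ^ n / 10 := by positivity
        linarith
      have hs := hf _ _ (hmem n).1 hlt (hmem (n + 1)).2
      rw [hd] at hs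
      have hq : B / (R * (9 / 10 : ℝ) ^ n / 10) ^ 4 * (1 / 2 : ℝ) ^ n ≤ c * (4 / 5 : ℝ) ^ n := by
        have e1 : B / (R * (9 / 10 : ℝ) ^ n / 10) ^ 4 * (1 / 2 : ℝ) ^ n
            = c * ((1 / 2 : ℝ) / (9 / 10 : ℝ) ^ 4) ^ n := by
          rw [hc, div_pow (1 / 2 : ℝ), ← pow_mul, mul_comm 4 n, pow_mul]
          field_simp
          ring
        rw [e1]
        exact mul_le_mul_of_nonneg_left (pow_le_pow_left₀ (by norm_num) (by norm_num) n) hc0
      have h3 : (0 : ℝ) ≤ (1 / 2 : ℝ) ^ n := by positivity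
      have h4 := mul_le_mul_of_nonneg_right hs h3
      rw [pow_succ (1 / 2 : ℝ), pow_succ (4 / 5 : ℝ)]
      nlinarith
  have hlim : Tendsto (fun n : ℕ => M * (1 / 2 : ℝ) ^ n + (2 * A + 5 * c)) atTop
      (𝓝 (M * 0 + (2 * A + 5 * c))) :=
    ((tendsto_pow_atTop_nhds_zero_of_lt_one (by norm_num) (by norm_num)).const_mul M).add_const _
  have hle : f R ≤ M * 0 + (2 * A + 5 * c) := by
    refine ge_of_tendsto' hlim fun n => ?_
    have h3 : (0 : ℝ) ≤ (1 / 2 : ℝ) ^ n := by positivity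
    have h4 : (0 : ℝ) ≤ (4 / 5 : ℝ) ^ n := by positivity
    have h5 := mul_le_mul_of_nonneg_right (hM _ (hmem n)) h3
    have := key n
    nlinarith [mul_nonneg hA h3, mul_nonneg hc0 h4]
  have : 50000 * B / R ^ 4 = 5 * c := by rw [hc]; ring
  linarith

theorem fill_den_nonneg (w : ι → R3 → R3) (x : R3) : 0 ≤ den w x :=
  Finset.sum_nonneg fun _ _ => Finset.sum_nonneg fun _ _ => sq_nonneg _

theorem fill_dis_nonneg (w : ι → R3 → R3) (x : R3) : 0 ≤ dis w x :=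
  Finset.sum_nonneg fun _ _ => Finset.sum_nonneg fun _ _ => Finset.sum_nonneg fun _ _ => sq_nonneg _

section

variable {ν T E0 M0 M1 : ℝ} {c : ι → ι → ι → ℝ} {u v : ι → R3 → ℝ → R3} {p q : ι → R3 → ℝ → ℝ}

theorem fill_cont (h : Pair ν c T E0 M0 M1 u p v q) (r : ℝ) :
    ContinuousOn (fun t => ∫ x in ball (0 : R3) r, dis (dif u v t) x) (Icc 0 T) :=
  h.jdis.continuousOn_setIntegral isBounded_ball measurableSet_ball

theorem fill_int (h : Pair ν c T E0 M0 M1 u p v q) {t0 t1 : ℝ} (h0 : 0 ≤ t0) (h01 : t0 ≤ t1)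
    (h1 : t1 ≤ T) (r : ℝ) :
    IntervalIntegrable (fun t => ∫ x in ball (0 : R3) r, dis (dif u v t) x) volume t0 t1 :=
  ((fill_cont h r).mono (Icc_subset_Icc h0 h1)).intervalIntegrable_of_Icc h01

theorem fill_D_nonneg (u v : ι → R3 → ℝ → R3) {t0 t1 : ℝ} (h01 : t0 ≤ t1) (r : ℝ) :
    0 ≤ ∫ t in t0..t1, ∫ x in ball (0 : R3) r, dis (dif u v t) x :=
  intervalIntegral.integral_nonneg h01 fun _ _ => integral_nonneg fun x => fill_dis_nonneg _ x

theorem fill_D_mono (h : Pair ν c T E0 M0 M1 u p v q) {t0 t1 : ℝ} (h0 : 0 ≤ t0) (h01 : t0 ≤ t1)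
    (h1 : t1 ≤ T) {r ρ : ℝ} (hr : r ≤ ρ) :
    ∫ t in t0..t1, ∫ x in ball (0 : R3) r, dis (dif u v t) x ≤
      ∫ t in t0..t1, ∫ x in ball (0 : R3) ρ, dis (dif u v t) x := by
  refine intervalIntegral.integral_mono_on h01 (fill_int h h0 h01 h1 r) (fill_int h h0 h01 h1 ρ)
    fun t ht => ?_
  have hc : Continuous fun x => dis (dif u v t) x :=
    (h.jdis.slice ⟨h0.trans ht.1, ht.2.trans h1⟩).continuous
  refine setIntegral_mono_set
    ((hc.continuousOn.integrableOn_compact (isCompact_closedBall (0 : R3) ρ)).mono_set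
      ball_subset_closedBall)
    (Eventually.of_forall fun x => fill_dis_nonneg _ x) (ball_subset_ball hr).eventuallyLE

/-- The local estimate integrated in time. -/
theorem fill_time (h : Pair ν c T E0 M0 M1 u p v q) {t0 t1 : ℝ} (h0 : 0 ≤ t0) (h01 : t0 ≤ t1)
    (h1 : t1 ≤ T) {ε L r ρ : ℝ} {g : ℝ → ℝ}
    (hg : ∀ t ∈ Icc t0 t1, ∃ e : ℝ, HasDerivWithinAt g e (Icc 0 T) t ∧
      e + 2 * ν * ∫ x in ball 0 r, dis (dif u v t) x ≤
        ε * (∫ x in ball 0 ρ, dis (dif u v t) x) + L) :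
    g t1 + 2 * ν * (∫ t in t0..t1, ∫ x in ball (0 : R3) r, dis (dif u v t) x) ≤ g t0
      + ε * (∫ t in t0..t1, ∫ x in ball (0 : R3) ρ, dis (dif u v t) x) + L * (t1 - t0) := by
  choose! e he using hg
  have hsub : Icc t0 t1 ⊆ Icc 0 T := Icc_subset_Icc h0 h1
  have hφ : ContinuousOn (fun t => ε * (∫ x in ball (0 : R3) ρ, dis (dif u v t) x)
      - 2 * ν * (∫ x in ball (0 : R3) r, dis (dif u v t) x) + L) (Icc t0 t1) :=
    ((continuousOn_const.mul ((fill_cont h ρ).mono hsub)).sub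
      (continuousOn_const.mul ((fill_cont h r).mono hsub))).add continuousOn_const
  have key := intervalIntegral.sub_le_integral_of_hasDeriv_right_of_le (g := g) (g' := e) h01
    (fun t ht => ((he t ht).1.continuousWithinAt).mono hsub)
    (fun t ht => ((he t (Ioo_subset_Icc_self ht)).1.hasDerivAt
      (Icc_mem_nhds (h0.trans_lt ht.1) (ht.2.trans_le h1))).hasDerivWithinAt)
    (hφ.integrableOn_compact isCompact_Icc)
    (fun t ht => by linarith [(he t (Ioo_subset_Icc_self ht)).2])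
  rw [intervalIntegral.integral_add
      (((fill_int h h0 h01 h1 ρ).const_mul ε).sub ((fill_int h h0 h01 h1 r).const_mul (2 * ν)))
      intervalIntegrable_const,
    intervalIntegral.integral_sub ((fill_int h h0 h01 h1 ρ).const_mul ε)
      ((fill_int h h0 h01 h1 r).const_mul (2 * ν)),
    intervalIntegral.integral_const_mul, intervalIntegral.integral_const_mul,
    intervalIntegral.integral_const, smul_eq_mul] at key
  linarith

end

theorem fill_cut_le {f ψ : R3 → ℝ} (hf : Integrable f) (f0 : ∀ x, 0 ≤ f x)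
    (hψ : ∀ x, 0 ≤ ψ x ∧ ψ x ≤ 1) : ∫ x, f x * ψ x ≤ ∫ x, f x :=
  integral_mono_of_nonneg (Eventually.of_forall fun x => mul_nonneg (f0 x) (hψ x).1) hf
    (Eventually.of_forall fun x => mul_le_of_le_one_right (f0 x) (hψ x).2)

theorem fill_le_cut {f ψ : R3 → ℝ} (hf : Integrable f) (f0 : ∀ x, 0 ≤ f x) (hT : Test ψ)
    (hψ : ∀ x, 0 ≤ ψ x ∧ ψ x ≤ 1) {r : ℝ} (h1 : ∀ x, ‖x‖ ≤ r → ψ x = 1) :
    ∫ x in ball (0 : R3) r, f x ≤ ∫ x, f x * ψ x := by
  have hi : Integrable fun x => f x * ψ x :=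
    hf.mul_bdd (c := 1) hT.1.continuous.aestronglyMeasurable
      (Eventually.of_forall fun x => by
        rw [Real.norm_eq_abs, abs_of_nonneg (hψ x).1]; exact (hψ x).2)
  calc ∫ x in ball (0 : R3) r, f x = ∫ x in ball (0 : R3) r, f x * ψ x :=
        setIntegral_congr_fun measurableSet_ball fun x hx => by
          simp [h1 x (mem_ball_zero_iff.mp hx).le]
    _ ≤ ∫ x, f x * ψ x :=
        setIntegral_le_integral hi (Eventually.of_forall fun x => mul_nonneg (f0 x) (hψ x).1)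

theorem fill_tendsto {f : R3 → ℝ} (hf : Integrable f) :
    Tendsto (fun n : ℕ => ∫ x in ball (0 : R3) ((n : ℝ) + 1), f x) atTop (𝓝 (∫ x, f x)) := by
  have := tendsto_setIntegral_of_monotone (μ := volume) (f := f)
    (s := fun n : ℕ => ball (0 : R3) ((n : ℝ) + 1)) (fun _ => measurableSet_ball)
    (fun a b hab => ball_subset_ball (by exact_mod_cast Nat.succ_le_succ hab)) hf.integrableOn
  rwa [iUnion_ball_nat_succ, Measure.restrict_univ] at this

theorem exists_step (c : ι → ι → ι → ℝ) : ∃ K : ℝ, 0 ≤ K ∧ ∀ {ν T E0 M0 M1 : ℝ}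
    {u v : ι → R3 → ℝ → R3} {p q : ι → R3 → ℝ → ℝ}, Pair ν c T E0 M0 M1 u p v q →
    ∀ t0 t1 S : ℝ, 0 ≤ t0 → t0 ≤ t1 → t1 ≤ T → (∀ t ∈ Icc t0 t1, ∫ x, den (dif u v t) x ≤ S) →
      ∫ x, den (dif u v t1) x ≤ (∫ x, den (dif u v t0) x) + K * M1 * (t1 - t0) * S := by
  rcases isEmpty_or_nonempty ι with hι | ⟨⟨a0⟩⟩
  · exact ⟨0, le_rfl, fun _ _ _ _ _ _ _ _ => by simp [den]⟩
  obtain ⟨K, hK, hest⟩ := exists_est c
  obtain ⟨K0, hK0, hfill⟩ := hole_fill
  refine ⟨K, hK, fun {ν T E0 M0 M1 u v p q} h t0 t1 S h0 h01 h1 hS => ?_⟩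
  have hν := h.hν
  have hM1 : 0 ≤ M1 := (abs_nonneg _).trans (h.b1 0 ⟨le_rfl, h.hT.le⟩ a0 0 0 0)
  have hsub : Icc t0 t1 ⊆ Icc 0 T := Icc_subset_Icc h0 h1
  have ht0 : t0 ∈ Icc t0 t1 := ⟨le_rfl, h01⟩
  have ht1 : t1 ∈ Icc t0 t1 := ⟨h01, le_rfl⟩
  have hi0 := (h.integrable_den (hsub ht0)).1
  have hi1 := (h.integrable_den (hsub ht1)).1
  have hS0 : 0 ≤ S := (integral_nonneg fun x => fill_den_nonneg _ x).trans (hS t0 ht0)
  have hτ : 0 ≤ t1 - t0 := sub_nonneg.mpr h01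
  set D : ℝ → ℝ := fun r => ∫ t in t0..t1, ∫ x in ball (0 : R3) r, dis (dif u v t) x with hD
  have main : ∀ ε > 0, ∃ B : ℝ, 0 ≤ B ∧ ∀ R r ρ : ℝ, 1 ≤ R → R ≤ r → r < ρ → ρ ≤ 2 * R →
      (∫ x in ball (0 : R3) r, den (dif u v t1) x) + 2 * ν * D r ≤ (∫ x, den (dif u v t0) x)
        + ε * D ρ + (K * M1 * S + B * R ^ 3 / (ρ - r) ^ 4) * (t1 - t0) := by
    intro ε hε
    obtain ⟨B, hB, hB'⟩ := hest h ε hε
    refine ⟨B, hB, fun R r ρ hR hr hρ hρ' => ?_⟩
    obtain ⟨ψ, hψ, hψ1, hψ2, hψ3⟩ := hB' R r ρ hR hr hρ hρ'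
    have k1 := fill_time h h0 h01 h1 (ε := ε) (L := K * M1 * S + B * R ^ 3 / (ρ - r) ^ 4)
      (r := r) (ρ := ρ) (g := fun s => ∫ x, den (dif u v s) x * ψ x) fun t ht => by
        obtain ⟨e, he, he'⟩ := hψ3 t (hsub ht)
        refine ⟨e, he, ?_⟩
        have := mul_le_mul_of_nonneg_left (hS t ht) (mul_nonneg hK hM1)
        linarith
    have k2 := fill_cut_le hi0 (fill_den_nonneg _) hψ1
    have k3 := fill_le_cut hi1 (fill_den_nonneg _) hψ hψ1 hψ2
    simp only [hD]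
    linarith
  obtain ⟨B1, hB1, m1⟩ := main ν hν
  have hbound : ∀ R : ℝ, 1 ≤ R → D R ≤ 2 * ((S + K * M1 * S * (t1 - t0)) / (2 * ν))
      + K0 * (B1 * (t1 - t0) / (2 * ν)) := by
    intro R hR
    have hR0 : 0 < R := by linarith
    have k := hfill D R ((S + K * M1 * S * (t1 - t0)) / (2 * ν))
      (B1 * R ^ 3 * (t1 - t0) / (2 * ν)) hR0 (by positivity) (by positivity)
      ⟨D (2 * R), fun r hr => fill_D_mono h h0 h01 h1 hr.2⟩ fun r ρ hr hρ hρ' => by
        have k1 := m1 R r ρ hR hr hρ hρ'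
        have k2 : 0 ≤ ∫ x in ball (0 : R3) r, den (dif u v t1) x :=
          integral_nonneg fun x => fill_den_nonneg _ x
        have k3 := hS t0 ht0
        have k4 : D ρ / 2 + (S + K * M1 * S * (t1 - t0)) / (2 * ν)
            + B1 * R ^ 3 * (t1 - t0) / (2 * ν) / (ρ - r) ^ 4
            = (S + ν * D ρ + (K * M1 * S + B1 * R ^ 3 / (ρ - r) ^ 4) * (t1 - t0)) / (2 * ν) := by
          field_simp
          ring
        rw [k4, le_div_iff₀ (by positivity)]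
        linarith
    have k5 : K0 * (B1 * R ^ 3 * (t1 - t0) / (2 * ν)) / R ^ 4
        = K0 * (B1 * (t1 - t0) / (2 * ν)) / R := by
      field_simp
    have k6 : K0 * (B1 * (t1 - t0) / (2 * ν)) / R ≤ K0 * (B1 * (t1 - t0) / (2 * ν)) :=
      div_le_self (by positivity) hR
    linarith
  set D0 : ℝ := 2 * ((S + K * M1 * S * (t1 - t0)) / (2 * ν)) + K0 * (B1 * (t1 - t0) / (2 * ν))
  have hε : ∀ ε > 0, ∫ x, den (dif u v t1) x ≤
      (∫ x, den (dif u v t0) x) + K * M1 * (t1 - t0) * S + ε * D0 := by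
    intro ε hε
    obtain ⟨B, hB, m⟩ := main ε hε
    have hlim : Tendsto (fun n : ℕ => (∫ x, den (dif u v t0) x) + K * M1 * (t1 - t0) * S + ε * D0
        + B * (t1 - t0) * (1 / ((n : ℝ) + 1))) atTop
        (𝓝 ((∫ x, den (dif u v t0) x) + K * M1 * (t1 - t0) * S + ε * D0 + B * (t1 - t0) * 0)) :=
      (tendsto_one_div_add_atTop_nhds_zero_nat.const_mul _).const_add _
    have := le_of_tendsto_of_tendsto' (fill_tendsto hi1) hlim fun n => by
      have hn : (0 : ℝ) ≤ n := n.cast_nonneg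
      have k1 := m ((n : ℝ) + 1) ((n : ℝ) + 1) (2 * ((n : ℝ) + 1)) (by linarith) le_rfl
        (by linarith) le_rfl
      have k2 : 0 ≤ D ((n : ℝ) + 1) := fill_D_nonneg u v h01 _
      have k3 := mul_le_mul_of_nonneg_left (hbound (2 * ((n : ℝ) + 1)) (by linarith)) hε.le
      have k4 : B * ((n : ℝ) + 1) ^ 3 / (2 * ((n : ℝ) + 1) - ((n : ℝ) + 1)) ^ 4
          = B * (1 / ((n : ℝ) + 1)) := by
        rw [show 2 * ((n : ℝ) + 1) - ((n : ℝ) + 1) = (n : ℝ) + 1 by ring]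
        field_simp
      rw [k4] at k1
      have k5 : 0 ≤ 2 * ν * D ((n : ℝ) + 1) := by positivity
      linarith
    simpa using this
  have hlim : Tendsto (fun n : ℕ => (∫ x, den (dif u v t0) x) + K * M1 * (t1 - t0) * S
      + 1 / ((n : ℝ) + 1) * D0) atTop
      (𝓝 ((∫ x, den (dif u v t0) x) + K * M1 * (t1 - t0) * S + 0 * D0)) :=
    (tendsto_one_div_add_atTop_nhds_zero_nat.mul_const _).const_add _
  simpa using ge_of_tendsto' hlim fun n => hε _ (by positivity)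

end

end Pool.Agent.Work.MP_6bf1e5_an.Ens
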