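import Pool.Agent.Work.MP_6bf1e5_an.Ens.Tens

/-!
From the polynomial certificate to the profile in physical space. Species `some (k, p, q)` carries
`SA (Am p q) (g k)`, the unit `none` carries `0`. Pressures: `pd_grad` and `exists_pot`.
-/

open scoped ContDiff ENNReal FourierTransform Topology ComplexConjugate
open Set MeasureTheory Filter Polynomial Metric

namespace Pool.Agent.Work.MP_6bf1e5_an.Ens

noncomputable section

theorem unitC_sym1 {ι : Type} [DecidableEq ι] {c : ι → ι → ι → ℝ} (h1 : ∀ a b d, c a b d = c b a d)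
    (a b d : Option ι) : unitC c a b d = unitC c b a d := by
  rcases a with _ | a <;> rcases b with _ | b <;> rcases d with _ | d <;>
    simp [unitC, eq_comm, h1 _ _ _]
theorem unitC_sym2 {ι : Type} [DecidableEq ι] {c : ι → ι → ι → ℝ} (h2 : ∀ a b d, c a b d = c a d b)
    (a b d : Option ι) : unitC c a b d = unitC c a d b := by
  rcases a with _ | a <;> rcases b with _ | b <;> rcases d with _ | d <;>
    simp [unitC, eq_comm, h2 _ _ _]

theorem profp_dz_mul (r : ℝ) (p : ℝ[X]) : dz (C r * p) = C r * dz p := by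
  simp only [dz, derivative_C_mul]; ring
theorem profp_th_mul (r : ℝ) (p : ℝ[X]) : th (C r * p) = C r * th p := by
  simp only [th, derivative_C_mul]; ring
theorem profp_al_mul (r : ℝ) (p : ℝ[X]) : al (C r * p) = C r * al p := by
  simp only [al, profp_th_mul]; ring
theorem profp_be_mul (r : ℝ) (p : ℝ[X]) : be (C r * p) = C r * be p := by
  simp only [be, profp_dz_mul]; ring
theorem profp_linP_mul (ν r : ℝ) (p : ℝ[X]) : linP ν (C r * p) = C r * linP ν p := by
  simp only [linP, lap7, profp_dz_mul, profp_th_mul]; ring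
theorem profp_bilA_mul (r : ℝ) (p q : ℝ[X]) :
    bilA (C r * p) (C r * q) = C r * C r * bilA p q := by
  simp only [bilA, profp_al_mul, profp_th_mul]; ring
theorem profp_bilB_mul (r : ℝ) (p q : ℝ[X]) :
    bilB (C r * p) (C r * q) = C r * C r * bilB p q := by
  simp only [bilB, profp_al_mul, profp_be_mul, profp_dz_mul, profp_th_mul]; ring

theorem profp_rad_C (r : ℝ) (y : R3) : rad (C r) y = r := by simp [rad]
theorem profp_rad_sum {α : Type} (s : Finset α) (p : α → ℝ[X]) (y : R3) :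
    rad (∑ a ∈ s, p a) y = ∑ a ∈ s, rad (p a) y := by
  simp [rad, eval_finsetSum]

theorem profp_FA_add (A : Matrix (Fin 3) (Fin 3) ℝ) (a b a' b' : ℝ[X]) (y : R3) (i : Fin 3) :
    FA A (a + a') (b + b') y i = FA A a b y i + FA A a' b' y i := by
  simp only [FA, rad_add]; ring
theorem profp_FA_mul (A : Matrix (Fin 3) (Fin 3) ℝ) (r : ℝ) (a b : ℝ[X]) (y : R3) (i : Fin 3) :
    FA A (C r * a) (C r * b) y i = r * FA A a b y i := by
  simp only [FA, rad_mul, profp_rad_C]; ring
theorem profp_FA_sum {α : Type} (s : Finset α) (A : Matrix (Fin 3) (Fin 3) ℝ) (a b : α → ℝ[X])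
    (y : R3) (i : Fin 3) :
    FA A (∑ k ∈ s, a k) (∑ k ∈ s, b k) y i = ∑ k ∈ s, FA A (a k) (b k) y i := by
  simp only [FA, profp_rad_sum, Finset.sum_add_distrib, Finset.sum_mul]
theorem profp_SA_zero (p : ℝ[X]) (y : R3) (i : Fin 3) : SA 0 p y i = 0 := by
  simp [SA, FA, qf]

theorem profp_dvd_th (p : ℝ[X]) : X ∣ th p := ⟨-((1 - X) * derivative p), by simp only [th]; ring⟩
theorem profp_dvd_bilR {p q : ℝ[X]} (hp : X ∣ p) (hq : X ∣ q) : X ^ 2 ∣ bilR p q := by
  have hal : ∀ r : ℝ[X], X ∣ r → X ∣ al r := fun r hr =>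
    dvd_add (hr.mul_left _) ((profp_dvd_th r).mul_left _)
  have m : ∀ r s : ℝ[X], X ∣ r → X ∣ s → X ^ 2 ∣ r * s := fun r s hr hs => by
    rw [sq]; exact mul_dvd_mul hr hs
  have t := profp_dvd_th
  unfold bilR
  refine dvd_add (dvd_sub (dvd_add (dvd_sub (dvd_sub ?_ ?_) ?_) ?_) ?_) ?_
  · exact (m _ _ hp (t _)).mul_left _
  · exact (m _ _ (hal _ hq) (t _)).mul_left _
  · exact (m _ _ (hal _ hp) (t _)).mul_left _
  · exact (m _ _ (hal _ hq) (hal _ hp)).mul_left _
  · exact (m _ _ hp (dvd_sub (t _) (t _))).mul_left _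
  · exact (m _ _ (t _) (t _)).mul_left _

/-- The matrices of the species. -/
def profpA : Option (Fin 8 × Fin 3 × Fin 3) → Matrix (Fin 3) (Fin 3) ℝ
  | none => 0
  | some a => Am a.2.1 a.2.2

/-- The potentials of the species. -/
def profpG (g : Fin 8 → ℝ[X]) : Option (Fin 8 × Fin 3 × Fin 3) → ℝ[X]
  | none => 0
  | some a => g a.1

variable {ν : ℝ} {g : Fin 8 → ℝ[X]} {γ : Fin 8 → Fin 8 → Fin 8 → ℝ}

theorem Cert.cOf_sym1 (h : Cert ν g γ) (a b d : Fin 8 × Fin 3 × Fin 3) : cOf γ a b d = cOf γ b a d := by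
  rw [cOf, cOf, h.sym1, tau_sym1]
theorem Cert.cOf_sym2 (h : Cert ν g γ) (a b d : Fin 8 × Fin 3 × Fin 3) : cOf γ a b d = cOf γ a d b := by
  rw [cOf, cOf, h.sym2, tau_sym2]
theorem Cert.scale (h : Cert ν g γ) {l : ℝ} (hl : l ≠ 0) :
    Cert ν (fun k => C l⁻¹ * g k) fun k m n => l * γ k m n := by
  have key : ∀ (r : ℝ) (p : ℝ[X]), C (l * r) * (C l⁻¹ * C l⁻¹ * p) = C l⁻¹ * (C r * p) := by
    intro r p
    have : C (l * r) * (C l⁻¹ * C l⁻¹) = (C l⁻¹ * C r : ℝ[X]) := by
      rw [← C_mul, ← C_mul, ← C_mul]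
      congr 1
      field_simp
    rw [← mul_assoc, this, mul_assoc]
  refine ⟨fun k m n => by rw [h.sym1], fun k m n => by rw [h.sym2], fun k => by simp [h.zero k],
    fun k => ?_, ?_⟩
  · simp only [profp_linP_mul, profp_al_mul, profp_be_mul, profp_bilA_mul, profp_bilB_mul, key,
      ← Finset.mul_sum, ← mul_add, profp_dz_mul, h.eqn k]
  · obtain ⟨k, hk⟩ := h.ne
    exact ⟨k, by simpa [hl] using hk⟩

theorem profp_some (γ : Fin 8 → Fin 8 → Fin 8 → ℝ) (g : Fin 8 → ℝ[X]) (a : Fin 8 × Fin 3 × Fin 3)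
    (y : R3) (i : Fin 3) :
    ∑ b, ∑ d, unitC (cOf γ) (some a) b d * ∑ j, SA (profpA b) (profpG g b) y j *
      pd j (fun z => SA (profpA d) (profpG g d) z i) y
    = FA (Am a.2.1 a.2.2) (∑ l, ∑ m, C (γ a.1 l m) * bilA (g l) (g m))
      (∑ l, ∑ m, C (γ a.1 l m) * bilB (g l) (g m)) y i := by
  simp only [Fintype.sum_option, profpA, profpG, profp_SA_zero, pd_const, zero_mul, mul_zero,
    Finset.sum_const_zero, zero_add, unitC, profp_FA_sum, profp_FA_mul, ← contract_tau, cOf]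
  rw [Fintype.sum_prod_type]
  refine Finset.sum_congr rfl fun l _ => ?_
  simp only [Fintype.sum_prod_type (f := fun d : Fin 8 × Fin 3 × Fin 3 => _)]
  rw [Finset.sum_comm]
  refine Finset.sum_congr rfl fun m _ => ?_
  simp only [Finset.mul_sum, mul_assoc]

theorem profp_none (γ : Fin 8 → Fin 8 → Fin 8 → ℝ) (g : Fin 8 → ℝ[X]) (y : R3) (i : Fin 3) :
    ∑ b, ∑ d, unitC (cOf γ) none b d * ∑ j, SA (profpA b) (profpG g b) y j *
      pd j (fun z => SA (profpA d) (profpG g d) z i) y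
    = rad (∑ k, bilR (g k) (g k)) y * y i := by
  simp only [unitC, ite_mul, one_mul, zero_mul, Finset.sum_ite_eq, Finset.mem_univ, if_true]
  simp only [Fintype.sum_option, profpA, profpG, profp_SA_zero, zero_mul,
    Finset.sum_const_zero, zero_add, profp_rad_sum, Finset.sum_mul, ← contract_unit]
  rw [Fintype.sum_prod_type]

theorem Cert.radProfile (h : Cert ν g γ) : ∃ A G, RadProfile ν (unitC (cOf γ)) A G := by
  refine ⟨profpA, profpG g, ?_, ?_, ?_, ?_, ?_⟩
  · rintro (_ | a) i j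
    · rfl
    · exact Am_symm _ _ _ _
  · rintro (_ | a)
    · simp [profpA]
    · exact Am_trace _ _
  · rintro (_ | a)
    · simp [profpG]
    · exact h.zero _
  · rintro (_ | a)
    · obtain ⟨P, hP⟩ := exists_pot (R := ∑ k, bilR (g k) (g k)) (Finset.dvd_sum fun k _ =>
        profp_dvd_bilR (X_dvd_iff.mpr (h.zero k)) (X_dvd_iff.mpr (h.zero k)))
      refine ⟨fun y => (-1) * rad P y, contDiff_const.mul (contDiff_rad P), fun y i => ?_⟩
      rw [profp_none, pd_const_mul, hP]
      simp [profpA, profp_SA_zero]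
    · set q := al (linP ν (g a.1)) + ∑ l, ∑ m, C (γ a.1 l m) * bilA (g l) (g m) with hq
      refine ⟨fun y => (-1) * (rad q y * qf (Am a.2.1 a.2.2) y / 2),
        contDiff_const.mul (((contDiff_rad q).mul (contDiff_qf _)).div_const 2), fun y i => ?_⟩
      rw [profp_some, pd_const_mul, pd_grad (Am_symm _ _), ← h.eqn a.1, hq, profp_FA_add]
      simp [profpA, profpG, SA]
  · obtain ⟨k, hk⟩ := h.ne
    by_contra hne
    push Not at hne
    have h0 : (fun z => FA (Am 0 1) (al (g k)) (be (g k)) z 0) = fun _ => 0 := by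
      funext z
      have := hne (some (k, 0, 1)) z
      simp only [profpA, profpG, SA] at this
      simp [this]
    have h1 := pd_FA (Am_symm 0 1) (al (g k)) (be (g k)) 0 1 0
    rw [h0, pd_const] at h1
    simp [rad, al, th, Am, hk] at h1

end

end Pool.Agent.Work.MP_6bf1e5_an.Ens
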