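import Pool.Agent.Work.MP_6bf1e5_an.Ens.Main
import Pool.Agent.Work.MP_6bf1e5_an.Ens.Ensemble
import Pool.Agent.Work.MP_6bf1e5_an.Ens.Cert
import Pool.Agent.Work.MP_6bf1e5_an.Ens.ProfP
import Pool.Agent.Work.MP_6bf1e5_an.Ens.ProfF

/-!
Assembly.
-/

open Set Polynomial

namespace Pool.Agent.Work.MP_6bf1e5_an.Ens

theorem RadProfile.reindex {ι κ : Type} [Fintype ι] [Fintype κ] (e : κ ≃ ι) {ν : ℝ}
    {c : ι → ι → ι → ℝ} {A : ι → Matrix (Fin 3) (Fin 3) ℝ} {g : ι → ℝ[X]}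
    (h : RadProfile ν c A g) :
    RadProfile ν (fun a b d => c (e a) (e b) (e d)) (fun a => A (e a)) fun a => g (e a) := by
  refine ⟨fun a => h.symm _, fun a => h.trace _, fun a => h.zero _, fun a => ?_, ?_⟩
  · obtain ⟨P, hP, hP'⟩ := h.eqn (e a)
    refine ⟨P, hP, fun y i => ?_⟩
    rw [← hP' y i, ← e.sum_comp]
    congr 2
    refine Finset.sum_congr rfl fun b _ => ?_
    rw [← e.sum_comp]
  · obtain ⟨a, y, hy⟩ := h.ne
    exact ⟨e.symm a, y, by simpa using hy⟩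

theorem main : ∃ c : Fin 73 → Fin 73 → Fin 73 → ℝ,
    (∀ a b d, c a b d = c b a d ∧ c a b d = c a d b) ∧
    (∀ a b, c 0 a b = if a = b then 1 else 0) ∧
    (∃ N : ℕ, 0 < N ∧ ∃ φ : Fin N → Fin 73 → ℝ, (∀ o, φ o 0 = 1) ∧
      ∀ a b d, c a b d = (∑ o, φ o a * φ o b * φ o d) / N) ∧
    ∀ ν : ℝ, 0 < ν → CBlowup ν c := by
  obtain ⟨g, γ, hC⟩ := exists_cert
  obtain ⟨l, N, φ, hl, hN, h1, h3⟩ := exists_ensemble (cOf γ) hC.cOf_sym1 hC.cOf_sym2
  have hC' := hC.scale hl.ne'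
  have e0 : (fun a b d => l * cOf γ a b d) = cOf fun k m n => l * γ k m n := by
    funext a b d
    simp only [cOf, mul_assoc]
  rw [e0] at h3
  obtain ⟨A, G, hR⟩ := hC'.radProfile
  let e1 : Fin 72 ≃ Fin 8 × Fin 3 × Fin 3 := (Fintype.equivFinOfCardEq (by simp)).symm
  let e : Fin 73 ≃ Option (Fin 8 × Fin 3 × Fin 3) := (finSuccEquiv 72).trans e1.optionCongr
  have he : e 0 = none := by simp [e]
  obtain ⟨W, hW⟩ := (hR.reindex e).profile
  have s1 := unitC_sym1 hC'.cOf_sym1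
  have s2 := unitC_sym2 hC'.cOf_sym2
  refine ⟨_, fun a b d => ⟨s1 (e a) (e b) (e d), s2 (e a) (e b) (e d)⟩, fun a b => ?_,
    ⟨N, hN, fun o a => φ o (e a), fun o => by simp only [he, h1], fun a b d => ?_⟩, fun ν hν => ?_⟩
  · simp [he, unitC]
  · have : (N : ℝ) ≠ 0 := by positivity
    rw [h3, mul_div_cancel_left₀ _ this]
  · obtain ⟨W', hW'⟩ := hW.scale (by norm_num) hν
    refine hW'.cblowup hν fun a b d => ?_
    rw [s1 (e a), s2 (e b), s1 (e b), s2 (e d)]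

end Pool.Agent.Work.MP_6bf1e5_an.Ens
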