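import Pool.Agent.Work.MP_6bf1e5_an.Ens.Newton

/-!
Potentials of a test field. For `nice_pd_nw` bound `iteratedFDeriv n` by the sum of the `n`-fold coordinate
derivatives (or argue by induction with `pd_nw`); each of them is the real part of `ev` of an integrable and square integrable
function (`pd_re_ev`, `integral_ev_sq_le`, `tendsto_ev`, `norm_ev_le`); `|ξ|^(-1)` is square integrable near `0`.
Take `Ψ i j = pd j (nw (Φ i)) - pd i (nw (Φ j))`.
-/

open scoped ContDiff ENNReal FourierTransform Topology ComplexConjugate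
open Set MeasureTheory Filter Polynomial Metric

namespace Pool.Agent.Work.MP_6bf1e5_an.Ens

noncomputable section

/-- Bounded above, square integrable and vanishing at infinity. -/
def pot_G (u : R3 → ℝ) : Prop :=
  (∃ C, ∀ x, u x ≤ C) ∧ Integrable (fun x => u x ^ 2) ∧ Tendsto u (cocompact R3) (𝓝 0)

theorem pot_mono {u v : R3 → ℝ} (hv : pot_G v) (hc : Continuous u) (h0 : ∀ x, 0 ≤ u x)
    (h : ∀ x, u x ≤ v x) : pot_G u := by
  obtain ⟨⟨C, hC⟩, h2, h3⟩ := hv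
  refine ⟨⟨C, fun x => (h x).trans (hC x)⟩, ?_, squeeze_zero h0 h h3⟩
  refine h2.mono' (hc.pow 2).aestronglyMeasurable (Eventually.of_forall fun x => ?_)
  rw [Real.norm_of_nonneg (sq_nonneg _)]
  exact pow_le_pow_left₀ (h0 x) (h x) 2

theorem pot_add {u v : R3 → ℝ} (hu : pot_G u) (hv : pot_G v) (cu : Continuous u)
    (cv : Continuous v) : pot_G fun x => u x + v x := by
  obtain ⟨⟨C, hC⟩, h2, h3⟩ := hu
  obtain ⟨⟨D, hD⟩, g2, g3⟩ := hv
  refine ⟨⟨C + D, fun x => add_le_add (hC x) (hD x)⟩, ?_, by simpa using h3.add g3⟩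
  refine ((h2.add g2).const_mul 2).mono' ((cu.add cv).pow 2).aestronglyMeasurable
    (Eventually.of_forall fun x => ?_)
  rw [Real.norm_of_nonneg (sq_nonneg _)]
  simp only [Pi.add_apply]
  nlinarith [sq_nonneg (u x - v x)]

theorem pot_cont {f : R3 → ℝ} (hf : ContDiff ℝ ∞ f) (n : ℕ) :
    Continuous fun x => ‖iteratedFDeriv ℝ n f x‖ :=
  (hf.continuous_iteratedFDeriv (by exact_mod_cast le_top)).norm

theorem pot_nice_iff {f : R3 → ℝ} :
    Nice f ↔ ContDiff ℝ ∞ f ∧ ∀ n, pot_G fun x => ‖iteratedFDeriv ℝ n f x‖ :=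
  ⟨fun h => ⟨h.smooth, fun n => ⟨h.bdd n, h.sq n, tendsto_zero_iff_norm_tendsto_zero.mp (h.zero n)⟩⟩,
    fun h => ⟨h.1, fun n => (h.2 n).1, fun n => (h.2 n).2.1,
      fun n => tendsto_zero_iff_norm_tendsto_zero.mpr (h.2 n).2.2⟩⟩

theorem pot_succ_le {f : R3 → ℝ} (hf : ContDiff ℝ ∞ f) (n : ℕ) (x : R3) :
    ‖iteratedFDeriv ℝ (n + 1) f x‖ ≤ ∑ j, ‖iteratedFDeriv ℝ n (pd j f) x‖ := by
  let L : Fin 3 → ℝ →L[ℝ] R3 →L[ℝ] ℝ := fun j =>
    ContinuousLinearMap.toSpanSingleton ℝ (EuclideanSpace.proj j)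
  have hL : ∀ j, ‖L j‖ ≤ 1 := fun j => by
    rw [ContinuousLinearMap.norm_toSpanSingleton]
    refine ContinuousLinearMap.opNorm_le_bound _ zero_le_one fun v => ?_
    rw [one_mul]
    exact PiLp.norm_apply_le v j
  have e : fderiv ℝ f = fun y => ∑ j, (L j ∘ pd j f) y := by
    funext y
    ext v
    rw [fderiv_eq_sum_pd]
    simp [L, mul_comm]
  have hs : ∀ j, ContDiffAt ℝ n (pd j f) x := fun j =>
    ((contDiff_pd hf j).of_le (by exact_mod_cast le_top)).contDiffAt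
  rw [← norm_iteratedFDeriv_fderiv, e, iteratedFDeriv_fun_sum_apply fun j _ =>
    (L j).contDiff.contDiffAt.comp x (hs j)]
  refine norm_sum_le_of_le _ fun j _ => ?_
  refine ((L j).norm_iteratedFDeriv_comp_left (hs j) le_rfl).trans ?_
  exact mul_le_of_le_one_left (norm_nonneg _) (hL j)

theorem pot_class (P : (R3 → ℝ) → Prop) (hs : ∀ f, P f → ContDiff ℝ ∞ f)
    (hp : ∀ f, P f → ∀ j, P (pd j f)) (h0 : ∀ f, P f → pot_G fun x => |f x|) (n : ℕ) :
    ∀ f, P f → pot_G fun x => ‖iteratedFDeriv ℝ n f x‖ := by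
  induction n with
  | zero =>
    intro f hf
    simpa only [norm_iteratedFDeriv_zero, Real.norm_eq_abs] using h0 f hf
  | succ n ih =>
    intro f hf
    have c := fun j => pot_cont (hs _ (hp f hf j)) n
    have g := fun j => ih _ (hp f hf j)
    refine pot_mono (pot_add (pot_add (g 0) (g 1) (c 0) (c 1)) (g 2) ((c 0).add (c 1)) (c 2))
      (pot_cont (hs f hf) _) (fun x => norm_nonneg _) fun x => ?_
    simpa only [Fin.sum_univ_three] using pot_succ_le (hs f hf) n x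

theorem pot_int_div {G : R3 → ℝ} {C : ℝ} (hG : Integrable G) (h0 : ∀ ξ, 0 ≤ G ξ)
    (hC : ∀ ξ, G ξ ≤ C) : Integrable fun ξ => G ξ / ‖ξ‖ ^ 2 := by
  have hm : AEStronglyMeasurable (fun ξ : R3 => G ξ / ‖ξ‖ ^ 2) volume :=
    (hG.aemeasurable.div (measurable_norm.pow_const 2).aemeasurable).aestronglyMeasurable
  rw [← integrableOn_univ, ← union_compl_self (ball (0 : R3) 1)]
  refine IntegrableOn.union ?_ ?_
  · refine integrableOn_ball_of_norm_le_rpow (C := C) (α := 2) (by simp) (by norm_num)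
      (Eventually.of_forall fun ξ => ?_) hm
    rw [Real.norm_of_nonneg (div_nonneg (h0 ξ) (sq_nonneg _)), Real.rpow_neg (norm_nonneg _),
      Real.rpow_two, ← div_eq_mul_inv]
    exact div_le_div_of_nonneg_right (hC ξ) (sq_nonneg _)
  · refine hG.integrableOn.mono' hm.restrict ?_
    filter_upwards [ae_restrict_mem measurableSet_ball.compl] with ξ hξ
    rw [mem_compl_iff, mem_ball_zero_iff, not_lt] at hξ
    rw [Real.norm_of_nonneg (div_nonneg (h0 ξ) (sq_nonneg _))]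
    exact div_le_self (h0 ξ) (one_le_pow₀ hξ)

theorem pot_ev {g : R3 → ℂ} (h1 : Integrable g) (h2 : Integrable fun ξ => ‖g ξ‖ ^ 2) :
    pot_G fun x => |(ev g x).re| :=
  pot_mono (v := fun x => ‖ev g x‖) ⟨⟨_, norm_ev_le g⟩, (integral_ev_sq_le h1 h2).1,
    tendsto_zero_iff_norm_tendsto_zero.mp (tendsto_ev g)⟩
    (Complex.continuous_re.comp (continuous_ev h1)).abs (fun _ => abs_nonneg _)
    fun _ => Complex.abs_re_le_norm _

theorem pot_base {φ : R3 → ℝ} (h : Test φ) (j : Fin 3) : pot_G fun x => |pd j (nw φ) x| := by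
  have hi : Integrable fun y => (φ y : ℂ) :=
    (h.1.continuous.integrable_of_hasCompactSupport h.2).ofReal
  have hb : ∀ ξ : R3, ‖𝓕 (fun y => (φ y : ℂ)) ξ‖ ≤ ∫ y, ‖(φ y : ℂ)‖ := fun ξ =>
    VectorFourier.norm_fourierIntegral_le_integral_norm _ _ _ _ _
  have hc : Continuous (𝓕 fun y => (φ y : ℂ)) :=
    VectorFourier.fourierIntegral_continuous Real.continuous_fourierChar (innerSL ℝ).continuous₂ hi
  have hG : Integrable fun ξ : R3 => ‖𝓕 (fun y => (φ y : ℂ)) ξ‖ := by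
    simpa using integrable_fourier_test h 0
  have hd := pot_int_div hG (fun _ => norm_nonneg _) hb
  generalize (∫ y, ‖(φ y : ℂ)‖) = C at hb
  have e : nw φ = fun x => (ev (fun ξ => -(𝓕 (fun y => (φ y : ℂ)) ξ) /
    ((4 * Real.pi ^ 2 * ‖ξ‖ ^ 2 : ℝ) : ℂ)) x).re := rfl
  rw [e]
  generalize (𝓕 fun y => (φ y : ℂ)) = G at hb hc hG hd
  set f : R3 → ℂ := fun ξ => -G ξ / ((4 * Real.pi ^ 2 * ‖ξ‖ ^ 2 : ℝ) : ℂ) with hf
  have hpi : 1 ≤ 2 * Real.pi := by linarith [Real.pi_gt_three]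
  have fm : Measurable f := hc.measurable.neg.div (by fun_prop)
  have fn : ∀ ξ, ‖f ξ‖ = ‖G ξ‖ / ‖ξ‖ ^ 2 / (2 * Real.pi) ^ 2 := fun ξ => by
    rw [hf]
    dsimp only
    rw [norm_div, norm_neg, Complex.norm_real, Real.norm_of_nonneg (by positivity), div_div]
    congr 1
    ring
  have f0 : ∀ ξ, ‖f ξ‖ ≤ ‖G ξ‖ / ‖ξ‖ ^ 2 := fun ξ => by
    rw [fn]
    exact div_le_self (by positivity) (one_le_pow₀ hpi)
  have f1 : ∀ ξ, 2 * Real.pi * (‖ξ‖ * ‖f ξ‖) ≤ ‖G ξ‖ / ‖ξ‖ := fun ξ => by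
    rcases eq_or_ne ‖ξ‖ 0 with h0 | h0
    · simp [h0]
    · have : 2 * Real.pi * (‖ξ‖ * ‖f ξ‖) = ‖G ξ‖ / ‖ξ‖ / (2 * Real.pi) := by
        rw [fn]
        field_simp
      rw [this]
      exact div_le_self (by positivity) hpi
  have f2 : ∀ ξ, ‖G ξ‖ / ‖ξ‖ ≤ ‖G ξ‖ / ‖ξ‖ ^ 2 + ‖G ξ‖ := fun ξ => by
    have h1 : ‖ξ‖⁻¹ ≤ ‖ξ‖⁻¹ ^ 2 + 1 := by nlinarith [sq_nonneg (‖ξ‖⁻¹ - 1)]
    have h2 := mul_le_mul_of_nonneg_left h1 (norm_nonneg (G ξ))
    rw [div_eq_mul_inv, div_eq_mul_inv, ← inv_pow]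
    linarith
  have i0 : Integrable f := hd.mono' fm.aestronglyMeasurable (Eventually.of_forall f0)
  have i1 : Integrable fun ξ => ‖ξ‖ * ‖f ξ‖ := by
    refine (hd.add hG).mono' (measurable_norm.mul fm.norm).aestronglyMeasurable
      (Eventually.of_forall fun ξ => ?_)
    rw [Real.norm_of_nonneg (by positivity)]
    exact (le_mul_of_one_le_left (by positivity) hpi).trans ((f1 ξ).trans (f2 ξ))
  have gm : Measurable fun ξ : R3 => 2 * Real.pi * Complex.I * (ξ j : ℂ) * f ξ :=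
    Measurable.mul (by fun_prop) fm
  have gn : ∀ ξ : R3, ‖2 * Real.pi * Complex.I * (ξ j : ℂ) * f ξ‖ ≤ ‖G ξ‖ / ‖ξ‖ := fun ξ => by
    refine le_trans ?_ (f1 ξ)
    have h1 : ‖ξ j‖ ≤ ‖ξ‖ := PiLp.norm_apply_le ξ j
    simp only [norm_mul, Complex.norm_real, Complex.norm_I, Complex.norm_ofNat, one_mul,
      Real.norm_of_nonneg Real.pi_pos.le, mul_assoc]
    gcongr
  simp only [pd_re_ev i0 i1 j]
  refine pot_ev ((hd.add hG).mono' gm.aestronglyMeasurable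
    (Eventually.of_forall fun ξ => (gn ξ).trans (f2 ξ))) ?_
  refine (hd.const_mul C).mono' (gm.norm.pow_const 2).aestronglyMeasurable
    (Eventually.of_forall fun ξ => ?_)
  rw [Real.norm_of_nonneg (sq_nonneg _)]
  refine (pow_le_pow_left₀ (norm_nonneg _) (gn ξ) 2).trans ?_
  rw [div_pow, sq ‖G ξ‖, mul_div_assoc]
  exact mul_le_mul_of_nonneg_right (hb ξ) (by positivity)

theorem nice_pd_nw {φ : R3 → ℝ} (h : Test φ) (j : Fin 3) : Nice (pd j (nw φ)) := by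
  have hs : ∀ f, (∃ ψ k, Test ψ ∧ f = pd k (nw ψ)) → ContDiff ℝ ∞ f := by
    rintro f ⟨ψ, k, hψ, rfl⟩
    exact contDiff_pd (contDiff_nw hψ) k
  refine pot_nice_iff.mpr ⟨hs _ ⟨φ, j, h, rfl⟩, fun n =>
    pot_class (fun f => ∃ ψ k, Test ψ ∧ f = pd k (nw ψ)) hs ?_ ?_ n _ ⟨φ, j, h, rfl⟩⟩
  · rintro f ⟨ψ, k, hψ, rfl⟩ i
    refine ⟨pd i ψ, k, hψ.pd i, ?_⟩
    rw [← pd_nw hψ i]
    exact funext fun x => pd_comm (contDiff_nw hψ) i k x
  · rintro f ⟨ψ, k, hψ, rfl⟩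
    exact pot_base hψ k

theorem Nice.add {f g : R3 → ℝ} (hf : Nice f) (hg : Nice g) : Nice fun x => f x + g x := by
  have hs := hf.smooth.add hg.smooth
  refine pot_nice_iff.mpr ⟨hs, fun n => pot_mono (pot_add ((pot_nice_iff.mp hf).2 n)
    ((pot_nice_iff.mp hg).2 n) (pot_cont hf.smooth n) (pot_cont hg.smooth n)) (pot_cont hs n)
    (fun _ => norm_nonneg _) fun x => ?_⟩
  rw [fun_iteratedFDeriv_add_apply (hf.smooth.of_le (by exact_mod_cast le_top)).contDiffAt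
    (hg.smooth.of_le (by exact_mod_cast le_top)).contDiffAt]
  exact norm_add_le _ _

theorem Nice.sub {f g : R3 → ℝ} (hf : Nice f) (hg : Nice g) : Nice fun x => f x - g x := by
  have hs := hf.smooth.sub hg.smooth
  refine pot_nice_iff.mpr ⟨hs, fun n => pot_mono (pot_add ((pot_nice_iff.mp hf).2 n)
    ((pot_nice_iff.mp hg).2 n) (pot_cont hf.smooth n) (pot_cont hg.smooth n)) (pot_cont hs n)
    (fun _ => norm_nonneg _) fun x => ?_⟩
  rw [fun_iteratedFDeriv_sub_apply (hf.smooth.of_le (by exact_mod_cast le_top)).contDiffAt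
    (hg.smooth.of_le (by exact_mod_cast le_top)).contDiffAt]
  exact norm_sub_le _ _

theorem exists_potentials {Φ : Fin 3 → R3 → ℝ} (hΦ : ∀ i, Test (Φ i)) :
    Nice (nw fun y => ∑ k, pd k (Φ k) y) ∧ ∃ Ψ : Fin 3 → Fin 3 → R3 → ℝ, (∀ i j, Nice (Ψ i j)) ∧
      (∀ i j x, Ψ i j x = -Ψ j i x) ∧
      ∀ i x, Φ i x = pd i (nw fun y => ∑ k, pd k (Φ k) y) x + ∑ j, pd j (Ψ i j) x := by
  have e : (nw fun y => ∑ k, pd k (Φ k) y) = fun x => ∑ k, pd k (nw (Φ k)) x := by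
    funext x
    rw [nw_sum fun k => (hΦ k).pd k]
    exact Finset.sum_congr rfl fun k _ => by rw [pd_nw (hΦ k)]
  have hn := fun i j => nice_pd_nw (hΦ i) j
  have hd : ∀ i j x, DifferentiableAt ℝ (pd j (nw (Φ i))) x := fun i j x =>
    ((hn i j).smooth.differentiable (by simp)) x
  rw [e]
  refine ⟨?_, fun i j x => pd j (nw (Φ i)) x - pd i (nw (Φ j)) x,
    fun i j => (hn i j).sub (hn j i), fun i j x => by ring, fun i x => ?_⟩
  · simpa only [Fin.sum_univ_three] using ((hn 0 0).add (hn 1 1)).add (hn 2 2)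
  · rw [pd_sum _ fun k _ => hd k k x, ← lap_nw (hΦ i) x, ← Finset.sum_add_distrib]
    refine Finset.sum_congr rfl fun j _ => ?_
    rw [pd_sub (hd i j x) (hd j i x), pd_comm (contDiff_nw (hΦ j)) i j x]
    ring

end

end Pool.Agent.Work.MP_6bf1e5_an.Ens
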