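import Pool.Agent.Work.MP_6bf1e5_an.Ens.Weak
import Pool.Agent.Work.MP_6bf1e5_an.Ens.Pot
import Pool.Agent.Work.MP_6bf1e5_an.Ens.Cut

/-!
Sequences of functions that tend to zero with all derivatives, in the square mean and uniformly, and their
pairings with a solution of finite energy.
-/

open scoped ContDiff ENNReal FourierTransform Topology ComplexConjugate
open Set MeasureTheory Filter Polynomial Metric

namespace Pool.Agent.Work.MP_6bf1e5_an.Ens

noncomputable section

variable {ι : Type} [Fintype ι]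

/-- A sequence of continuous functions that tends to zero in the square mean and uniformly. -/
structure press_S0 (u : ℕ → R3 → ℝ) : Prop where
  cont : ∀ n, Continuous (u n)
  int : ∀ n, Integrable fun x => u n x ^ 2
  l2 : Tendsto (fun n => ∫ x, u n x ^ 2) atTop (𝓝 0)
  sup : ∀ ε > 0, ∀ᶠ n in atTop, ∀ x, |u n x| ≤ ε

theorem press_S0.of_le {u w : ℕ → R3 → ℝ} (hw : press_S0 w) (hc : ∀ n, Continuous (u n))
    (h : ∀ n x, |u n x| ≤ w n x) : press_S0 u := by
  have h2 : ∀ n x, u n x ^ 2 ≤ w n x ^ 2 := fun n x => by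
    rw [← sq_abs (u n x)]
    exact pow_le_pow_left₀ (abs_nonneg _) (h n x) 2
  have hi : ∀ n, Integrable fun x => u n x ^ 2 := fun n =>
    (hw.int n).mono' ((hc n).pow 2).aestronglyMeasurable (Eventually.of_forall fun x => by
      rw [Real.norm_of_nonneg (sq_nonneg _)]
      exact h2 n x)
  refine ⟨hc, hi, squeeze_zero (fun n => integral_nonneg fun x => sq_nonneg _)
    (fun n => integral_mono (hi n) (hw.int n) (h2 n)) hw.l2, fun ε hε => ?_⟩
  filter_upwards [hw.sup ε hε] with n hn x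
  exact (h n x).trans ((le_abs_self _).trans (hn x))

theorem press_S0.add {u w : ℕ → R3 → ℝ} (hu : press_S0 u) (hw : press_S0 w) :
    press_S0 fun n x => u n x + w n x := by
  have hc : ∀ n, Continuous fun x => u n x + w n x := fun n => (hu.cont n).add (hw.cont n)
  have h2 : ∀ n x, (u n x + w n x) ^ 2 ≤ 2 * (u n x ^ 2 + w n x ^ 2) := fun n x => by
    nlinarith [sq_nonneg (u n x - w n x)]
  have hj : ∀ n, Integrable fun x => 2 * (u n x ^ 2 + w n x ^ 2) := fun n =>
    ((hu.int n).add (hw.int n)).const_mul 2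
  have hi : ∀ n, Integrable fun x => (u n x + w n x) ^ 2 := fun n =>
    (hj n).mono' ((hc n).pow 2).aestronglyMeasurable (Eventually.of_forall fun x => by
      rw [Real.norm_of_nonneg (sq_nonneg _)]
      exact h2 n x)
  refine ⟨hc, hi, squeeze_zero (fun n => integral_nonneg fun x => sq_nonneg _)
    (fun n => integral_mono (hi n) (hj n) (h2 n)) ?_, fun ε hε => ?_⟩
  · have e : ∀ n, ∫ x, 2 * (u n x ^ 2 + w n x ^ 2) = 2 * ((∫ x, u n x ^ 2) + ∫ x, w n x ^ 2) :=
      fun n => by rw [integral_const_mul, integral_add (hu.int n) (hw.int n)]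
    simp only [e]
    simpa using (hu.l2.add hw.l2).const_mul 2
  · filter_upwards [hu.sup (ε / 2) (half_pos hε), hw.sup (ε / 2) (half_pos hε)] with n h1 h2 x
    exact (abs_add_le _ _).trans (by linarith [h1 x, h2 x])

/-- The same for all derivatives. -/
structure press_Small (h : ℕ → R3 → ℝ) : Prop where
  sm : ∀ n, ContDiff ℝ ∞ (h n)
  der : ∀ m, press_S0 fun n x => ‖iteratedFDeriv ℝ m (h n) x‖

theorem press_Small.s0 {h : ℕ → R3 → ℝ} (hh : press_Small h) : press_S0 h :=
  (hh.der 0).of_le (fun n => (hh.sm n).continuous) fun n x => by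
    rw [norm_iteratedFDeriv_zero, Real.norm_eq_abs]

theorem press_Small.pd {h : ℕ → R3 → ℝ} (hh : press_Small h) (j : Fin 3) :
    press_Small fun n => pd j (h n) :=
  ⟨fun n => contDiff_pd (hh.sm n) j, fun m => (hh.der (m + 1)).of_le
    (fun n => pot_cont (contDiff_pd (hh.sm n) j) m) fun n x => by
      rw [abs_norm]
      exact norm_iteratedFDeriv_pd_le (hh.sm n) j m x⟩

theorem press_Small.add {h g : ℕ → R3 → ℝ} (hh : press_Small h) (hg : press_Small g) :
    press_Small fun n x => h n x + g n x :=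
  ⟨fun n => (hh.sm n).add (hg.sm n), fun m => ((hh.der m).add (hg.der m)).of_le
    (fun n => pot_cont ((hh.sm n).add (hg.sm n)) m) fun n x => by
      rw [abs_norm, fun_iteratedFDeriv_add_apply
        ((hh.sm n).of_le (by exact_mod_cast le_top)).contDiffAt
        ((hg.sm n).of_le (by exact_mod_cast le_top)).contDiffAt]
      exact norm_add_le _ _⟩

theorem press_Small.sum {h : Fin 3 → ℕ → R3 → ℝ} (hh : ∀ k, press_Small (h k)) :
    press_Small fun n x => ∑ k, h k n x := by
  simp only [Fin.sum_univ_three]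
  exact ((hh 0).add (hh 1)).add (hh 2)

theorem press_cut : ∃ θ : ℕ → R3 → ℝ, (∀ n, Test (θ n)) ∧
    ∀ h, Nice h → press_Small fun n y => (1 - θ n y) * h y := by
  obtain ⟨θ, hθ, H⟩ := exists_cut_seq
  refine ⟨θ, hθ, fun h hh => ?_⟩
  have hs : ∀ n, ContDiff ℝ ∞ fun y => (1 - θ n y) * h y := fun n =>
    (contDiff_const.sub (hθ n).1).mul hh.smooth
  refine ⟨hs, fun m => ⟨fun n => pot_cont (hs n) m, (H h hh m).2.1, (H h hh m).1, fun ε hε => ?_⟩⟩
  filter_upwards [(H h hh m).2.2 ε hε] with n hn x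
  rw [abs_norm]
  exact hn x

/-- Pairing of a square integrable family with a small sequence. -/
theorem press_pair_sq {S : Set ℝ} {w e : R3 → ℝ → ℝ} {E0 : ℝ} {u : ℕ → R3 → ℝ} (hu : press_S0 u)
    (hw : ∀ t ∈ S, ∀ x, w x t ^ 2 ≤ e x t) (ie : ∀ t ∈ S, Integrable fun x => e x t)
    (he : ∀ t ∈ S, ∫ x, e x t ≤ E0) :
    TendstoUniformlyOn (fun n t => ∫ x, w x t * u n x) (fun _ => 0) atTop S := by
  rw [Metric.tendstoUniformlyOn_iff]
  intro ε hε
  set δ : ℝ := ε / (|E0| + 1) with hδ
  have hE : 0 < |E0| + 1 := by positivity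
  have hδ0 : 0 < δ := by positivity
  have hδE : δ * E0 < ε := by
    have h1 : δ * (|E0| + 1) = ε := div_mul_cancel₀ _ hE.ne'
    nlinarith [le_abs_self E0]
  filter_upwards [hu.l2.eventually (gt_mem_nhds (mul_pos hδ0 hε))] with n hn t ht
  rw [dist_comm, dist_zero_right]
  have i1 := (ie t ht).const_mul (δ / 2)
  have i2 := (hu.int n).const_mul (1 / (2 * δ))
  have h1 : ‖∫ x, w x t * u n x‖ ≤ ∫ x, (δ / 2 * e x t + 1 / (2 * δ) * u n x ^ 2) := by
    refine norm_integral_le_of_norm_le (i1.add i2) (Eventually.of_forall fun x => ?_)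
    have h2 := hw t ht x
    have h3 : 0 ≤ 1 / (2 * δ) * (δ * |w x t| - |u n x|) ^ 2 := by positivity
    have h4 : 1 / (2 * δ) * (δ * |w x t| - |u n x|) ^ 2
        = δ / 2 * |w x t| ^ 2 - |w x t| * |u n x| + 1 / (2 * δ) * |u n x| ^ 2 := by
      field_simp
      ring
    rw [h4, sq_abs, sq_abs] at h3
    rw [Real.norm_eq_abs, abs_mul]
    nlinarith
  rw [integral_add i1 i2, integral_const_mul, integral_const_mul] at h1
  have h5 : 1 / (2 * δ) * ∫ x, u n x ^ 2 < ε / 2 := by
    rw [one_div, inv_mul_lt_iff₀ (by positivity)]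
    linarith
  have h6 := mul_le_mul_of_nonneg_left (he t ht) (half_pos hδ0).le
  linarith

/-- Pairing of an integrable family with a small sequence. -/
theorem press_pair_one {S : Set ℝ} {F e : R3 → ℝ → ℝ} {E0 K : ℝ} {u : ℕ → R3 → ℝ} (hu : press_S0 u)
    (hK : 0 ≤ K) (hF : ∀ t ∈ S, ∀ x, |F x t| ≤ K * e x t) (ie : ∀ t ∈ S, Integrable fun x => e x t)
    (he : ∀ t ∈ S, ∫ x, e x t ≤ E0) :
    TendstoUniformlyOn (fun n t => ∫ x, F x t * u n x) (fun _ => 0) atTop S := by
  rw [Metric.tendstoUniformlyOn_iff]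
  intro ε hε
  set δ : ℝ := ε / (K * |E0| + 1) with hδ
  have hE : 0 < K * |E0| + 1 := by positivity
  have hδ0 : 0 < δ := by positivity
  have h0 : δ * (K * |E0| + 1) = ε := div_mul_cancel₀ _ hE.ne'
  filter_upwards [hu.sup δ hδ0] with n hn t ht
  rw [dist_comm, dist_zero_right]
  have h1 : ‖∫ x, F x t * u n x‖ ≤ ∫ x, δ * K * e x t := by
    refine norm_integral_le_of_norm_le ((ie t ht).const_mul _) (Eventually.of_forall fun x => ?_)
    rw [Real.norm_eq_abs, abs_mul]
    calc |F x t| * |u n x| ≤ K * e x t * δ :=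
          mul_le_mul (hF t ht x) (hn x) (abs_nonneg _) ((abs_nonneg _).trans (hF t ht x))
      _ = _ := by ring
  rw [integral_const_mul] at h1
  have h2 := mul_le_mul_of_nonneg_left ((he t ht).trans (le_abs_self E0))
    (mul_nonneg hδ0.le hK)
  nlinarith

theorem press_unif_add {S : Set ℝ} {f g : ℕ → ℝ → ℝ}
    (hf : TendstoUniformlyOn f (fun _ => 0) atTop S) (hg : TendstoUniformlyOn g (fun _ => 0) atTop S) :
    TendstoUniformlyOn (fun n t => f n t + g n t) (fun _ => 0) atTop S := by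
  have h := hf.add hg
  simpa [Pi.add_def] using h

theorem press_unif_sum {S : Set ℝ} {f : Fin 3 → ℕ → ℝ → ℝ}
    (hf : ∀ k, TendstoUniformlyOn (f k) (fun _ => 0) atTop S) :
    TendstoUniformlyOn (fun n t => ∑ k, f k n t) (fun _ => 0) atTop S := by
  simp only [Fin.sum_univ_three]
  exact press_unif_add (press_unif_add (hf 0) (hf 1)) (hf 2)

theorem press_unif_mul {S : Set ℝ} {f : ℕ → ℝ → ℝ} (r : ℝ)
    (hf : TendstoUniformlyOn f (fun _ => 0) atTop S) :
    TendstoUniformlyOn (fun n t => r * f n t) (fun _ => 0) atTop S := by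
  have h := (ContinuousLinearMap.mul ℝ ℝ r).uniformContinuous.comp_tendstoUniformlyOn hf
  simpa [Function.comp_def] using h

/-- If functions and the oscillating parts of their derivatives tend to zero, the fixed part of the
derivatives vanishes. -/
theorem press_limit {T : ℝ} (hT : 0 < T) {G D e : ℕ → ℝ → ℝ} {L : ℝ → ℝ}
    (hG : ∀ n, ∀ t ∈ Icc 0 T, HasDerivWithinAt (G n) (D n t) (Icc 0 T) t)
    (hc : ∀ n, ContinuousOn (D n) (Icc 0 T))
    (h0 : TendstoUniformlyOn G (fun _ => 0) atTop (Icc 0 T))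
    (he : TendstoUniformlyOn e (fun _ => 0) atTop (Icc 0 T))
    (hD : ∀ n, ∀ t ∈ Icc 0 T, D n t = e n t + L t) {t : ℝ} (ht : t ∈ Icc 0 T) : L t = 0 := by
  have h1 : TendstoUniformlyOn D L atTop (Icc 0 T) := by
    rw [Metric.tendstoUniformlyOn_iff] at he ⊢
    intro ε hε
    filter_upwards [he ε hε] with n hn s hs
    have := hn s hs
    rw [hD n s hs]
    simpa [Real.dist_eq] using this
  have h2 : ContinuousOn L (Icc 0 T) := h1.continuousOn (Frequently.of_forall hc)
  have h3 : ∀ s ∈ Ioo 0 T, L s = 0 := fun s hs => by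
    have h4 : HasDerivAt (fun _ : ℝ => (0 : ℝ)) (L s) s :=
      hasDerivAt_of_tendstoUniformlyOn isOpen_Ioo (h1.mono Ioo_subset_Icc_self)
        (Eventually.of_forall fun n x hx =>
          (hG n x (Ioo_subset_Icc_self hx)).hasDerivAt (Icc_mem_nhds hx.1 hx.2))
        (fun x hx => h0.tendsto_at (Ioo_subset_Icc_self hx)) hs
    exact h4.unique (hasDerivAt_const s 0)
  have h5 : EqOn L (fun _ => 0) (Icc 0 T) :=
    EqOn.of_subset_closure h3 h2 continuousOn_const Ioo_subset_Icc_self
      (by rw [closure_Ioo hT.ne])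
  exact h5 ht

end

end Pool.Agent.Work.MP_6bf1e5_an.Ens
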