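import Mathlib

/-!
Definitions used in the statement about finitely many divergence-free fields on `ℝ³` that solve
Navier-Stokes equations coupled by a constant tensor in the transport term.
-/

open scoped ContDiff ENNReal
open Set MeasureTheory

namespace Pool.Agent.Work.MP_6bf1e5_an.Ens

noncomputable section

/-- Euclidean three-space. -/
abbrev R3 := EuclideanSpace ℝ (Fin 3)

/-- The derivative of `f` at `x` in the `j`-th coordinate direction. -/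
def pd (j : Fin 3) (f : R3 → ℝ) (x : R3) : ℝ := fderiv ℝ f x (EuclideanSpace.single j 1)

/-- `(u, p)` is a smooth solution on `ℝ³ × I` of
`∂ₜ uᵃ + ∑ b d, c a b d (uᵇ·∇) uᵈ + ∇ pᵃ = ν Δ uᵃ`, `div uᵃ = 0`, `uᵃ(·,0) = u0 a`. -/
structure CSol {ι : Type} [Fintype ι] (ν : ℝ) (c : ι → ι → ι → ℝ) (u0 : ι → R3 → R3)
    (I : Set ℝ) (u : ι → R3 → ℝ → R3) (p : ι → R3 → ℝ → ℝ) : Prop where
  smooth_u : ∀ a, ContDiffOn ℝ ∞ (fun z : R3 × ℝ => u a z.1 z.2) (univ ×ˢ I)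
  smooth_p : ∀ a, ContDiffOn ℝ ∞ (fun z : R3 × ℝ => p a z.1 z.2) (univ ×ˢ I)
  momentum : ∀ a x, ∀ t ∈ I, ∀ i,
    derivWithin (fun s => u a x s i) I t
      + ∑ b, ∑ d, c a b d * ∑ j, u b x t j * pd j (fun y => u d y t i) x
      + pd i (fun y => p a y t) x = ν * ∑ j, pd j (pd j fun y => u a y t i) x
  divFree : ∀ a x, ∀ t ∈ I, ∑ i, pd i (fun y => u a y t i) x = 0
  initial : ∀ a x, u a x 0 = u0 a x

/-- The total energy `∑ a, ∫ |vᵃ|²` (possibly infinite). -/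
def energy {ι : Type} [Fintype ι] (v : ι → R3 → R3) : ℝ≥0∞ := ∑ a, ∫⁻ x, ‖v a x‖ₑ ^ 2

end

end Pool.Agent.Work.MP_6bf1e5_an.Ens
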