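import Pool.Agent.Work.MP_6bf1e5_an.Ens.Basic

/-!
The equation tested with a compactly supported field (integration by parts; the transport term is put in
divergence form with `divFree`).
-/

open scoped ContDiff ENNReal FourierTransform Topology ComplexConjugate
open Set MeasureTheory Filter Polynomial Metric

namespace Pool.Agent.Work.MP_6bf1e5_an.Ens

noncomputable section

variable {ι : Type} [Fintype ι]

variable {ν T : ℝ} {c : ι → ι → ι → ℝ} {v0 : ι → R3 → R3} {v : ι → R3 → ℝ → R3} {q : ι → R3 → ℝ → ℝ}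

theorem CSol.jflux {I : Set ℝ} (h : CSol ν c v0 I v q) (a : ι) (i j : Fin 3) :
    JS I fun x t => flux c (fun b y => v b y t) a i j x :=
  JS.sum _ fun b _ => JS.sum _ fun d _ => ((h.ju b j).mul (h.ju d i)).const_mul _

theorem weak_sq_le_den (w : ι → R3 → R3) (a : ι) (i : Fin 3) (x : R3) : w a x i ^ 2 ≤ den w x :=
  (Finset.single_le_sum (f := fun i => w a x i ^ 2) (fun _ _ => sq_nonneg _)
    (Finset.mem_univ i)).trans
    (Finset.single_le_sum (f := fun a => ∑ i, w a x i ^ 2) (fun _ _ => by positivity)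
      (Finset.mem_univ a))

theorem exists_flux_le (c : ι → ι → ι → ℝ) : ∃ K : ℝ, 0 ≤ K ∧ ∀ (w : ι → R3 → R3) a i j x,
    |flux c w a i j x| ≤ K * den w x := by
  refine ⟨∑ a, ∑ b, ∑ d, |c a b d|, by positivity, fun w a i j x => ?_⟩
  have h0 : 0 ≤ den w x := (sq_nonneg _).trans (weak_sq_le_den w a i x)
  calc |flux c w a i j x| ≤ ∑ b, ∑ d, |c a b d| * den w x := by
        refine (Finset.abs_sum_le_sum_abs _ _).trans (Finset.sum_le_sum fun b _ => ?_)
        refine (Finset.abs_sum_le_sum_abs _ _).trans (Finset.sum_le_sum fun d _ => ?_)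
        rw [abs_mul]
        refine mul_le_mul_of_nonneg_left ?_ (abs_nonneg _)
        have h1 := weak_sq_le_den w b j x
        have h2 := weak_sq_le_den w d i x
        rw [abs_le]
        constructor <;> nlinarith [sq_nonneg (w b x j + w d x i), sq_nonneg (w b x j - w d x i)]
    _ = (∑ b, ∑ d, |c a b d|) * den w x := by simp only [Finset.sum_mul]
    _ ≤ _ := mul_le_mul_of_nonneg_right
        (Finset.single_le_sum (f := fun a => ∑ b, ∑ d, |c a b d|) (fun _ _ => by positivity)
          (Finset.mem_univ a)) h0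

theorem sq_le_den (w : ι → R3 → R3) (a : ι) (i : Fin 3) (x : R3) : w a x i ^ 2 ≤ den w x :=
  weak_sq_le_den w a i x

theorem weak_div {I : Set ℝ} (h : CSol ν c v0 I v q) (a : ι) (i : Fin 3) {t : ℝ} (ht : t ∈ I)
    (x : R3) : ∑ j, pd j (flux c (fun b y => v b y t) a i j) x
      = ∑ b, ∑ d, c a b d * ∑ j, v b x t j * pd j (fun y => v d y t i) x := by
  have hs : ∀ b k, Differentiable ℝ fun y => v b y t k := fun b k =>
    ((h.ju b k).slice ht).differentiable (by simp)
  have e : ∀ j, pd j (flux c (fun b y => v b y t) a i j) x = ∑ b, ∑ d, c a b d *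
      (pd j (fun y => v b y t j) x * v d x t i + v b x t j * pd j (fun y => v d y t i) x) := by
    intro j
    have hd : ∀ b d, DifferentiableAt ℝ (fun y => c a b d * (v b y t j * v d y t i)) x :=
      fun b d => ((hs b j x).mul (hs d i x)).const_mul _
    change pd j (fun y => ∑ b, ∑ d, c a b d * (v b y t j * v d y t i)) x = _
    rw [pd_sum _ fun b _ => DifferentiableAt.fun_sum fun d _ => hd b d]
    refine Finset.sum_congr rfl fun b _ => ?_
    rw [pd_sum _ fun d _ => hd b d]
    refine Finset.sum_congr rfl fun d _ => ?_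
    rw [pd_const_mul, pd_mul (hs b j x) (hs d i x)]
  simp only [e]
  rw [Finset.sum_comm]
  refine Finset.sum_congr rfl fun b _ => ?_
  rw [Finset.sum_comm]
  refine Finset.sum_congr rfl fun d _ => ?_
  rw [← Finset.mul_sum, Finset.sum_add_distrib, ← Finset.sum_mul, h.divFree b x t ht, zero_mul,
    zero_add]

theorem weak_one {I : Set ℝ} (h : CSol ν c v0 I v q) {φ : R3 → ℝ} (hφ : Test φ) (a : ι)
    (i : Fin 3) {t : ℝ} (ht : t ∈ I) :
    ∫ x, derivWithin (fun s => v a x s i) I t * φ x
      = ν * (∫ x, v a x t i * ∑ j, pd j (pd j φ) x)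
        + (∑ j, ∫ x, flux c (fun b y => v b y t) a i j x * pd j φ x)
        - ∫ x, pd i (fun y => q a y t) x * φ x := by
  have hv := (h.ju a i).slice ht
  have hf : ∀ j, ContDiff ℝ ∞ (flux c (fun b y => v b y t) a i j) := fun j =>
    (h.jflux a i j).slice ht
  have hq := (h.jp a).slice ht
  have i1 := fun j => hφ.integrable_mul (contDiff_pd (contDiff_pd hv j) j).continuous
  have i2 := fun j => hφ.integrable_mul (contDiff_pd (hf j) j).continuous
  have i3 := hφ.integrable_mul (contDiff_pd hq i).continuous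
  have e : ∀ x, derivWithin (fun s => v a x s i) I t * φ x
      = ν * (∑ j, pd j (pd j fun y => v a y t i) x * φ x)
        - (∑ j, pd j (flux c (fun b y => v b y t) a i j) x * φ x)
        - pd i (fun y => q a y t) x * φ x := fun x => by
    rw [← Finset.sum_mul, ← Finset.sum_mul, weak_div h a i ht]
    linear_combination φ x * h.momentum a x t ht i
  have j1 := (integrable_finsetSum Finset.univ fun j _ => i1 j).const_mul ν
  have j2 := integrable_finsetSum Finset.univ fun j _ => i2 j
  simp only [e]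
  rw [integral_sub (j1.sub' j2) i3, integral_sub j1 j2, integral_const_mul,
    integral_finsetSum _ fun j _ => i1 j, integral_finsetSum _ fun j _ => i2 j]
  have e1 : ∀ j, ∫ x, pd j (pd j fun y => v a y t i) x * φ x
      = ∫ x, v a x t i * pd j (pd j φ) x := fun j => by
    rw [integral_pd_mul (contDiff_pd hv j) hφ j, integral_pd_mul hv (hφ.pd j) j, neg_neg]
  have e2 : ∀ j, ∫ x, pd j (flux c (fun b y => v b y t) a i j) x * φ x
      = -∫ x, flux c (fun b y => v b y t) a i j x * pd j φ x := fun j =>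
    integral_pd_mul (hf j) hφ j
  simp only [e1, e2]
  rw [← integral_finsetSum _ fun j _ => ((hφ.pd j).pd j).integrable_mul hv.continuous,
    Finset.sum_neg_distrib, sub_neg_eq_add]
  simp only [Finset.mul_sum]

theorem CSol.weak (h : CSol ν c v0 (Icc 0 T) v q) (hT : 0 < T) {Φ : Fin 3 → R3 → ℝ}
    (hΦ : ∀ i, Test (Φ i)) (a : ι) {t : ℝ} (ht : t ∈ Icc 0 T) :
    HasDerivWithinAt (fun s => ∑ i, ∫ x, v a x s i * Φ i x)
      (ν * (∑ i, ∫ x, v a x t i * ∑ j, pd j (pd j (Φ i)) x)
        + (∑ i, ∑ j, ∫ x, flux c (fun b y => v b y t) a i j x * pd j (Φ i) x)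
        - ∑ i, ∫ x, pd i (fun y => q a y t) x * Φ i x) (Icc 0 T) t := by
  have key := HasDerivWithinAt.fun_sum (u := Finset.univ) fun i _ =>
    JS.hasDerivWithinAt_integral hT (h.ju a i) (hΦ i) ht
  refine key.congr_deriv ?_
  rw [Finset.mul_sum, ← Finset.sum_add_distrib, ← Finset.sum_sub_distrib]
  exact Finset.sum_congr rfl fun i _ => weak_one h (hΦ i) a i ht

theorem CSol.integral_grad {I : Set ℝ} (h : CSol ν c v0 I v q) {χ : R3 → ℝ} (hχ : Test χ) (a : ι)
    {t : ℝ} (ht : t ∈ I) : ∑ i, ∫ x, v a x t i * pd i χ x = 0 := by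
  have hs := fun i => (h.ju a i).slice ht
  have e : ∀ i, ∫ x, v a x t i * pd i χ x = -∫ x, pd i (fun y => v a y t i) x * χ x := fun i => by
    rw [integral_pd_mul (hs i) hχ i, neg_neg]
  simp only [e]
  rw [Finset.sum_neg_distrib, ← integral_finsetSum _ fun i _ =>
    hχ.integrable_mul (contDiff_pd (hs i) i).continuous]
  simp only [← Finset.sum_mul, h.divFree a _ t ht, zero_mul, integral_zero, neg_zero]

end

end Pool.Agent.Work.MP_6bf1e5_an.Ens
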